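import Mathlib

/-!
# Route A', file 0a: indicators, averages, the scale `X k = x ^ k`
-/

set_option autoImplicit false
set_option linter.unusedVariables false
set_option linter.unusedSectionVars false

open Finset

namespace MP5cA

/-! ## indicators -/

open Classical in
/-- indicator of a proposition -/
noncomputable def ind (p : Prop) : ℝ := if p then 1 else 0

lemma ind_pos {p : Prop} (h : p) : ind p = 1 := by unfold ind; rw [if_pos h]

lemma ind_neg {p : Prop} (h : ¬ p) : ind p = 0 := by unfold ind; rw [if_neg h]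

lemma ind_nonneg (p : Prop) : 0 ≤ ind p := by
  by_cases h : p
  · rw [ind_pos h]; norm_num
  · rw [ind_neg h]

lemma ind_le_one (p : Prop) : ind p ≤ 1 := by
  by_cases h : p
  · rw [ind_pos h]
  · rw [ind_neg h]; norm_num

lemma ind_sq (p : Prop) : ind p ^ 2 = ind p := by
  by_cases h : p
  · rw [ind_pos h]; norm_num
  · rw [ind_neg h]; norm_num

lemma ind_mul_self (p : Prop) : ind p * ind p = ind p := by
  rw [← sq, ind_sq]

lemma ind_mono {p q : Prop} (h : p → q) : ind p ≤ ind q := by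
  by_cases hp : p
  · rw [ind_pos hp, ind_pos (h hp)]
  · rw [ind_neg hp]; exact ind_nonneg q

lemma ind_congr {p q : Prop} (h : p ↔ q) : ind p = ind q :=
  le_antisymm (ind_mono h.1) (ind_mono h.2)

lemma ind_not (p : Prop) : ind (¬ p) = 1 - ind p := by
  by_cases hp : p
  · rw [ind_pos hp, ind_neg (not_not.2 hp)]; norm_num
  · rw [ind_neg hp, ind_pos hp]; norm_num

lemma ind_and (p q : Prop) : ind (p ∧ q) = ind p * ind q := by
  by_cases hp : p
  · by_cases hq : q
    · rw [ind_pos hp, ind_pos hq, ind_pos ⟨hp, hq⟩]; norm_num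
    · rw [ind_pos hp, ind_neg hq, ind_neg (fun h => hq h.2)]; norm_num
  · rw [ind_neg hp, ind_neg (fun h => hp h.1)]; norm_num

lemma ind_or_le (p q : Prop) : ind (p ∨ q) ≤ ind p + ind q := by
  by_cases hp : p
  · rw [ind_pos hp, ind_pos (Or.inl hp)]; linarith [ind_nonneg q]
  · by_cases hq : q
    · rw [ind_pos hq, ind_pos (Or.inr hq)]; linarith [ind_nonneg p]
    · rw [ind_neg (by tauto)]; linarith [ind_nonneg p, ind_nonneg q]

lemma ind_not_mono {p q : Prop} (h : q → p) : ind (¬ p) ≤ ind (¬ q) := ind_mono fun hp hq => hp (h hq)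

/-! ## averages -/

variable {V : Type} [Fintype V]

/-- average over `V` -/
noncomputable def av (f : V → ℝ) : ℝ := (∑ v, f v) / (Fintype.card V : ℝ)

lemma av_add (f g : V → ℝ) : av (fun v => f v + g v) = av f + av g := by
  unfold av; rw [Finset.sum_add_distrib, add_div]

lemma av_sub (f g : V → ℝ) : av (fun v => f v - g v) = av f - av g := by
  unfold av; rw [Finset.sum_sub_distrib, sub_div]

lemma av_mul_left (c : ℝ) (f : V → ℝ) : av (fun v => c * f v) = c * av f := by
  unfold av; rw [← Finset.mul_sum, mul_div_assoc]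

lemma av_mul_right (c : ℝ) (f : V → ℝ) : av (fun v => f v * c) = av f * c := by
  unfold av; rw [← Finset.sum_mul]; ring

lemma av_zero : av (fun _ : V => (0 : ℝ)) = 0 := by
  unfold av; simp

lemma av_congr {f g : V → ℝ} (h : ∀ v, f v = g v) : av f = av g := by
  unfold av; rw [Finset.sum_congr rfl fun v _ => h v]

lemma av_mono {f g : V → ℝ} (h : ∀ v, f v ≤ g v) : av f ≤ av g := by
  unfold av
  exact div_le_div_of_nonneg_right (Finset.sum_le_sum fun v _ => h v) (Nat.cast_nonneg _)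

lemma av_nonneg {f : V → ℝ} (h : ∀ v, 0 ≤ f v) : 0 ≤ av f := by
  unfold av
  exact div_nonneg (Finset.sum_nonneg fun v _ => h v) (Nat.cast_nonneg _)

lemma av_const [Nonempty V] (c : ℝ) : av (fun _ : V => c) = c := by
  unfold av
  have : (Fintype.card V : ℝ) ≠ 0 := by exact_mod_cast Fintype.card_ne_zero
  rw [Finset.sum_const, Finset.card_univ, nsmul_eq_mul]
  field_simp

lemma av_le_const {f : V → ℝ} {c : ℝ} (hc : 0 ≤ c) (h : ∀ v, f v ≤ c) : av f ≤ c := by
  rcases isEmpty_or_nonempty V with hV | hV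
  · unfold av
    simp only [Finset.univ_eq_empty, Finset.sum_empty, zero_div]
    exact hc
  · calc av f ≤ av (fun _ : V => c) := av_mono h
      _ = c := av_const c

lemma const_le_av [Nonempty V] {f : V → ℝ} {c : ℝ} (h : ∀ v, c ≤ f v) : c ≤ av f := by
  calc c = av (fun _ : V => c) := (av_const c).symm
    _ ≤ av f := av_mono h

lemma av_comm {W : Type} [Fintype W] (f : V → W → ℝ) :
    av (fun v => av (fun w => f v w)) = av (fun w => av (fun v => f v w)) := by
  unfold av
  simp only [Finset.sum_div]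
  rw [Finset.sum_comm]
  refine Finset.sum_congr rfl fun w _ => Finset.sum_congr rfl fun v _ => ?_
  rw [div_right_comm]

lemma av_sum {ι : Type} (s : Finset ι) (f : ι → V → ℝ) :
    av (fun v => ∑ i ∈ s, f i v) = ∑ i ∈ s, av (f i) := by
  unfold av
  rw [Finset.sum_comm, Finset.sum_div]

lemma abs_av_le (f : V → ℝ) : |av f| ≤ av (fun v => |f v|) := by
  unfold av
  rw [abs_div, Nat.abs_cast]
  exact div_le_div_of_nonneg_right (Finset.abs_sum_le_sum_abs _ _) (Nat.cast_nonneg _)

lemma sum_eq_card_mul_av [Nonempty V] (f : V → ℝ) : ∑ v, f v = (Fintype.card V : ℝ) * av f := by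
  unfold av
  have : (Fintype.card V : ℝ) ≠ 0 := by exact_mod_cast Fintype.card_ne_zero
  field_simp

lemma single_le_av {f : V → ℝ} (h : ∀ v, 0 ≤ f v) (v : V) : f v / (Fintype.card V : ℝ) ≤ av f := by
  unfold av
  exact div_le_div_of_nonneg_right (Finset.single_le_sum (fun w _ => h w) (Finset.mem_univ v))
    (Nat.cast_nonneg _)

lemma av_ind_mem [DecidableEq V] (F : Finset V) :
    av (fun w => ind (w ∈ F)) = (F.card : ℝ) / (Fintype.card V : ℝ) := by
  have h : ∑ v, ind (v ∈ F) = (F.card : ℝ) := by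
    have h1 : ∀ v, ind (v ∈ F) = if v ∈ F then (1 : ℝ) else 0 := by
      intro v
      by_cases hv : v ∈ F
      · rw [ind_pos hv, if_pos hv]
      · rw [ind_neg hv, if_neg hv]
    rw [Finset.sum_congr rfl fun v _ => h1 v, Finset.sum_ite_mem, Finset.univ_inter,
      Finset.sum_const, nsmul_eq_mul, mul_one]
  unfold av
  rw [h]

lemma av_ind_eq [DecidableEq V] (v : V) : av (fun w => ind (w = v)) = 1 / (Fintype.card V : ℝ) := by
  have h := av_ind_mem ({v} : Finset V)
  rw [Finset.card_singleton, Nat.cast_one] at h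
  rw [← h]
  exact av_congr fun w => ind_congr (by simp)

lemma av_mul_ind_eq [DecidableEq V] (v : V) (f : V → ℝ) :
    av (fun w => f w * ind (w = v)) = f v / (Fintype.card V : ℝ) := by
  unfold av
  congr 1
  rw [Finset.sum_eq_single v]
  · rw [ind_pos rfl, mul_one]
  · intro w _ hw
    rw [ind_neg hw, mul_zero]
  · intro h
    exact absurd (Finset.mem_univ v) h

/-- Cauchy–Schwarz -/
lemma av_mul_sq_le (f g : V → ℝ) :
    (av (fun v => f v * g v)) ^ 2 ≤ av (fun v => f v ^ 2) * av (fun v => g v ^ 2) := by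
  unfold av
  rw [div_pow, div_mul_div_comm, ← sq]
  exact div_le_div_of_nonneg_right (Finset.sum_mul_sq_le_sq_mul_sq _ _ _) (by positivity)

lemma av_mul_le {f g : V → ℝ} {a b : ℝ} (ha : 0 ≤ a) (hb : 0 ≤ b)
    (hf : av (fun v => f v ^ 2) ≤ a ^ 2) (hg : av (fun v => g v ^ 2) ≤ b ^ 2) :
    av (fun v => f v * g v) ≤ a * b := by
  have h1 := av_mul_sq_le f g
  have h2 : (av (fun v => f v * g v)) ^ 2 ≤ (a * b) ^ 2 := by
    calc _ ≤ _ := h1
      _ ≤ a ^ 2 * b ^ 2 := by
        apply mul_le_mul hf hg (av_nonneg fun v => by positivity) (by positivity)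
      _ = (a * b) ^ 2 := by ring
  exact le_of_abs_le (abs_le_of_sq_le_sq h2 (by positivity))

/-- Jensen -/
lemma av_sq_le [Nonempty V] (f : V → ℝ) : (av f) ^ 2 ≤ av (fun v => f v ^ 2) := by
  have h := av_mul_sq_le f (fun _ => 1)
  simp only [mul_one, one_pow] at h
  rwa [av_const, mul_one] at h

lemma av_le_of_sq [Nonempty V] {f : V → ℝ} {a : ℝ} (ha : 0 ≤ a)
    (hf : av (fun v => f v ^ 2) ≤ a ^ 2) : av f ≤ a :=
  le_of_abs_le (abs_le_of_sq_le_sq ((av_sq_le f).trans hf) ha)

/-- Minkowski -/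
lemma av_add_sq_le {f g : V → ℝ} {a b : ℝ} (ha : 0 ≤ a) (hb : 0 ≤ b)
    (hf : av (fun v => f v ^ 2) ≤ a ^ 2) (hg : av (fun v => g v ^ 2) ≤ b ^ 2) :
    av (fun v => (f v + g v) ^ 2) ≤ (a + b) ^ 2 := by
  have h := av_mul_le ha hb hf hg
  calc av (fun v => (f v + g v) ^ 2)
      = av (fun v => f v ^ 2) + 2 * av (fun v => f v * g v) + av (fun v => g v ^ 2) := by
        rw [← av_mul_left, ← av_add, ← av_add]
        exact av_congr fun v => by ring
    _ ≤ a ^ 2 + 2 * (a * b) + b ^ 2 := by gcongr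
    _ = (a + b) ^ 2 := by ring

/-! ## parameters -/

/-- the parameters: `r = x ^ 10000`, `eps = Lam / r ^ 2`, `exp (10 ^ 9 Lam) ≤ x` -/
structure Par where
  r : ℕ
  x : ℝ
  Lam : ℝ
  hx0 : 0 < x
  hr : x ^ 10000 = (r : ℝ)
  hLam : 1 ≤ Lam
  hP : Real.exp (1000000000 * Lam) ≤ x

namespace Par

variable (P : Par)

/-- the scale -/
noncomputable def X (k : ℤ) : ℝ := P.x ^ k

lemma X_pos (k : ℤ) : 0 < P.X k := zpow_pos P.hx0 k

lemma X_ne (k : ℤ) : P.X k ≠ 0 := (P.X_pos k).ne'

lemma X_zero : P.X 0 = 1 := by unfold X; simp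

lemma X_one : P.X 1 = P.x := by unfold X; simp

lemma X_mul (a b : ℤ) : P.X a * P.X b = P.X (a + b) := by
  unfold X; rw [zpow_add₀ P.hx0.ne']

lemma X_add (a b : ℤ) : P.X (a + b) = P.X a * P.X b := (P.X_mul a b).symm

lemma X_pow (a : ℤ) (k : ℕ) : P.X a ^ k = P.X (a * k) := by
  unfold X; rw [← zpow_natCast, ← zpow_mul]

lemma X_inv (a : ℤ) : (P.X a)⁻¹ = P.X (-a) := by
  unfold X; rw [zpow_neg]

lemma X_div (a b : ℤ) : P.X a / P.X b = P.X (a - b) := by
  rw [div_eq_mul_inv, X_inv, X_mul, sub_eq_add_neg]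

lemma r_eq : (P.r : ℝ) = P.X 10000 := by
  unfold X
  rw [← P.hr]
  exact (zpow_natCast P.x 10000).symm

lemma exp_le {c : ℝ} (hc : c ≤ 1000000000) : Real.exp (c * P.Lam) ≤ P.x := by
  refine le_trans (Real.exp_le_exp.2 ?_) P.hP
  exact mul_le_mul_of_nonneg_right hc (by linarith [P.hLam])

lemma exp_const_le {c : ℝ} (hc : c ≤ 1000000000) : Real.exp c ≤ P.x := by
  rcases le_or_gt 0 c with h | h
  · refine le_trans (Real.exp_le_exp.2 ?_) (P.exp_le hc)
    nlinarith [P.hLam]
  · refine le_trans (Real.exp_le_exp.2 ?_) (P.exp_le (c := 0) (by norm_num))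
    simp only [zero_mul]
    linarith

/-- numbers up to `2 ^ 1000000` are `≤ x` -/
lemma two_pow_le {k : ℕ} (hk : k ≤ 1000000000) : (2 : ℝ) ^ k ≤ P.x := by
  have h1 : (2 : ℝ) ≤ Real.exp 1 := by
    have := Real.add_one_le_exp (1 : ℝ)
    linarith
  calc (2 : ℝ) ^ k ≤ (Real.exp 1) ^ k := by gcongr
    _ = Real.exp (k : ℝ) := by rw [← Real.exp_nat_mul, mul_one]
    _ ≤ P.x := P.exp_const_le (by exact_mod_cast hk)

lemma one_le_x : 1 ≤ P.x := by
  have := P.two_pow_le (k := 0) (by norm_num)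
  simpa using this

lemma one_lt_x : 1 < P.x := by
  have := P.two_pow_le (k := 1) (by norm_num)
  linarith

lemma X_le {a b : ℤ} (h : a ≤ b) : P.X a ≤ P.X b := by
  unfold X; exact zpow_le_zpow_right₀ P.one_le_x h

lemma X_le_one {a : ℤ} (h : a ≤ 0) : P.X a ≤ 1 := by
  rw [← P.X_zero]; exact P.X_le h

lemma one_le_X {a : ℤ} (h : 0 ≤ a) : 1 ≤ P.X a := by
  rw [← P.X_zero]; exact P.X_le h

/-- absorb a constant -/
lemma mul_X_le {c : ℝ} {a b : ℤ} (hc : c ≤ P.x) (h : a + 1 ≤ b) : c * P.X a ≤ P.X b := by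
  calc c * P.X a ≤ P.x * P.X a := mul_le_mul_of_nonneg_right hc (P.X_pos a).le
    _ = P.X (1 + a) := by rw [X_add, X_one]
    _ ≤ P.X b := P.X_le (by omega)

/-- `c * Lam ^ j ≤ x` for moderate `c`, `j` -/
lemma absorb {c : ℝ} {k j : ℕ} (hc : c ≤ 2 ^ k) (hk : k ≤ 100000000) (hj : j ≤ 100000000) :
    c * P.Lam ^ j ≤ P.x := by
  have hL : 0 ≤ P.Lam := by linarith [P.hLam]
  have h1 : P.Lam ^ j ≤ Real.exp (j * P.Lam) := by
    rw [Real.exp_nat_mul]
    have : P.Lam ≤ Real.exp P.Lam := by linarith [Real.add_one_le_exp P.Lam]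
    gcongr
  have h2 : (2 : ℝ) ^ k ≤ Real.exp (k * P.Lam) := by
    rw [Real.exp_nat_mul]
    have : (2 : ℝ) ≤ Real.exp P.Lam := by
      have := Real.add_one_le_exp P.Lam
      linarith [P.hLam]
    gcongr
  calc c * P.Lam ^ j ≤ 2 ^ k * P.Lam ^ j := by gcongr
    _ ≤ Real.exp (k * P.Lam) * Real.exp (j * P.Lam) := by gcongr
    _ = Real.exp ((k + j : ℝ) * P.Lam) := by rw [← Real.exp_add]; ring_nf
    _ ≤ P.x := P.exp_le (by
        have h3 : (k : ℝ) ≤ 100000000 := by exact_mod_cast hk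
        have h4 : (j : ℝ) ≤ 100000000 := by exact_mod_cast hj
        linarith)

/-- super-polynomially small quantities -/
lemma exp_X_le {k : ℤ} (hk : 10 ≤ k) {c : ℝ} (hc : P.X k ≤ c) :
    Real.exp (-c) ≤ P.X (-2000000) := by
  have h1 : P.X 1 * 2000000 ≤ P.X k := by
    calc P.X 1 * 2000000 = 2000000 * P.X 1 := by ring
      _ ≤ P.X 2 := P.mul_X_le (by
          have := P.two_pow_le (k := 21) (by norm_num)
          norm_num at this
          linarith) (by norm_num)
      _ ≤ P.X k := P.X_le (by omega)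
  have h2 : Real.log P.x ≤ P.x := (Real.log_le_sub_one_of_pos P.hx0).trans (by linarith)
  have h3 : P.X (-2000000) = Real.exp (-(2000000 * Real.log P.x)) := by
    unfold X
    rw [← Real.rpow_intCast, Real.rpow_def_of_pos P.hx0]
    congr 1
    push_cast
    ring
  rw [h3]
  apply Real.exp_le_exp.2
  rw [X_one] at h1
  linarith

lemma Lam_pos : 0 < P.Lam := by linarith [P.hLam]

lemma Lam_le_x : P.Lam ≤ P.x := by
  have := P.absorb (c := 1) (k := 0) (j := 1) (by norm_num) (by norm_num) (by norm_num)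
  simpa using this

/-- hazard density -/
noncomputable def eps : ℝ := P.Lam * P.X (-20000)

/-- slot length -/
noncomputable def zeta : ℝ := P.X (-100000)

/-- window for `Y'` times `r`, plus one half -/
noncomputable def y0 : ℝ := 10 * P.Lam + 1

/-- exponent of the level three factors -/
noncomputable def Kp : ℝ := 50 * P.Lam + 17

/-- threshold for strong pairs -/
noncomputable def theta : ℝ := P.X (-20040)

/-- number of slots -/
def T : ℕ := 5 * P.r ^ 11

lemma T_eq : (P.T : ℝ) = 5 * P.X 110000 := by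
  unfold T
  push_cast
  rw [r_eq, X_pow]
  norm_num

lemma zeta_pos : 0 < P.zeta := P.X_pos _

lemma zeta_T : P.zeta * P.T = 5 * P.X 10000 := by
  rw [T_eq, zeta, show P.X (-100000) * (5 * P.X 110000) = 5 * (P.X (-100000) * P.X 110000) by ring,
    X_mul]
  norm_num

lemma eps_pos : 0 < P.eps := mul_pos P.Lam_pos (P.X_pos _)

lemma theta_pos : 0 < P.theta := P.X_pos _

/-- the Gronwall bound of `I2` -/
noncomputable def sS : ℕ → ℝ
  | 0 => 0
  | t + 1 => sS t * (1 + P.zeta * (22 / 10) * P.y0 / P.r) + P.zeta * P.X (-19600)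

/-- the probability normalisation -/
noncomputable def p0 : ℝ := (P.T : ℝ) * (P.T - 1) * (P.T - 2) * (P.zeta / P.X 200000) ^ 3

end Par

end MP5cA
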