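import Mathlib

/-!
# Route A', generic frame

A slot: from the state `s` the vertex `x` is taken with probability `w s x` (new state `take s x`),
otherwise the new state is `emp s`.  (Frozen states: `w s x = 0` and `emp s = s`.)

* `Slot.step S f s` : expectation of `f` after the slot.
* `Ex S i k f s` : expectation of `f` after the `k` slots `S i, ..., S (i+k-1)`, started in `s`.
* `EF mk s0 t f` : expectation of `f` at time `t`, started in `s0`, where the slot at time `t` may
  depend on the functional `EF mk s0 t`.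
* `G S i k e f s` : sum over the placements of the elements of `e` in the slots `i, ..., i+k-1`.
-/

set_option linter.unusedSectionVars false

namespace MP5c.A

open Finset

/-- one slot of the process -/
structure Slot (V St : Type*) where
  w : St → V → ℝ
  take : St → V → St
  emp : St → St

variable {V St : Type*} [Fintype V] [DecidableEq V]

namespace Slot

/-- expectation over one slot -/
noncomputable def step (S : Slot V St) (f : St → ℝ) (s : St) : ℝ :=
  ∑ x, S.w s x * f (S.take s x) + (1 - ∑ x, S.w s x) * f (S.emp s)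

/-- the probabilities of the slot, at `s` -/
structure Ok (S : Slot V St) (s : St) : Prop where
  w0 : ∀ x, 0 ≤ S.w s x
  w1 : ∑ x, S.w s x ≤ 1

variable (S : Slot V St)

theorem step_add (f g : St → ℝ) (s : St) :
    S.step (fun τ => f τ + g τ) s = S.step f s + S.step g s := by
  unfold step
  simp only [mul_add, sum_add_distrib]
  ring

theorem step_smul (c : ℝ) (f : St → ℝ) (s : St) :
    S.step (fun τ => c * f τ) s = c * S.step f s := by
  unfold step
  rw [mul_add, mul_sum]
  congr 1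
  · exact sum_congr rfl fun x _ => by ring
  · ring

theorem step_sub (f g : St → ℝ) (s : St) :
    S.step (fun τ => f τ - g τ) s = S.step f s - S.step g s := by
  have h1 : (fun τ => f τ - g τ) = fun τ => f τ + (-1) * g τ := by
    funext τ
    ring
  rw [h1, step_add, step_smul]
  ring

theorem step_const (c : ℝ) (s : St) : S.step (fun _ => c) s = c := by
  unfold step
  rw [← sum_mul]
  ring

theorem step_sum {ι : Type*} (A : Finset ι) (f : ι → St → ℝ) (s : St) :
    S.step (fun τ => ∑ i ∈ A, f i τ) s = ∑ i ∈ A, S.step (f i) s := by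
  classical
  induction A using Finset.induction_on with
  | empty =>
    have h := S.step_smul 0 (fun _ => 0) s
    simpa using h
  | insert a A ha ih =>
    simp only [sum_insert ha]
    rw [step_add, ih]

theorem step_mono' {f g : St → ℝ} {s : St} (hs : S.Ok s)
    (ht : ∀ x, 0 < S.w s x → f (S.take s x) ≤ g (S.take s x)) (he : f (S.emp s) ≤ g (S.emp s)) :
    S.step f s ≤ S.step g s := by
  unfold step
  refine add_le_add (sum_le_sum fun x _ => ?_)
    (mul_le_mul_of_nonneg_left he (by linarith [hs.w1]))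
  rcases (hs.w0 x).eq_or_lt with h | h
  · rw [← h, zero_mul, zero_mul]
  · exact mul_le_mul_of_nonneg_left (ht x h) h.le

theorem step_congr' {f g : St → ℝ} {s : St}
    (ht : ∀ x, S.w s x ≠ 0 → f (S.take s x) = g (S.take s x)) (he : f (S.emp s) = g (S.emp s)) :
    S.step f s = S.step g s := by
  unfold step
  rw [he]
  congr 1
  refine sum_congr rfl fun x _ => ?_
  by_cases h : S.w s x = 0
  · rw [h, zero_mul, zero_mul]
  · rw [ht x h]

/-- increments -/
theorem step_sub_self (f : St → ℝ) (s : St) : S.step f s - f s =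
    ∑ x, S.w s x * (f (S.take s x) - f s) + (1 - ∑ x, S.w s x) * (f (S.emp s) - f s) := by
  unfold step
  simp only [mul_sub, sum_sub_distrib, ← sum_mul]
  ring

/-- a frozen state -/
theorem step_frozen {s : St} (hw : ∀ x, S.w s x = 0) (he : S.emp s = s) (f : St → ℝ) :
    S.step f s = f s := by
  unfold step
  simp [hw, he]

theorem ok_frozen {s : St} (hw : ∀ x, S.w s x = 0) : S.Ok s where
  w0 x := (hw x).ge
  w1 := by simp [hw]

end Slot

/-! ## expectation over several slots -/

/-- expectation after the slots `S i, ..., S (i+k-1)` -/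
noncomputable def Ex (S : ℕ → Slot V St) : ℕ → ℕ → (St → ℝ) → St → ℝ
  | _, 0, f, s => f s
  | i, k + 1, f, s => (S i).step (Ex S (i + 1) k f) s

/-- a time dependent invariant, with slot probabilities in `[0, 1]` -/
structure IsInv (S : ℕ → Slot V St) (I : ℕ → St → Prop) : Prop where
  emp : ∀ t s, I t s → I (t + 1) ((S t).emp s)
  take : ∀ t s x, I t s → 0 < (S t).w s x → I (t + 1) ((S t).take s x)
  ok : ∀ t s, I t s → (S t).Ok s

variable (S : ℕ → Slot V St)

theorem Ex_zero (i : ℕ) (f : St → ℝ) (s : St) : Ex S i 0 f s = f s := by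
  unfold Ex
  rfl

theorem Ex_succ (i k : ℕ) (f : St → ℝ) (s : St) :
    Ex S i (k + 1) f s = (S i).step (Ex S (i + 1) k f) s := by
  conv_lhs => unfold Ex

theorem Ex_one (i : ℕ) (f : St → ℝ) (s : St) : Ex S i 1 f s = (S i).step f s := by
  rw [Ex_succ]
  congr 1

theorem Ex_add (f g : St → ℝ) (k : ℕ) : ∀ (i : ℕ) (s : St),
    Ex S i k (fun τ => f τ + g τ) s = Ex S i k f s + Ex S i k g s := by
  induction k with
  | zero => intro i s; rw [Ex_zero, Ex_zero, Ex_zero]
  | succ k ih =>
    intro i s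
    have h : Ex S (i + 1) k (fun τ => f τ + g τ) = fun τ => Ex S (i + 1) k f τ + Ex S (i + 1) k g τ :=
      funext (ih (i + 1))
    rw [Ex_succ, h, Slot.step_add, Ex_succ, Ex_succ]

theorem Ex_smul (c : ℝ) (f : St → ℝ) (k : ℕ) : ∀ (i : ℕ) (s : St),
    Ex S i k (fun τ => c * f τ) s = c * Ex S i k f s := by
  induction k with
  | zero => intro i s; rw [Ex_zero, Ex_zero]
  | succ k ih =>
    intro i s
    have h : Ex S (i + 1) k (fun τ => c * f τ) = fun τ => c * Ex S (i + 1) k f τ :=
      funext (ih (i + 1))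
    rw [Ex_succ, h, Slot.step_smul, Ex_succ]

theorem Ex_sub (f g : St → ℝ) (k i : ℕ) (s : St) :
    Ex S i k (fun τ => f τ - g τ) s = Ex S i k f s - Ex S i k g s := by
  have h1 : (fun τ => f τ - g τ) = fun τ => f τ + (-1) * g τ := by
    funext τ
    ring
  rw [h1, Ex_add, Ex_smul]
  ring

theorem Ex_const (c : ℝ) (k : ℕ) : ∀ (i : ℕ) (s : St), Ex S i k (fun _ => c) s = c := by
  induction k with
  | zero => intro i s; rw [Ex_zero]
  | succ k ih =>
    intro i s
    have h : Ex S (i + 1) k (fun _ => c) = fun _ => c := funext (ih (i + 1))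
    rw [Ex_succ, h, Slot.step_const]

theorem Ex_sum {ι : Type*} (A : Finset ι) (f : ι → St → ℝ) (k : ℕ) : ∀ (i : ℕ) (s : St),
    Ex S i k (fun τ => ∑ j ∈ A, f j τ) s = ∑ j ∈ A, Ex S i k (f j) s := by
  induction k with
  | zero => intro i s; simp only [Ex_zero]
  | succ k ih =>
    intro i s
    have h : Ex S (i + 1) k (fun τ => ∑ j ∈ A, f j τ) = fun τ => ∑ j ∈ A, Ex S (i + 1) k (f j) τ :=
      funext (ih (i + 1))
    rw [Ex_succ, h, Slot.step_sum]
    exact sum_congr rfl fun j _ => (Ex_succ S i k (f j) s).symm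

variable {S}

theorem Ex_mono {I : ℕ → St → Prop} (hI : IsInv S I) {f g : St → ℝ} (k : ℕ) :
    ∀ (i : ℕ) {s : St}, I i s → (∀ τ, I (i + k) τ → f τ ≤ g τ) → Ex S i k f s ≤ Ex S i k g s := by
  induction k with
  | zero => intro i s hs h; rw [Ex_zero, Ex_zero]; exact h s hs
  | succ k ih =>
    intro i s hs h
    have h' : ∀ τ, I (i + 1 + k) τ → f τ ≤ g τ := by
      intro τ hτ
      exact h τ (by rwa [show i + (k + 1) = i + 1 + k by omega])
    rw [Ex_succ, Ex_succ]
    exact (S i).step_mono' (hI.ok i s hs) (fun x hx => ih (i + 1) (hI.take i s x hs hx) h')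
      (ih (i + 1) (hI.emp i s hs) h')

theorem Ex_congr {I : ℕ → St → Prop} (hI : IsInv S I) {f g : St → ℝ} (k i : ℕ) {s : St}
    (hs : I i s) (h : ∀ τ, I (i + k) τ → f τ = g τ) : Ex S i k f s = Ex S i k g s :=
  le_antisymm (Ex_mono hI k i hs fun τ hτ => (h τ hτ).le)
    (Ex_mono hI k i hs fun τ hτ => (h τ hτ).ge)

theorem Ex_nonneg {I : ℕ → St → Prop} (hI : IsInv S I) {f : St → ℝ} (k i : ℕ) {s : St}
    (hs : I i s) (h : ∀ τ, I (i + k) τ → 0 ≤ f τ) : 0 ≤ Ex S i k f s := by
  have h1 := Ex_mono hI (f := fun _ => 0) k i hs h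
  rwa [Ex_const] at h1

theorem Ex_abs_le {I : ℕ → St → Prop} (hI : IsInv S I) {f : St → ℝ} {c : ℝ} (k i : ℕ) {s : St}
    (hs : I i s) (h : ∀ τ, I (i + k) τ → |f τ| ≤ c) : |Ex S i k f s| ≤ c := by
  rw [abs_le]
  constructor
  · have h1 := Ex_mono hI (f := fun _ => -c) k i hs fun τ hτ => (abs_le.1 (h τ hτ)).1
    rwa [Ex_const] at h1
  · have h1 := Ex_mono hI (g := fun _ => c) k i hs fun τ hτ => (abs_le.1 (h τ hτ)).2
    rwa [Ex_const] at h1

/-- triangle inequality -/
theorem Ex_abs {I : ℕ → St → Prop} (hI : IsInv S I) (f : St → ℝ) (k i : ℕ) {s : St}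
    (hs : I i s) : |Ex S i k f s| ≤ Ex S i k (fun τ => |f τ|) s := by
  rw [abs_le]
  constructor
  · have h1 := Ex_mono hI (f := fun τ => (-1) * |f τ|) (g := f) k i hs
      fun τ _ => by linarith [neg_abs_le (f τ)]
    rw [Ex_smul] at h1
    linarith
  · exact Ex_mono hI k i hs fun τ _ => le_abs_self (f τ)

variable (S)

/-- the last slot can be split off -/
theorem Ex_succ' (f : St → ℝ) (k : ℕ) : ∀ (i : ℕ) (s : St),
    Ex S i (k + 1) f s = Ex S i k ((S (i + k)).step f) s := by
  induction k with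
  | zero => intro i s; rw [Ex_one, Ex_zero, Nat.add_zero]
  | succ k ih =>
    intro i s
    have h : Ex S (i + 1) (k + 1) f = Ex S (i + 1) k ((S (i + 1 + k)).step f) := funext (ih (i + 1))
    rw [Ex_succ, h, show i + 1 + k = i + (k + 1) by omega, Ex_succ]

theorem Ex_add_time (j k : ℕ) (f : St → ℝ) : ∀ (i : ℕ) (s : St),
    Ex S i (j + k) f s = Ex S i j (Ex S (i + j) k f) s := by
  induction j with
  | zero => intro i s; rw [Nat.zero_add, Ex_zero, Nat.add_zero]
  | succ j ih =>
    intro i s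
    have h : Ex S (i + 1) (j + k) f = Ex S (i + 1) j (Ex S (i + 1 + j) k f) := funext (ih (i + 1))
    rw [show j + 1 + k = (j + k) + 1 by omega, Ex_succ, h, show i + 1 + j = i + (j + 1) by omega,
      Ex_succ]

/-- Dynkin's formula, with a time dependent functional -/
theorem dynkin (g : ℕ → St → ℝ) (k i : ℕ) (s : St) :
    Ex S i k (g (i + k)) s = g i s +
      ∑ j ∈ range k, Ex S i j (fun τ => (S (i + j)).step (g (i + j + 1)) τ - g (i + j) τ) s := by
  induction k with
  | zero => simp [Ex_zero]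
  | succ k ih =>
    rw [sum_range_succ, Ex_sub, Ex_succ', ih, show i + (k + 1) = i + k + 1 by omega]
    ring

variable {S}

/-- martingales -/
theorem Ex_mart {I : ℕ → St → Prop} (hI : IsInv S I) {g : ℕ → St → ℝ}
    (h : ∀ t τ, I t τ → (S t).step (g (t + 1)) τ = g t τ) (k : ℕ) : ∀ (i : ℕ) {s : St}, I i s →
    Ex S i k (g (i + k)) s = g i s := by
  induction k with
  | zero => intro i s _; rw [Ex_zero, Nat.add_zero]
  | succ k ih =>
    intro i s hs
    rw [Ex_succ, show i + (k + 1) = i + 1 + k by omega]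
    rw [(S i).step_congr' (g := g (i + 1))]
    · exact h i s hs
    · intro x hx
      refine ih (i + 1) (hI.take i s x hs (lt_of_le_of_ne ((hI.ok i s hs).w0 x) (Ne.symm hx)))
    · exact ih (i + 1) (hI.emp i s hs)

/-- supermartingales, with a time dependent potential -/
theorem Ex_super {I : ℕ → St → Prop} (hI : IsInv S I) {Φ : ℕ → St → ℝ} (k : ℕ) :
    ∀ (i : ℕ) {s : St}, I i s →
      (∀ t τ, i ≤ t → t < i + k → I t τ → (S t).step (Φ (t + 1)) τ ≤ Φ t τ) →
      Ex S i k (Φ (i + k)) s ≤ Φ i s := by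
  induction k with
  | zero => intro i s _ _; rw [Ex_zero, Nat.add_zero]
  | succ k ih =>
    intro i s hs h
    rw [Ex_succ, show i + (k + 1) = i + 1 + k by omega]
    have h' : ∀ t τ, i + 1 ≤ t → t < i + 1 + k → I t τ → (S t).step (Φ (t + 1)) τ ≤ Φ t τ :=
      fun t τ h1 h2 hτ => h t τ (by omega) (by omega) hτ
    exact ((S i).step_mono' (hI.ok i s hs) (fun x hx => ih (i + 1) (hI.take i s x hs hx) h')
      (ih (i + 1) (hI.emp i s hs) h')).trans (h i s le_rfl (by omega) hs)

/-- submartingales, with a time dependent potential -/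
theorem Ex_sub_mart {I : ℕ → St → Prop} (hI : IsInv S I) {Φ : ℕ → St → ℝ} (k : ℕ) :
    ∀ (i : ℕ) {s : St}, I i s →
      (∀ t τ, i ≤ t → t < i + k → I t τ → Φ t τ ≤ (S t).step (Φ (t + 1)) τ) →
      Φ i s ≤ Ex S i k (Φ (i + k)) s := by
  induction k with
  | zero => intro i s _ _; rw [Ex_zero, Nat.add_zero]
  | succ k ih =>
    intro i s hs h
    rw [Ex_succ, show i + (k + 1) = i + 1 + k by omega]
    have h' : ∀ t τ, i + 1 ≤ t → t < i + 1 + k → I t τ → Φ t τ ≤ (S t).step (Φ (t + 1)) τ :=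
      fun t τ h1 h2 hτ => h t τ (by omega) (by omega) hτ
    exact (h i s le_rfl (by omega) hs).trans ((S i).step_mono' (hI.ok i s hs)
      (fun x hx => ih (i + 1) (hI.take i s x hs hx) h') (ih (i + 1) (hI.emp i s hs) h'))

/-- multiplicative growth: `step Φ ≤ (1 + δ) Φ` gives `Ex k Φ ≤ exp (k δ) Φ` -/
theorem Ex_growth {I : ℕ → St → Prop} (hI : IsInv S I) {Φ : St → ℝ} {δ : ℝ}
    (h0 : ∀ t τ, I t τ → 0 ≤ Φ τ) (h : ∀ t τ, I t τ → (S t).step Φ τ ≤ (1 + δ) * Φ τ)
    (k i : ℕ) {s : St} (hs : I i s) : Ex S i k Φ s ≤ Real.exp (k * δ) * Φ s := by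
  have h1 := Ex_super hI (Φ := fun t τ => Real.exp (((i + k : ℕ) - t : ℝ) * δ) * Φ τ) k i hs
    (by
      intro t τ _ _ hτ
      rw [Slot.step_smul]
      have h2 := h t τ hτ
      have h3 : (1 + δ) * Φ τ ≤ Real.exp δ * Φ τ :=
        mul_le_mul_of_nonneg_right (by linarith [Real.add_one_le_exp δ]) (h0 t τ hτ)
      have h4 := mul_le_mul_of_nonneg_left (h2.trans h3)
        (Real.exp_pos ((((i + k : ℕ) : ℝ) - ((t + 1 : ℕ) : ℝ)) * δ)).le
      refine h4.trans (le_of_eq ?_)
      rw [← mul_assoc, ← Real.exp_add]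
      congr 2
      push_cast
      ring)
  rw [Ex_smul] at h1
  have h5 : (((i + k : ℕ) : ℝ) - ((i + k : ℕ) : ℝ)) * δ = 0 := by ring
  have h6 : (((i + k : ℕ) : ℝ) - (i : ℝ)) * δ = k * δ := by push_cast; ring
  rw [h5, h6, Real.exp_zero, one_mul] at h1
  exact h1

/-- additive growth: `step Φ ≤ Φ + c` gives `Ex k Φ ≤ Φ + k c` -/
theorem Ex_growth_add {I : ℕ → St → Prop} (hI : IsInv S I) {Φ : St → ℝ} {c : ℝ}
    (h : ∀ t τ, I t τ → (S t).step Φ τ ≤ Φ τ + c)
    (k i : ℕ) {s : St} (hs : I i s) : Ex S i k Φ s ≤ Φ s + k * c := by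
  induction k with
  | zero => rw [Ex_zero]; simp
  | succ k ih =>
    rw [Ex_succ']
    have h1 : Ex S i k ((S (i + k)).step Φ) s ≤ Ex S i k (fun τ => Φ τ + c) s :=
      Ex_mono hI k i hs fun τ hτ => h _ τ hτ
    rw [Ex_add, Ex_const] at h1
    push_cast
    linarith

/-- a recursion `step Φ ≤ Φ + Ψ` where the mean of `Ψ` is bounded -/
theorem Ex_growth_sum {I : ℕ → St → Prop} (hI : IsInv S I) {Φ Ψ : St → ℝ} {c : ℝ}
    (i : ℕ) {s : St} (hs : I i s) (k : ℕ)
    (h : ∀ t τ, I t τ → (S t).step Φ τ ≤ Φ τ + Ψ τ)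
    (hc : ∀ j < k, Ex S i j Ψ s ≤ c) : Ex S i k Φ s ≤ Φ s + k * c := by
  induction k with
  | zero => rw [Ex_zero]; simp
  | succ k ih =>
    rw [Ex_succ']
    have h1 : Ex S i k ((S (i + k)).step Φ) s ≤ Ex S i k (fun τ => Φ τ + Ψ τ) s :=
      Ex_mono hI k i hs fun τ hτ => h _ τ hτ
    rw [Ex_add] at h1
    have h2 := ih fun j hj => hc j (by omega)
    have h3 := hc k (by omega)
    push_cast
    linarith

/-! ## probabilities -/

open Classical in
/-- probability of an event -/
noncomputable def Pr (S : ℕ → Slot V St) (i k : ℕ) (A : St → Prop) (s : St) : ℝ :=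
  Ex S i k (fun τ => if A τ then 1 else 0) s

theorem Pr_nonneg {I : ℕ → St → Prop} (hI : IsInv S I) (k i : ℕ) {s : St} (hs : I i s)
    (A : St → Prop) : 0 ≤ Pr S i k A s :=
  Ex_nonneg hI k i hs fun τ _ => by split_ifs <;> norm_num

theorem Pr_le_one {I : ℕ → St → Prop} (hI : IsInv S I) (k i : ℕ) {s : St} (hs : I i s)
    (A : St → Prop) : Pr S i k A s ≤ 1 := by
  have h1 := Ex_mono hI (f := fun τ => @ite _ (A τ) (Classical.propDecidable _) (1 : ℝ) 0)
    (g := fun _ => 1) k i hs fun τ _ => by split_ifs <;> norm_num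
  rwa [Ex_const] at h1

theorem Pr_mono {I : ℕ → St → Prop} (hI : IsInv S I) (k i : ℕ) {s : St} (hs : I i s)
    {A B : St → Prop} (h : ∀ τ, I (i + k) τ → A τ → B τ) : Pr S i k A s ≤ Pr S i k B s := by
  refine Ex_mono hI k i hs fun τ hτ => ?_
  by_cases hA : A τ
  · rw [if_pos hA, if_pos (h τ hτ hA)]
  · rw [if_neg hA]
    split_ifs <;> norm_num

/-- union bound -/
theorem Pr_union {I : ℕ → St → Prop} (hI : IsInv S I) (k i : ℕ) {s : St} (hs : I i s)
    {ι : Type*} (T : Finset ι) (A : St → Prop) (B : ι → St → Prop)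
    (h : ∀ τ, I (i + k) τ → A τ → ∃ j ∈ T, B j τ) : Pr S i k A s ≤ ∑ j ∈ T, Pr S i k (B j) s := by
  unfold Pr
  rw [← Ex_sum]
  refine Ex_mono hI k i hs fun τ hτ => ?_
  have h0 : ∀ j ∈ T, (0 : ℝ) ≤ @ite _ (B j τ) (Classical.propDecidable _) 1 0 := fun j _ => by
    split_ifs <;> norm_num
  by_cases hA : A τ
  · obtain ⟨j, hj, hB⟩ := h τ hτ hA
    rw [if_pos hA]
    have h1 := single_le_sum h0 hj
    rw [if_pos hB] at h1
    exact h1
  · rw [if_neg hA]
    exact sum_nonneg h0

theorem Pr_or {I : ℕ → St → Prop} (hI : IsInv S I) (k i : ℕ) {s : St} (hs : I i s)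
    (A B C : St → Prop) (h : ∀ τ, I (i + k) τ → A τ → B τ ∨ C τ) :
    Pr S i k A s ≤ Pr S i k B s + Pr S i k C s := by
  have h1 := Pr_union hI k i hs (univ : Finset Bool) A (fun b => if b then B else C)
    (fun τ hτ hA => by
      rcases h τ hτ hA with h2 | h2
      · exact ⟨true, mem_univ _, by simpa using h2⟩
      · exact ⟨false, mem_univ _, by simpa using h2⟩)
  simpa using h1

theorem Pr_compl (k i : ℕ) (s : St) (A : St → Prop) :
    Pr S i k (fun τ => ¬ A τ) s = 1 - Pr S i k A s := by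
  unfold Pr
  have h1 : (fun τ => @ite _ (¬ A τ) (Classical.propDecidable _) (1 : ℝ) 0) =
      fun τ => 1 - @ite _ (A τ) (Classical.propDecidable _) (1 : ℝ) 0 := by
    funext τ
    by_cases hA : A τ
    · simp [hA]
    · simp [hA]
  rw [h1, Ex_sub, Ex_const]

/-- Markov's inequality: on the event the nonnegative potential is at least `a` -/
theorem markov {I : ℕ → St → Prop} (hI : IsInv S I) (k i : ℕ) {s : St} (hs : I i s)
    (A : St → Prop) {Φ : St → ℝ} {a : ℝ} (h0 : ∀ τ, I (i + k) τ → 0 ≤ Φ τ)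
    (h : ∀ τ, I (i + k) τ → A τ → a ≤ Φ τ) : a * Pr S i k A s ≤ Ex S i k Φ s := by
  unfold Pr
  rw [← Ex_smul]
  refine Ex_mono hI k i hs fun τ hτ => ?_
  by_cases hA : A τ
  · rw [if_pos hA, mul_one]
    exact h τ hτ hA
  · rw [if_neg hA, mul_zero]
    exact h0 τ hτ

/-- exponential Markov inequality -/
theorem markov_exp {I : ℕ → St → Prop} (hI : IsInv S I) (k i : ℕ) {s : St} (hs : I i s)
    (A : St → Prop) {X : St → ℝ} {θ a b : ℝ} (hθ : 0 ≤ θ) (h : ∀ τ, I (i + k) τ → A τ → a ≤ X τ)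
    (hb : Ex S i k (fun τ => Real.exp (θ * X τ)) s ≤ Real.exp b) :
    Pr S i k A s ≤ Real.exp (b - θ * a) := by
  have h1 := markov hI k i hs A (Φ := fun τ => Real.exp (θ * X τ)) (a := Real.exp (θ * a))
    (fun τ _ => (Real.exp_pos _).le)
    (fun τ hτ hA => Real.exp_le_exp.2 (mul_le_mul_of_nonneg_left (h τ hτ hA) hθ))
  have h2 : Real.exp (θ * a) * Pr S i k A s ≤ Real.exp (θ * a) * Real.exp (b - θ * a) := by
    rw [← Real.exp_add, add_sub_cancel]
    exact h1.trans hb
  exact le_of_mul_le_mul_left h2 (Real.exp_pos _)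

/-- a state which is kept by all the later slots: the expectation from time `i` on is the value -/
theorem Ex_frozen (k : ℕ) : ∀ (i : ℕ) (s : St), (∀ t, i ≤ t → ∀ x, (S t).w s x = 0) →
    (∀ t, i ≤ t → (S t).emp s = s) → ∀ f : St → ℝ, Ex S i k f s = f s := by
  induction k with
  | zero => intro i s _ _ f; rw [Ex_zero]
  | succ k ih =>
    intro i s hw he f
    rw [Ex_succ, (S i).step_frozen (hw i le_rfl) (he i le_rfl)]
    exact ih (i + 1) s (fun t ht => hw t (by omega)) (fun t ht => he t (by omega)) f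

/-! ## one-step exponential potentials -/

theorem exp_le_quad {x : ℝ} (hx : x ≤ 1) : Real.exp x ≤ 1 + x + x ^ 2 := by
  rcases le_or_gt (-1) x with h | h
  · have h1 := Real.abs_exp_sub_one_sub_id_le (x := x) (abs_le.2 ⟨h, hx⟩)
    have h2 := (abs_le.1 h1).2
    linarith
  · have h1 : Real.exp x ≤ 1 := Real.exp_le_one_iff.2 (by linarith)
    nlinarith

/-- Freedman's inequality, one slot: upward jumps at most `D`, drift at most `μ`, second moment of
the increment at most `v` -/
theorem freedman_step (S : Slot V St) {X : St → ℝ} {s : St} (hs : S.Ok s) {θ D μ v : ℝ}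
    (hθ : 0 ≤ θ) (hD : θ * D ≤ 1)
    (hemp : X (S.emp s) - X s ≤ D) (htake : ∀ x, 0 < S.w s x → X (S.take s x) - X s ≤ D)
    (hμ : S.step X s ≤ X s + μ) (hv : S.step (fun τ => (X τ - X s) ^ 2) s ≤ v) :
    S.step (fun τ => Real.exp (θ * X τ)) s ≤ Real.exp (θ * X s + θ * μ + θ ^ 2 * v) := by
  have h1 : S.step (fun τ => Real.exp (θ * X τ)) s ≤ S.step (fun τ => Real.exp (θ * X s) *
      (1 + θ * (X τ - X s) + θ ^ 2 * (X τ - X s) ^ 2)) s := by
    have key : ∀ τ, X τ - X s ≤ D → Real.exp (θ * X τ) ≤ Real.exp (θ * X s) *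
        (1 + θ * (X τ - X s) + θ ^ 2 * (X τ - X s) ^ 2) := by
      intro τ hτ
      have h2 : Real.exp (θ * X τ) = Real.exp (θ * X s) * Real.exp (θ * (X τ - X s)) := by
        rw [← Real.exp_add]
        congr 1
        ring
      rw [h2]
      refine mul_le_mul_of_nonneg_left ?_ (Real.exp_pos _).le
      have h3 : θ * (X τ - X s) ≤ 1 := (mul_le_mul_of_nonneg_left hτ hθ).trans hD
      refine (exp_le_quad h3).trans (le_of_eq ?_)
      ring
    exact S.step_mono' hs (fun x hx => key _ (htake x hx)) (key _ hemp)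
  refine h1.trans ?_
  rw [Slot.step_smul]
  have h4 : S.step (fun τ => 1 + θ * (X τ - X s) + θ ^ 2 * (X τ - X s) ^ 2) s =
      1 + θ * (S.step X s - X s) + θ ^ 2 * S.step (fun τ => (X τ - X s) ^ 2) s := by
    rw [Slot.step_add, Slot.step_add, Slot.step_const, Slot.step_smul, Slot.step_smul,
      Slot.step_sub, Slot.step_const]
  rw [h4]
  have h5 : 1 + θ * (S.step X s - X s) + θ ^ 2 * S.step (fun τ => (X τ - X s) ^ 2) s ≤
      Real.exp (θ * μ + θ ^ 2 * v) := by
    have h6 := Real.add_one_le_exp (θ * μ + θ ^ 2 * v)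
    have h7 := mul_le_mul_of_nonneg_left (sub_le_iff_le_add'.2 hμ) hθ
    have h8 := mul_le_mul_of_nonneg_left hv (sq_nonneg θ)
    linarith
  calc Real.exp (θ * X s) *
      (1 + θ * (S.step X s - X s) + θ ^ 2 * S.step (fun τ => (X τ - X s) ^ 2) s)
      ≤ Real.exp (θ * X s) * Real.exp (θ * μ + θ ^ 2 * v) :=
        mul_le_mul_of_nonneg_left h5 (Real.exp_pos _).le
    _ = Real.exp (θ * X s + θ * μ + θ ^ 2 * v) := by
      rw [← Real.exp_add]
      congr 1
      ring

/-- Chernoff's inequality, one slot: nonnegative increments `d x ≤ D` at the takes, with mean at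
most `μ`, and an empty slot increases `X` by at most `ν` -/
theorem chernoff_step (S : Slot V St) {X : St → ℝ} {s : St} (hs : S.Ok s) {θ D μ ν : ℝ}
    (hθ : 0 ≤ θ) (hD : θ * D ≤ 1) (d : V → ℝ) (hd0 : ∀ x, 0 ≤ d x)
    (hdD : ∀ x, 0 < S.w s x → d x ≤ D) (hemp : X (S.emp s) ≤ X s + ν)
    (htake : ∀ x, 0 < S.w s x → X (S.take s x) ≤ X s + ν + d x)
    (hμ : ∑ x, S.w s x * d x ≤ μ) :
    S.step (fun τ => Real.exp (θ * X τ)) s ≤ Real.exp (θ * X s + θ * ν + 2 * θ * μ) := by
  have h1 : S.step (fun τ => Real.exp (θ * X τ)) s ≤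
      Real.exp (θ * (X s + ν)) * (1 + 2 * θ * ∑ x, S.w s x * d x) := by
    unfold Slot.step
    have h2 : Real.exp (θ * X (S.emp s)) ≤ Real.exp (θ * (X s + ν)) :=
      Real.exp_le_exp.2 (mul_le_mul_of_nonneg_left hemp hθ)
    have h3 : ∀ x ∈ (univ : Finset V), S.w s x * Real.exp (θ * X (S.take s x)) ≤
        Real.exp (θ * (X s + ν)) * S.w s x +
          Real.exp (θ * (X s + ν)) * (2 * θ) * (S.w s x * d x) := by
      intro x _
      rcases (hs.w0 x).eq_or_lt with h | h
      · rw [← h]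
        simp
      · have h4 : Real.exp (θ * X (S.take s x)) ≤
            Real.exp (θ * (X s + ν)) * (1 + 2 * (θ * d x)) := by
          have h5 : θ * X (S.take s x) ≤ θ * (X s + ν) + θ * d x := by
            have := mul_le_mul_of_nonneg_left (htake x h) hθ
            linarith
          refine (Real.exp_le_exp.2 h5).trans ?_
          rw [Real.exp_add]
          refine mul_le_mul_of_nonneg_left ?_ (Real.exp_pos _).le
          have h6 : θ * d x ≤ 1 := (mul_le_mul_of_nonneg_left (hdD x h) hθ).trans hD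
          have h7 : 0 ≤ θ * d x := mul_nonneg hθ (hd0 x)
          refine (exp_le_quad h6).trans ?_
          nlinarith
        have h8 := mul_le_mul_of_nonneg_left h4 h.le
        refine h8.trans (le_of_eq ?_)
        ring
    have h9 := sum_le_sum h3
    rw [sum_add_distrib, ← mul_sum, ← mul_sum] at h9
    have h10 := mul_le_mul_of_nonneg_left h2 (by linarith [hs.w1] : 0 ≤ 1 - ∑ x, S.w s x)
    calc ∑ x, S.w s x * Real.exp (θ * X (S.take s x)) +
        (1 - ∑ x, S.w s x) * Real.exp (θ * X (S.emp s))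
        ≤ (Real.exp (θ * (X s + ν)) * ∑ x, S.w s x +
          Real.exp (θ * (X s + ν)) * (2 * θ) * ∑ x, S.w s x * d x) +
          (1 - ∑ x, S.w s x) * Real.exp (θ * (X s + ν)) := add_le_add h9 h10
      _ = _ := by ring
  refine h1.trans ?_
  have e1 : θ * X s + θ * ν + 2 * θ * μ = θ * (X s + ν) + 2 * θ * μ := by ring
  rw [e1, Real.exp_add]
  refine mul_le_mul_of_nonneg_left ?_ (Real.exp_pos _).le
  have h12 := Real.add_one_le_exp (2 * θ * μ)
  have h13 := mul_le_mul_of_nonneg_left hμ (by linarith : (0 : ℝ) ≤ 2 * θ)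
  linarith

/-- from one-step bounds to `k` slots -/
theorem Ex_exp {I : ℕ → St → Prop} (hI : IsInv S I) {X : St → ℝ} {θ c : ℝ}
    (h : ∀ t τ, I t τ → (S t).step (fun ρ => Real.exp (θ * X ρ)) τ ≤ Real.exp (θ * X τ + c))
    (k i : ℕ) {s : St} (hs : I i s) :
    Ex S i k (fun ρ => Real.exp (θ * X ρ)) s ≤ Real.exp (θ * X s + k * c) := by
  have h1 := Ex_super hI
    (Φ := fun t τ => Real.exp (((i + k : ℕ) - t : ℝ) * c) * Real.exp (θ * X τ)) k i hs
    (by
      intro t τ _ _ hτ
      rw [Slot.step_smul]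
      have h4 := mul_le_mul_of_nonneg_left (h t τ hτ)
        (Real.exp_pos ((((i + k : ℕ) : ℝ) - ((t + 1 : ℕ) : ℝ)) * c)).le
      refine h4.trans (le_of_eq ?_)
      rw [← Real.exp_add, ← Real.exp_add]
      congr 1
      push_cast
      ring)
  rw [Ex_smul] at h1
  have h5 : (((i + k : ℕ) : ℝ) - ((i + k : ℕ) : ℝ)) * c = 0 := by ring
  have h6 : (((i + k : ℕ) : ℝ) - (i : ℝ)) * c = k * c := by push_cast; ring
  rw [h5, h6, Real.exp_zero, one_mul, ← Real.exp_add] at h1
  rwa [add_comm] at h1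

/-! ## domination -/

theorem pow_add_mul_le {a b : ℝ} (ha : 0 ≤ a) (hb : 0 ≤ b) (m : ℕ) :
    a ^ m + m * b * a ^ (m - 1) ≤ (a + b) ^ m := by
  induction m with
  | zero => simp
  | succ m ih =>
    have h1 : (a + b) ^ (m + 1) = (a + b) * (a + b) ^ m := pow_succ' _ _
    have h2 : (a + b) * (a ^ m + m * b * a ^ (m - 1)) ≤ (a + b) ^ (m + 1) := by
      rw [h1]
      exact mul_le_mul_of_nonneg_left ih (by linarith)
    refine le_trans ?_ h2
    rcases Nat.eq_zero_or_pos m with h3 | h3
    · subst h3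
      simp
    · obtain ⟨j, rfl⟩ : ∃ j, m = j + 1 := ⟨m - 1, by omega⟩
      simp only [Nat.add_sub_cancel]
      have h4 : 0 ≤ ((j + 1 : ℕ) : ℝ) * b ^ 2 * a ^ j := by positivity
      have h5 : (a + b) * (a ^ (j + 1) + ((j + 1 : ℕ) : ℝ) * b * a ^ j) =
          a ^ (j + 1 + 1) + ((j + 1 + 1 : ℕ) : ℝ) * b * a ^ (j + 1) +
            ((j + 1 : ℕ) : ℝ) * b ^ 2 * a ^ j := by
        push_cast
        ring
      rw [h5]
      linarith

/-- every set `A` is taken with probability at most `(k b)^|A \ F|` -/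
theorem dominate {I : ℕ → St → Prop} (hI : IsInv S I) (F : St → Finset V)
    (hFe : ∀ t s, I t s → F ((S t).emp s) = F s)
    (hFt : ∀ t s x, I t s → 0 < (S t).w s x → F ((S t).take s x) = insert x (F s))
    {b : ℝ} (hb : 0 ≤ b) (hw : ∀ t s x, I t s → (S t).w s x ≤ b) (A : Finset V) (k : ℕ) :
    ∀ (i : ℕ) {s : St}, I i s →
      Ex S i k (fun τ => if A ⊆ F τ then 1 else 0) s ≤ (k * b) ^ (A \ F s).card := by
  induction k with
  | zero =>
    intro i s _
    rw [Ex_zero]
    split_ifs with h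
    · rw [sdiff_eq_empty_iff_subset.2 h]
      simp
    · simp only [Nat.cast_zero, zero_mul]
      exact pow_nonneg le_rfl _
  | succ k ih =>
    intro i s hs
    set m := (A \ F s).card with hm
    have hok := hI.ok i s hs
    have hkb : (0 : ℝ) ≤ k * b := by positivity
    have h1 : ∀ x ∈ (univ : Finset V), (S i).w s x *
        Ex S (i + 1) k (fun τ => if A ⊆ F τ then (1 : ℝ) else 0) ((S i).take s x) ≤
        (S i).w s x * (k * b) ^ m + (if x ∈ A \ F s then b * (k * b) ^ (m - 1) else 0) := by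
      intro x _
      rcases (hok.w0 x).eq_or_lt with h | h
      · rw [← h]
        simp only [zero_mul, zero_add]
        split_ifs
        · positivity
        · exact le_rfl
      · have h2 := ih (i + 1) (hI.take i s x hs h)
        rw [hFt i s x hs h] at h2
        have h3 := mul_le_mul_of_nonneg_left h2 h.le
        by_cases hx : x ∈ A \ F s
        · rw [if_pos hx]
          have h4 : A \ insert x (F s) = (A \ F s).erase x := by
            ext v
            simp only [mem_sdiff, mem_insert, mem_erase]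
            tauto
          rw [h4, card_erase_of_mem hx, ← hm] at h3
          have h5 := mul_le_mul_of_nonneg_right (hw i s x hs) (pow_nonneg hkb (m - 1))
          have h6 : 0 ≤ (S i).w s x * (k * b) ^ m := by positivity
          linarith
        · rw [if_neg hx, add_zero]
          have h4 : A \ insert x (F s) = A \ F s := by
            ext v
            simp only [mem_sdiff, mem_insert] at hx ⊢
            constructor
            · rintro ⟨h5, h6⟩
              exact ⟨h5, fun h7 => h6 (Or.inr h7)⟩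
            · rintro ⟨h5, h6⟩
              refine ⟨h5, ?_⟩
              rintro (h7 | h7)
              · exact hx ⟨h7 ▸ h5, h7 ▸ h6⟩
              · exact h6 h7
          rwa [h4] at h3
    have h7 := ih (i + 1) (hI.emp i s hs)
    rw [hFe i s hs, ← hm] at h7
    have h8 := mul_le_mul_of_nonneg_left h7 (by linarith [hok.w1] : 0 ≤ 1 - ∑ x, (S i).w s x)
    rw [Ex_succ]
    unfold Slot.step
    have h9 := sum_le_sum h1
    rw [sum_add_distrib, ← sum_mul, sum_ite_mem, univ_inter, sum_const, nsmul_eq_mul, ← hm] at h9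
    have h10 := pow_add_mul_le hkb hb m
    have h11 : (((k + 1 : ℕ) : ℝ) * b) = k * b + b := by push_cast; ring
    rw [h11]
    calc ∑ x, (S i).w s x *
          Ex S (i + 1) k (fun τ => if A ⊆ F τ then (1 : ℝ) else 0) ((S i).take s x) +
        (1 - ∑ x, (S i).w s x) *
          Ex S (i + 1) k (fun τ => if A ⊆ F τ then (1 : ℝ) else 0) ((S i).emp s)
        ≤ ((∑ x, (S i).w s x) * (k * b) ^ m + m * (b * (k * b) ^ (m - 1))) +
          (1 - ∑ x, (S i).w s x) * (k * b) ^ m := add_le_add h9 h8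
      _ = (k * b) ^ m + m * b * (k * b) ^ (m - 1) := by ring
      _ ≤ (k * b + b) ^ m := h10

/-! ## placements -/

/-- sum over the placements of the elements of `e` in the slots `i, ..., i + k - 1` -/
noncomputable def G (S : ℕ → Slot V St) : ℕ → ℕ → Finset V → (St → ℝ) → St → ℝ
  | _, 0, e, f, s => if e = ∅ then f s else 0
  | i, k + 1, e, f, s => (S i).step (G S (i + 1) k e f) s +
      ∑ a ∈ e, (S i).w s a * G S (i + 1) k (e.erase a) f ((S i).take s a)

theorem G_zero (i : ℕ) (e : Finset V) (f : St → ℝ) (s : St) :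
    G S i 0 e f s = if e = ∅ then f s else 0 := by
  unfold G
  rfl

theorem G_succ (i k : ℕ) (e : Finset V) (f : St → ℝ) (s : St) :
    G S i (k + 1) e f s = (S i).step (G S (i + 1) k e f) s +
      ∑ a ∈ e, (S i).w s a * G S (i + 1) k (e.erase a) f ((S i).take s a) := by
  conv_lhs => unfold G

theorem G_empty (f : St → ℝ) (k : ℕ) : ∀ (i : ℕ) (s : St), G S i k ∅ f s = Ex S i k f s := by
  induction k with
  | zero => intro i s; rw [G_zero, Ex_zero, if_pos rfl]
  | succ k ih =>
    intro i s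
    have h : G S (i + 1) k ∅ f = Ex S (i + 1) k f := funext (ih (i + 1))
    rw [G_succ, sum_empty, add_zero, h, Ex_succ]

/-- `G` is the expectation on the event `e ⊆ F` -/
theorem G_eq_Ex {I : ℕ → St → Prop} (hI : IsInv S I) (F : St → Finset V)
    (hFe : ∀ t s, I t s → F ((S t).emp s) = F s)
    (hFt : ∀ t s x, I t s → 0 < (S t).w s x → F ((S t).take s x) = insert x (F s))
    (hFw : ∀ t s x, I t s → x ∈ F s → (S t).w s x = 0) (f : St → ℝ) (e : Finset V) (k : ℕ) :
    ∀ (i : ℕ) {s : St}, I i s →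
      G S i k (e \ F s) f s = Ex S i k (fun τ => if e ⊆ F τ then f τ else 0) s := by
  -- a vertex of `F` cannot be placed
  have hz : ∀ (u : V) (j : ℕ) (e' : Finset V) (i : ℕ) (τ : St), I i τ → u ∈ F τ → u ∈ e' →
      G S i j e' f τ = 0 := by
    intro u j
    induction j with
    | zero =>
      intro e' i τ _ _ hue
      rw [G_zero, if_neg]
      intro h
      rw [h] at hue
      exact notMem_empty u hue
    | succ j ihj =>
      intro e' i τ hτ huτ hue
      have hok := hI.ok i τ hτ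
      rw [G_succ]
      unfold Slot.step
      have h1 : ∑ x, (S i).w τ x * G S (i + 1) j e' f ((S i).take τ x) = 0 := by
        refine sum_eq_zero fun x _ => ?_
        rcases (hok.w0 x).eq_or_lt with hv | hv
        · rw [← hv, zero_mul]
        · rw [ihj e' (i + 1) _ (hI.take i τ x hτ hv)
            (by rw [hFt i τ x hτ hv]; exact mem_insert_of_mem huτ) hue, mul_zero]
      have h2 : ∑ a ∈ e', (S i).w τ a * G S (i + 1) j (e'.erase a) f ((S i).take τ a) = 0 := by
        refine sum_eq_zero fun a _ => ?_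
        by_cases hau : a = u
        · rw [hau, hFw i τ u hτ huτ, zero_mul]
        · rcases (hok.w0 a).eq_or_lt with hv | hv
          · rw [← hv, zero_mul]
          · rw [ihj _ (i + 1) _ (hI.take i τ a hτ hv)
              (by rw [hFt i τ a hτ hv]; exact mem_insert_of_mem huτ)
              (mem_erase.2 ⟨fun h => hau h.symm, hue⟩), mul_zero]
      rw [h1, h2, ihj e' (i + 1) _ (hI.emp i τ hτ) (by rw [hFe i τ hτ]; exact huτ) hue]
      ring
  induction k with
  | zero =>
    intro i s _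
    rw [G_zero, Ex_zero]
    simp only [sdiff_eq_empty_iff_subset]
  | succ k ih =>
    intro i s hs
    have hok := hI.ok i s hs
    rw [G_succ, Ex_succ]
    unfold Slot.step
    rw [← ih (i + 1) (hI.emp i s hs), hFe i s hs]
    have h1 : ∑ a ∈ e \ F s, (S i).w s a * G S (i + 1) k ((e \ F s).erase a) f ((S i).take s a) =
        ∑ x, (if x ∈ e \ F s then
          (S i).w s x * G S (i + 1) k ((e \ F s).erase x) f ((S i).take s x) else 0) := by
      rw [sum_ite_mem, univ_inter]
    rw [h1, add_right_comm, ← sum_add_distrib]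
    congr 1
    refine sum_congr rfl fun u _ => ?_
    rcases (hok.w0 u).eq_or_lt with hw | hw
    · rw [← hw]
      simp
    · rw [← ih (i + 1) (hI.take i s u hs hw), hFt i s u hs hw]
      have h2 : e \ insert u (F s) = (e \ F s).erase u := by
        ext v
        simp only [mem_sdiff, mem_insert, mem_erase]
        tauto
      rw [h2]
      split_ifs with hu
      · rw [hz u k (e \ F s) (i + 1) _ (hI.take i s u hs hw)
          (by rw [hFt i s u hs hw]; exact mem_insert_self u _) hu]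
        ring
      · rw [erase_eq_of_notMem hu]
        ring

/-- the first element of `e` is split off -/
theorem G_first (e : Finset V) (he : e ≠ ∅) (f : St → ℝ) (k : ℕ) : ∀ (i : ℕ) (s : St),
    G S i k e f s = ∑ j ∈ range k, ∑ a ∈ e,
      Ex S i j (fun τ => (S (i + j)).w τ a *
        G S (i + j + 1) (k - 1 - j) (e.erase a) f ((S (i + j)).take τ a)) s := by
  induction k with
  | zero => intro i s; rw [G_zero, if_neg he]; simp
  | succ k ih =>
    intro i s
    have h : G S (i + 1) k e f = fun τ => ∑ j ∈ range k, ∑ a ∈ e,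
        Ex S (i + 1) j (fun τ => (S (i + 1 + j)).w τ a *
          G S (i + 1 + j + 1) (k - 1 - j) (e.erase a) f ((S (i + 1 + j)).take τ a)) τ :=
      funext (ih (i + 1))
    rw [G_succ, sum_range_succ', h, Slot.step_sum]
    congr 1
    · refine sum_congr rfl fun j _ => ?_
      rw [Slot.step_sum]
      refine sum_congr rfl fun a _ => ?_
      rw [← Ex_succ, show i + 1 + j = i + (j + 1) by omega,
        show k + 1 - 1 - (j + 1) = k - 1 - j by omega]

/-- `a` is taken in the slot `i + j`, after that `g` -/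
noncomputable def tk (S : ℕ → Slot V St) (i j : ℕ) (a : V) (g : St → ℝ) (s : St) : ℝ :=
  Ex S i j (fun τ => (S (i + j)).w τ a * g ((S (i + j)).take τ a)) s

/-- the vertices `a`, `b`, `c` are taken in the slots `i < j < k` of the slots `0, ..., T-1` -/
noncomputable def P3 (S : ℕ → Slot V St) (T i j k : ℕ) (a b c : V) (f : St → ℝ) (s : St) : ℝ :=
  tk S 0 i a (tk S (i + 1) (j - (i + 1)) b (tk S (j + 1) (k - (j + 1)) c
    (Ex S (k + 1) (T - (k + 1)) f))) s

theorem G_one (a : V) (f : St → ℝ) (k i : ℕ) (s : St) :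
    G S i k {a} f s = ∑ j ∈ range k, tk S i j a (Ex S (i + j + 1) (k - 1 - j) f) s := by
  rw [G_first {a} (singleton_ne_empty a)]
  refine sum_congr rfl fun j _ => ?_
  rw [sum_singleton]
  unfold tk
  congr 1
  funext τ
  rw [erase_singleton, G_empty]

theorem tk_congr (i j : ℕ) (a : V) {g g' : St → ℝ} (h : ∀ τ, g τ = g' τ) (s : St) :
    tk S i j a g s = tk S i j a g' s := by
  have : g = g' := funext h
  rw [this]

theorem tk_sum {ι : Type*} (A : Finset ι) (i j : ℕ) (a : V) (g : ι → St → ℝ) (s : St) :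
    tk S i j a (fun τ => ∑ l ∈ A, g l τ) s = ∑ l ∈ A, tk S i j a (g l) s := by
  unfold tk
  rw [← Ex_sum]
  congr 1
  funext τ
  rw [mul_sum]

/-- an interval sum, shifted -/
theorem sum_shift (i T : ℕ) (F : ℕ → ℝ) :
    ∑ j ∈ range (T - (i + 1)), F (i + 1 + j) = ∑ j ∈ Ioo i T, F j := by
  have h : Ioo i T = Ico (i + 1) T := by
    ext v
    simp only [mem_Ioo, mem_Ico]
    omega
  rw [h, sum_Ico_eq_sum_range]

/-- two elements -/
theorem G_two (a b : V) (hab : a ≠ b) (f : St → ℝ) (i T : ℕ) (s : St) :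
    G S (i + 1) (T - (i + 1)) {a, b} f s = ∑ j ∈ Ioo i T, ∑ k ∈ Ioo j T,
      (tk S (i + 1) (j - (i + 1)) a (tk S (j + 1) (k - (j + 1)) b
        (Ex S (k + 1) (T - (k + 1)) f)) s +
       tk S (i + 1) (j - (i + 1)) b (tk S (j + 1) (k - (j + 1)) a
        (Ex S (k + 1) (T - (k + 1)) f)) s) := by
  rw [G_first {a, b} (insert_ne_empty a {b}), ← sum_shift]
  refine sum_congr rfl fun j hj => ?_
  rw [mem_range] at hj
  rw [sum_pair hab]
  have ea : ({a, b} : Finset V).erase a = {b} := by
    rw [erase_insert (by simpa using hab)]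
  have eb : ({a, b} : Finset V).erase b = {a} := by
    rw [pair_comm, erase_insert (by simpa using hab.symm)]
  have e0 : i + 1 + j - (i + 1) = j := by omega
  have key : ∀ u v : V, Ex S (i + 1) j (fun τ => (S (i + 1 + j)).w τ u *
      G S (i + 1 + j + 1) (T - (i + 1) - 1 - j) {v} f ((S (i + 1 + j)).take τ u)) s =
      ∑ k ∈ Ioo (i + 1 + j) T, tk S (i + 1) j u
        (tk S (i + 1 + j + 1) (k - (i + 1 + j + 1)) v (Ex S (k + 1) (T - (k + 1)) f)) s := by
    intro u v
    have h1 : ∀ τ, G S (i + 1 + j + 1) (T - (i + 1) - 1 - j) {v} f τ =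
        ∑ k ∈ Ioo (i + 1 + j) T,
          tk S (i + 1 + j + 1) (k - (i + 1 + j + 1)) v (Ex S (k + 1) (T - (k + 1)) f) τ := by
      intro τ
      rw [G_one, show T - (i + 1) - 1 - j = T - (i + 1 + j + 1) by omega,
        ← sum_shift (i + 1 + j) T fun k =>
          tk S (i + 1 + j + 1) (k - (i + 1 + j + 1)) v (Ex S (k + 1) (T - (k + 1)) f) τ]
      refine sum_congr rfl fun k hk => ?_
      rw [mem_range] at hk
      rw [show i + 1 + j + 1 + k - (i + 1 + j + 1) = k by omega,
        show T - (i + 1 + j + 1) - 1 - k = T - (i + 1 + j + 1 + k + 1) by omega]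
    rw [← tk_sum]
    change tk S (i + 1) j u (G S (i + 1 + j + 1) (T - (i + 1) - 1 - j) {v} f) s = _
    exact tk_congr (i + 1) j u h1 s
  rw [ea, eb, key a b, key b a, ← sum_add_distrib, e0]

/-- three elements: the six orders -/
theorem G_three (a b c : V) (hab : a ≠ b) (hac : a ≠ c) (hbc : b ≠ c) (f : St → ℝ) (T : ℕ)
    (s : St) : G S 0 T {a, b, c} f s = ∑ i ∈ range T, ∑ j ∈ Ioo i T, ∑ k ∈ Ioo j T,
      ((P3 S T i j k a b c f s + P3 S T i j k a c b f s) +
       (P3 S T i j k b a c f s + P3 S T i j k b c a f s) +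
       (P3 S T i j k c a b f s + P3 S T i j k c b a f s)) := by
  rw [G_first {a, b, c} (insert_ne_empty a {b, c})]
  refine sum_congr rfl fun i hi => ?_
  rw [mem_range] at hi
  have ha : a ∉ ({b, c} : Finset V) := by simp [hab, hac]
  have e1 : ({a, b, c} : Finset V).erase a = {b, c} := erase_insert ha
  have e2 : ({a, b, c} : Finset V).erase b = {a, c} := by
    ext v
    simp only [mem_erase, mem_insert, mem_singleton]
    constructor
    · rintro ⟨h1, h2 | h2 | h2⟩
      · exact Or.inl h2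
      · exact absurd h2 h1
      · exact Or.inr h2
    · rintro (h2 | h2)
      · exact ⟨by rw [h2]; exact hab, Or.inl h2⟩
      · exact ⟨by rw [h2]; exact hbc.symm, Or.inr (Or.inr h2)⟩
  have e3 : ({a, b, c} : Finset V).erase c = {a, b} := by
    ext v
    simp only [mem_erase, mem_insert, mem_singleton]
    constructor
    · rintro ⟨h1, h2 | h2 | h2⟩
      · exact Or.inl h2
      · exact Or.inr h2
      · exact absurd h2 h1
    · rintro (h2 | h2)
      · exact ⟨by rw [h2]; exact hac, Or.inl h2⟩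
      · exact ⟨by rw [h2]; exact hbc, Or.inr (Or.inl h2)⟩
  have key : ∀ u v w : V, v ≠ w → Ex S 0 i (fun τ => (S (0 + i)).w τ u *
      G S (0 + i + 1) (T - 1 - i) {v, w} f ((S (0 + i)).take τ u)) s =
      ∑ j ∈ Ioo i T, ∑ k ∈ Ioo j T, (P3 S T i j k u v w f s + P3 S T i j k u w v f s) := by
    intro u v w hvw
    have h1 : ∀ τ, G S (0 + i + 1) (T - 1 - i) {v, w} f τ = ∑ j ∈ Ioo i T, ∑ k ∈ Ioo j T,
        (tk S (i + 1) (j - (i + 1)) v (tk S (j + 1) (k - (j + 1)) w
          (Ex S (k + 1) (T - (k + 1)) f)) τ +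
         tk S (i + 1) (j - (i + 1)) w (tk S (j + 1) (k - (j + 1)) v
          (Ex S (k + 1) (T - (k + 1)) f)) τ) := by
      intro τ
      rw [← G_two v w hvw f i T τ, show 0 + i + 1 = i + 1 by omega,
        show T - 1 - i = T - (i + 1) by omega]
    have h2 : Ex S 0 i (fun τ => (S (0 + i)).w τ u *
        G S (0 + i + 1) (T - 1 - i) {v, w} f ((S (0 + i)).take τ u)) s =
        tk S 0 i u (fun τ => ∑ j ∈ Ioo i T, ∑ k ∈ Ioo j T,
        (tk S (i + 1) (j - (i + 1)) v (tk S (j + 1) (k - (j + 1)) w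
          (Ex S (k + 1) (T - (k + 1)) f)) τ +
         tk S (i + 1) (j - (i + 1)) w (tk S (j + 1) (k - (j + 1)) v
          (Ex S (k + 1) (T - (k + 1)) f)) τ)) s := by
      unfold tk
      congr 1
      funext τ
      rw [h1]
      unfold tk
      rfl
    rw [h2, tk_sum]
    refine sum_congr rfl fun j _ => ?_
    rw [tk_sum]
    refine sum_congr rfl fun k _ => ?_
    unfold P3
    unfold tk
    rw [← Ex_add]
    congr 1
    funext τ
    ring
  have hb : b ∉ ({c} : Finset V) := by simpa using hbc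
  rw [sum_insert ha, sum_pair hbc, e1, e2, e3, key a b c hbc, key b a c hac, key c a b hab]
  simp only [← sum_add_distrib, add_assoc]

/-- the probability that `a`, `b`, `c` are taken, with a final functional `f` -/
theorem three_points {I : ℕ → St → Prop} (hI : IsInv S I) (F : St → Finset V)
    (hFe : ∀ t s, I t s → F ((S t).emp s) = F s)
    (hFt : ∀ t s x, I t s → 0 < (S t).w s x → F ((S t).take s x) = insert x (F s))
    (hFw : ∀ t s x, I t s → x ∈ F s → (S t).w s x = 0) (f : St → ℝ) (T : ℕ) {s : St}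
    (hs : I 0 s) (hF : F s = ∅) (a b c : V) (hab : a ≠ b) (hac : a ≠ c) (hbc : b ≠ c) :
    Ex S 0 T (fun τ => if {a, b, c} ⊆ F τ then f τ else 0) s =
      ∑ i ∈ range T, ∑ j ∈ Ioo i T, ∑ k ∈ Ioo j T,
      ((P3 S T i j k a b c f s + P3 S T i j k a c b f s) +
       (P3 S T i j k b a c f s + P3 S T i j k b c a f s) +
       (P3 S T i j k c a b f s + P3 S T i j k c b a f s)) := by
  rw [← G_three a b c hab hac hbc f T s, ← G_eq_Ex hI F hFe hFt hFw f {a, b, c} T 0 hs, hF,
    sdiff_empty]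

/-- the number of triples of slots -/
theorem sum_triples (T : ℕ) (q : ℝ) :
    ∑ i ∈ range T, ∑ j ∈ Ioo i T, ∑ _k ∈ Ioo j T, (6 * q) =
      (T : ℝ) * (T - 1) * (T - 2) * q := by
  have h1 : ∀ j ∈ range T, ∑ _k ∈ Ioo j T, (6 * q) = ((T : ℝ) - 1 - j) * (6 * q) := by
    intro j hj
    rw [mem_range] at hj
    rw [sum_const, Nat.card_Ioo, nsmul_eq_mul, Nat.sub_sub, Nat.cast_sub (by omega)]
    push_cast
    ring
  have h2 : ∀ i ∈ range T, ∑ j ∈ Ioo i T, ∑ k ∈ Ioo j T, (6 * q) =
      ((T : ℝ) - 1 - i) * ((T : ℝ) - 2 - i) * (3 * q) := by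
    intro i hi
    rw [mem_range] at hi
    have h3 : ∑ j ∈ Ioo i T, ∑ k ∈ Ioo j T, (6 * q) = ∑ j ∈ Ioo i T, ((T : ℝ) - 1 - j) * (6 * q) :=
      sum_congr rfl fun j hj => h1 j (mem_range.2 (mem_Ioo.1 hj).2)
    rw [h3, ← sum_shift i T fun j => ((T : ℝ) - 1 - j) * (6 * q)]
    have h4 : ∀ m : ℕ, ∀ A : ℝ, ∑ j ∈ range m, (A - (j : ℝ)) = m * A - m * (m - 1) / 2 := by
      intro m A
      induction m with
      | zero => simp
      | succ m ih =>
        rw [sum_range_succ, ih]
        push_cast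
        ring
    have h5 : ∑ j ∈ range (T - (i + 1)), ((T : ℝ) - 1 - ((i + 1 + j : ℕ) : ℝ)) * (6 * q) =
        (∑ j ∈ range (T - (i + 1)), (((T : ℝ) - 2 - i) - (j : ℝ))) * (6 * q) := by
      rw [sum_mul]
      refine sum_congr rfl fun j _ => ?_
      push_cast
      ring
    rw [h5, h4, Nat.cast_sub (by omega)]
    push_cast
    ring
  rw [sum_congr rfl h2]
  have h6 : ∀ m : ℕ, m ≤ T → ∑ i ∈ range m, (((T : ℝ) - 1 - i) * ((T : ℝ) - 2 - i) * (3 * q)) =
      ((T : ℝ) * (T - 1) * (T - 2) - (T - m) * (T - m - 1) * (T - m - 2)) * q := by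
    intro m hm
    induction m with
    | zero => simp
    | succ m ih =>
      rw [sum_range_succ, ih (by omega)]
      push_cast
      ring
  rw [h6 T le_rfl]
  ring

/-! ## the forward functional -/

/-- expectation at time `t`; the slot at time `t` may depend on this functional -/
noncomputable def EF (mk : ((St → ℝ) → ℝ) → Slot V St) (s0 : St) : ℕ → (St → ℝ) → ℝ
  | 0, f => f s0
  | t + 1, f => EF mk s0 t ((mk (EF mk s0 t)).step f)

/-- the slot at time `t` -/
noncomputable def slots (mk : ℕ → ((St → ℝ) → ℝ) → Slot V St) (s0 : St) : ℕ → Slot V St :=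
  fun t => mk t (Nat.rec (motive := fun _ => (St → ℝ) → ℝ) (fun f => f s0)
    (fun t E f => E ((mk t E).step f)) t)

/-- the forward functional with time dependent `mk` -/
noncomputable def EFt (mk : ℕ → ((St → ℝ) → ℝ) → Slot V St) (s0 : St) : ℕ → (St → ℝ) → ℝ
  | 0, f => f s0
  | t + 1, f => EFt mk s0 t ((mk t (EFt mk s0 t)).step f)

theorem EFt_zero (mk : ℕ → ((St → ℝ) → ℝ) → Slot V St) (s0 : St) (f : St → ℝ) :
    EFt mk s0 0 f = f s0 := rfl

theorem EFt_succ (mk : ℕ → ((St → ℝ) → ℝ) → Slot V St) (s0 : St) (t : ℕ) (f : St → ℝ) :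
    EFt mk s0 (t + 1) f = EFt mk s0 t ((mk t (EFt mk s0 t)).step f) := rfl

theorem EFt_eq_Ex (mk : ℕ → ((St → ℝ) → ℝ) → Slot V St) (s0 : St) (t : ℕ) (f : St → ℝ) :
    EFt mk s0 t f = Ex (fun i => mk i (EFt mk s0 i)) 0 t f s0 := by
  induction t generalizing f with
  | zero => rw [Ex_zero]; rfl
  | succ t ih => rw [Ex_succ', ← ih, Nat.zero_add]; rfl

theorem EF_eq_Ex (mk : ((St → ℝ) → ℝ) → Slot V St) (s0 : St) (t : ℕ) (f : St → ℝ) :
    EF mk s0 t f = Ex (fun i => mk (EF mk s0 i)) 0 t f s0 := by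
  induction t generalizing f with
  | zero => rw [Ex_zero]; rfl
  | succ t ih => rw [Ex_succ', ← ih, Nat.zero_add]; rfl

end MP5c.A
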