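import Pool.Agent.Lib.MP_5c685b_co.A.Defs
import Pool.Agent.Lib.MP_5c685b_co.A.Frame

/-!
# Route A': the functional `EE` through the generic frame
-/

set_option autoImplicit false
set_option linter.unusedVariables false
set_option linter.unusedSectionVars false

open Finset MP5c.A

namespace MP5cA.Br

attribute [local irreducible] Par.X

variable {V : Type} [Fintype V] [DecidableEq V] {P : Par} (A : Amb P V)

/-! ## elementary facts on the ambient structure -/

lemma r_pos (P : Par) : 0 < P.r := by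
  have h := P.r_eq
  have h1 := P.X_pos 10000
  rw [← h] at h1
  exact_mod_cast h1

include A in
lemma card_eq : (Fintype.card V : ℝ) = P.X 200000 := by
  rw [A.hc]
  push_cast
  rw [P.r_eq, P.X_pow]
  norm_num

include A in
lemma nonempty : Nonempty V := by
  have h : 0 < Fintype.card V := by
    rw [A.hc]
    exact pow_pos (r_pos P) 20
  exact Fintype.card_pos_iff.1 h

lemma h_nonneg (u v w : V) : 0 ≤ A.h u v w := ind_nonneg _

lemma lam_nonneg (u v : V) : 0 ≤ A.lam u v :=
  av_nonneg fun s => av_nonneg fun y => mul_nonneg (h_nonneg A _ _ _) (h_nonneg A _ _ _)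

/-! ## the slot -/

open Classical in
/-- the slot with factors `κ`, frozen at non-good states -/
noncomputable def slotG (κ : V → V → V → ℝ) : Slot V (St V) where
  w s x := ind (s.Good A) * (P.zeta / (Fintype.card V : ℝ) * s.R x)
  take s x := s.take P κ x
  emp s := if s.Good A then s.skip P κ else s

/-- the slot at time `t` -/
noncomputable def SS (t : ℕ) : Slot V (St V) := slotG A (kt A t)

lemma slotG_sum (κ : V → V → V → ℝ) (s : St V) :
    ∑ x, (slotG A κ).w s x = ind (s.Good A) * (P.zeta * s.m0) := by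
  simp only [slotG]
  rw [← mul_sum]
  congr 1
  unfold St.m0 av
  rw [← mul_sum]
  ring

/-- `stepG` is the step of the slot -/
lemma stepG_eq (κ : V → V → V → ℝ) (f : St V → ℝ) (s : St V) :
    stepG A κ f s = (slotG A κ).step f s := by
  unfold Slot.step
  rw [slotG_sum]
  unfold stepG
  by_cases h : s.Good A
  · have h1 : ∑ x, (slotG A κ).w s x * f ((slotG A κ).take s x) =
        P.zeta * av (fun x => s.R x * f (s.take P κ x)) := by
      simp only [slotG]
      rw [ind_pos h]
      unfold av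
      rw [mul_div_assoc', mul_sum, sum_div]
      refine sum_congr rfl fun x _ => ?_
      ring
    have h2 : (slotG A κ).emp s = s.skip P κ := by
      simp only [slotG]
      rw [if_pos h]
    rw [h1, h2, ind_pos h]
    unfold St.step
    ring
  · have h1 : ∑ x, (slotG A κ).w s x * f ((slotG A κ).take s x) = 0 := by
      refine sum_eq_zero fun x _ => ?_
      simp only [slotG]
      rw [ind_neg h]
      ring
    have h2 : (slotG A κ).emp s = s := by
      simp only [slotG]
      rw [if_neg h]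
    rw [h1, h2, ind_neg h]
    ring

/-- expectation after the slots `i, ..., i + k - 1`, started in `s` -/
noncomputable def EX (i k : ℕ) (f : St V → ℝ) (s : St V) : ℝ := Ex (SS A) i k f s

lemma EE_zero (f : St V → ℝ) : EE A 0 f = f s0 := rfl

lemma EE_succ (t : ℕ) (f : St V → ℝ) : EE A (t + 1) f = EE A t (stepG A (kt A t) f) := rfl

/-- the forward functional is the expectation from time `0` -/
lemma EE_eq (t : ℕ) (f : St V → ℝ) : EE A t f = EX A 0 t f s0 := by
  induction t generalizing f with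
  | zero => unfold EX; rw [Ex_zero]; rfl
  | succ t ih =>
    rw [EE_succ, ih]
    unfold EX
    rw [Ex_succ', Nat.zero_add]
    congr 1
    funext s
    exact stepG_eq A _ f s

lemma EX_zero (i : ℕ) (f : St V → ℝ) (s : St V) : EX A i 0 f s = f s := Ex_zero _ _ _ _

lemma EX_succ (i k : ℕ) (f : St V → ℝ) (s : St V) :
    EX A i (k + 1) f s = stepG A (kt A i) (EX A (i + 1) k f) s := by
  rw [stepG_eq]
  exact Ex_succ _ _ _ _ _

lemma EX_succ' (i k : ℕ) (f : St V → ℝ) (s : St V) :
    EX A i (k + 1) f s = EX A i k (stepG A (kt A (i + k)) f) s := by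
  have h : stepG A (kt A (i + k)) f = (SS A (i + k)).step f := funext fun s => stepG_eq A _ f s
  rw [h]
  exact Ex_succ' _ _ _ _ _

lemma EX_add_time (i j k : ℕ) (f : St V → ℝ) (s : St V) :
    EX A i (j + k) f s = EX A i j (EX A (i + j) k f) s := Ex_add_time _ _ _ _ _ _

lemma EE_add_time (t k : ℕ) (f : St V → ℝ) : EE A (t + k) f = EE A t (EX A t k f) := by
  rw [EE_eq, EE_eq, EX_add_time, Nat.zero_add]

/-! ## linearity -/

lemma EE_add (t : ℕ) (f g : St V → ℝ) : EE A t (fun s => f s + g s) = EE A t f + EE A t g := by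
  simp only [EE_eq]; exact Ex_add _ _ _ _ _ _

lemma EE_sub (t : ℕ) (f g : St V → ℝ) : EE A t (fun s => f s - g s) = EE A t f - EE A t g := by
  simp only [EE_eq]; exact Ex_sub _ _ _ _ _ _

lemma EE_smul (t : ℕ) (c : ℝ) (f : St V → ℝ) : EE A t (fun s => c * f s) = c * EE A t f := by
  simp only [EE_eq]; exact Ex_smul _ _ _ _ _ _

lemma EE_const (t : ℕ) (c : ℝ) : EE A t (fun _ => c) = c := by
  rw [EE_eq]; exact Ex_const _ _ _ _ _

lemma EE_sum {ι : Type} (B : Finset ι) (t : ℕ) (f : ι → St V → ℝ) :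
    EE A t (fun s => ∑ i ∈ B, f i s) = ∑ i ∈ B, EE A t (f i) := by
  simp only [EE_eq]; exact Ex_sum _ _ _ _ _ _

lemma EE_av (t : ℕ) (f : V → St V → ℝ) :
    EE A t (fun s => av fun v => f v s) = av fun v => EE A t (f v) := by
  unfold av
  have h1 : (fun s => (∑ v, f v s) / (Fintype.card V : ℝ)) =
      fun s => (Fintype.card V : ℝ)⁻¹ * ∑ v, f v s := by
    funext s
    ring
  rw [h1, EE_smul, EE_sum]
  ring

/-! ## the invariant -/

/-- what the deterministic part has to deliver -/
def InvOK : Prop := ∀ (t : ℕ) (s : St V), t < P.T → s.Inv A t → s.Good A →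
  (s.skip P (kt A t)).Inv A (t + 1) ∧ ∀ x, 0 < s.R x → (s.take P (kt A t) x).Inv A (t + 1)

variable {A}

lemma good_m0_le {s : St V} (hs : s.Good A) : s.m0 ≤ P.x :=
  av_le_const P.hx0.le hs.g1

lemma slotG_ok (κ : V → V → V → ℝ) {s : St V} (hR : ∀ v, 0 ≤ s.R v) : (slotG A κ).Ok s where
  w0 x := by
    simp only [slotG]
    exact mul_nonneg (ind_nonneg _)
      (mul_nonneg (div_nonneg P.zeta_pos.le (Nat.cast_nonneg _)) (hR x))
  w1 := by
    rw [slotG_sum]
    by_cases h : s.Good A
    · rw [ind_pos h, one_mul]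
      have h1 : P.zeta * s.m0 ≤ P.zeta * P.x :=
        mul_le_mul_of_nonneg_left (good_m0_le h) P.zeta_pos.le
      have h2 : P.zeta * P.x = P.X (-99999) := by
        unfold Par.zeta
        rw [← P.X_one, P.X_mul]
        norm_num
      have h3 : P.X (-99999) ≤ 1 := P.X_le_one (by norm_num)
      linarith
    · rw [ind_neg h, zero_mul]
      exact zero_le_one

lemma opLe_mono {F : Finset V} {K : V → V → ℝ} {c c' : ℝ} (h : OpLe F K c) (h0 : 0 ≤ c)
    (hc : c ≤ c') : OpLe F K c' := by
  intro f hf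
  refine (h f hf).trans (mul_le_mul_of_nonneg_right ?_ (av_nonneg fun w => sq_nonneg _))
  exact pow_le_pow_left₀ h0 hc 2

lemma sS_succ (P : Par) (t : ℕ) : P.sS (t + 1) =
    P.sS t * (1 + P.zeta * (22 / 10) * P.y0 / P.r) + P.zeta * P.X (-19600) := rfl

lemma y0_nonneg (P : Par) : 0 ≤ P.y0 := by
  unfold Par.y0
  linarith [P.Lam_pos]

lemma sS_nonneg (P : Par) (t : ℕ) : 0 ≤ P.sS t := by
  have h4 : 0 ≤ P.zeta * (22 / 10) * P.y0 / P.r :=
    div_nonneg (mul_nonneg (mul_nonneg P.zeta_pos.le (by norm_num)) (y0_nonneg P)) (Nat.cast_nonneg _)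
  have h5 : 0 ≤ P.zeta * P.X (-19600) := mul_nonneg P.zeta_pos.le (P.X_pos _).le
  induction t with
  | zero => exact le_rfl
  | succ t ih =>
    rw [sS_succ P]
    exact add_nonneg (mul_nonneg ih (by linarith)) h5

lemma sS_mono (P : Par) (t : ℕ) : P.sS t ≤ P.sS (t + 1) := by
  have h4 : 0 ≤ P.zeta * (22 / 10) * P.y0 / P.r :=
    div_nonneg (mul_nonneg (mul_nonneg P.zeta_pos.le (by norm_num)) (y0_nonneg P)) (Nat.cast_nonneg _)
  have h5 : 0 ≤ P.zeta * P.X (-19600) := mul_nonneg P.zeta_pos.le (P.X_pos _).le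
  have h6 := mul_nonneg (sS_nonneg P t) h4
  rw [sS_succ P, mul_add, mul_one]
  linarith

lemma zt_mono (P : Par) (t : ℕ) : P.zeta * (t : ℝ) ≤ P.zeta * ((t + 1 : ℕ) : ℝ) := by
  refine mul_le_mul_of_nonneg_left ?_ P.zeta_pos.le
  push_cast
  linarith

lemma zt_nonneg (P : Par) (t : ℕ) : 0 ≤ P.zeta * (t : ℝ) :=
  mul_nonneg P.zeta_pos.le (Nat.cast_nonneg _)

/-- the invariant is weaker at later times -/
lemma Inv_mono {s : St V} {t : ℕ} (hs : s.Inv A t) : s.Inv A (t + 1) where
  sym := hs.sym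
  nn := hs.nn
  Rn := hs.Rn
  RF := hs.RF
  rF := hs.rF
  rd := hs.rd
  bk := hs.bk
  cl := hs.cl
  Rc := hs.Rc
  Ms := hs.Ms
  cR := hs.cR
  cr := hs.cr
  i1 v w h := by
    refine (hs.i1 v w h).trans (Real.exp_le_exp.2 ?_)
    have h1 := div_le_div_of_nonneg_right (zt_mono P t) (Nat.cast_nonneg (α := ℝ) P.r)
    linarith
  i2 v w h := by
    refine (hs.i2 v w h).trans (add_le_add (sS_mono P t) ?_)
    exact mul_le_mul_of_nonneg_right
      (mul_le_mul_of_nonneg_right (zt_mono P t) (P.X_pos _).le) (lam_nonneg A v w)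
  i3 v h := by
    refine (hs.i3 v h).trans (pow_le_pow_left₀ ?_ ?_ 2)
    · exact mul_nonneg (zt_nonneg P t) (P.X_pos _).le
    · exact mul_le_mul_of_nonneg_right (zt_mono P t) (P.X_pos _).le
  i4 := by
    refine opLe_mono hs.i4 ?_ ?_
    · exact add_nonneg (add_nonneg (div_nonneg (by norm_num) (P.X_pos _).le)
        (mul_nonneg (Nat.cast_nonneg _) P.zeta_pos.le)) (mul_nonneg (zt_nonneg P t) (P.X_pos _).le)
    · exact add_le_add le_rfl (mul_le_mul_of_nonneg_right (zt_mono P t) (P.X_pos _).le)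

/-! ## the truncated sequence of slots -/

/-- the idle slot -/
def idle : Slot V (St V) where
  w _ _ := 0
  take s _ := s
  emp s := s

variable (A)

/-- the slots up to the time horizon, then idle -/
noncomputable def SSt (t : ℕ) : Slot V (St V) := if t < P.T then SS A t else idle

lemma EX_eq_trunc (k : ℕ) : ∀ (i : ℕ), i + k ≤ P.T → ∀ (f : St V → ℝ) (s : St V),
    EX A i k f s = Ex (SSt A) i k f s := by
  induction k with
  | zero => intro i _ f s; unfold EX; rw [Ex_zero, Ex_zero]
  | succ k ih =>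
    intro i hi f s
    have h1 : Ex (SS A) (i + 1) k f = Ex (SSt A) (i + 1) k f :=
      funext fun s => ih (i + 1) (by omega) f s
    have h2 : SSt A i = SS A i := if_pos (by omega)
    unfold EX
    rw [Ex_succ, Ex_succ, h1, h2]

lemma EE_eq_trunc {t : ℕ} (ht : t ≤ P.T) (f : St V → ℝ) : EE A t f = Ex (SSt A) 0 t f s0 := by
  rw [EE_eq, EX_eq_trunc A t 0 (by omega)]

variable {A}

/-- the invariant of the truncated sequence -/
lemma isInv (hI : InvOK A) : IsInv (SSt A) (fun t s => s.Inv A (min t P.T)) where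
  emp t s hs := by
    by_cases ht : t < P.T
    · rw [min_eq_left ht.le] at hs
      have h1 : SSt A t = SS A t := if_pos ht
      rw [min_eq_left (by omega), h1]
      simp only [SS, slotG]
      split_ifs with hg
      · exact (hI t s ht hs hg).1
      · exact Inv_mono hs
    · have h1 : SSt A t = idle := if_neg ht
      rw [min_eq_right (by omega)] at hs ⊢
      rw [h1]
      exact hs
  take t s x hs hw := by
    by_cases ht : t < P.T
    · rw [min_eq_left ht.le] at hs
      have h1 : SSt A t = SS A t := if_pos ht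
      rw [h1] at hw ⊢
      rw [min_eq_left (by omega)]
      simp only [SS, slotG] at hw ⊢
      by_cases hg : s.Good A
      · refine (hI t s ht hs hg).2 x ?_
        refine lt_of_le_of_ne (hs.Rn x) fun h => ?_
        rw [← h] at hw
        simp at hw
      · rw [ind_neg hg, zero_mul] at hw
        exact absurd hw (lt_irrefl 0)
    · have h1 : SSt A t = idle := if_neg ht
      rw [h1] at hw
      exact absurd hw (lt_irrefl 0)
  ok t s hs := by
    by_cases ht : t < P.T
    · have h1 : SSt A t = SS A t := if_pos ht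
      rw [h1]
      exact slotG_ok _ hs.Rn
    · have h1 : SSt A t = idle := if_neg ht
      rw [h1]
      exact Slot.ok_frozen _ fun x => rfl

/-! ## the initial state -/

lemma inv_s0 : (s0 : St V).Inv A 0 where
  sym v w := ind_congr ⟨fun h => h.symm, fun h => h.symm⟩
  nn v w := ind_nonneg _
  Rn v := zero_le_one
  RF v hv := absurd hv (notMem_empty v)
  rF v hv := absurd hv (notMem_empty v)
  rd v := ind_neg (by simp)
  bk v w _ _ hvw := by
    constructor
    · intro h
      have h1 : (s0 : St V).rho v w = 1 := ind_pos hvw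
      rw [h1] at h
      exact absurd h one_ne_zero
    · rintro ⟨u, hu, _⟩
      exact absurd hu (notMem_empty u)
  cl u hu := absurd hu (notMem_empty u)
  Rc v _ u hu := absurd hu (notMem_empty u)
  Ms v w := rfl
  cR v := P.one_le_X (by norm_num)
  cr v w := (ind_le_one _).trans (P.one_le_X (by norm_num))
  i1 v w _ := by
    refine (ind_le_one _).trans ?_
    have h1 : (s0 : St V).cnt A v = 0 := by
      unfold St.cnt
      exact sum_empty
    rw [h1]
    simp
  i2 v w _ := by
    have h1 : (s0 : St V).aa v w = 0 := by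
      unfold St.aa
      by_cases h : v = w
      · have h2 : (s0 : St V).rho v w = 0 := ind_neg (by simpa using h)
        rw [h2, ind_neg (by simp), mul_zero]
      · have h2 : (s0 : St V).rho v w = 1 := ind_pos h
        rw [h2]
        simp
    rw [h1]
    simp [Par.sS]
  i3 v _ := by
    have h1 : ∀ w, (s0 : St V).aa v w = 0 := by
      intro w
      unfold St.aa
      by_cases h : v = w
      · have h2 : (s0 : St V).rho v w = 0 := ind_neg (by simpa using h)
        rw [h2, ind_neg (by simp), mul_zero]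
      · have h2 : (s0 : St V).rho v w = 1 := ind_pos h
        rw [h2]
        simp
    have h3 : av (fun w => ind (¬ A.Strong v w) * (s0 : St V).aa v w ^ 2) = 0 := by
      rw [av_congr (g := fun _ => 0) fun w => by rw [h1 w]; ring]
      exact av_zero
    rw [h3]
    exact sq_nonneg _
  i4 := by
    intro f _
    have hn := card_eq A
    have h1 : ∀ v, av (fun w => ((s0 : St V).al v w - (s0 : St V).M v w) * f w) =
        f v / (Fintype.card V : ℝ) := by
      intro v
      rw [← av_mul_ind_eq v f]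
      refine av_congr fun w => ?_
      have h2 : (s0 : St V).al v w = ind (w = v) := by
        unfold St.al
        by_cases h : v = w
        · have h3 : (s0 : St V).rho v w = 0 := ind_neg (by simpa using h)
          rw [h3, ind_pos h.symm, sub_zero]
        · have h3 : (s0 : St V).rho v w = 1 := ind_pos h
          rw [h3, ind_neg (fun h4 => h h4.symm), sub_self]
      have h5 : (s0 : St V).M v w = 0 := rfl
      rw [h2, h5]
      ring
    have h6 : av (fun v => ind (v ∉ (s0 : St V).F) *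
        (av fun w => ((s0 : St V).al v w - (s0 : St V).M v w) * f w) ^ 2) ≤
        av (fun v => (1 / P.X 200000) ^ 2 * f v ^ 2) := by
      refine av_mono fun v => ?_
      rw [h1 v, hn]
      have h7 := mul_le_mul_of_nonneg_right (ind_le_one (v ∉ (s0 : St V).F))
        (sq_nonneg (f v / P.X 200000))
      refine h7.trans (le_of_eq ?_)
      ring
    refine h6.trans ?_
    rw [av_mul_left]
    refine mul_le_mul_of_nonneg_right ?_ (av_nonneg fun w => sq_nonneg _)
    have h8 := P.X_pos 200000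
    have h9 : (s0 : St V).F.card = 0 := rfl
    rw [h9]
    refine pow_le_pow_left₀ (div_nonneg zero_le_one h8.le) ?_ 2
    have h10 : 1 / P.X 200000 ≤ 2 / P.X 200000 := div_le_div_of_nonneg_right (by norm_num) h8.le
    simpa using h10

lemma inv_s0' : (s0 : St V).Inv A (min 0 P.T) := by
  rw [Nat.zero_min]
  exact inv_s0

/-! ## monotonicity -/

lemma EX_mono (hI : InvOK A) {i k : ℕ} (hik : i + k ≤ P.T) {s : St V} (hs : s.Inv A i)
    {f g : St V → ℝ} (h : ∀ τ : St V, τ.Inv A (i + k) → f τ ≤ g τ) :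
    EX A i k f s ≤ EX A i k g s := by
  rw [EX_eq_trunc A k i hik, EX_eq_trunc A k i hik]
  refine Ex_mono (isInv hI) k i ?_ fun τ hτ => ?_
  · rwa [min_eq_left (by omega)]
  · rw [min_eq_left hik] at hτ
    exact h τ hτ

lemma EE_mono (hI : InvOK A) {t : ℕ} (ht : t ≤ P.T) {f g : St V → ℝ}
    (h : ∀ s : St V, s.Inv A t → f s ≤ g s) : EE A t f ≤ EE A t g := by
  rw [EE_eq, EE_eq]
  exact EX_mono hI (by omega) inv_s0 fun τ hτ => h τ (by rwa [Nat.zero_add] at hτ)

lemma EE_congr (hI : InvOK A) {t : ℕ} (ht : t ≤ P.T) {f g : St V → ℝ}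
    (h : ∀ s : St V, s.Inv A t → f s = g s) : EE A t f = EE A t g :=
  le_antisymm (EE_mono hI ht fun s hs => (h s hs).le) (EE_mono hI ht fun s hs => (h s hs).ge)

lemma EX_congr (hI : InvOK A) {i k : ℕ} (hik : i + k ≤ P.T) {s : St V} (hs : s.Inv A i)
    {f g : St V → ℝ} (h : ∀ τ : St V, τ.Inv A (i + k) → f τ = g τ) :
    EX A i k f s = EX A i k g s :=
  le_antisymm (EX_mono hI hik hs fun τ hτ => (h τ hτ).le)
    (EX_mono hI hik hs fun τ hτ => (h τ hτ).ge)

lemma EE_nonneg (hI : InvOK A) {t : ℕ} (ht : t ≤ P.T) {f : St V → ℝ}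
    (h : ∀ s : St V, s.Inv A t → 0 ≤ f s) : 0 ≤ EE A t f := by
  have h1 := EE_mono hI ht (f := fun _ => 0) h
  rwa [EE_const] at h1

lemma EX_const (i k : ℕ) (c : ℝ) (s : St V) : EX A i k (fun _ => c) s = c := Ex_const _ _ _ _ _

lemma EX_add (i k : ℕ) (f g : St V → ℝ) (s : St V) :
    EX A i k (fun τ => f τ + g τ) s = EX A i k f s + EX A i k g s := Ex_add _ _ _ _ _ _

lemma EX_sub (i k : ℕ) (f g : St V → ℝ) (s : St V) :
    EX A i k (fun τ => f τ - g τ) s = EX A i k f s - EX A i k g s := Ex_sub _ _ _ _ _ _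

lemma EX_smul (i k : ℕ) (c : ℝ) (f : St V → ℝ) (s : St V) :
    EX A i k (fun τ => c * f τ) s = c * EX A i k f s := Ex_smul _ _ _ _ _ _

lemma EX_sum {ι : Type} (B : Finset ι) (i k : ℕ) (f : ι → St V → ℝ) (s : St V) :
    EX A i k (fun τ => ∑ j ∈ B, f j τ) s = ∑ j ∈ B, EX A i k (f j) s := Ex_sum _ _ _ _ _ _

lemma EX_nonneg (hI : InvOK A) {i k : ℕ} (hik : i + k ≤ P.T) {s : St V} (hs : s.Inv A i)
    {f : St V → ℝ} (h : ∀ τ : St V, τ.Inv A (i + k) → 0 ≤ f τ) : 0 ≤ EX A i k f s := by
  have h1 := EX_mono hI hik hs (f := fun _ => 0) h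
  rwa [EX_const] at h1

lemma EE_abs (hI : InvOK A) {t : ℕ} (ht : t ≤ P.T) (f : St V → ℝ) :
    |EE A t f| ≤ EE A t fun s => |f s| := by
  rw [abs_le]
  constructor
  · have h1 := EE_mono hI ht (f := fun s => (-1) * |f s|) (g := f)
      fun s _ => by linarith [neg_abs_le (f s)]
    rw [EE_smul] at h1
    linarith
  · exact EE_mono hI ht fun s _ => le_abs_self (f s)

lemma EE_abs_le (hI : InvOK A) {t : ℕ} (ht : t ≤ P.T) {f : St V → ℝ} {c : ℝ}
    (h : ∀ s : St V, s.Inv A t → |f s| ≤ c) : |EE A t f| ≤ c := by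
  refine (EE_abs hI ht f).trans ?_
  have h1 := EE_mono hI ht (g := fun _ => c) h
  rwa [EE_const] at h1

/-! ## one slot at a good state -/

/-- the unfrozen slot -/
noncomputable def slotP (P : Par) (κ : V → V → V → ℝ) : Slot V (St V) where
  w s x := P.zeta / (Fintype.card V : ℝ) * s.R x
  take s x := s.take P κ x
  emp s := s.skip P κ

lemma slotP_sum (κ : V → V → V → ℝ) (s : St V) : ∑ x, (slotP P κ).w s x = P.zeta * s.m0 := by
  simp only [slotP]
  unfold St.m0 av
  rw [← mul_sum]
  ring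

lemma step_eq_slotP (κ : V → V → V → ℝ) (f : St V → ℝ) (s : St V) :
    s.step P κ f = (slotP P κ).step f s := by
  unfold Slot.step
  rw [slotP_sum]
  have h1 : ∑ x, (slotP P κ).w s x * f ((slotP P κ).take s x) =
      P.zeta * av (fun x => s.R x * f (s.take P κ x)) := by
    simp only [slotP]
    unfold av
    rw [mul_div_assoc', mul_sum, sum_div]
    refine sum_congr rfl fun x _ => ?_
    ring
  rw [h1]
  rfl

lemma zeta_m0_le_one {s : St V} (hg : s.Good A) : P.zeta * s.m0 ≤ 1 := by
  have h1 : P.zeta * s.m0 ≤ P.zeta * P.x :=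
    mul_le_mul_of_nonneg_left (good_m0_le hg) P.zeta_pos.le
  have h2 : P.zeta * P.x = P.X (-99999) := by
    unfold Par.zeta
    rw [← P.X_one, P.X_mul]
    norm_num
  have h3 : P.X (-99999) ≤ 1 := P.X_le_one (by norm_num)
  linarith

lemma slotP_ok (κ : V → V → V → ℝ) {s : St V} (hR : ∀ v, 0 ≤ s.R v) (hg : s.Good A) :
    (slotP P κ).Ok s where
  w0 x := by
    simp only [slotP]
    exact mul_nonneg (div_nonneg P.zeta_pos.le (Nat.cast_nonneg _)) (hR x)
  w1 := by
    rw [slotP_sum]
    exact zeta_m0_le_one hg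

lemma step_add (κ : V → V → V → ℝ) (f g : St V → ℝ) (s : St V) :
    s.step P κ (fun τ => f τ + g τ) = s.step P κ f + s.step P κ g := by
  simp only [step_eq_slotP]; exact Slot.step_add _ _ _ _

lemma step_sub (κ : V → V → V → ℝ) (f g : St V → ℝ) (s : St V) :
    s.step P κ (fun τ => f τ - g τ) = s.step P κ f - s.step P κ g := by
  simp only [step_eq_slotP]; exact Slot.step_sub _ _ _ _

lemma step_smul (κ : V → V → V → ℝ) (c : ℝ) (f : St V → ℝ) (s : St V) :
    s.step P κ (fun τ => c * f τ) = c * s.step P κ f := by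
  simp only [step_eq_slotP]; exact Slot.step_smul _ _ _ _

lemma step_const (κ : V → V → V → ℝ) (c : ℝ) (s : St V) : s.step P κ (fun _ => c) = c := by
  rw [step_eq_slotP]; exact Slot.step_const _ _ _

lemma step_sum {ι : Type} (B : Finset ι) (κ : V → V → V → ℝ) (f : ι → St V → ℝ) (s : St V) :
    s.step P κ (fun τ => ∑ j ∈ B, f j τ) = ∑ j ∈ B, s.step P κ (f j) := by
  simp only [step_eq_slotP]; exact Slot.step_sum _ _ _ _

lemma step_av (κ : V → V → V → ℝ) (f : V → St V → ℝ) (s : St V) :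
    s.step P κ (fun τ => av fun v => f v τ) = av fun v => s.step P κ (f v) := by
  have h1 : (fun τ : St V => av fun v => f v τ) =
      fun τ => (Fintype.card V : ℝ)⁻¹ * ∑ v, f v τ := by
    funext τ
    unfold av
    ring
  rw [h1, step_smul, step_sum]
  unfold av
  ring

/-- the one-step increment -/
lemma step_sub_self (κ : V → V → V → ℝ) (f : St V → ℝ) (s : St V) :
    s.step P κ f - f s = P.zeta * av (fun x => s.R x * (f (s.take P κ x) - f s)) +
      (1 - P.zeta * s.m0) * (f (s.skip P κ) - f s) := by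
  have h1 : av (fun x => s.R x * (f (s.take P κ x) - f s)) =
      av (fun x => s.R x * f (s.take P κ x)) - s.m0 * f s := by
    unfold St.m0
    rw [← av_mul_right, ← av_sub]
    exact av_congr fun x => by ring
  rw [h1]
  unfold St.step
  ring

/-- monotonicity of one step at a good state -/
lemma step_mono (κ : V → V → V → ℝ) {f g : St V → ℝ} {s : St V} (hR : ∀ v, 0 ≤ s.R v)
    (hg : s.Good A) (ht : ∀ x, 0 < s.R x → f (s.take P κ x) ≤ g (s.take P κ x))
    (he : f (s.skip P κ) ≤ g (s.skip P κ)) : s.step P κ f ≤ s.step P κ g := by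
  rw [step_eq_slotP, step_eq_slotP]
  refine Slot.step_mono' _ (slotP_ok κ hR hg) (fun x hx => ht x ?_) he
  refine lt_of_le_of_ne (hR x) fun h => ?_
  simp only [slotP] at hx
  rw [← h, mul_zero] at hx
  exact lt_irrefl 0 hx

/-- Freedman's inequality, one step at a good state -/
lemma freedman (κ : V → V → V → ℝ) {X : St V → ℝ} {s : St V} (hR : ∀ v, 0 ≤ s.R v)
    (hg : s.Good A) {θ D μ v : ℝ} (hθ : 0 ≤ θ) (hD : θ * D ≤ 1)
    (hskip : X (s.skip P κ) - X s ≤ D) (htake : ∀ x, 0 < s.R x → X (s.take P κ x) - X s ≤ D)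
    (hμ : s.step P κ X ≤ X s + μ) (hv : s.step P κ (fun τ => (X τ - X s) ^ 2) ≤ v) :
    s.step P κ (fun τ => Real.exp (θ * X τ)) ≤ Real.exp (θ * X s + θ * μ + θ ^ 2 * v) := by
  rw [step_eq_slotP] at hμ hv ⊢
  refine freedman_step _ (slotP_ok κ hR hg) hθ hD hskip (fun x hx => htake x ?_) hμ hv
  refine lt_of_le_of_ne (hR x) fun h => ?_
  simp only [slotP] at hx
  rw [← h, mul_zero] at hx
  exact lt_irrefl 0 hx

/-- Chernoff's inequality, one step at a good state: increments `≤ ν + d x` at the takes with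
`0 ≤ d x ≤ D` and `zeta * av (R d) ≤ μ`, increment `≤ ν` at an empty slot -/
lemma chernoff (κ : V → V → V → ℝ) {X : St V → ℝ} {s : St V} (hR : ∀ v, 0 ≤ s.R v)
    (hg : s.Good A) {θ D μ ν : ℝ} (hθ : 0 ≤ θ) (hD : θ * D ≤ 1) (d : V → ℝ)
    (hd0 : ∀ x, 0 ≤ d x) (hdD : ∀ x, 0 < s.R x → d x ≤ D) (hskip : X (s.skip P κ) ≤ X s + ν)
    (htake : ∀ x, 0 < s.R x → X (s.take P κ x) ≤ X s + ν + d x)
    (hμ : P.zeta * av (fun x => s.R x * d x) ≤ μ) :
    s.step P κ (fun τ => Real.exp (θ * X τ)) ≤ Real.exp (θ * X s + θ * ν + 2 * θ * μ) := by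
  have hpos : ∀ x, 0 < (slotP P κ).w s x → 0 < s.R x := by
    intro x hx
    refine lt_of_le_of_ne (hR x) fun h => ?_
    simp only [slotP] at hx
    rw [← h, mul_zero] at hx
    exact lt_irrefl 0 hx
  rw [step_eq_slotP]
  refine chernoff_step _ (slotP_ok κ hR hg) hθ hD d hd0 (fun x hx => hdD x (hpos x hx)) hskip
    (fun x hx => htake x (hpos x hx)) ?_
  refine le_trans (le_of_eq ?_) hμ
  simp only [slotP]
  unfold av
  rw [mul_div_assoc', mul_sum, sum_div]
  refine sum_congr rfl fun x _ => ?_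
  ring

/-! ## potentials -/

lemma stepG_good (κ : V → V → V → ℝ) (f : St V → ℝ) {s : St V} (hg : s.Good A) :
    stepG A κ f s = s.step P κ f := by
  unfold stepG
  rw [ind_pos hg]
  ring

lemma stepG_bad (κ : V → V → V → ℝ) (f : St V → ℝ) {s : St V} (hg : ¬ s.Good A) :
    stepG A κ f s = f s := by
  unfold stepG
  rw [ind_neg hg]
  ring

/-- a non-good state stays -/
lemma EX_bad (k : ℕ) : ∀ (i : ℕ) (f : St V → ℝ) {s : St V}, ¬ s.Good A → EX A i k f s = f s := by
  induction k with
  | zero => intro i f s _; exact EX_zero A i f s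
  | succ k ih => intro i f s hg; rw [EX_succ, stepG_bad _ _ hg, ih (i + 1) f hg]

/-- supermartingale (time dependent potential), from time `i` to time `i + k` -/
lemma EX_super (hI : InvOK A) {Φ : ℕ → St V → ℝ} {i k : ℕ} (hik : i + k ≤ P.T) {s : St V}
    (hs : s.Inv A i)
    (hgood : ∀ (t : ℕ) (τ : St V), i ≤ t → t < i + k → τ.Inv A t → τ.Good A →
      τ.step P (kt A t) (Φ (t + 1)) ≤ Φ t τ)
    (hbad : ∀ (t : ℕ) (τ : St V), i ≤ t → t < i + k → τ.Inv A t → ¬ τ.Good A →
      Φ (t + 1) τ ≤ Φ t τ) : EX A i k (Φ (i + k)) s ≤ Φ i s := by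
  rw [EX_eq_trunc A k i hik]
  refine Ex_super (isInv hI) k i (by rwa [min_eq_left (by omega)]) ?_
  intro t τ h1 h2 hτ
  rw [min_eq_left (by omega)] at hτ
  have h3 : SSt A t = SS A t := if_pos (by omega)
  rw [h3]
  have h4 : (SS A t).step (Φ (t + 1)) τ = stepG A (kt A t) (Φ (t + 1)) τ :=
    (stepG_eq A _ _ _).symm
  rw [h4]
  by_cases hg : τ.Good A
  · rw [stepG_good _ _ hg]
    exact hgood t τ h1 h2 hτ hg
  · rw [stepG_bad _ _ hg]
    exact hbad t τ h1 h2 hτ hg

lemma EE_super (hI : InvOK A) {Φ : ℕ → St V → ℝ} {k : ℕ} (hk : k ≤ P.T)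
    (hgood : ∀ (t : ℕ) (τ : St V), t < k → τ.Inv A t → τ.Good A →
      τ.step P (kt A t) (Φ (t + 1)) ≤ Φ t τ)
    (hbad : ∀ (t : ℕ) (τ : St V), t < k → τ.Inv A t → ¬ τ.Good A → Φ (t + 1) τ ≤ Φ t τ) :
    EE A k (Φ k) ≤ Φ 0 s0 := by
  have h1 := EX_super hI (Φ := Φ) (i := 0) (k := k) (by omega) inv_s0
    (fun t τ _ h2 h3 h4 => hgood t τ (by omega) h3 h4)
    (fun t τ _ h2 h3 h4 => hbad t τ (by omega) h3 h4)
  rwa [Nat.zero_add, ← EE_eq] at h1

/-- multiplicative growth -/
lemma EE_growth (hI : InvOK A) {Φ : St V → ℝ} {δ : ℝ} (hδ : 0 ≤ δ) {k : ℕ} (hk : k ≤ P.T)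
    (h0 : ∀ (t : ℕ) (s : St V), t < P.T → s.Inv A t → 0 ≤ Φ s)
    (h : ∀ (t : ℕ) (s : St V), t < P.T → s.Inv A t → s.Good A →
      s.step P (kt A t) Φ ≤ (1 + δ) * Φ s) : EE A k Φ ≤ Real.exp (k * δ) * Φ s0 := by
  have h1 := EE_super hI (Φ := fun t τ => Real.exp (((k : ℝ) - t) * δ) * Φ τ) hk
    (by
      intro t τ ht hτ hg
      rw [step_smul]
      have h2 := h t τ (by omega) hτ hg
      have h3 : (1 + δ) * Φ τ ≤ Real.exp δ * Φ τ :=
        mul_le_mul_of_nonneg_right (by linarith [Real.add_one_le_exp δ]) (h0 t τ (by omega) hτ)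
      have h4 := mul_le_mul_of_nonneg_left (h2.trans h3)
        (Real.exp_pos (((k : ℝ) - ((t + 1 : ℕ) : ℝ)) * δ)).le
      refine h4.trans (le_of_eq ?_)
      rw [← mul_assoc, ← Real.exp_add]
      congr 2
      push_cast
      ring)
    (by
      intro t τ ht hτ hg
      refine mul_le_mul_of_nonneg_right (Real.exp_le_exp.2 ?_) (h0 t τ (by omega) hτ)
      push_cast
      nlinarith)
  simpa using h1

/-- exponential potentials -/
lemma EE_exp (hI : InvOK A) {X : St V → ℝ} {θ c : ℝ} (hc : 0 ≤ c) {k : ℕ} (hk : k ≤ P.T)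
    (h : ∀ (t : ℕ) (s : St V), t < P.T → s.Inv A t → s.Good A →
      s.step P (kt A t) (fun τ => Real.exp (θ * X τ)) ≤ Real.exp (θ * X s + c)) :
    EE A k (fun s => Real.exp (θ * X s)) ≤ Real.exp (θ * X s0 + k * c) := by
  have h1 := EE_super hI
    (Φ := fun t τ => Real.exp (((k : ℝ) - t) * c) * Real.exp (θ * X τ)) hk
    (by
      intro t τ ht hτ hg
      rw [step_smul]
      have h4 := mul_le_mul_of_nonneg_left (h t τ (by omega) hτ hg)
        (Real.exp_pos (((k : ℝ) - ((t + 1 : ℕ) : ℝ)) * c)).le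
      refine h4.trans (le_of_eq ?_)
      rw [← Real.exp_add, ← Real.exp_add]
      congr 1
      push_cast
      ring)
    (by
      intro t τ ht hτ hg
      refine mul_le_mul_of_nonneg_right (Real.exp_le_exp.2 ?_) (Real.exp_pos _).le
      push_cast
      nlinarith)
  have h5 : Real.exp (((k : ℝ) - (0 : ℕ)) * c) * Real.exp (θ * X s0) =
      Real.exp (θ * X s0 + k * c) := by
    rw [← Real.exp_add]
    congr 1
    push_cast
    ring
  simp only [sub_self, zero_mul, Real.exp_zero, one_mul] at h1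
  rw [h5] at h1
  exact h1

/-- additive growth, with a mean bound of the increments -/
lemma EE_growth_sum (hI : InvOK A) {Φ Ψ : St V → ℝ} {c : ℝ} {k : ℕ} (hk : k ≤ P.T)
    (h : ∀ (t : ℕ) (s : St V), t < P.T → s.Inv A t → s.Good A →
      s.step P (kt A t) Φ ≤ Φ s + Ψ s)
    (hbad : ∀ (t : ℕ) (s : St V), t < P.T → s.Inv A t → ¬ s.Good A → 0 ≤ Ψ s)
    (hc : ∀ j < k, EE A j Ψ ≤ c) : EE A k Φ ≤ Φ s0 + k * c := by
  induction k with
  | zero => rw [EE_zero]; simp
  | succ k ih =>
    rw [EE_succ]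
    have h1 : EE A k (stepG A (kt A k) Φ) ≤ EE A k (fun τ => Φ τ + Ψ τ) := by
      refine EE_mono hI (by omega) fun s hs => ?_
      by_cases hg : s.Good A
      · rw [stepG_good _ _ hg]
        exact h k s (by omega) hs hg
      · rw [stepG_bad _ _ hg]
        linarith [hbad k s (by omega) hs hg]
    rw [EE_add] at h1
    have h2 := ih (by omega) fun j hj => hc j (by omega)
    have h3 := hc k (by omega)
    push_cast
    linarith

/-- martingales: `step g = g` at good states -/
lemma EX_mart (hI : InvOK A) {g : St V → ℝ} {i k : ℕ} (hik : i + k ≤ P.T) {s : St V}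
    (hs : s.Inv A i) (h : ∀ (t : ℕ) (τ : St V), t < P.T → τ.Inv A t → τ.Good A →
      τ.step P (kt A t) g = g τ) : EX A i k g s = g s := by
  refine le_antisymm ?_ ?_
  · exact EX_super hI (Φ := fun _ => g) hik hs
      (fun t τ _ h2 h3 h4 => (h t τ (by omega) h3 h4).le) fun t τ _ _ _ _ => le_rfl
  · have h1 := EX_super hI (Φ := fun _ τ => (-1) * g τ) hik hs
      (fun t τ _ h2 h3 h4 => by rw [step_smul, h t τ (by omega) h3 h4])
      fun t τ _ _ _ _ => le_rfl
    rw [EX_smul] at h1
    linarith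

lemma EE_mart (hI : InvOK A) {g : St V → ℝ} {k : ℕ} (hk : k ≤ P.T)
    (h : ∀ (t : ℕ) (τ : St V), t < P.T → τ.Inv A t → τ.Good A →
      τ.step P (kt A t) g = g τ) : EE A k g = g s0 := by
  rw [EE_eq]
  exact EX_mart hI (by omega) inv_s0 h

/-! ## probabilities -/

lemma EE_markov (hI : InvOK A) {t : ℕ} (ht : t ≤ P.T) (B : St V → Prop) {Φ : St V → ℝ} {a : ℝ}
    (h0 : ∀ s : St V, s.Inv A t → 0 ≤ Φ s) (h : ∀ s : St V, s.Inv A t → B s → a ≤ Φ s) :
    a * EE A t (fun s => ind (B s)) ≤ EE A t Φ := by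
  rw [← EE_smul]
  refine EE_mono hI ht fun s hs => ?_
  by_cases hB : B s
  · rw [ind_pos hB, mul_one]
    exact h s hs hB
  · rw [ind_neg hB, mul_zero]
    exact h0 s hs

/-- exponential Markov inequality -/
lemma EE_markov_exp (hI : InvOK A) {t : ℕ} (ht : t ≤ P.T) (B : St V → Prop) {X : St V → ℝ}
    {θ a b : ℝ} (hθ : 0 ≤ θ) (h : ∀ s : St V, s.Inv A t → B s → a ≤ X s)
    (hb : EE A t (fun s => Real.exp (θ * X s)) ≤ Real.exp b) :
    EE A t (fun s => ind (B s)) ≤ Real.exp (b - θ * a) := by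
  have h1 := EE_markov hI ht B (Φ := fun s => Real.exp (θ * X s)) (a := Real.exp (θ * a))
    (fun s _ => (Real.exp_pos _).le)
    (fun s hs hB => Real.exp_le_exp.2 (mul_le_mul_of_nonneg_left (h s hs hB) hθ))
  have h2 : Real.exp (θ * a) * EE A t (fun s => ind (B s)) ≤
      Real.exp (θ * a) * Real.exp (b - θ * a) := by
    rw [← Real.exp_add, add_sub_cancel]
    exact h1.trans hb
  exact le_of_mul_le_mul_left h2 (Real.exp_pos _)

/-- union bound over the vertices (averages turned into sums) -/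
lemma EE_exists (hI : InvOK A) {t : ℕ} (ht : t ≤ P.T) {ι : Type} [Fintype ι]
    (B : ι → St V → Prop) {c : ℝ} (h : ∀ j, EE A t (fun s => ind (B j s)) ≤ c) :
    EE A t (fun s => ind (∃ j, B j s)) ≤ (Fintype.card ι : ℝ) * c := by
  have h1 : EE A t (fun s => ind (∃ j, B j s)) ≤ EE A t (fun s => ∑ j, ind (B j s)) := by
    refine EE_mono hI ht fun s _ => ?_
    by_cases hB : ∃ j, B j s
    · obtain ⟨j, hj⟩ := hB
      rw [ind_pos ⟨j, hj⟩, ← ind_pos hj]
      exact single_le_sum (f := fun j => ind (B j s)) (fun _ _ => ind_nonneg _) (mem_univ j)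
    · rw [ind_neg hB]
      exact sum_nonneg fun _ _ => ind_nonneg _
  rw [EE_sum] at h1
  refine h1.trans ((sum_le_sum fun j _ => h j).trans (le_of_eq ?_))
  rw [sum_const, card_univ, nsmul_eq_mul]

/-- the probability of a non-good state increases with time -/
lemma Pb_mono (hI : InvOK A) {t k : ℕ} (htk : t + k ≤ P.T) : Pb A t ≤ Pb A (t + k) := by
  unfold Pb
  rw [EE_add_time]
  refine EE_mono hI (by omega) fun s hs => ?_
  by_cases hg : s.Good A
  · rw [ind_neg (not_not.2 hg)]
    exact EX_nonneg hI htk hs fun τ _ => ind_nonneg _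
  · rw [EX_bad _ _ _ hg]

/-! ## domination -/

/-- `b = (zeta / n) x` bounds the probability of each take -/
lemma dom (hI : InvOK A) {t : ℕ} (ht : t ≤ P.T) (B : Finset V) :
    EE A t (fun s => ind (B ⊆ s.F)) ≤ (5 * P.X 10001 / P.X 200000) ^ B.card := by
  have hn := card_eq A
  have hX := P.X_pos 200000
  have hb : 0 ≤ P.zeta / P.X 200000 * P.x :=
    mul_nonneg (div_nonneg P.zeta_pos.le hX.le) P.hx0.le
  have h1 := dominate (isInv hI) (fun s : St V => s.F)
    (fun i s _ => by
      by_cases hi : i < P.T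
      · have h3 : SSt A i = SS A i := if_pos hi
        rw [h3]
        simp only [SS, slotG]
        split_ifs <;> rfl
      · have h3 : SSt A i = idle := if_neg hi
        rw [h3]
        rfl)
    (fun i s x _ hw => by
      by_cases hi : i < P.T
      · have h3 : SSt A i = SS A i := if_pos hi
        rw [h3]
        rfl
      · have h3 : SSt A i = idle := if_neg hi
        rw [h3] at hw
        exact absurd hw (lt_irrefl 0))
    hb
    (fun i s x _ => by
      by_cases hi : i < P.T
      · have h3 : SSt A i = SS A i := if_pos hi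
        rw [h3]
        simp only [SS, slotG]
        by_cases hg : s.Good A
        · rw [ind_pos hg, one_mul, hn]
          exact mul_le_mul_of_nonneg_left (hg.g1 x) (div_nonneg P.zeta_pos.le hX.le)
        · rw [ind_neg hg, zero_mul]
          exact hb
      · have h3 : SSt A i = idle := if_neg hi
        rw [h3]
        exact hb)
    B t 0 inv_s0'
  have h4 : EE A t (fun s => ind (B ⊆ s.F)) =
      Ex (SSt A) 0 t (fun τ => if B ⊆ τ.F then (1 : ℝ) else 0) s0 := by
    rw [EE_eq_trunc A ht]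
    congr 1
    funext s
    by_cases h : B ⊆ s.F
    · rw [ind_pos h, if_pos h]
    · rw [ind_neg h, if_neg h]
  rw [h4]
  refine h1.trans ?_
  have h5 : (s0 : St V).F = ∅ := rfl
  rw [h5, sdiff_empty]
  refine pow_le_pow_left₀ (mul_nonneg (Nat.cast_nonneg _) hb) ?_ _
  have h6 : (t : ℝ) ≤ P.T := by exact_mod_cast ht
  have h7 := mul_le_mul_of_nonneg_right h6 hb
  refine h7.trans (le_of_eq ?_)
  have h8 : P.zeta * P.T = 5 * P.X 10000 := P.zeta_T
  have h9 : P.X 10001 = P.X 10000 * P.x := by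
    rw [← P.X_one, P.X_mul]
    norm_num
  calc (P.T : ℝ) * (P.zeta / P.X 200000 * P.x) = (P.zeta * P.T) * P.x / P.X 200000 := by ring
    _ = 5 * P.X 10001 / P.X 200000 := by rw [h8, h9]; ring

/-! ## three points -/

/-- `a` is taken in the slot `t`, after that `g` -/
noncomputable def tkf (A : Amb P V) (t : ℕ) (a : V) (g : St V → ℝ) (s : St V) : ℝ :=
  ind (s.Good A) * (P.zeta / P.X 200000 * s.R a) * g (s.take P (kt A t) a)

/-- `a`, `b`, `c` are taken in the slots `i < j < k`, after that `f` at time `T` -/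
noncomputable def TP (A : Amb P V) (i j k : ℕ) (a b c : V) (f : St V → ℝ) : ℝ :=
  EE A i (tkf A i a (EX A (i + 1) (j - (i + 1)) (tkf A j b (EX A (j + 1) (k - (j + 1))
    (tkf A k c (EX A (k + 1) (P.T - (k + 1)) f))))))

lemma tkf_eq (t : ℕ) (a : V) (g : St V → ℝ) (s : St V) :
    tkf A t a g s = (SS A t).w s a * g ((SS A t).take s a) := by
  unfold tkf
  simp only [SS, slotG]
  rw [card_eq A]

lemma P3_eq_TP {i j k : ℕ} (hij : i < j) (hjk : j < k) (hk : k < P.T) (a b c : V)
    (f : St V → ℝ) : P3 (SSt A) P.T i j k a b c f s0 = TP A i j k a b c f := by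
  have e1 : SSt A i = SS A i := if_pos (by omega)
  have e2 : SSt A j = SS A j := if_pos (by omega)
  have e3 : SSt A k = SS A k := if_pos hk
  have h1 : ∀ τ, Ex (SSt A) (k + 1) (P.T - (k + 1)) f τ = EX A (k + 1) (P.T - (k + 1)) f τ :=
    fun τ => (EX_eq_trunc A _ _ (by omega) f τ).symm
  have h2 : tk (SSt A) (j + 1) (k - (j + 1)) c (Ex (SSt A) (k + 1) (P.T - (k + 1)) f) =
      EX A (j + 1) (k - (j + 1)) (tkf A k c (EX A (k + 1) (P.T - (k + 1)) f)) := by
    funext τ
    rw [EX_eq_trunc A _ _ (by omega)]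
    unfold tk
    rw [show j + 1 + (k - (j + 1)) = k by omega, e3]
    congr 1
    funext ρ
    rw [h1, tkf_eq]
  have h3 : tk (SSt A) (i + 1) (j - (i + 1)) b (EX A (j + 1) (k - (j + 1))
      (tkf A k c (EX A (k + 1) (P.T - (k + 1)) f))) =
      EX A (i + 1) (j - (i + 1)) (tkf A j b (EX A (j + 1) (k - (j + 1))
      (tkf A k c (EX A (k + 1) (P.T - (k + 1)) f)))) := by
    funext τ
    rw [EX_eq_trunc A (j - (i + 1)) (i + 1) (by omega)]
    unfold tk
    rw [show i + 1 + (j - (i + 1)) = j by omega, e2]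
    congr 1
    funext ρ
    rw [tkf_eq]
  unfold P3 TP
  rw [h2, h3, EE_eq_trunc A (by omega)]
  unfold tk
  rw [show 0 + i = i by omega, e1]
  congr 1
  funext ρ
  rw [tkf_eq]

/-- the expectation of `f` on the event that the distinct vertices `a`, `b`, `c` are in `F` at
time `T` -/
lemma three (hI : InvOK A) (f : St V → ℝ) (a b c : V) (hab : a ≠ b) (hac : a ≠ c) (hbc : b ≠ c) :
    EE A P.T (fun s => ind (a ∈ s.F ∧ b ∈ s.F ∧ c ∈ s.F) * f s) =
      ∑ i ∈ range P.T, ∑ j ∈ Ioo i P.T, ∑ k ∈ Ioo j P.T,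
      ((TP A i j k a b c f + TP A i j k a c b f) + (TP A i j k b a c f + TP A i j k b c a f) +
        (TP A i j k c a b f + TP A i j k c b a f)) := by
  have h1 := three_points (isInv hI) (fun s : St V => s.F)
    (fun i s _ => by
      by_cases hi : i < P.T
      · have h3 : SSt A i = SS A i := if_pos hi
        rw [h3]
        simp only [SS, slotG]
        split_ifs <;> rfl
      · have h3 : SSt A i = idle := if_neg hi
        rw [h3]
        rfl)
    (fun i s x _ hw => by
      by_cases hi : i < P.T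
      · have h3 : SSt A i = SS A i := if_pos hi
        rw [h3]
        rfl
      · have h3 : SSt A i = idle := if_neg hi
        rw [h3] at hw
        exact absurd hw (lt_irrefl 0))
    (fun i s x hs hx => by
      by_cases hi : i < P.T
      · have h3 : SSt A i = SS A i := if_pos hi
        rw [h3]
        simp only [SS, slotG]
        rw [hs.RF x hx]
        ring
      · have h3 : SSt A i = idle := if_neg hi
        rw [h3]
        rfl)
    f P.T inv_s0' rfl a b c hab hac hbc
  have h4 : EE A P.T (fun s => ind (a ∈ s.F ∧ b ∈ s.F ∧ c ∈ s.F) * f s) =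
      Ex (SSt A) 0 P.T (fun τ => if {a, b, c} ⊆ τ.F then f τ else 0) s0 := by
    rw [EE_eq_trunc A le_rfl]
    congr 1
    funext s
    by_cases h : a ∈ s.F ∧ b ∈ s.F ∧ c ∈ s.F
    · rw [ind_pos h, if_pos, one_mul]
      intro v hv
      simp only [mem_insert, mem_singleton] at hv
      rcases hv with rfl | rfl | rfl
      · exact h.1
      · exact h.2.1
      · exact h.2.2
    · rw [ind_neg h, if_neg, zero_mul]
      intro h5
      exact h ⟨h5 (by simp), h5 (by simp), h5 (by simp)⟩
  rw [h4, h1]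
  refine sum_congr rfl fun i _ => sum_congr rfl fun j hj => sum_congr rfl fun k hk => ?_
  rw [mem_Ioo] at hj hk
  simp only [P3_eq_TP hj.1 hk.1 hk.2]

/-- the total weight of the placements -/
lemma sum_placements (q : ℝ) :
    ∑ i ∈ range P.T, ∑ j ∈ Ioo i P.T, ∑ _k ∈ Ioo j P.T, (6 * q) =
      (P.T : ℝ) * (P.T - 1) * (P.T - 2) * q := sum_triples P.T q

end MP5cA.Br
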