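import Pool.Agent.Lib.MP_5c685b_co.A.Base

/-!
# Route A', file 0b: the ambient hypergraph, the static quantities, the process, `Good`, `Inv`
-/

set_option autoImplicit false
set_option linter.unusedVariables false
set_option linter.unusedSectionVars false

open Finset

namespace MP5cA

variable {V : Type} [Fintype V] [DecidableEq V]

/-! ## operator bounds (kernels act by averages, functions vanishing on `F`) -/

/-- the kernel `K`, restricted to the complement of `F`, has operator norm at most `c` -/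
def OpLe (F : Finset V) (K : V → V → ℝ) (c : ℝ) : Prop :=
  ∀ f : V → ℝ, (∀ v ∈ F, f v = 0) →
    av (fun v => ind (v ∉ F) * (av fun w => K v w * f w) ^ 2) ≤ c ^ 2 * av (fun w => f w ^ 2)

/-- the matrix of a kernel -/
noncomputable def mat (K : V → V → ℝ) : Matrix V V ℝ :=
  Matrix.of fun v w => K v w / (Fintype.card V : ℝ)

/-! ## the ambient 3-graph: `H u v w` = non-edge -/

structure Amb (P : Par) (V : Type) [Fintype V] [DecidableEq V] where
  H : V → V → V → Prop
  hc : Fintype.card V = P.r ^ 20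
  hd : ∀ u v w, H u v w → u ≠ v ∧ u ≠ w ∧ v ≠ w
  s1 : ∀ u v w, H u v w → H v u w
  s2 : ∀ u v w, H u v w → H u w v
  he : ∀ u v, av (fun w => ind (H u v w)) ≤ P.eps

variable {P : Par}

namespace Amb

variable (A : Amb P V)

/-- distinctness of three vertices -/
def D3 (u v w : V) : Prop := u ≠ v ∧ u ≠ w ∧ v ≠ w

noncomputable def h (u v w : V) : ℝ := ind (A.H u v w)

noncomputable def lam (u v : V) : ℝ := av fun s => av fun y => A.h s u y * A.h s v y

noncomputable def lam3 (u v w : V) : ℝ :=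
  av fun s => av fun y => A.h s u y * A.h s v y * A.h s w y

def Strong (u v : V) : Prop := P.theta ≤ A.lam u v

def TT (u v w : V) : Prop := D3 u v w ∧ ¬ A.H u v w ∧ P.theta ≤ A.lam3 u v w

noncomputable def hh (u v w : V) : ℝ := ind (A.H u v w ∨ A.TT u v w)

/-- `E_y hh(u,v,y) lam(w,y)` -/
noncomputable def nu (w u v : V) : ℝ := av fun y => A.hh u v y * A.lam w y

/-- `E_y hh(u,v,y) hh(u,w,y)` -/
noncomputable def mu (u v w : V) : ℝ := av fun y => A.hh u v y * A.hh u w y

/-- `E_y lam(u,y) lam(v,y)` -/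
noncomputable def chi (u v : V) : ℝ := av fun y => A.lam u y * A.lam v y

/-- `E_{u,w} h(u,w,v) hh(x,u,w)` -/
noncomputable def lamh (v x : V) : ℝ := av fun u => av fun w => A.h u w v * A.hh x u w

/-- the static bound for the level three error -/
noncomputable def Psi (u v w : V) : ℝ :=
  P.X (-18600) + P.X 10500 * (A.lam u v + A.lam u w + A.lam v w)
    + P.X 20020 * (A.lam3 u v w * ind (A.lam3 u v w < P.theta))
    + P.X 30080 * (A.nu w u v + A.nu v u w + A.nu u v w)
    + P.X 10020 * (A.mu u v w + A.mu v u w + A.mu w u v)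
    + P.X 50220 * (A.chi u v + A.chi u w + A.chi v w)

end Amb

/-! ## states -/

structure St (V : Type) where
  F : Finset V
  R : V → ℝ
  rho : V → V → ℝ
  M : V → V → ℝ

/-- initial state -/
noncomputable def s0 : St V := ⟨∅, fun _ => 1, fun v w => ind (v ≠ w), fun _ _ => 0⟩

namespace St

variable (s : St V)

noncomputable def m0 : ℝ := av s.R

noncomputable def m1 (v : V) : ℝ := av fun y => s.R y * s.rho v y

noncomputable def m2 (κ : V → V → V → ℝ) (v w : V) : ℝ :=
  av fun y => s.R y * s.rho v y * s.rho w y * κ v w y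

noncomputable def m3 (κ : V → V → V → ℝ) (u v w : V) : ℝ :=
  av fun y => s.R y * s.rho u y * s.rho v y * s.rho w y * κ u v y * κ u w y * κ v w y

/-- the drift of `W u v w` is `- zeta * W * Th` up to second order -/
noncomputable def Th (κ : V → V → V → ℝ) (u v w : V) : ℝ :=
  s.m0 - s.m1 u - s.m1 v - s.m1 w + s.m2 κ u v + s.m2 κ u w + s.m2 κ v w - s.m3 κ u v w

noncomputable def LL (κ : V → V → V → ℝ) (x v w : V) : ℝ :=
  s.rho v w * (1 - κ x v w) * ind (Amb.D3 x v w)

noncomputable def Lbar (P : Par) (κ : V → V → V → ℝ) (v w : V) : ℝ :=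
  P.zeta * av fun x => s.R x * s.LL κ x v w

/-- the state after taking `x` -/
noncomputable def take (P : Par) (κ : V → V → V → ℝ) (x : V) : St V where
  F := insert x s.F
  R := fun v => s.R v * s.rho x v
  rho := fun v w => s.rho v w * κ x v w
  M := fun v w => s.M v w + s.LL κ x v w - s.Lbar P κ v w

/-- the state after an empty slot -/
noncomputable def skip (P : Par) (κ : V → V → V → ℝ) : St V where
  F := s.F
  R := fun v => s.R v * (1 - P.zeta * s.m1 v) / (1 - P.zeta * s.m0)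
  rho := fun v w => s.rho v w * ((1 - P.zeta * s.m2 κ v w) * (1 - P.zeta * s.m0))
    / ((1 - P.zeta * s.m1 v) * (1 - P.zeta * s.m1 w))
  M := fun v w => s.M v w - s.Lbar P κ v w

/-- weight of a triple -/
noncomputable def W (u v w : V) : ℝ :=
  s.R u * s.R v * s.R w * s.rho u v * s.rho u w * s.rho v w

/-- weight of a pair -/
noncomputable def U (u v : V) : ℝ := s.R u * s.R v * s.rho u v

noncomputable def al (v w : V) : ℝ := 1 - s.rho v w

noncomputable def bl (v w : V) : ℝ := ind (s.rho v w = 0)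

noncomputable def aa (v w : V) : ℝ := |1 - s.rho v w| * ind (s.rho v w ≠ 0)

noncomputable def DD (v w : V) : ℝ := av fun y => s.R y * s.al v y * s.al w y

/-- `g(v,w) = <rho_v rho_w be_vw>` -/
noncomputable def gg (κ : V → V → V → ℝ) (v w : V) : ℝ :=
  av fun y => s.R y * s.rho v y * s.rho w y * (1 - κ v w y)

noncomputable def bp (A : Amb P V) (v w : V) : ℝ := ind (∃ u ∈ s.F, A.H u v w)

noncomputable def Yp (A : Amb P V) (v : V) : ℝ := av fun w => s.R w * s.bp A v w

noncomputable def VV (A : Amb P V) (v w : V) : ℝ := av fun y => s.bp A v y * s.bp A w y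

noncomputable def QQ (A : Amb P V) (v : V) : ℝ := av fun u => av fun w => A.h u w v * s.U u w

noncomputable def cnt (A : Amb P V) (v : V) : ℝ := ∑ u ∈ s.F, ind (A.Strong u v)

noncomputable def Z9 (A : Amb P V) : ℝ :=
  ∑ u ∈ s.F, ∑ v ∈ s.F, ∑ w ∈ s.F, ind (Amb.D3 u v w) * A.Psi u v w ^ 2

/-- one slot, applied to a function of the state (no freezing) -/
noncomputable def step (P : Par) (κ : V → V → V → ℝ) (f : St V → ℝ) : ℝ :=
  P.zeta * av (fun x => s.R x * f (s.take P κ x)) + (1 - P.zeta * s.m0) * f (s.skip P κ)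

/-- the windows -/
structure Good (A : Amb P V) : Prop where
  g1 : ∀ v, s.R v ≤ P.x
  g2 : (s.F.card : ℝ) ≤ P.X 10002
  g3 : ∀ v, s.Yp A v ≤ (P.y0 - 1 / 2) / P.r
  g4 : ∀ v w, v ≠ w → s.VV A v w ≤ P.X (-19994) + P.X 10004 * A.lam v w
  g5 : ∀ v, s.cnt A v ≤ 300
  g6 : OpLe ∅ s.M (P.X (-14940))
  g7 : 9 / 10 ≤ s.m0
  g8 : ∀ v, s.QQ A v ≤ 2 * P.eps
  g9 : s.Z9 A ≤ 1 / 10 ^ 7

/-- the deterministic invariant -/
structure Inv (A : Amb P V) (t : ℕ) : Prop where
  sym : ∀ v w, s.rho v w = s.rho w v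
  nn : ∀ v w, 0 ≤ s.rho v w
  Rn : ∀ v, 0 ≤ s.R v
  RF : ∀ v ∈ s.F, s.R v = 0
  rF : ∀ v ∈ s.F, ∀ w, s.rho v w = 0
  rd : ∀ v, s.rho v v = 0
  bk : ∀ v w, v ∉ s.F → w ∉ s.F → v ≠ w → (s.rho v w = 0 ↔ ∃ u ∈ s.F, A.H u v w)
  cl : ∀ u ∈ s.F, ∀ v ∈ s.F, ∀ w ∈ s.F, ¬ A.H u v w
  Rc : ∀ v, s.R v ≠ 0 → ∀ u ∈ s.F, ∀ w ∈ s.F, ¬ A.H u w v
  Ms : ∀ v w, s.M v w = s.M w v
  cR : ∀ v, s.R v ≤ P.X 3
  cr : ∀ v w, s.rho v w ≤ P.X 3
  i1 : ∀ v w, A.Strong v w →
    s.rho v w ≤ Real.exp (P.Kp * s.cnt A v + P.zeta * t / P.r)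
  i2 : ∀ v w, ¬ A.Strong v w →
    s.aa v w ≤ P.sS t + P.zeta * t * P.X 10006 * A.lam v w
  i3 : ∀ v, v ∉ s.F →
    av (fun w => ind (¬ A.Strong v w) * s.aa v w ^ 2) ≤ (P.zeta * t * P.X (-19886)) ^ 2
  i4 : OpLe s.F (fun v w => s.al v w - s.M v w)
    (2 / P.X 200000 + s.F.card * P.zeta + P.zeta * t * P.X (-24892))

end St

/-! ## the factors of level three, the process -/

/-- requirements on `κ` -/
structure KOK (A : Amb P V) (κ : V → V → V → ℝ) : Prop where
  s1 : ∀ u v w, κ u v w = κ v u w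
  s2 : ∀ u v w, κ u v w = κ u w v
  kH : ∀ u v w, A.H u v w ∨ ¬ Amb.D3 u v w → κ u v w = 0
  k1 : ∀ u v w, Amb.D3 u v w → ¬ A.H u v w → ¬ A.TT u v w → κ u v w = 1
  kl : ∀ u v w, A.TT u v w → Real.exp (-P.Kp) ≤ κ u v w
  ku : ∀ u v w, A.TT u v w → κ u v w ≤ Real.exp P.Kp

open Classical in
/-- the factors determined by an expectation functional (clamped to `[exp (-Kp), exp Kp]`) -/
noncomputable def kap (A : Amb P V) (E : (St V → ℝ) → ℝ) (u v w : V) : ℝ :=
  ind (Amb.D3 u v w ∧ ¬ A.H u v w) *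
    (if A.TT u v w then max (Real.exp (-P.Kp)) (min (Real.exp P.Kp)
      (E fun s => ind (s.Good A) * s.W u v w)⁻¹) else 1)

/-- one slot with freezing at non-good states -/
noncomputable def stepG (A : Amb P V) (κ : V → V → V → ℝ) (f : St V → ℝ) (s : St V) : ℝ :=
  ind (s.Good A) * s.step P κ f + (1 - ind (s.Good A)) * f s

/-- the expectation at time `t` -/
noncomputable def EE (A : Amb P V) : ℕ → (St V → ℝ) → ℝ
  | 0 => fun f => f s0
  | t + 1 => fun f => EE A t (stepG A (kap A (EE A t)) f)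

/-- the factors at time `t` -/
noncomputable def kt (A : Amb P V) (t : ℕ) : V → V → V → ℝ := kap A (EE A t)

/-- probability of a non-good state at time `t` -/
noncomputable def Pb (A : Amb P V) (t : ℕ) : ℝ := EE A t fun s => ind (¬ s.Good A)

end MP5cA
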