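import Pool.Agent.Lib.MP_5c685b_co.A.Frame
import Pool.Agent.Lib.MP_5c685b_co.A.Base

/-!
# Route A', section 2: the probability that three vertices are taken

`Marg`: a process which is frozen outside `good`, with the martingales `R`, `U`.
`marg_three`: the probability that `a b c` are taken (and the process ends well).
-/

set_option autoImplicit false
set_option linter.unusedVariables false
set_option linter.unusedSectionVars false

namespace MP5cA

open Finset MP5c.A

variable {V St : Type} [Fintype V] [DecidableEq V]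

/-- a process with weights `z R`, frozen outside `good`, with the martingales `R` and `U` -/
structure Marg (S : ℕ → Slot V St) (I : ℕ → St → Prop) (F : St → Finset V) (good : St → Prop)
    (R : St → V → ℝ) (U : St → V → V → ℝ) (W : St → V → V → V → ℝ) (κ : ℕ → V → V → V → ℝ)
    (z cR cU : ℝ) (T : ℕ) : Prop where
  inv : IsInv S I
  Fe : ∀ t s, I t s → F ((S t).emp s) = F s
  Ft : ∀ t s x, I t s → 0 < (S t).w s x → F ((S t).take s x) = insert x (F s)
  Fw : ∀ t s x, I t s → x ∈ F s → (S t).w s x = 0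
  w : ∀ t s x, t < T → I t s → (S t).w s x = ind (good s) * (z * R s x)
  emp : ∀ t s, I t s → ¬ good s → (S t).emp s = s
  stR : ∀ t s v, I t s → (S t).step (fun τ => R τ v) s = R s v
  stU : ∀ t s v w, v ≠ w → I t s → (S t).step (fun τ => U τ v w) s = U s v w
  tkR : ∀ t s v w, t < T → v ≠ w → I t s → good s → R s v * R ((S t).take s v) w = U s v w
  tkU : ∀ t s u v w, t < T → u ≠ v → u ≠ w → v ≠ w → I t s → good s →
    R s u * U ((S t).take s u) v w = κ t u v w * W s u v w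
  R0 : ∀ t s v, I t s → 0 ≤ R s v
  Rc : ∀ t s v, I t s → R s v ≤ cR
  U0 : ∀ t s v w, I t s → 0 ≤ U s v w
  Uc : ∀ t s v w, I t s → U s v w ≤ cU
  z0 : 0 ≤ z
  cR0 : 0 ≤ cR
  cU0 : 0 ≤ cU

namespace Marg

variable {S : ℕ → Slot V St} {I : ℕ → St → Prop} {F : St → Finset V} {good : St → Prop}
    {R : St → V → ℝ} {U : St → V → V → ℝ} {W : St → V → V → V → ℝ} {κ : ℕ → V → V → V → ℝ}
    {z cR cU : ℝ} {T : ℕ}

/-- states outside `good` are frozen -/
theorem frozen (M : Marg S I F good R U W κ z cR cU T) (f : St → ℝ) (k : ℕ) :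
    ∀ (i : ℕ) {s : St}, i + k ≤ T → I i s → ¬ good s → Ex S i k f s = f s := by
  induction k with
  | zero => intro i s _ _ _; rw [Ex_zero]
  | succ k ih =>
    intro i s hik hs hg
    have hw : ∀ x, (S i).w s x = 0 := fun x => by
      rw [M.w i s x (by omega) hs, ind_neg hg, zero_mul]
    have he := M.emp i s hs hg
    have hI := M.inv.emp i s hs
    rw [he] at hI
    rw [Ex_succ, (S i).step_frozen hw he]
    exact ih (i + 1) (by omega) hI hg

/-- probability of ending outside `good` -/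
noncomputable def bt (S : ℕ → Slot V St) (good : St → Prop) (T t : ℕ) (s : St) : ℝ :=
  Ex S t (T - t) (fun τ => ind (¬ good τ)) s

theorem bt_nonneg (M : Marg S I F good R U W κ z cR cU T) (t : ℕ) {s : St} (hs : I t s) :
    0 ≤ bt S good T t s :=
  Ex_nonneg M.inv _ _ hs fun τ _ => ind_nonneg _

theorem Ex_bad_le (M : Marg S I F good R U W κ z cR cU T) {i m : ℕ} (h : i + m ≤ T) {s : St}
    (hs : I i s) : Ex S i m (fun τ => ind (¬ good τ)) s ≤ bt S good T i s := by
  unfold bt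
  rw [show T - i = m + (T - (i + m)) by omega, Ex_add_time]
  refine Ex_mono M.inv m i hs fun τ hτ => ?_
  by_cases hg : good τ
  · rw [ind_neg (not_not.2 hg)]
    exact Ex_nonneg M.inv _ _ hτ fun σ _ => ind_nonneg _
  · rw [M.frozen _ _ _ (by omega) hτ hg]

theorem Ex_bt (S : ℕ → Slot V St) (good : St → Prop) {T i m : ℕ} (h : i + m ≤ T) (s : St) :
    Ex S i m (bt S good T (i + m)) s = bt S good T i s := by
  unfold bt
  rw [show T - i = m + (T - (i + m)) by omega, Ex_add_time]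

theorem w_bt (M : Marg S I F good R U W κ z cR cU T) {t : ℕ} (h : t < T) {s : St} (hs : I t s)
    (x : V) : (S t).w s x * bt S good T (t + 1) ((S t).take s x) ≤ bt S good T t s := by
  have h1 : bt S good T t s = (S t).step (bt S good T (t + 1)) s := by
    unfold bt
    rw [show T - t = (T - (t + 1)) + 1 by omega, Ex_succ]
  have hok := M.inv.ok t s hs
  have h2 : ∀ y, 0 ≤ (S t).w s y * bt S good T (t + 1) ((S t).take s y) := by
    intro y
    rcases (hok.w0 y).eq_or_lt with h | h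
    · rw [← h, zero_mul]
    · exact mul_nonneg h.le (M.bt_nonneg (t + 1) (M.inv.take t s y hs h))
  rw [h1]
  unfold Slot.step
  have h3 := single_le_sum (fun y _ => h2 y) (mem_univ x)
  have h4 : 0 ≤ (1 - ∑ x, (S t).w s x) * bt S good T (t + 1) ((S t).emp s) :=
    mul_nonneg (by linarith [hok.w1]) (M.bt_nonneg (t + 1) (M.inv.emp t s hs))
  linarith

/-- replace the continuation -/
theorem tk_approx (M : Marg S I F good R U W κ z cR cU T) {g h : St → ℝ} {C : ℝ} (hC : 0 ≤ C)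
    {i m : ℕ} (hi : i + m < T) (x : V)
    (hg : ∀ σ, I (i + m + 1) σ → |g σ - h σ| ≤ C * bt S good T (i + m + 1) σ) {τ : St}
    (hτ : I i τ) : |tk S i m x g τ - tk S i m x h τ| ≤ C * bt S good T i τ := by
  unfold tk
  rw [← Ex_sub]
  refine (Ex_abs M.inv _ _ _ hτ).trans ?_
  rw [← Ex_bt S good (show i + m ≤ T by omega) τ, ← Ex_smul]
  refine Ex_mono M.inv m i hτ fun σ hσ => ?_
  rw [← mul_sub, abs_mul, abs_of_nonneg ((M.inv.ok _ σ hσ).w0 x)]
  rcases ((M.inv.ok _ σ hσ).w0 x).eq_or_lt with h1 | h1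
  · rw [← h1, zero_mul]
    exact mul_nonneg hC (M.bt_nonneg _ hσ)
  · have h2 := hg _ (M.inv.take _ σ x hσ h1)
    have h3 := M.w_bt (show i + m < T by omega) hσ x
    calc (S (i + m)).w σ x * |g ((S (i + m)).take σ x) - h ((S (i + m)).take σ x)|
        ≤ (S (i + m)).w σ x * (C * bt S good T (i + m + 1) ((S (i + m)).take σ x)) :=
          mul_le_mul_of_nonneg_left h2 h1.le
      _ = C * ((S (i + m)).w σ x * bt S good T (i + m + 1) ((S (i + m)).take σ x)) := by ring
      _ ≤ C * bt S good T (i + m) σ := mul_le_mul_of_nonneg_left h3 hC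

/-- a nonnegative bounded quantity on bad states -/
theorem Ex_bad_mul (M : Marg S I F good R U W κ z cR cU T) {f : St → ℝ} {c : ℝ} (hc : 0 ≤ c)
    {i m : ℕ} (hi : i + m ≤ T) (h0 : ∀ τ, I (i + m) τ → 0 ≤ f τ)
    (h1 : ∀ τ, I (i + m) τ → f τ ≤ c) {s : St} (hs : I i s) :
    0 ≤ Ex S i m (fun τ => ind (¬ good τ) * f τ) s ∧
      Ex S i m (fun τ => ind (¬ good τ) * f τ) s ≤ c * bt S good T i s := by
  refine ⟨Ex_nonneg M.inv _ _ hs fun τ hτ => mul_nonneg (ind_nonneg _) (h0 τ hτ), ?_⟩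
  calc Ex S i m (fun τ => ind (¬ good τ) * f τ) s
      ≤ Ex S i m (fun τ => c * ind (¬ good τ)) s := by
        refine Ex_mono M.inv _ _ hs fun τ hτ => ?_
        rw [mul_comm c]
        exact mul_le_mul_of_nonneg_left (h1 τ hτ) (ind_nonneg _)
    _ = c * Ex S i m (fun τ => ind (¬ good τ)) s := Ex_smul S _ _ _ _ _
    _ ≤ c * bt S good T i s := mul_le_mul_of_nonneg_left (M.Ex_bad_le hi hs) hc

/-- one vertex -/
theorem one (M : Marg S I F good R U W κ z cR cU T) {i m : ℕ} (hi : i + m < T) (c : V) {s : St}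
    (hs : I i s) : |tk S i m c (fun _ => 1) s - z * R s c| ≤ (z * cR) * bt S good T i s := by
  have h1 : tk S i m c (fun _ => 1) s =
      z * R s c - z * Ex S i m (fun τ => ind (¬ good τ) * R τ c) s := by
    unfold tk
    rw [Ex_congr M.inv m i hs (g := fun τ => z * R τ c - z * (ind (¬ good τ) * R τ c))
      (fun τ hτ => by rw [M.w _ τ c hi hτ, ind_not]; ring)]
    rw [Ex_sub, Ex_smul, Ex_smul]
    rw [Ex_mart M.inv (g := fun _ τ => R τ c) (fun t τ hτ => M.stR t τ c hτ) m i hs]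
  have h2 := M.Ex_bad_mul M.cR0 (show i + m ≤ T by omega) (f := fun τ => R τ c)
    (fun τ hτ => M.R0 _ τ c hτ) (fun τ hτ => M.Rc _ τ c hτ) hs
  rw [h1, abs_le]
  have h3 := mul_nonneg M.z0 h2.1
  have h4 := mul_le_mul_of_nonneg_left h2.2 M.z0
  have h5 := mul_nonneg M.z0 (mul_nonneg M.cR0 (M.bt_nonneg i hs))
  constructor <;> nlinarith

/-- two vertices, exact continuation -/
theorem two_main (M : Marg S I F good R U W κ z cR cU T) {i m : ℕ} (hi : i + m < T) {b c : V}
    (hbc : b ≠ c) {s : St} (hs : I i s) :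
    |tk S i m b (fun σ => z * R σ c) s - z ^ 2 * U s b c| ≤ (z ^ 2 * cU) * bt S good T i s := by
  have h1 : tk S i m b (fun σ => z * R σ c) s =
      z ^ 2 * U s b c - z ^ 2 * Ex S i m (fun τ => ind (¬ good τ) * U τ b c) s := by
    unfold tk
    rw [Ex_congr M.inv m i hs (g := fun τ => z ^ 2 * U τ b c - z ^ 2 * (ind (¬ good τ) * U τ b c))
      (fun τ hτ => by
        rw [M.w _ τ b hi hτ]
        by_cases hg : good τ
        · rw [ind_pos hg, ind_neg (not_not.2 hg), ← M.tkR _ τ b c hi hbc hτ hg]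
          ring
        · rw [ind_neg hg, ind_pos hg]
          ring)]
    rw [Ex_sub, Ex_smul, Ex_smul]
    rw [Ex_mart M.inv (g := fun _ τ => U τ b c) (fun t τ hτ => M.stU t τ b c hbc hτ) m i hs]
  have h2 := M.Ex_bad_mul M.cU0 (show i + m ≤ T by omega) (f := fun τ => U τ b c)
    (fun τ hτ => M.U0 _ τ b c hτ) (fun τ hτ => M.Uc _ τ b c hτ) hs
  rw [h1, abs_le]
  have hz : 0 ≤ z ^ 2 := sq_nonneg z
  have h3 := mul_nonneg hz h2.1
  have h4 := mul_le_mul_of_nonneg_left h2.2 hz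
  have h5 := mul_nonneg hz (mul_nonneg M.cU0 (M.bt_nonneg i hs))
  constructor <;> nlinarith

/-- two vertices -/
theorem two (M : Marg S I F good R U W κ z cR cU T) {i m m' : ℕ} (hi : i + m + 1 + m' < T)
    {b c : V} (hbc : b ≠ c) {s : St} (hs : I i s) :
    |tk S i m b (tk S (i + m + 1) m' c (fun _ => 1)) s - z ^ 2 * U s b c| ≤
      (z ^ 2 * cU + z * cR) * bt S good T i s := by
  have h1 := M.tk_approx (g := tk S (i + m + 1) m' c (fun _ => 1)) (h := fun σ => z * R σ c)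
    (mul_nonneg M.z0 M.cR0) (show i + m < T by omega) b (fun σ hσ => M.one hi c hσ) hs
  have h2 := M.two_main (show i + m < T by omega) hbc hs
  have h3 := abs_add_le (tk S i m b (tk S (i + m + 1) m' c (fun _ => 1)) s -
    tk S i m b (fun σ => z * R σ c) s) (tk S i m b (fun σ => z * R σ c) s - z ^ 2 * U s b c)
  rw [sub_add_sub_cancel] at h3
  linarith

/-- three vertices -/
theorem three (M : Marg S I F good R U W κ z cR cU T) {i j k : ℕ} (hij : i < j) (hjk : j < k)
    (hk : k < T) {a b c : V} (hab : a ≠ b) (hac : a ≠ c) (hbc : b ≠ c) {s : St} (hs : I 0 s) :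
    |P3 S T i j k a b c (fun _ => 1) s -
      z ^ 3 * (κ i a b c * Ex S 0 i (fun τ => ind (good τ) * W τ a b c) s)| ≤
      (z ^ 2 * cU + z * cR) * bt S good T 0 s := by
  have hC : 0 ≤ z ^ 2 * cU + z * cR :=
    add_nonneg (mul_nonneg (sq_nonneg z) M.cU0) (mul_nonneg M.z0 M.cR0)
  have h1 := M.tk_approx (i := 0) (m := i)
    (g := tk S (i + 1) (j - (i + 1)) b (tk S (j + 1) (k - (j + 1)) c (fun _ => 1)))
    (h := fun σ => z ^ 2 * U σ b c) hC (by omega) a (fun σ hσ => by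
      rw [Nat.zero_add] at hσ ⊢
      have h := M.two (i := i + 1) (m := j - (i + 1)) (m' := k - (j + 1)) (by omega)
        hbc hσ
      rwa [show i + 1 + (j - (i + 1)) + 1 = j + 1 by omega] at h) hs
  have h2 : tk S 0 i a (fun σ => z ^ 2 * U σ b c) s =
      z ^ 3 * (κ i a b c * Ex S 0 i (fun τ => ind (good τ) * W τ a b c) s) := by
    unfold tk
    rw [← mul_assoc, ← Ex_smul]
    refine Ex_congr M.inv i 0 hs fun τ hτ => ?_
    rw [M.w _ τ a (by omega) hτ]
    by_cases hg : good τ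
    · have h3 := M.tkU _ τ a b c (by omega) hab hac hbc hτ hg
      rw [Nat.zero_add] at h3
      rw [ind_pos hg, Nat.zero_add]
      linear_combination z ^ 3 * h3
    · rw [ind_neg hg]
      ring
  have h4 : P3 S T i j k a b c (fun _ => 1) s =
      tk S 0 i a (tk S (i + 1) (j - (i + 1)) b (tk S (j + 1) (k - (j + 1)) c (fun _ => 1))) s := by
    unfold P3
    have : Ex S (k + 1) (T - (k + 1)) (fun _ => (1 : ℝ)) = fun _ => 1 :=
      funext (Ex_const S 1 _ _)
    rw [this]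
  rw [h4, ← h2]
  exact h1

/-- the probability that three vertices are taken and the process ends in `fin` -/
theorem three_fin (M : Marg S I F good R U W κ z cR cU T) {a b c : V} (hab : a ≠ b)
    (hac : a ≠ c) (hbc : b ≠ c) {s : St} (hs : I 0 s) (hF : F s = ∅) (fin : St → Prop)
    {δ q q' : ℝ}
    (hk : ∀ i < T, ∀ a' b' c' : V, ({a', b', c'} : Finset V) = {a, b, c} → a' ≠ b' → a' ≠ c' →
      b' ≠ c' → |κ i a' b' c' * Ex S 0 i (fun τ => ind (good τ) * W τ a' b' c') s - 1| ≤ δ)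
    (hq : Ex S 0 T (fun τ => ind (¬ good τ)) s ≤ q)
    (hq' : Ex S 0 T (fun τ => ind (¬ fin τ)) s ≤ q') :
    |Ex S 0 T (fun τ => ind (fin τ) * ind (a ∈ F τ ∧ b ∈ F τ ∧ c ∈ F τ)) s -
      (T : ℝ) * (T - 1) * (T - 2) * z ^ 3| ≤
      (T : ℝ) * (T - 1) * (T - 2) * (z ^ 3 * δ + (z ^ 2 * cU + z * cR) * q) + q' := by
  have hC : 0 ≤ z ^ 2 * cU + z * cR :=
    add_nonneg (mul_nonneg (sq_nonneg z) M.cU0) (mul_nonneg M.z0 M.cR0)
  have hz3 : 0 ≤ z ^ 3 := pow_nonneg M.z0 3
  set E := z ^ 3 * δ + (z ^ 2 * cU + z * cR) * q with hE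
  have hbt : bt S good T 0 s ≤ q := by
    unfold bt
    rwa [Nat.sub_zero]
  -- one placement
  have key : ∀ i j k, i < j → j < k → k < T → ∀ a' b' c' : V,
      ({a', b', c'} : Finset V) = {a, b, c} → a' ≠ b' → a' ≠ c' → b' ≠ c' →
      |P3 S T i j k a' b' c' (fun _ => 1) s - z ^ 3| ≤ E := by
    intro i j k hij hjk hkT a' b' c' he h1 h2 h3
    have h4 := M.three hij hjk hkT h1 h2 h3 hs
    have h5 := hk i (by omega) a' b' c' he h1 h2 h3
    have h6 : |z ^ 3 * (κ i a' b' c' * Ex S 0 i (fun τ => ind (good τ) * W τ a' b' c') s) -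
        z ^ 3| ≤ z ^ 3 * δ := by
      rw [show z ^ 3 * (κ i a' b' c' * Ex S 0 i (fun τ => ind (good τ) * W τ a' b' c') s) - z ^ 3 =
        z ^ 3 * (κ i a' b' c' * Ex S 0 i (fun τ => ind (good τ) * W τ a' b' c') s - 1) by ring,
        abs_mul, abs_of_nonneg hz3]
      exact mul_le_mul_of_nonneg_left h5 hz3
    have h7 := abs_add_le (P3 S T i j k a' b' c' (fun _ => 1) s -
      z ^ 3 * (κ i a' b' c' * Ex S 0 i (fun τ => ind (good τ) * W τ a' b' c') s))
      (z ^ 3 * (κ i a' b' c' * Ex S 0 i (fun τ => ind (good τ) * W τ a' b' c') s) - z ^ 3)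
    rw [sub_add_sub_cancel] at h7
    have h8 := mul_le_mul_of_nonneg_left hbt hC
    rw [hE]
    linarith
  have hperm : ({a, c, b} : Finset V) = {a, b, c} ∧ ({b, a, c} : Finset V) = {a, b, c} ∧
      ({b, c, a} : Finset V) = {a, b, c} ∧ ({c, a, b} : Finset V) = {a, b, c} ∧
      ({c, b, a} : Finset V) = {a, b, c} := by
    refine ⟨?_, ?_, ?_, ?_, ?_⟩ <;>
    · ext v
      simp only [mem_insert, mem_singleton]
      tauto
  obtain ⟨p1, p2, p3, p4, p5⟩ := hperm
  -- all placements, functional 1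
  have h3 := three_points M.inv F M.Fe M.Ft M.Fw (fun _ => 1) T hs hF a b c hab hac hbc
  have hmain : |Ex S 0 T (fun τ => if {a, b, c} ⊆ F τ then (1 : ℝ) else 0) s -
      (T : ℝ) * (T - 1) * (T - 2) * z ^ 3| ≤ (T : ℝ) * (T - 1) * (T - 2) * E := by
    rw [h3, ← sum_triples T (z ^ 3), ← sum_triples T E, ← sum_sub_distrib]
    refine (abs_sum_le_sum_abs _ _).trans (sum_le_sum fun i hi => ?_)
    rw [← sum_sub_distrib]
    refine (abs_sum_le_sum_abs _ _).trans (sum_le_sum fun j hj => ?_)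
    rw [← sum_sub_distrib]
    refine (abs_sum_le_sum_abs _ _).trans (sum_le_sum fun k hk' => ?_)
    rw [mem_Ioo] at hj hk'
    have k1 := abs_le.1 (key i j k hj.1 hk'.1 hk'.2 a b c rfl hab hac hbc)
    have k2 := abs_le.1 (key i j k hj.1 hk'.1 hk'.2 a c b p1 hac hab hbc.symm)
    have k3 := abs_le.1 (key i j k hj.1 hk'.1 hk'.2 b a c p2 hab.symm hbc hac)
    have k4 := abs_le.1 (key i j k hj.1 hk'.1 hk'.2 b c a p3 hbc hab.symm hac.symm)
    have k5 := abs_le.1 (key i j k hj.1 hk'.1 hk'.2 c a b p4 hac.symm hbc.symm hab)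
    have k6 := abs_le.1 (key i j k hj.1 hk'.1 hk'.2 c b a p5 hbc.symm hac.symm hab.symm)
    rw [abs_le]
    constructor <;> linarith [k1.1, k1.2, k2.1, k2.2, k3.1, k3.2, k4.1, k4.2, k5.1, k5.2, k6.1, k6.2]
  -- the final condition
  have hfin : |Ex S 0 T (fun τ => ind (fin τ) * ind (a ∈ F τ ∧ b ∈ F τ ∧ c ∈ F τ)) s -
      Ex S 0 T (fun τ => if {a, b, c} ⊆ F τ then (1 : ℝ) else 0) s| ≤ q' := by
    rw [← Ex_sub]
    refine (Ex_abs M.inv _ _ _ hs).trans (le_trans ?_ hq')
    refine Ex_mono M.inv _ _ hs fun τ _ => ?_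
    have h5 : (if {a, b, c} ⊆ F τ then (1 : ℝ) else 0) = ind (a ∈ F τ ∧ b ∈ F τ ∧ c ∈ F τ) := by
      have h6 : ({a, b, c} : Finset V) ⊆ F τ ↔ (a ∈ F τ ∧ b ∈ F τ ∧ c ∈ F τ) := by
        simp only [insert_subset_iff, singleton_subset_iff]
      by_cases h7 : ({a, b, c} : Finset V) ⊆ F τ
      · rw [if_pos h7, ind_pos (h6.1 h7)]
      · rw [if_neg h7, ind_neg (fun h8 => h7 (h6.2 h8))]
    rw [h5]
    have h8 := ind_nonneg (a ∈ F τ ∧ b ∈ F τ ∧ c ∈ F τ)
    have h9 := ind_le_one (a ∈ F τ ∧ b ∈ F τ ∧ c ∈ F τ)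
    by_cases h7 : fin τ
    · rw [ind_pos h7, one_mul, sub_self, abs_zero]
      exact ind_nonneg _
    · rw [ind_neg h7, ind_pos h7, zero_mul, zero_sub, abs_neg, abs_of_nonneg h8]
      exact h9
  have h10 := abs_add_le (Ex S 0 T (fun τ => ind (fin τ) * ind (a ∈ F τ ∧ b ∈ F τ ∧ c ∈ F τ)) s -
    Ex S 0 T (fun τ => if {a, b, c} ⊆ F τ then (1 : ℝ) else 0) s)
    (Ex S 0 T (fun τ => if {a, b, c} ⊆ F τ then (1 : ℝ) else 0) s -
      (T : ℝ) * (T - 1) * (T - 2) * z ^ 3)
  rw [sub_add_sub_cancel] at h10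
  linarith

end Marg

end MP5cA
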