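import Pool.Agent.Lib.MP_5c685b_co.A.Defs

/-!
# Route A', the moment principle

`E` is a linear functional, monotone relative to an invariant `J`, and `F` a random finite set of
vertices with `E 1[S ⊆ F] ≤ q ^ |S|`.  For a nonnegative sum `Z = ∑_i φ i 1[supp i ⊆ F]` with
`∑_i φ i q ^ |supp i \ I| ≤ β` for all small `I` one has `E Z ^ k ≤ β ^ k` and
`E 1[z ≤ Z] ≤ (β / z) ^ k`.  Then the versions for one, two and three vertices.
-/

set_option autoImplicit false
set_option linter.unusedSectionVars false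
set_option linter.unusedVariables false

namespace MP5cA

open Finset

/-- A linear functional, monotone relative to the invariant `J`. -/
structure PosLin {S : Type*} (J : S → Prop) (E : (S → ℝ) → ℝ) : Prop where
  add : ∀ f g : S → ℝ, E (fun s => f s + g s) = E f + E g
  smul : ∀ (c : ℝ) (f : S → ℝ), E (fun s => c * f s) = c * E f
  mono : ∀ f g : S → ℝ, (∀ s, J s → f s ≤ g s) → E f ≤ E g

namespace PosLin

variable {St : Type*} {J : St → Prop} {E : (St → ℝ) → ℝ}

theorem zero (h : PosLin J E) : E (fun _ => 0) = 0 := by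
  have := h.smul 0 (fun _ => 0)
  simpa using this

theorem sum (h : PosLin J E) {ι : Type*} (T : Finset ι) (f : ι → St → ℝ) :
    E (fun s => ∑ i ∈ T, f i s) = ∑ i ∈ T, E (f i) := by
  classical
  induction T using Finset.induction_on with
  | empty => simpa using h.zero
  | insert a T ha ih =>
    simp only [sum_insert ha]
    rw [h.add, ih]

theorem nonneg (h : PosLin J E) {f : St → ℝ} (hf : ∀ s, J s → 0 ≤ f s) : 0 ≤ E f := by
  have := h.mono (fun _ => 0) f hf
  rwa [h.zero] at this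

end PosLin

section Moment

variable {St V ι : Type*} [DecidableEq V]

/-- the random sum -/
noncomputable def Zs (F : St → Finset V) (T : Finset ι) (supp : ι → Finset V) (φ : ι → ℝ)
    (s : St) : ℝ :=
  ∑ i ∈ T, if supp i ⊆ F s then φ i else 0

theorem Zs_nonneg (F : St → Finset V) (T : Finset ι) (supp : ι → Finset V) (φ : ι → ℝ)
    (hφ : ∀ i ∈ T, 0 ≤ φ i) (s : St) : 0 ≤ Zs F T supp φ s := by
  unfold Zs
  refine sum_nonneg fun i hi => ?_
  split_ifs
  · exact hφ i hi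
  · exact le_rfl

/-- moments with a forced set -/
theorem moment_forced {J : St → Prop} {E : (St → ℝ) → ℝ} (hE : PosLin J E) (F : St → Finset V) {q : ℝ} (hq : 0 ≤ q)
    (T : Finset ι) (supp : ι → Finset V) (φ : ι → ℝ) (hφ : ∀ i ∈ T, 0 ≤ φ i) {m K : ℕ}
    (hdom : ∀ S : Finset V, S.card ≤ m * K → E (fun s => ind (S ⊆ F s)) ≤ q ^ S.card)
    (hm : ∀ i ∈ T, (supp i).card ≤ m) {β : ℝ} (hβ0 : 0 ≤ β)
    (hβ : ∀ I : Finset V, I.card + m ≤ m * K → ∑ i ∈ T, φ i * q ^ (supp i \ I).card ≤ β) :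
    ∀ k : ℕ, ∀ I : Finset V, I.card + m * k ≤ m * K →
      E (fun s => ind (I ⊆ F s) * Zs F T supp φ s ^ k) ≤ β ^ k * q ^ I.card := by
  intro k
  induction k with
  | zero =>
    intro I hI
    simp only [pow_zero, mul_one, one_mul]
    exact hdom I (by simpa using hI)
  | succ k ih =>
    intro I hI
    have h1 : (fun s => ind (I ⊆ F s) * Zs F T supp φ s ^ (k + 1)) =
        fun s => ∑ i ∈ T, φ i * (ind (I ∪ supp i ⊆ F s) * Zs F T supp φ s ^ k) := by
      funext s
      rw [pow_succ]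
      conv_lhs => rw [show Zs F T supp φ s ^ k * Zs F T supp φ s =
        ∑ i ∈ T, (if supp i ⊆ F s then φ i else 0) * Zs F T supp φ s ^ k by
          rw [← sum_mul]
          unfold Zs
          ring]
      rw [mul_sum]
      refine sum_congr rfl fun i _ => ?_
      by_cases hI' : I ⊆ F s
      · by_cases hs : supp i ⊆ F s
        · rw [ind_pos hI', if_pos hs, ind_pos (union_subset hI' hs)]
          ring
        · rw [ind_pos hI', if_neg hs, ind_neg fun h => hs (subset_union_right.trans h)]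
          ring
      · rw [ind_neg hI', ind_neg fun h => hI' (subset_union_left.trans h)]
        ring
    rw [h1, hE.sum]
    have h2 : ∀ i ∈ T, E (fun s => φ i * (ind (I ∪ supp i ⊆ F s) *
        Zs F T supp φ s ^ k)) ≤ β ^ k * q ^ I.card * (φ i * q ^ (supp i \ I).card) := by
      intro i hi
      rw [hE.smul]
      have hc : (I ∪ supp i).card ≤ I.card + m := (card_union_le _ _).trans
        (Nat.add_le_add_left (hm i hi) _)
      have hms : m * (k + 1) = m * k + m := by ring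
      have h3 := ih (I ∪ supp i) (by omega)
      have h4 : (I ∪ supp i).card = I.card + (supp i \ I).card := by
        rw [← union_sdiff_self_eq_union, card_union_of_disjoint disjoint_sdiff]
      rw [h4, pow_add] at h3
      calc φ i * E (fun s => ind (I ∪ supp i ⊆ F s) * Zs F T supp φ s ^ k)
          ≤ φ i * (β ^ k * (q ^ I.card * q ^ (supp i \ I).card)) :=
            mul_le_mul_of_nonneg_left h3 (hφ i hi)
        _ = _ := by ring
    refine (sum_le_sum h2).trans ?_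
    rw [← mul_sum]
    have h5 := hβ I (by nlinarith [Nat.zero_le k, Nat.zero_le m])
    calc β ^ k * q ^ I.card * ∑ i ∈ T, φ i * q ^ (supp i \ I).card
        ≤ β ^ k * q ^ I.card * β := mul_le_mul_of_nonneg_left h5 (by positivity)
      _ = β ^ (k + 1) * q ^ I.card := by ring

/-- **moment principle** -/
theorem moment {J : St → Prop} {E : (St → ℝ) → ℝ} (hE : PosLin J E) (F : St → Finset V) {q : ℝ} (hq : 0 ≤ q)
    (T : Finset ι) (supp : ι → Finset V) (φ : ι → ℝ) (hφ : ∀ i ∈ T, 0 ≤ φ i) {m K : ℕ}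
    (hdom : ∀ S : Finset V, S.card ≤ m * K → E (fun s => ind (S ⊆ F s)) ≤ q ^ S.card)
    (hm : ∀ i ∈ T, (supp i).card ≤ m) {β : ℝ} (hβ0 : 0 ≤ β)
    (hβ : ∀ I : Finset V, I.card + m ≤ m * K → ∑ i ∈ T, φ i * q ^ (supp i \ I).card ≤ β) :
    E (fun s => Zs F T supp φ s ^ K) ≤ β ^ K := by
  have h := moment_forced hE F hq T supp φ hφ hdom hm hβ0 hβ K ∅ (by simp)
  have h1 : ∀ s, ind ((∅ : Finset V) ⊆ F s) = 1 := fun s => ind_pos (empty_subset _)
  simp only [h1, one_mul, card_empty, pow_zero, mul_one] at h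
  exact h

/-- tail bound -/
theorem tail {J : St → Prop} {E : (St → ℝ) → ℝ} (hE : PosLin J E) (F : St → Finset V) {q : ℝ} (hq : 0 ≤ q)
    (T : Finset ι) (supp : ι → Finset V) (φ : ι → ℝ) (hφ : ∀ i ∈ T, 0 ≤ φ i) {m K : ℕ}
    (hdom : ∀ S : Finset V, S.card ≤ m * K → E (fun s => ind (S ⊆ F s)) ≤ q ^ S.card)
    (hm : ∀ i ∈ T, (supp i).card ≤ m) {β : ℝ} (hβ0 : 0 ≤ β)
    (hβ : ∀ I : Finset V, I.card + m ≤ m * K → ∑ i ∈ T, φ i * q ^ (supp i \ I).card ≤ β)
    {z : ℝ} (hz : 0 < z) (B : St → Prop)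
    (hB : ∀ s, J s → B s → z ≤ Zs F T supp φ s) :
    E (fun s => ind (B s)) ≤ (β / z) ^ K := by
  have h1 := moment hE F hq T supp φ hφ hdom hm hβ0 hβ
  have h2 : E (fun s => ind (B s)) ≤ E (fun s => (1 / z ^ K) * Zs F T supp φ s ^ K) := by
    refine hE.mono _ _ fun s hJ => ?_
    have hz0 := Zs_nonneg F T supp φ hφ s
    by_cases hs : B s
    · have h3 : z ^ K ≤ Zs F T supp φ s ^ K := pow_le_pow_left₀ hz.le (hB s hJ hs) K
      rw [ind_pos hs, one_div, inv_mul_eq_div, le_div_iff₀ (by positivity), one_mul]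
      exact h3
    · rw [ind_neg hs]
      positivity
  rw [hE.smul] at h2
  calc _ ≤ _ := h2
    _ ≤ (1 / z ^ K) * β ^ K := mul_le_mul_of_nonneg_left h1 (by positivity)
    _ = (β / z) ^ K := by rw [div_pow]; ring

end Moment


section Beta

variable {V : Type*} [DecidableEq V]

/-- weight of one vertex when `I` is forced -/
noncomputable def uI (q : ℝ) (I : Finset V) (x : V) : ℝ := if x ∈ I then 1 else q

theorem uI_le {q : ℝ} (hq : 0 ≤ q) (I : Finset V) (x : V) :
    uI q I x ≤ (if x ∈ I then 1 else 0) + q := by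
  unfold uI
  split_ifs
  · linarith
  · linarith

theorem uI_nonneg {q : ℝ} (hq : 0 ≤ q) (I : Finset V) (x : V) : 0 ≤ uI q I x := by
  unfold uI
  split_ifs
  · exact zero_le_one
  · exact hq

theorem pow_one_sdiff (q : ℝ) (I : Finset V) (a : V) :
    q ^ (({a} : Finset V) \ I).card = uI q I a := by
  unfold uI
  split_ifs with h
  · rw [sdiff_eq_empty_iff_subset.2 (singleton_subset_iff.2 h), card_empty, pow_zero]
  · rw [sdiff_eq_self_of_disjoint (disjoint_singleton_left.2 h), card_singleton, pow_one]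

theorem pow_insert_sdiff (q : ℝ) (I e : Finset V) (a : V) (ha : a ∉ e) :
    q ^ ((insert a e) \ I).card = uI q I a * q ^ (e \ I).card := by
  unfold uI
  split_ifs with h
  · rw [insert_sdiff_of_mem _ h, one_mul]
  · rw [insert_sdiff_of_notMem _ h, card_insert_of_notMem (fun hm => ha (mem_sdiff.1 hm).1),
      pow_succ]
    ring

theorem pow_two_sdiff (q : ℝ) (I : Finset V) {a b : V} (hab : a ≠ b) :
    q ^ (({a, b} : Finset V) \ I).card = uI q I a * uI q I b := by
  rw [pow_insert_sdiff q I {b} a (by simpa using hab), pow_one_sdiff]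

theorem pow_three_sdiff (q : ℝ) (I : Finset V) {a b c : V} (hab : a ≠ b) (hac : a ≠ c)
    (hbc : b ≠ c) :
    q ^ (({a, b, c} : Finset V) \ I).card = uI q I a * (uI q I b * uI q I c) := by
  rw [pow_insert_sdiff q I {b, c} a (by simp [hab, hac]), pow_two_sdiff q I hbc]

end Beta

section One

variable {St V : Type*} [DecidableEq V] [Fintype V]

/-- `β` for one vertex -/
theorem beta_one {q : ℝ} (hq : 0 ≤ q) (φ : V → ℝ) (hφ : ∀ v, 0 ≤ φ v) {B0 B1 : ℝ}
    (h0 : ∀ v, φ v ≤ B0) (h1 : ∑ v, φ v ≤ B1) (I : Finset V) :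
    ∑ v, φ v * q ^ (({v} : Finset V) \ I).card ≤ q * B1 + I.card * B0 := by
  have h2 : ∀ v ∈ (univ : Finset V), φ v * q ^ (({v} : Finset V) \ I).card ≤
      q * φ v + (if v ∈ I then φ v else 0) := by
    intro v _
    rw [pow_one_sdiff]
    have h3 := mul_le_mul_of_nonneg_left (uI_le hq I v) (hφ v)
    refine h3.trans (le_of_eq ?_)
    split_ifs <;> ring
  refine (sum_le_sum h2).trans ?_
  rw [sum_add_distrib, ← mul_sum]
  refine add_le_add (mul_le_mul_of_nonneg_left h1 hq) ?_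
  rw [← sum_filter]
  have h4 : (univ.filter (fun v => v ∈ I)) = I := by ext; simp
  rw [h4]
  refine (sum_le_card_nsmul I φ B0 fun v _ => h0 v).trans (le_of_eq ?_)
  rw [nsmul_eq_mul]

/-- tail bound for a sum over the vertices of `F` -/
theorem tail_one {J : St → Prop} {E : (St → ℝ) → ℝ} (hE : PosLin J E) (F : St → Finset V) {D : ℝ} (hD : 0 ≤ D)
    [Nonempty V] (φ : V → ℝ) (hφ : ∀ v, 0 ≤ φ v) {K : ℕ}
    (hdom : ∀ S : Finset V, S.card ≤ K →
      E (fun s => ind (S ⊆ F s)) ≤ (D / Fintype.card V) ^ S.card)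
    {b0 b1 : ℝ} (hb0 : 0 ≤ b0) (hb1 : 0 ≤ b1)
    (h0 : ∀ v, φ v ≤ b0) (h1 : ∑ v, φ v ≤ Fintype.card V * b1)
    {z : ℝ} (hz : 0 < z) (B : St → Prop)
    (hB : ∀ s, J s → B s → z ≤ ∑ v ∈ F s, φ v) :
    E (fun s => ind (B s)) ≤ ((D * b1 + K * b0) / z) ^ K := by
  have hn : (0 : ℝ) < Fintype.card V := by exact_mod_cast Fintype.card_pos
  have hq : 0 ≤ D / (Fintype.card V : ℝ) := by positivity
  refine tail hE F hq (univ : Finset V) (fun v => {v}) φ (fun v _ => hφ v) (m := 1) (K := K)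
    (fun S hS => hdom S (by simpa using hS)) (fun i _ => by simp)
    (by positivity) (fun I hI => ?_) hz B (fun s hJ hs => (hB s hJ hs).trans (le_of_eq ?_))
  · refine (beta_one hq φ hφ h0 h1 I).trans ?_
    have h2 : D / (Fintype.card V : ℝ) * (Fintype.card V * b1) = D * b1 := by
      field_simp
    rw [h2]
    have h3 : (I.card : ℝ) ≤ K := by exact_mod_cast (by omega : I.card ≤ K)
    have := mul_le_mul_of_nonneg_right h3 hb0
    linarith
  · unfold Zs
    rw [← sum_filter]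
    refine sum_congr ?_ fun _ _ => rfl
    ext v
    simp

/-- the number of elements of `F` in a given set `T` is at least `A` -/
theorem tail_count {J : St → Prop} {E : (St → ℝ) → ℝ} (hE : PosLin J E) (F : St → Finset V) {q : ℝ} (hq : 0 ≤ q)
    {A : ℕ} (hdom : ∀ S : Finset V, S.card = A →
      E (fun s => ind (S ⊆ F s)) ≤ q ^ S.card)
    (T : Finset V) (B : St → Prop)
    (hB : ∀ s, J s → B s → A ≤ (F s ∩ T).card) :
    E (fun s => ind (B s)) ≤ (q * T.card) ^ A := by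
  have h1 : E (fun s => ind (B s)) ≤
      E (fun s => ∑ S ∈ T.powersetCard A, ind (S ⊆ F s)) := by
    refine hE.mono _ _ fun s hJ => ?_
    by_cases hs : B s
    · obtain ⟨S, hS1, hS2⟩ := exists_subset_card_eq (hB s hJ hs)
      have h2 : S ∈ T.powersetCard A :=
        mem_powersetCard.2 ⟨hS1.trans inter_subset_right, hS2⟩
      refine le_trans ?_ (single_le_sum (f := fun S => ind (S ⊆ F s))
        (fun S _ => ind_nonneg _) h2)
      rw [ind_pos hs, ind_pos (hS1.trans inter_subset_left)]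
    · rw [ind_neg hs]
      exact sum_nonneg fun S _ => ind_nonneg _
  rw [hE.sum] at h1
  refine h1.trans ?_
  have h3 : ∀ S ∈ T.powersetCard A, E (fun s => ind (S ⊆ F s)) ≤ q ^ A := by
    intro S hS
    have := hdom S (mem_powersetCard.1 hS).2
    rwa [(mem_powersetCard.1 hS).2] at this
  refine (sum_le_card_nsmul _ _ _ h3).trans ?_
  rw [nsmul_eq_mul, card_powersetCard, mul_pow, mul_comm]
  refine mul_le_mul_of_nonneg_left ?_ (by positivity)
  exact_mod_cast Nat.choose_le_pow T.card A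

end One

section Two

variable {St V : Type*} [DecidableEq V] [Fintype V]

/-- `β` for two vertices (equal vertices allowed) -/
theorem beta_two {q : ℝ} (hq : 0 ≤ q) (g : V → V → ℝ) (hg : ∀ a b, 0 ≤ g a b)
    {B0 B1 B2 Bd : ℝ} (h0 : ∀ a b, g a b ≤ B0) (h1 : ∀ a, ∑ b, g a b ≤ B1)
    (h1' : ∀ b, ∑ a, g a b ≤ B1) (h2 : ∑ a, ∑ b, g a b ≤ B2) (hd : ∑ a, g a a ≤ Bd)
    (I : Finset V) :
    ∑ t : V × V, g t.1 t.2 * q ^ (({t.1, t.2} : Finset V) \ I).card ≤
      q ^ 2 * B2 + q * Bd + 2 * I.card * (q * B1) + I.card ^ 2 * B0 := by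
  classical
  have hind : ∀ (f : V → ℝ), ∑ a, (if a ∈ I then f a else 0) = ∑ a ∈ I, f a := by
    intro f
    rw [← sum_filter]
    refine sum_congr ?_ fun _ _ => rfl
    ext v
    simp
  -- pointwise bound
  have hp : ∀ t ∈ (univ : Finset (V × V)), g t.1 t.2 * q ^ (({t.1, t.2} : Finset V) \ I).card ≤
      g t.1 t.2 * (((if t.1 ∈ I then 1 else 0) + q) * ((if t.2 ∈ I then 1 else 0) + q)) +
      (if t.1 = t.2 then g t.1 t.1 * q else 0) := by
    rintro ⟨a, b⟩ _
    simp only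
    by_cases hab : a = b
    · subst hab
      rw [if_pos rfl]
      have h3 : ({a, a} : Finset V) = {a} := by simp
      rw [h3, pow_one_sdiff]
      have h4 := mul_le_mul_of_nonneg_left (uI_le hq I a) (hg a a)
      have h5 : g a a * ((if a ∈ I then 1 else 0) + q) ≤
          g a a * (((if a ∈ I then 1 else 0) + q) * ((if a ∈ I then 1 else 0) + q)) +
            g a a * q := by
        rw [← mul_add]
        refine mul_le_mul_of_nonneg_left ?_ (hg a a)
        split_ifs <;> nlinarith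
      linarith
    · rw [if_neg hab, add_zero, pow_two_sdiff q I hab]
      exact mul_le_mul_of_nonneg_left (mul_le_mul (uI_le hq I a) (uI_le hq I b)
        (uI_nonneg hq I b) ((uI_nonneg hq I a).trans (uI_le hq I a))) (hg a b)
  refine (sum_le_sum hp).trans ?_
  rw [sum_add_distrib]
  have hA : ∑ t : V × V, g t.1 t.2 * (((if t.1 ∈ I then 1 else 0) + q) *
      ((if t.2 ∈ I then 1 else 0) + q)) ≤
      q ^ 2 * B2 + 2 * I.card * (q * B1) + I.card ^ 2 * B0 := by
    rw [Fintype.sum_prod_type]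
    have e1 : ∀ a : V, ∑ b, g a b * (((if a ∈ I then (1 : ℝ) else 0) + q) *
        ((if b ∈ I then 1 else 0) + q)) =
        q ^ 2 * ∑ b, g a b + q * ∑ b ∈ I, g a b +
        (if a ∈ I then q * ∑ b, g a b + ∑ b ∈ I, g a b else 0) := by
      intro a
      rw [← hind (fun b => g a b)]
      simp only [mul_sum]
      split_ifs with ha
      · rw [← sum_add_distrib, ← sum_add_distrib, ← sum_add_distrib]
        refine sum_congr rfl fun b _ => ?_
        split_ifs <;> ring
      · rw [add_zero, ← sum_add_distrib]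
        refine sum_congr rfl fun b _ => ?_
        split_ifs <;> ring
    rw [sum_congr rfl fun a _ => e1 a, sum_add_distrib, sum_add_distrib, hind, sum_add_distrib,
      ← mul_sum, ← mul_sum, ← mul_sum]
    have k1 : ∑ a, ∑ b ∈ I, g a b ≤ I.card * B1 := by
      rw [sum_comm]
      refine (sum_le_card_nsmul I _ B1 fun b _ => h1' b).trans (le_of_eq ?_)
      rw [nsmul_eq_mul]
    have k2 : ∑ a ∈ I, ∑ b, g a b ≤ I.card * B1 := by
      refine (sum_le_card_nsmul I _ B1 fun b _ => h1 b).trans (le_of_eq ?_)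
      rw [nsmul_eq_mul]
    have k3 : ∑ a ∈ I, ∑ b ∈ I, g a b ≤ I.card ^ 2 * B0 := by
      refine (sum_le_card_nsmul I _ (I.card * B0) fun a _ => ?_).trans (le_of_eq ?_)
      · refine (sum_le_card_nsmul I _ B0 fun b _ => h0 a b).trans (le_of_eq ?_)
        rw [nsmul_eq_mul]
      · rw [nsmul_eq_mul]
        ring
    have k4 := mul_le_mul_of_nonneg_left h2 (by positivity : 0 ≤ q ^ 2)
    have k5 := mul_le_mul_of_nonneg_left k1 hq
    have k6 := mul_le_mul_of_nonneg_left k2 hq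
    linarith
  have hB : ∑ t : V × V, (if t.1 = t.2 then g t.1 t.1 * q else 0) ≤ q * Bd := by
    rw [Fintype.sum_prod_type]
    have e1 : ∀ a : V, ∑ b, (if a = b then g a a * q else 0) = q * g a a := by
      intro a
      rw [sum_ite_eq univ a, if_pos (mem_univ a)]
      ring
    rw [sum_congr rfl fun a _ => e1 a, ← mul_sum]
    exact mul_le_mul_of_nonneg_left hd hq
  linarith

/-- tail bound for a double sum over the vertices of `F` (equal vertices allowed) -/
theorem tail_two {J : St → Prop} {E : (St → ℝ) → ℝ} (hE : PosLin J E) (F : St → Finset V) {D : ℝ} (hD : 0 ≤ D)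
    [Nonempty V] (g : V → V → ℝ) (hg : ∀ a b, 0 ≤ g a b) {K : ℕ}
    (hdom : ∀ S : Finset V, S.card ≤ 2 * K →
      E (fun s => ind (S ⊆ F s)) ≤ (D / Fintype.card V) ^ S.card)
    {b0 b1 b2 bd : ℝ} (hb0 : 0 ≤ b0) (hb1 : 0 ≤ b1) (hb2 : 0 ≤ b2) (hbd : 0 ≤ bd)
    (h0 : ∀ a b, g a b ≤ b0) (h1 : ∀ a, ∑ b, g a b ≤ Fintype.card V * b1)
    (h1' : ∀ b, ∑ a, g a b ≤ Fintype.card V * b1)
    (h2 : ∑ a, ∑ b, g a b ≤ (Fintype.card V : ℝ) ^ 2 * b2)
    (hd : ∑ a, g a a ≤ Fintype.card V * bd)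
    {z : ℝ} (hz : 0 < z) (B : St → Prop)
    (hB : ∀ s, J s → B s → z ≤ ∑ a ∈ F s, ∑ b ∈ F s, g a b) :
    E (fun s => ind (B s)) ≤
      ((D ^ 2 * b2 + D * bd + 4 * K * (D * b1) + 4 * K ^ 2 * b0) / z) ^ K := by
  have hn : (0 : ℝ) < Fintype.card V := by exact_mod_cast Fintype.card_pos
  have hq : 0 ≤ D / (Fintype.card V : ℝ) := by positivity
  refine tail hE F hq (univ : Finset (V × V)) (fun t => {t.1, t.2}) (fun t => g t.1 t.2)
    (fun t _ => hg _ _) (m := 2) (K := K) (fun S hS => hdom S hS)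
    (fun i _ => card_le_two) (by positivity) (fun I hI => ?_) hz B
    (fun s hJ hs => (hB s hJ hs).trans (le_of_eq ?_))
  · refine (beta_two hq g hg h0 h1 h1' h2 hd I).trans ?_
    have e1 : (D / (Fintype.card V : ℝ)) ^ 2 * ((Fintype.card V : ℝ) ^ 2 * b2) = D ^ 2 * b2 := by
      field_simp
    have e2 : D / (Fintype.card V : ℝ) * (Fintype.card V * bd) = D * bd := by
      field_simp
    have e3 : D / (Fintype.card V : ℝ) * (Fintype.card V * b1) = D * b1 := by
      field_simp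
    rw [e1, e2, e3]
    have h3 : (I.card : ℝ) ≤ 2 * K := by exact_mod_cast (by omega : I.card ≤ 2 * K)
    have h4 : 0 ≤ (I.card : ℝ) := by positivity
    have h5 : 2 * (I.card : ℝ) * (D * b1) ≤ 4 * K * (D * b1) := by
      have := mul_le_mul_of_nonneg_right h3 (by positivity : 0 ≤ 2 * (D * b1))
      linarith
    have h6 : (I.card : ℝ) ^ 2 * b0 ≤ 4 * K ^ 2 * b0 := by
      refine mul_le_mul_of_nonneg_right ?_ hb0
      nlinarith
    linarith
  · unfold Zs
    rw [Fintype.sum_prod_type]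
    have e1 : ∀ a : V, ∑ b, (if ({a, b} : Finset V) ⊆ F s then g a b else 0) =
        if a ∈ F s then ∑ b ∈ F s, g a b else 0 := by
      intro a
      split_ifs with ha
      · rw [← sum_filter]
        refine sum_congr ?_ fun _ _ => rfl
        ext b
        simp [insert_subset_iff, ha]
      · refine sum_eq_zero fun b _ => ?_
        rw [if_neg]
        intro h
        exact ha (h (mem_insert_self _ _))
    rw [sum_congr rfl fun a _ => e1 a, ← sum_filter]
    refine sum_congr ?_ fun _ _ => rfl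
    ext v
    simp

end Two

section Three

variable {St V : Type*} [DecidableEq V] [Fintype V]

/-- the triples of distinct vertices -/
def dist3 (V : Type*) [DecidableEq V] [Fintype V] : Finset (V × V × V) :=
  univ.filter fun t => t.1 ≠ t.2.1 ∧ t.1 ≠ t.2.2 ∧ t.2.1 ≠ t.2.2

/-- `β` for three distinct vertices -/
theorem beta_three {q : ℝ} (hq : 0 ≤ q) (f : V → V → V → ℝ) (hf : ∀ a b c, 0 ≤ f a b c)
    {B0 B1 B2 B3 : ℝ} (h0 : ∀ a b c, f a b c ≤ B0)
    (h1 : ∀ a b, ∑ c, f a b c ≤ B1) (h1' : ∀ a c, ∑ b, f a b c ≤ B1)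
    (h1'' : ∀ b c, ∑ a, f a b c ≤ B1)
    (h2 : ∀ a, ∑ b, ∑ c, f a b c ≤ B2) (h2' : ∀ b, ∑ a, ∑ c, f a b c ≤ B2)
    (h2'' : ∀ c, ∑ a, ∑ b, f a b c ≤ B2)
    (h3 : ∑ a, ∑ b, ∑ c, f a b c ≤ B3) (I : Finset V) :
    ∑ t ∈ dist3 V, f t.1 t.2.1 t.2.2 * q ^ (({t.1, t.2.1, t.2.2} : Finset V) \ I).card ≤
      q ^ 3 * B3 + 3 * I.card * (q ^ 2 * B2) + 3 * I.card ^ 2 * (q * B1) + I.card ^ 3 * B0 := by
  classical
  have hind : ∀ (f : V → ℝ), ∑ a, (if a ∈ I then f a else 0) = ∑ a ∈ I, f a := by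
    intro f
    rw [← sum_filter]
    refine sum_congr ?_ fun _ _ => rfl
    ext v
    simp
  set i : V → ℝ := fun x => if x ∈ I then 1 else 0 with hi
  have hi0 : ∀ x, 0 ≤ i x := fun x => by simp only [hi]; split_ifs <;> norm_num
  have hp : ∀ t ∈ dist3 V, f t.1 t.2.1 t.2.2 *
      q ^ (({t.1, t.2.1, t.2.2} : Finset V) \ I).card ≤
      f t.1 t.2.1 t.2.2 * ((i t.1 + q) * ((i t.2.1 + q) * (i t.2.2 + q))) := by
    rintro ⟨a, b, c⟩ ht
    simp only [dist3, mem_filter, mem_univ, true_and] at ht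
    simp only
    rw [pow_three_sdiff q I ht.1 ht.2.1 ht.2.2]
    refine mul_le_mul_of_nonneg_left ?_ (hf a b c)
    have ka := uI_le hq I a
    have kb := uI_le hq I b
    have kc := uI_le hq I c
    have la := uI_nonneg hq I a
    have lb := uI_nonneg hq I b
    have lc := uI_nonneg hq I c
    exact mul_le_mul ka (mul_le_mul kb kc lc (lb.trans kb)) (mul_nonneg lb lc) (la.trans ka)
  refine (sum_le_sum hp).trans ?_
  have hsub : ∑ t ∈ dist3 V, f t.1 t.2.1 t.2.2 * ((i t.1 + q) * ((i t.2.1 + q) * (i t.2.2 + q))) ≤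
      ∑ t : V × V × V, f t.1 t.2.1 t.2.2 * ((i t.1 + q) * ((i t.2.1 + q) * (i t.2.2 + q))) :=
    sum_le_sum_of_subset_of_nonneg (filter_subset _ _) fun t _ _ => by
      have := hf t.1 t.2.1 t.2.2
      have k1 := hi0 t.1
      have k2 := hi0 t.2.1
      have k3 := hi0 t.2.2
      positivity
  refine hsub.trans ?_
  have hcard : ∀ (g : V → ℝ) (B : ℝ), (∀ a, g a ≤ B) → ∑ a, i a * g a ≤ I.card * B := by
    intro g B hg
    have e : ∑ a, i a * g a = ∑ a ∈ I, g a := by
      rw [← hind g]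
      refine sum_congr rfl fun a _ => ?_
      simp only [hi]
      split_ifs <;> ring
    rw [e]
    refine (sum_le_card_nsmul I _ B fun a _ => hg a).trans (le_of_eq ?_)
    rw [nsmul_eq_mul]
  have hexp : ∑ t : V × V × V, f t.1 t.2.1 t.2.2 *
      ((i t.1 + q) * ((i t.2.1 + q) * (i t.2.2 + q))) =
      q ^ 3 * (∑ a, ∑ b, ∑ c, f a b c) +
      q ^ 2 * (∑ a, i a * ∑ b, ∑ c, f a b c) +
      q ^ 2 * (∑ b, i b * ∑ a, ∑ c, f a b c) +
      q ^ 2 * (∑ c, i c * ∑ a, ∑ b, f a b c) +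
      q * (∑ a, i a * ∑ b, i b * ∑ c, f a b c) +
      q * (∑ a, i a * ∑ c, i c * ∑ b, f a b c) +
      q * (∑ b, i b * ∑ c, i c * ∑ a, f a b c) +
      (∑ a, i a * ∑ b, i b * ∑ c, i c * f a b c) := by
    have r1 : ∑ b, i b * ∑ a, ∑ c, f a b c = ∑ a, ∑ b, ∑ c, i b * f a b c := by
      rw [sum_comm]
      refine sum_congr rfl fun b _ => ?_
      rw [mul_sum]
      exact sum_congr rfl fun a _ => mul_sum _ _ _
    have r2 : ∑ c, i c * ∑ a, ∑ b, f a b c = ∑ a, ∑ b, ∑ c, i c * f a b c := by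
      have : ∀ a, ∑ b, ∑ c, i c * f a b c = ∑ c, ∑ b, i c * f a b c := fun a => sum_comm
      rw [sum_congr rfl fun a _ => this a, sum_comm]
      refine sum_congr rfl fun c _ => ?_
      rw [mul_sum]
      exact sum_congr rfl fun a _ => mul_sum _ _ _
    have r3 : ∑ a, i a * ∑ b, ∑ c, f a b c = ∑ a, ∑ b, ∑ c, i a * f a b c := by
      refine sum_congr rfl fun a _ => ?_
      rw [mul_sum]
      exact sum_congr rfl fun b _ => mul_sum _ _ _
    have r4 : ∑ a, i a * ∑ b, i b * ∑ c, f a b c = ∑ a, ∑ b, ∑ c, i a * (i b * f a b c) := by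
      refine sum_congr rfl fun a _ => ?_
      rw [mul_sum]
      refine sum_congr rfl fun b _ => ?_
      rw [mul_sum, mul_sum]
    have r5 : ∑ a, i a * ∑ c, i c * ∑ b, f a b c = ∑ a, ∑ b, ∑ c, i a * (i c * f a b c) := by
      refine sum_congr rfl fun a _ => ?_
      rw [sum_comm, mul_sum]
      refine sum_congr rfl fun c _ => ?_
      rw [mul_sum, mul_sum]
    have r6 : ∑ b, i b * ∑ c, i c * ∑ a, f a b c = ∑ a, ∑ b, ∑ c, i b * (i c * f a b c) := by
      rw [sum_comm]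
      refine sum_congr rfl fun b _ => ?_
      rw [sum_comm, mul_sum]
      refine sum_congr rfl fun c _ => ?_
      rw [mul_sum, mul_sum]
    have r7 : ∑ a, i a * ∑ b, i b * ∑ c, i c * f a b c =
        ∑ a, ∑ b, ∑ c, i a * (i b * (i c * f a b c)) := by
      refine sum_congr rfl fun a _ => ?_
      rw [mul_sum]
      refine sum_congr rfl fun b _ => ?_
      rw [mul_sum, mul_sum]
    rw [r1, r2, r3, r4, r5, r6, r7]
    simp only [Fintype.sum_prod_type, mul_sum, ← sum_add_distrib]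
    refine sum_congr rfl fun a _ => sum_congr rfl fun b _ => sum_congr rfl fun c _ => ?_
    ring
  rw [hexp]
  have n0 : (0 : ℝ) ≤ I.card := by positivity
  have k0 := mul_le_mul_of_nonneg_left h3 (by positivity : 0 ≤ q ^ 3)
  have k1 := mul_le_mul_of_nonneg_left (hcard _ B2 h2) (by positivity : 0 ≤ q ^ 2)
  have k2 := mul_le_mul_of_nonneg_left (hcard _ B2 h2') (by positivity : 0 ≤ q ^ 2)
  have k3 := mul_le_mul_of_nonneg_left (hcard _ B2 h2'') (by positivity : 0 ≤ q ^ 2)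
  have k4 := mul_le_mul_of_nonneg_left (hcard _ (I.card * B1) fun a => hcard _ B1 fun b => h1 a b)
    hq
  have k5 := mul_le_mul_of_nonneg_left (hcard _ (I.card * B1) fun a => hcard _ B1 fun c => h1' a c)
    hq
  have k6 := mul_le_mul_of_nonneg_left (hcard _ (I.card * B1) fun b => hcard _ B1 fun c => h1'' b c)
    hq
  have k7 := hcard _ (I.card * (I.card * B0)) fun a => hcard _ (I.card * B0) fun b =>
    hcard _ B0 fun c => h0 a b c
  nlinarith [k0, k1, k2, k3, k4, k5, k6, k7]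

/-- tail bound for a sum over the triples of distinct vertices of `F` -/
theorem tail_three {J : St → Prop} {E : (St → ℝ) → ℝ} (hE : PosLin J E) (F : St → Finset V) {D : ℝ} (hD : 0 ≤ D)
    [Nonempty V] (f : V → V → V → ℝ) (hf : ∀ a b c, 0 ≤ f a b c) {K : ℕ}
    (hdom : ∀ S : Finset V, S.card ≤ 3 * K →
      E (fun s => ind (S ⊆ F s)) ≤ (D / Fintype.card V) ^ S.card)
    {b0 b1 b2 b3 : ℝ} (hb0 : 0 ≤ b0) (hb1 : 0 ≤ b1) (hb2 : 0 ≤ b2) (hb3 : 0 ≤ b3)
    (h0 : ∀ a b c, f a b c ≤ b0)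
    (h1 : ∀ a b, ∑ c, f a b c ≤ Fintype.card V * b1)
    (h1' : ∀ a c, ∑ b, f a b c ≤ Fintype.card V * b1)
    (h1'' : ∀ b c, ∑ a, f a b c ≤ Fintype.card V * b1)
    (h2 : ∀ a, ∑ b, ∑ c, f a b c ≤ (Fintype.card V : ℝ) ^ 2 * b2)
    (h2' : ∀ b, ∑ a, ∑ c, f a b c ≤ (Fintype.card V : ℝ) ^ 2 * b2)
    (h2'' : ∀ c, ∑ a, ∑ b, f a b c ≤ (Fintype.card V : ℝ) ^ 2 * b2)
    (h3 : ∑ a, ∑ b, ∑ c, f a b c ≤ (Fintype.card V : ℝ) ^ 3 * b3)
    {z : ℝ} (hz : 0 < z) (B : St → Prop)
    (hB : ∀ s, J s → B s → z ≤ ∑ t ∈ (dist3 V).filter (fun t => t.1 ∈ F s ∧ t.2.1 ∈ F s ∧ t.2.2 ∈ F s),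
      f t.1 t.2.1 t.2.2) :
    E (fun s => ind (B s)) ≤
      ((D ^ 3 * b3 + 9 * K * (D ^ 2 * b2) + 27 * K ^ 2 * (D * b1) + 27 * K ^ 3 * b0) / z) ^ K := by
  have hn : (0 : ℝ) < Fintype.card V := by exact_mod_cast Fintype.card_pos
  have hq : 0 ≤ D / (Fintype.card V : ℝ) := by positivity
  refine tail hE F hq (dist3 V) (fun t => {t.1, t.2.1, t.2.2}) (fun t => f t.1 t.2.1 t.2.2)
    (fun t _ => hf _ _ _) (m := 3) (K := K) (fun S hS => hdom S hS)
    (fun i _ => card_le_three) (by positivity) (fun I hI => ?_) hz B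
    (fun s hJ hs => (hB s hJ hs).trans (le_of_eq ?_))
  · refine (beta_three hq f hf h0 h1 h1' h1'' h2 h2' h2'' h3 I).trans ?_
    have e1 : (D / (Fintype.card V : ℝ)) ^ 3 * ((Fintype.card V : ℝ) ^ 3 * b3) = D ^ 3 * b3 := by
      field_simp
    have e2 : (D / (Fintype.card V : ℝ)) ^ 2 * ((Fintype.card V : ℝ) ^ 2 * b2) = D ^ 2 * b2 := by
      field_simp
    have e3 : D / (Fintype.card V : ℝ) * (Fintype.card V * b1) = D * b1 := by
      field_simp
    rw [e1, e2, e3]
    have h4 : (I.card : ℝ) ≤ 3 * K := by exact_mod_cast (by omega : I.card ≤ 3 * K)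
    have h5 : 0 ≤ (I.card : ℝ) := by positivity
    have h6 : 3 * (I.card : ℝ) * (D ^ 2 * b2) ≤ 9 * K * (D ^ 2 * b2) := by
      have := mul_le_mul_of_nonneg_right h4 (by positivity : 0 ≤ 3 * (D ^ 2 * b2))
      linarith
    have h7 : (I.card : ℝ) ^ 2 ≤ (3 * K) ^ 2 := pow_le_pow_left₀ h5 h4 2
    have h8 : (I.card : ℝ) ^ 3 ≤ (3 * K) ^ 3 := pow_le_pow_left₀ h5 h4 3
    have h9 := mul_le_mul_of_nonneg_right h7 (by positivity : 0 ≤ 3 * (D * b1))
    have h10 := mul_le_mul_of_nonneg_right h8 hb0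
    nlinarith [h6, h9, h10]
  · unfold Zs
    rw [← sum_filter]
    refine sum_congr ?_ fun _ _ => rfl
    ext t
    simp [insert_subset_iff]

end Three


/-- a sum over the 3-subsets of `F` is at most the sum over the ordered triples of `F` -/
theorem sum_powersetCard_three_le {V : Type*} [DecidableEq V] [Fintype V] (F : Finset V)
    (ψ : Finset V → ℝ) (hψ : ∀ e, 0 ≤ ψ e) :
    ∑ e ∈ F.powersetCard 3, ψ e ≤
      ∑ t ∈ (dist3 V).filter (fun t => t.1 ∈ F ∧ t.2.1 ∈ F ∧ t.2.2 ∈ F),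
        ψ {t.1, t.2.1, t.2.2} := by
  classical
  rcases (F.powersetCard 3).eq_empty_or_nonempty with h0 | ⟨e0, he0⟩
  · rw [h0, sum_empty]
    exact sum_nonneg fun _ _ => hψ _
  have : Nonempty V := by
    rw [mem_powersetCard] at he0
    obtain ⟨a, -⟩ := card_pos.1 (by omega : 0 < e0.card)
    exact ⟨a⟩
  have hch : ∀ e ∈ F.powersetCard 3, ∃ t : V × V × V,
      t ∈ (dist3 V).filter (fun t => t.1 ∈ F ∧ t.2.1 ∈ F ∧ t.2.2 ∈ F) ∧
      e = {t.1, t.2.1, t.2.2} := by
    intro e he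
    rw [mem_powersetCard] at he
    obtain ⟨a, b, c, hab, hac, hbc, rfl⟩ := card_eq_three.1 he.2
    refine ⟨(a, b, c), ?_, rfl⟩
    simp only [dist3, mem_filter, mem_univ, true_and]
    exact ⟨⟨hab, hac, hbc⟩, he.1 (by simp), he.1 (by simp), he.1 (by simp)⟩
  choose! g hg1 hg2 using hch
  have hinj : ∀ e ∈ F.powersetCard 3, ∀ e' ∈ F.powersetCard 3, g e = g e' → e = e' := by
    intro e he e' he' h
    rw [hg2 e he, hg2 e' he', h]
  calc ∑ e ∈ F.powersetCard 3, ψ e
      = ∑ e ∈ F.powersetCard 3, ψ {(g e).1, (g e).2.1, (g e).2.2} :=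
        sum_congr rfl fun e he => by rw [← hg2 e he]
    _ = ∑ t ∈ (F.powersetCard 3).image g, ψ {t.1, t.2.1, t.2.2} :=
        (sum_image (f := fun t : V × V × V => ψ {t.1, t.2.1, t.2.2}) hinj).symm
    _ ≤ _ := sum_le_sum_of_subset_of_nonneg (by
        intro t ht
        obtain ⟨e, he, rfl⟩ := mem_image.1 ht
        exact hg1 e he) fun _ _ _ => hψ _

/-- number of elements of `F` -/
theorem tail_card {St V : Type*} [DecidableEq V] [Fintype V] [Nonempty V] {J : St → Prop} {E : (St → ℝ) → ℝ}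
    (hE : PosLin J E) (F : St → Finset V) {D : ℝ} (hD : 0 ≤ D) {K : ℕ}
    (hdom : ∀ S : Finset V, S.card ≤ K →
      E (fun s => ind (S ⊆ F s)) ≤ (D / Fintype.card V) ^ S.card)
    {z : ℝ} (hz : 0 < z) (B : St → Prop)
    (hB : ∀ s, J s → B s → z ≤ (F s).card) :
    E (fun s => ind (B s)) ≤ ((D + K) / z) ^ K := by
  have h := tail_one hE F hD (fun _ : V => (1 : ℝ)) (fun _ => zero_le_one) hdom zero_le_one
    zero_le_one (fun _ => le_rfl) (by simp) hz B (fun s hJ hs => by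
      have := hB s hJ hs
      simpa using this)
  simpa using h

end MP5cA
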