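import Pool.Agent.Lib.MP_5c685b_co.A.Tr

/-!
# MP_5c685b_co, route A': operator norms of real kernels on a finite set

`OpLe A l` : the operator `f ↦ ∑ w, A v w * f w` has Euclidean norm at most `l`.
-/

open Finset Matrix

set_option linter.unusedSectionVars false

namespace MP5c.Op

open MP5c.Tr

variable {V : Type*} [Fintype V] [DecidableEq V]

/-- The operator with kernel `A` has norm at most `l`. -/
def OpLe (A : V → V → ℝ) (l : ℝ) : Prop :=
  0 ≤ l ∧ ∀ f : V → ℝ, ∑ v, (∑ w, A v w * f w) ^ 2 ≤ l ^ 2 * ∑ v, f v ^ 2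

lemma OpLe.nonneg {A : V → V → ℝ} {l : ℝ} (h : OpLe A l) : 0 ≤ l := h.1

lemma OpLe.app {A : V → V → ℝ} {l : ℝ} (h : OpLe A l) (f : V → ℝ) :
    ∑ v, (∑ w, A v w * f w) ^ 2 ≤ l ^ 2 * ∑ v, f v ^ 2 := h.2 f

lemma OpLe.congr {A B : V → V → ℝ} {l : ℝ} (h : OpLe A l) (hAB : ∀ v w, A v w = B v w) :
    OpLe B l := by
  have : A = B := by
    funext v w
    exact hAB v w
  rwa [← this]

lemma OpLe.mono {A : V → V → ℝ} {l l' : ℝ} (h : OpLe A l) (hl : l ≤ l') : OpLe A l' := by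
  refine ⟨h.1.trans hl, fun f => (h.2 f).trans ?_⟩
  have := h.1
  have h2 : 0 ≤ ∑ v, f v ^ 2 := Finset.sum_nonneg fun _ _ => sq_nonneg _
  gcongr

lemma mulVec_apply' (A : V → V → ℝ) (f : V → ℝ) (v : V) :
    (Matrix.of A *ᵥ f) v = ∑ w, A v w * f w := rfl

lemma opLe_iff_nrm {A : V → V → ℝ} {l : ℝ} (hl : 0 ≤ l) :
    OpLe A l ↔ ∀ f, nrm (Matrix.of A *ᵥ f) ≤ l * nrm f := by
  constructor
  · intro h f
    have h1 := h.2 f
    have h2 : nrm (Matrix.of A *ᵥ f) ^ 2 ≤ (l * nrm f) ^ 2 := by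
      rw [mul_pow, nrm_sq, nrm_sq]
      exact h1
    exact le_of_sq_le_sq h2 (mul_nonneg hl (nrm_nonneg f))
  · intro h
    refine ⟨hl, fun f => ?_⟩
    have h1 := h f
    have h2 : nrm (Matrix.of A *ᵥ f) ^ 2 ≤ (l * nrm f) ^ 2 := by
      have := nrm_nonneg (Matrix.of A *ᵥ f)
      gcongr
    rw [mul_pow, nrm_sq, nrm_sq] at h2
    exact h2

lemma opLe_iff_form {A : V → V → ℝ} {l : ℝ} (hl : 0 ≤ l) :
    OpLe A l ↔ Form (Matrix.of A) l := by
  rw [opLe_iff_nrm hl]
  exact ⟨fun h => form_of_mulVec h, fun h f => form_mulVec hl h f⟩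

/-- the bilinear form -/
lemma dot_eq (A : V → V → ℝ) (f g : V → ℝ) :
    f ⬝ᵥ Matrix.of A *ᵥ g = ∑ v, ∑ w, f v * A v w * g w := by
  rw [dotProduct]
  refine Finset.sum_congr rfl fun v _ => ?_
  rw [mulVec_apply', Finset.mul_sum]
  exact Finset.sum_congr rfl fun w _ => by ring

lemma OpLe.form {A : V → V → ℝ} {l : ℝ} (h : OpLe A l) (f g : V → ℝ) :
    |∑ v, ∑ w, f v * A v w * g w| ≤ l * Real.sqrt (∑ v, f v ^ 2) * Real.sqrt (∑ v, g v ^ 2) := by
  rw [← dot_eq]
  exact (opLe_iff_form h.1).1 h f g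

lemma opLe_of_form {A : V → V → ℝ} {l : ℝ} (hl : 0 ≤ l)
    (h : ∀ f g : V → ℝ, |∑ v, ∑ w, f v * A v w * g w| ≤
      l * Real.sqrt (∑ v, f v ^ 2) * Real.sqrt (∑ v, g v ^ 2)) : OpLe A l := by
  refine (opLe_iff_form hl).2 fun f g => ?_
  rw [dot_eq]
  exact h f g

/-- For symmetric kernels the quadratic form is enough. -/
lemma opLe_of_quad {A : V → V → ℝ} {l : ℝ} (hl : 0 ≤ l) (hA : ∀ v w, A v w = A w v)
    (h : ∀ f : V → ℝ, |∑ v, ∑ w, f v * A v w * f w| ≤ l * ∑ v, f v ^ 2) : OpLe A l := by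
  refine opLe_of_form hl fun f g => ?_
  set B : (V → ℝ) → (V → ℝ) → ℝ := fun f g => ∑ v, ∑ w, f v * A v w * g w with hB
  have hadd : ∀ f g k : V → ℝ, ∀ c : ℝ, B f (fun v => g v + c * k v) = B f g + c * B f k := by
    intro f g k c
    simp only [hB, Finset.mul_sum, ← Finset.sum_add_distrib]
    exact Finset.sum_congr rfl fun v _ => Finset.sum_congr rfl fun w _ => by ring
  have hsym : ∀ f g : V → ℝ, B f g = B g f := by
    intro f g
    simp only [hB]
    rw [Finset.sum_comm]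
    refine Finset.sum_congr rfl fun v _ => Finset.sum_congr rfl fun w _ => ?_
    rw [hA w v]
    ring
  -- the parallelogram estimate
  have hpar : ∀ f g : V → ℝ, 2 * |B f g| ≤ l * (∑ v, f v ^ 2 + ∑ v, g v ^ 2) := by
    intro f g
    have e : ∀ c : ℝ, B (fun v => f v + c * g v) (fun v => f v + c * g v)
        = B f f + 2 * c * B f g + c ^ 2 * B g g := by
      intro c
      rw [hadd, hsym _ f, hadd, hsym (fun v => f v + c * g v) g, hadd, hsym g f]
      ring
    have s : ∀ c : ℝ, ∑ v, (f v + c * g v) ^ 2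
        = ∑ v, f v ^ 2 + 2 * c * ∑ v, f v * g v + c ^ 2 * ∑ v, g v ^ 2 := by
      intro c
      simp only [Finset.mul_sum, ← Finset.sum_add_distrib]
      exact Finset.sum_congr rfl fun v _ => by ring
    have h1 := h (fun v => f v + 1 * g v)
    have h2 := h (fun v => f v + (-1) * g v)
    rw [s] at h1 h2
    have e1 := e 1
    have e2 := e (-1)
    simp only [hB] at e1 e2 ⊢
    rw [e1] at h1
    rw [e2] at h2
    rw [abs_le] at h1 h2
    have h4 : 2 * |∑ v, ∑ w, f v * A v w * g w| = |2 * ∑ v, ∑ w, f v * A v w * g w| := by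
      rw [abs_mul, abs_of_pos (by norm_num : (0 : ℝ) < 2)]
    rw [h4, abs_le]
    constructor <;> nlinarith [h1.1, h1.2, h2.1, h2.2]
  -- scaling
  set a := ∑ v, f v ^ 2 with ha
  set b := ∑ v, g v ^ 2 with hb
  have ha0 : 0 ≤ a := Finset.sum_nonneg fun _ _ => sq_nonneg _
  have hb0 : 0 ≤ b := Finset.sum_nonneg fun _ _ => sq_nonneg _
  have hscale : ∀ t : ℝ, 0 < t → 2 * |B f g| ≤ l * (t * a + t⁻¹ * b) := by
    intro t ht
    have hs := Real.sqrt_nonneg t
    have hs2 : Real.sqrt t ^ 2 = t := Real.sq_sqrt ht.le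
    have hs0 : Real.sqrt t ≠ 0 := (Real.sqrt_pos.2 ht).ne'
    have h1 := hpar (fun v => Real.sqrt t * f v) (fun v => (Real.sqrt t)⁻¹ * g v)
    have e1 : B (fun v => Real.sqrt t * f v) (fun v => (Real.sqrt t)⁻¹ * g v) = B f g := by
      simp only [hB]
      refine Finset.sum_congr rfl fun v _ => Finset.sum_congr rfl fun w _ => ?_
      field_simp
    have e2 : ∑ v, (Real.sqrt t * f v) ^ 2 = t * a := by
      rw [ha, Finset.mul_sum]
      exact Finset.sum_congr rfl fun v _ => by rw [mul_pow, hs2]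
    have e3 : ∑ v, ((Real.sqrt t)⁻¹ * g v) ^ 2 = t⁻¹ * b := by
      rw [hb, Finset.mul_sum]
      exact Finset.sum_congr rfl fun v _ => by rw [mul_pow, inv_pow, hs2]
    rw [e1, e2, e3] at h1
    exact h1
  rw [show (∑ v, ∑ w, f v * A v w * g w) = B f g from rfl]
  rcases ha0.eq_or_lt with ha1 | ha1
  · -- f = 0
    have : f = 0 := by
      funext v
      have := (Finset.sum_eq_zero_iff_of_nonneg (fun v _ => sq_nonneg (f v))).1 ha1.symm v
        (Finset.mem_univ v)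
      simpa using this
    have e : B f g = 0 := by
      simp only [hB, this]
      simp
    rw [e, abs_zero]
    positivity
  rcases hb0.eq_or_lt with hb1 | hb1
  · have : g = 0 := by
      funext v
      have := (Finset.sum_eq_zero_iff_of_nonneg (fun v _ => sq_nonneg (g v))).1 hb1.symm v
        (Finset.mem_univ v)
      simpa using this
    have e : B f g = 0 := by
      simp only [hB, this]
      simp
    rw [e, abs_zero]
    positivity
  have hsa := Real.sqrt_pos.2 ha1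
  have hsb := Real.sqrt_pos.2 hb1
  have hsa2 : Real.sqrt a ^ 2 = a := Real.sq_sqrt ha0
  have hsb2 : Real.sqrt b ^ 2 = b := Real.sq_sqrt hb0
  have h1 := hscale (Real.sqrt b / Real.sqrt a) (by positivity)
  have e1 : Real.sqrt b / Real.sqrt a * a = Real.sqrt a * Real.sqrt b := by
    rw [div_mul_eq_mul_div, div_eq_iff hsa.ne']
    nlinarith
  have e2 : (Real.sqrt b / Real.sqrt a)⁻¹ * b = Real.sqrt a * Real.sqrt b := by
    rw [inv_div, div_mul_eq_mul_div, div_eq_iff hsb.ne']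
    nlinarith
  rw [e1, e2] at h1
  nlinarith

lemma OpLe.quad {A : V → V → ℝ} {l : ℝ} (h : OpLe A l) (f : V → ℝ) :
    |∑ v, ∑ w, f v * A v w * f w| ≤ l * ∑ v, f v ^ 2 := by
  have h1 := h.form f f
  rwa [mul_assoc, Real.mul_self_sqrt (Finset.sum_nonneg fun _ _ => sq_nonneg _)] at h1

lemma opLe_zero {l : ℝ} (hl : 0 ≤ l) : OpLe (fun _ _ : V => (0 : ℝ)) l := by
  refine ⟨hl, fun f => ?_⟩
  simp only [zero_mul, Finset.sum_const_zero, ne_eq, OfNat.ofNat_ne_zero, not_false_eq_true,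
    zero_pow]
  positivity

lemma OpLe.add {A B : V → V → ℝ} {a b : ℝ} (hA : OpLe A a) (hB : OpLe B b) :
    OpLe (fun v w => A v w + B v w) (a + b) := by
  have ha := hA.1
  have hb := hB.1
  refine opLe_of_form (add_nonneg ha hb) fun f g => ?_
  have e : ∑ v, ∑ w, f v * (A v w + B v w) * g w
      = ∑ v, ∑ w, f v * A v w * g w + ∑ v, ∑ w, f v * B v w * g w := by
    simp only [← Finset.sum_add_distrib]
    exact Finset.sum_congr rfl fun v _ => Finset.sum_congr rfl fun w _ => by ring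
  rw [e]
  calc _ ≤ |∑ v, ∑ w, f v * A v w * g w| + |∑ v, ∑ w, f v * B v w * g w| := abs_add_le _ _
    _ ≤ _ := by
        have h1 := hA.form f g
        have h2 := hB.form f g
        nlinarith

lemma OpLe.smul {A : V → V → ℝ} {a : ℝ} (hA : OpLe A a) (c : ℝ) :
    OpLe (fun v w => c * A v w) (|c| * a) := by
  refine ⟨mul_nonneg (abs_nonneg _) hA.1, fun f => ?_⟩
  have e : ∑ v, (∑ w, c * A v w * f w) ^ 2 = c ^ 2 * ∑ v, (∑ w, A v w * f w) ^ 2 := by
    rw [Finset.mul_sum]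
    refine Finset.sum_congr rfl fun v _ => ?_
    rw [← mul_pow, Finset.mul_sum]
    congr 1
    exact Finset.sum_congr rfl fun w _ => by ring
  rw [e, mul_pow, sq_abs, mul_assoc]
  exact mul_le_mul_of_nonneg_left (hA.2 f) (sq_nonneg _)

lemma OpLe.smul_nonneg {A : V → V → ℝ} {a : ℝ} (hA : OpLe A a) {c : ℝ} (hc : 0 ≤ c) :
    OpLe (fun v w => c * A v w) (c * a) := by
  have := hA.smul c
  rwa [abs_of_nonneg hc] at this

lemma OpLe.neg {A : V → V → ℝ} {a : ℝ} (hA : OpLe A a) : OpLe (fun v w => -A v w) a := by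
  have := hA.smul (-1)
  rw [abs_neg, abs_one, one_mul] at this
  exact this.congr fun v w => by ring

lemma OpLe.sub {A B : V → V → ℝ} {a b : ℝ} (hA : OpLe A a) (hB : OpLe B b) :
    OpLe (fun v w => A v w - B v w) (a + b) :=
  (hA.add hB.neg).congr fun v w => by ring

lemma OpLe.div {A : V → V → ℝ} {a : ℝ} (hA : OpLe A a) {c : ℝ} (hc : 0 ≤ c) :
    OpLe (fun v w => A v w / c) (a / c) := by
  have := hA.smul_nonneg (inv_nonneg.2 hc)
  rw [← div_eq_inv_mul] at this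
  exact this.congr fun v w => by rw [div_eq_inv_mul]

lemma OpLe.sum {ι : Type*} (S : Finset ι) {A : ι → V → V → ℝ} {a : ι → ℝ}
    (h : ∀ i ∈ S, OpLe (A i) (a i)) : OpLe (fun v w => ∑ i ∈ S, A i v w) (∑ i ∈ S, a i) := by
  classical
  induction S using Finset.induction_on with
  | empty =>
    simp only [Finset.sum_empty]
    exact opLe_zero le_rfl
  | insert i S hi ih =>
    simp only [Finset.sum_insert hi]
    exact (h i (Finset.mem_insert_self i S)).add
      (ih fun j hj => h j (Finset.mem_insert_of_mem hj))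

lemma OpLe.transpose {A : V → V → ℝ} {a : ℝ} (hA : OpLe A a) : OpLe (fun v w => A w v) a := by
  refine opLe_of_form hA.1 fun f g => ?_
  have h1 := hA.form g f
  have e : ∑ v, ∑ w, f v * A w v * g w = ∑ v, ∑ w, g v * A v w * f w := by
    rw [Finset.sum_comm]
    exact Finset.sum_congr rfl fun v _ => Finset.sum_congr rfl fun w _ => by ring
  rw [e]
  calc _ ≤ _ := h1
    _ = _ := by ring

/-- Product. -/
lemma OpLe.comp {A B : V → V → ℝ} {a b : ℝ} (hA : OpLe A a) (hB : OpLe B b) :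
    OpLe (fun v w => ∑ u, A v u * B u w) (a * b) := by
  refine ⟨mul_nonneg hA.1 hB.1, fun f => ?_⟩
  have e : ∀ v, ∑ w, (∑ u, A v u * B u w) * f w = ∑ u, A v u * ∑ w, B u w * f w := by
    intro v
    simp only [Finset.sum_mul, Finset.mul_sum]
    rw [Finset.sum_comm]
    exact Finset.sum_congr rfl fun u _ => Finset.sum_congr rfl fun w _ => by ring
  simp only [e]
  calc _ ≤ a ^ 2 * ∑ v, (∑ w, B v w * f w) ^ 2 := hA.2 _
    _ ≤ a ^ 2 * (b ^ 2 * ∑ v, f v ^ 2) := by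
        exact mul_le_mul_of_nonneg_left (hB.2 f) (sq_nonneg _)
    _ = _ := by ring

/-- Multiplication by a bounded function on the right. -/
lemma OpLe.mul_right {A : V → V → ℝ} {a : ℝ} (hA : OpLe A a) {d : V → ℝ} {c : ℝ}
    (hc : 0 ≤ c) (hd : ∀ v, |d v| ≤ c) : OpLe (fun v w => A v w * d w) (a * c) := by
  refine ⟨mul_nonneg hA.1 hc, fun f => ?_⟩
  have e : ∀ v, ∑ w, A v w * d w * f w = ∑ w, A v w * (d w * f w) := fun v =>
    Finset.sum_congr rfl fun w _ => by ring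
  simp only [e]
  calc _ ≤ a ^ 2 * ∑ v, (d v * f v) ^ 2 := hA.2 _
    _ ≤ a ^ 2 * (c ^ 2 * ∑ v, f v ^ 2) := by
        refine mul_le_mul_of_nonneg_left ?_ (sq_nonneg _)
        rw [Finset.mul_sum]
        refine Finset.sum_le_sum fun v _ => ?_
        rw [mul_pow]
        refine mul_le_mul_of_nonneg_right ?_ (sq_nonneg _)
        rw [← sq_abs]
        exact pow_le_pow_left₀ (abs_nonneg _) (hd v) 2
    _ = _ := by ring

lemma OpLe.mul_left {A : V → V → ℝ} {a : ℝ} (hA : OpLe A a) {d : V → ℝ} {c : ℝ}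
    (hc : 0 ≤ c) (hd : ∀ v, |d v| ≤ c) : OpLe (fun v w => d v * A v w) (c * a) := by
  have := (hA.transpose.mul_right hc hd).transpose
  rw [mul_comm] at this
  exact this.congr fun v w => by ring

/-- Restriction to rows in `S` and columns in `T`. -/
lemma OpLe.restrict {A : V → V → ℝ} {a : ℝ} (hA : OpLe A a) (S T : V → Prop)
    [DecidablePred S] [DecidablePred T] :
    OpLe (fun v w => if S v ∧ T w then A v w else 0) a := by
  have h1 := (hA.mul_right (c := 1) zero_le_one (d := fun w => if T w then (1 : ℝ) else 0)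
    (fun w => by split_ifs <;> simp)).mul_left (c := 1) zero_le_one
    (d := fun v => if S v then (1 : ℝ) else 0) (fun v => by split_ifs <;> simp)
  rw [mul_one, one_mul] at h1
  refine h1.congr fun v w => ?_
  by_cases hS : S v <;> by_cases hT : T w <;> simp [hS, hT]

/-- Domination by a nonnegative kernel. -/
lemma OpLe.of_abs_le {A B : V → V → ℝ} {b : ℝ} (hB : OpLe B b)
    (h : ∀ v w, |A v w| ≤ B v w) : OpLe A b := by
  refine ⟨hB.1, fun f => ?_⟩
  have h1 := hB.2 fun w => |f w|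
  simp only [sq_abs] at h1
  refine le_trans (Finset.sum_le_sum fun v _ => ?_) h1
  rw [← sq_abs]
  refine pow_le_pow_left₀ (abs_nonneg _) ?_ 2
  refine (Finset.abs_sum_le_sum_abs _ _).trans (Finset.sum_le_sum fun w _ => ?_)
  rw [abs_mul]
  exact mul_le_mul_of_nonneg_right (h v w) (abs_nonneg _)

/-- **Schur's test** with different bounds for rows and columns. -/
theorem opLe_schur {A : V → V → ℝ} {a b : ℝ} (ha : 0 ≤ a) (hb : 0 ≤ b)
    (hr : ∀ v, ∑ w, |A v w| ≤ a) (hc : ∀ w, ∑ v, |A v w| ≤ b) :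
    OpLe A (Real.sqrt (a * b)) := by
  refine ⟨Real.sqrt_nonneg _, fun f => ?_⟩
  rw [Real.sq_sqrt (mul_nonneg ha hb)]
  have h1 : ∀ v, (∑ w, A v w * f w) ^ 2 ≤ a * ∑ w, |A v w| * f w ^ 2 := by
    intro v
    have hcs := Finset.sum_mul_sq_le_sq_mul_sq Finset.univ (fun w => Real.sqrt |A v w|)
      (fun w => Real.sqrt |A v w| * |f w|)
    have e1 : ∑ w, Real.sqrt |A v w| * (Real.sqrt |A v w| * |f w|) = ∑ w, |A v w| * |f w| := by
      refine Finset.sum_congr rfl fun w _ => ?_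
      rw [← mul_assoc, Real.mul_self_sqrt (abs_nonneg _)]
    have e2 : ∑ w, Real.sqrt |A v w| ^ 2 = ∑ w, |A v w| :=
      Finset.sum_congr rfl fun w _ => Real.sq_sqrt (abs_nonneg _)
    have e3 : ∑ w, (Real.sqrt |A v w| * |f w|) ^ 2 = ∑ w, |A v w| * f w ^ 2 :=
      Finset.sum_congr rfl fun w _ => by rw [mul_pow, Real.sq_sqrt (abs_nonneg _), sq_abs]
    rw [e1, e2, e3] at hcs
    have h2 : |∑ w, A v w * f w| ≤ ∑ w, |A v w| * |f w| := by
      refine (Finset.abs_sum_le_sum_abs _ _).trans (le_of_eq ?_)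
      exact Finset.sum_congr rfl fun w _ => abs_mul _ _
    have h3 : 0 ≤ ∑ w, |A v w| * f w ^ 2 :=
      Finset.sum_nonneg fun w _ => mul_nonneg (abs_nonneg _) (sq_nonneg _)
    calc (∑ w, A v w * f w) ^ 2 = |∑ w, A v w * f w| ^ 2 := (sq_abs _).symm
      _ ≤ (∑ w, |A v w| * |f w|) ^ 2 := pow_le_pow_left₀ (abs_nonneg _) h2 2
      _ ≤ (∑ w, |A v w|) * ∑ w, |A v w| * f w ^ 2 := hcs
      _ ≤ _ := mul_le_mul_of_nonneg_right (hr v) h3
  calc ∑ v, (∑ w, A v w * f w) ^ 2 ≤ ∑ v, a * ∑ w, |A v w| * f w ^ 2 :=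
        Finset.sum_le_sum fun v _ => h1 v
    _ = a * ∑ w, (∑ v, |A v w|) * f w ^ 2 := by
        rw [← Finset.mul_sum, Finset.sum_comm]
        congr 1
        exact Finset.sum_congr rfl fun w _ => by rw [Finset.sum_mul]
    _ ≤ a * ∑ w, b * f w ^ 2 := by
        refine mul_le_mul_of_nonneg_left (Finset.sum_le_sum fun w _ => ?_) ha
        exact mul_le_mul_of_nonneg_right (hc w) (sq_nonneg _)
    _ = a * b * ∑ v, f v ^ 2 := by rw [← Finset.mul_sum, mul_assoc]

/-- Schur's test with one bound `c ^ 2 = a * b` (or larger) without square roots. -/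
theorem opLe_schur' {A : V → V → ℝ} {a b c : ℝ} (ha : 0 ≤ a) (hb : 0 ≤ b) (hc0 : 0 ≤ c)
    (hab : a * b ≤ c ^ 2) (hr : ∀ v, ∑ w, |A v w| ≤ a) (hc : ∀ w, ∑ v, |A v w| ≤ b) :
    OpLe A c := by
  refine (opLe_schur ha hb hr hc).mono ?_
  rw [Real.sqrt_le_left hc0]
  exact hab

/-- Schur's test for symmetric bounds. -/
theorem opLe_schur_symm {A : V → V → ℝ} {a : ℝ} (ha : 0 ≤ a) (hA : ∀ v w, |A v w| = |A w v|)
    (hr : ∀ v, ∑ w, |A v w| ≤ a) : OpLe A a := by
  refine opLe_schur' ha ha ha (by rw [sq]) hr fun w => ?_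
  refine le_trans (le_of_eq ?_) (hr w)
  exact Finset.sum_congr rfl fun v _ => hA v w

/-- The Hilbert-Schmidt bound. -/
theorem opLe_hs {A : V → V → ℝ} {c : ℝ} (hc : 0 ≤ c) (h : ∑ v, ∑ w, A v w ^ 2 ≤ c ^ 2) :
    OpLe A c := by
  refine ⟨hc, fun f => ?_⟩
  have h2 : 0 ≤ ∑ v, f v ^ 2 := Finset.sum_nonneg fun _ _ => sq_nonneg _
  calc ∑ v, (∑ w, A v w * f w) ^ 2 ≤ ∑ v, (∑ w, A v w ^ 2) * ∑ w, f w ^ 2 :=
        Finset.sum_le_sum fun v _ => Finset.sum_mul_sq_le_sq_mul_sq _ _ _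
    _ = (∑ v, ∑ w, A v w ^ 2) * ∑ w, f w ^ 2 := by rw [Finset.sum_mul]
    _ ≤ _ := mul_le_mul_of_nonneg_right h h2

/-- A diagonal kernel. -/
theorem opLe_diag {d : V → ℝ} {c : ℝ} (hc : 0 ≤ c) (hd : ∀ v, |d v| ≤ c) :
    OpLe (fun v w => if v = w then d v else 0) c := by
  refine ⟨hc, fun f => ?_⟩
  have e : ∀ v, ∑ w, (if v = w then d v else 0) * f w = d v * f v := by
    intro v
    rw [Finset.sum_eq_single v]
    · simp
    · intro w _ hw
      simp [hw.symm]
    · intro h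
      exact absurd (Finset.mem_univ v) h
  simp only [e]
  rw [Finset.mul_sum]
  refine Finset.sum_le_sum fun v _ => ?_
  rw [mul_pow]
  refine mul_le_mul_of_nonneg_right ?_ (sq_nonneg _)
  rw [← sq_abs]
  exact pow_le_pow_left₀ (abs_nonneg _) (hd v) 2

/-! ### Traces -/

/-- Small trace of an even power bounds the norm. -/
theorem opLe_of_trace {A : V → V → ℝ} (hA : ∀ v w, A v w = A w v) {q : ℕ} (hq : Even q)
    (hq0 : q ≠ 0) {π : ℝ} (hπ : 0 ≤ π) (h : ((Matrix.of A) ^ q).trace ≤ π ^ q) : OpLe A π := by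
  refine (opLe_iff_form hπ).2 (form_le_of_tr ?_ hq hq0 hπ h)
  ext v w
  exact hA w v

/-- Contrapositive for Markov's inequality. -/
theorem lt_trace_of_not_opLe {A : V → V → ℝ} (hA : ∀ v w, A v w = A w v) {q : ℕ} (hq : Even q)
    (hq0 : q ≠ 0) {π : ℝ} (hπ : 0 ≤ π) (h : ¬ OpLe A π) : π ^ q < ((Matrix.of A) ^ q).trace := by
  by_contra h'
  exact h (opLe_of_trace hA hq hq0 hπ (not_lt.1 h'))

theorem trace_nonneg {A : Matrix V V ℝ} (hA : Aᵀ = A) {q : ℕ} (hq : Even q) :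
    0 ≤ (A ^ q).trace := by
  obtain ⟨U, a, hU1, hU2, rfl⟩ := exists_diag hA
  rw [tr_pow_diag hU1 hU2]
  exact Finset.sum_nonneg fun v _ => hq.pow_nonneg _

/-- `Tr (A + B) ^ q ≤ 2 ^ (q - 1) (Tr A ^ q + Tr B ^ q)`, in the form with `2 ^ q`. -/
theorem trace_add_pow_le {A B : Matrix V V ℝ} (hA : Aᵀ = A) (hB : Bᵀ = B) {q : ℕ} (hq : Even q) :
    ((A + B) ^ q).trace ≤ 2 ^ q * ((A ^ q).trace + (B ^ q).trace) := by
  rcases Nat.eq_zero_or_pos q with h0 | h0
  · subst h0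
    simp only [pow_zero, one_mul]
    have : (0 : ℝ) ≤ (1 : Matrix V V ℝ).trace := by
      rw [Matrix.trace_one]
      positivity
    linarith
  -- Klein at `C = (A + B) / 2`
  set C : Matrix V V ℝ := (1 / 2 : ℝ) • (A + B) with hC
  have hCT : Cᵀ = C := by rw [hC, Matrix.transpose_smul, Matrix.transpose_add, hA, hB]
  have h1 := klein hA hCT hq h0.ne'
  have h2 := klein hB hCT hq h0.ne'
  have e1 : (C ^ (q - 1) * (C - A)).trace + (C ^ (q - 1) * (C - B)).trace = 0 := by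
    rw [← Matrix.trace_add, ← Matrix.mul_add]
    have : C - A + (C - B) = 0 := by
      rw [hC]
      ext v w
      simp only [Matrix.add_apply, Matrix.sub_apply, Matrix.smul_apply, smul_eq_mul,
        Matrix.zero_apply]
      ring
    rw [this, Matrix.mul_zero, Matrix.trace_zero]
  have e2 : ((A + B) ^ q).trace = 2 ^ q * (C ^ q).trace := by
    have : A + B = (2 : ℝ) • C := by
      rw [hC, smul_smul]
      norm_num
    rw [this, smul_pow, Matrix.trace_smul, smul_eq_mul]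
  have h3 : 2 * (C ^ q).trace ≤ (A ^ q).trace + (B ^ q).trace := by
    have := mul_eq_zero_of_right (q : ℝ) e1
    nlinarith
  have h4 : 0 ≤ (C ^ q).trace := trace_nonneg hCT hq
  rw [e2]
  have h5 : (0 : ℝ) < 2 ^ q := by positivity
  nlinarith

/-- `Tr (A + B) ^ q ≤ 2 ^ (q - 1) (Tr A ^ q + Tr B ^ q)`. -/
theorem trace_add_pow_le' {A B : Matrix V V ℝ} (hA : Aᵀ = A) (hB : Bᵀ = B) {q : ℕ} (hq : Even q)
    (h0 : 0 < q) :
    ((A + B) ^ q).trace ≤ 2 ^ (q - 1) * ((A ^ q).trace + (B ^ q).trace) := by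
  set C : Matrix V V ℝ := (1 / 2 : ℝ) • (A + B) with hC
  have hCT : Cᵀ = C := by rw [hC, Matrix.transpose_smul, Matrix.transpose_add, hA, hB]
  have h1 := klein hA hCT hq h0.ne'
  have h2 := klein hB hCT hq h0.ne'
  have e1 : (C ^ (q - 1) * (C - A)).trace + (C ^ (q - 1) * (C - B)).trace = 0 := by
    rw [← Matrix.trace_add, ← Matrix.mul_add]
    have : C - A + (C - B) = 0 := by
      rw [hC]
      ext v w
      simp only [Matrix.add_apply, Matrix.sub_apply, Matrix.smul_apply, smul_eq_mul,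
        Matrix.zero_apply]
      ring
    rw [this, Matrix.mul_zero, Matrix.trace_zero]
  have e2 : ((A + B) ^ q).trace = 2 ^ (q - 1) * (2 * (C ^ q).trace) := by
    have : A + B = (2 : ℝ) • C := by
      rw [hC, smul_smul]
      norm_num
    rw [this, smul_pow, Matrix.trace_smul, smul_eq_mul]
    have e3 : (2 : ℝ) ^ q = 2 ^ (q - 1) * 2 := by
      rw [← pow_succ]
      congr 1
      omega
    rw [e3]
    ring
  have h3 : 2 * (C ^ q).trace ≤ (A ^ q).trace + (B ^ q).trace := by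
    have := mul_eq_zero_of_right (q : ℝ) e1
    nlinarith
  rw [e2]
  have h5 : (0 : ℝ) < 2 ^ (q - 1) := by positivity
  exact mul_le_mul_of_nonneg_left h3 h5.le

theorem trace_sq (A : V → V → ℝ) (hA : ∀ v w, A v w = A w v) :
    ((Matrix.of A) ^ 2).trace = ∑ v, ∑ w, A v w ^ 2 := by
  rw [sq]
  unfold Matrix.trace
  refine Finset.sum_congr rfl fun v _ => ?_
  rw [Matrix.diag_apply, Matrix.mul_apply]
  refine Finset.sum_congr rfl fun w _ => ?_
  rw [Matrix.of_apply, Matrix.of_apply, hA w v, sq]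

/-- `Tr A ^ (m + 2) ≤ l ^ m Tr A ^ 2` -/
theorem trace_pow_le_hs {A : V → V → ℝ} (hA : ∀ v w, A v w = A w v) {l : ℝ} (h : OpLe A l)
    {m : ℕ} (hm : Even m) :
    ((Matrix.of A) ^ (m + 2)).trace ≤ l ^ m * ∑ v, ∑ w, A v w ^ 2 := by
  rw [← trace_sq A hA]
  have hAT : (Matrix.of A)ᵀ = Matrix.of A := by
    ext v w
    exact hA w v
  have hf := (opLe_iff_form h.1).1 h
  obtain ⟨k, hk⟩ := hm
  have key : ∀ k : ℕ, ((Matrix.of A) ^ (2 * k + 2)).trace ≤ l ^ (2 * k) * ((Matrix.of A) ^ 2).trace := by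
    intro k
    induction k with
    | zero => simp
    | succ k ih =>
      have h1 := tr_sq_le hAT hAT h.1 hf (m := 2 * k + 2) ⟨k + 1, by ring⟩
      have e1 : (Matrix.of A) ^ (2 * (k + 1) + 2)
          = (Matrix.of A) ^ (2 * k + 2) * (Matrix.of A * Matrix.of A) := by
        rw [← sq, ← pow_add]
        congr 1
      rw [e1]
      calc _ ≤ _ := h1
        _ ≤ l ^ 2 * (l ^ (2 * k) * ((Matrix.of A) ^ 2).trace) := by
            exact mul_le_mul_of_nonneg_left ih (sq_nonneg _)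
        _ = _ := by ring
  have := key k
  rwa [show 2 * k = m by omega] at this

/-- **One-step inequality for a random increment of mean zero.** The weights `p i` sum to `1`. -/
theorem trace_mean_step {ι : Type*} (S : Finset ι) (p : ι → ℝ) (hp : ∀ i ∈ S, 0 ≤ p i)
    (hp1 : ∑ i ∈ S, p i = 1) {A : V → V → ℝ} {Z : ι → V → V → ℝ}
    (hA : ∀ v w, A v w = A w v) (hZ : ∀ i ∈ S, ∀ v w, Z i v w = Z i w v)
    (h0 : ∀ v w, ∑ i ∈ S, p i * Z i v w = 0) {l : ι → ℝ} (hl : ∀ i ∈ S, OpLe (Z i) (l i))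
    {m : ℕ} (hm : Even m) :
    ∑ i ∈ S, p i * ((Matrix.of fun v w => A v w + Z i v w) ^ (m + 2)).trace ≤
      ((Matrix.of A) ^ (m + 2)).trace + (m + 2) * (m + 1) * ∑ i ∈ S, p i * l i ^ 2 *
        (((Matrix.of A) ^ m).trace + ((Matrix.of fun v w => A v w + Z i v w) ^ m).trace) := by
  have hAT : (Matrix.of A)ᵀ = Matrix.of A := by
    ext v w
    exact hA w v
  have h1 : ∀ i ∈ S, ((Matrix.of fun v w => A v w + Z i v w) ^ (m + 2)).trace ≤
      ((Matrix.of A) ^ (m + 2)).trace + (m + 2) * ((Matrix.of A) ^ (m + 1) * Matrix.of (Z i)).trace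
      + (m + 2) * (m + 1) * l i ^ 2 *
        (((Matrix.of A) ^ m).trace + ((Matrix.of fun v w => A v w + Z i v w) ^ m).trace) := by
    intro i hi
    have hBT : (Matrix.of fun v w => A v w + Z i v w)ᵀ = Matrix.of fun v w => A v w + Z i v w := by
      ext v w
      simp only [Matrix.transpose_apply, Matrix.of_apply]
      rw [hA w v, hZ i hi w v]
    have e : (Matrix.of fun v w => A v w + Z i v w) - Matrix.of A = Matrix.of (Z i) := by
      ext v w
      simp only [Matrix.sub_apply, Matrix.of_apply]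
      ring
    have h2 := tr_step hAT hBT (hl i hi).1
      (by rw [e]; exact (opLe_iff_form (hl i hi).1).1 (hl i hi)) hm
    rw [e] at h2
    exact h2
  have h2 : ∑ i ∈ S, p i * ((Matrix.of A) ^ (m + 1) * Matrix.of (Z i)).trace = 0 := by
    have e : ∀ i, p i * ((Matrix.of A) ^ (m + 1) * Matrix.of (Z i)).trace
        = ∑ v, ∑ w, ((Matrix.of A) ^ (m + 1)) v w * (p i * Z i w v) := by
      intro i
      unfold Matrix.trace
      rw [Finset.mul_sum]
      refine Finset.sum_congr rfl fun v _ => ?_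
      rw [Matrix.diag_apply, Matrix.mul_apply, Finset.mul_sum]
      refine Finset.sum_congr rfl fun w _ => ?_
      rw [Matrix.of_apply]
      ring
    simp only [e]
    rw [Finset.sum_comm]
    refine Finset.sum_eq_zero fun v _ => ?_
    rw [Finset.sum_comm]
    refine Finset.sum_eq_zero fun w _ => ?_
    rw [← Finset.mul_sum, h0, mul_zero]
  calc _ ≤ ∑ i ∈ S, p i * (((Matrix.of A) ^ (m + 2)).trace
        + (m + 2) * ((Matrix.of A) ^ (m + 1) * Matrix.of (Z i)).trace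
        + (m + 2) * (m + 1) * l i ^ 2 *
        (((Matrix.of A) ^ m).trace + ((Matrix.of fun v w => A v w + Z i v w) ^ m).trace)) :=
        Finset.sum_le_sum fun i hi => mul_le_mul_of_nonneg_left (h1 i hi) (hp i hi)
    _ = (∑ i ∈ S, p i) * ((Matrix.of A) ^ (m + 2)).trace
        + (m + 2) * ∑ i ∈ S, p i * ((Matrix.of A) ^ (m + 1) * Matrix.of (Z i)).trace
        + (m + 2) * (m + 1) * ∑ i ∈ S, p i * l i ^ 2 *
        (((Matrix.of A) ^ m).trace + ((Matrix.of fun v w => A v w + Z i v w) ^ m).trace) := by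
        rw [Finset.sum_mul, Finset.mul_sum, Finset.mul_sum, ← Finset.sum_add_distrib,
          ← Finset.sum_add_distrib]
        exact Finset.sum_congr rfl fun i _ => by ring
    _ = _ := by rw [hp1, h2]; ring

/-- One step for the Hilbert-Schmidt norm (`m = 0`), exact. -/
theorem hs_mean_step {ι : Type*} (S : Finset ι) (p : ι → ℝ)
    (hp1 : ∑ i ∈ S, p i = 1) {A : V → V → ℝ} {Z : ι → V → V → ℝ}
    (h0 : ∀ v w, ∑ i ∈ S, p i * Z i v w = 0) :
    ∑ i ∈ S, p i * ∑ v, ∑ w, (A v w + Z i v w) ^ 2 =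
      ∑ v, ∑ w, A v w ^ 2 + ∑ i ∈ S, p i * ∑ v, ∑ w, Z i v w ^ 2 := by
  have e : ∀ i, p i * ∑ v, ∑ w, (A v w + Z i v w) ^ 2 = ∑ v, ∑ w, (p i * A v w ^ 2
      + 2 * A v w * (p i * Z i v w) + p i * Z i v w ^ 2) := by
    intro i
    rw [Finset.mul_sum]
    refine Finset.sum_congr rfl fun v _ => ?_
    rw [Finset.mul_sum]
    exact Finset.sum_congr rfl fun w _ => by ring
  simp only [e]
  rw [Finset.sum_comm]
  simp only [Finset.mul_sum]
  rw [Finset.sum_comm (s := S) (f := fun i v => ∑ w, p i * Z i v w ^ 2), ← Finset.sum_add_distrib]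
  refine Finset.sum_congr rfl fun v _ => ?_
  rw [Finset.sum_comm, Finset.sum_comm (s := S) (f := fun i w => p i * Z i v w ^ 2),
    ← Finset.sum_add_distrib]
  refine Finset.sum_congr rfl fun w _ => ?_
  rw [Finset.sum_add_distrib, Finset.sum_add_distrib, ← Finset.sum_mul, hp1, ← Finset.mul_sum,
    h0, mul_zero, add_zero, one_mul]

/-- The recursive bound: with `Tr (A + Z) ^ m ≤ 2 ^ m (Tr A ^ m + l ^ (m - 2) HS (Z))`. -/
theorem trace_mean_step' {ι : Type*} (S : Finset ι) (p : ι → ℝ) (hp : ∀ i ∈ S, 0 ≤ p i)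
    (hp1 : ∑ i ∈ S, p i = 1) {A : V → V → ℝ} {Z : ι → V → V → ℝ}
    (hA : ∀ v w, A v w = A w v) (hZ : ∀ i ∈ S, ∀ v w, Z i v w = Z i w v)
    (h0 : ∀ v w, ∑ i ∈ S, p i * Z i v w = 0) {l : ι → ℝ} (hl : ∀ i ∈ S, OpLe (Z i) (l i))
    {m : ℕ} (hm : Even m) :
    ∑ i ∈ S, p i * ((Matrix.of fun v w => A v w + Z i v w) ^ (m + 4)).trace ≤
      ((Matrix.of A) ^ (m + 4)).trace + (m + 4) * (m + 3) * (1 + 2 ^ (m + 2)) *
        ∑ i ∈ S, p i * l i ^ 2 *
        (((Matrix.of A) ^ (m + 2)).trace + l i ^ m * ∑ v, ∑ w, Z i v w ^ 2) := by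
  have hm2 : Even (m + 2) := by
    obtain ⟨k, hk⟩ := hm
    exact ⟨k + 1, by omega⟩
  have h1 := trace_mean_step S p hp hp1 hA hZ h0 hl hm2
  have e : m + 2 + 2 = m + 4 := by omega
  rw [e] at h1
  push_cast at h1
  have e1 : (m : ℝ) + 2 + 2 = m + 4 := by ring
  have e2 : (m : ℝ) + 2 + 1 = m + 3 := by ring
  rw [e1, e2] at h1
  refine h1.trans ?_
  have hc : (0 : ℝ) ≤ (m + 4) * (m + 3) := by positivity
  have h2 : ∑ i ∈ S, p i * l i ^ 2 * (((Matrix.of A) ^ (m + 2)).trace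
      + ((Matrix.of fun v w => A v w + Z i v w) ^ (m + 2)).trace) ≤
      ∑ i ∈ S, p i * l i ^ 2 * ((1 + 2 ^ (m + 2)) * (((Matrix.of A) ^ (m + 2)).trace
        + l i ^ m * ∑ v, ∑ w, Z i v w ^ 2)) := by
    refine Finset.sum_le_sum fun i hi => ?_
    refine mul_le_mul_of_nonneg_left ?_ (mul_nonneg (hp i hi) (sq_nonneg _))
    have hAT : (Matrix.of A)ᵀ = Matrix.of A := by
      ext v w
      exact hA w v
    have hZT : (Matrix.of (Z i))ᵀ = Matrix.of (Z i) := by
      ext v w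
      exact hZ i hi w v
    have h3 := trace_add_pow_le hAT hZT hm2
    have e : (Matrix.of fun v w => A v w + Z i v w) = Matrix.of A + Matrix.of (Z i) := by
      ext v w
      rfl
    rw [e]
    have h4 := trace_pow_le_hs (hZ i hi) (hl i hi) hm
    have h5 : 0 ≤ l i ^ m * ∑ v, ∑ w, Z i v w ^ 2 := by
      refine mul_nonneg (hm.pow_nonneg _) ?_
      exact Finset.sum_nonneg fun v _ => Finset.sum_nonneg fun w _ => sq_nonneg _
    have h6 : (0 : ℝ) ≤ 2 ^ (m + 2) := by positivity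
    have h7 := mul_le_mul_of_nonneg_left h4 h6
    nlinarith
  calc _ ≤ ((Matrix.of A) ^ (m + 4)).trace + (m + 4) * (m + 3) *
        ∑ i ∈ S, p i * l i ^ 2 * ((1 + 2 ^ (m + 2)) * (((Matrix.of A) ^ (m + 2)).trace
        + l i ^ m * ∑ v, ∑ w, Z i v w ^ 2)) := by
          have := mul_le_mul_of_nonneg_left h2 hc
          linarith
    _ = _ := by
        rw [mul_assoc ((m + 4 : ℝ) * (m + 3)), Finset.mul_sum _ _ (1 + 2 ^ (m + 2) : ℝ)]
        congr 2
        exact Finset.sum_congr rfl fun i _ => by ring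

end MP5c.Op

namespace MP5c.Op

open MP5c.Tr Finset

variable {V : Type*} [Fintype V] [DecidableEq V]

/-! ### Normalised kernels: the matrix `K v w / n`, `n = card V`. -/

/-- The matrix `K / card V` has norm at most `l`. -/
def KN (K : V → V → ℝ) (l : ℝ) : Prop :=
  OpLe (fun v w => K v w / (Fintype.card V : ℝ)) l

lemma KN.nonneg {K : V → V → ℝ} {l : ℝ} (h : KN K l) : 0 ≤ l := h.1

lemma KN.congr {A B : V → V → ℝ} {l : ℝ} (h : KN A l) (hAB : ∀ v w, A v w = B v w) :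
    KN B l := OpLe.congr h fun v w => by rw [hAB]

lemma KN.mono {A : V → V → ℝ} {l l' : ℝ} (h : KN A l) (hl : l ≤ l') : KN A l' := OpLe.mono h hl

lemma KN_zero {l : ℝ} (hl : 0 ≤ l) : KN (fun _ _ : V => (0 : ℝ)) l :=
  (opLe_zero hl).congr fun v w => by rw [zero_div]

lemma KN.add {A B : V → V → ℝ} {a b : ℝ} (hA : KN A a) (hB : KN B b) :
    KN (fun v w => A v w + B v w) (a + b) :=
  (OpLe.add hA hB).congr fun v w => by ring

lemma KN.sub {A B : V → V → ℝ} {a b : ℝ} (hA : KN A a) (hB : KN B b) :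
    KN (fun v w => A v w - B v w) (a + b) :=
  (OpLe.sub hA hB).congr fun v w => by ring

lemma KN.neg {A : V → V → ℝ} {a : ℝ} (hA : KN A a) : KN (fun v w => -A v w) a :=
  (OpLe.neg hA).congr fun v w => by ring

lemma KN.smul_nonneg {A : V → V → ℝ} {a : ℝ} (hA : KN A a) {c : ℝ} (hc : 0 ≤ c) :
    KN (fun v w => c * A v w) (c * a) :=
  (OpLe.smul_nonneg hA hc).congr fun v w => by ring

lemma KN.transpose {A : V → V → ℝ} {a : ℝ} (hA : KN A a) : KN (fun v w => A w v) a :=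
  OpLe.transpose hA

lemma KN.mul_right {A : V → V → ℝ} {a : ℝ} (hA : KN A a) {d : V → ℝ} {c : ℝ}
    (hc : 0 ≤ c) (hd : ∀ v, |d v| ≤ c) : KN (fun v w => A v w * d w) (a * c) :=
  (OpLe.mul_right hA hc hd).congr fun v w => by ring

lemma KN.mul_left {A : V → V → ℝ} {a : ℝ} (hA : KN A a) {d : V → ℝ} {c : ℝ}
    (hc : 0 ≤ c) (hd : ∀ v, |d v| ≤ c) : KN (fun v w => d v * A v w) (c * a) :=
  (OpLe.mul_left hA hc hd).congr fun v w => by ring

lemma KN.restrict {A : V → V → ℝ} {a : ℝ} (hA : KN A a) (S T : V → Prop)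
    [DecidablePred S] [DecidablePred T] :
    KN (fun v w => if S v ∧ T w then A v w else 0) a :=
  (OpLe.restrict hA S T).congr fun v w => by by_cases h : S v ∧ T w <;> simp [h]

/-- Restriction to the complement of `F`. -/
lemma KN.restrict_compl {A : V → V → ℝ} {a : ℝ} (hA : KN A a) (F : Finset V) :
    KN (fun v w => if v ∉ F ∧ w ∉ F then A v w else 0) a :=
  hA.restrict (fun v => v ∉ F) (fun w => w ∉ F)

lemma KN.of_abs_le {A B : V → V → ℝ} {b : ℝ} (hB : KN B b)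
    (h : ∀ v w, |A v w| ≤ B v w) : KN A b := by
  refine OpLe.of_abs_le hB fun v w => ?_
  rw [abs_div, Nat.abs_cast]
  exact div_le_div_of_nonneg_right (h v w) (Nat.cast_nonneg _)

/-- Product with a weight: `E_u A v u * R u * B u w`. -/
lemma KN.comp {A B : V → V → ℝ} {a b : ℝ} (hA : KN A a) (hB : KN B b) :
    KN (fun v w => (∑ u, A v u * B u w) / (Fintype.card V : ℝ)) (a * b) := by
  refine (OpLe.comp hA hB).congr fun v w => ?_
  rw [div_div, Finset.sum_div]
  refine Finset.sum_congr rfl fun u _ => ?_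
  rw [div_mul_div_comm]

lemma KN.comp_weight {A B : V → V → ℝ} {a b : ℝ} (hA : KN A a) (hB : KN B b) {R : V → ℝ} {c : ℝ}
    (hc : 0 ≤ c) (hR : ∀ v, |R v| ≤ c) :
    KN (fun v w => (∑ u, R u * (A v u * B u w)) / (Fintype.card V : ℝ)) (a * c * b) := by
  refine (KN.comp (hA.mul_right hc hR) hB).congr fun v w => ?_
  congr 1
  exact Finset.sum_congr rfl fun u _ => by ring

/-- The `L²` bound for the averages `E_w K v w f w`. -/
lemma KN.l2 {K : V → V → ℝ} {l : ℝ} (h : KN K l) (f : V → ℝ) :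
    (∑ v, ((∑ w, K v w * f w) / (Fintype.card V : ℝ)) ^ 2) / (Fintype.card V : ℝ) ≤
      l ^ 2 * ((∑ v, f v ^ 2) / (Fintype.card V : ℝ)) := by
  rw [← mul_div_assoc]
  refine div_le_div_of_nonneg_right (le_trans (le_of_eq ?_) (OpLe.app h f)) (Nat.cast_nonneg _)
  refine Finset.sum_congr rfl fun v _ => ?_
  rw [Finset.sum_div]
  congr 1
  exact Finset.sum_congr rfl fun w _ => by ring

/-- Schur's test in averaged form. -/
theorem KN_schur {K : V → V → ℝ} {a b c : ℝ} (ha : 0 ≤ a) (hb : 0 ≤ b) (hc0 : 0 ≤ c)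
    (hab : a * b ≤ c ^ 2) (hr : ∀ v, (∑ w, |K v w|) / (Fintype.card V : ℝ) ≤ a)
    (hc : ∀ w, (∑ v, |K v w|) / (Fintype.card V : ℝ) ≤ b) : KN K c := by
  refine opLe_schur' ha hb hc0 hab (fun v => le_trans (le_of_eq ?_) (hr v))
    fun w => le_trans (le_of_eq ?_) (hc w)
  · rw [Finset.sum_div]
    refine Finset.sum_congr rfl fun w _ => ?_
    rw [abs_div, Nat.abs_cast]
  · rw [Finset.sum_div]
    refine Finset.sum_congr rfl fun w _ => ?_
    rw [abs_div, Nat.abs_cast]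

theorem KN_schur_symm {K : V → V → ℝ} {a : ℝ} (ha : 0 ≤ a) (hK : ∀ v w, |K v w| = |K w v|)
    (hr : ∀ v, (∑ w, |K v w|) / (Fintype.card V : ℝ) ≤ a) : KN K a := by
  refine KN_schur ha ha ha (by rw [sq]) hr fun w => le_trans (le_of_eq ?_) (hr w)
  congr 1
  exact Finset.sum_congr rfl fun v _ => hK v w

/-- A bounded kernel. -/
theorem KN_of_bounded [Nonempty V] {K : V → V → ℝ} {a : ℝ} (ha : 0 ≤ a)
    (h : ∀ v w, |K v w| ≤ a) : KN K a := by
  have hn : (0 : ℝ) < Fintype.card V := by exact_mod_cast Fintype.card_pos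
  have key : ∀ g : V → ℝ, (∀ v, g v ≤ a) → (∑ v, g v) / (Fintype.card V : ℝ) ≤ a := by
    intro g hg
    rw [div_le_iff₀ hn]
    calc ∑ v, g v ≤ ∑ _v : V, a := Finset.sum_le_sum fun v _ => hg v
      _ = a * (Fintype.card V : ℝ) := by
        rw [Finset.sum_const, Finset.card_univ, nsmul_eq_mul, mul_comm]
  exact KN_schur ha ha ha (by rw [sq]) (fun v => key _ fun w => h v w)
    fun w => key _ fun v => h v w

/-- The Hilbert-Schmidt bound in averaged form. -/
theorem KN_hs {K : V → V → ℝ} {c : ℝ} (hc : 0 ≤ c)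
    (h : (∑ v, ∑ w, K v w ^ 2) / (Fintype.card V : ℝ) ^ 2 ≤ c ^ 2) : KN K c := by
  refine opLe_hs hc (le_trans (le_of_eq ?_) h)
  rw [Finset.sum_div]
  refine Finset.sum_congr rfl fun v _ => ?_
  rw [Finset.sum_div]
  exact Finset.sum_congr rfl fun w _ => by rw [div_pow]

/-- A kernel supported on the diagonal. -/
theorem KN_diag {K : V → V → ℝ} {c : ℝ} (hc : 0 ≤ c) (h0 : ∀ v w, v ≠ w → K v w = 0)
    (hd : ∀ v, |K v v| ≤ c) : KN K (c / (Fintype.card V : ℝ)) := by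
  have h1 : OpLe (fun v w => if v = w then K v v / (Fintype.card V : ℝ) else 0)
      (c / (Fintype.card V : ℝ)) := by
    refine opLe_diag (by positivity) fun v => ?_
    rw [abs_div, Nat.abs_cast]
    exact div_le_div_of_nonneg_right (hd v) (Nat.cast_nonneg _)
  refine h1.congr fun v w => ?_
  by_cases h : v = w
  · subst h
    simp
  · rw [if_neg h, h0 v w h, zero_div]

/-- The trace of the `q`-th power of the normalised kernel. -/
noncomputable def trK (q : ℕ) (K : V → V → ℝ) : ℝ :=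
  ((Matrix.of fun v w => K v w / (Fintype.card V : ℝ)) ^ q).trace

theorem trK_nonneg {q : ℕ} (hq : Even q) {K : V → V → ℝ} (hK : ∀ v w, K v w = K w v) :
    0 ≤ trK q K := by
  refine trace_nonneg ?_ hq
  ext v w
  simp only [Matrix.transpose_apply, Matrix.of_apply]
  rw [hK]

theorem trK_two {K : V → V → ℝ} (hK : ∀ v w, K v w = K w v) :
    trK 2 K = (∑ v, ∑ w, K v w ^ 2) / (Fintype.card V : ℝ) ^ 2 := by
  rw [trK, trace_sq _ fun v w => by rw [hK], Finset.sum_div]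
  refine Finset.sum_congr rfl fun v _ => ?_
  rw [Finset.sum_div]
  exact Finset.sum_congr rfl fun w _ => by rw [div_pow]

theorem trK_zero_kernel {q : ℕ} (hq : q ≠ 0) : trK q (fun _ _ : V => (0 : ℝ)) = 0 := by
  have : (Matrix.of fun (_ _ : V) => (0 : ℝ) / (Fintype.card V : ℝ)) = 0 := by
    ext v w
    simp
  rw [trK, this, zero_pow hq, Matrix.trace_zero]

theorem KN_of_trK {K : V → V → ℝ} (hK : ∀ v w, K v w = K w v) {q : ℕ} (hq : Even q)
    (hq0 : q ≠ 0) {π : ℝ} (hπ : 0 ≤ π) (h : trK q K ≤ π ^ q) : KN K π :=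
  opLe_of_trace (fun v w => by rw [hK]) hq hq0 hπ h

/-- For Markov's inequality. -/
theorem lt_trK_of_not_KN {K : V → V → ℝ} (hK : ∀ v w, K v w = K w v) {q : ℕ} (hq : Even q)
    (hq0 : q ≠ 0) {π : ℝ} (hπ : 0 ≤ π) (h : ¬ KN K π) : π ^ q < trK q K := by
  by_contra h'
  exact h (KN_of_trK hK hq hq0 hπ (not_lt.1 h'))

/-- **The one-step recursion** for the traces of even powers of order at least `4`, for a random
increment `Z i` (probability `p i`) of mean zero. -/
theorem trK_mean_step {ι : Type*} (S : Finset ι) (p : ι → ℝ) (hp : ∀ i ∈ S, 0 ≤ p i)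
    (hp1 : ∑ i ∈ S, p i = 1) {K : V → V → ℝ} {Z : ι → V → V → ℝ}
    (hK : ∀ v w, K v w = K w v) (hZ : ∀ i ∈ S, ∀ v w, Z i v w = Z i w v)
    (h0 : ∀ v w, ∑ i ∈ S, p i * Z i v w = 0) {l : ι → ℝ} (hl : ∀ i ∈ S, KN (Z i) (l i))
    {m : ℕ} (hm : Even m) :
    ∑ i ∈ S, p i * trK (m + 4) (fun v w => K v w + Z i v w) ≤
      trK (m + 4) K + (m + 4) * (m + 3) * (1 + 2 ^ (m + 2)) *
        ∑ i ∈ S, p i * l i ^ 2 * (trK (m + 2) K
          + l i ^ m * ((∑ v, ∑ w, Z i v w ^ 2) / (Fintype.card V : ℝ) ^ 2)) := by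
  have h1 := trace_mean_step' S p hp hp1 (A := fun v w => K v w / (Fintype.card V : ℝ))
    (Z := fun i v w => Z i v w / (Fintype.card V : ℝ)) (fun v w => by rw [hK])
    (fun i hi v w => by rw [hZ i hi])
    (fun v w => by
      have := h0 v w
      calc ∑ i ∈ S, p i * (Z i v w / (Fintype.card V : ℝ))
          = (∑ i ∈ S, p i * Z i v w) / (Fintype.card V : ℝ) := by
            rw [Finset.sum_div]
            exact Finset.sum_congr rfl fun i _ => by ring
        _ = 0 := by rw [this, zero_div]) hl hm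
  have e1 : ∀ i, (Matrix.of fun v w => K v w / (Fintype.card V : ℝ) + Z i v w / (Fintype.card V : ℝ))
      = Matrix.of fun v w => (K v w + Z i v w) / (Fintype.card V : ℝ) := by
    intro i
    ext v w
    simp only [Matrix.of_apply]
    ring
  have e2 : ∀ i, ∑ v, ∑ w, (Z i v w / (Fintype.card V : ℝ)) ^ 2
      = (∑ v, ∑ w, Z i v w ^ 2) / (Fintype.card V : ℝ) ^ 2 := by
    intro i
    rw [Finset.sum_div]
    refine Finset.sum_congr rfl fun v _ => ?_
    rw [Finset.sum_div]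
    exact Finset.sum_congr rfl fun w _ => by rw [div_pow]
  simp only [e1, e2] at h1
  exact h1

/-- The case of order `2`, exact. -/
theorem trK_mean_two {ι : Type*} (S : Finset ι) (p : ι → ℝ)
    (hp1 : ∑ i ∈ S, p i = 1) {K : V → V → ℝ} {Z : ι → V → V → ℝ}
    (hK : ∀ v w, K v w = K w v) (hZ : ∀ i ∈ S, ∀ v w, Z i v w = Z i w v)
    (h0 : ∀ v w, ∑ i ∈ S, p i * Z i v w = 0) :
    ∑ i ∈ S, p i * trK 2 (fun v w => K v w + Z i v w) =
      trK 2 K + ∑ i ∈ S, p i * ((∑ v, ∑ w, Z i v w ^ 2) / (Fintype.card V : ℝ) ^ 2) := by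
  have h1 := hs_mean_step S p hp1 (A := K) (Z := Z) h0
  rw [trK_two hK]
  have e : ∀ i ∈ S, p i * trK 2 (fun v w => K v w + Z i v w)
      = (p i * ∑ v, ∑ w, (K v w + Z i v w) ^ 2) / (Fintype.card V : ℝ) ^ 2 := by
    intro i hi
    rw [trK_two fun v w => by rw [hK, hZ i hi], mul_div_assoc]
  have e' : ∀ i ∈ S, p i * ((∑ v, ∑ w, Z i v w ^ 2) / (Fintype.card V : ℝ) ^ 2)
      = (p i * ∑ v, ∑ w, Z i v w ^ 2) / (Fintype.card V : ℝ) ^ 2 := fun i _ => by
    rw [mul_div_assoc]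
  rw [Finset.sum_congr rfl e, ← Finset.sum_div, h1, add_div, Finset.sum_congr rfl e',
    ← Finset.sum_div]

end MP5c.Op
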