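import Pool.Agent.Lib.MP_5c685b_co.A.Defs
import Pool.Agent.Lib.MP_5c685b_co.A.Op

/-!
# Route A': rules for `OpLe F K c`
-/

set_option autoImplicit false
set_option linter.unusedVariables false
set_option linter.unusedSectionVars false

open Finset

namespace MP5cA

open MP5c.Op (KN)

variable {V : Type} [Fintype V] [DecidableEq V]

/-- the kernel restricted to the complement of `F` -/
noncomputable def res (F : Finset V) (K : V → V → ℝ) (v w : V) : ℝ :=
  if v ∉ F ∧ w ∉ F then K v w else 0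

lemma OpLe.iff_KN {F : Finset V} {K : V → V → ℝ} {c : ℝ} (hc : 0 ≤ c) :
    OpLe F K c ↔ KN (res F K) c := by
  have hn0 : (0 : ℝ) ≤ (Fintype.card V : ℝ) := Nat.cast_nonneg _
  rcases hn0.eq_or_lt with hn | hn
  · -- no vertices
    have hE : IsEmpty V := by
      rw [← Fintype.card_eq_zero_iff]
      exact_mod_cast hn.symm
    constructor
    · intro _
      exact ⟨hc, fun f => by simp⟩
    · intro _ f _
      simp [av]
  have key : ∀ f : V → ℝ, (∀ v ∈ F, f v = 0) →
      (∑ v, (∑ w, res F K v w / (Fintype.card V : ℝ) * f w) ^ 2)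
        = (Fintype.card V : ℝ) * av (fun v => ind (v ∉ F) * (av fun w => K v w * f w) ^ 2) := by
    intro f hf
    unfold av
    rw [mul_div_cancel₀ _ hn.ne']
    refine Finset.sum_congr rfl fun v _ => ?_
    beta_reduce
    by_cases hv : v ∈ F
    · have h1 : ∀ w, res F K v w = 0 := fun w => if_neg (by tauto)
      simp only [h1, zero_div, zero_mul, Finset.sum_const_zero]
      rw [ind_neg (by tauto)]
      norm_num
    · rw [ind_pos hv, one_mul, Finset.sum_div]
      congr 1
      refine Finset.sum_congr rfl fun w _ => ?_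
      by_cases hw : w ∈ F
      · rw [hf w hw]
        simp
      · unfold res
        rw [if_pos ⟨hv, hw⟩]
        ring
  constructor
  · intro h
    refine ⟨hc, fun f => ?_⟩
    set f' : V → ℝ := fun w => if w ∈ F then 0 else f w with hf'
    have hz : ∀ v ∈ F, f' v = 0 := fun v hv => by
      simp only [hf', if_pos hv]
    have e1 : (∑ v, (∑ w, res F K v w / (Fintype.card V : ℝ) * f w) ^ 2)
        = ∑ v, (∑ w, res F K v w / (Fintype.card V : ℝ) * f' w) ^ 2 := by
      refine Finset.sum_congr rfl fun v _ => ?_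
      congr 1
      refine Finset.sum_congr rfl fun w _ => ?_
      by_cases hw : w ∈ F
      · have : res F K v w = 0 := if_neg (by tauto)
        rw [this]
        simp
      · simp only [hf', if_neg hw]
    rw [e1, key f' hz]
    have h1 := mul_le_mul_of_nonneg_left (h f' hz) hn.le
    refine h1.trans ?_
    unfold av
    have e2 : (Fintype.card V : ℝ) * (c ^ 2 * ((∑ w, f' w ^ 2) / (Fintype.card V : ℝ)))
        = c ^ 2 * ∑ w, f' w ^ 2 := by
      field_simp
    rw [e2]
    refine mul_le_mul_of_nonneg_left (Finset.sum_le_sum fun w _ => ?_) (sq_nonneg _)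
    by_cases hw : w ∈ F
    · simp only [hf', if_pos hw]
      nlinarith [sq_nonneg (f w)]
    · simp only [hf', if_neg hw]
      exact le_refl _
  · intro h f hf
    have h1 := h.2 f
    rw [key f hf] at h1
    unfold av at h1 ⊢
    rw [← mul_div_assoc (c ^ 2), le_div_iff₀ hn]
    linarith

lemma OpLe.of_KN {F : Finset V} {K : V → V → ℝ} {c : ℝ} (h : KN (res F K) c) : OpLe F K c :=
  (OpLe.iff_KN h.1).2 h

lemma OpLe.to_KN {F : Finset V} {K : V → V → ℝ} {c : ℝ} (hc : 0 ≤ c) (h : OpLe F K c) :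
    KN (res F K) c := (OpLe.iff_KN hc).1 h

lemma res_empty (K : V → V → ℝ) : res ∅ K = K := by
  funext v w
  simp [res]

lemma OpLe.empty_iff {K : V → V → ℝ} {c : ℝ} (hc : 0 ≤ c) : OpLe ∅ K c ↔ KN K c := by
  rw [OpLe.iff_KN hc, res_empty]

lemma OpLe.mono_c {F : Finset V} {K : V → V → ℝ} {c c' : ℝ} (h : OpLe F K c) (hc : 0 ≤ c)
    (hc' : c ≤ c') : OpLe F K c' := by
  intro f hf
  refine (h f hf).trans ?_
  have : 0 ≤ av fun w => f w ^ 2 := av_nonneg fun w => sq_nonneg _
  gcongr

/-- a larger forbidden set -/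
lemma OpLe.anti {F F' : Finset V} {K : V → V → ℝ} {c : ℝ} (h : OpLe F K c) (hF : F ⊆ F') :
    OpLe F' K c := by
  intro f hf
  refine le_trans (av_mono fun v => ?_) (h f fun v hv => hf v (hF hv))
  exact mul_le_mul_of_nonneg_right (ind_mono fun h' h'' => h' (hF h'')) (sq_nonneg _)

/-- the kernel matters only off `F` -/
lemma OpLe.congr {F : Finset V} {K K' : V → V → ℝ} {c : ℝ} (h : OpLe F K c)
    (hK : ∀ v w, v ∉ F → w ∉ F → K v w = K' v w) : OpLe F K' c := by
  intro f hf
  refine le_trans (le_of_eq (av_congr fun v => ?_)) (h f hf)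
  by_cases hv : v ∈ F
  · rw [ind_neg (by tauto), zero_mul, zero_mul]
  · congr 2
    refine av_congr fun w => ?_
    by_cases hw : w ∈ F
    · rw [hf w hw, mul_zero, mul_zero]
    · rw [hK v w hv hw]

lemma OpLe.zero {F : Finset V} {c : ℝ} : OpLe F (fun _ _ : V => (0 : ℝ)) c := by
  intro f _
  have : av (fun v => ind (v ∉ F) * (av fun w : V => (0 : ℝ) * f w) ^ 2) = 0 := by
    have : ∀ v, ind (v ∉ F) * (av fun w : V => (0 : ℝ) * f w) ^ 2 = 0 := by
      intro v
      have : (av fun w : V => (0 : ℝ) * f w) = 0 := by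
        simp only [zero_mul]
        exact av_zero
      rw [this]
      norm_num
    simp only [this]
    exact av_zero
  rw [this]
  exact mul_nonneg (sq_nonneg _) (av_nonneg fun w => sq_nonneg _)

lemma res_add (F : Finset V) (A B : V → V → ℝ) (v w : V) :
    res F A v w + res F B v w = res F (fun v w => A v w + B v w) v w := by
  unfold res
  split_ifs <;> simp

lemma OpLe.add {F : Finset V} {A B : V → V → ℝ} {a b : ℝ} (ha : 0 ≤ a) (hb : 0 ≤ b)
    (hA : OpLe F A a) (hB : OpLe F B b) : OpLe F (fun v w => A v w + B v w) (a + b) :=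
  OpLe.of_KN (((hA.to_KN ha).add (hB.to_KN hb)).congr fun v w => res_add F A B v w)

lemma OpLe.smul {F : Finset V} {A : V → V → ℝ} {a : ℝ} (hA : OpLe F A a) (c : ℝ) :
    OpLe F (fun v w => c * A v w) (c * a) := by
  intro f hf
  have h1 := hA f hf
  have e : av (fun v => ind (v ∉ F) * (av fun w => c * A v w * f w) ^ 2)
      = c ^ 2 * av (fun v => ind (v ∉ F) * (av fun w => A v w * f w) ^ 2) := by
    rw [← av_mul_left]
    refine av_congr fun v => ?_
    have : (av fun w => c * A v w * f w) = c * av fun w => A v w * f w := by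
      rw [← av_mul_left]
      exact av_congr fun w => by ring
    rw [this]
    ring
  rw [e, mul_pow, mul_assoc]
  exact mul_le_mul_of_nonneg_left h1 (sq_nonneg _)

lemma OpLe.neg {F : Finset V} {A : V → V → ℝ} {a : ℝ} (hA : OpLe F A a) :
    OpLe F (fun v w => -A v w) a := by
  have h := hA.smul (-1)
  intro f hf
  have h1 := h f hf
  have e : (fun v w => (-1 : ℝ) * A v w) = fun v w => -A v w := by
    funext v w
    ring
  rw [e] at h1
  calc _ ≤ _ := h1
    _ = _ := by ring

lemma OpLe.sub {F : Finset V} {A B : V → V → ℝ} {a b : ℝ} (ha : 0 ≤ a) (hb : 0 ≤ b)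
    (hA : OpLe F A a) (hB : OpLe F B b) : OpLe F (fun v w => A v w - B v w) (a + b) :=
  (OpLe.add ha hb hA hB.neg).congr fun v w _ _ => by ring

lemma OpLe.transpose {F : Finset V} {A : V → V → ℝ} {a : ℝ} (ha : 0 ≤ a) (hA : OpLe F A a) :
    OpLe F (fun v w => A w v) a := by
  refine OpLe.of_KN ((hA.to_KN ha).transpose.congr fun v w => ?_)
  unfold res
  by_cases hv : v ∈ F <;> by_cases hw : w ∈ F <;> simp [hv, hw]

/-- domination off `F` -/
lemma OpLe.of_abs_le {F : Finset V} {A B : V → V → ℝ} {b : ℝ} (hb : 0 ≤ b) (hB : OpLe F B b)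
    (h : ∀ v w, v ∉ F → w ∉ F → |A v w| ≤ B v w) : OpLe F A b := by
  refine OpLe.of_KN ((hB.to_KN hb).of_abs_le fun v w => ?_)
  unfold res
  split_ifs with h1
  · exact h v w h1.1 h1.2
  · simp

/-- the product with a weight: `E_y R(y) A(v,y) B(y,w)`, `R = 0` on `F` -/
lemma OpLe.comp_weight {F : Finset V} {A B : V → V → ℝ} {a b c : ℝ} (ha : 0 ≤ a) (hb : 0 ≤ b)
    (hc : 0 ≤ c) (hA : OpLe F A a) (hB : OpLe F B b) {R : V → ℝ} (hR : ∀ v, |R v| ≤ c)
    (hF : ∀ v ∈ F, R v = 0) :
    OpLe F (fun v w => av fun y => R y * (A v y * B y w)) (a * c * b) := by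
  refine OpLe.of_KN (((hA.to_KN ha).comp_weight (hB.to_KN hb) hc hR).congr fun v w => ?_)
  unfold res av
  by_cases hvw : v ∉ F ∧ w ∉ F
  · rw [if_pos hvw]
    congr 1
    refine Finset.sum_congr rfl fun u _ => ?_
    beta_reduce
    by_cases hu : u ∈ F
    · rw [hF u hu, zero_mul, zero_mul]
    · rw [if_pos ⟨hvw.1, hu⟩, if_pos ⟨hu, hvw.2⟩]
  · rw [if_neg hvw]
    have : ∀ u, R u * ((if v ∉ F ∧ u ∉ F then A v u else 0) * if u ∉ F ∧ w ∉ F then B u w else 0)
        = 0 := by
      intro u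
      rcases not_and_or.1 hvw with h | h
      · rw [if_neg (by tauto)]
        ring
      · rw [if_neg (c := u ∉ F ∧ w ∉ F) (by tauto)]
        ring
    simp only [this, Finset.sum_const_zero, zero_div]

/-- application to a function vanishing on `F`, multiplied by a bounded weight vanishing on `F`:
`‖E_y A(v,y) R(y) g(y)‖_{L²(V \ F)} ≤ a c ‖g‖` -/
lemma OpLe.app {F : Finset V} {A : V → V → ℝ} {a : ℝ} (hA : OpLe F A a)
    {R : V → ℝ} {c : ℝ} (hR : ∀ v, |R v| ≤ c) (hF : ∀ v ∈ F, R v = 0) (g : V → ℝ) :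
    av (fun v => ind (v ∉ F) * (av fun y => A v y * (R y * g y)) ^ 2) ≤
      (a * c) ^ 2 * av (fun y => g y ^ 2) := by
  have h1 := hA (fun y => R y * g y) (fun v hv => by
    show R v * g v = 0
    rw [hF v hv, zero_mul])
  refine h1.trans ?_
  rw [mul_pow, mul_assoc]
  refine mul_le_mul_of_nonneg_left ?_ (sq_nonneg _)
  rw [← av_mul_left]
  refine av_mono fun y => ?_
  rw [mul_pow]
  refine mul_le_mul_of_nonneg_right ?_ (sq_nonneg _)
  rw [← sq_abs]
  exact pow_le_pow_left₀ (abs_nonneg _) (hR y) 2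

/-- Schur's test off `F` -/
lemma OpLe.schur {F : Finset V} {K : V → V → ℝ} {a b c : ℝ} (ha : 0 ≤ a) (hb : 0 ≤ b)
    (hc0 : 0 ≤ c) (hab : a * b ≤ c ^ 2)
    (hr : ∀ v, v ∉ F → av (fun w => |K v w| * ind (w ∉ F)) ≤ a)
    (hc : ∀ w, w ∉ F → av (fun v => |K v w| * ind (v ∉ F)) ≤ b) : OpLe F K c := by
  refine OpLe.of_KN (MP5c.Op.KN_schur ha hb hc0 hab (fun v => ?_) fun w => ?_)
  · by_cases hv : v ∈ F
    · have : ∀ w, |res F K v w| = 0 := fun w => by
        rw [show res F K v w = 0 from if_neg (by tauto), abs_zero]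
      simp only [this, Finset.sum_const_zero, zero_div]
      exact ha
    · refine le_trans (le_of_eq ?_) (hr v hv)
      unfold av
      congr 1
      refine Finset.sum_congr rfl fun w _ => ?_
      beta_reduce
      by_cases hw : w ∈ F
      · rw [ind_neg (by tauto), show res F K v w = 0 from if_neg (by tauto), abs_zero, mul_zero]
      · rw [ind_pos hw, show res F K v w = K v w from if_pos ⟨hv, hw⟩, mul_one]
  · by_cases hw : w ∈ F
    · have : ∀ v, |res F K v w| = 0 := fun v => by
        rw [show res F K v w = 0 from if_neg (by tauto), abs_zero]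
      simp only [this, Finset.sum_const_zero, zero_div]
      exact hb
    · refine le_trans (le_of_eq ?_) (hc w hw)
      unfold av
      congr 1
      refine Finset.sum_congr rfl fun v _ => ?_
      beta_reduce
      by_cases hv : v ∈ F
      · rw [ind_neg (by tauto), show res F K v w = 0 from if_neg (by tauto), abs_zero, mul_zero]
      · rw [ind_pos hv, show res F K v w = K v w from if_pos ⟨hv, hw⟩, mul_one]

/-- Schur's test off `F`, symmetric case -/
lemma OpLe.schur_symm {F : Finset V} {K : V → V → ℝ} {a : ℝ} (ha : 0 ≤ a)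
    (hK : ∀ v w, |K v w| = |K w v|)
    (hr : ∀ v, v ∉ F → av (fun w => |K v w| * ind (w ∉ F)) ≤ a) : OpLe F K a := by
  refine OpLe.schur ha ha ha (by rw [sq]) hr fun w hw => le_trans (le_of_eq ?_) (hr w hw)
  exact av_congr fun v => by rw [hK]

/-- a bounded kernel -/
lemma OpLe.of_bounded {F : Finset V} {K : V → V → ℝ} {a : ℝ} (ha : 0 ≤ a)
    (h : ∀ v w, v ∉ F → w ∉ F → |K v w| ≤ a) : OpLe F K a := by
  refine OpLe.schur ha ha ha (by rw [sq]) (fun v hv => ?_) fun w hw => ?_
  · refine av_le_const ha fun w => ?_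
    by_cases hw : w ∈ F
    · rw [ind_neg (by tauto), mul_zero]
      exact ha
    · rw [ind_pos hw, mul_one]
      exact h v w hv hw
  · refine av_le_const ha fun v => ?_
    by_cases hv : v ∈ F
    · rw [ind_neg (by tauto), mul_zero]
      exact ha
    · rw [ind_pos hv, mul_one]
      exact h v w hv hw

/-- a kernel supported on the diagonal -/
lemma OpLe.diag {F : Finset V} {K : V → V → ℝ} {c : ℝ} (hc : 0 ≤ c)
    (h0 : ∀ v w, v ∉ F → w ∉ F → v ≠ w → K v w = 0) (hd : ∀ v, v ∉ F → |K v v| ≤ c) :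
    OpLe F K (c / (Fintype.card V : ℝ)) := by
  refine OpLe.of_KN (MP5c.Op.KN_diag hc (fun v w hvw => ?_) fun v => ?_)
  · unfold res
    split_ifs with h
    · exact h0 v w h.1 h.2 hvw
    · rfl
  · unfold res
    split_ifs with h
    · exact hd v h.1
    · rw [abs_zero]
      exact hc

/-! ### traces -/

/-- trace of the `q`-th power of the normalised kernel -/
noncomputable def trM (q : ℕ) (K : V → V → ℝ) : ℝ := MP5c.Op.trK q K

lemma trM_nonneg {q : ℕ} (hq : Even q) {K : V → V → ℝ} (hK : ∀ v w, K v w = K w v) :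
    0 ≤ trM q K := MP5c.Op.trK_nonneg hq hK

lemma trM_two {K : V → V → ℝ} (hK : ∀ v w, K v w = K w v) :
    trM 2 K = av fun v => av fun w => K v w ^ 2 := by
  rw [trM, MP5c.Op.trK_two hK]
  unfold av
  rw [sq, ← div_div, ← Finset.sum_div]

lemma trM_zero {q : ℕ} (hq : q ≠ 0) : trM q (fun _ _ : V => (0 : ℝ)) = 0 :=
  MP5c.Op.trK_zero_kernel hq

/-- Markov input: if `M` violates the norm window then its trace is large -/
lemma lt_trM_of_not_OpLe {K : V → V → ℝ} (hK : ∀ v w, K v w = K w v) {q : ℕ} (hq : Even q)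
    (hq0 : q ≠ 0) {c : ℝ} (hc : 0 ≤ c) (h : ¬ OpLe ∅ K c) : c ^ q < trM q K :=
  MP5c.Op.lt_trK_of_not_KN hK hq hq0 hc fun h' => h ((OpLe.empty_iff hc).2 h')

end MP5cA
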