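import Pool.Agent.Lib.MP_5c685b_co.A.Static

/-!
# Route A', pointwise estimates at good states (`pt_*`) and the one-step bound `Inv.i2`
-/

set_option autoImplicit false
set_option linter.unusedVariables false
set_option linter.unusedSectionVars false

open Finset

namespace MP5cA

attribute [local irreducible] Par.X Par.zeta Par.theta Par.eps

/-! ## numerical facts -/

namespace Par

variable (P : Par)

lemma pt_r_pos : 0 < (P.r : ℝ) := by rw [P.r_eq]; exact P.X_pos _

lemma pt_Lam_ge : 1 ≤ P.Lam := P.hLam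

lemma pt_y0_pos : 0 < P.y0 := by unfold y0; linarith [P.hLam]

lemma pt_y0_le : P.y0 ≤ 11 * P.Lam := by unfold y0; linarith [P.hLam]

lemma pt_thousand_le : (1000 : ℝ) ≤ P.x := by
  have := P.two_pow_le (k := 10) (by norm_num)
  linarith

lemma pt_X_neg_one : P.X (-1) ≤ 1 / 1000 := by
  rw [← P.X_inv 1, X_one]
  rw [one_div]
  exact inv_anti₀ (by norm_num) P.pt_thousand_le

lemma pt_X_le_small {k : ℤ} (h : k ≤ -1) : P.X k ≤ 1 / 1000 := (P.X_le h).trans P.pt_X_neg_one

lemma pt_eps_sq_le : P.eps ^ 2 ≤ P.X (-39999) := by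
  unfold eps
  rw [mul_pow, X_pow]
  have h : P.Lam ^ 2 ≤ P.x := by
    have := P.absorb (c := 1) (k := 0) (j := 2) (by norm_num) (by norm_num) (by norm_num)
    simpa using this
  exact P.mul_X_le h (by norm_num)

lemma pt_zeta_T_le {t : ℕ} (ht : t ≤ P.T) : P.zeta * t ≤ 5 * P.X 10000 := by
  rw [← P.zeta_T]
  exact mul_le_mul_of_nonneg_left (by exact_mod_cast ht) P.zeta_pos.le

lemma pt_zeta_t_nonneg (t : ℕ) : 0 ≤ P.zeta * t := mul_nonneg P.zeta_pos.le (Nat.cast_nonneg t)

lemma pt_sS_nonneg (t : ℕ) : 0 ≤ P.sS t := by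
  induction t with
  | zero => exact le_rfl
  | succ t ih =>
    have h1 := P.zeta_pos
    have h2 := P.pt_y0_pos
    have h3 := P.pt_r_pos
    have h4 := P.X_pos (-19600)
    unfold sS
    positivity

lemma pt_sS_le_succ (t : ℕ) : P.sS t ≤ P.sS (t + 1) := by
  have h0 := P.pt_sS_nonneg t
  have h1 := P.zeta_pos
  have h2 := P.pt_y0_pos
  have h3 := P.pt_r_pos
  have h4 := P.X_pos (-19600)
  show P.sS t ≤ P.sS t * (1 + P.zeta * (22 / 10) * P.y0 / P.r) + P.zeta * P.X (-19600)
  have h5 : 0 ≤ P.sS t * (P.zeta * (22 / 10) * P.y0 / P.r) := by positivity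
  have h6 : 0 ≤ P.zeta * P.X (-19600) := by positivity
  nlinarith

lemma pt_sS_mono {t t' : ℕ} (h : t ≤ t') : P.sS t ≤ P.sS t' :=
  monotone_nat_of_le_succ P.pt_sS_le_succ h

lemma pt_sS_le_aux (t : ℕ) : P.sS t ≤
    t * (P.zeta * P.X (-19600)) * (1 + P.zeta * (22 / 10) * P.y0 / P.r) ^ t := by
  have h1 := P.zeta_pos
  have h2 := P.pt_y0_pos
  have h3 := P.pt_r_pos
  have h4 := P.X_pos (-19600)
  set q : ℝ := 1 + P.zeta * (22 / 10) * P.y0 / P.r with hq
  have hq1 : 1 ≤ q := by
    rw [hq]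
    have : 0 ≤ P.zeta * (22 / 10) * P.y0 / P.r := by positivity
    linarith
  induction t with
  | zero => simp [sS]
  | succ t ih =>
    have hqt : 1 ≤ q ^ (t + 1) := one_le_pow₀ hq1
    have he : 0 ≤ P.zeta * P.X (-19600) := by positivity
    calc P.sS (t + 1) = P.sS t * q + P.zeta * P.X (-19600) := rfl
      _ ≤ (t * (P.zeta * P.X (-19600)) * q ^ t) * q + P.zeta * P.X (-19600) * q ^ (t + 1) := by
          have hA : P.sS t * q ≤ (t * (P.zeta * P.X (-19600)) * q ^ t) * q :=
            mul_le_mul_of_nonneg_right ih (by linarith)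
          have hB : P.zeta * P.X (-19600) ≤ P.zeta * P.X (-19600) * q ^ (t + 1) :=
            le_mul_of_one_le_right he hqt
          linarith
      _ = ((t + 1 : ℕ) : ℝ) * (P.zeta * P.X (-19600)) * q ^ (t + 1) := by
          push_cast; ring

lemma pt_sS {t : ℕ} (ht : t ≤ P.T) : P.sS t ≤ P.X (-9598) := by
  have h1 := P.zeta_pos
  have h2 := P.pt_y0_pos
  have h3 := P.pt_r_pos
  have h4 := P.X_pos (-19600)
  have hδ : 0 ≤ P.zeta * (22 / 10) * P.y0 / P.r := by positivity
  have hexp : (1 + P.zeta * (22 / 10) * P.y0 / P.r) ^ t ≤ P.x := by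
    calc (1 + P.zeta * (22 / 10) * P.y0 / P.r) ^ t
        ≤ (Real.exp (P.zeta * (22 / 10) * P.y0 / P.r)) ^ t := by
          gcongr
          rw [add_comm]
          exact Real.add_one_le_exp _
      _ = Real.exp (t * (P.zeta * (22 / 10) * P.y0 / P.r)) := by rw [Real.exp_nat_mul]
      _ ≤ Real.exp (121 * P.Lam) := by
          apply Real.exp_le_exp.2
          have h5 := P.pt_zeta_T_le ht
          rw [← P.r_eq] at h5
          have h6 : t * (P.zeta * (22 / 10) * P.y0 / P.r)
              = (22 / 10) * P.y0 * ((P.zeta * t) / P.r) := by field_simp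
          rw [h6]
          have h7 : (P.zeta * t) / P.r ≤ 5 := by
            rw [div_le_iff₀ h3]
            exact h5
          calc (22 / 10) * P.y0 * ((P.zeta * t) / P.r) ≤ (22 / 10) * (11 * P.Lam) * 5 := by
                have hL := P.hLam
                have hyy := P.pt_y0_le
                exact mul_le_mul (by linarith) h7 (div_nonneg (P.pt_zeta_t_nonneg t) h3.le)
                  (by linarith)
            _ = 121 * P.Lam := by ring
      _ ≤ P.x := P.exp_le (by norm_num)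
  calc P.sS t ≤ _ := P.pt_sS_le_aux t
    _ ≤ (t * (P.zeta * P.X (-19600))) * P.x := by gcongr
    _ = (P.zeta * t) * (P.X (-19600) * P.x) := by ring
    _ ≤ (5 * P.X 10000) * (P.X (-19600) * P.x) := by
        have := P.pt_zeta_T_le ht
        exact mul_le_mul_of_nonneg_right this (mul_nonneg h4.le P.hx0.le)
    _ = 5 * P.X (-9599) := by
        rw [← X_one]
        rw [show 5 * P.X 10000 * (P.X (-19600) * P.X 1)
          = 5 * (P.X 10000 * (P.X (-19600) * P.X 1)) by ring, X_mul, X_mul]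
        norm_num
    _ ≤ P.X (-9598) := P.mul_X_le (by linarith [P.pt_thousand_le]) (by norm_num)

lemma pt_Kp_nonneg : 0 ≤ P.Kp := by unfold Kp; linarith [P.hLam]

lemma pt_exp_Kp_le : Real.exp P.Kp ≤ P.x := by
  refine le_trans (Real.exp_le_exp.2 ?_) (P.exp_le (c := 67) (by norm_num))
  unfold Kp
  linarith [P.hLam]

lemma pt_lam_sq_le {c : ℝ} (hc : c ≤ 2 ^ 10) : c * P.Lam ^ 2 ≤ P.x :=
  P.absorb (c := c) (k := 10) (j := 2) hc (by norm_num) (by norm_num)

end Par

variable {V : Type} [Fintype V] [DecidableEq V] {P : Par}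

/-! ## static facts -/

namespace Amb

variable (A : Amb P V)

lemma pt_avlam (v : V) : av (fun y => A.lam v y) ≤ P.eps ^ 2 := A.av_lam v

lemma pt_avstrong (v : V) : av (fun y => ind (A.Strong v y)) ≤ P.X (-19958) := A.av_strong v

lemma pt_hh (v w : V) : av (fun y => A.hh v w y) ≤ P.X (-19957) := A.av_hh v w

end Amb

/-! ## bounds for `κ` -/

namespace KOK

variable {A : Amb P V} {κ : V → V → V → ℝ}

lemma pt_nonneg (hk : KOK A κ) (u v w : V) : 0 ≤ κ u v w := by
  by_cases h1 : A.H u v w ∨ ¬ Amb.D3 u v w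
  · rw [hk.kH u v w h1]
  · push Not at h1
    by_cases h2 : A.TT u v w
    · exact (Real.exp_pos _).le.trans (hk.kl u v w h2)
    · rw [hk.k1 u v w h1.2 h1.1 h2]
      norm_num

lemma pt_le_x (hk : KOK A κ) (u v w : V) : κ u v w ≤ P.x := by
  by_cases h1 : A.H u v w ∨ ¬ Amb.D3 u v w
  · rw [hk.kH u v w h1]
    exact P.hx0.le
  · push Not at h1
    by_cases h2 : A.TT u v w
    · exact (hk.ku u v w h2).trans P.pt_exp_Kp_le
    · rw [hk.k1 u v w h1.2 h1.1 h2]
      exact P.one_le_x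

/-- `|1 - κ| ≤ x hh` on distinct triples -/
lemma pt_abs_le (hk : KOK A κ) {u v w : V} (hd : Amb.D3 u v w) : |1 - κ u v w| ≤ P.x * A.hh u v w := by
  by_cases h1 : A.H u v w
  · rw [hk.kH u v w (Or.inl h1)]
    unfold Amb.hh
    rw [ind_pos (Or.inl h1)]
    simp only [sub_zero, abs_one, mul_one]
    exact P.one_le_x
  · by_cases h2 : A.TT u v w
    · unfold Amb.hh
      rw [ind_pos (Or.inr h2), mul_one, _root_.abs_le]
      have h3 := hk.pt_le_x u v w
      have h4 := hk.pt_nonneg u v w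
      have h5 := P.one_le_x
      constructor <;> linarith
    · rw [hk.k1 u v w hd h1 h2]
      simp only [sub_self, abs_zero]
      exact mul_nonneg P.hx0.le (A.hh_nonneg _ _ _)

end KOK

/-! ## pointwise estimates -/

namespace St

variable {A : Amb P V} {s : St V} {t : ℕ} {κ : V → V → V → ℝ}

lemma pt_bl_nonneg (v w : V) : 0 ≤ s.bl v w := ind_nonneg _

lemma pt_bl_le_one (v w : V) : s.bl v w ≤ 1 := ind_le_one _

lemma pt_aa_nonneg (v w : V) : 0 ≤ s.aa v w := mul_nonneg (abs_nonneg _) (ind_nonneg _)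

lemma pt_abs_al (v w : V) : |s.al v w| = s.bl v w + s.aa v w := by
  unfold al bl aa
  by_cases h : s.rho v w = 0
  · rw [ind_pos h, ind_neg (not_not.2 h), h]
    simp
  · rw [ind_neg h, ind_pos h]
    simp

lemma pt_bl_mul_aa (v w : V) : s.bl v w * s.aa v w = 0 := by
  unfold bl aa
  by_cases h : s.rho v w = 0
  · rw [ind_neg (not_not.2 h)]; simp
  · rw [ind_neg h]; simp

lemma pt_al_sq (v w : V) : s.al v w ^ 2 = s.bl v w + s.aa v w ^ 2 := by
  have h1 : s.al v w ^ 2 = |s.al v w| ^ 2 := (sq_abs _).symm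
  rw [h1, pt_abs_al]
  have h2 := s.pt_bl_mul_aa v w
  have h3 : s.bl v w ^ 2 = s.bl v w := ind_sq _
  nlinarith

lemma pt_rho_le_aa (v w : V) (h0 : 0 ≤ s.rho v w) : s.rho v w ≤ 1 + s.aa v w := by
  unfold aa
  by_cases h : s.rho v w = 0
  · rw [h, ind_neg (not_not.2 rfl)]
    norm_num
  · rw [ind_pos h, mul_one]
    have := neg_abs_le (1 - s.rho v w)
    linarith

lemma pt_aa_zero_of_rho {v w : V} (h : s.rho v w = 0) : s.aa v w = 0 := by
  unfold aa
  rw [ind_neg (not_not.2 h), mul_zero]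

/-- strong pairs -/
lemma pt_rho_strong (hI : s.Inv A t) (hG : s.Good A) (ht : t ≤ P.T) {v w : V} (hs : A.Strong v w) :
    s.rho v w ≤ P.x := by
  refine (hI.i1 v w hs).trans ?_
  refine le_trans (Real.exp_le_exp.2 ?_) (P.exp_le (c := 21000) (by norm_num))
  have h1 := hG.g5 v
  have h2 : P.zeta * t / P.r ≤ 5 := by
    rw [div_le_iff₀ P.pt_r_pos, P.r_eq]
    exact P.pt_zeta_T_le ht
  have h3 : P.Kp * s.cnt A v ≤ P.Kp * 300 := mul_le_mul_of_nonneg_left h1 P.pt_Kp_nonneg
  have h4 : P.Kp = 50 * P.Lam + 17 := rfl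
  have h5 := P.hLam
  nlinarith

lemma pt_aa_ns (hI : s.Inv A t) (ht : t ≤ P.T) {v w : V} (hs : ¬ A.Strong v w) :
    s.aa v w ≤ 1 / 100 := by
  have h1 := hI.i2 v w hs
  have h2 : A.lam v w ≤ P.X (-20040) := by
    unfold Amb.Strong Par.theta at hs
    push Not at hs
    exact hs.le
  have h3 : P.zeta * t * P.X 10006 * A.lam v w ≤ 5 * P.X (-34) := by
    calc P.zeta * t * P.X 10006 * A.lam v w ≤ (5 * P.X 10000) * P.X 10006 * P.X (-20040) := by
          have := P.pt_zeta_T_le ht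
          have h5 := P.X_pos 10006
          have h6 := P.X_pos 10000
          have h7 := P.pt_zeta_t_nonneg t
          gcongr
          exact A.lam_nonneg v w
      _ = 5 * P.X (-34) := by
          rw [mul_assoc 5, P.X_mul, mul_assoc 5, P.X_mul]
          norm_num
  have h4 : P.sS t ≤ 1 / 1000 := (P.pt_sS ht).trans (P.pt_X_le_small (by norm_num))
  have h5 : P.X (-34) ≤ 1 / 1000 := P.pt_X_le_small (by norm_num)
  linarith

lemma pt_rho_ns (hI : s.Inv A t) (ht : t ≤ P.T) {v w : V} (hs : ¬ A.Strong v w) :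
    s.rho v w ≤ 101 / 100 := by
  have h1 := s.pt_rho_le_aa v w (hI.nn v w)
  have h2 := pt_aa_ns hI ht hs
  linarith

lemma pt_rho_le (hI : s.Inv A t) (hG : s.Good A) (ht : t ≤ P.T) (v w : V) : s.rho v w ≤ P.x := by
  by_cases hs : A.Strong v w
  · exact pt_rho_strong hI hG ht hs
  · have := pt_rho_ns hI ht hs
    linarith [P.pt_thousand_le]

lemma pt_aa_x (hI : s.Inv A t) (hG : s.Good A) (ht : t ≤ P.T) (v w : V) : s.aa v w ≤ P.x := by
  unfold aa
  have h1 := pt_rho_le hI hG ht v w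
  have h2 := hI.nn v w
  have h3 := P.one_le_x
  have h4 : |1 - s.rho v w| ≤ P.x := by
    rw [abs_le]
    constructor <;> linarith
  calc |1 - s.rho v w| * ind (s.rho v w ≠ 0) ≤ |1 - s.rho v w| :=
        mul_le_of_le_one_right (abs_nonneg _) (ind_le_one _)
    _ ≤ P.x := h4

lemma pt_aa_le (hI : s.Inv A t) (hG : s.Good A) (ht : t ≤ P.T) (v w : V) :
    s.aa v w ≤ P.sS t + P.X 20042 * A.lam v w := by
  by_cases hs : A.Strong v w
  · have h1 := pt_aa_x hI hG ht v w
    have hs' := hs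
    unfold Amb.Strong Par.theta at hs'
    have h2 : P.X 20042 * P.X (-20040) ≤ P.X 20042 * A.lam v w :=
      mul_le_mul_of_nonneg_left hs' (P.X_pos _).le
    rw [P.X_mul] at h2
    have h3 : P.x ≤ P.X (20042 + -20040) := by
      rw [← P.X_one]
      exact P.X_le (by norm_num)
    have h4 := P.pt_sS_nonneg t
    linarith
  · have h1 := hI.i2 v w hs
    have h2 : P.zeta * t * P.X 10006 ≤ P.X 20042 := by
      calc P.zeta * t * P.X 10006 ≤ (5 * P.X 10000) * P.X 10006 := by
            have := P.pt_zeta_T_le ht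
            have h5 := P.X_pos 10006
            gcongr
        _ = 5 * P.X 20006 := by
            rw [mul_assoc, P.X_mul]; norm_num
        _ ≤ P.X 20042 := P.mul_X_le (by linarith [P.pt_thousand_le]) (by norm_num)
    have h3 := mul_le_mul_of_nonneg_right h2 (A.lam_nonneg v w)
    linarith

lemma pt_R_le (hG : s.Good A) (v : V) : s.R v ≤ P.x := hG.g1 v

/-- `bl` against `bp` -/
lemma pt_R_bl_le (hI : s.Inv A t) {v : V} (hv : v ∉ s.F) (y : V) :
    s.R y * s.bl v y ≤ s.R y * s.bp A v y + s.R y * ind (y = v) := by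
  have hR := hI.Rn y
  by_cases hy : y ∈ s.F
  · rw [hI.RF y hy]
    simp
  · by_cases hyv : y = v
    · rw [ind_pos hyv]
      have h1 := s.pt_bl_le_one v y
      have h2 : 0 ≤ s.bp A v y := ind_nonneg _
      nlinarith
    · have h1 : s.bl v y = s.bp A v y := ind_congr (hI.bk v y hv hy (Ne.symm hyv))
      rw [h1]
      have := mul_nonneg hR (ind_nonneg (y = v))
      linarith

lemma pt_X_card (A : Amb P V) {a : ℝ} (ha : a ≤ P.x) : a / (Fintype.card V : ℝ) ≤ P.X (-199999) := by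
  rw [A.card_eq, div_eq_mul_inv, P.X_inv]
  calc a * P.X (-200000) ≤ P.x * P.X (-200000) := mul_le_mul_of_nonneg_right ha (P.X_pos _).le
    _ = P.X (-199999) := by
        rw [← P.X_one, P.X_mul]; norm_num

lemma pt_bl2 (hI : s.Inv A t) (hG : s.Good A) {v : V} (hv : v ∉ s.F) :
    av (fun y => s.R y * s.bl v y) ≤ P.y0 / P.r := by
  have h1 : av (fun y => s.R y * s.bl v y) ≤ s.Yp A v + s.R v / (Fintype.card V : ℝ) := by
    rw [← av_mul_ind_eq v s.R]
    unfold Yp
    rw [← av_add]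
    exact av_mono fun y => pt_R_bl_le hI hv y
  have h2 := hG.g3 v
  have h3 := pt_X_card A (hG.g1 v)
  have h4 : P.X (-199999) ≤ 1 / 2 / P.r := by
    rw [P.r_eq, div_eq_mul_inv, P.X_inv]
    calc P.X (-199999) = P.X (-1) * P.X (-199998) := by rw [P.X_mul]; norm_num
      _ ≤ (1 / 1000) * P.X (-199998) := mul_le_mul_of_nonneg_right P.pt_X_neg_one (P.X_pos _).le
      _ ≤ (1 / 2) * P.X (-10000) := by
          have h5 := P.X_le (a := -199998) (b := -10000) (by norm_num)
          have h6 := P.X_pos (-199998)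
          linarith
  have h5 : (P.y0 - 1 / 2) / P.r + 1 / 2 / P.r = P.y0 / P.r := by
    rw [← add_div]; ring
  linarith

/-- `bl` is at most the indicator of `F`, of the diagonal, plus the sum of the `h`. -/
lemma pt_bl_le_sum (hI : s.Inv A t) {v : V} (hv : v ∉ s.F) (y : V) :
    s.bl v y ≤ ind (y ∈ s.F) + ind (y = v) + ∑ u ∈ s.F, A.h u v y := by
  have h0 : 0 ≤ ∑ u ∈ s.F, A.h u v y := Finset.sum_nonneg fun u _ => A.h_nonneg _ _ _
  have h1 := s.pt_bl_le_one v y
  have h2 := ind_nonneg (y ∈ s.F)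
  have h3 := ind_nonneg (y = v)
  by_cases hy : y ∈ s.F
  · rw [ind_pos hy]; linarith
  · by_cases hyv : y = v
    · rw [ind_pos hyv]; linarith
    · have h4 : s.bl v y = s.bp A v y := ind_congr (hI.bk v y hv hy (Ne.symm hyv))
      rw [h4]
      unfold bp
      by_cases hex : ∃ u ∈ s.F, A.H u v y
      · rw [ind_pos hex]
        obtain ⟨u, hu, huH⟩ := hex
        have h5 : A.h u v y ≤ ∑ u ∈ s.F, A.h u v y :=
          Finset.single_le_sum (f := fun u => A.h u v y) (fun u _ => A.h_nonneg _ _ _) hu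
        have h6 : A.h u v y = 1 := ind_pos huH
        linarith
      · rw [ind_neg hex]; linarith

lemma pt_avbl (hI : s.Inv A t) (hG : s.Good A) {v : V} (hv : v ∉ s.F) :
    av (fun y => s.bl v y) ≤ P.X (-9997) := by
  have h1 : av (fun y => s.bl v y) ≤ (s.F.card : ℝ) / (Fintype.card V : ℝ) + 1 / (Fintype.card V : ℝ)
      + (s.F.card : ℝ) * P.eps := by
    calc av (fun y => s.bl v y)
        ≤ av (fun y => ind (y ∈ s.F) + ind (y = v) + ∑ u ∈ s.F, A.h u v y) :=
          av_mono fun y => pt_bl_le_sum hI hv y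
      _ = av (fun y => ind (y ∈ s.F)) + av (fun y => ind (y = v)) + ∑ u ∈ s.F, av (fun y => A.h u v y) := by
          rw [av_add, av_add, av_sum]
      _ ≤ _ := by
          rw [av_ind_mem, av_ind_eq]
          gcongr
          calc ∑ u ∈ s.F, av (fun y => A.h u v y) ≤ ∑ _u ∈ s.F, P.eps :=
                Finset.sum_le_sum fun u _ => A.deg u v
            _ = (s.F.card : ℝ) * P.eps := by rw [Finset.sum_const, nsmul_eq_mul]
  have hF := hG.g2
  have hn := A.card_eq
  have h2 : (s.F.card : ℝ) / (Fintype.card V : ℝ) ≤ P.X (-9998) := by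
    rw [hn, div_eq_mul_inv, P.X_inv]
    calc (s.F.card : ℝ) * P.X (-200000) ≤ P.X 10002 * P.X (-200000) :=
          mul_le_mul_of_nonneg_right hF (P.X_pos _).le
      _ = P.X (-189998) := by rw [P.X_mul]; norm_num
      _ ≤ P.X (-9998) := P.X_le (by norm_num)
  have h3 : 1 / (Fintype.card V : ℝ) ≤ P.X (-9998) := by
    have h4 := pt_X_card A P.one_le_x
    exact h4.trans (P.X_le (by norm_num))
  have h4 : (s.F.card : ℝ) * P.eps ≤ P.Lam * P.X (-9998) := by
    calc (s.F.card : ℝ) * P.eps ≤ P.X 10002 * P.eps := mul_le_mul_of_nonneg_right hF P.eps_pos.le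
      _ = P.Lam * (P.X 10002 * P.X (-20000)) := by unfold Par.eps; ring
      _ = P.Lam * P.X (-9998) := by rw [P.X_mul]; norm_num
  calc av (fun y => s.bl v y) ≤ P.X (-9998) + P.X (-9998) + P.Lam * P.X (-9998) := by linarith
    _ ≤ (3 * P.Lam) * P.X (-9998) := by
        have h5 := P.X_pos (-9998)
        have h6 := P.hLam
        nlinarith
    _ ≤ P.X (-9997) := by
        refine P.mul_X_le ?_ (by norm_num)
        have := P.absorb (c := 3) (k := 2) (j := 1) (by norm_num) (by norm_num) (by norm_num)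
        simpa using this

lemma pt_aa2 (hI : s.Inv A t) (hG : s.Good A) (ht : t ≤ P.T) {v : V} (hv : v ∉ s.F) :
    av (fun y => s.aa v y ^ 2) ≤ P.X (-9884) ^ 2 := by
  have h1 : ∀ y, s.aa v y ^ 2 ≤ ind (¬ A.Strong v y) * s.aa v y ^ 2 + P.x ^ 2 * ind (A.Strong v y) := by
    intro y
    by_cases hs : A.Strong v y
    · rw [ind_pos hs, ind_neg (not_not.2 hs)]
      have := pt_aa_x hI hG ht v y
      have h0 := s.pt_aa_nonneg v y
      nlinarith
    · rw [ind_neg hs, ind_pos hs]
      simp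
  have h2 : av (fun y => s.aa v y ^ 2) ≤ (P.zeta * t * P.X (-19886)) ^ 2 + P.x ^ 2 * P.X (-19958) := by
    calc av (fun y => s.aa v y ^ 2)
        ≤ av (fun y => ind (¬ A.Strong v y) * s.aa v y ^ 2 + P.x ^ 2 * ind (A.Strong v y)) :=
          av_mono h1
      _ = av (fun y => ind (¬ A.Strong v y) * s.aa v y ^ 2) + P.x ^ 2 * av (fun y => ind (A.Strong v y)) := by
          rw [av_add, av_mul_left]
      _ ≤ _ := add_le_add (hI.i3 v hv) (mul_le_mul_of_nonneg_left (A.pt_avstrong v) (by positivity))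
  have h3 : P.zeta * t * P.X (-19886) ≤ P.X (-9885) := by
    calc P.zeta * t * P.X (-19886) ≤ (5 * P.X 10000) * P.X (-19886) :=
          mul_le_mul_of_nonneg_right (P.pt_zeta_T_le ht) (P.X_pos _).le
      _ = 5 * P.X (-9886) := by rw [mul_assoc, P.X_mul]; norm_num
      _ ≤ P.X (-9885) := P.mul_X_le (by linarith [P.pt_thousand_le]) (by norm_num)
  have h4 : (P.zeta * t * P.X (-19886)) ^ 2 ≤ P.X (-9885) ^ 2 := by
    have h5 := P.pt_zeta_t_nonneg t
    have h6 := P.X_pos (-19886)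
    gcongr
  have h5 : P.x ^ 2 * P.X (-19958) = P.X (-19956) := by
    rw [← P.X_one, P.X_pow, P.X_mul]; norm_num
  calc av (fun y => s.aa v y ^ 2) ≤ P.X (-9885) ^ 2 + P.X (-19956) := by linarith
    _ ≤ P.X (-19770) + P.X (-19770) := by
        rw [P.X_pow]
        have h6 := P.X_le (a := -19956) (b := -19770) (by norm_num)
        norm_num
        exact h6
    _ = 2 * P.X (-19770) := by ring
    _ ≤ P.X (-19768) := P.mul_X_le (by linarith [P.pt_thousand_le]) (by norm_num)
    _ = P.X (-9884) ^ 2 := by rw [P.X_pow]; norm_num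

lemma pt_avaa (hI : s.Inv A t) (hG : s.Good A) (ht : t ≤ P.T) {v : V} (hv : v ∉ s.F) :
    av (fun y => s.aa v y) ≤ P.X (-9884) := by
  haveI := A.nonempty
  exact av_le_of_sq (P.X_pos _).le (pt_aa2 hI hG ht hv)

lemma pt_al2 (hI : s.Inv A t) (hG : s.Good A) (ht : t ≤ P.T) {v : V} (hv : v ∉ s.F) :
    av (fun y => s.al v y ^ 2) ≤ P.X (-4998) ^ 2 := by
  calc av (fun y => s.al v y ^ 2) = av (fun y => s.bl v y) + av (fun y => s.aa v y ^ 2) := by
        rw [← av_add]; exact av_congr fun y => s.pt_al_sq v y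
    _ ≤ P.X (-9997) + P.X (-9884) ^ 2 := add_le_add (pt_avbl hI hG hv) (pt_aa2 hI hG ht hv)
    _ ≤ P.X (-9997) + P.X (-9997) := by
        rw [P.X_pow]
        have := P.X_le (a := -9884 * ((2 : ℕ) : ℤ)) (b := -9997) (by norm_num)
        linarith
    _ = 2 * P.X (-9997) := by ring
    _ ≤ P.X (-9996) := P.mul_X_le (by linarith [P.pt_thousand_le]) (by norm_num)
    _ = P.X (-4998) ^ 2 := by rw [P.X_pow]; norm_num

lemma pt_aval (hI : s.Inv A t) (hG : s.Good A) (ht : t ≤ P.T) {v : V} (hv : v ∉ s.F) :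
    av (fun y => |s.al v y|) ≤ P.X (-9883) := by
  calc av (fun y => |s.al v y|) = av (fun y => s.bl v y) + av (fun y => s.aa v y) := by
        rw [← av_add]; exact av_congr fun y => s.pt_abs_al v y
    _ ≤ P.X (-9997) + P.X (-9884) := add_le_add (pt_avbl hI hG hv) (pt_avaa hI hG ht hv)
    _ ≤ P.X (-9884) + P.X (-9884) := by
        have := P.X_le (a := -9997) (b := -9884) (by norm_num)
        linarith
    _ = 2 * P.X (-9884) := by ring
    _ ≤ P.X (-9883) := P.mul_X_le (by linarith [P.pt_thousand_le]) (by norm_num)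

lemma pt_bb (hI : s.Inv A t) (hG : s.Good A) {v w : V} (hv : v ∉ s.F) (hw : w ∉ s.F)
    (hvw : v ≠ w) : av (fun y => s.R y * (s.bl v y * s.bl w y)) ≤
      P.X (-19992) + P.X 10005 * A.lam v w := by
  have h1 : ∀ y, s.R y * (s.bl v y * s.bl w y) ≤ P.x * (s.bp A v y * s.bp A w y)
      + s.R y * ind (y = v) + s.R y * ind (y = w) := by
    intro y
    have hR := hI.Rn y
    have b1 := s.pt_bl_nonneg v y
    have b2 := s.pt_bl_nonneg w y
    have b3 := s.pt_bl_le_one v y
    have b4 := s.pt_bl_le_one w y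
    have c1 : 0 ≤ s.bp A v y := ind_nonneg _
    have c2 : 0 ≤ s.bp A w y := ind_nonneg _
    have c3 : 0 ≤ P.x * (s.bp A v y * s.bp A w y) := mul_nonneg P.hx0.le (mul_nonneg c1 c2)
    have d1 := mul_nonneg hR (ind_nonneg (y = v))
    have d2 := mul_nonneg hR (ind_nonneg (y = w))
    by_cases hy : y ∈ s.F
    · rw [hI.RF y hy] at *
      simp only [zero_mul] at *
      linarith
    · by_cases hyv : y = v
      · rw [ind_pos hyv]
        have : s.R y * (s.bl v y * s.bl w y) ≤ s.R y * 1 :=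
          mul_le_mul_of_nonneg_left (mul_le_one₀ b3 b2 b4) hR
        linarith
      · by_cases hyw : y = w
        · rw [ind_pos hyw]
          have : s.R y * (s.bl v y * s.bl w y) ≤ s.R y * 1 :=
            mul_le_mul_of_nonneg_left (mul_le_one₀ b3 b2 b4) hR
          linarith
        · have e1 : s.bl v y = s.bp A v y := ind_congr (hI.bk v y hv hy (Ne.symm hyv))
          have e2 : s.bl w y = s.bp A w y := ind_congr (hI.bk w y hw hy (Ne.symm hyw))
          rw [e1, e2]
          have : s.R y * (s.bp A v y * s.bp A w y) ≤ P.x * (s.bp A v y * s.bp A w y) :=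
            mul_le_mul_of_nonneg_right (hG.g1 y) (mul_nonneg c1 c2)
          linarith
  calc av (fun y => s.R y * (s.bl v y * s.bl w y))
      ≤ av (fun y => P.x * (s.bp A v y * s.bp A w y) + s.R y * ind (y = v) + s.R y * ind (y = w)) :=
        av_mono h1
    _ = P.x * s.VV A v w + s.R v / (Fintype.card V : ℝ) + s.R w / (Fintype.card V : ℝ) := by
        rw [av_add, av_add, av_mul_left, av_mul_ind_eq, av_mul_ind_eq]
        rfl
    _ ≤ P.x * (P.X (-19994) + P.X 10004 * A.lam v w) + P.X (-199999) + P.X (-199999) :=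
        add_le_add (add_le_add (mul_le_mul_of_nonneg_left (hG.g4 v w hvw) P.hx0.le)
          (pt_X_card A (hG.g1 v))) (pt_X_card A (hG.g1 w))
    _ = P.X (-19993) + P.X 10005 * A.lam v w + P.X (-199999) + P.X (-199999) := by
        rw [mul_add, ← mul_assoc, ← P.X_one, P.X_mul, P.X_mul]
        norm_num
    _ ≤ 3 * P.X (-19993) + P.X 10005 * A.lam v w := by
        have := P.X_le (a := -199999) (b := -19993) (by norm_num)
        linarith
    _ ≤ P.X (-19992) + P.X 10005 * A.lam v w := by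
        have := P.mul_X_le (c := 3) (a := -19993) (b := -19992) (by linarith [P.pt_thousand_le])
          (by norm_num)
        linarith

lemma pt_ba (hI : s.Inv A t) (hG : s.Good A) (ht : t ≤ P.T) {v : V} (hv : v ∉ s.F) (w : V) :
    av (fun y => s.R y * (s.bl v y * s.aa w y)) ≤ P.sS t * P.y0 / P.r + P.X (-19955) := by
  have h1 : ∀ y, s.R y * (s.bl v y * s.aa w y) ≤ P.sS t * (s.R y * s.bl v y)
      + P.X 20043 * A.lam w y := by
    intro y
    have hR := hI.Rn y
    have b1 := s.pt_bl_nonneg v y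
    have b3 := s.pt_bl_le_one v y
    have h2 := pt_aa_le hI hG ht w y
    have h3 : s.R y * (s.bl v y * s.aa w y) ≤ s.R y * (s.bl v y * (P.sS t + P.X 20042 * A.lam w y)) := by
      gcongr
    have h4 : s.R y * s.bl v y ≤ P.x := by
      calc s.R y * s.bl v y ≤ s.R y * 1 := mul_le_mul_of_nonneg_left b3 hR
        _ ≤ P.x := by rw [mul_one]; exact hG.g1 y
    have h5 : 0 ≤ P.X 20042 * A.lam w y := mul_nonneg (P.X_pos _).le (A.lam_nonneg _ _)
    have h6 : P.x * (P.X 20042 * A.lam w y) = P.X 20043 * A.lam w y := by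
      rw [← mul_assoc, ← P.X_one, P.X_mul]; norm_num
    calc s.R y * (s.bl v y * s.aa w y) ≤ _ := h3
      _ = P.sS t * (s.R y * s.bl v y) + (s.R y * s.bl v y) * (P.X 20042 * A.lam w y) := by ring
      _ ≤ P.sS t * (s.R y * s.bl v y) + P.x * (P.X 20042 * A.lam w y) := by gcongr
      _ = _ := by rw [h6]
  calc av (fun y => s.R y * (s.bl v y * s.aa w y))
      ≤ av (fun y => P.sS t * (s.R y * s.bl v y) + P.X 20043 * A.lam w y) := av_mono h1
    _ = P.sS t * av (fun y => s.R y * s.bl v y) + P.X 20043 * av (fun y => A.lam w y) := by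
        rw [av_add, av_mul_left, av_mul_left]
    _ ≤ P.sS t * (P.y0 / P.r) + P.X 20043 * P.X (-39999) :=
        add_le_add (mul_le_mul_of_nonneg_left (pt_bl2 hI hG hv) (P.pt_sS_nonneg t))
          (mul_le_mul_of_nonneg_left ((A.pt_avlam w).trans P.pt_eps_sq_le) (P.X_pos _).le)
    _ ≤ P.sS t * P.y0 / P.r + P.X (-19955) := by
        rw [P.X_mul, mul_div_assoc]
        have := P.X_le (a := 20043 + -39999) (b := -19955) (by norm_num)
        exact add_le_add le_rfl this

lemma pt_aa_mul (hI : s.Inv A t) (hG : s.Good A) (ht : t ≤ P.T) {v w : V} (hv : v ∉ s.F)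
    (hw : w ∉ s.F) : av (fun y => s.R y * (s.aa v y * s.aa w y)) ≤ P.X (-19767) := by
  have h1 : av (fun y => s.aa v y * s.aa w y) ≤ P.X (-9884) * P.X (-9884) :=
    av_mul_le (P.X_pos _).le (P.X_pos _).le (pt_aa2 hI hG ht hv) (pt_aa2 hI hG ht hw)
  calc av (fun y => s.R y * (s.aa v y * s.aa w y)) ≤ av (fun y => P.x * (s.aa v y * s.aa w y)) :=
        av_mono fun y => mul_le_mul_of_nonneg_right (hG.g1 y)
          (mul_nonneg (s.pt_aa_nonneg v y) (s.pt_aa_nonneg w y))
    _ = P.x * av (fun y => s.aa v y * s.aa w y) := av_mul_left _ _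
    _ ≤ P.x * (P.X (-9884) * P.X (-9884)) := mul_le_mul_of_nonneg_left h1 P.hx0.le
    _ = P.X (-19767) := by
        rw [← P.X_one, P.X_mul, P.X_mul]; norm_num

lemma pt_DD_pair (hI : s.Inv A t) (hG : s.Good A) (ht : t ≤ P.T) {v w : V} (hv : v ∉ s.F)
    (hw : w ∉ s.F) : av (fun y => s.R y * (s.bl v y * s.aa w y + s.aa v y * s.bl w y
      + s.aa v y * s.aa w y)) ≤ 2 * P.sS t * P.y0 / P.r + P.X (-19762) := by
  have h1 := pt_ba hI hG ht hv w
  have h2 := pt_ba hI hG ht hw v
  have h3 := pt_aa_mul hI hG ht hv hw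
  have h4 : av (fun y => s.R y * (s.bl v y * s.aa w y + s.aa v y * s.bl w y
      + s.aa v y * s.aa w y)) = av (fun y => s.R y * (s.bl v y * s.aa w y))
      + av (fun y => s.R y * (s.bl w y * s.aa v y)) + av (fun y => s.R y * (s.aa v y * s.aa w y)) := by
    rw [← av_add, ← av_add]
    exact av_congr fun y => by ring
  rw [h4]
  have h5 : P.X (-19955) ≤ P.X (-19767) := P.X_le (by norm_num)
  have h6 : 3 * P.X (-19767) ≤ P.X (-19762) :=
    P.mul_X_le (by linarith [P.pt_thousand_le]) (by norm_num)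
  have h7 : 2 * P.sS t * P.y0 / P.r = P.sS t * P.y0 / P.r + P.sS t * P.y0 / P.r := by ring
  rw [h7]
  linarith

/-- upper bound for `DD` -/
lemma pt_DD (hI : s.Inv A t) (hG : s.Good A) (ht : t ≤ P.T) {v w : V} (hv : v ∉ s.F)
    (hw : w ∉ s.F) (hvw : v ≠ w) :
    |s.DD v w| ≤ 2 * P.sS t * P.y0 / P.r + P.X (-19760) + P.X 10005 * A.lam v w := by
  have h1 : |s.DD v w| ≤ av (fun y => s.R y * (s.bl v y * s.bl w y))
      + av (fun y => s.R y * (s.bl v y * s.aa w y + s.aa v y * s.bl w y + s.aa v y * s.aa w y)) := by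
    rw [← av_add]
    refine (abs_av_le _).trans (av_mono fun y => ?_)
    rw [abs_mul, abs_mul, abs_of_nonneg (hI.Rn y), pt_abs_al, pt_abs_al]
    apply le_of_eq
    ring
  have h2 := pt_bb hI hG hv hw hvw
  have h3 := pt_DD_pair hI hG ht hv hw
  have h5 : P.X (-19992) ≤ P.X (-19762) := P.X_le (by norm_num)
  have h6 : 2 * P.X (-19762) ≤ P.X (-19760) :=
    P.mul_X_le (by linarith [P.pt_thousand_le]) (by norm_num)
  linarith

/-- lower bound for `DD` -/
lemma pt_DD_ge (hI : s.Inv A t) (hG : s.Good A) (ht : t ≤ P.T) {v w : V} (hv : v ∉ s.F)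
    (hw : w ∉ s.F) : - (2 * P.sS t * P.y0 / P.r + P.X (-19760)) ≤ s.DD v w := by
  have h1 : - av (fun y => s.R y * (s.bl v y * s.aa w y + s.aa v y * s.bl w y
      + s.aa v y * s.aa w y)) ≤ s.DD v w := by
    rw [neg_le_iff_add_nonneg]
    unfold DD
    rw [← av_add]
    refine av_nonneg fun y => ?_
    have hR := hI.Rn y
    have key : 0 ≤ s.al v y * s.al w y + (s.bl v y * s.aa w y + s.aa v y * s.bl w y
        + s.aa v y * s.aa w y) := by
      have a1 := s.pt_aa_nonneg v y
      have a2 := s.pt_aa_nonneg w y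
      have b1 := s.pt_bl_nonneg v y
      have b2 := s.pt_bl_nonneg w y
      by_cases hp : s.rho v y = 0
      · by_cases hq : s.rho w y = 0
        · have e1 : s.al v y = 1 := by unfold al; rw [hp]; norm_num
          have e2 : s.al w y = 1 := by unfold al; rw [hq]; norm_num
          rw [e1, e2]
          positivity
        · have e1 : s.al v y = 1 := by unfold al; rw [hp]; norm_num
          have e3 : s.bl v y = 1 := ind_pos hp
          have e4 : |s.al w y| = s.aa w y := by
            rw [pt_abs_al]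
            have : s.bl w y = 0 := ind_neg hq
            rw [this, zero_add]
          have e5 := neg_abs_le (s.al w y)
          rw [e1, e3]
          nlinarith [mul_nonneg a1 b2, mul_nonneg a1 a2]
      · by_cases hq : s.rho w y = 0
        · have e1 : s.al w y = 1 := by unfold al; rw [hq]; norm_num
          have e3 : s.bl w y = 1 := ind_pos hq
          have e4 : |s.al v y| = s.aa v y := by
            rw [pt_abs_al]
            have : s.bl v y = 0 := ind_neg hp
            rw [this, zero_add]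
          have e5 := neg_abs_le (s.al v y)
          rw [e1, e3]
          nlinarith [mul_nonneg b1 a2, mul_nonneg a1 a2]
        · have e3 : |s.al w y| = s.aa w y := by
            rw [pt_abs_al]
            have : s.bl w y = 0 := ind_neg hq
            rw [this, zero_add]
          have e4 : |s.al v y| = s.aa v y := by
            rw [pt_abs_al]
            have : s.bl v y = 0 := ind_neg hp
            rw [this, zero_add]
          have e5 := neg_abs_le (s.al v y * s.al w y)
          rw [abs_mul, e3, e4] at e5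
          nlinarith [mul_nonneg b1 a2, mul_nonneg a1 b2]
    have h3 := mul_nonneg hR key
    calc (0 : ℝ) ≤ _ := h3
      _ = _ := by ring
  have h3 := pt_DD_pair hI hG ht hv hw
  have h6 : P.X (-19762) ≤ P.X (-19760) := P.X_le (by norm_num)
  linarith

/-- bound for `gg` -/
lemma pt_gg (hI : s.Inv A t) (hG : s.Good A) (ht : t ≤ P.T) (hk : KOK A κ) {v w : V}
    (hvw : v ≠ w) : |s.gg κ v w| ≤ P.X (-19953) := by
  have h1 : ∀ y, |s.R y * s.rho v y * s.rho w y * (1 - κ v w y)| ≤ P.X 4 * A.hh v w y := by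
    intro y
    have hh0 := A.hh_nonneg v w y
    by_cases hd : Amb.D3 v w y
    · have a1 := hk.pt_abs_le hd
      have a2 := pt_rho_le hI hG ht v y
      have a3 := pt_rho_le hI hG ht w y
      have a4 := hG.g1 y
      have b1 := hI.Rn y
      have b2 := hI.nn v y
      have b3 := hI.nn w y
      have hx := P.hx0.le
      rw [abs_mul, abs_mul, abs_mul, abs_of_nonneg b1, abs_of_nonneg b2, abs_of_nonneg b3]
      calc s.R y * s.rho v y * s.rho w y * |1 - κ v w y| ≤ P.x * P.x * P.x * (P.x * A.hh v w y) := by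
            gcongr
        _ = P.X 4 * A.hh v w y := by
            have : P.X 4 = P.x * P.x * P.x * P.x := by
              rw [← P.X_one, P.X_mul, P.X_mul, P.X_mul]; norm_num
            rw [this]; ring
    · have hz : s.rho v y * s.rho w y = 0 := by
        unfold Amb.D3 at hd
        by_cases h1 : v = y
        · rw [← h1, hI.rd v, zero_mul]
        · by_cases h2 : w = y
          · rw [← h2, hI.rd w, mul_zero]
          · exact absurd ⟨hvw, h1, h2⟩ hd
      rw [mul_assoc (s.R y), hz, mul_zero, zero_mul, abs_zero]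
      exact mul_nonneg (P.X_pos _).le hh0
  calc |s.gg κ v w| ≤ av (fun y => |s.R y * s.rho v y * s.rho w y * (1 - κ v w y)|) := abs_av_le _
    _ ≤ av (fun y => P.X 4 * A.hh v w y) := av_mono h1
    _ = P.X 4 * av (fun y => A.hh v w y) := av_mul_left _ _
    _ ≤ P.X 4 * P.X (-19957) := mul_le_mul_of_nonneg_left (A.pt_hh v w) (P.X_pos _).le
    _ = P.X (-19953) := by rw [P.X_mul]; norm_num

/-! ## the factor of the empty slot -/

lemma pt_quot_bound {a b c d δ : ℝ} (ha : |a| ≤ δ) (hb : |b| ≤ δ) (hc : |c| ≤ δ) (hd : |d| ≤ δ)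
    (hδ : δ ≤ 1 / 4) :
    |(1 - a) * (1 - b) / ((1 - c) * (1 - d)) - 1 + (a + b - c - d)| ≤ 40 * δ ^ 2 := by
  have hδ0 : 0 ≤ δ := (abs_nonneg a).trans ha
  have hc1 : 3 / 4 ≤ 1 - c := by linarith [le_abs_self c]
  have hd1 : 3 / 4 ≤ 1 - d := by linarith [le_abs_self d]
  have hden : 9 / 16 ≤ (1 - c) * (1 - d) := by nlinarith
  have hpos : 0 < (1 - c) * (1 - d) := by linarith
  have heq : (1 - a) * (1 - b) / ((1 - c) * (1 - d)) - 1 + (a + b - c - d)
      = (a * b - c * d - (a + b - c - d) * (c + d - c * d)) / ((1 - c) * (1 - d)) := by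
    field_simp
    ring
  rw [heq, abs_div, abs_of_pos hpos, div_le_iff₀ hpos]
  have h1 : |a * b| ≤ δ ^ 2 := by
    rw [abs_mul, sq]
    exact mul_le_mul ha hb (abs_nonneg _) hδ0
  have h2 : |c * d| ≤ δ ^ 2 := by
    rw [abs_mul, sq]
    exact mul_le_mul hc hd (abs_nonneg _) hδ0
  have h3 : |a + b - c - d| ≤ 4 * δ := by
    have e1 := abs_le.mp ha
    have e2 := abs_le.mp hb
    have e3 := abs_le.mp hc
    have e4 := abs_le.mp hd
    rw [abs_le]
    constructor <;> linarith
  have h4 : |c + d - c * d| ≤ 3 * δ := by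
    have e3 := abs_le.mp hc
    have e4 := abs_le.mp hd
    have e5 := abs_le.mp h2
    have e6 : δ ^ 2 ≤ δ := by nlinarith
    rw [abs_le]
    constructor <;> linarith
  have h5 : |(a + b - c - d) * (c + d - c * d)| ≤ 12 * δ ^ 2 := by
    rw [abs_mul]
    calc |a + b - c - d| * |c + d - c * d| ≤ (4 * δ) * (3 * δ) :=
          mul_le_mul h3 h4 (abs_nonneg _) (by linarith)
      _ = 12 * δ ^ 2 := by ring
  have h6 : |a * b - c * d - (a + b - c - d) * (c + d - c * d)| ≤ 14 * δ ^ 2 := by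
    have e1 := abs_le.mp h1
    have e2 := abs_le.mp h2
    have e3 := abs_le.mp h5
    rw [abs_le]
    constructor <;> linarith
  nlinarith [sq_nonneg δ]

/-- the factor of `rho v w` in an empty slot -/
noncomputable def cf (P : Par) (κ : V → V → V → ℝ) (s : St V) (v w : V) : ℝ :=
  ((1 - P.zeta * s.m2 κ v w) * (1 - P.zeta * s.m0)) / ((1 - P.zeta * s.m1 v) * (1 - P.zeta * s.m1 w))

lemma pt_skip_rho (v w : V) : (s.skip P κ).rho v w = s.rho v w * cf P κ s v w := by
  unfold skip cf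
  simp only
  rw [mul_div_assoc]

lemma pt_m0_le (hI : s.Inv A t) (hG : s.Good A) : 0 ≤ s.m0 ∧ s.m0 ≤ P.X 1 := by
  refine ⟨av_nonneg hI.Rn, ?_⟩
  rw [P.X_one]
  exact av_le_const P.hx0.le hG.g1

lemma pt_m1_le (hI : s.Inv A t) (hG : s.Good A) (ht : t ≤ P.T) (v : V) :
    0 ≤ s.m1 v ∧ s.m1 v ≤ P.X 2 := by
  refine ⟨av_nonneg fun y => mul_nonneg (hI.Rn y) (hI.nn v y), ?_⟩
  refine av_le_const (P.X_pos _).le fun y => ?_
  have : P.X 2 = P.x * P.x := by rw [← P.X_one, P.X_mul]; norm_num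
  rw [this]
  exact mul_le_mul (hG.g1 y) (pt_rho_le hI hG ht v y) (hI.nn v y) P.hx0.le

lemma pt_m2_le (hI : s.Inv A t) (hG : s.Good A) (ht : t ≤ P.T) (hk : KOK A κ) (v w : V) :
    0 ≤ s.m2 κ v w ∧ s.m2 κ v w ≤ P.X 4 := by
  refine ⟨av_nonneg fun y => mul_nonneg (mul_nonneg (mul_nonneg (hI.Rn y) (hI.nn v y))
    (hI.nn w y)) (hk.pt_nonneg _ _ _), ?_⟩
  refine av_le_const (P.X_pos _).le fun y => ?_
  have : P.X 4 = P.x * P.x * P.x * P.x := by
    rw [← P.X_one, P.X_mul, P.X_mul, P.X_mul]; norm_num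
  rw [this]
  have hx := P.hx0.le
  exact mul_le_mul (mul_le_mul (mul_le_mul (hG.g1 y) (pt_rho_le hI hG ht v y) (hI.nn v y) hx)
    (pt_rho_le hI hG ht w y) (hI.nn w y) (by positivity)) (hk.pt_le_x _ _ _) (hk.pt_nonneg _ _ _)
    (by positivity)

lemma pt_DD_sub_gg (v w : V) : s.DD v w - s.gg κ v w = s.m0 - s.m1 v - s.m1 w + s.m2 κ v w := by
  unfold DD gg m0 m1 m2 al
  rw [← av_sub, ← av_sub, ← av_sub, ← av_add]
  exact av_congr fun y => by ring

lemma pt_c (hI : s.Inv A t) (hG : s.Good A) (ht : t ≤ P.T) (hk : KOK A κ) (v w : V) :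
    |cf P κ s v w - 1 + P.zeta * (s.DD v w - s.gg κ v w)| ≤ P.zeta * P.X (-90000) := by
  obtain ⟨a1, a2⟩ := pt_m0_le hI hG
  obtain ⟨b1, b2⟩ := pt_m1_le hI hG ht v
  obtain ⟨c1, c2⟩ := pt_m1_le hI hG ht w
  obtain ⟨d1, d2⟩ := pt_m2_le hI hG ht hk v w
  have hz := P.zeta_pos.le
  have e1 : P.X 1 ≤ P.X 4 := P.X_le (by norm_num)
  have e2 : P.X 2 ≤ P.X 4 := P.X_le (by norm_num)
  set δ : ℝ := P.zeta * P.X 4 with hδ
  have hδ2 : δ = P.X (-99996) := by
    rw [hδ, Par.zeta, P.X_mul]; norm_num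
  have f0 : |P.zeta * s.m0| ≤ δ := by
    rw [abs_of_nonneg (mul_nonneg hz a1), hδ]
    exact mul_le_mul_of_nonneg_left (a2.trans e1) hz
  have f1 : |P.zeta * s.m1 v| ≤ δ := by
    rw [abs_of_nonneg (mul_nonneg hz b1), hδ]
    exact mul_le_mul_of_nonneg_left (b2.trans e2) hz
  have f2 : |P.zeta * s.m1 w| ≤ δ := by
    rw [abs_of_nonneg (mul_nonneg hz c1), hδ]
    exact mul_le_mul_of_nonneg_left (c2.trans e2) hz
  have f3 : |P.zeta * s.m2 κ v w| ≤ δ := by
    rw [abs_of_nonneg (mul_nonneg hz d1), hδ]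
    exact mul_le_mul_of_nonneg_left d2 hz
  have hδ4 : δ ≤ 1 / 4 := by
    rw [hδ2]
    linarith [P.pt_X_le_small (k := -99996) (by norm_num)]
  have h1 := pt_quot_bound f3 f0 f1 f2 hδ4
  have h2 : cf P κ s v w - 1 + P.zeta * (s.DD v w - s.gg κ v w)
      = (1 - P.zeta * s.m2 κ v w) * (1 - P.zeta * s.m0) / ((1 - P.zeta * s.m1 v) * (1 - P.zeta * s.m1 w))
        - 1 + (P.zeta * s.m2 κ v w + P.zeta * s.m0 - P.zeta * s.m1 v - P.zeta * s.m1 w) := by
    rw [pt_DD_sub_gg]
    unfold cf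
    ring
  rw [h2]
  refine h1.trans ?_
  rw [hδ2, P.X_pow]
  calc 40 * P.X (-99996 * ((2 : ℕ) : ℤ)) ≤ P.X (-190000) :=
        P.mul_X_le (by linarith [P.pt_thousand_le]) (by norm_num)
    _ = P.zeta * P.X (-90000) := by rw [Par.zeta, P.X_mul]; norm_num

/-- bound for `cf - 1` -/
lemma pt_c_abs (hI : s.Inv A t) (hG : s.Good A) (ht : t ≤ P.T) (hk : KOK A κ) {v w : V}
    (hv : v ∉ s.F) (hw : w ∉ s.F) (hvw : v ≠ w) :
    |cf P κ s v w - 1| ≤ P.zeta * (2 * P.sS t * P.y0 / P.r + P.X (-19759) + P.X 10005 * A.lam v w) := by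
  have h1 := abs_le.mp (pt_c hI hG ht hk v w)
  have h2 := abs_le.mp (pt_DD hI hG ht hv hw hvw)
  have h3 := abs_le.mp (pt_gg hI hG ht hk hvw)
  have hz := P.zeta_pos
  have e1 : P.X (-19953) ≤ P.X (-19760) := P.X_le (by norm_num)
  have e2 : P.X (-90000) ≤ P.X (-19760) := P.X_le (by norm_num)
  have e3 : 3 * P.X (-19760) ≤ P.X (-19759) :=
    P.mul_X_le (by linarith [P.pt_thousand_le]) (by norm_num)
  rw [abs_le]
  constructor
  · nlinarith [mul_le_mul_of_nonneg_left h2.2 hz.le, mul_le_mul_of_nonneg_left h3.1 hz.le,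
      mul_le_mul_of_nonneg_left e1 hz.le, mul_le_mul_of_nonneg_left e2 hz.le,
      mul_le_mul_of_nonneg_left e3 hz.le]
  · nlinarith [mul_le_mul_of_nonneg_left h2.1 hz.le, mul_le_mul_of_nonneg_left h3.2 hz.le,
      mul_le_mul_of_nonneg_left e1 hz.le, mul_le_mul_of_nonneg_left e2 hz.le,
      mul_le_mul_of_nonneg_left e3 hz.le]

/-! ## `i2` -/

lemma pt_lam_coef_mono (A : Amb P V) (t : ℕ) (v w : V) :
    P.zeta * t * P.X 10006 * A.lam v w ≤ P.zeta * ((t + 1 : ℕ) : ℝ) * P.X 10006 * A.lam v w := by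
  have h1 := P.zeta_pos.le
  have h2 := (P.X_pos 10006).le
  have h3 := A.lam_nonneg v w
  push_cast
  gcongr
  linarith

theorem i2_take (hI : s.Inv A t) (hk : KOK A κ) (x : V) {v w : V} (hs : ¬ A.Strong v w) :
    (s.take P κ x).aa v w ≤ P.sS (t + 1) + P.zeta * ((t + 1 : ℕ) : ℝ) * P.X 10006 * A.lam v w := by
  have h0 := hI.i2 v w hs
  have h1 := P.pt_sS_le_succ t
  have h2 := pt_lam_coef_mono A t v w
  have hrho : (s.take P κ x).rho v w = s.rho v w * κ x v w := rfl
  have hnn : 0 ≤ P.sS (t + 1) + P.zeta * ((t + 1 : ℕ) : ℝ) * P.X 10006 * A.lam v w := by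
    have h3 := P.pt_sS_nonneg (t + 1)
    have h4 := P.pt_zeta_t_nonneg (t + 1)
    have h5 := (P.X_pos 10006).le
    have h6 := A.lam_nonneg v w
    positivity
  by_cases hH : A.H x v w ∨ ¬ Amb.D3 x v w
  · have : (s.take P κ x).rho v w = 0 := by rw [hrho, hk.kH x v w hH, mul_zero]
    rw [pt_aa_zero_of_rho this]
    exact hnn
  · push Not at hH
    have hTT : ¬ A.TT x v w := fun h => hs ((A.TT_strong h).2.2)
    have : (s.take P κ x).rho v w = s.rho v w := by
      rw [hrho, hk.k1 x v w hH.2 hH.1 hTT, mul_one]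
    have h3 : (s.take P κ x).aa v w = s.aa v w := by
      unfold aa
      rw [this]
    rw [h3]
    linarith

theorem i2_skip (hI : s.Inv A t) (hG : s.Good A) (ht : t ≤ P.T) (hk : KOK A κ) {v w : V}
    (hs : ¬ A.Strong v w) :
    (s.skip P κ).aa v w ≤ P.sS (t + 1) + P.zeta * ((t + 1 : ℕ) : ℝ) * P.X 10006 * A.lam v w := by
  have hnn : 0 ≤ P.sS (t + 1) + P.zeta * ((t + 1 : ℕ) : ℝ) * P.X 10006 * A.lam v w := by
    have h3 := P.pt_sS_nonneg (t + 1)
    have h4 := P.pt_zeta_t_nonneg (t + 1)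
    have h5 := (P.X_pos 10006).le
    have h6 := A.lam_nonneg v w
    positivity
  by_cases hρ : s.rho v w = 0
  · have : (s.skip P κ).rho v w = 0 := by rw [pt_skip_rho, hρ, zero_mul]
    rw [pt_aa_zero_of_rho this]
    exact hnn
  · have hv : v ∉ s.F := fun h => hρ (hI.rF v h w)
    have hw : w ∉ s.F := fun h => hρ (by rw [hI.sym v w]; exact hI.rF w h v)
    have hvw : v ≠ w := by
      rintro rfl
      exact hρ (hI.rd v)
    have h1 := pt_c_abs hI hG ht hk hv hw hvw
    have h2 := pt_rho_ns hI ht hs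
    have h3 := hI.i2 v w hs
    have h4 := hI.nn v w
    have haa : s.aa v w = |1 - s.rho v w| := by
      unfold aa
      rw [ind_pos hρ, mul_one]
    have h5 : (s.skip P κ).aa v w ≤ s.aa v w + s.rho v w * |cf P κ s v w - 1| := by
      have h6 : (s.skip P κ).aa v w ≤ |1 - s.rho v w * cf P κ s v w| := by
        unfold aa
        rw [pt_skip_rho]
        exact mul_le_of_le_one_right (abs_nonneg _) (ind_le_one _)
      refine h6.trans ?_
      rw [haa]
      have h7 : 1 - s.rho v w * cf P κ s v w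
          = (1 - s.rho v w) + (- s.rho v w * (cf P κ s v w - 1)) := by ring
      rw [h7]
      refine (abs_add_le _ _).trans ?_
      rw [abs_mul, abs_neg, abs_of_nonneg h4]
    have hz := P.zeta_pos
    have hy := P.pt_y0_pos
    have hr := P.pt_r_pos
    have hsS := P.pt_sS_nonneg t
    have hlam := A.lam_nonneg v w
    have hX5 := P.X_pos 10005
    have hB : 0 ≤ P.zeta * (2 * P.sS t * P.y0 / P.r + P.X (-19759) + P.X 10005 * A.lam v w) := by
      have := P.X_pos (-19759)
      positivity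
    have h8 : s.rho v w * |cf P κ s v w - 1| ≤
        (101 / 100) * (P.zeta * (2 * P.sS t * P.y0 / P.r + P.X (-19759) + P.X 10005 * A.lam v w)) :=
      mul_le_mul h2 h1 (abs_nonneg _) (by norm_num)
    have e1 : (101 / 100) * P.X (-19759) ≤ P.X (-19600) :=
      P.mul_X_le (by linarith [P.pt_thousand_le]) (by norm_num)
    have e2 : (101 / 100) * P.X 10005 ≤ P.X 10006 :=
      P.mul_X_le (by linarith [P.pt_thousand_le]) (by norm_num)
    have e3 : P.sS (t + 1) = P.sS t * (1 + P.zeta * (22 / 10) * P.y0 / P.r) + P.zeta * P.X (-19600) :=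
      rfl
    have e4 : (101 / 100) * (P.zeta * (2 * P.sS t * P.y0 / P.r))
        ≤ P.sS t * (P.zeta * (22 / 10) * P.y0 / P.r) := by
      have : 0 ≤ P.zeta * P.sS t * P.y0 / P.r := by positivity
      have e5 : (101 / 100) * (P.zeta * (2 * P.sS t * P.y0 / P.r))
          = (202 / 100) * (P.zeta * P.sS t * P.y0 / P.r) := by ring
      have e6 : P.sS t * (P.zeta * (22 / 10) * P.y0 / P.r)
          = (22 / 10) * (P.zeta * P.sS t * P.y0 / P.r) := by ring
      rw [e5, e6]
      nlinarith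
    have e7 : (101 / 100) * (P.zeta * P.X (-19759)) ≤ P.zeta * P.X (-19600) := by
      nlinarith
    have e8 : (101 / 100) * (P.zeta * (P.X 10005 * A.lam v w)) ≤ P.zeta * P.X 10006 * A.lam v w := by
      have : P.zeta * A.lam v w * ((101 / 100) * P.X 10005) ≤ P.zeta * A.lam v w * P.X 10006 :=
        mul_le_mul_of_nonneg_left e2 (by positivity)
      nlinarith
    have e9 : P.zeta * ((t + 1 : ℕ) : ℝ) * P.X 10006 * A.lam v w
        = P.zeta * t * P.X 10006 * A.lam v w + P.zeta * P.X 10006 * A.lam v w := by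
      push_cast; ring
    rw [e9, e3]
    have e10 : (101 / 100) * (P.zeta * (2 * P.sS t * P.y0 / P.r + P.X (-19759) + P.X 10005 * A.lam v w))
        = (101 / 100) * (P.zeta * (2 * P.sS t * P.y0 / P.r)) + (101 / 100) * (P.zeta * P.X (-19759))
          + (101 / 100) * (P.zeta * (P.X 10005 * A.lam v w)) := by ring
    linarith

end St

end MP5cA
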