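import Pool.Agent.Lib.MP_5c685b_co.A.Static

/-!
# Route A', row R01: static facts about the ambient hypergraph (text, section 0)
-/

set_option autoImplicit false
set_option linter.unusedVariables false
set_option linter.unusedSectionVars false

open Finset

namespace MP5cA

variable {V : Type} [Fintype V] [DecidableEq V] {P : Par}

namespace Amb

variable (A : Amb P V)

include A in
/-- `n = r ^ 20` -/
theorem n_eq : (Fintype.card V : ℝ) = P.X 200000 := A.card_eq

theorem D3_swap {u v w : V} : D3 u v w ↔ D3 v u w := ⟨D3_symm12, D3_symm12⟩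

theorem D3_swap' {u v w : V} : D3 u v w ↔ D3 u w v := ⟨D3_symm23, D3_symm23⟩

theorem h_s1 (u v w : V) : A.h u v w = A.h v u w := A.h_symm12 u v w

theorem h_s2 (u v w : V) : A.h u v w = A.h u w v := A.h_symm23 u v w

theorem h_nd {u v w : V} (h : ¬ D3 u v w) : A.h u v w = 0 :=
  ind_neg fun hh => h (A.hd u v w hh)

theorem av_h (u v : V) : av (fun w => A.h u v w) ≤ P.eps := A.he u v

theorem av_h1 (v w : V) : av (fun u => A.h u v w) ≤ P.eps := A.deg3 v w

theorem av_h2 (u w : V) : av (fun v => A.h u v w) ≤ P.eps := A.deg2 u w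

theorem lam_comm (u v : V) : A.lam u v = A.lam v u := A.lam_symm u v

theorem lam_le_eps (u v : V) : A.lam u v ≤ P.eps := A.lam_le u v

theorem lam3_s1 (u v w : V) : A.lam3 u v w = A.lam3 v u w := A.lam3_symm12 u v w

theorem lam3_s2 (u v w : V) : A.lam3 u v w = A.lam3 u w v := A.lam3_symm23 u v w

theorem strong_comm {u v : V} : A.Strong u v ↔ A.Strong v u := A.Strong_symm u v

theorem TT_s1 {u v w : V} : A.TT u v w ↔ A.TT v u w := A.TT_symm12

theorem TT_s2 {u v w : V} : A.TT u v w ↔ A.TT u w v := A.TT_symm23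

theorem strong_of_TT {u v w : V} (h : A.TT u v w) :
    A.Strong u v ∧ A.Strong u w ∧ A.Strong v w := A.TT_strong h

theorem hh_s1 (u v w : V) : A.hh u v w = A.hh v u w := A.hh_symm12 u v w

theorem hh_s2 (u v w : V) : A.hh u v w = A.hh u w v := A.hh_symm23 u v w

theorem hh_nd {u v w : V} (h : ¬ D3 u v w) : A.hh u v w = 0 := by
  refine ind_neg fun hh => ?_
  rcases hh with hh | hh
  · exact h (A.hd u v w hh)
  · exact h hh.1

/-- `hh ≤ h + 1_TT` -/
theorem hh_le (u v w : V) : A.hh u v w ≤ A.h u v w + ind (A.TT u v w) := ind_or_le _ _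

theorem av_hh1 (v w : V) : av (fun u => A.hh u v w) ≤ P.X (-19957) := A.av_hh3 v w

/-- the `TT` part of `lamh` is small for every `x` -/
theorem lamhTT_le (v x : V) :
    av (fun u => av fun w => A.h u w v * ind (A.TT x u w)) ≤ P.eps * P.X (-19958) := by
  have h1 : ∀ u, (av fun w => A.h u w v * ind (A.TT x u w)) ≤ ind (A.Strong x u) * P.eps := by
    intro u
    calc (av fun w => A.h u w v * ind (A.TT x u w))
        ≤ av (fun w => ind (A.Strong x u) * A.h u w v) := by
          refine av_mono fun w => ?_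
          rw [mul_comm]
          exact mul_le_mul_of_nonneg_right (ind_mono fun h => (A.TT_strong h).1)
            (A.h_nonneg _ _ _)
      _ = ind (A.Strong x u) * av (fun w => A.h u w v) := av_mul_left _ _
      _ ≤ ind (A.Strong x u) * P.eps :=
          mul_le_mul_of_nonneg_left (A.deg2 u v) (ind_nonneg _)
  calc _ ≤ av (fun u => ind (A.Strong x u) * P.eps) := av_mono h1
    _ = av (fun u => ind (A.Strong x u)) * P.eps := av_mul_right _ _
    _ ≤ P.X (-19958) * P.eps := mul_le_mul_of_nonneg_right (A.av_strong x) P.eps_pos.le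
    _ = P.eps * P.X (-19958) := mul_comm _ _

/-- `E_{s,y} h(s,u,y) 1[w,y strong] ≤ eps r^-2 x^42` -/
theorem av_h_strong (u w : V) :
    av (fun y => ind (A.Strong w y) * av fun s => A.h s u y) ≤ P.eps * P.X (-19958) := by
  calc _ ≤ av (fun y => ind (A.Strong w y) * P.eps) :=
        av_mono fun y => mul_le_mul_of_nonneg_left (A.deg3 u y) (ind_nonneg _)
    _ = av (fun y => ind (A.Strong w y)) * P.eps := av_mul_right _ _
    _ ≤ P.X (-19958) * P.eps := mul_le_mul_of_nonneg_right (A.av_strong w) P.eps_pos.le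
    _ = P.eps * P.X (-19958) := mul_comm _ _

end Amb

end MP5cA
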