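import Pool.Agent.Lib.MP_5c685b_co.A.Mom

/-!
# Route A', the windows G2, G4, G5, G9 (moment principle)
-/

set_option autoImplicit false
set_option linter.unusedSectionVars false
set_option linter.unusedVariables false

namespace MP5cA

open Finset

variable {P : Par}

/-! ## numbers -/

/-- powers of small numbers -/
theorem Par.w_cpow (P : Par) {c : ℝ} (hc0 : 0 ≤ c) {j K : ℕ} (hc : c ≤ 2 ^ j)
    (h : j * K ≤ 1000000000) (a : ℤ) : (c * P.X a) ^ K ≤ P.X (a * K + 1) := by
  have h1 : c ^ K ≤ P.x := by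
    calc c ^ K ≤ ((2 : ℝ) ^ j) ^ K := by gcongr
      _ = 2 ^ (j * K) := by rw [pow_mul]
      _ ≤ P.x := P.two_pow_le h
  calc (c * P.X a) ^ K = c ^ K * P.X (a * K) := by rw [mul_pow, P.X_pow]
    _ ≤ P.x * P.X (a * K) := mul_le_mul_of_nonneg_right h1 (P.X_pos _).le
    _ = P.X (a * K + 1) := by rw [P.X_add, P.X_one, mul_comm]

/-- `c * Lam ^ j * X a ≤ X b` -/
theorem Par.w_cLam (P : Par) {c : ℝ} {k j : ℕ} (hc : c ≤ 2 ^ k) (hk : k ≤ 100000000)
    (hj : j ≤ 100000000) {a b : ℤ} (h : a + 1 ≤ b) : c * P.Lam ^ j * P.X a ≤ P.X b :=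
  P.mul_X_le (P.absorb hc hk hj) h

section Amb

variable {V : Type} [Fintype V] [DecidableEq V]

theorem w_card_eq (A : Amb P V) : (Fintype.card V : ℝ) = P.X 200000 := by
  rw [A.hc]
  push_cast
  rw [P.r_eq, P.X_pow]
  norm_num

theorem w_nonempty (A : Amb P V) : Nonempty V := by
  rw [← Fintype.card_pos_iff]
  have h := (w_card_eq A)
  have h2 := P.X_pos 200000
  rw [← h] at h2
  exact_mod_cast h2

end Amb

section Tails

variable {V : Type} [Fintype V] [DecidableEq V] (A : Amb P V)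
  {J : St V → Prop} {E : (St V → ℝ) → ℝ}

/-- the domination hypothesis -/
def Dom (P : Par) (E : (St V → ℝ) → ℝ) : Prop :=
  ∀ S : Finset V, E (fun s => ind (S ⊆ s.F)) ≤ (5 * P.X 10001 / P.X 200000) ^ S.card

theorem w_sum_le_of_av [Nonempty V] {f : V → ℝ} {b : ℝ} (h : av f ≤ b) :
    ∑ v, f v ≤ Fintype.card V * b := by
  rw [sum_eq_card_mul_av]
  exact mul_le_mul_of_nonneg_left h (Nat.cast_nonneg _)

theorem w_sum2_le_of_av [Nonempty V] {f : V → V → ℝ} {b : ℝ} (h : av (fun v => av (f v)) ≤ b) :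
    ∑ v, ∑ w, f v w ≤ (Fintype.card V : ℝ) ^ 2 * b := by
  have h1 : ∀ v, ∑ w, f v w = (Fintype.card V : ℝ) * av (f v) := fun v => sum_eq_card_mul_av _
  rw [sum_congr rfl fun v _ => h1 v, ← mul_sum, sum_eq_card_mul_av, sq, mul_assoc]
  gcongr

theorem w_sum3_le_of_av [Nonempty V] {f : V → V → V → ℝ} {b : ℝ}
    (h : av (fun u => av (fun v => av (f u v))) ≤ b) :
    ∑ u, ∑ v, ∑ w, f u v w ≤ (Fintype.card V : ℝ) ^ 3 * b := by
  have h1 : ∀ u, ∑ v, ∑ w, f u v w = (Fintype.card V : ℝ) ^ 2 * av (fun v => av (f u v)) := by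
    intro u
    have h2 : ∀ v, ∑ w, f u v w = (Fintype.card V : ℝ) * av (f u v) :=
      fun v => sum_eq_card_mul_av _
    rw [sum_congr rfl fun v _ => h2 v, ← mul_sum, sum_eq_card_mul_av]
    ring
  rw [sum_congr rfl fun u _ => h1 u, ← mul_sum, sum_eq_card_mul_av]
  calc (Fintype.card V : ℝ) ^ 2 * (Fintype.card V * av fun u => av fun v => av (f u v))
      ≤ (Fintype.card V : ℝ) ^ 2 * (Fintype.card V * b) := by gcongr
    _ = _ := by ring

include A in
theorem w_dom_card (hdom : Dom P E) (S : Finset V) :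
    E (fun s => ind (S ⊆ s.F)) ≤ (5 * P.X 10001 / Fintype.card V) ^ S.card := by
  rw [(w_card_eq A)]
  exact hdom S

include A in
/-- number of elements of `F` -/
theorem tailF_card (hE : PosLin J E) (hdom : Dom P E) (K : ℕ) {z : ℝ} (hz : 0 < z)
    (B : St V → Prop) (hB : ∀ s, J s → B s → z ≤ s.F.card) :
    E (fun s => ind (B s)) ≤ ((5 * P.X 10001 + K) / z) ^ K := by
  have := w_nonempty A
  exact tail_card hE (fun s => s.F) (by have := P.X_pos 10001; positivity)
    (fun S _ => w_dom_card A hdom S) hz B hB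

include A in
/-- one vertex -/
theorem tailF_one (hE : PosLin J E) (hdom : Dom P E) (K : ℕ) (φ : V → ℝ) (hφ : ∀ v, 0 ≤ φ v)
    {b0 b1 : ℝ} (h0 : ∀ v, φ v ≤ b0) (h1 : av φ ≤ b1) {z : ℝ} (hz : 0 < z)
    (B : St V → Prop) (hB : ∀ s, J s → B s → z ≤ ∑ v ∈ s.F, φ v) :
    E (fun s => ind (B s)) ≤ ((5 * P.X 10001 * b1 + K * b0) / z) ^ K := by
  have := w_nonempty A
  obtain ⟨v0⟩ := w_nonempty A
  exact tail_one hE (fun s => s.F) (by have := P.X_pos 10001; positivity) φ hφ
    (fun S _ => w_dom_card A hdom S) ((hφ v0).trans (h0 v0)) ((av_nonneg hφ).trans h1) h0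
    (w_sum_le_of_av h1) hz B hB

include A in
/-- two vertices -/
theorem tailF_two (hE : PosLin J E) (hdom : Dom P E) (K : ℕ) (g : V → V → ℝ)
    (hg : ∀ a b, 0 ≤ g a b) {b0 b1 b2 bd : ℝ}
    (h0 : ∀ a b, g a b ≤ b0) (h1 : ∀ a, av (fun b => g a b) ≤ b1)
    (h1' : ∀ b, av (fun a => g a b) ≤ b1) (h2 : av (fun a => av (fun b => g a b)) ≤ b2)
    (hd : av (fun a => g a a) ≤ bd) {z : ℝ} (hz : 0 < z)
    (B : St V → Prop) (hB : ∀ s, J s → B s → z ≤ ∑ a ∈ s.F, ∑ b ∈ s.F, g a b) :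
    E (fun s => ind (B s)) ≤
      (((5 * P.X 10001) ^ 2 * b2 + 5 * P.X 10001 * bd + 4 * K * (5 * P.X 10001 * b1) +
        4 * K ^ 2 * b0) / z) ^ K := by
  have := w_nonempty A
  obtain ⟨v0⟩ := w_nonempty A
  exact tail_two hE (fun s => s.F) (by have := P.X_pos 10001; positivity) g hg
    (fun S _ => w_dom_card A hdom S) ((hg v0 v0).trans (h0 v0 v0))
    ((av_nonneg fun b => hg v0 b).trans (h1 v0))
    ((av_nonneg fun a => av_nonneg fun b => hg a b).trans h2)
    ((av_nonneg fun a => hg a a).trans hd) h0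
    (fun a => w_sum_le_of_av (h1 a)) (fun b => w_sum_le_of_av (h1' b)) (w_sum2_le_of_av h2)
    (w_sum_le_of_av hd) hz B hB

theorem w_sum_D3 (F : Finset V) (f : V → V → V → ℝ) :
    ∑ u ∈ F, ∑ v ∈ F, ∑ w ∈ F, ind (Amb.D3 u v w) * f u v w =
      ∑ t ∈ (dist3 V).filter (fun t => t.1 ∈ F ∧ t.2.1 ∈ F ∧ t.2.2 ∈ F),
        f t.1 t.2.1 t.2.2 := by
  classical
  have h1 : ∑ u ∈ F, ∑ v ∈ F, ∑ w ∈ F, ind (Amb.D3 u v w) * f u v w =
      ∑ t ∈ F ×ˢ (F ×ˢ F), ind (Amb.D3 t.1 t.2.1 t.2.2) * f t.1 t.2.1 t.2.2 := by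
    rw [sum_product]
    refine sum_congr rfl fun u _ => ?_
    rw [sum_product]
  have h2 : ∀ t ∈ F ×ˢ (F ×ˢ F), ind (Amb.D3 t.1 t.2.1 t.2.2) * f t.1 t.2.1 t.2.2 =
      if Amb.D3 t.1 t.2.1 t.2.2 then f t.1 t.2.1 t.2.2 else 0 := by
    intro t _
    by_cases h : Amb.D3 t.1 t.2.1 t.2.2
    · rw [ind_pos h, one_mul, if_pos h]
    · rw [ind_neg h, zero_mul, if_neg h]
  rw [h1, sum_congr rfl h2, ← sum_filter]
  refine sum_congr ?_ fun _ _ => rfl
  ext t
  rw [mem_filter, mem_filter, dist3, mem_filter, mem_product, mem_product]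
  simp only [Amb.D3, mem_univ, true_and]
  tauto

include A in
/-- three distinct vertices -/
theorem tailF_three (hE : PosLin J E) (hdom : Dom P E) (K : ℕ) (f : V → V → V → ℝ)
    (hf : ∀ a b c, 0 ≤ f a b c) {b0 b1 b2 b3 : ℝ}
    (h0 : ∀ a b c, f a b c ≤ b0)
    (h1 : ∀ a b, av (fun c => f a b c) ≤ b1)
    (h1' : ∀ a c, av (fun b => f a b c) ≤ b1)
    (h1'' : ∀ b c, av (fun a => f a b c) ≤ b1)
    (h2 : ∀ a, av (fun b => av (fun c => f a b c)) ≤ b2)
    (h2' : ∀ b, av (fun a => av (fun c => f a b c)) ≤ b2)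
    (h2'' : ∀ c, av (fun a => av (fun b => f a b c)) ≤ b2)
    (h3 : av (fun a => av (fun b => av (fun c => f a b c))) ≤ b3)
    {z : ℝ} (hz : 0 < z) (B : St V → Prop)
    (hB : ∀ s, J s → B s → z ≤ ∑ u ∈ s.F, ∑ v ∈ s.F, ∑ w ∈ s.F, ind (Amb.D3 u v w) * f u v w) :
    E (fun s => ind (B s)) ≤
      (((5 * P.X 10001) ^ 3 * b3 + 9 * K * ((5 * P.X 10001) ^ 2 * b2) +
        27 * K ^ 2 * (5 * P.X 10001 * b1) + 27 * K ^ 3 * b0) / z) ^ K := by
  have := w_nonempty A
  obtain ⟨v0⟩ := w_nonempty A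
  refine tail_three hE (fun s => s.F) (by have := P.X_pos 10001; positivity) f hf
    (fun S _ => w_dom_card A hdom S) ((hf v0 v0 v0).trans (h0 v0 v0 v0))
    ((av_nonneg fun c => hf v0 v0 c).trans (h1 v0 v0))
    ((av_nonneg fun b => av_nonneg fun c => hf v0 b c).trans (h2 v0))
    ((av_nonneg fun a => av_nonneg fun b => av_nonneg fun c => hf a b c).trans h3) h0
    (fun a b => w_sum_le_of_av (h1 a b)) (fun a c => w_sum_le_of_av (h1' a c))
    (fun b c => w_sum_le_of_av (h1'' b c)) (fun a => w_sum2_le_of_av (h2 a))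
    (fun b => w_sum2_le_of_av (h2' b)) (fun c => w_sum2_le_of_av (h2'' c)) (w_sum3_le_of_av h3)
    hz B (fun s hJ hs => (hB s hJ hs).trans (le_of_eq ?_))
  exact w_sum_D3 s.F f

end Tails

/-! ## the windows -/

attribute [local irreducible] Par.X

section Win

variable {V : Type} [Fintype V] [DecidableEq V] (A : Amb P V)
  {J : St V → Prop} {E : (St V → ℝ) → ℝ}

/-- union bound -/
theorem PosLin.union (hE : PosLin J E) {ι : Type*} (T : Finset ι) (B : ι → St V → Prop)
    (B0 : St V → Prop) {b : ℝ} (hB : ∀ s, J s → B0 s → ∃ i ∈ T, B i s)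
    (h : ∀ i ∈ T, E (fun s => ind (B i s)) ≤ b) :
    E (fun s => ind (B0 s)) ≤ T.card * b := by
  have h1 : E (fun s => ind (B0 s)) ≤ E (fun s => ∑ i ∈ T, ind (B i s)) := by
    refine hE.mono _ _ fun s hJ => ?_
    by_cases hs : B0 s
    · obtain ⟨i, hi, hBi⟩ := hB s hJ hs
      rw [ind_pos hs]
      calc (1 : ℝ) = ind (B i s) := (ind_pos hBi).symm
        _ ≤ _ := single_le_sum (f := fun i => ind (B i s)) (fun _ _ => ind_nonneg _) hi
    · rw [ind_neg hs]
      exact sum_nonneg fun _ _ => ind_nonneg _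
  rw [hE.sum] at h1
  refine h1.trans ((sum_le_card_nsmul _ _ _ h).trans (le_of_eq ?_))
  rw [nsmul_eq_mul]

include A in
/-- **G2** -/
theorem win_g2 (hE : PosLin J E) (hdom : Dom P E) :
    E (fun s => ind (¬ (s.F.card : ℝ) ≤ P.X 10002)) ≤ P.X (-1020000) := by
  obtain ⟨K, hK⟩ : ∃ K : ℕ, K = 1020001 := ⟨_, rfl⟩
  refine (tailF_card A hE hdom K (P.X_pos 10002) _
    (fun s _ hs => (not_le.1 hs).le)).trans ?_
  have hx := P.X_pos 10001
  have hy := P.X_pos 10002
  have h1 : (5 * P.X 10001 + (K : ℝ)) / P.X 10002 ≤ 6 * P.X (-1) := by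
    have h2 : (K : ℝ) ≤ P.X 10001 := by
      refine le_trans ?_ ((P.two_pow_le (k := 20) (by norm_num)).trans ?_)
      · rw [hK]; norm_num
      · rw [← P.X_one]
        exact P.X_le (by norm_num)
    have h3 : P.X (-1) * P.X 10002 = P.X 10001 := by
      rw [P.X_mul]
      congr 1
    rw [div_le_iff₀ hy, mul_assoc, h3]
    linarith
  have h0 : (0 : ℝ) ≤ (5 * P.X 10001 + (K : ℝ)) / P.X 10002 := by positivity
  refine (pow_le_pow_left₀ h0 h1 _).trans ?_
  refine (P.w_cpow (by norm_num) (j := 3) (by norm_num) (by omega) (-1)).trans ?_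
  exact P.X_le (by omega)

/-! ### static facts -/

theorem w_h0 (u v w : V) : 0 ≤ A.h u v w := ind_nonneg _

theorem w_h1 (u v w : V) : A.h u v w ≤ 1 := ind_le_one _

theorem w_h12 (u v w : V) : A.h u v w = A.h v u w :=
  ind_congr ⟨A.s1 u v w, A.s1 v u w⟩

theorem w_h23 (u v w : V) : A.h u v w = A.h u w v :=
  ind_congr ⟨A.s2 u v w, A.s2 u w v⟩

theorem w_he3 (u v : V) : av (fun w => A.h u v w) ≤ P.eps := A.he u v

theorem w_he1 (v w : V) : av (fun u => A.h u v w) ≤ P.eps := by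
  have : ∀ u, A.h u v w = A.h v w u := fun u => by rw [w_h12, w_h23]
  rw [av_congr this]
  exact A.he v w

theorem w_he2 (u w : V) : av (fun v => A.h u v w) ≤ P.eps := by
  have : ∀ v, A.h u v w = A.h u w v := fun v => w_h23 A u v w
  rw [av_congr this]
  exact A.he u w

theorem w_lam0 (u v : V) : 0 ≤ A.lam u v :=
  av_nonneg fun s => av_nonneg fun y => mul_nonneg (w_h0 A _ _ _) (w_h0 A _ _ _)

theorem w_lam_le (u v : V) : A.lam u v ≤ P.eps := by
  refine av_le_const P.eps_pos.le fun s => ?_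
  refine (av_mono fun y => ?_).trans (w_he3 A s u)
  exact mul_le_of_le_one_right (w_h0 A _ _ _) (w_h1 A _ _ _)

theorem w_av_lam (v : V) : av (fun u => A.lam u v) ≤ P.eps ^ 2 := by
  have e0 := P.eps_pos.le
  unfold Amb.lam
  rw [av_comm]
  have h1 : ∀ s, av (fun u => av fun y => A.h s u y * A.h s v y) ≤ P.eps ^ 2 := by
    intro s
    rw [av_comm]
    have h2 : ∀ y, av (fun u => A.h s u y * A.h s v y) ≤ P.eps * A.h s v y := by
      intro y
      rw [av_mul_right]
      exact mul_le_mul_of_nonneg_right (w_he2 A s y) (w_h0 A _ _ _)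
    refine (av_mono h2).trans ?_
    rw [av_mul_left, sq]
    exact mul_le_mul_of_nonneg_left (w_he3 A s v) e0
  exact av_le_const (by positivity) h1

/-- **G4** -/
theorem win_g4_pair (hE : PosLin J E) (hdom : Dom P E) (v w : V) :
    E (fun s => ind (¬ s.VV A v w ≤ P.X (-19994) + P.X 10004 * A.lam v w)) ≤
      P.X (-1420000) := by
  obtain ⟨K, hK⟩ : ∃ K : ℕ, K = 720000 := ⟨_, rfl⟩
  have e0 := P.eps_pos.le
  have hl := w_lam0 A v w
  have hx1 := P.X_pos (-19994)
  have hx2 := P.X_pos 10004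
  have hx3 := P.X_pos 10001
  have hz : 0 < P.X (-19994) + P.X 10004 * A.lam v w := by positivity
  have g0 : ∀ a b : V, 0 ≤ av (fun y => A.h a v y * A.h b w y) :=
    fun a b => av_nonneg fun y => mul_nonneg (w_h0 A _ _ _) (w_h0 A _ _ _)
  have gb : ∀ a, av (fun b => av fun y => A.h a v y * A.h b w y) ≤ P.eps ^ 2 := by
    intro a
    rw [av_comm]
    have h2 : ∀ y, av (fun b => A.h a v y * A.h b w y) ≤ A.h a v y * P.eps := by
      intro y
      rw [av_mul_left]
      exact mul_le_mul_of_nonneg_left (w_he1 A w y) (w_h0 A _ _ _)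
    refine (av_mono h2).trans ?_
    rw [av_mul_right, sq]
    exact mul_le_mul_of_nonneg_right (w_he3 A a v) e0
  have ga : ∀ b, av (fun a => av fun y => A.h a v y * A.h b w y) ≤ P.eps ^ 2 := by
    intro b
    rw [av_comm]
    have h2 : ∀ y, av (fun a => A.h a v y * A.h b w y) ≤ P.eps * A.h b w y := by
      intro y
      rw [av_mul_right]
      exact mul_le_mul_of_nonneg_right (w_he1 A v y) (w_h0 A _ _ _)
    refine (av_mono h2).trans ?_
    rw [av_mul_left, sq]
    exact mul_le_mul_of_nonneg_left (w_he3 A b w) e0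
  refine (tailF_two A hE hdom K (fun a b => av fun y => A.h a v y * A.h b w y) g0
    (b0 := P.eps) (b1 := P.eps ^ 2) (b2 := P.eps ^ 2) (bd := A.lam v w)
    (fun a b => (av_mono fun y => mul_le_of_le_one_right (w_h0 A _ _ _) (w_h1 A _ _ _)).trans
      (w_he3 A a v)) gb ga (av_le_const (by positivity) gb) le_rfl hz _
    (fun s _ hs => (not_le.1 hs).le.trans ?_)).trans ?_
  · -- `V` is at most the double sum
    unfold St.VV St.bp
    rw [show (∑ a ∈ s.F, ∑ b ∈ s.F, av fun y => A.h a v y * A.h b w y) =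
      av fun y => ∑ a ∈ s.F, ∑ b ∈ s.F, A.h a v y * A.h b w y by
        rw [av_sum]
        exact sum_congr rfl fun a _ => (av_sum _ _).symm]
    refine av_mono fun y => ?_
    have h1 : ∀ v : V, ind (∃ u ∈ s.F, A.H u v y) ≤ ∑ a ∈ s.F, A.h a v y := by
      intro v
      by_cases h : ∃ u ∈ s.F, A.H u v y
      · obtain ⟨u, hu, hH⟩ := h
        rw [ind_pos ⟨u, hu, hH⟩]
        calc (1 : ℝ) = A.h u v y := (ind_pos hH).symm
          _ ≤ _ := single_le_sum (f := fun a => A.h a v y) (fun _ _ => w_h0 A _ _ _) hu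
      · rw [ind_neg h]
        exact sum_nonneg fun _ _ => w_h0 A _ _ _
    calc ind (∃ u ∈ s.F, A.H u v y) * ind (∃ u ∈ s.F, A.H u w y)
        ≤ (∑ a ∈ s.F, A.h a v y) * ∑ b ∈ s.F, A.h b w y :=
          mul_le_mul (h1 v) (h1 w) (ind_nonneg _) (sum_nonneg fun _ _ => w_h0 A _ _ _)
      _ = _ := by rw [sum_mul_sum]
  · have hr : ((5 * P.X 10001) ^ 2 * P.eps ^ 2 + 5 * P.X 10001 * A.lam v w +
        4 * K * (5 * P.X 10001 * P.eps ^ 2) + 4 * K ^ 2 * P.eps) /
        (P.X (-19994) + P.X 10004 * A.lam v w) ≤ 1 * P.X (-2) := by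
      rw [div_le_iff₀ hz]
      have k1 : (5 * P.X 10001) ^ 2 * P.eps ^ 2 ≤ P.X (-19997) := by
        have := P.w_cLam (c := 25) (k := 5) (j := 2) (by norm_num) (by norm_num) (by norm_num)
          (a := -19998) (b := -19997) (by norm_num)
        refine le_trans (le_of_eq ?_) this
        unfold Par.eps
        rw [mul_pow, mul_pow, P.X_pow, P.X_pow,
          show (-19998 : ℤ) = 10001 * (2 : ℕ) + -20000 * (2 : ℕ) by norm_num, P.X_add]
        ring
      have k2 : 5 * P.X 10001 * A.lam v w ≤ P.X 10002 * A.lam v w := by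
        refine mul_le_mul_of_nonneg_right ?_ hl
        refine P.mul_X_le ?_ (by norm_num)
        refine le_trans ?_ (P.two_pow_le (k := 3) (by norm_num))
        norm_num
      have k3 : 4 * K * (5 * P.X 10001 * P.eps ^ 2) ≤ P.X (-19997) := by
        have := P.w_cLam (c := 20 * K) (k := 24) (j := 2) (by rw [hK]; norm_num) (by norm_num)
          (by norm_num) (a := -29999) (b := -19997) (by norm_num)
        refine le_trans (le_of_eq ?_) this
        unfold Par.eps
        rw [mul_pow, P.X_pow,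
          show (-29999 : ℤ) = 10001 + -20000 * (2 : ℕ) by norm_num, P.X_add]
        ring
      have k4 : 4 * (K : ℝ) ^ 2 * P.eps ≤ P.X (-19997) := by
        have := P.w_cLam (c := 4 * (K : ℝ) ^ 2) (k := 42) (j := 1)
          (by rw [hK]; norm_num) (by norm_num)
          (by norm_num) (a := -20000) (b := -19997) (by norm_num)
        refine le_trans (le_of_eq ?_) this
        unfold Par.eps
        ring
      have k5 : 3 * P.X (-19997) ≤ P.X (-19996) := by
        refine P.mul_X_le ?_ (by norm_num)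
        refine le_trans ?_ (P.two_pow_le (k := 2) (by norm_num))
        norm_num
      have k6 : 1 * P.X (-2) * (P.X (-19994) + P.X 10004 * A.lam v w) =
          P.X (-19996) + P.X 10002 * A.lam v w := by
        rw [show (-19996 : ℤ) = -2 + -19994 by norm_num, show (10002 : ℤ) = -2 + 10004 by norm_num,
          P.X_add, P.X_add]
        ring
      rw [k6]
      linarith
    have h0 : (0 : ℝ) ≤ ((5 * P.X 10001) ^ 2 * P.eps ^ 2 + 5 * P.X 10001 * A.lam v w +
        4 * K * (5 * P.X 10001 * P.eps ^ 2) + 4 * K ^ 2 * P.eps) /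
        (P.X (-19994) + P.X 10004 * A.lam v w) := by positivity
    refine (pow_le_pow_left₀ h0 hr _).trans ?_
    refine (P.w_cpow (by norm_num) (j := 0) (by norm_num) (by omega) (-2)).trans ?_
    exact P.X_le (by omega)

include A in
theorem win_g4 (hE : PosLin J E) (hdom : Dom P E) :
    E (fun s => ind (¬ ∀ v w, v ≠ w → s.VV A v w ≤ P.X (-19994) + P.X 10004 * A.lam v w)) ≤
      P.X (-1020000) := by
  have h := hE.union (univ : Finset (V × V))
    (fun t s => ¬ s.VV A t.1 t.2 ≤ P.X (-19994) + P.X 10004 * A.lam t.1 t.2)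
    (fun s => ¬ ∀ v w, v ≠ w → s.VV A v w ≤ P.X (-19994) + P.X 10004 * A.lam v w)
    (b := P.X (-1420000)) (fun s _ hs => by
      push Not at hs
      obtain ⟨v, w, _, h⟩ := hs
      exact ⟨(v, w), mem_univ _, not_le.2 h⟩)
    (fun t _ => win_g4_pair A hE hdom t.1 t.2)
  refine h.trans (le_of_eq ?_)
  rw [card_univ, Fintype.card_prod]
  push_cast
  rw [(w_card_eq A), P.X_mul, P.X_mul]
  congr 1

theorem w_av_strong (v : V) : av (fun u => ind (A.Strong u v)) ≤ P.X (-19959) := by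
  have h1 : ∀ u, P.theta * ind (A.Strong u v) ≤ A.lam u v := by
    intro u
    by_cases h : A.Strong u v
    · rw [ind_pos h, mul_one]
      exact h
    · rw [ind_neg h, mul_zero]
      exact w_lam0 A u v
  have h2 := (av_mono h1).trans (w_av_lam A v)
  rw [av_mul_left] at h2
  have h3 : P.theta * P.X (-19959) = P.X (-39999) := by
    unfold Par.theta
    rw [P.X_mul]
    congr 1
  have h4 : P.eps ^ 2 ≤ P.X (-39999) := by
    have := P.w_cLam (c := 1) (k := 0) (j := 2) (by norm_num) (by norm_num) (by norm_num)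
      (a := -40000) (b := -39999) (by norm_num)
    refine le_trans (le_of_eq ?_) this
    unfold Par.eps
    rw [mul_pow, P.X_pow, show (-40000 : ℤ) = -20000 * (2 : ℕ) by norm_num]
    ring
  rw [← h3] at h4
  exact le_of_mul_le_mul_left (h2.trans h4) P.theta_pos

/-- **G5** -/
theorem win_g5_one (hE : PosLin J E) (hdom : Dom P E) (v : V) :
    E (fun s => ind (¬ s.cnt A v ≤ 300)) ≤ P.X (-1220000) := by
  classical
  obtain ⟨K, hK⟩ : ∃ K : ℕ, K = 300 := ⟨_, rfl⟩
  have hx3 := P.X_pos 10001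
  have hx4 := P.X_pos 200000
  have hb : av (fun u => ind (A.Strong u v)) ≤ P.X (-19959) := w_av_strong A v
  set T : Finset V := univ.filter (fun u => A.Strong u v) with hT
  have hTc : (T.card : ℝ) ≤ P.X 200000 * P.X (-19959) := by
    have h1 : (T.card : ℝ) = ∑ u, ind (A.Strong u v) := by
      have h2 : ∀ u, ind (A.Strong u v) = if A.Strong u v then (1 : ℝ) else 0 := by
        intro u
        by_cases h : A.Strong u v
        · rw [ind_pos h, if_pos h]
        · rw [ind_neg h, if_neg h]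
      rw [sum_congr rfl fun u _ => h2 u, sum_boole]
    have := w_nonempty A
    rw [h1, ← (w_card_eq A)]
    exact w_sum_le_of_av hb
  have h := tail_count hE (fun s => s.F) (q := 5 * P.X 10001 / P.X 200000) (by positivity)
    (A := K + 1) (fun S _ => hdom S) T (fun s => ¬ s.cnt A v ≤ 300) (fun s _ hs => by
      have h1 : s.cnt A v = ((s.F ∩ T).card : ℝ) := by
        unfold St.cnt
        have h2 : ∀ u, ind (A.Strong u v) = if A.Strong u v then (1 : ℝ) else 0 := by
          intro u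
          by_cases h : A.Strong u v
          · rw [ind_pos h, if_pos h]
          · rw [ind_neg h, if_neg h]
        rw [sum_congr rfl fun u _ => h2 u, sum_boole]
        congr 2
        ext u
        simp [hT]
      rw [h1, not_le] at hs
      have h3 : ((300 : ℕ) : ℝ) < ((s.F ∩ T).card : ℝ) := by exact_mod_cast hs
      have h4 : 300 < (s.F ∩ T).card := by exact_mod_cast h3
      omega)
  refine h.trans ?_
  have h5 : 5 * P.X 10001 / P.X 200000 * (T.card : ℝ) ≤ 5 * P.X (-9958) := by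
    calc 5 * P.X 10001 / P.X 200000 * (T.card : ℝ)
        ≤ 5 * P.X 10001 / P.X 200000 * (P.X 200000 * P.X (-19959)) := by gcongr
      _ = 5 * (P.X 10001 * P.X (-19959)) := by field_simp
      _ = 5 * P.X (-9958) := by rw [P.X_mul]; norm_num
  refine (pow_le_pow_left₀ (by positivity) h5 _).trans ?_
  refine (P.w_cpow (by norm_num) (j := 3) (by norm_num) (by omega) (-9958)).trans ?_
  exact P.X_le (by rw [hK]; norm_num)

theorem win_g5 (hE : PosLin J E) (hdom : Dom P E) :
    E (fun s => ind (¬ ∀ v, s.cnt A v ≤ 300)) ≤ P.X (-1020000) := by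
  have h := hE.union (univ : Finset V) (fun v s => ¬ s.cnt A v ≤ 300)
    (fun s => ¬ ∀ v, s.cnt A v ≤ 300) (b := P.X (-1220000)) (fun s _ hs => by
      push Not at hs
      obtain ⟨v, h⟩ := hs
      exact ⟨v, mem_univ _, not_le.2 h⟩)
    (fun v _ => win_g5_one A hE hdom v)
  refine h.trans (le_of_eq ?_)
  rw [card_univ, (w_card_eq A), P.X_mul]
  congr 1

/-! ### static facts for `G9` -/

theorem w_lam_symm (u v : V) : A.lam u v = A.lam v u :=
  av_congr fun s => av_congr fun y => mul_comm _ _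

theorem w_av_lam' (u : V) : av (fun v => A.lam u v) ≤ P.eps ^ 2 := by
  rw [av_congr fun v => w_lam_symm A u v]
  exact w_av_lam A u

theorem w_lam3_0 (u v w : V) : 0 ≤ A.lam3 u v w :=
  av_nonneg fun s => av_nonneg fun y =>
    mul_nonneg (mul_nonneg (w_h0 A _ _ _) (w_h0 A _ _ _)) (w_h0 A _ _ _)

theorem w_lam3_12 (u v w : V) : A.lam3 u v w = A.lam3 v u w :=
  av_congr fun s => av_congr fun y => by ring

theorem w_lam3_23 (u v w : V) : A.lam3 u v w = A.lam3 u w v :=
  av_congr fun s => av_congr fun y => by ring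

theorem w_av_lam3 (u v : V) : av (fun w => A.lam3 u v w) ≤ P.eps * A.lam u v := by
  unfold Amb.lam3 Amb.lam
  rw [av_comm, ← av_mul_left]
  refine av_mono fun s => ?_
  rw [av_comm, ← av_mul_left]
  refine av_mono fun y => ?_
  rw [av_mul_left, mul_comm]
  exact mul_le_mul_of_nonneg_right (w_he2 A s y) (mul_nonneg (w_h0 A _ _ _) (w_h0 A _ _ _))

theorem w_eps_sq : P.eps ^ 2 ≤ P.X (-39999) := by
  have := P.w_cLam (c := 1) (k := 0) (j := 2) (by norm_num) (by norm_num) (by norm_num)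
    (a := -40000) (b := -39999) (by norm_num)
  refine le_trans (le_of_eq ?_) this
  unfold Par.eps
  rw [mul_pow, P.X_pow, show (-40000 : ℤ) = -20000 * (2 : ℕ) by norm_num]
  ring

theorem w_eps : P.eps ≤ P.X (-19999) := by
  have := P.w_cLam (c := 1) (k := 0) (j := 1) (by norm_num) (by norm_num) (by norm_num)
    (a := -20000) (b := -19999) (by norm_num)
  refine le_trans (le_of_eq ?_) this
  unfold Par.eps
  ring

theorem w_av_TT (u v : V) : av (fun w => ind (A.TT u v w)) ≤ P.X (-19959) := by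
  have h1 : ∀ w, P.theta * ind (A.TT u v w) ≤ A.lam3 u v w := by
    intro w
    by_cases h : A.TT u v w
    · rw [ind_pos h, mul_one]
      exact h.2.2
    · rw [ind_neg h, mul_zero]
      exact w_lam3_0 A u v w
  have h2 := (av_mono h1).trans (w_av_lam3 A u v)
  rw [av_mul_left] at h2
  have h3 : P.theta * P.X (-19959) = P.X (-39999) := by
    unfold Par.theta
    rw [P.X_mul]
    congr 1
  have h4 : P.eps * A.lam u v ≤ P.X (-39999) := by
    refine le_trans ?_ w_eps_sq
    rw [sq]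
    exact mul_le_mul_of_nonneg_left (w_lam_le A u v) P.eps_pos.le
  rw [← h3] at h4
  exact le_of_mul_le_mul_left (h2.trans h4) P.theta_pos

theorem w_hh0 (u v w : V) : 0 ≤ A.hh u v w := ind_nonneg _

theorem w_hh1 (u v w : V) : A.hh u v w ≤ 1 := ind_le_one _

theorem w_D3_12 {u v w : V} (h : Amb.D3 u v w) : Amb.D3 v u w := ⟨h.1.symm, h.2.2, h.2.1⟩

theorem w_D3_23 {u v w : V} (h : Amb.D3 u v w) : Amb.D3 u w v := ⟨h.2.1, h.1, h.2.2.symm⟩

theorem w_TT_12 {u v w : V} (h : A.TT u v w) : A.TT v u w :=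
  ⟨w_D3_12 h.1, fun h' => h.2.1 (A.s1 _ _ _ h'), by rw [w_lam3_12]; exact h.2.2⟩

theorem w_TT_23 {u v w : V} (h : A.TT u v w) : A.TT u w v :=
  ⟨w_D3_23 h.1, fun h' => h.2.1 (A.s2 _ _ _ h'), by rw [w_lam3_23]; exact h.2.2⟩

theorem w_hh12 (u v w : V) : A.hh u v w = A.hh v u w :=
  ind_congr ⟨fun h => h.imp (A.s1 _ _ _) (w_TT_12 A), fun h => h.imp (A.s1 _ _ _) (w_TT_12 A)⟩

theorem w_hh23 (u v w : V) : A.hh u v w = A.hh u w v :=
  ind_congr ⟨fun h => h.imp (A.s2 _ _ _) (w_TT_23 A), fun h => h.imp (A.s2 _ _ _) (w_TT_23 A)⟩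

theorem w_av_hh3 (u v : V) : av (fun w => A.hh u v w) ≤ P.X (-19958) := by
  have h1 : ∀ w, A.hh u v w ≤ A.h u v w + ind (A.TT u v w) := fun w => ind_or_le _ _
  refine (av_mono h1).trans ?_
  rw [av_add]
  have h2 := w_he3 A u v
  have h3 := w_av_TT A u v
  have h4 := w_eps (P := P)
  have h5 : P.X (-19999) ≤ P.X (-19959) := P.X_le (by norm_num)
  have h6 : 2 * P.X (-19959) ≤ P.X (-19958) := by
    refine P.mul_X_le ?_ (by norm_num)
    simpa using P.two_pow_le (k := 1) (by norm_num)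
  linarith

theorem w_av_hh2 (u w : V) : av (fun v => A.hh u v w) ≤ P.X (-19958) := by
  rw [av_congr fun v => w_hh23 A u v w]
  exact w_av_hh3 A u w

theorem w_av_hh1 (v w : V) : av (fun u => A.hh u v w) ≤ P.X (-19958) := by
  rw [av_congr fun u => (w_hh12 A u v w).trans (w_hh23 A v u w)]
  exact w_av_hh3 A v w

include A in
/-- three distinct vertices, symmetric function -/
theorem tailF_sym (hE : PosLin J E) (hdom : Dom P E) (K : ℕ) (f : V → V → V → ℝ)
    (hf : ∀ a b c, 0 ≤ f a b c) (s12 : ∀ a b c, f a b c = f b a c)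
    (s23 : ∀ a b c, f a b c = f a c b) {b0 b1 b2 : ℝ}
    (h0 : ∀ a b c, f a b c ≤ b0) (h1 : ∀ a b, av (fun c => f a b c) ≤ b1)
    (h2 : ∀ a, av (fun b => av (fun c => f a b c)) ≤ b2)
    {z : ℝ} (hz : 0 < z) (B : St V → Prop)
    (hB : ∀ s, J s → B s → z ≤ ∑ u ∈ s.F, ∑ v ∈ s.F, ∑ w ∈ s.F, ind (Amb.D3 u v w) * f u v w) :
    E (fun s => ind (B s)) ≤
      (((5 * P.X 10001) ^ 3 * b2 + 9 * K * ((5 * P.X 10001) ^ 2 * b2) +
        27 * K ^ 2 * (5 * P.X 10001 * b1) + 27 * K ^ 3 * b0) / z) ^ K := by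
  obtain ⟨v0⟩ := w_nonempty A
  have hb2 : 0 ≤ b2 := (av_nonneg fun b => av_nonneg fun c => hf v0 b c).trans (h2 v0)
  refine tailF_three A hE hdom K f hf h0 h1 (fun a c => ?_) (fun b c => ?_) h2 (fun b => ?_)
    (fun c => ?_) (av_le_const hb2 h2) hz B hB
  · rw [av_congr fun b => s23 a b c]
    exact h1 a c
  · rw [av_congr fun a => (s12 a b c).trans (s23 b a c)]
    exact h1 b c
  · rw [av_congr fun a => av_congr fun c => s12 a b c]
    exact h2 b
  · rw [av_congr fun a => av_congr fun b => (s23 a b c).trans (s12 a c b)]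
    exact h2 c

/-- the level three part of `Psi` -/
noncomputable def w_L (u v w : V) : ℝ :=
  P.X 20020 * (A.lam3 u v w * ind (A.lam3 u v w < P.theta))

/-- the rest of `Psi` -/
noncomputable def w_O (u v w : V) : ℝ :=
  P.X 10500 * (A.lam u v + A.lam u w + A.lam v w)
    + P.X 30080 * (A.nu w u v + A.nu v u w + A.nu u v w)
    + P.X 10020 * (A.mu u v w + A.mu v u w + A.mu w u v)
    + P.X 50220 * (A.chi u v + A.chi u w + A.chi v w)

theorem w_Psi_eq (u v w : V) : A.Psi u v w = P.X (-18600) + w_L A u v w + w_O A u v w := by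
  unfold Amb.Psi w_L w_O
  ring

theorem w_nu0 (w u v : V) : 0 ≤ A.nu w u v :=
  av_nonneg fun y => mul_nonneg (w_hh0 A _ _ _) (w_lam0 A _ _)

theorem w_mu0 (u v w : V) : 0 ≤ A.mu u v w :=
  av_nonneg fun y => mul_nonneg (w_hh0 A _ _ _) (w_hh0 A _ _ _)

theorem w_chi0 (u v : V) : 0 ≤ A.chi u v :=
  av_nonneg fun y => mul_nonneg (w_lam0 A _ _) (w_lam0 A _ _)

theorem w_nu23 (w u v : V) : A.nu w u v = A.nu w v u :=
  av_congr fun y => by rw [w_hh12 A u v y]

theorem w_mu23 (u v w : V) : A.mu u v w = A.mu u w v :=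
  av_congr fun y => mul_comm _ _

theorem w_chi_symm (u v : V) : A.chi u v = A.chi v u :=
  av_congr fun y => mul_comm _ _

theorem w_L0 (u v w : V) : 0 ≤ w_L A u v w :=
  mul_nonneg (P.X_pos _).le (mul_nonneg (w_lam3_0 A _ _ _) (ind_nonneg _))

theorem w_L12 (u v w : V) : w_L A u v w = w_L A v u w := by
  unfold w_L
  rw [w_lam3_12]

theorem w_L23 (u v w : V) : w_L A u v w = w_L A u w v := by
  unfold w_L
  rw [w_lam3_23]

theorem w_O0 (u v w : V) : 0 ≤ w_O A u v w := by
  have h1 := (P.X_pos 10500).le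
  have h2 := (P.X_pos 30080).le
  have h3 := (P.X_pos 10020).le
  have h4 := (P.X_pos 50220).le
  have a1 := w_lam0 A u v
  have a2 := w_lam0 A u w
  have a3 := w_lam0 A v w
  have b1 := w_nu0 A w u v
  have b2 := w_nu0 A v u w
  have b3 := w_nu0 A u v w
  have c1 := w_mu0 A u v w
  have c2 := w_mu0 A v u w
  have c3 := w_mu0 A w u v
  have d1 := w_chi0 A u v
  have d2 := w_chi0 A u w
  have d3 := w_chi0 A v w
  unfold w_O
  positivity

theorem w_O12 (u v w : V) : w_O A u v w = w_O A v u w := by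
  unfold w_O
  rw [w_lam_symm A u v, w_nu23 A w u v, w_mu23 A w u v, w_chi_symm A u v]
  ring

theorem w_O23 (u v w : V) : w_O A u v w = w_O A u w v := by
  unfold w_O
  rw [w_lam_symm A v w, w_nu23 A u v w, w_mu23 A u v w, w_chi_symm A v w]
  ring

theorem w_L_le (u v w : V) : w_L A u v w ≤ P.X (-20) := by
  have h1 : P.X 20020 * P.theta = P.X (-20) := by
    unfold Par.theta
    rw [P.X_mul]
    congr 1
  rw [← h1]
  unfold w_L
  refine mul_le_mul_of_nonneg_left ?_ (P.X_pos _).le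
  by_cases h : A.lam3 u v w < P.theta
  · rw [ind_pos h, mul_one]
    exact h.le
  · rw [ind_neg h, mul_zero]
    exact P.theta_pos.le

theorem w_av_L (u v : V) : av (fun w => w_L A u v w) ≤ P.X 20020 * (P.eps * A.lam u v) := by
  unfold w_L
  rw [av_mul_left]
  refine mul_le_mul_of_nonneg_left ?_ (P.X_pos _).le
  refine (av_mono fun w => ?_).trans (w_av_lam3 A u v)
  exact mul_le_of_le_one_right (w_lam3_0 A _ _ _) (ind_le_one _)

theorem w_av_L1 (u v : V) : av (fun w => w_L A u v w) ≤ P.X (-19979) := by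
  refine (w_av_L A u v).trans ?_
  have h1 : P.eps * A.lam u v ≤ P.X (-39999) := by
    refine le_trans ?_ w_eps_sq
    rw [sq]
    exact mul_le_mul_of_nonneg_left (w_lam_le A u v) P.eps_pos.le
  refine (mul_le_mul_of_nonneg_left h1 (P.X_pos 20020).le).trans (le_of_eq ?_)
  rw [P.X_mul]
  congr 1

theorem w_av_L2 (u : V) : av (fun v => av (fun w => w_L A u v w)) ≤ P.X (-39978) := by
  refine (av_mono fun v => w_av_L A u v).trans ?_
  rw [av_mul_left, av_mul_left]
  have h1 : P.eps * av (fun v => A.lam u v) ≤ P.X (-19999) * P.X (-39999) :=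
    mul_le_mul w_eps ((w_av_lam' A u).trans w_eps_sq) (av_nonneg fun v => w_lam0 A u v)
      (P.X_pos _).le
  refine (mul_le_mul_of_nonneg_left h1 (P.X_pos 20020).le).trans (le_of_eq ?_)
  rw [P.X_mul, P.X_mul]
  congr 1

theorem w_nu_le (w u v : V) : A.nu w u v ≤ P.X (-39957) := by
  unfold Amb.nu
  have h1 : ∀ y, A.hh u v y * A.lam w y ≤ A.hh u v y * P.X (-19999) := fun y =>
    mul_le_mul_of_nonneg_left ((w_lam_le A w y).trans w_eps) (w_hh0 A _ _ _)
  refine (av_mono h1).trans ?_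
  rw [av_mul_right]
  refine (mul_le_mul_of_nonneg_right (w_av_hh3 A u v) (P.X_pos _).le).trans (le_of_eq ?_)
  rw [P.X_mul]
  congr 1

theorem w_mu_le (u v w : V) : A.mu u v w ≤ P.X (-19958) :=
  (av_mono fun y => mul_le_of_le_one_right (w_hh0 A _ _ _) (w_hh1 A _ _ _)).trans (w_av_hh3 A u v)

theorem w_chi_le (u v : V) : A.chi u v ≤ P.X (-59998) := by
  unfold Amb.chi
  have h1 : ∀ y, A.lam u y * A.lam v y ≤ P.X (-19999) * A.lam v y := fun y =>
    mul_le_mul_of_nonneg_right ((w_lam_le A u y).trans w_eps) (w_lam0 A _ _)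
  refine (av_mono h1).trans ?_
  rw [av_mul_left]
  refine (mul_le_mul_of_nonneg_left ((w_av_lam' A v).trans w_eps_sq) (P.X_pos _).le).trans
    (le_of_eq ?_)
  rw [P.X_mul]
  congr 1

theorem w_O_le (u v w : V) : w_O A u v w ≤ P.X (-9498) := by
  have e : ∀ a b : ℤ, P.X a * P.X b = P.X (a + b) := P.X_mul
  have k1 : P.X 10500 * (A.lam u v + A.lam u w + A.lam v w) ≤ 3 * P.X (-9499) := by
    have h : A.lam u v + A.lam u w + A.lam v w ≤ 3 * P.X (-19999) := by
      have h1 := (w_lam_le A u v).trans w_eps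
      have h2 := (w_lam_le A u w).trans w_eps
      have h3 := (w_lam_le A v w).trans w_eps
      linarith
    refine (mul_le_mul_of_nonneg_left h (P.X_pos 10500).le).trans (le_of_eq ?_)
    rw [mul_left_comm, e]
    norm_num
  have k2 : P.X 30080 * (A.nu w u v + A.nu v u w + A.nu u v w) ≤ 3 * P.X (-9499) := by
    have h : A.nu w u v + A.nu v u w + A.nu u v w ≤ 3 * P.X (-39957) := by
      have h1 := w_nu_le A w u v
      have h2 := w_nu_le A v u w
      have h3 := w_nu_le A u v w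
      linarith
    refine (mul_le_mul_of_nonneg_left h (P.X_pos 30080).le).trans ?_
    rw [mul_left_comm, e]
    exact mul_le_mul_of_nonneg_left (P.X_le (by norm_num)) (by norm_num)
  have k3 : P.X 10020 * (A.mu u v w + A.mu v u w + A.mu w u v) ≤ 3 * P.X (-9499) := by
    have h : A.mu u v w + A.mu v u w + A.mu w u v ≤ 3 * P.X (-19958) := by
      have h1 := w_mu_le A u v w
      have h2 := w_mu_le A v u w
      have h3 := w_mu_le A w u v
      linarith
    refine (mul_le_mul_of_nonneg_left h (P.X_pos 10020).le).trans ?_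
    rw [mul_left_comm, e]
    exact mul_le_mul_of_nonneg_left (P.X_le (by norm_num)) (by norm_num)
  have k4 : P.X 50220 * (A.chi u v + A.chi u w + A.chi v w) ≤ 3 * P.X (-9499) := by
    have h : A.chi u v + A.chi u w + A.chi v w ≤ 3 * P.X (-59998) := by
      have h1 := w_chi_le A u v
      have h2 := w_chi_le A u w
      have h3 := w_chi_le A v w
      linarith
    refine (mul_le_mul_of_nonneg_left h (P.X_pos 50220).le).trans ?_
    rw [mul_left_comm, e]
    exact mul_le_mul_of_nonneg_left (P.X_le (by norm_num)) (by norm_num)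
  have k5 : 12 * P.X (-9499) ≤ P.X (-9498) := by
    refine P.mul_X_le ?_ (by norm_num)
    refine le_trans ?_ (P.two_pow_le (k := 4) (by norm_num))
    norm_num
  unfold w_O
  linarith

theorem w_av_nu1 (u v : V) : av (fun w => A.nu w u v) ≤ P.X (-59957) := by
  unfold Amb.nu
  rw [av_comm]
  have h1 : ∀ y, av (fun w => A.hh u v y * A.lam w y) ≤ A.hh u v y * P.X (-39999) := by
    intro y
    rw [av_mul_left]
    exact mul_le_mul_of_nonneg_left ((w_av_lam A y).trans w_eps_sq) (w_hh0 A _ _ _)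
  refine (av_mono h1).trans ?_
  rw [av_mul_right]
  refine (mul_le_mul_of_nonneg_right (w_av_hh3 A u v) (P.X_pos _).le).trans (le_of_eq ?_)
  rw [P.X_mul]
  congr 1

theorem w_av_nu3 (u v : V) : av (fun w => A.nu u v w) ≤ P.X (-59957) := by
  unfold Amb.nu
  rw [av_comm]
  have h1 : ∀ y, av (fun w => A.hh v w y * A.lam u y) ≤ P.X (-19958) * A.lam u y := by
    intro y
    rw [av_mul_right]
    exact mul_le_mul_of_nonneg_right (w_av_hh2 A v y) (w_lam0 A _ _)
  refine (av_mono h1).trans ?_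
  rw [av_mul_left]
  refine (mul_le_mul_of_nonneg_left ((w_av_lam' A u).trans w_eps_sq) (P.X_pos _).le).trans
    (le_of_eq ?_)
  rw [P.X_mul]
  congr 1

theorem w_av_mu3 (u v : V) : av (fun w => A.mu u v w) ≤ P.X (-39916) := by
  unfold Amb.mu
  rw [av_comm]
  have h1 : ∀ y, av (fun w => A.hh u v y * A.hh u w y) ≤ A.hh u v y * P.X (-19958) := by
    intro y
    rw [av_mul_left]
    exact mul_le_mul_of_nonneg_left (w_av_hh2 A u y) (w_hh0 A _ _ _)
  refine (av_mono h1).trans ?_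
  rw [av_mul_right]
  refine (mul_le_mul_of_nonneg_right (w_av_hh3 A u v) (P.X_pos _).le).trans (le_of_eq ?_)
  rw [P.X_mul]
  congr 1

theorem w_av_chi2 (u : V) : av (fun v => A.chi u v) ≤ P.X (-79998) := by
  unfold Amb.chi
  rw [av_comm]
  have h1 : ∀ y, av (fun v => A.lam u y * A.lam v y) ≤ A.lam u y * P.X (-39999) := by
    intro y
    rw [av_mul_left]
    exact mul_le_mul_of_nonneg_left ((w_av_lam A y).trans w_eps_sq) (w_lam0 A _ _)
  refine (av_mono h1).trans ?_
  rw [av_mul_right]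
  refine (mul_le_mul_of_nonneg_right ((w_av_lam' A u).trans w_eps_sq) (P.X_pos _).le).trans
    (le_of_eq ?_)
  rw [P.X_mul]
  congr 1

theorem w_av_O2 (u : V) : av (fun v => av (fun w => w_O A u v w)) ≤ P.X (-29498) := by
  have e : ∀ a b : ℤ, P.X a * P.X b = P.X (a + b) := P.X_mul
  have hX : ∀ k, 0 ≤ P.X k := fun k => (P.X_pos k).le
  -- the twelve averages
  have l1 : av (fun v => av (fun w : V => A.lam u v)) ≤ P.X (-39999) :=
    (av_mono fun v => av_le_const (w_lam0 A u v) fun _ => le_rfl).trans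
      ((w_av_lam' A u).trans w_eps_sq)
  have l2 : av (fun v : V => av (fun w => A.lam u w)) ≤ P.X (-39999) :=
    av_le_const (hX _) fun _ => (w_av_lam' A u).trans w_eps_sq
  have l3 : av (fun v => av (fun w => A.lam v w)) ≤ P.X (-39999) :=
    av_le_const (hX _) fun v => (w_av_lam' A v).trans w_eps_sq
  have n1 : av (fun v => av (fun w => A.nu w u v)) ≤ P.X (-59957) :=
    av_le_const (hX _) fun v => w_av_nu1 A u v
  have n2 : av (fun v => av (fun w => A.nu v u w)) ≤ P.X (-59957) := by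
    rw [av_comm]
    exact av_le_const (hX _) fun w => w_av_nu1 A u w
  have n3 : av (fun v => av (fun w => A.nu u v w)) ≤ P.X (-59957) :=
    av_le_const (hX _) fun v => w_av_nu3 A u v
  have m1 : av (fun v => av (fun w => A.mu u v w)) ≤ P.X (-39916) :=
    av_le_const (hX _) fun v => w_av_mu3 A u v
  have m2 : av (fun v => av (fun w => A.mu v u w)) ≤ P.X (-39916) :=
    av_le_const (hX _) fun v => w_av_mu3 A v u
  have m3 : av (fun v => av (fun w => A.mu w u v)) ≤ P.X (-39916) := by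
    rw [av_comm]
    exact av_le_const (hX _) fun w => w_av_mu3 A w u
  have c1 : av (fun v => av (fun w : V => A.chi u v)) ≤ P.X (-79998) :=
    (av_mono fun v => av_le_const (w_chi0 A u v) fun _ => le_rfl).trans (w_av_chi2 A u)
  have c2 : av (fun v : V => av (fun w => A.chi u w)) ≤ P.X (-79998) :=
    av_le_const (hX _) fun _ => w_av_chi2 A u
  have c3 : av (fun v => av (fun w => A.chi v w)) ≤ P.X (-79998) :=
    av_le_const (hX _) fun v => w_av_chi2 A v
  unfold w_O
  simp only [av_add, av_mul_left]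
  have k1 := mul_le_mul_of_nonneg_left (add_le_add (add_le_add l1 l2) l3) (hX 10500)
  have k2 := mul_le_mul_of_nonneg_left (add_le_add (add_le_add n1 n2) n3) (hX 30080)
  have k3 := mul_le_mul_of_nonneg_left (add_le_add (add_le_add m1 m2) m3) (hX 10020)
  have k4 := mul_le_mul_of_nonneg_left (add_le_add (add_le_add c1 c2) c3) (hX 50220)
  have j1 : P.X 10500 * (P.X (-39999) + P.X (-39999) + P.X (-39999)) ≤ 3 * P.X (-29499) := by
    have : P.X 10500 * P.X (-39999) = P.X (-29499) := by rw [e]; congr 1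
    rw [← this]
    linarith
  have j2 : P.X 30080 * (P.X (-59957) + P.X (-59957) + P.X (-59957)) ≤ 3 * P.X (-29499) := by
    have h1 : P.X 30080 * P.X (-59957) = P.X (-29877) := by rw [e]; congr 1
    have h2 : P.X (-29877) ≤ P.X (-29499) := P.X_le (by norm_num)
    linarith
  have j3 : P.X 10020 * (P.X (-39916) + P.X (-39916) + P.X (-39916)) ≤ 3 * P.X (-29499) := by
    have h1 : P.X 10020 * P.X (-39916) = P.X (-29896) := by rw [e]; congr 1
    have h2 : P.X (-29896) ≤ P.X (-29499) := P.X_le (by norm_num)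
    linarith
  have j4 : P.X 50220 * (P.X (-79998) + P.X (-79998) + P.X (-79998)) ≤ 3 * P.X (-29499) := by
    have h1 : P.X 50220 * P.X (-79998) = P.X (-29778) := by rw [e]; congr 1
    have h2 : P.X (-29778) ≤ P.X (-29499) := P.X_le (by norm_num)
    linarith
  have j5 : 12 * P.X (-29499) ≤ P.X (-29498) := by
    refine P.mul_X_le ?_ (by norm_num)
    refine le_trans ?_ (P.two_pow_le (k := 4) (by norm_num))
    norm_num
  linarith

theorem w_Psi_sq (u v w : V) : A.Psi u v w ^ 2 ≤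
    3 * (P.X (-37200) + P.X (-20) * w_L A u v w + P.X (-9498) * w_O A u v w) := by
  rw [w_Psi_eq]
  have h1 := w_L0 A u v w
  have h2 := w_O0 A u v w
  have h3 := mul_le_mul_of_nonneg_right (w_L_le A u v w) h1
  have h4 := mul_le_mul_of_nonneg_right (w_O_le A u v w) h2
  have h5 : P.X (-18600) * P.X (-18600) = P.X (-37200) := by
    rw [P.X_mul]
    congr 1
  nlinarith [sq_nonneg (P.X (-18600) - w_L A u v w), sq_nonneg (P.X (-18600) - w_O A u v w),
    sq_nonneg (w_L A u v w - w_O A u v w)]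

theorem w_av_Psi1 (a b : V) : av (fun c => A.Psi a b c ^ 2) ≤ P.X (-18995) := by
  have e : ∀ a b : ℤ, P.X a * P.X b = P.X (a + b) := P.X_mul
  have hX' : ∀ k, 0 ≤ P.X k := fun k => (P.X_pos k).le
  have hle : ∀ {a b : ℤ}, a ≤ b → P.X a ≤ P.X b := fun h => P.X_le h
  have hc : ∀ (c : ℝ) (k : ℕ), c ≤ 2 ^ k → k ≤ 1000000000 → ∀ a b : ℤ, a + 1 ≤ b →
      c * P.X a ≤ P.X b := fun c k h1 h2 a b h3 => P.mul_X_le (h1.trans (P.two_pow_le h2)) h3
  refine (av_mono fun c => w_Psi_sq A a b c).trans ?_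
  rw [av_mul_left, av_add, av_add, av_mul_left, av_mul_left]
  have h0 : av (fun _ : V => P.X (-37200)) ≤ P.X (-18996) :=
    av_le_const (hX' _) fun _ => hle (by norm_num)
  have h1 : P.X (-20) * av (fun c => w_L A a b c) ≤ P.X (-18996) := by
    refine (mul_le_mul_of_nonneg_left (w_av_L1 A a b) (hX' _)).trans ?_
    rw [e]
    exact hle (by norm_num)
  have h2 : P.X (-9498) * av (fun c => w_O A a b c) ≤ P.X (-18996) := by
    refine (mul_le_mul_of_nonneg_left (av_le_const (hX' _) fun c => w_O_le A a b c)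
      (hX' _)).trans (le_of_eq ?_)
    rw [e]
    congr 1
  have h4 := hc 9 4 (by norm_num) (by norm_num) (-18996) (-18995) (by norm_num)
  linarith

theorem w_av_Psi2 (a : V) : av (fun b => av (fun c => A.Psi a b c ^ 2)) ≤ P.X (-37199) := by
  have e : ∀ a b : ℤ, P.X a * P.X b = P.X (a + b) := P.X_mul
  have hX' : ∀ k, 0 ≤ P.X k := fun k => (P.X_pos k).le
  have hle : ∀ {a b : ℤ}, a ≤ b → P.X a ≤ P.X b := fun h => P.X_le h
  have hc : ∀ (c : ℝ) (k : ℕ), c ≤ 2 ^ k → k ≤ 1000000000 → ∀ a b : ℤ, a + 1 ≤ b →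
      c * P.X a ≤ P.X b := fun c k h1 h2 a b h3 => P.mul_X_le (h1.trans (P.two_pow_le h2)) h3
  refine (av_mono fun b => av_mono fun c => w_Psi_sq A a b c).trans ?_
  simp only [av_add, av_mul_left]
  have h0 : av (fun _ : V => av (fun _ : V => P.X (-37200))) ≤ P.X (-37200) :=
    av_le_const (hX' _) fun _ => av_le_const (hX' _) fun _ => le_rfl
  have h1 : P.X (-20) * av (fun b => av (fun c => w_L A a b c)) ≤ P.X (-37200) := by
    refine (mul_le_mul_of_nonneg_left (w_av_L2 A a) (hX' _)).trans ?_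
    rw [e]
    exact hle (by norm_num)
  have h2 : P.X (-9498) * av (fun b => av (fun c => w_O A a b c)) ≤ P.X (-37200) := by
    refine (mul_le_mul_of_nonneg_left (w_av_O2 A a) (hX' _)).trans ?_
    rw [e]
    exact hle (by norm_num)
  have h4 := hc 9 4 (by norm_num) (by norm_num) (-37200) (-37199) (by norm_num)
  linarith

/-- **G9** -/
theorem win_g9 (hE : PosLin J E) (hdom : Dom P E) :
    E (fun s => ind (¬ s.Z9 A ≤ 1 / 10 ^ 7)) ≤ P.X (-1020000) := by
  obtain ⟨K, hK⟩ : ∃ K : ℕ, K = 30000 := ⟨_, rfl⟩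
  have e : ∀ a b : ℤ, P.X a * P.X b = P.X (a + b) := P.X_mul
  have hX : ∀ k, 0 < P.X k := P.X_pos
  have hX' : ∀ k, 0 ≤ P.X k := fun k => (P.X_pos k).le
  have hle : ∀ {a b : ℤ}, a ≤ b → P.X a ≤ P.X b := fun h => P.X_le h
  have hc : ∀ (c : ℝ) (k : ℕ), c ≤ 2 ^ k → k ≤ 1000000000 → ∀ a b : ℤ, a + 1 ≤ b →
      c * P.X a ≤ P.X b := fun c k h1 h2 a b h3 => P.mul_X_le (h1.trans (P.two_pow_le h2)) h3
  -- the bounds for `Psi ^ 2`
  have s12 : ∀ a b c : V, A.Psi a b c ^ 2 = A.Psi b a c ^ 2 := by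
    intro a b c
    rw [w_Psi_eq, w_Psi_eq, w_L12 A a b c, w_O12 A a b c]
  have s23 : ∀ a b c : V, A.Psi a b c ^ 2 = A.Psi a c b ^ 2 := by
    intro a b c
    rw [w_Psi_eq, w_Psi_eq, w_L23 A a b c, w_O23 A a b c]
  have b0 : ∀ a b c : V, A.Psi a b c ^ 2 ≤ P.X (-39) := by
    intro a b c
    refine (w_Psi_sq A a b c).trans ?_
    have h1 : P.X (-20) * w_L A a b c ≤ P.X (-40) := by
      refine (mul_le_mul_of_nonneg_left (w_L_le A a b c) (hX' _)).trans (le_of_eq ?_)
      rw [e]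
      congr 1
    have h2 : P.X (-9498) * w_O A a b c ≤ P.X (-40) := by
      refine (mul_le_mul_of_nonneg_left (w_O_le A a b c) (hX' _)).trans ?_
      rw [e]
      exact hle (by norm_num)
    have h3 : P.X (-37200) ≤ P.X (-40) := hle (by norm_num)
    have h4 := hc 9 4 (by norm_num) (by norm_num) (-40) (-39) (by norm_num)
    linarith
  have hz : (0 : ℝ) < 1 / 10 ^ 7 := by norm_num
  refine (tailF_sym A hE hdom K (fun a b c => A.Psi a b c ^ 2) (fun _ _ _ => sq_nonneg _) s12 s23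
    b0 (w_av_Psi1 A) (w_av_Psi2 A) hz _ (fun s _ hs => (not_le.1 hs).le)).trans ?_
  have k1 : (5 * P.X 10001) ^ 3 * P.X (-37199) ≤ P.X (-38) := by
    have h1 : (5 * P.X 10001) ^ 3 * P.X (-37199) = 125 * P.X (-7196) := by
      rw [mul_pow, P.X_pow, mul_assoc, e]
      norm_num
    rw [h1]
    exact hc 125 7 (by norm_num) (by norm_num) _ _ (by norm_num)
  have k2 : 9 * K * ((5 * P.X 10001) ^ 2 * P.X (-37199)) ≤ P.X (-38) := by
    have h1 : 9 * K * ((5 * P.X 10001) ^ 2 * P.X (-37199)) = 225 * K * P.X (-17197) := by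
      rw [mul_pow, P.X_pow, mul_assoc (5 ^ 2), e]
      norm_num
      ring
    rw [h1]
    exact hc _ 24 (by rw [hK]; norm_num) (by norm_num) _ _ (by norm_num)
  have k3 : 27 * K ^ 2 * (5 * P.X 10001 * P.X (-18995)) ≤ P.X (-38) := by
    have h1 : 27 * (K : ℝ) ^ 2 * (5 * P.X 10001 * P.X (-18995)) =
        135 * (K : ℝ) ^ 2 * P.X (-8994) := by
      rw [mul_assoc 5, e]
      norm_num
      ring
    rw [h1]
    exact hc _ 40 (by rw [hK]; norm_num) (by norm_num) _ _ (by norm_num)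
  have k4 : 27 * K ^ 3 * P.X (-39) ≤ P.X (-38) :=
    hc _ 60 (by rw [hK]; norm_num) (by norm_num) _ _ (by norm_num)
  have k5 : 4 * 10 ^ 7 * P.X (-38) ≤ 1 * P.X (-37) := by
    rw [one_mul]
    exact hc _ 26 (by norm_num) (by norm_num) _ _ (by norm_num)
  have h0 : (0 : ℝ) ≤ ((5 * P.X 10001) ^ 3 * P.X (-37199) +
      9 * K * ((5 * P.X 10001) ^ 2 * P.X (-37199)) +
      27 * K ^ 2 * (5 * P.X 10001 * P.X (-18995)) + 27 * K ^ 3 * P.X (-39)) / (1 / 10 ^ 7) := by
    have h1 := hX 10001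
    have h2 := hX (-37199)
    have h3 := hX (-18995)
    have h4 := hX (-39)
    positivity
  have hr : ((5 * P.X 10001) ^ 3 * P.X (-37199) + 9 * K * ((5 * P.X 10001) ^ 2 * P.X (-37199)) +
      27 * K ^ 2 * (5 * P.X 10001 * P.X (-18995)) + 27 * K ^ 3 * P.X (-39)) / (1 / 10 ^ 7) ≤
      1 * P.X (-37) := by
    rw [div_le_iff₀ hz]
    have : P.X (-38) * 4 ≤ 1 * P.X (-37) * (1 / 10 ^ 7) := by
      linarith
    linarith
  refine (pow_le_pow_left₀ h0 hr _).trans ?_
  refine (P.w_cpow (by norm_num) (j := 0) (by norm_num) (by omega) (-37)).trans ?_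
  exact P.X_le (by omega)

end Win

end MP5cA
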