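import Pool.Agent.Lib.MP_5c685b_co.A.R01
import Pool.Agent.Lib.MP_5c685b_co.A.Win

/-!
# Route A', row R01b: the class norms of `Psi` (text, section 7, table)
-/

set_option autoImplicit false
set_option linter.unusedVariables false
set_option linter.unusedSectionVars false

open Finset

namespace MP5cA

variable {V : Type} [Fintype V] [DecidableEq V] {P : Par}

namespace Amb

variable (A : Amb P V)

/-- sup norm -/
theorem Psi_sup (u v w : V) : A.Psi u v w ≤ P.X (-15) := by
  rw [w_Psi_eq]
  have h1 := w_L_le A u v w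
  have h2 := w_O_le A u v w
  have h3 : P.X (-18600) ≤ P.X (-20) := P.X_le (by norm_num)
  have h4 : P.X (-9498) ≤ P.X (-20) := P.X_le (by norm_num)
  have h5 : 3 * P.X (-20) ≤ P.X (-15) := P.mul_X_le (by
    refine le_trans ?_ (P.two_pow_le (k := 2) (by norm_num))
    norm_num) (by norm_num)
  linarith

/-- symmetry of `Psi` -/
theorem Psi_s1 (u v w : V) : A.Psi u v w = A.Psi v u w := by
  rw [w_Psi_eq, w_Psi_eq, w_L12 A u v w, w_O12 A u v w]

theorem Psi_s2 (u v w : V) : A.Psi u v w = A.Psi u w v := by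
  rw [w_Psi_eq, w_Psi_eq, w_L23 A u v w, w_O23 A u v w]

/-- one variable average -/
theorem Psi_1 (u v : V) : av (fun w => A.Psi u v w ^ 2) ≤ P.X (-10030) :=
  (w_av_Psi1 A u v).trans (P.X_le (by norm_num))

/-- two variable average -/
theorem Psi_2 (u : V) : av (fun v => av fun w => A.Psi u v w ^ 2) ≤ P.X (-20030) :=
  (w_av_Psi2 A u).trans (P.X_le (by norm_num))

/-- total average -/
theorem Psi_3 : av (fun u => av fun v => av fun w => A.Psi u v w ^ 2) ≤ P.X (-30030) :=
  av_le_const (P.X_pos _).le fun u => (w_av_Psi2 A u).trans (P.X_le (by norm_num))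

end Amb

end MP5cA
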