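import Pool.Agent.Lib.MP_5c685b_co.A.R01
import Pool.Agent.Lib.MP_5c685b_co.A.Bridge

/-!
# Route A', row R02: the frame (expectation functional `EE`), given that `Inv` is preserved

The four facts about `Inv` are rows R05 - R10; here they are bundled in the hypothesis `IPres A`.
-/

set_option autoImplicit false
set_option linter.unusedVariables false
set_option linter.unusedSectionVars false

open Finset

namespace MP5cA

variable {V : Type} [Fintype V] [DecidableEq V] {P : Par}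

/-- `Inv` is preserved (proved in R10) -/
structure IPres (A : Amb P V) : Prop where
  init : (s0 : St V).Inv A 0
  mono : ∀ (s : St V) (t : ℕ), s.Inv A t → s.Inv A (t + 1)
  take : ∀ (s : St V) (t : ℕ) (κ : V → V → V → ℝ) (x : V), t < P.T → KOK A κ → s.Inv A t →
    s.Good A → 0 < s.R x → (s.take P κ x).Inv A (t + 1)
  skip : ∀ (s : St V) (t : ℕ) (κ : V → V → V → ℝ), t < P.T → KOK A κ → s.Inv A t →
    s.Good A → (s.skip P κ).Inv A (t + 1)

/-- symmetric states -/
def r02_Sym (s : St V) : Prop := ∀ v w, s.rho v w = s.rho w v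

theorem r02_kap {A : Amb P V} (E : (St V → ℝ) → ℝ)
    (hE : ∀ f g : St V → ℝ, (∀ s, r02_Sym s → f s = g s) → E f = E g) : KOK A (kap A E) where
  s1 u v w := by
    have h1 : E (fun s => ind (s.Good A) * s.W u v w) = E (fun s => ind (s.Good A) * s.W v u w) :=
      hE _ _ fun s hs => by
        unfold St.W
        rw [hs u v]
        ring
    have h2 : ind (Amb.D3 u v w ∧ ¬ A.H u v w) = ind (Amb.D3 v u w ∧ ¬ A.H v u w) :=
      ind_congr (and_congr Amb.D3_swap (not_congr ⟨A.s1 u v w, A.s1 v u w⟩))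
    unfold kap
    rw [h1, h2]
    by_cases h : A.TT u v w
    · rw [if_pos h, if_pos (A.TT_s1.1 h)]
    · rw [if_neg h, if_neg fun h' => h (A.TT_s1.2 h')]
  s2 u v w := by
    have h1 : E (fun s => ind (s.Good A) * s.W u v w) = E (fun s => ind (s.Good A) * s.W u w v) :=
      hE _ _ fun s hs => by
        unfold St.W
        rw [hs v w]
        ring
    have h2 : ind (Amb.D3 u v w ∧ ¬ A.H u v w) = ind (Amb.D3 u w v ∧ ¬ A.H u w v) :=
      ind_congr (and_congr Amb.D3_swap' (not_congr ⟨A.s2 u v w, A.s2 u w v⟩))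
    unfold kap
    rw [h1, h2]
    by_cases h : A.TT u v w
    · rw [if_pos h, if_pos (A.TT_s2.1 h)]
    · rw [if_neg h, if_neg fun h' => h (A.TT_s2.2 h')]
  kH u v w h := by
    unfold kap
    rw [ind_neg, zero_mul]
    rintro ⟨h1, h2⟩
    rcases h with h | h
    · exact h2 h
    · exact h h1
  k1 u v w hd hH hT := by
    unfold kap
    rw [ind_pos ⟨hd, hH⟩, if_neg hT, one_mul]
  kl u v w hT := by
    unfold kap
    rw [ind_pos ⟨hT.1, hT.2.1⟩, if_pos hT, one_mul]
    exact le_max_left _ _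
  ku u v w hT := by
    have hKp : 0 ≤ P.Kp := by
      unfold Par.Kp
      linarith [P.Lam_pos]
    unfold kap
    rw [ind_pos ⟨hT.1, hT.2.1⟩, if_pos hT, one_mul]
    exact max_le (Real.exp_le_exp.2 (by linarith)) (min_le_left _ _)

theorem r02_take {A : Amb P V} {κ : V → V → V → ℝ} (hk : KOK A κ) {s : St V} (hs : r02_Sym s)
    (x : V) : r02_Sym (s.take P κ x) := by
  intro v w
  change s.rho v w * κ x v w = s.rho w v * κ x w v
  rw [hs v w, hk.s2 x v w]

theorem r02_skip {A : Amb P V} {κ : V → V → V → ℝ} (hk : KOK A κ) {s : St V} (hs : r02_Sym s) :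
    r02_Sym (s.skip P κ) := by
  intro v w
  have h1 : s.m2 κ v w = s.m2 κ w v := by
    unfold St.m2
    refine av_congr fun y => ?_
    rw [hk.s1 v w y]
    ring
  change s.rho v w * ((1 - P.zeta * s.m2 κ v w) * (1 - P.zeta * s.m0)) /
    ((1 - P.zeta * s.m1 v) * (1 - P.zeta * s.m1 w)) =
    s.rho w v * ((1 - P.zeta * s.m2 κ w v) * (1 - P.zeta * s.m0)) /
    ((1 - P.zeta * s.m1 w) * (1 - P.zeta * s.m1 v))
  rw [hs v w, h1, mul_comm (1 - P.zeta * s.m1 v)]

/-- only symmetric states matter -/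
theorem r02_sym (A : Amb P V) (t : ℕ) : ∀ f g : St V → ℝ, (∀ s, r02_Sym s → f s = g s) →
    EE A t f = EE A t g := by
  induction t with
  | zero =>
    intro f g h
    exact h s0 fun v w => ind_congr ⟨fun h => h.symm, fun h => h.symm⟩
  | succ t ih =>
    intro f g h
    have hk : KOK A (kt A t) := r02_kap (EE A t) ih
    change EE A t (stepG A (kt A t) f) = EE A t (stepG A (kt A t) g)
    refine ih _ _ fun s hs => ?_
    unfold stepG St.step
    rw [h s hs, h _ (r02_skip hk hs), av_congr fun x => by rw [h _ (r02_take hk hs x)]]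

/-- the factors at time `t` are fine (thanks to the clamp) -/
theorem kt_ok (A : Amb P V) (t : ℕ) : KOK A (kt A t) := by
  exact r02_kap (EE A t) (r02_sym A t)

theorem EE_zero (A : Amb P V) (f : St V → ℝ) : EE A 0 f = f s0 := rfl

theorem EE_succ (A : Amb P V) (t : ℕ) (f : St V → ℝ) :
    EE A (t + 1) f = EE A t (stepG A (kt A t) f) := rfl

/-! linearity (no hypothesis) -/

theorem EE_add (A : Amb P V) (t : ℕ) (f g : St V → ℝ) :
    EE A t (fun s => f s + g s) = EE A t f + EE A t g := by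
  exact Br.EE_add A t f g

theorem EE_mul (A : Amb P V) (t : ℕ) (c : ℝ) (f : St V → ℝ) :
    EE A t (fun s => c * f s) = c * EE A t f := by
  exact Br.EE_smul A t c f

theorem EE_sub (A : Amb P V) (t : ℕ) (f g : St V → ℝ) :
    EE A t (fun s => f s - g s) = EE A t f - EE A t g := by
  exact Br.EE_sub A t f g

theorem EE_sum (A : Amb P V) (t : ℕ) {ι : Type} (I : Finset ι) (f : ι → St V → ℝ) :
    EE A t (fun s => ∑ i ∈ I, f i s) = ∑ i ∈ I, EE A t (f i) := by
  exact Br.EE_sum A I t f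

theorem EE_av (A : Amb P V) (t : ℕ) {W : Type} [Fintype W] (f : W → St V → ℝ) :
    EE A t (fun s => av fun i => f i s) = av fun i => EE A t (f i) := by
  have h1 : (fun s => av fun i => f i s) =
      fun s : St V => (Fintype.card W : ℝ)⁻¹ * ∑ i, f i s := by
    funext s
    unfold av
    ring
  rw [h1, EE_mul, EE_sum]
  unfold av
  ring

theorem EE_const (A : Amb P V) (t : ℕ) (c : ℝ) : EE A t (fun _ => c) = c := by
  exact Br.EE_const A t c

/-! monotonicity on the invariant -/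

/-- at a good state with the invariant, `zeta * m0 ≤ 1 / 2` -/
theorem zm0_le (A : Amb P V) {s : St V} {t : ℕ} (hi : s.Inv A t) (hg : s.Good A) :
    0 ≤ s.m0 ∧ P.zeta * s.m0 ≤ 1 / 2 := by
  have h0 : 0 ≤ s.m0 := av_nonneg hi.Rn
  refine ⟨h0, ?_⟩
  have h1 : P.zeta * s.m0 ≤ P.zeta * P.x :=
    mul_le_mul_of_nonneg_left (Br.good_m0_le hg) P.zeta_pos.le
  have h2 : P.zeta * P.x = P.X (-99999) := by
    unfold Par.zeta
    rw [← P.X_one, P.X_mul]
    norm_num
  have h3 : 2 * P.X (-99999) ≤ P.X 0 := by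
    refine P.mul_X_le ?_ (by norm_num)
    have := P.two_pow_le (k := 1) (by norm_num)
    simpa using this
  rw [P.X_zero] at h3
  linarith

theorem step_mono (A : Amb P V) (hI : IPres A) {t : ℕ} (ht : t < P.T) {κ : V → V → V → ℝ}
    (hκ : KOK A κ) {s : St V} (hi : s.Inv A t) (hg : s.Good A) {f g : St V → ℝ}
    (h : ∀ s' : St V, s'.Inv A (t + 1) → f s' ≤ g s') : s.step P κ f ≤ s.step P κ g := by
  exact Br.step_mono κ hi.Rn hg (fun x hx => h _ (hI.take s t κ x ht hκ hi hg hx))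
    (h _ (hI.skip s t κ ht hκ hi hg))

theorem r02_inv (A : Amb P V) (hI : IPres A) : Br.InvOK A := fun t s ht hs hg =>
  ⟨hI.skip s t _ ht (kt_ok A t) hs hg, fun x hx => hI.take s t _ x ht (kt_ok A t) hs hg hx⟩

/-- two sided comparison of the good and the frozen part, one slot -/
theorem EE_succ_le (A : Amb P V) (hI : IPres A) {t : ℕ} (ht : t < P.T) {f g : St V → ℝ}
    (h1 : ∀ s : St V, s.Inv A t → s.Good A → s.step P (kt A t) f ≤ g s)
    (h2 : ∀ s : St V, s.Inv A t → ¬ s.Good A → f s ≤ g s) : EE A (t + 1) f ≤ EE A t g := by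
  rw [EE_succ]
  refine Br.EE_mono (r02_inv A hI) ht.le fun s hs => ?_
  by_cases hg : s.Good A
  · rw [Br.stepG_good _ _ hg]
    exact h1 s hs hg
  · rw [Br.stepG_bad _ _ hg]
    exact h2 s hs hg

theorem EE_mono (A : Amb P V) (hI : IPres A) {t : ℕ} (ht : t ≤ P.T) {f g : St V → ℝ}
    (h : ∀ s : St V, s.Inv A t → f s ≤ g s) : EE A t f ≤ EE A t g := by
  exact Br.EE_mono (r02_inv A hI) ht h

theorem EE_congr (A : Amb P V) (hI : IPres A) {t : ℕ} (ht : t ≤ P.T) {f g : St V → ℝ}
    (h : ∀ s : St V, s.Inv A t → f s = g s) : EE A t f = EE A t g :=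
  le_antisymm (EE_mono A hI ht fun s hs => (h s hs).le) (EE_mono A hI ht fun s hs => (h s hs).ge)

theorem EE_nonneg (A : Amb P V) (hI : IPres A) {t : ℕ} (ht : t ≤ P.T) {f : St V → ℝ}
    (h : ∀ s : St V, s.Inv A t → 0 ≤ f s) : 0 ≤ EE A t f := by
  exact Br.EE_nonneg (r02_inv A hI) ht h

/-- expansion of one slot: increment form -/
theorem EE_succ_sub (A : Amb P V) (t : ℕ) (f : St V → ℝ) :
    EE A (t + 1) f - EE A t f
      = EE A t (fun s => ind (s.Good A) * (s.step P (kt A t) f - f s)) := by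
  rw [EE_succ, ← EE_sub]
  congr 1
  funext s
  unfold stepG
  ring

/-- Markov -/
theorem EE_markov (A : Amb P V) (hI : IPres A) {t : ℕ} (ht : t ≤ P.T) {f : St V → ℝ} {c : ℝ}
    (hc : 0 < c) {Q : St V → Prop} (h0 : ∀ s : St V, s.Inv A t → 0 ≤ f s)
    (h1 : ∀ s : St V, s.Inv A t → Q s → c ≤ f s) :
    EE A t (fun s => ind (Q s)) ≤ EE A t f / c := by
  rw [le_div_iff₀ hc, mul_comm]
  exact Br.EE_markov (r02_inv A hI) ht Q h0 h1

/-- a nonzero expectation comes from a reachable state -/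
theorem EE_ne_zero (A : Amb P V) (hI : IPres A) {t : ℕ} (ht : t ≤ P.T) {f : St V → ℝ}
    (h : EE A t f ≠ 0) : ∃ s : St V, s.Inv A t ∧ f s ≠ 0 := by
  by_contra hcon
  push_neg at hcon
  refine h ?_
  rw [EE_congr A hI ht (g := fun _ => 0) (fun s hs => hcon s hs), EE_const]

/-- the probability of bad states is nondecreasing in time -/
theorem Pb_mono (A : Amb P V) (hI : IPres A) {t t' : ℕ} (h : t ≤ t') (ht : t' ≤ P.T) :
    Pb A t ≤ Pb A t' := by
  obtain ⟨k, rfl⟩ := Nat.exists_eq_add_of_le h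
  exact Br.Pb_mono (r02_inv A hI) ht

/-- growth of a potential -/
theorem EE_growth (A : Amb P V) (hI : IPres A) {Φ : St V → ℝ} {a b : ℝ} (ha : 0 ≤ a) (hb : 0 ≤ b)
    (h0 : ∀ (t : ℕ) (s : St V), t ≤ P.T → s.Inv A t → 0 ≤ Φ s)
    (h1 : ∀ (t : ℕ) (s : St V), t < P.T → s.Inv A t → s.Good A →
      s.step P (kt A t) Φ ≤ (1 + a) * Φ s + b) :
    ∀ t, t ≤ P.T → EE A t Φ ≤ (1 + a) ^ t * (Φ s0 + t * b) := by
  intro t
  induction t with
  | zero => intro _; simp [EE_zero]
  | succ t ih =>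
    intro ht
    have h2 : EE A (t + 1) Φ ≤ EE A t (fun s => (1 + a) * Φ s + b) := by
      refine EE_succ_le A hI (by omega) (fun s hs hg => h1 t s (by omega) hs hg) fun s hs _ => ?_
      have h3 := mul_nonneg ha (h0 t s (by omega) hs)
      linarith
    rw [EE_add, EE_mul, EE_const] at h2
    have h4 := mul_le_mul_of_nonneg_left (ih (by omega)) (by linarith : 0 ≤ 1 + a)
    have h5 : b ≤ (1 + a) ^ (t + 1) * b :=
      le_mul_of_one_le_left hb (one_le_pow₀ (by linarith))
    calc EE A (t + 1) Φ ≤ (1 + a) * ((1 + a) ^ t * (Φ s0 + t * b)) + b := by linarith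
      _ ≤ (1 + a) * ((1 + a) ^ t * (Φ s0 + t * b)) + (1 + a) ^ (t + 1) * b := by linarith
      _ = (1 + a) ^ (t + 1) * (Φ s0 + ((t + 1 : ℕ) : ℝ) * b) := by push_cast; ring

/-- Freedman: `phi` has drift at most `zeta * d`, second moment at most `zeta * w`, upward jumps at
most `1 / θ`. -/
theorem EE_freedman (A : Amb P V) (hI : IPres A) {phi : St V → ℝ} {θ d w : ℝ} (hθ : 0 < θ)
    (hd : 0 ≤ d) (hw : 0 ≤ w)
    (h1 : ∀ (t : ℕ) (s : St V), t < P.T → s.Inv A t → s.Good A → ∀ x, 0 < s.R x →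
      θ * (phi (s.take P (kt A t) x) - phi s) ≤ 1)
    (h1' : ∀ (t : ℕ) (s : St V), t < P.T → s.Inv A t → s.Good A →
      θ * (phi (s.skip P (kt A t)) - phi s) ≤ 1)
    (h2 : ∀ (t : ℕ) (s : St V), t < P.T → s.Inv A t → s.Good A →
      s.step P (kt A t) phi - phi s ≤ P.zeta * d)
    (h3 : ∀ (t : ℕ) (s : St V), t < P.T → s.Inv A t → s.Good A →
      s.step P (kt A t) (fun s' => (phi s' - phi s) ^ 2) ≤ P.zeta * w)
    (c : ℝ) : ∀ t, t ≤ P.T →
      EE A t (fun s => ind (c < phi s))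
        ≤ Real.exp (θ * phi s0 + 5 * P.X 10000 * (θ * d + θ ^ 2 * w) - θ * c) := by
  intro t ht
  have hc0 : 0 ≤ P.zeta * (θ * d + θ ^ 2 * w) :=
    mul_nonneg P.zeta_pos.le (by positivity)
  have h4 := Br.EE_exp (r02_inv A hI) (X := phi) (θ := θ) hc0 ht
    (by
      intro j s hj hs hg
      have h5 := Br.freedman (P := P) (A := A) (kt A j) (X := phi) (s := s) hs.Rn hg (θ := θ)
        (D := 1 / θ) (μ := P.zeta * d) (v := P.zeta * w) hθ.le
        (by rw [mul_one_div_cancel hθ.ne'])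
        (by
          rw [le_div_iff₀ hθ, mul_comm]
          exact h1' j s hj hs hg)
        (fun x hx => by
          rw [le_div_iff₀ hθ, mul_comm]
          exact h1 j s hj hs hg x hx)
        (by linarith [h2 j s hj hs hg])
        (h3 j s hj hs hg)
      refine h5.trans (le_of_eq ?_)
      congr 1
      ring)
  have h6 := Br.EE_markov_exp (r02_inv A hI) ht (fun s => c < phi s) (X := phi) (θ := θ) (a := c)
    hθ.le (fun s _ h => le_of_lt h) h4
  refine h6.trans (Real.exp_le_exp.2 ?_)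
  have h7 : (t : ℝ) * (P.zeta * (θ * d + θ ^ 2 * w)) ≤ 5 * P.X 10000 * (θ * d + θ ^ 2 * w) := by
    have h8 : P.zeta * t ≤ 5 * P.X 10000 := by
      rw [← P.zeta_T]
      exact mul_le_mul_of_nonneg_left (by exact_mod_cast ht) P.zeta_pos.le
    have h9 := mul_le_mul_of_nonneg_right h8 (by positivity : 0 ≤ θ * d + θ ^ 2 * w)
    linarith
  linarith

/-- domination -/
theorem EE_dom (A : Amb P V) (hI : IPres A) (S : Finset V) : ∀ t, t ≤ P.T →
    EE A t (fun s => ind (S ⊆ s.F)) ≤ (5 * P.X 10001 / P.X 200000) ^ S.card := by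
  intro t ht
  exact Br.dom (r02_inv A hI) ht S

end MP5cA
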