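import Pool.Agent.Lib.MP_5c685b_co.A.R01

/-!
# Route A', row R03: one slot (text, section 1)
-/

set_option autoImplicit false
set_option linter.unusedVariables false
set_option linter.unusedSectionVars false

open Finset

namespace MP5cA




/-! ### scalar identities -/

/-- step R, scalar form. -/
theorem r03_stepR_scalar {a b R : ℝ} (h : 1 - a ≠ 0) :
    R * b + (1 - a) * (R * (1 - b) / (1 - a)) = R := by
  field_simp
  ring

/-- step U, scalar form: `U` before, `U⁰ = R⁰(v) R⁰(w) ρ⁰(v,w)`. -/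
theorem r03_stepU_scalar {a b c d Rv Rw rho : ℝ} (h : 1 - a ≠ 0) (hb : 1 - b ≠ 0) (hc : 1 - c ≠ 0) :
    Rv * Rw * rho * d + (1 - a) * ((Rv * (1 - b) / (1 - a)) * (Rw * (1 - c) / (1 - a)) *
      (rho * ((1 - d) * (1 - a) / ((1 - b) * (1 - c))))) = Rv * Rw * rho := by
  field_simp
  ring

/-- `U⁰ = U (1 - d) / (1 - a)`. -/
theorem r03_U_empty_scalar {a b c d Rv Rw rho : ℝ} (h : 1 - a ≠ 0) (hb : 1 - b ≠ 0)
    (hc : 1 - c ≠ 0) :
    (Rv * (1 - b) / (1 - a)) * (Rw * (1 - c) / (1 - a)) *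
      (rho * ((1 - d) * (1 - a) / ((1 - b) * (1 - c)))) = Rv * Rw * rho * ((1 - d) / (1 - a)) := by
  field_simp

/-- `W⁰`, scalar form. -/
theorem r03_W_empty_scalar {a b1 b2 b3 d12 d13 d23 R1 R2 R3 r12 r13 r23 : ℝ} (h : 1 - a ≠ 0)
    (h1 : 1 - b1 ≠ 0) (h2 : 1 - b2 ≠ 0) (h3 : 1 - b3 ≠ 0) :
    (R1 * (1 - b1) / (1 - a)) * (R2 * (1 - b2) / (1 - a)) * (R3 * (1 - b3) / (1 - a)) *
      (r12 * ((1 - d12) * (1 - a) / ((1 - b1) * (1 - b2)))) *
      (r13 * ((1 - d13) * (1 - a) / ((1 - b1) * (1 - b3)))) *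
      (r23 * ((1 - d23) * (1 - a) / ((1 - b2) * (1 - b3)))) =
    R1 * R2 * R3 * r12 * r13 * r23 *
      ((1 - d12) * (1 - d13) * (1 - d23) / ((1 - b1) * (1 - b2) * (1 - b3))) := by
  field_simp

/-! ### pointwise identities for the linear parts -/

/-- `m_v + m_w - m - m_vw = g - D`, pointwise. -/
theorem r03_lin2_pointwise (rv rw ka : ℝ) :
    rv + rw - 1 - rv * rw * ka = rv * rw * (1 - ka) - (1 - rv) * (1 - rw) := by
  ring

/-- `m + Σ m_ij - Σ m_i - m_e = Th(e)`, pointwise. -/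
theorem r03_lin3_pointwise (r1 r2 r3 k12 k13 k23 : ℝ) :
    1 + (r1 * r2 * k12 + r1 * r3 * k13 + r2 * r3 * k23) - (r1 + r2 + r3)
        - r1 * r2 * r3 * (k12 * k13 * k23) =
      (1 - r1) * (1 - r2) * (1 - r3)
      - (r1 * r2 * (1 - r3) * (1 - k12) + r1 * r3 * (1 - r2) * (1 - k13)
          + r2 * r3 * (1 - r1) * (1 - k23))
      - r1 * r2 * r3 * ((1 - k12) * (1 - k13) + (1 - k12) * (1 - k23) + (1 - k13) * (1 - k23)
          - (1 - k12) * (1 - k13) * (1 - k23)) := by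
  ring

/-! ### expansions -/

/-- one factor `1 - t`. -/
theorem r03_lin_mul {X s t k S δ : ℝ} (hX : |X - (1 - s)| ≤ k * δ ^ 2) (hs : |s| ≤ S * δ)
    (ht0 : 0 ≤ t) (ht : t ≤ δ) (hδ : δ ≤ 1 / 100) :
    |X * (1 - t) - (1 - (s + t))| ≤ (k + S) * δ ^ 2 := by
  have h0 : X * (1 - t) - (1 - (s + t)) = (X - (1 - s)) * (1 - t) + s * t := by ring
  rw [h0]
  have hδ0 : 0 ≤ δ := ht0.trans ht
  have h1 : |(X - (1 - s)) * (1 - t)| ≤ k * δ ^ 2 := by
    rw [abs_mul]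
    have h2 : |1 - t| ≤ 1 := by
      rw [abs_of_nonneg (by linarith)]
      linarith
    calc |X - (1 - s)| * |1 - t| ≤ |X - (1 - s)| * 1 :=
          mul_le_mul_of_nonneg_left h2 (abs_nonneg _)
      _ ≤ k * δ ^ 2 := by rw [mul_one]; exact hX
  have h3 : |s * t| ≤ S * δ ^ 2 := by
    rw [abs_mul, abs_of_nonneg ht0]
    calc |s| * t ≤ (S * δ) * δ := mul_le_mul hs ht ht0 ((abs_nonneg _).trans hs)
      _ = S * δ ^ 2 := by ring
  calc |(X - (1 - s)) * (1 - t) + s * t| ≤ |(X - (1 - s)) * (1 - t)| + |s * t| := abs_add_le _ _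
    _ ≤ k * δ ^ 2 + S * δ ^ 2 := add_le_add h1 h3
    _ = (k + S) * δ ^ 2 := by ring

/-- one factor `1 / (1 - t)`. -/
theorem r03_lin_div {X s t k S δ : ℝ} (hX : |X - (1 - s)| ≤ k * δ ^ 2) (hs : |s| ≤ S * δ)
    (ht0 : 0 ≤ t) (ht : t ≤ δ) (hδ : δ ≤ 1 / 100) :
    |X / (1 - t) - (1 - (s - t))| ≤ (k + S + 1) * (102 / 100) * δ ^ 2 := by
  have hδ0 : 0 ≤ δ := ht0.trans ht
  have hpos : 0 < 1 - t := by linarith
  have h0 : X / (1 - t) - (1 - (s - t)) = ((X - (1 - s)) - s * t + t ^ 2) / (1 - t) := by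
    field_simp
    ring
  rw [h0, abs_div, abs_of_pos hpos, div_le_iff₀ hpos]
  have h3 : |s * t| ≤ S * δ ^ 2 := by
    rw [abs_mul, abs_of_nonneg ht0]
    calc |s| * t ≤ (S * δ) * δ := mul_le_mul hs ht ht0 ((abs_nonneg _).trans hs)
      _ = S * δ ^ 2 := by ring
  have h4 : |t ^ 2| ≤ δ ^ 2 := by
    rw [abs_of_nonneg (by positivity)]
    exact pow_le_pow_left₀ ht0 ht 2
  have h5 : |(X - (1 - s)) - s * t + t ^ 2| ≤ (k + S + 1) * δ ^ 2 := by
    calc |(X - (1 - s)) - s * t + t ^ 2| ≤ |(X - (1 - s)) - s * t| + |t ^ 2| := abs_add_le _ _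
      _ ≤ (|X - (1 - s)| + |s * t|) + |t ^ 2| := by
          gcongr
          exact abs_sub _ _
      _ ≤ (k * δ ^ 2 + S * δ ^ 2) + δ ^ 2 := by gcongr
      _ = (k + S + 1) * δ ^ 2 := by ring
  have hK : 0 ≤ (k + S + 1) * δ ^ 2 := (abs_nonneg _).trans h5
  calc |(X - (1 - s)) - s * t + t ^ 2| ≤ (k + S + 1) * δ ^ 2 := h5
    _ = ((k + S + 1) * δ ^ 2) * 1 := by ring
    _ ≤ ((k + S + 1) * δ ^ 2) * ((102 / 100) * (1 - t)) := by
        apply mul_le_mul_of_nonneg_left _ hK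
        linarith
    _ = (k + S + 1) * (102 / 100) * δ ^ 2 * (1 - t) := by ring

/-- `(1-b)/(1-a) = 1 + (a - b) + O(δ²)`. -/
theorem r03_ratio_R {a b δ : ℝ} (ha0 : 0 ≤ a) (ha : a ≤ δ) (hb0 : 0 ≤ b) (hb : b ≤ δ)
    (hδ : δ ≤ 1 / 100) :
    |(1 - b) / (1 - a) - (1 + (a - b))| ≤ 2 * δ ^ 2 := by
  have hδ0 : 0 ≤ δ := ha0.trans ha
  have hpos : 0 < 1 - a := by linarith
  have h0 : (1 - b) / (1 - a) - (1 + (a - b)) = (a - b) * a / (1 - a) := by
    field_simp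
    ring
  rw [h0, abs_div, abs_of_pos hpos, div_le_iff₀ hpos, abs_mul, abs_of_nonneg ha0]
  have h1 : |a - b| ≤ δ := abs_le.mpr ⟨by linarith, by linarith⟩
  calc |a - b| * a ≤ δ * δ := mul_le_mul h1 ha ha0 hδ0
    _ ≤ 2 * δ ^ 2 * (1 - a) := by nlinarith [sq_nonneg δ]

/-- `|(1-b)/(1-a) - 1| ≤ 2 δ`. -/
theorem r03_ratio_R_crude {a b δ : ℝ} (ha : a ≤ δ) (hδ : δ ≤ 1 / 100) :
    |(1 - b) / (1 - a) - 1| ≤ 2 * |a - b| := by
  have hpos : 0 < 1 - a := by linarith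
  have h0 : (1 - b) / (1 - a) - 1 = (a - b) / (1 - a) := by
    field_simp
    ring
  rw [h0, abs_div, abs_of_pos hpos, div_le_iff₀ hpos]
  nlinarith [abs_nonneg (a - b)]

/-- the factor of `ρ⁰` : `(1-d)(1-a)/((1-b)(1-c)) = 1 + (b + c - a - d) + O(δ²)`. -/
theorem r03_ratio_rho {a b c d δ : ℝ} (ha0 : 0 ≤ a) (ha : a ≤ δ) (hb0 : 0 ≤ b) (hb : b ≤ δ)
    (hc0 : 0 ≤ c) (hc : c ≤ δ) (hd0 : 0 ≤ d) (hd : d ≤ δ) (hδ : δ ≤ 1 / 100) :
    |(1 - d) * (1 - a) / ((1 - b) * (1 - c)) - (1 + (b + c - a - d))| ≤ 9 * δ ^ 2 := by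
  have hδ0 : 0 ≤ δ := ha0.trans ha
  have h1 : |(1 - d) - (1 - d)| ≤ 0 * δ ^ 2 := by simp
  have hs1 : |d| ≤ 1 * δ := by rw [abs_of_nonneg hd0]; linarith
  have h2 := r03_lin_mul h1 hs1 ha0 ha hδ
  have hs2 : |d + a| ≤ 2 * δ := by rw [abs_of_nonneg (by linarith)]; linarith
  have h3 := r03_lin_div h2 hs2 hb0 hb hδ
  have hs3 : |d + a - b| ≤ 2 * δ := abs_le.mpr ⟨by linarith, by linarith⟩
  have h4 := r03_lin_div h3 hs3 hc0 hc hδ
  rw [div_div] at h4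
  have h5 : (1 : ℝ) - (d + a - b - c) = 1 + (b + c - a - d) := by ring
  rw [h5] at h4
  refine h4.trans ?_
  have h6 : (0 : ℝ) ≤ δ ^ 2 := by positivity
  have h7 : ((0 + 1 + 2 + 1) * (102 / 100) + 2 + 1) * (102 / 100) ≤ (9 : ℝ) := by norm_num
  exact mul_le_mul_of_nonneg_right h7 h6

/-- `|log (1 - t) + t| ≤ t²` for small `t`. -/
theorem r03_abs_log_one_sub_add_le {t : ℝ} (h : |t| ≤ 1 / 4) : |Real.log (1 - t) + t| ≤ t ^ 2 := by
  have h1 : |t| < 1 := by linarith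
  have h2 := Real.abs_log_sub_add_sum_range_le h1 2
  have h3 : ∑ i ∈ range 2, t ^ (i + 1) / ((i : ℝ) + 1) = t + t ^ 2 / 2 := by
    simp [Finset.sum_range_succ]
    ring
  rw [h3] at h2
  have h4 : |t| ^ (2 + 1) / (1 - |t|) ≤ t ^ 2 / 2 := by
    have h5 : 0 < 1 - |t| := by linarith
    rw [div_le_iff₀ h5]
    have h6 : |t| ^ (2 + 1) = t ^ 2 * |t| := by
      rw [pow_succ, sq_abs]
    rw [h6]
    have h7 : 0 ≤ t ^ 2 := sq_nonneg t
    nlinarith [abs_nonneg t]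
  have h8 : |t + t ^ 2 / 2 + Real.log (1 - t)| ≤ t ^ 2 / 2 := h2.trans h4
  rw [abs_le] at h8 ⊢
  constructor <;> nlinarith [h8.1, h8.2, sq_nonneg t]

/-- log increment of `R` in an empty slot. -/
theorem r03_log_ratio_R {a b δ : ℝ} (ha0 : 0 ≤ a) (ha : a ≤ δ) (hb0 : 0 ≤ b) (hb : b ≤ δ)
    (hδ : δ ≤ 1 / 100) :
    |Real.log ((1 - b) / (1 - a)) - (a - b)| ≤ 2 * δ ^ 2 := by
  have hδ0 : 0 ≤ δ := ha0.trans ha
  have hA : 0 < 1 - a := by linarith
  have hB : 0 < 1 - b := by linarith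
  rw [Real.log_div hB.ne' hA.ne']
  have h1 := r03_abs_log_one_sub_add_le (t := a) (by rw [abs_of_nonneg ha0]; linarith)
  have h2 := r03_abs_log_one_sub_add_le (t := b) (by rw [abs_of_nonneg hb0]; linarith)
  have h3 : a ^ 2 ≤ δ ^ 2 := pow_le_pow_left₀ ha0 ha 2
  have h4 : b ^ 2 ≤ δ ^ 2 := pow_le_pow_left₀ hb0 hb 2
  rw [abs_le] at h1 h2 ⊢
  constructor <;> linarith [h1.1, h1.2, h2.1, h2.2]

/-- log increment of `ρ` in an empty slot: `q = b + c - a - d + O(δ²)`. -/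
theorem r03_log_ratio_rho {a b c d δ : ℝ} (ha0 : 0 ≤ a) (ha : a ≤ δ) (hb0 : 0 ≤ b) (hb : b ≤ δ)
    (hc0 : 0 ≤ c) (hc : c ≤ δ) (hd0 : 0 ≤ d) (hd : d ≤ δ) (hδ : δ ≤ 1 / 100) :
    |Real.log ((1 - d) * (1 - a) / ((1 - b) * (1 - c))) - (b + c - a - d)| ≤ 4 * δ ^ 2 := by
  have hδ0 : 0 ≤ δ := ha0.trans ha
  have hA : 0 < 1 - a := by linarith
  have hB : 0 < 1 - b := by linarith
  have hC : 0 < 1 - c := by linarith
  have hD : 0 < 1 - d := by linarith
  rw [Real.log_div (by positivity) (by positivity), Real.log_mul hD.ne' hA.ne',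
    Real.log_mul hB.ne' hC.ne']
  have h1 := r03_abs_log_one_sub_add_le (t := a) (by rw [abs_of_nonneg ha0]; linarith)
  have h2 := r03_abs_log_one_sub_add_le (t := b) (by rw [abs_of_nonneg hb0]; linarith)
  have h3 := r03_abs_log_one_sub_add_le (t := c) (by rw [abs_of_nonneg hc0]; linarith)
  have h4 := r03_abs_log_one_sub_add_le (t := d) (by rw [abs_of_nonneg hd0]; linarith)
  have g1 : a ^ 2 ≤ δ ^ 2 := pow_le_pow_left₀ ha0 ha 2
  have g2 : b ^ 2 ≤ δ ^ 2 := pow_le_pow_left₀ hb0 hb 2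
  have g3 : c ^ 2 ≤ δ ^ 2 := pow_le_pow_left₀ hc0 hc 2
  have g4 : d ^ 2 ≤ δ ^ 2 := pow_le_pow_left₀ hd0 hd 2
  rw [abs_le] at h1 h2 h3 h4 ⊢
  constructor <;> linarith [h1.1, h1.2, h2.1, h2.2, h3.1, h3.2, h4.1, h4.2]

/-- step W expansion: the factor is `1 - (a + Σ d - Σ b - e) + O(25 δ²)`. -/
theorem r03_ratio_W {a b1 b2 b3 d12 d13 d23 e δ : ℝ} (ha0 : 0 ≤ a) (ha : a ≤ δ)
    (hb10 : 0 ≤ b1) (hb1 : b1 ≤ δ) (hb20 : 0 ≤ b2) (hb2 : b2 ≤ δ) (hb30 : 0 ≤ b3) (hb3 : b3 ≤ δ)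
    (hd120 : 0 ≤ d12) (hd12 : d12 ≤ δ) (hd130 : 0 ≤ d13) (hd13 : d13 ≤ δ)
    (hd230 : 0 ≤ d23) (hd23 : d23 ≤ δ) (hδ : δ ≤ 1 / 100) :
    |(e + (1 - a) * ((1 - d12) * (1 - d13) * (1 - d23) / ((1 - b1) * (1 - b2) * (1 - b3))))
        - (1 - (a + (d12 + d13 + d23) - (b1 + b2 + b3) - e))| ≤ 25 * δ ^ 2 := by
  have hδ0 : 0 ≤ δ := ha0.trans ha
  have h0 : |(1 - a) - (1 - a)| ≤ 0 * δ ^ 2 := by simp
  have hs0 : |a| ≤ 1 * δ := by rw [abs_of_nonneg ha0]; linarith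
  have h1 := r03_lin_mul h0 hs0 hd120 hd12 hδ
  have hs1 : |a + d12| ≤ 2 * δ := by rw [abs_of_nonneg (by linarith)]; linarith
  have h2 := r03_lin_mul h1 hs1 hd130 hd13 hδ
  have hs2 : |a + d12 + d13| ≤ 3 * δ := by rw [abs_of_nonneg (by linarith)]; linarith
  have h3 := r03_lin_mul h2 hs2 hd230 hd23 hδ
  have hs3 : |a + d12 + d13 + d23| ≤ 4 * δ := by rw [abs_of_nonneg (by linarith)]; linarith
  have h4 := r03_lin_div h3 hs3 hb10 hb1 hδ
  have hs4 : |a + d12 + d13 + d23 - b1| ≤ 4 * δ := abs_le.mpr ⟨by linarith, by linarith⟩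
  have h5 := r03_lin_div h4 hs4 hb20 hb2 hδ
  have hs5 : |a + d12 + d13 + d23 - b1 - b2| ≤ 4 * δ := abs_le.mpr ⟨by linarith, by linarith⟩
  have h6 := r03_lin_div h5 hs5 hb30 hb3 hδ
  have h7 : (e + (1 - a) * ((1 - d12) * (1 - d13) * (1 - d23) / ((1 - b1) * (1 - b2) * (1 - b3))))
        - (1 - (a + (d12 + d13 + d23) - (b1 + b2 + b3) - e)) =
      (1 - a) * (1 - d12) * (1 - d13) * (1 - d23) / (1 - b1) / (1 - b2) / (1 - b3)
        - (1 - (a + d12 + d13 + d23 - b1 - b2 - b3)) := by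
    rw [div_div, div_div]
    ring
  rw [h7]
  refine h6.trans ?_
  have h8 : (0 : ℝ) ≤ δ ^ 2 := by positivity
  have h9 : ((((0 + 1 + 2 + 3) + 4 + 1) * (102 / 100) + 4 + 1) * (102 / 100) + 4 + 1) * (102 / 100)
      ≤ (25 : ℝ) := by norm_num
  refine mul_le_mul_of_nonneg_right ?_ h8
  linarith

/-- the `p`-th power potential in an empty slot. -/
theorem r03_ratio_pow {a b δ : ℝ} (p : ℕ) (ha0 : 0 ≤ a) (ha : a ≤ δ) (hb0 : 0 ≤ b) (hb : b ≤ δ)
    (hδ : δ ≤ 1 / 100) (hp : 2 * p * δ ≤ 1) :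
    (1 - a) * ((1 - b) / (1 - a)) ^ p ≤ 1 - a + p * (a - b) + 2 * p ^ 2 * δ ^ 2 := by
  have hδ0 : 0 ≤ δ := ha0.trans ha
  have hA : 0 < 1 - a := by linarith
  have hB : 0 < 1 - b := by linarith
  set η : ℝ := (a - b) / (1 - a) with hη
  have h0 : (1 - b) / (1 - a) = 1 + η := by
    rw [hη]; field_simp; ring
  have hηabs : |η| ≤ 102 / 100 * δ := by
    rw [hη, abs_div, abs_of_pos hA, div_le_iff₀ hA]
    have h1 : |a - b| ≤ δ := abs_le.mpr ⟨by linarith, by linarith⟩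
    nlinarith
  have hp0 : (0 : ℝ) ≤ p := Nat.cast_nonneg p
  have hpη : |(p : ℝ) * η| ≤ 1 := by
    rw [abs_mul, abs_of_nonneg hp0]
    nlinarith [mul_le_mul_of_nonneg_left hηabs hp0]
  have h2 : (1 + η) ^ p ≤ Real.exp (p * η) := by
    rw [← h0]
    have h3 : (1 - b) / (1 - a) ≤ Real.exp η := by
      rw [h0, add_comm]; exact Real.add_one_le_exp η
    calc ((1 - b) / (1 - a)) ^ p ≤ (Real.exp η) ^ p :=
          pow_le_pow_left₀ (by positivity) h3 p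
      _ = Real.exp (p * η) := by rw [← Real.exp_nat_mul]
  have h4 := Real.abs_exp_sub_one_sub_id_le hpη
  have h5 : Real.exp (p * η) ≤ 1 + p * η + (p * η) ^ 2 := by
    have := (abs_le.mp h4).2
    linarith
  rw [h0]
  calc (1 - a) * (1 + η) ^ p ≤ (1 - a) * (1 + p * η + (p * η) ^ 2) :=
        mul_le_mul_of_nonneg_left (h2.trans h5) hA.le
    _ = (1 - a) + p * ((1 - a) * η) + (1 - a) * (p ^ 2 * η ^ 2) := by ring
    _ = (1 - a) + p * (a - b) + (1 - a) * (p ^ 2 * η ^ 2) := by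
        have : (1 - a) * η = a - b := by rw [hη]; field_simp
        rw [this]
    _ ≤ 1 - a + p * (a - b) + 2 * p ^ 2 * δ ^ 2 := by
        have h6 : η ^ 2 ≤ (102 / 100 * δ) ^ 2 := by
          rw [← sq_abs η]
          exact pow_le_pow_left₀ (abs_nonneg _) hηabs 2
        have h7 : (1 - a) * (p ^ 2 * η ^ 2) ≤ 1 * (p ^ 2 * (2 * δ ^ 2)) := by
          apply mul_le_mul (by linarith) _ (by positivity) (by norm_num)
          apply mul_le_mul_of_nonneg_left _ (by positivity)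
          nlinarith [sq_nonneg δ]
        nlinarith

/-- `|exp q - 1 - s| ≤ 9 δ²` where `exp q` is the factor of `ρ⁰`; multiplied form for `al⁰ - al`. -/
theorem r03_exp_log_ratio_rho {a b c d δ : ℝ} (ha0 : 0 ≤ a) (ha : a ≤ δ) (hb0 : 0 ≤ b) (hb : b ≤ δ)
    (hc0 : 0 ≤ c) (hc : c ≤ δ) (hd0 : 0 ≤ d) (hd : d ≤ δ) (hδ : δ ≤ 1 / 100) :
    |Real.exp (Real.log ((1 - d) * (1 - a) / ((1 - b) * (1 - c)))) - 1 - (b + c - a - d)|
      ≤ 9 * δ ^ 2 := by
  have hA : 0 < 1 - a := by linarith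
  have hB : 0 < 1 - b := by linarith
  have hC : 0 < 1 - c := by linarith
  have hD : 0 < 1 - d := by linarith
  rw [Real.exp_log (by positivity), sub_sub]
  exact r03_ratio_rho ha0 ha hb0 hb hc0 hc hd0 hd hδ

/-- positivity and crude bounds of the factor of `ρ⁰`. -/
theorem r03_ratio_rho_crude {a b c d δ : ℝ} (ha0 : 0 ≤ a) (ha : a ≤ δ) (hb0 : 0 ≤ b) (hb : b ≤ δ)
    (hc0 : 0 ≤ c) (hc : c ≤ δ) (hd0 : 0 ≤ d) (hd : d ≤ δ) (hδ : δ ≤ 1 / 100) :
    0 < (1 - d) * (1 - a) / ((1 - b) * (1 - c)) ∧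
    |(1 - d) * (1 - a) / ((1 - b) * (1 - c)) - 1| ≤ 3 * δ := by
  have hδ0 : 0 ≤ δ := ha0.trans ha
  have hA : 0 < 1 - a := by linarith
  have hB : 0 < 1 - b := by linarith
  have hC : 0 < 1 - c := by linarith
  have hD : 0 < 1 - d := by linarith
  refine ⟨by positivity, ?_⟩
  have h1 := r03_ratio_rho ha0 ha hb0 hb hc0 hc hd0 hd hδ
  have h2 : |b + c - a - d| ≤ 2 * δ := abs_le.mpr ⟨by linarith, by linarith⟩
  have h3 : 9 * δ ^ 2 ≤ 1 * δ := by nlinarith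
  rw [abs_le] at h1 h2 ⊢
  constructor <;> linarith [h1.1, h1.2, h2.1, h2.2]

/-- `e^t ≤ 1 + t + t²` for all `t ≤ 1`. -/
theorem r03_exp_le_quad {t : ℝ} (h : t ≤ 1) : Real.exp t ≤ 1 + t + t ^ 2 := by
  rcases le_or_gt (-1) t with h1 | h1
  · have h2 := Real.abs_exp_sub_one_sub_id_le (abs_le.mpr ⟨h1, h⟩)
    have := (abs_le.mp h2).2
    linarith
  · have h2 : Real.exp t ≤ Real.exp (-1) := Real.exp_le_exp.mpr h1.le
    have h3 : Real.exp (-1) ≤ 1 / 2 := by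
      rw [Real.exp_neg]
      have h4 : (2 : ℝ) ≤ Real.exp 1 := by
        have := Real.add_one_le_exp (1 : ℝ)
        linarith
      rw [inv_eq_one_div]
      exact one_div_le_one_div_of_le (by norm_num) h4
    nlinarith


variable {V : Type} [Fintype V] [DecidableEq V] {P : Par}

/-- conditions under which the one-slot expansions hold (all true at good states, row R06) -/
structure Sml (P : Par) (κ : V → V → V → ℝ) (s : St V) : Prop where
  sym : ∀ v w, s.rho v w = s.rho w v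
  nn : ∀ v w, 0 ≤ s.rho v w
  Rn : ∀ v, 0 ≤ s.R v
  R1 : ∀ v, s.R v ≤ P.X 1
  r1 : ∀ v w, s.rho v w ≤ P.X 1
  rd : ∀ v, s.rho v v = 0
  k0 : ∀ u v w, 0 ≤ κ u v w
  k1 : ∀ u v w, κ u v w ≤ P.X 1
  ks1 : ∀ u v w, κ u v w = κ v u w
  ks2 : ∀ u v w, κ u v w = κ u w v

/-! auxiliary facts about `step` -/

lemma r03_step_mul_right (s : St V) (κ : V → V → V → ℝ) (f : St V → ℝ) (c : ℝ) :
    s.step P κ (fun s' => f s' * c) = s.step P κ f * c := by
  unfold St.step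
  have : av (fun x => s.R x * (f (s.take P κ x) * c)) =
      av (fun x => s.R x * f (s.take P κ x)) * c := by
    rw [← av_mul_right]; exact av_congr fun x => by ring
  rw [this]; ring

lemma r03_step_sum {ι : Type} (s : St V) (κ : V → V → V → ℝ) (S : Finset ι)
    (f : ι → St V → ℝ) :
    s.step P κ (fun s' => ∑ i ∈ S, f i s') = ∑ i ∈ S, s.step P κ (f i) := by
  unfold St.step
  have : av (fun x => s.R x * ∑ i ∈ S, f i (s.take P κ x)) =
      ∑ i ∈ S, av (fun x => s.R x * f i (s.take P κ x)) := by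
    rw [← av_sum]; exact av_congr fun x => by rw [Finset.mul_sum]
  rw [this, Finset.mul_sum, Finset.mul_sum, ← Finset.sum_add_distrib]

lemma r03_step_av {W : Type} [Fintype W] (s : St V) (κ : V → V → V → ℝ) (f : W → St V → ℝ) :
    s.step P κ (fun s' => av fun i => f i s') = av fun i => s.step P κ (f i) := by
  unfold av
  have h := r03_step_sum (P := P) s κ Finset.univ f
  have h2 := r03_step_mul_right (P := P) s κ (fun s' => ∑ i, f i s') ((Fintype.card W : ℝ)⁻¹)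
  simp only [div_eq_mul_inv] at *
  rw [h2, h]

lemma r03_zX (k : ℤ) : P.zeta * P.X k = P.X (-100000 + k) := by
  unfold Par.zeta; rw [P.X_mul]

lemma r03_le_x {c : ℝ} (k : ℕ) (hk : k ≤ 1000) (hc : c ≤ 2 ^ k) : c ≤ P.x :=
  hc.trans (P.two_pow_le (by omega))

lemma r03_small : P.zeta * P.X 4 ≤ 1 / 100 := by
  have h2 : (100 : ℝ) * (P.zeta * P.X 4) ≤ 1 := by
    rw [r03_zX, ← P.X_zero]
    exact P.mul_X_le (r03_le_x 7 (by norm_num) (by norm_num)) (by norm_num)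
  rw [le_div_iff₀ (by norm_num : (0 : ℝ) < 100), mul_comm]
  exact h2

namespace Sml

variable {κ : V → V → V → ℝ} {s : St V} (h : Sml P κ s)

include h

theorem m0_le : 0 ≤ s.m0 ∧ s.m0 ≤ P.X 1 :=
  ⟨av_nonneg h.Rn, av_le_const (P.X_pos _).le h.R1⟩

theorem m1_le (v : V) : 0 ≤ s.m1 v ∧ s.m1 v ≤ P.X 2 := by
  refine ⟨av_nonneg fun y => mul_nonneg (h.Rn y) (h.nn v y), ?_⟩
  refine av_le_const (P.X_pos _).le fun y => ?_
  rw [show (2 : ℤ) = 1 + 1 by norm_num, P.X_add]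
  exact mul_le_mul (h.R1 y) (h.r1 v y) (h.nn v y) (P.X_pos _).le

theorem m2_le (v w : V) : 0 ≤ s.m2 κ v w ∧ s.m2 κ v w ≤ P.X 4 := by
  refine ⟨av_nonneg fun y => mul_nonneg (mul_nonneg (mul_nonneg (h.Rn y) (h.nn v y)) (h.nn w y))
    (h.k0 v w y), ?_⟩
  refine av_le_const (P.X_pos _).le fun y => ?_
  rw [show (4 : ℤ) = 1 + 1 + 1 + 1 by norm_num, P.X_add, P.X_add, P.X_add]
  have h1 := (P.X_pos 1).le
  have a1 : s.R y * s.rho v y ≤ P.X 1 * P.X 1 := mul_le_mul (h.R1 y) (h.r1 v y) (h.nn v y) h1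
  have a2 : s.R y * s.rho v y * s.rho w y ≤ P.X 1 * P.X 1 * P.X 1 :=
    mul_le_mul a1 (h.r1 w y) (h.nn w y) (mul_nonneg h1 h1)
  exact mul_le_mul a2 (h.k1 v w y) (h.k0 v w y) (mul_nonneg (mul_nonneg h1 h1) h1)

theorem m3_le (u v w : V) : 0 ≤ s.m3 κ u v w ∧ s.m3 κ u v w ≤ P.X 7 := by
  have h1 := (P.X_pos 1).le
  refine ⟨av_nonneg fun y => mul_nonneg (mul_nonneg (mul_nonneg (mul_nonneg (mul_nonneg
    (mul_nonneg (h.Rn y) (h.nn u y)) (h.nn v y)) (h.nn w y)) (h.k0 u v y)) (h.k0 u w y))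
    (h.k0 v w y), ?_⟩
  refine av_le_const (P.X_pos _).le fun y => ?_
  rw [show (7 : ℤ) = 1 + 1 + 1 + 1 + 1 + 1 + 1 by norm_num, P.X_add, P.X_add, P.X_add, P.X_add,
    P.X_add, P.X_add]
  have b1 := mul_nonneg h1 h1
  have b2 := mul_nonneg b1 h1
  have b3 := mul_nonneg b2 h1
  have b4 := mul_nonneg b3 h1
  have b5 := mul_nonneg b4 h1
  have a1 := mul_le_mul (h.R1 y) (h.r1 u y) (h.nn u y) h1
  have a2 := mul_le_mul a1 (h.r1 v y) (h.nn v y) b1
  have a3 := mul_le_mul a2 (h.r1 w y) (h.nn w y) b2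
  have a4 := mul_le_mul a3 (h.k1 u v y) (h.k0 u v y) b3
  have a5 := mul_le_mul a4 (h.k1 u w y) (h.k0 u w y) b4
  exact mul_le_mul a5 (h.k1 v w y) (h.k0 v w y) b5

theorem m2_sym (v w : V) : s.m2 κ v w = s.m2 κ w v := by
  unfold St.m2
  refine av_congr fun y => ?_
  rw [h.ks1 v w y]; ring

/-! ranges of the small quantities -/

theorem r03_a : 0 ≤ P.zeta * s.m0 ∧ P.zeta * s.m0 ≤ P.zeta * P.X 4 :=
  ⟨mul_nonneg P.zeta_pos.le h.m0_le.1,
    mul_le_mul_of_nonneg_left (h.m0_le.2.trans (P.X_le (by norm_num))) P.zeta_pos.le⟩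

theorem r03_b (v : V) : 0 ≤ P.zeta * s.m1 v ∧ P.zeta * s.m1 v ≤ P.zeta * P.X 4 :=
  ⟨mul_nonneg P.zeta_pos.le (h.m1_le v).1,
    mul_le_mul_of_nonneg_left ((h.m1_le v).2.trans (P.X_le (by norm_num))) P.zeta_pos.le⟩

theorem r03_c (v w : V) : 0 ≤ P.zeta * s.m2 κ v w ∧ P.zeta * s.m2 κ v w ≤ P.zeta * P.X 4 :=
  ⟨mul_nonneg P.zeta_pos.le (h.m2_le v w).1,
    mul_le_mul_of_nonneg_left (h.m2_le v w).2 P.zeta_pos.le⟩

theorem r03_pa : 0 < 1 - P.zeta * s.m0 := by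
  have h1 := h.r03_a.2
  have h2 := r03_small (P := P)
  linarith

theorem r03_pb (v : V) : 0 < 1 - P.zeta * s.m1 v := by
  have h1 := (h.r03_b v).2
  have h2 := r03_small (P := P)
  linarith

theorem r03_pc (v w : V) : 0 < 1 - P.zeta * s.m2 κ v w := by
  have h1 := (h.r03_c v w).2
  have h2 := r03_small (P := P)
  linarith

/-- `R` is an exact martingale -/
theorem step_R (v : V) : s.step P κ (fun s' => s'.R v) = s.R v := by
  have h0 : s.step P κ (fun s' => s'.R v) =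
      P.zeta * av (fun x => s.R x * (s.R v * s.rho x v))
      + (1 - P.zeta * s.m0) * (s.R v * (1 - P.zeta * s.m1 v) / (1 - P.zeta * s.m0)) := rfl
  have h1 : av (fun x => s.R x * (s.R v * s.rho x v)) = s.R v * s.m1 v := by
    unfold St.m1
    rw [← av_mul_left]
    exact av_congr fun x => by rw [h.sym x v]; ring
  rw [h0, h1]
  have := r03_stepR_scalar (b := P.zeta * s.m1 v) (R := s.R v) h.r03_pa.ne'
  linarith

/-- `m0` is an exact martingale -/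
theorem step_m0 : s.step P κ (fun s' => s'.m0) = s.m0 := by
  have h1 := r03_step_av (P := P) s κ (fun v s' => s'.R v)
  have h2 : s.step P κ (fun s' => s'.m0) = s.step P κ (fun s' => av fun i => s'.R i) := rfl
  rw [h2, h1]
  exact av_congr fun v => h.step_R v

theorem r03_rot (x v w : V) : κ x v w = κ v w x := by
  rw [h.ks1 x v w, h.ks2 v x w]

/-- `U v w` is an exact martingale -/
theorem step_U (v w : V) : s.step P κ (fun s' => s'.U v w) = s.U v w := by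
  have h0 : s.step P κ (fun s' => s'.U v w) =
      P.zeta * av (fun x => s.R x * ((s.R v * s.rho x v) * (s.R w * s.rho x w) *
        (s.rho v w * κ x v w)))
      + (1 - P.zeta * s.m0) * ((s.R v * (1 - P.zeta * s.m1 v) / (1 - P.zeta * s.m0)) *
        (s.R w * (1 - P.zeta * s.m1 w) / (1 - P.zeta * s.m0)) *
        (s.rho v w * ((1 - P.zeta * s.m2 κ v w) * (1 - P.zeta * s.m0))
          / ((1 - P.zeta * s.m1 v) * (1 - P.zeta * s.m1 w)))) := rfl
  have h1 : av (fun x => s.R x * ((s.R v * s.rho x v) * (s.R w * s.rho x w) *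
        (s.rho v w * κ x v w))) = s.R v * s.R w * s.rho v w * s.m2 κ v w := by
    unfold St.m2
    rw [← av_mul_left]
    exact av_congr fun x => by
      rw [h.sym x v, h.sym x w, h.r03_rot x v w]; ring
  rw [h0, h1]
  have := r03_stepU_scalar (d := P.zeta * s.m2 κ v w) (Rv := s.R v) (Rw := s.R w)
    (rho := s.rho v w) h.r03_pa.ne' (h.r03_pb v).ne' (h.r03_pb w).ne'
  rw [mul_div_assoc (s.rho v w)]
  unfold St.U
  linarith

/-- `M v w` is an exact martingale -/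
theorem step_M (v w : V) : s.step P κ (fun s' => s'.M v w) = s.M v w := by
  have h0 : s.step P κ (fun s' => s'.M v w) =
      P.zeta * av (fun x => s.R x * (s.M v w + s.LL κ x v w - s.Lbar P κ v w))
      + (1 - P.zeta * s.m0) * (s.M v w - s.Lbar P κ v w) := rfl
  have h1 : av (fun x => s.R x * (s.M v w + s.LL κ x v w - s.Lbar P κ v w)) =
      s.m0 * (s.M v w - s.Lbar P κ v w) + av (fun x => s.R x * s.LL κ x v w) := by
    unfold St.m0
    have h2 : av s.R * (s.M v w - s.Lbar P κ v w) =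
        av (fun x => s.R x * (s.M v w - s.Lbar P κ v w)) := by rw [av_mul_right]
    rw [h2, ← av_add]
    exact av_congr fun x => by ring
  have h3 : s.Lbar P κ v w = P.zeta * av (fun x => s.R x * s.LL κ x v w) := rfl
  rw [h0, h1, h3]; ring

/-- exact formula for `W` -/
theorem step_W (u v w : V) : s.step P κ (fun s' => s'.W u v w) = s.W u v w *
    (P.zeta * s.m3 κ u v w + (1 - P.zeta * s.m0) * ((1 - P.zeta * s.m2 κ u v) *
      (1 - P.zeta * s.m2 κ u w) * (1 - P.zeta * s.m2 κ v w)) /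
      ((1 - P.zeta * s.m1 u) * (1 - P.zeta * s.m1 v) * (1 - P.zeta * s.m1 w))) := by
  have h0 : s.step P κ (fun s' => s'.W u v w) =
      P.zeta * av (fun x => s.R x * ((s.R u * s.rho x u) * (s.R v * s.rho x v) *
        (s.R w * s.rho x w) * (s.rho u v * κ x u v) * (s.rho u w * κ x u w) *
        (s.rho v w * κ x v w)))
      + (1 - P.zeta * s.m0) * ((s.R u * (1 - P.zeta * s.m1 u) / (1 - P.zeta * s.m0)) *
        (s.R v * (1 - P.zeta * s.m1 v) / (1 - P.zeta * s.m0)) *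
        (s.R w * (1 - P.zeta * s.m1 w) / (1 - P.zeta * s.m0)) *
        (s.rho u v * ((1 - P.zeta * s.m2 κ u v) * (1 - P.zeta * s.m0))
          / ((1 - P.zeta * s.m1 u) * (1 - P.zeta * s.m1 v))) *
        (s.rho u w * ((1 - P.zeta * s.m2 κ u w) * (1 - P.zeta * s.m0))
          / ((1 - P.zeta * s.m1 u) * (1 - P.zeta * s.m1 w))) *
        (s.rho v w * ((1 - P.zeta * s.m2 κ v w) * (1 - P.zeta * s.m0))
          / ((1 - P.zeta * s.m1 v) * (1 - P.zeta * s.m1 w)))) := rfl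
  have h1 : av (fun x => s.R x * ((s.R u * s.rho x u) * (s.R v * s.rho x v) *
        (s.R w * s.rho x w) * (s.rho u v * κ x u v) * (s.rho u w * κ x u w) *
        (s.rho v w * κ x v w))) = s.W u v w * s.m3 κ u v w := by
    unfold St.m3 St.W
    rw [← av_mul_left]
    exact av_congr fun x => by
      rw [h.sym x u, h.sym x v, h.sym x w, h.r03_rot x u v, h.r03_rot x u w, h.r03_rot x v w]
      ring
  have h2 := r03_W_empty_scalar (d12 := P.zeta * s.m2 κ u v) (d13 := P.zeta * s.m2 κ u w)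
    (d23 := P.zeta * s.m2 κ v w) (R1 := s.R u) (R2 := s.R v) (R3 := s.R w) (r12 := s.rho u v)
    (r13 := s.rho u w) (r23 := s.rho v w) h.r03_pa.ne' (h.r03_pb u).ne' (h.r03_pb v).ne'
    (h.r03_pb w).ne'
  rw [h0, h1, mul_div_assoc (s.rho u v), mul_div_assoc (s.rho u w), mul_div_assoc (s.rho v w), h2]
  unfold St.W
  ring

/-- first order expansion of `W` -/
theorem step_W_le (u v w : V) :
    |s.step P κ (fun s' => s'.W u v w) - s.W u v w * (1 - P.zeta * s.Th κ u v w)|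
      ≤ s.W u v w * (P.zeta ^ 2 * P.X 20) := by
  have hW : 0 ≤ s.W u v w := by
    unfold St.W
    exact mul_nonneg (mul_nonneg (mul_nonneg (mul_nonneg (mul_nonneg (h.Rn u) (h.Rn v)) (h.Rn w))
      (h.nn u v)) (h.nn u w)) (h.nn v w)
  rw [h.step_W u v w, ← mul_sub, abs_mul, abs_of_nonneg hW]
  refine mul_le_mul_of_nonneg_left ?_ hW
  have h1 := r03_ratio_W (e := P.zeta * s.m3 κ u v w) h.r03_a.1 h.r03_a.2
    (h.r03_b u).1 (h.r03_b u).2 (h.r03_b v).1 (h.r03_b v).2 (h.r03_b w).1 (h.r03_b w).2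
    (h.r03_c u v).1 (h.r03_c u v).2 (h.r03_c u w).1 (h.r03_c u w).2 (h.r03_c v w).1
    (h.r03_c v w).2 r03_small
  have h2 : P.zeta * s.m0 + (P.zeta * s.m2 κ u v + P.zeta * s.m2 κ u w + P.zeta * s.m2 κ v w)
      - (P.zeta * s.m1 u + P.zeta * s.m1 v + P.zeta * s.m1 w) - P.zeta * s.m3 κ u v w =
      P.zeta * s.Th κ u v w := by unfold St.Th; ring
  rw [h2] at h1
  rw [mul_div_assoc (1 - P.zeta * s.m0)]
  refine h1.trans ?_
  have h3 : 25 * (P.zeta * P.X 4) ^ 2 = P.zeta ^ 2 * (25 * P.X 8) := by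
    rw [mul_pow, P.X_pow]; norm_num; ring
  rw [h3]
  exact mul_le_mul_of_nonneg_left (P.mul_X_le (r03_le_x 5 (by norm_num) (by norm_num))
    (by norm_num)) (sq_nonneg _)

/-- `gg - DD = m1 v + m1 w - m0 - m2 v w` -/
theorem gg_sub_DD (v w : V) : s.gg κ v w - s.DD v w = s.m1 v + s.m1 w - s.m0 - s.m2 κ v w := by
  unfold St.m0 St.m1 St.m2 St.gg St.DD St.al
  rw [← av_add, ← av_sub, ← av_sub, ← av_sub]
  exact av_congr fun y => by ring

/-- increment of `rho` in an empty slot -/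
theorem skip_rho (v w : V) : ∃ q : ℝ, (s.skip P κ).rho v w = s.rho v w * (1 + q) ∧
    |q - P.zeta * (s.gg κ v w - s.DD v w)| ≤ P.zeta * P.X (-90000) ∧ |q| ≤ P.zeta * P.X 5 := by
  refine ⟨(1 - P.zeta * s.m2 κ v w) * (1 - P.zeta * s.m0)
      / ((1 - P.zeta * s.m1 v) * (1 - P.zeta * s.m1 w)) - 1, ?_, ?_, ?_⟩
  · have h0 : (s.skip P κ).rho v w = s.rho v w * ((1 - P.zeta * s.m2 κ v w) * (1 - P.zeta * s.m0))
      / ((1 - P.zeta * s.m1 v) * (1 - P.zeta * s.m1 w)) := rfl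
    rw [h0, mul_div_assoc]
    ring
  · have h1 := r03_ratio_rho h.r03_a.1 h.r03_a.2 (h.r03_b v).1 (h.r03_b v).2 (h.r03_b w).1
      (h.r03_b w).2 (h.r03_c v w).1 (h.r03_c v w).2 r03_small
    have h2 : P.zeta * s.m1 v + P.zeta * s.m1 w - P.zeta * s.m0 - P.zeta * s.m2 κ v w =
        P.zeta * (s.gg κ v w - s.DD v w) := by
      rw [h.gg_sub_DD v w]; ring
    rw [h2, ← sub_sub] at h1
    refine h1.trans ?_
    have h3 : 9 * (P.zeta * P.X 4) ^ 2 = P.zeta * (9 * P.X (-99992)) := by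
      have e1 : (P.zeta * P.X 4) ^ 2 = P.zeta * P.X (-99992) := by
        rw [r03_zX, r03_zX, P.X_pow]; norm_num
      rw [e1]; ring
    rw [h3]
    exact mul_le_mul_of_nonneg_left (P.mul_X_le (r03_le_x 4 (by norm_num) (by norm_num))
      (by norm_num)) P.zeta_pos.le
  · have h1 := (r03_ratio_rho_crude h.r03_a.1 h.r03_a.2 (h.r03_b v).1 (h.r03_b v).2 (h.r03_b w).1
      (h.r03_b w).2 (h.r03_c v w).1 (h.r03_c v w).2 r03_small).2
    refine h1.trans ?_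
    have h3 : 3 * (P.zeta * P.X 4) = P.zeta * (3 * P.X 4) := by ring
    rw [h3]
    exact mul_le_mul_of_nonneg_left (P.mul_X_le (r03_le_x 2 (by norm_num) (by norm_num))
      (by norm_num)) P.zeta_pos.le

/-- increment of `R` in an empty slot -/
theorem skip_R (v : V) : ∃ q : ℝ, (s.skip P κ).R v = s.R v * (1 + q) ∧
    |q - P.zeta * (s.m0 - s.m1 v)| ≤ P.zeta * P.X (-90000) ∧ |q| ≤ P.zeta * P.X 3 := by
  refine ⟨(1 - P.zeta * s.m1 v) / (1 - P.zeta * s.m0) - 1, ?_, ?_, ?_⟩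
  · have h0 : (s.skip P κ).R v = s.R v * (1 - P.zeta * s.m1 v) / (1 - P.zeta * s.m0) := rfl
    rw [h0, mul_div_assoc]
    ring
  · have h1 := r03_ratio_R h.r03_a.1 h.r03_a.2 (h.r03_b v).1 (h.r03_b v).2 r03_small
    rw [← sub_sub, ← mul_sub] at h1
    refine h1.trans ?_
    have h3 : 2 * (P.zeta * P.X 4) ^ 2 = P.zeta * (2 * P.X (-99992)) := by
      have e1 : (P.zeta * P.X 4) ^ 2 = P.zeta * P.X (-99992) := by
        rw [r03_zX, r03_zX, P.X_pow]; norm_num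
      rw [e1]; ring
    rw [h3]
    exact mul_le_mul_of_nonneg_left (P.mul_X_le (r03_le_x 1 (by norm_num) (by norm_num))
      (by norm_num)) P.zeta_pos.le
  · have h1 := r03_ratio_R_crude (b := P.zeta * s.m1 v) h.r03_a.2 r03_small
    refine h1.trans ?_
    have h2 : |P.zeta * s.m0 - P.zeta * s.m1 v| ≤ P.zeta * P.X 2 := by
      rw [← mul_sub, abs_mul, abs_of_pos P.zeta_pos]
      refine mul_le_mul_of_nonneg_left ?_ P.zeta_pos.le
      have a1 := h.m0_le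
      have a2 := h.m1_le v
      have a3 : P.X 1 ≤ P.X 2 := P.X_le (by norm_num)
      exact abs_le.mpr ⟨by linarith [a1.1, a2.2], by linarith [a1.2, a2.1]⟩
    have h4 : 2 * (P.zeta * P.X 2) = P.zeta * (2 * P.X 2) := by ring
    calc 2 * |P.zeta * s.m0 - P.zeta * s.m1 v| ≤ 2 * (P.zeta * P.X 2) := by linarith
      _ = P.zeta * (2 * P.X 2) := h4
      _ ≤ P.zeta * P.X 3 := mul_le_mul_of_nonneg_left
          (P.mul_X_le (r03_le_x 1 (by norm_num) (by norm_num)) (by norm_num)) P.zeta_pos.le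

theorem skip_nonneg : (∀ v, 0 ≤ (s.skip P κ).R v) ∧ (∀ v w, 0 ≤ (s.skip P κ).rho v w) := by
  constructor
  · intro v
    exact div_nonneg (mul_nonneg (h.Rn v) (h.r03_pb v).le) h.r03_pa.le
  · intro v w
    exact div_nonneg (mul_nonneg (h.nn v w) (mul_nonneg (h.r03_pc v w).le h.r03_pa.le))
      (mul_nonneg (h.r03_pb v).le (h.r03_pb w).le)

/-- exact formula for `Th` in terms of `al` and `be = 1 - κ` -/
theorem Th_eq (u v w : V) : s.Th κ u v w =
    av (fun y => s.R y * (s.al u y * s.al v y * s.al w y))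
    - av (fun y => s.R y * (s.rho u y * s.rho v y * s.al w y * (1 - κ u v y)
        + s.rho u y * s.rho w y * s.al v y * (1 - κ u w y)
        + s.rho v y * s.rho w y * s.al u y * (1 - κ v w y)))
    - av (fun y => s.R y * (s.rho u y * s.rho v y * s.rho w y *
        ((1 - κ u v y) * (1 - κ u w y) + (1 - κ u v y) * (1 - κ v w y)
          + (1 - κ u w y) * (1 - κ v w y)
          - (1 - κ u v y) * (1 - κ u w y) * (1 - κ v w y)))) := by
  unfold St.Th St.m0 St.m1 St.m2 St.m3 St.al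
  rw [← av_sub, ← av_sub, ← av_sub, ← av_add, ← av_add, ← av_add, ← av_sub, ← av_sub, ← av_sub]
  exact av_congr fun y => by ring

end Sml

end MP5cA
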