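import Pool.Agent.Lib.MP_5c685b_co.A.OpB

/-!
# Route A', row R04: operator bounds
-/

set_option autoImplicit false
set_option linter.unusedVariables false
set_option linter.unusedSectionVars false

open Finset

namespace MP5cA

variable {V : Type} [Fintype V] [DecidableEq V]

theorem op_mono {F : Finset V} {K : V → V → ℝ} {c c' : ℝ} (h : OpLe F K c) (hc : 0 ≤ c)
    (hcc : c ≤ c') : OpLe F K c' := h.mono_c hc hcc

theorem op_anti {F F' : Finset V} {K : V → V → ℝ} {c : ℝ} (h : OpLe F K c) (hF : F ⊆ F') :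
    OpLe F' K c := h.anti hF

theorem op_congr {F : Finset V} {K K' : V → V → ℝ} {c : ℝ} (h : OpLe F K c)
    (hK : ∀ v, v ∉ F → ∀ w, w ∉ F → K v w = K' v w) : OpLe F K' c :=
  h.congr fun v w hv hw => hK v hv w hw

theorem op_of_abs_le {F : Finset V} {K K' : V → V → ℝ} {c : ℝ}
    (hK : ∀ v, v ∉ F → ∀ w, w ∉ F → |K v w| ≤ K' v w) (h : OpLe F K' c) : OpLe F K c := by
  intro f hf
  have h1 := h (fun w => |f w|) fun v hv => by
    show |f v| = 0
    rw [hf v hv, abs_zero]
  have e : (av fun w => |f w| ^ 2) = av fun w => f w ^ 2 := av_congr fun w => sq_abs _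
  rw [e] at h1
  refine le_trans (av_mono fun v => ?_) h1
  by_cases hv : v ∈ F
  · rw [ind_neg (by tauto), zero_mul, zero_mul]
  · refine mul_le_mul_of_nonneg_left ?_ (ind_nonneg _)
    rw [← sq_abs]
    refine pow_le_pow_left₀ (abs_nonneg _) ?_ 2
    refine (abs_av_le _).trans (av_mono fun w => ?_)
    by_cases hw : w ∈ F
    · rw [hf w hw, mul_zero, abs_zero, mul_zero]
    · rw [abs_mul]
      exact mul_le_mul_of_nonneg_right (hK v hv w hw) (abs_nonneg _)

theorem op_sup {F : Finset V} {K : V → V → ℝ} {c : ℝ} (hc : 0 ≤ c)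
    (hK : ∀ v, v ∉ F → ∀ w, w ∉ F → |K v w| ≤ c) : OpLe F K c :=
  OpLe.of_bounded hc fun v w hv hw => hK v hv w hw

theorem op_add {F : Finset V} {K K' : V → V → ℝ} {c c' : ℝ} (h : OpLe F K c) (h' : OpLe F K' c')
    (hc : 0 ≤ c) (hc' : 0 ≤ c') : OpLe F (fun v w => K v w + K' v w) (c + c') :=
  OpLe.add hc hc' h h'

theorem op_neg {F : Finset V} {K : V → V → ℝ} {c : ℝ} (h : OpLe F K c) :
    OpLe F (fun v w => - K v w) c := h.neg

theorem op_smul {F : Finset V} {K : V → V → ℝ} {c : ℝ} (h : OpLe F K c) (a : ℝ) :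
    OpLe F (fun v w => a * K v w) (|a| * c) := by
  intro f hf
  refine (h.smul a f hf).trans (le_of_eq ?_)
  rw [mul_pow, mul_pow, sq_abs]

theorem op_schur {F : Finset V} {K : V → V → ℝ} {a b c : ℝ} (ha : 0 ≤ a) (hb : 0 ≤ b)
    (h1 : ∀ v, v ∉ F → av (fun w => ind (w ∉ F) * |K v w|) ≤ a)
    (h2 : ∀ w, w ∉ F → av (fun v => ind (v ∉ F) * |K v w|) ≤ b) (hc : a * b ≤ c ^ 2) :
    OpLe F K c := by
  have h3 : OpLe F K |c| := by
    refine OpLe.schur ha hb (abs_nonneg c) (by rwa [sq_abs]) (fun v hv => ?_) fun w hw => ?_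
    · refine le_trans (le_of_eq (av_congr fun w => ?_)) (h1 v hv)
      rw [mul_comm]
    · refine le_trans (le_of_eq (av_congr fun v => ?_)) (h2 w hw)
      rw [mul_comm]
  intro f hf
  have := h3 f hf
  rwa [sq_abs] at this

theorem op_schur_sym {F : Finset V} {K : V → V → ℝ} {a : ℝ} (ha : 0 ≤ a)
    (hs : ∀ v w, |K v w| = |K w v|)
    (h1 : ∀ v, v ∉ F → av (fun w => ind (w ∉ F) * |K v w|) ≤ a) : OpLe F K a := by
  refine OpLe.schur_symm ha hs fun v hv => ?_
  refine le_trans (le_of_eq (av_congr fun w => ?_)) (h1 v hv)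
  rw [mul_comm]

theorem op_transpose {F : Finset V} {K : V → V → ℝ} {c : ℝ} (hc : 0 ≤ c) (h : OpLe F K c) :
    OpLe F (fun v w => K w v) c := h.transpose hc

theorem op_comp {F : Finset V} {K K' : V → V → ℝ} {c c' : ℝ} (h : OpLe F K c) (h' : OpLe F K' c')
    (hc : 0 ≤ c) : OpLe F (fun v w => av fun y => ind (y ∉ F) * (K v y * K' y w)) (c * c') := by
  intro f hf
  set g : V → ℝ := fun y => ind (y ∉ F) * av fun w => K' y w * f w with hg
  have hgF : ∀ v ∈ F, g v = 0 := fun v hv => by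
    show ind (v ∉ F) * _ = 0
    rw [ind_neg (by tauto), zero_mul]
  have h1 := h g hgF
  have h2 := h' f hf
  have e1 : (av fun y => g y ^ 2) = av fun v => ind (v ∉ F) * (av fun w => K' v w * f w) ^ 2 := by
    refine av_congr fun y => ?_
    show (ind (y ∉ F) * _) ^ 2 = _
    rw [mul_pow, ind_sq]
  have e2 : ∀ v, (av fun w => (av fun y => ind (y ∉ F) * (K v y * K' y w)) * f w)
      = av fun y => K v y * g y := by
    intro v
    have e3 : ∀ w, (av fun y => ind (y ∉ F) * (K v y * K' y w)) * f w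
        = av fun y => ind (y ∉ F) * (K v y * K' y w) * f w := fun w => by
      rw [av_mul_right]
    simp only [e3]
    rw [av_comm]
    refine av_congr fun y => ?_
    show _ = K v y * (ind (y ∉ F) * _)
    rw [← mul_assoc, ← av_mul_left]
    exact av_congr fun w => by ring
  simp only [e2]
  rw [e1] at h1
  calc _ ≤ c ^ 2 * av (fun v => ind (v ∉ F) * (av fun w => K' v w * f w) ^ 2) := h1
    _ ≤ c ^ 2 * (c' ^ 2 * av fun w => f w ^ 2) := mul_le_mul_of_nonneg_left h2 (sq_nonneg _)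
    _ = _ := by ring

theorem op_sandwich {F : Finset V} {K : V → V → ℝ} {R : V → ℝ} {c x : ℝ} (hc : 0 ≤ c) (hx : 0 ≤ x)
    (h : OpLe F K c) (hR : ∀ v, 0 ≤ R v) (hRx : ∀ v, R v ≤ x) (hRF : ∀ v ∈ F, R v = 0) :
    OpLe F (fun v w => av fun y => R y * K v y * K w y) (x * c ^ 2) := by
  have h1 := OpLe.comp_weight hc hc hx h (h.transpose hc) (R := R)
    (fun v => by rw [abs_of_nonneg (hR v)]; exact hRx v) hRF
  have e : c * x * c = x * c ^ 2 := by ring
  rw [e] at h1
  exact h1.congr fun v w _ _ => av_congr fun y => by ring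

theorem op_id (F : Finset V) : OpLe F (fun v w : V => ind (v = w)) (1 / (Fintype.card V : ℝ)) := by
  refine OpLe.diag zero_le_one (fun v w _ _ h => ind_neg h) fun v _ => ?_
  rw [ind_pos rfl, abs_one]

theorem op_av {F : Finset V} {K : V → V → V → ℝ} {R : V → ℝ} {c : ℝ} (hc : 0 ≤ c)
    (h : ∀ x, 0 < R x → OpLe F (K x) c) (hR : ∀ v, 0 ≤ R v) :
    OpLe F (fun v w => av fun x => R x * K x v w) (av R * c) := by
  have h1 : ∀ x ∈ (univ : Finset V), MP5c.Op.KN (res F fun v w => R x / (Fintype.card V : ℝ) * K x v w)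
      (R x / (Fintype.card V : ℝ) * c) := by
    intro x _
    have hRn : 0 ≤ R x / (Fintype.card V : ℝ) := div_nonneg (hR x) (Nat.cast_nonneg _)
    rcases (hR x).eq_or_lt with h0 | h0
    · have e : (fun v w => R x / (Fintype.card V : ℝ) * K x v w) = fun _ _ => (0 : ℝ) := by
        funext v w
        rw [← h0]
        simp
      rw [e, ← h0, zero_div, zero_mul]
      exact (OpLe.zero (c := 0)).to_KN le_rfl
    · exact ((h x h0).smul _).to_KN (mul_nonneg hRn hc)
  have h2 := MP5c.Op.OpLe.sum univ h1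
  refine OpLe.of_KN ?_
  have e : ∑ x, R x / (Fintype.card V : ℝ) * c = av R * c := by
    rw [← Finset.sum_mul, ← Finset.sum_div]
    rfl
  rw [e] at h2
  refine h2.congr fun v w => ?_
  rw [← Finset.sum_div]
  congr 1
  unfold res
  split_ifs with hvw
  · unfold av
    beta_reduce
    rw [Finset.sum_div]
    exact Finset.sum_congr rfl fun x _ => by ring
  · exact Finset.sum_const_zero

/-! ### traces -/

lemma mat_transpose {K : V → V → ℝ} (hs : ∀ v w, K v w = K w v) : (mat K).transpose = mat K := by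
  ext v w
  show K w v / _ = K v w / _
  rw [hs]

theorem op_trace {K : V → V → ℝ} {c : ℝ} (hc : 0 < c) (hs : ∀ v w, K v w = K w v) {q : ℕ}
    (hq : 1 ≤ q) (h : ((mat K) ^ (2 * q)).trace ≤ c ^ (2 * q)) : OpLe ∅ K c :=
  (OpLe.empty_iff hc.le).2 (MP5c.Op.KN_of_trK hs (even_two_mul q) (by omega) hc.le h)

theorem trace_nonneg {K : V → V → ℝ} (hs : ∀ v w, K v w = K w v) (q : ℕ) :
    0 ≤ ((mat K) ^ (2 * q)).trace := MP5c.Op.trace_nonneg (mat_transpose hs) (even_two_mul q)

theorem trace_sq {K : V → V → ℝ} (hs : ∀ v w, K v w = K w v) :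
    ((mat K) ^ (2 * 1)).trace = av fun v => av fun w => K v w ^ 2 := trM_two hs

theorem trace_le_hs {K : V → V → ℝ} {c : ℝ} (hc : 0 ≤ c) (hs : ∀ v w, K v w = K w v)
    (h : OpLe ∅ K c) (q : ℕ) :
    ((mat K) ^ (2 * (q + 1))).trace ≤ c ^ (2 * q) * av fun v => av fun w => K v w ^ 2 := by
  have h1 := MP5c.Op.trace_pow_le_hs (A := fun v w => K v w / (Fintype.card V : ℝ))
    (fun v w => by rw [hs]) ((OpLe.empty_iff hc).1 h) (even_two_mul q)
  have e : ∑ v, ∑ w, (K v w / (Fintype.card V : ℝ)) ^ 2 = av fun v => av fun w => K v w ^ 2 := by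
    unfold av
    rw [Finset.sum_div]
    refine Finset.sum_congr rfl fun v _ => ?_
    rw [div_div, Finset.sum_div]
    exact Finset.sum_congr rfl fun w _ => by rw [div_pow, sq (Fintype.card V : ℝ)]
  rw [e] at h1
  have e2 : 2 * (q + 1) = 2 * q + 2 := by ring
  rw [e2]
  exact h1

theorem trace_step {K Z : V → V → ℝ} {c : ℝ} (hK : ∀ v w, K v w = K w v)
    (hZ : ∀ v w, Z v w = Z w v) (h : OpLe ∅ Z c) (q : ℕ) :
    ((mat fun v w => K v w + Z v w) ^ (2 * (q + 1))).trace ≤ ((mat K) ^ (2 * (q + 1))).trace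
      + (2 * (q + 1)) * ((mat K) ^ (2 * q + 1) * mat Z).trace
      + (2 * (q + 1)) * (2 * q + 1) * c ^ 2 *
        (((mat K) ^ (2 * q)).trace + ((mat fun v w => K v w + Z v w) ^ (2 * q)).trace) := by
  have hc : OpLe ∅ Z |c| := by
    intro f hf
    have := h f hf
    rwa [sq_abs]
  have hKN := (OpLe.empty_iff (abs_nonneg c)).1 hc
  have hsub : (mat fun v w => K v w + Z v w) - mat K = mat Z := by
    ext v w
    show (K v w + Z v w) / _ - K v w / _ = Z v w / _
    ring
  have h1 := MP5c.Tr.tr_step (mat_transpose hK)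
    (mat_transpose (K := fun v w => K v w + Z v w) fun v w => by rw [hK, hZ]) (abs_nonneg c)
    (by rw [hsub]; exact (MP5c.Op.opLe_iff_form (abs_nonneg c)).1 hKN) (even_two_mul q)
  rw [hsub, sq_abs] at h1
  push_cast at h1
  have e2 : 2 * (q + 1) = 2 * q + 2 := by ring
  rw [e2]
  calc _ ≤ _ := h1
    _ = _ := by ring

theorem trace_add_le {K Z : V → V → ℝ} (hK : ∀ v w, K v w = K w v)
    (hZ : ∀ v w, Z v w = Z w v) (q : ℕ) (hq : 1 ≤ q) :
    ((mat fun v w => K v w + Z v w) ^ (2 * q)).trace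
      ≤ 2 ^ (2 * q - 1) * (((mat K) ^ (2 * q)).trace + ((mat Z) ^ (2 * q)).trace) := by
  have e : (mat fun v w => K v w + Z v w) = mat K + mat Z := by
    ext v w
    show (K v w + Z v w) / _ = K v w / _ + Z v w / _
    ring
  rw [e]
  exact MP5c.Op.trace_add_pow_le' (mat_transpose hK) (mat_transpose hZ) (even_two_mul q) (by omega)

end MP5cA
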