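import Pool.Agent.Lib.MP_5c685b_co.A.R03

/-!
# Route A', row R05: the structural part of the invariant (text, section 1 end, section 4)
-/

set_option autoImplicit false
set_option linter.unusedVariables false
set_option linter.unusedSectionVars false

open Finset

namespace MP5cA

variable {V : Type} [Fintype V] [DecidableEq V] {P : Par}

namespace Amb

theorem R05_exp_Kp_le : Real.exp P.Kp ≤ P.X 1 := by
  rw [P.X_one]
  refine le_trans (Real.exp_le_exp.2 ?_) (P.exp_le (c := 67) (by norm_num))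
  unfold Par.Kp
  linarith [P.hLam]

/-- `κ` is nonnegative and at most `x` -/
theorem kok_bounds (A : Amb P V) {κ : V → V → V → ℝ} (hκ : KOK A κ) (u v w : V) :
    0 ≤ κ u v w ∧ κ u v w ≤ P.X 1 := by
  by_cases h1 : A.H u v w ∨ ¬ Amb.D3 u v w
  · rw [hκ.kH u v w h1]
    exact ⟨le_refl _, (P.X_pos 1).le⟩
  · have hH : ¬ A.H u v w := fun h => h1 (Or.inl h)
    have hD : Amb.D3 u v w := by
      by_contra h
      exact h1 (Or.inr h)
    by_cases hT : A.TT u v w
    · exact ⟨(Real.exp_pos _).le.trans (hκ.kl u v w hT), (hκ.ku u v w hT).trans R05_exp_Kp_le⟩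
    · rw [hκ.k1 u v w hD hH hT]
      exact ⟨zero_le_one, P.one_le_X (by norm_num)⟩

/-- `|1 - κ| ≤ x hh` for distinct vertices -/
theorem be_le (A : Amb P V) {κ : V → V → V → ℝ} (hκ : KOK A κ) {u v w : V} (hd : Amb.D3 u v w) :
    |1 - κ u v w| ≤ P.X 1 * A.hh u v w := by
  have h1 : 1 ≤ P.X 1 := P.one_le_X (by norm_num)
  obtain ⟨hb0, hb1⟩ := A.kok_bounds hκ u v w
  by_cases hc : A.H u v w ∨ A.TT u v w
  · unfold Amb.hh
    rw [ind_pos hc, mul_one, abs_le]
    constructor
    · linarith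
    · linarith
  · have hH : ¬ A.H u v w := fun h => hc (Or.inl h)
    have hT : ¬ A.TT u v w := fun h => hc (Or.inr h)
    rw [hκ.k1 u v w hd hH hT]
    simp only [sub_self, abs_zero]
    exact mul_nonneg (P.X_pos 1).le (ind_nonneg _)

/-- for distinct vertices, `κ` vanishes exactly on `H` -/
theorem R05_k_eq_zero (A : Amb P V) {κ : V → V → V → ℝ} (hκ : KOK A κ) {u v w : V}
    (hd : Amb.D3 u v w) : κ u v w = 0 ↔ A.H u v w := by
  constructor
  · intro h0
    by_contra hH
    by_cases hT : A.TT u v w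
    · have := hκ.kl u v w hT
      have h2 := Real.exp_pos (-P.Kp)
      linarith
    · have := hκ.k1 u v w hd hH hT
      linarith
  · intro hH
    exact hκ.kH u v w (Or.inl hH)

end Amb

/-- the structural part of `Inv` -/
structure SInv (A : Amb P V) (s : St V) : Prop where
  sym : ∀ v w, s.rho v w = s.rho w v
  nn : ∀ v w, 0 ≤ s.rho v w
  Rn : ∀ v, 0 ≤ s.R v
  RF : ∀ v ∈ s.F, s.R v = 0
  rF : ∀ v ∈ s.F, ∀ w, s.rho v w = 0
  rd : ∀ v, s.rho v v = 0
  bk : ∀ v w, v ∉ s.F → w ∉ s.F → v ≠ w → (s.rho v w = 0 ↔ ∃ u ∈ s.F, A.H u v w)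
  cl : ∀ u ∈ s.F, ∀ v ∈ s.F, ∀ w ∈ s.F, ¬ A.H u v w
  Rc : ∀ v, s.R v ≠ 0 → ∀ u ∈ s.F, ∀ w ∈ s.F, ¬ A.H u w v
  Ms : ∀ v w, s.M v w = s.M w v

theorem R05_D3_comm {u v w : V} : Amb.D3 u v w ↔ Amb.D3 u w v := by
  unfold Amb.D3
  constructor
  · rintro ⟨h1, h2, h3⟩
    exact ⟨h2, h1, h3.symm⟩
  · rintro ⟨h1, h2, h3⟩
    exact ⟨h2, h1, h3.symm⟩

theorem R05_LL_comm (A : Amb P V) {κ : V → V → V → ℝ} (hκ : KOK A κ) {s : St V}
    (hsym : ∀ v w, s.rho v w = s.rho w v) (x v w : V) : s.LL κ x v w = s.LL κ x w v := by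
  unfold St.LL
  rw [hsym v w, hκ.s2 x v w, ind_congr (R05_D3_comm (u := x) (v := v) (w := w))]

theorem R05_Lbar_comm (A : Amb P V) {κ : V → V → V → ℝ} (hκ : KOK A κ) {s : St V}
    (hsym : ∀ v w, s.rho v w = s.rho w v) (v w : V) : s.Lbar P κ v w = s.Lbar P κ w v := by
  unfold St.Lbar
  congr 1
  exact av_congr fun x => by rw [R05_LL_comm A hκ hsym x v w]

theorem sinv_init (A : Amb P V) : SInv A (s0 : St V) where
  sym := fun v w => ind_congr ne_comm
  nn := fun v w => ind_nonneg _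
  Rn := fun v => zero_le_one
  RF := fun v hv => absurd hv (Finset.notMem_empty v)
  rF := fun v hv => absurd hv (Finset.notMem_empty v)
  rd := fun v => ind_neg fun h => h rfl
  bk := by
    intro v w _ _ hvw
    constructor
    · intro h0
      have h1 : (s0 : St V).rho v w = 1 := ind_pos hvw
      rw [h1] at h0
      exact absurd h0 one_ne_zero
    · rintro ⟨u, hu, _⟩
      exact absurd hu (Finset.notMem_empty u)
  cl := fun u hu => absurd hu (Finset.notMem_empty u)
  Rc := fun v _ u hu => absurd hu (Finset.notMem_empty u)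
  Ms := fun v w => rfl

/-- taking a vertex `x` with `R x > 0` -/
theorem sinv_take (A : Amb P V) {κ : V → V → V → ℝ} (hκ : KOK A κ) {s : St V} (h : SInv A s)
    {x : V} (hx : 0 < s.R x) : SInv A (s.take P κ x) := by
  have hxF : x ∉ s.F := fun hxF => by
    have := h.RF x hxF
    linarith
  have hT : (s.take P κ x).F = insert x s.F := rfl
  have hR : ∀ v, (s.take P κ x).R v = s.R v * s.rho x v := fun v => rfl
  have hr : ∀ v w, (s.take P κ x).rho v w = s.rho v w * κ x v w := fun v w => rfl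
  have hM : ∀ v w, (s.take P κ x).M v w = s.M v w + s.LL κ x v w - s.Lbar P κ v w :=
    fun v w => rfl
  -- no edge of `H` inside `insert x F`
  have hx2 : ∀ v ∈ s.F, ∀ w ∈ s.F, ¬ A.H x v w := fun v hv w hw hH =>
    h.Rc x hx.ne' v hv w hw (A.s2 _ _ _ (A.s1 _ _ _ hH))
  refine
    { sym := fun v w => ?_
      nn := fun v w => ?_
      Rn := fun v => ?_
      RF := fun v hv => ?_
      rF := fun v hv w => ?_
      rd := fun v => ?_
      bk := fun v w hv hw hvw => ?_
      cl := fun u hu v hv w hw => ?_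
      Rc := fun v hv u hu w hw => ?_
      Ms := fun v w => ?_ }
  · rw [hr, hr, h.sym v w, hκ.s2 x v w]
  · rw [hr]
    exact mul_nonneg (h.nn v w) (A.kok_bounds hκ x v w).1
  · rw [hR]
    exact mul_nonneg (h.Rn v) (h.nn x v)
  · rw [hT, Finset.mem_insert] at hv
    rw [hR]
    rcases hv with rfl | hv
    · rw [h.rd, mul_zero]
    · rw [h.RF v hv, zero_mul]
  · rw [hT, Finset.mem_insert] at hv
    rw [hr]
    rcases hv with rfl | hv
    · rw [hκ.kH v v w (Or.inr fun hd => hd.1 rfl), mul_zero]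
    · rw [h.rF v hv w, zero_mul]
  · rw [hr, h.rd, zero_mul]
  · rw [hT, Finset.mem_insert, not_or] at hv hw
    have hD : Amb.D3 x v w := ⟨fun e => hv.1 e.symm, fun e => hw.1 e.symm, hvw⟩
    rw [hr, mul_eq_zero, h.bk v w hv.2 hw.2 hvw, A.R05_k_eq_zero hκ hD, hT]
    constructor
    · rintro (⟨u, hu, hH⟩ | hH)
      · exact ⟨u, Finset.mem_insert_of_mem hu, hH⟩
      · exact ⟨x, Finset.mem_insert_self _ _, hH⟩
    · rintro ⟨u, hu, hH⟩
      rcases Finset.mem_insert.1 hu with rfl | hu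
      · exact Or.inr hH
      · exact Or.inl ⟨u, hu, hH⟩
  · intro hH
    obtain ⟨d1, d2, d3⟩ := A.hd u v w hH
    rw [hT, Finset.mem_insert] at hu hv hw
    rcases hu with hu | hu
    · have hv' : v ∈ s.F := hv.resolve_left fun e => d1 (hu.trans e.symm)
      have hw' : w ∈ s.F := hw.resolve_left fun e => d2 (hu.trans e.symm)
      rw [hu] at hH
      exact hx2 v hv' w hw' hH
    · rcases hv with hv | hv
      · have hw' : w ∈ s.F := hw.resolve_left fun e => d3 (hv.trans e.symm)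
        rw [hv] at hH
        exact hx2 u hu w hw' (A.s1 _ _ _ hH)
      · rcases hw with hw | hw
        · rw [hw] at hH
          exact hx2 u hu v hv (A.s1 _ _ _ (A.s2 _ _ _ hH))
        · exact h.cl u hu v hv w hw hH
  · intro hH
    obtain ⟨d1, d2, d3⟩ := A.hd u w v hH
    rw [hR] at hv
    have hRv : s.R v ≠ 0 := left_ne_zero_of_mul hv
    have hrv : s.rho x v ≠ 0 := right_ne_zero_of_mul hv
    have hvF : v ∉ s.F := fun hvF => hRv (h.RF v hvF)
    have hxv : x ≠ v := by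
      intro e
      rw [e] at hrv
      exact hrv (h.rd v)
    have hb : ∀ y ∈ s.F, ¬ A.H y x v := fun y hy hHy =>
      hrv ((h.bk x v hxF hvF hxv).2 ⟨y, hy, hHy⟩)
    rw [hT, Finset.mem_insert] at hu hw
    rcases hu with hu | hu
    · have hw' : w ∈ s.F := hw.resolve_left fun e => d1 (hu.trans e.symm)
      rw [hu] at hH
      exact hb w hw' (A.s1 _ _ _ hH)
    · rcases hw with hw | hw
      · rw [hw] at hH
        exact hb u hu hH
      · exact h.Rc v hRv u hu w hw hH
  · rw [hM, hM, h.Ms v w, R05_LL_comm A hκ h.sym x v w, R05_Lbar_comm A hκ h.sym v w]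

/-- an empty slot -/
theorem sinv_skip (A : Amb P V) {κ : V → V → V → ℝ} (hκ : KOK A κ) {s : St V} (h : SInv A s)
    (hs : Sml P κ s) : SInv A (s.skip P κ) := by
  have hF : (s.skip P κ).F = s.F := rfl
  have hR : ∀ v, (s.skip P κ).R v = s.R v * (1 - P.zeta * s.m1 v) / (1 - P.zeta * s.m0) :=
    fun v => rfl
  have hr : ∀ v w, (s.skip P κ).rho v w = s.rho v w * ((1 - P.zeta * s.m2 κ v w) *
    (1 - P.zeta * s.m0)) / ((1 - P.zeta * s.m1 v) * (1 - P.zeta * s.m1 w)) := fun v w => rfl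
  have hM : ∀ v w, (s.skip P κ).M v w = s.M v w - s.Lbar P κ v w := fun v w => rfl
  have hr0 : ∀ v w, (s.skip P κ).rho v w = 0 ↔ s.rho v w = 0 := by
    intro v w
    obtain ⟨q, hq, _, hq2⟩ := hs.skip_rho v w
    have h1 : P.zeta * P.X 5 < 1 := by
      unfold Par.zeta
      rw [P.X_mul]
      calc P.X (-100000 + 5) ≤ P.X (-1) := P.X_le (by norm_num)
        _ = (P.x)⁻¹ := by rw [← P.X_inv, P.X_one]
        _ < 1 := inv_lt_one_of_one_lt₀ P.one_lt_x
    have h2 : 0 < 1 + q := by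
      have := (abs_le.1 hq2).1
      linarith
    rw [hq, mul_eq_zero, or_iff_left h2.ne']
  refine
    { sym := fun v w => ?_
      nn := hs.skip_nonneg.2
      Rn := hs.skip_nonneg.1
      RF := fun v hv => ?_
      rF := fun v hv w => ?_
      rd := fun v => ?_
      bk := fun v w hv hw hvw => ?_
      cl := h.cl
      Rc := fun v hv => ?_
      Ms := fun v w => ?_ }
  · rw [hr, hr, h.sym v w, hs.m2_sym v w, mul_comm (1 - P.zeta * s.m1 v)]
  · rw [hR, h.RF v hv, zero_mul, zero_div]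
  · exact (hr0 v w).2 (h.rF v hv w)
  · exact (hr0 v v).2 (h.rd v)
  · rw [hr0]
    exact h.bk v w hv hw hvw
  · refine h.Rc v fun h0 => hv ?_
    rw [hR, h0, zero_mul, zero_div]
  · rw [hM, hM, h.Ms v w, R05_Lbar_comm A hκ h.sym v w]

end MP5cA
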