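import Pool.Agent.Lib.MP_5c685b_co.A.R04
import Pool.Agent.Lib.MP_5c685b_co.A.R05
import Pool.Agent.Lib.MP_5c685b_co.A.Pt

/-!
# Route A', row R06: first consequences of `Inv` and `Good` (text, section 4, (i) and norms)
-/

set_option autoImplicit false
set_option linter.unusedVariables false
set_option linter.unusedSectionVars false

open Finset

namespace MP5cA

variable {V : Type} [Fintype V] [DecidableEq V] {P : Par}

attribute [local irreducible] Par.X

namespace Par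

variable (P : Par)

theorem sS_nonneg (t : ℕ) : 0 ≤ P.sS t := P.pt_sS_nonneg t

theorem sS_mono {t t' : ℕ} (h : t ≤ t') : P.sS t ≤ P.sS t' := P.pt_sS_mono h

/-- the linear Gronwall bound -/
theorem sS_le {t : ℕ} (ht : t ≤ P.T) : P.sS t ≤ P.X (-9598) := P.pt_sS ht

theorem zeta_t_le {t : ℕ} (ht : t ≤ P.T) : P.zeta * t ≤ 5 * P.X 10000 := P.pt_zeta_T_le ht

end Par

theorem St.Inv.sinv {A : Amb P V} {s : St V} {t : ℕ} (h : s.Inv A t) : SInv A s :=
  ⟨h.sym, h.nn, h.Rn, h.RF, h.rF, h.rd, h.bk, h.cl, h.Rc, h.Ms⟩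

section

variable {A : Amb P V} {s : St V} {t : ℕ}

/-- `|al| = bl + aa` -/
theorem abs_al (v w : V) : |s.al v w| = s.bl v w + s.aa v w := s.pt_abs_al v w

theorem al_sq (v w : V) : s.al v w ^ 2 = s.bl v w + s.aa v w ^ 2 := s.pt_al_sq v w

theorem bl_nonneg (v w : V) : 0 ≤ s.bl v w := ind_nonneg _

theorem bl_le_one (v w : V) : s.bl v w ≤ 1 := ind_le_one _

theorem aa_nonneg (v w : V) : 0 ≤ s.aa v w := mul_nonneg (abs_nonneg _) (ind_nonneg _)

theorem bp_nonneg (v w : V) : 0 ≤ s.bp A v w := ind_nonneg _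

theorem bp_le_one (v w : V) : s.bp A v w ≤ 1 := ind_le_one _

/-- `bp ≤ sum over F of h` -/
theorem bp_le_sum (v w : V) : s.bp A v w ≤ ∑ u ∈ s.F, A.h u v w := by
  have h0 : 0 ≤ ∑ u ∈ s.F, A.h u v w := Finset.sum_nonneg fun u _ => A.h_nonneg _ _ _
  unfold St.bp
  by_cases hex : ∃ u ∈ s.F, A.H u v w
  · rw [ind_pos hex]
    obtain ⟨u, hu, huH⟩ := hex
    have h5 : A.h u v w ≤ ∑ u ∈ s.F, A.h u v w :=
      Finset.single_le_sum (f := fun u => A.h u v w) (fun u _ => A.h_nonneg _ _ _) hu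
    have h6 : A.h u v w = 1 := ind_pos huH
    linarith
  · rw [ind_neg hex]; linarith

theorem bl_le (h : SInv A s) {v : V} (hv : v ∉ s.F) (w : V) :
    s.bl v w ≤ s.bp A v w + ind (w ∈ s.F) + ind (w = v) := by
  have h1 := bl_le_one (s := s) v w
  have h2 := ind_nonneg (w ∈ s.F)
  have h3 := ind_nonneg (w = v)
  have h4 := bp_nonneg (A := A) (s := s) v w
  by_cases hw : w ∈ s.F
  · rw [ind_pos hw]; linarith
  · by_cases hwv : w = v
    · rw [ind_pos hwv]; linarith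
    · have h5 : s.bl v w = s.bp A v w := ind_congr (h.bk v w hv hw (Ne.symm hwv))
      rw [h5]
      linarith

theorem R_bl_le (h : SInv A s) {v : V} (hv : v ∉ s.F) (w : V) :
    s.R w * s.bl v w ≤ s.R w * s.bp A v w + s.R w * ind (w = v) := by
  have hR := h.Rn w
  by_cases hw : w ∈ s.F
  · rw [h.RF w hw]
    simp
  · have h1 := bl_le h hv w
    rw [ind_neg hw] at h1
    have h2 := mul_le_mul_of_nonneg_left h1 hR
    linarith

/-- sharp bound for `rho` at good states -/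
theorem rho_exp (hi : s.Inv A t) (hg : s.Good A) (ht : t ≤ P.T) (v w : V) :
    s.rho v w ≤ Real.exp (300 * P.Kp + 6) := by
  by_cases hs : A.Strong v w
  · refine (hi.i1 v w hs).trans (Real.exp_le_exp.2 ?_)
    have h1 := hg.g5 v
    have h2 : P.zeta * t / P.r ≤ 5 := by
      rw [div_le_iff₀ P.pt_r_pos, P.r_eq]
      exact P.pt_zeta_T_le ht
    have h3 : P.Kp * s.cnt A v ≤ P.Kp * 300 := mul_le_mul_of_nonneg_left h1 P.pt_Kp_nonneg
    linarith
  · have h1 := St.pt_rho_ns hi ht hs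
    have h2 : (1 : ℝ) + (300 * P.Kp + 6) ≤ Real.exp (300 * P.Kp + 6) := by
      have := Real.add_one_le_exp (300 * P.Kp + 6)
      linarith
    have h3 := P.pt_Kp_nonneg
    linarith

/-- `rho ≤ x` at good states -/
theorem rho_le (hi : s.Inv A t) (hg : s.Good A) (ht : t ≤ P.T) (v w : V) :
    s.rho v w ≤ P.X 1 := by
  rw [P.X_one]
  exact St.pt_rho_le hi hg ht v w

theorem sml (hi : s.Inv A t) (hg : s.Good A) (ht : t ≤ P.T) {κ : V → V → V → ℝ}
    (hκ : KOK A κ) : Sml P κ s where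
  sym := hi.sym
  nn := hi.nn
  Rn := hi.Rn
  R1 v := by rw [P.X_one]; exact hg.g1 v
  r1 := rho_le hi hg ht
  rd := hi.rd
  k0 u v w := (A.kok_bounds hκ u v w).1
  k1 u v w := (A.kok_bounds hκ u v w).2
  ks1 := hκ.s1
  ks2 := hκ.s2

/-- a pair which is not strong: `aa` is tiny -/
theorem aa_ns (hi : s.Inv A t) (ht : t ≤ P.T) {v w : V} (h : ¬ A.Strong v w) :
    s.aa v w ≤ P.X (-33) := by
  have h1 := hi.i2 v w h
  have h2 : A.lam v w ≤ P.X (-20040) := by
    unfold Amb.Strong Par.theta at h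
    push Not at h
    exact h.le
  have h3 : P.zeta * t * P.X 10006 * A.lam v w ≤ 5 * P.X (-34) := by
    calc P.zeta * t * P.X 10006 * A.lam v w ≤ (5 * P.X 10000) * P.X 10006 * P.X (-20040) := by
          have := P.pt_zeta_T_le ht
          have h5 := P.X_pos 10006
          have h6 := P.X_pos 10000
          have h7 := P.pt_zeta_t_nonneg t
          gcongr
          exact A.lam_nonneg v w
      _ = 5 * P.X (-34) := by
          rw [mul_assoc 5, P.X_mul, mul_assoc 5, P.X_mul]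
          norm_num
  have h4 : P.sS t ≤ P.X (-34) := (P.pt_sS ht).trans (P.X_le (by norm_num))
  have h5 : 6 * P.X (-34) ≤ P.X (-33) := P.mul_X_le (by linarith [P.pt_thousand_le]) (by norm_num)
  linarith

theorem aa_le_x (hi : s.Inv A t) (hg : s.Good A) (ht : t ≤ P.T) (v w : V) :
    s.aa v w ≤ P.X 1 := by
  rw [P.X_one]
  exact St.pt_aa_x hi hg ht v w

/-- (i) pointwise bound -/
theorem aa_le (hi : s.Inv A t) (hg : s.Good A) (ht : t ≤ P.T) (v w : V) :
    s.aa v w ≤ P.sS t + P.X 20042 * A.lam v w := St.pt_aa_le hi hg ht v w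

theorem av_aa_sq (hi : s.Inv A t) (hg : s.Good A) (ht : t ≤ P.T) {v : V} (hv : v ∉ s.F) :
    av (fun w => s.aa v w ^ 2) ≤ P.X (-19768) := by
  refine (St.pt_aa2 hi hg ht hv).trans (le_of_eq ?_)
  rw [P.X_pow]
  norm_num

theorem av_aa (hi : s.Inv A t) (hg : s.Good A) (ht : t ≤ P.T) {v : V} (hv : v ∉ s.F) :
    av (fun w => s.aa v w) ≤ P.X (-9884) := St.pt_avaa hi hg ht hv

theorem av_bl (hi : s.Inv A t) (hg : s.Good A) (ht : t ≤ P.T) {v : V} (hv : v ∉ s.F) :
    av (fun w => s.bl v w) ≤ P.X (-9997) := St.pt_avbl hi hg hv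

theorem av_bp (hg : s.Good A) (v : V) : av (fun w => s.bp A v w) ≤ P.X (-9997) := by
  calc av (fun w => s.bp A v w) ≤ av (fun w => ∑ u ∈ s.F, A.h u v w) :=
        av_mono fun w => bp_le_sum v w
    _ = ∑ u ∈ s.F, av (fun w => A.h u v w) := av_sum _ _
    _ ≤ ∑ _u ∈ s.F, P.eps := Finset.sum_le_sum fun u _ => A.deg u v
    _ = (s.F.card : ℝ) * P.eps := by rw [Finset.sum_const, nsmul_eq_mul]
    _ ≤ P.X 10002 * P.eps := mul_le_mul_of_nonneg_right hg.g2 P.eps_pos.le
    _ = P.Lam * (P.X 10002 * P.X (-20000)) := by unfold Par.eps; ring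
    _ = P.Lam * P.X (-9998) := by rw [P.X_mul]; norm_num
    _ ≤ P.X (-9997) := P.mul_X_le P.Lam_le_x (by norm_num)

theorem av_al_sq (hi : s.Inv A t) (hg : s.Good A) (ht : t ≤ P.T) {v : V} (hv : v ∉ s.F) :
    av (fun w => s.al v w ^ 2) ≤ P.X (-9996) := by
  refine (St.pt_al2 hi hg ht hv).trans (le_of_eq ?_)
  rw [P.X_pow]
  norm_num

theorem av_abs_al (hi : s.Inv A t) (hg : s.Good A) (ht : t ≤ P.T) {v : V} (hv : v ∉ s.F) :
    av (fun w => |s.al v w|) ≤ P.X (-9883) := St.pt_aval hi hg ht hv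

/-- `<b_v> ≤ Y'(v) + x / n` -/
theorem av_R_bl (hi : s.Inv A t) (hg : s.Good A) {v : V} (hv : v ∉ s.F) :
    av (fun w => s.R w * s.bl v w) ≤ s.Yp A v + P.X (-199999) := by
  have h1 : av (fun y => s.R y * s.bl v y) ≤ s.Yp A v + s.R v / (Fintype.card V : ℝ) := by
    rw [← av_mul_ind_eq v s.R]
    unfold St.Yp
    rw [← av_add]
    exact av_mono fun y => St.pt_R_bl_le hi hv y
  have h3 := St.pt_X_card A (hg.g1 v)
  linarith

/-- `<b_v> ≤ (y0 - 1/4) / r` -/
theorem av_R_bl' (hi : s.Inv A t) (hg : s.Good A) {v : V} (hv : v ∉ s.F) :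
    av (fun w => s.R w * s.bl v w) ≤ (P.y0 - 1 / 4) / P.r := by
  have h1 := av_R_bl hi hg hv
  have h2 := hg.g3 v
  have h4 : P.X (-199999) ≤ 1 / 4 / P.r := by
    rw [P.r_eq, div_eq_mul_inv, P.X_inv]
    calc P.X (-199999) = P.X (-1) * P.X (-199998) := by rw [P.X_mul]; norm_num
      _ ≤ (1 / 1000) * P.X (-199998) := mul_le_mul_of_nonneg_right P.pt_X_neg_one (P.X_pos _).le
      _ ≤ (1 / 4) * P.X (-10000) := by
          have h5 := P.X_le (a := -199998) (b := -10000) (by norm_num)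
          have h6 := P.X_pos (-199998)
          linarith
  have h5 : (P.y0 - 1 / 2) / P.r + 1 / 4 / P.r = (P.y0 - 1 / 4) / P.r := by
    rw [← add_div]; ring
  linarith

/-- the operator norm of `al` off `F` -/
theorem op_al (hi : s.Inv A t) (hg : s.Good A) (ht : t ≤ P.T) :
    OpLe s.F s.al (P.X (-14890)) := by
  have h1 := op_anti hg.g6 (Finset.empty_subset s.F)
  have hz0 := P.pt_zeta_t_nonneg t
  have hF0 : (0 : ℝ) ≤ s.F.card := Nat.cast_nonneg _
  have hc0 : 0 ≤ 2 / P.X 200000 + s.F.card * P.zeta + P.zeta * t * P.X (-24892) := by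
    have a1 : 0 ≤ 2 / P.X 200000 := div_nonneg (by norm_num) (P.X_pos _).le
    have a2 : 0 ≤ (s.F.card : ℝ) * P.zeta := mul_nonneg hF0 P.zeta_pos.le
    have a3 : 0 ≤ P.zeta * t * P.X (-24892) := mul_nonneg hz0 (P.X_pos _).le
    linarith
  have h2 := op_add hi.i4 h1 hc0 (P.X_pos _).le
  have h3 := op_congr h2 (K' := s.al) fun v _ w _ => by ring
  refine op_mono h3 (add_nonneg hc0 (P.X_pos _).le) ?_
  have e1 : 2 / P.X 200000 ≤ P.X (-14892) := by
    rw [div_eq_mul_inv, P.X_inv]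
    exact P.mul_X_le (by linarith [P.pt_thousand_le]) (by norm_num)
  have e2 : (s.F.card : ℝ) * P.zeta ≤ P.X (-14892) := by
    calc (s.F.card : ℝ) * P.zeta ≤ P.X 10002 * P.zeta :=
          mul_le_mul_of_nonneg_right hg.g2 P.zeta_pos.le
      _ = P.X (-89998) := by unfold Par.zeta; rw [P.X_mul]; norm_num
      _ ≤ P.X (-14892) := P.X_le (by norm_num)
  have e3 : P.zeta * t * P.X (-24892) ≤ 5 * P.X (-14892) := by
    calc P.zeta * t * P.X (-24892) ≤ (5 * P.X 10000) * P.X (-24892) :=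
          mul_le_mul_of_nonneg_right (P.pt_zeta_T_le ht) (P.X_pos _).le
      _ = 5 * P.X (-14892) := by rw [mul_assoc, P.X_mul]; norm_num
  have e4 : P.X (-14940) ≤ P.X (-14892) := P.X_le (by norm_num)
  have e5 : 8 * P.X (-14892) ≤ P.X (-14890) :=
    P.mul_X_le (by linarith [P.pt_thousand_le]) (by norm_num)
  linarith

end

end MP5cA
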