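import Pool.Agent.Lib.MP_5c685b_co.A.R06

/-!
# Route A', row R07: bounds for `DD` and `gg` (text, section 4, (ii), (iii))
-/

set_option autoImplicit false
set_option linter.unusedVariables false
set_option linter.unusedSectionVars false

open Finset

namespace MP5cA

variable {V : Type} [Fintype V] [DecidableEq V] {P : Par}

attribute [local irreducible] Par.X

variable {A : Amb P V} {s : St V} {t : ℕ}

theorem av_bb (hi : s.Inv A t) (hg : s.Good A) {v w : V} (hv : v ∉ s.F)
    (hw : w ∉ s.F) (hvw : v ≠ w) :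
    av (fun y => s.R y * (s.bl v y * s.bl w y)) ≤ P.X (-19992) + P.X 10005 * A.lam v w :=
  St.pt_bb hi hg hv hw hvw

theorem av_ba (hi : s.Inv A t) (hg : s.Good A) (ht : t ≤ P.T) {v : V} (hv : v ∉ s.F) (w : V) :
    av (fun y => s.R y * (s.bl v y * s.aa w y)) ≤ P.sS t * P.y0 / P.r + P.X (-19956) := by
  have h1 : ∀ y, s.R y * (s.bl v y * s.aa w y) ≤ P.sS t * (s.R y * s.bl v y)
      + P.X 20043 * A.lam w y := by
    intro y
    have hR := hi.Rn y
    have b1 := s.pt_bl_nonneg v y
    have b3 := s.pt_bl_le_one v y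
    have h2 := St.pt_aa_le hi hg ht w y
    have h3 : s.R y * (s.bl v y * s.aa w y) ≤
        s.R y * (s.bl v y * (P.sS t + P.X 20042 * A.lam w y)) := by
      gcongr
    have h4 : s.R y * s.bl v y ≤ P.x := by
      calc s.R y * s.bl v y ≤ s.R y * 1 := mul_le_mul_of_nonneg_left b3 hR
        _ ≤ P.x := by rw [mul_one]; exact hg.g1 y
    have h5 : 0 ≤ P.X 20042 * A.lam w y := mul_nonneg (P.X_pos _).le (A.lam_nonneg _ _)
    have h6 : P.x * (P.X 20042 * A.lam w y) = P.X 20043 * A.lam w y := by
      rw [← mul_assoc, ← P.X_one, P.X_mul]; norm_num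
    calc s.R y * (s.bl v y * s.aa w y) ≤ _ := h3
      _ = P.sS t * (s.R y * s.bl v y) + (s.R y * s.bl v y) * (P.X 20042 * A.lam w y) := by ring
      _ ≤ P.sS t * (s.R y * s.bl v y) + P.x * (P.X 20042 * A.lam w y) := by gcongr
      _ = _ := by rw [h6]
  calc av (fun y => s.R y * (s.bl v y * s.aa w y))
      ≤ av (fun y => P.sS t * (s.R y * s.bl v y) + P.X 20043 * A.lam w y) := av_mono h1
    _ = P.sS t * av (fun y => s.R y * s.bl v y) + P.X 20043 * av (fun y => A.lam w y) := by
        rw [av_add, av_mul_left, av_mul_left]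
    _ ≤ P.sS t * (P.y0 / P.r) + P.X 20043 * P.X (-39999) :=
        add_le_add (mul_le_mul_of_nonneg_left (St.pt_bl2 hi hg hv) (P.pt_sS_nonneg t))
          (mul_le_mul_of_nonneg_left ((A.pt_avlam w).trans P.pt_eps_sq_le) (P.X_pos _).le)
    _ ≤ P.sS t * P.y0 / P.r + P.X (-19956) := by
        rw [P.X_mul, mul_div_assoc]
        norm_num

theorem av_aa_aa (hi : s.Inv A t) (hg : s.Good A) (ht : t ≤ P.T) {v w : V} (hv : v ∉ s.F)
    (hw : w ∉ s.F) : av (fun y => s.R y * (s.aa v y * s.aa w y)) ≤ P.X (-19767) :=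
  St.pt_aa_mul hi hg ht hv hw

private theorem R07_pair (hi : s.Inv A t) (hg : s.Good A) (ht : t ≤ P.T) {v w : V} (hv : v ∉ s.F)
    (hw : w ∉ s.F) : av (fun y => s.R y * (s.bl v y * s.aa w y + s.aa v y * s.bl w y
      + s.aa v y * s.aa w y)) ≤ 2 * (P.sS t * P.y0 / P.r) + (P.X (-19767) + 2 * P.X (-19956)) := by
  have h1 := av_ba hi hg ht hv w
  have h2 := av_ba hi hg ht hw v
  have h3 := av_aa_aa hi hg ht hv hw
  have h4 : av (fun y => s.R y * (s.bl v y * s.aa w y + s.aa v y * s.bl w y
      + s.aa v y * s.aa w y)) = av (fun y => s.R y * (s.bl v y * s.aa w y))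
      + av (fun y => s.R y * (s.bl w y * s.aa v y)) + av (fun y => s.R y * (s.aa v y * s.aa w y)) := by
    rw [← av_add, ← av_add]
    exact av_congr fun y => by ring
  rw [h4]
  linarith

private theorem R07_num (P : Par) : P.X (-19992) + (P.X (-19767) + 2 * P.X (-19956))
    ≤ P.X (-19766) := by
  have h5 : P.X (-19956) ≤ P.X (-19767) := P.X_le (by norm_num)
  have h7 : P.X (-19992) ≤ P.X (-19767) := P.X_le (by norm_num)
  have h6 : 4 * P.X (-19767) ≤ P.X (-19766) :=
    P.mul_X_le (by linarith [P.pt_thousand_le]) (by norm_num)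
  linarith

/-- (ii) upper bound for `|DD|` -/
theorem DD_abs (hi : s.Inv A t) (hg : s.Good A) (ht : t ≤ P.T) {v w : V} (hv : v ∉ s.F)
    (hw : w ∉ s.F) (hvw : v ≠ w) :
    |s.DD v w| ≤ 2 * (P.sS t * P.y0 / P.r) + P.X (-19766) + P.X 10005 * A.lam v w := by
  have h1 : |s.DD v w| ≤ av (fun y => s.R y * (s.bl v y * s.bl w y))
      + av (fun y => s.R y * (s.bl v y * s.aa w y + s.aa v y * s.bl w y + s.aa v y * s.aa w y)) := by
    rw [← av_add]
    refine (abs_av_le _).trans (av_mono fun y => ?_)
    rw [abs_mul, abs_mul, abs_of_nonneg (hi.Rn y), abs_al, abs_al]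
    apply le_of_eq
    ring
  have h2 := av_bb hi hg hv hw hvw
  have h3 := R07_pair hi hg ht hv hw
  have h4 := R07_num P
  linarith

/-- (ii) lower bound for `DD` -/
theorem DD_low (hi : s.Inv A t) (hg : s.Good A) (ht : t ≤ P.T) {v w : V} (hv : v ∉ s.F)
    (hw : w ∉ s.F) : -(2 * (P.sS t * P.y0 / P.r) + P.X (-19766)) ≤ s.DD v w := by
  have h1 : - av (fun y => s.R y * (s.bl v y * s.aa w y + s.aa v y * s.bl w y
      + s.aa v y * s.aa w y)) ≤ s.DD v w := by
    rw [neg_le_iff_add_nonneg]
    unfold St.DD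
    rw [← av_add]
    refine av_nonneg fun y => ?_
    have hR := hi.Rn y
    have key : 0 ≤ s.al v y * s.al w y + (s.bl v y * s.aa w y + s.aa v y * s.bl w y
        + s.aa v y * s.aa w y) := by
      have a1 := s.pt_aa_nonneg v y
      have a2 := s.pt_aa_nonneg w y
      have b1 := s.pt_bl_nonneg v y
      have b2 := s.pt_bl_nonneg w y
      by_cases hp : s.rho v y = 0
      · by_cases hq : s.rho w y = 0
        · have e1 : s.al v y = 1 := by unfold St.al; rw [hp]; norm_num
          have e2 : s.al w y = 1 := by unfold St.al; rw [hq]; norm_num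
          rw [e1, e2]
          positivity
        · have e1 : s.al v y = 1 := by unfold St.al; rw [hp]; norm_num
          have e3 : s.bl v y = 1 := ind_pos hp
          have e4 : |s.al w y| = s.aa w y := by
            rw [abs_al]
            have : s.bl w y = 0 := ind_neg hq
            rw [this, zero_add]
          have e5 := neg_abs_le (s.al w y)
          rw [e1, e3]
          nlinarith [mul_nonneg a1 b2, mul_nonneg a1 a2]
      · by_cases hq : s.rho w y = 0
        · have e1 : s.al w y = 1 := by unfold St.al; rw [hq]; norm_num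
          have e3 : s.bl w y = 1 := ind_pos hq
          have e4 : |s.al v y| = s.aa v y := by
            rw [abs_al]
            have : s.bl v y = 0 := ind_neg hp
            rw [this, zero_add]
          have e5 := neg_abs_le (s.al v y)
          rw [e1, e3]
          nlinarith [mul_nonneg b1 a2, mul_nonneg a1 a2]
        · have e3 : |s.al w y| = s.aa w y := by
            rw [abs_al]
            have : s.bl w y = 0 := ind_neg hq
            rw [this, zero_add]
          have e4 : |s.al v y| = s.aa v y := by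
            rw [abs_al]
            have : s.bl v y = 0 := ind_neg hp
            rw [this, zero_add]
          have e5 := neg_abs_le (s.al v y * s.al w y)
          rw [abs_mul, e3, e4] at e5
          nlinarith [mul_nonneg b1 a2, mul_nonneg a1 b2]
    have h3 := mul_nonneg hR key
    calc (0 : ℝ) ≤ _ := h3
      _ = _ := by ring
  have h3 := R07_pair hi hg ht hv hw
  have h4 := R07_num P
  have h5 := P.X_pos (-19992)
  linarith

theorem DD_sym (v w : V) : s.DD v w = s.DD w v := by
  unfold St.DD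
  exact av_congr fun y => by ring

theorem DD_diag (hi : s.Inv A t) (hg : s.Good A) (ht : t ≤ P.T) {v : V} (hv : v ∉ s.F) :
    |s.DD v v| ≤ P.X (-9995) := by
  have h1 : s.DD v v ≤ P.X (-9995) := by
    unfold St.DD
    calc av (fun y => s.R y * s.al v y * s.al v y) ≤ av (fun y => P.x * s.al v y ^ 2) := by
          refine av_mono fun y => ?_
          calc s.R y * s.al v y * s.al v y = s.R y * s.al v y ^ 2 := by ring
            _ ≤ P.x * s.al v y ^ 2 := mul_le_mul_of_nonneg_right (hg.g1 y) (sq_nonneg _)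
      _ = P.x * av (fun y => s.al v y ^ 2) := av_mul_left _ _
      _ ≤ P.x * P.X (-9996) := mul_le_mul_of_nonneg_left (av_al_sq hi hg ht hv) P.hx0.le
      _ = P.X (-9995) := by rw [← P.X_one, P.X_mul]; norm_num
  have h2 : 0 ≤ s.DD v v := by
    unfold St.DD
    refine av_nonneg fun y => ?_
    calc (0 : ℝ) ≤ s.R y * s.al v y ^ 2 := mul_nonneg (hi.Rn y) (sq_nonneg _)
      _ = s.R y * s.al v y * s.al v y := by ring
  rw [abs_of_nonneg h2]
  exact h1

/-- (iii) rows of `DD` in `L2` -/
theorem DD_L2 (hi : s.Inv A t) (hg : s.Good A) (ht : t ≤ P.T) {v : V} (hv : v ∉ s.F) :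
    av (fun w => ind (w ∉ s.F) * s.DD v w ^ 2) ≤ P.X (-19887) ^ 2 := by
  have h1 := op_al hi hg ht (fun y => s.R y * s.al v y) (fun y hy => by
    show s.R y * s.al v y = 0
    rw [hi.RF y hy, zero_mul])
  have e1 : ∀ w, s.DD v w = av fun y => s.al w y * (s.R y * s.al v y) := fun w =>
    av_congr fun y => by ring
  calc av (fun w => ind (w ∉ s.F) * s.DD v w ^ 2)
      = av (fun w => ind (w ∉ s.F) * (av fun y => s.al w y * (s.R y * s.al v y)) ^ 2) :=
        av_congr fun w => by rw [e1]
    _ ≤ P.X (-14890) ^ 2 * av (fun y => (s.R y * s.al v y) ^ 2) := h1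
    _ ≤ P.X (-14890) ^ 2 * (P.X 2 * P.X (-9996)) := by
        refine mul_le_mul_of_nonneg_left ?_ (sq_nonneg _)
        calc av (fun y => (s.R y * s.al v y) ^ 2) ≤ av (fun y => P.X 2 * s.al v y ^ 2) := by
              refine av_mono fun y => ?_
              have h2 : s.R y ^ 2 ≤ P.X 2 := by
                have h3 : s.R y ^ 2 ≤ P.x ^ 2 := pow_le_pow_left₀ (hi.Rn y) (hg.g1 y) 2
                have h4 : P.x ^ 2 = P.X 2 := by
                  rw [← P.X_one, P.X_pow]; norm_num
                rw [← h4]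
                exact h3
              calc (s.R y * s.al v y) ^ 2 = s.R y ^ 2 * s.al v y ^ 2 := by ring
                _ ≤ P.X 2 * s.al v y ^ 2 := mul_le_mul_of_nonneg_right h2 (sq_nonneg _)
          _ = P.X 2 * av (fun y => s.al v y ^ 2) := av_mul_left _ _
          _ ≤ P.X 2 * P.X (-9996) :=
              mul_le_mul_of_nonneg_left (av_al_sq hi hg ht hv) (P.X_pos _).le
    _ = P.X (-19887) ^ 2 := by
        rw [P.X_mul, P.X_pow, P.X_mul, P.X_pow]
        norm_num

/-- operator norm of `DD` -/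
theorem DD_op (hi : s.Inv A t) (hg : s.Good A) (ht : t ≤ P.T) :
    OpLe s.F s.DD (P.X (-29779)) := by
  have h1 := op_sandwich (P.X_pos _).le P.hx0.le (op_al hi hg ht) hi.Rn hg.g1 hi.RF
  have e : P.x * P.X (-14890) ^ 2 = P.X (-29779) := by
    rw [← P.X_one, P.X_pow, P.X_mul]
    norm_num
  rw [e] at h1
  exact h1

theorem gg_abs (hi : s.Inv A t) (hg : s.Good A) (ht : t ≤ P.T) {κ : V → V → V → ℝ}
    (hκ : KOK A κ) {v w : V} (hvw : v ≠ w) : |s.gg κ v w| ≤ P.X (-19953) :=
  St.pt_gg hi hg ht hκ hvw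

end MP5cA
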