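import Pool.Agent.Lib.MP_5c685b_co.A.R07

/-!
# Route A', row R08: the invariants `cR`, `cr`, `i1`, `i2`, `i3` (text, section 4)
-/

set_option autoImplicit false
set_option linter.unusedVariables false
set_option linter.unusedSectionVars false

open Finset

namespace MP5cA

variable {V : Type} [Fintype V] [DecidableEq V] {P : Par}

variable {A : Amb P V} {s : St V} {t : ℕ} {κ : V → V → V → ℝ}

/-! auxiliary facts -/

private theorem R08_x_ge (P : Par) : (100 : ℝ) ≤ P.x := by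
  have := P.two_pow_le (k := 7) (by norm_num)
  norm_num at this
  linarith

private theorem R08_y0 (P : Par) : 0 < P.y0 ∧ P.y0 ≤ P.X 1 := by
  constructor
  · have := P.Lam_pos
    unfold Par.y0
    linarith
  · have h := P.absorb (c := 11) (k := 4) (j := 1) (by norm_num) (by norm_num) (by norm_num)
    rw [pow_one] at h
    rw [P.X_one]
    unfold Par.y0
    linarith [P.hLam]

private theorem R08_Kp (P : Par) : 0 < P.Kp := by
  have := P.Lam_pos
  unfold Par.Kp
  linarith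

private theorem R08_r (P : Par) : 0 < (P.r : ℝ) := by
  rw [P.r_eq]
  exact P.X_pos _

private theorem R08_notF (hi : s.Inv A t) {x : V} (hx : 0 < s.R x) : x ∉ s.F := by
  intro h
  rw [hi.RF x h] at hx
  exact lt_irrefl _ hx

private theorem R08_cnt (hi : s.Inv A t) {x : V} (hx : 0 < s.R x) (v : V) :
    (s.take P κ x).cnt A v = s.cnt A v + ind (A.Strong x v) := by
  unfold St.cnt
  change ∑ u ∈ insert x s.F, ind (A.Strong u v) = _
  rw [Finset.sum_insert (R08_notF hi hx)]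
  ring

private theorem R08_k (hκ : KOK A κ) (x v w : V) :
    κ x v w = 0 ∨ (A.TT x v w ∧ κ x v w ≤ Real.exp P.Kp) ∨ κ x v w = 1 := by
  by_cases h1 : A.H x v w ∨ ¬ Amb.D3 x v w
  · exact Or.inl (hκ.kH x v w h1)
  · have h2 : Amb.D3 x v w := by
      by_contra h
      exact h1 (Or.inr h)
    have h3 : ¬ A.H x v w := fun h => h1 (Or.inl h)
    by_cases h4 : A.TT x v w
    · exact Or.inr (Or.inl ⟨h4, hκ.ku x v w h4⟩)
    · exact Or.inr (Or.inr (hκ.k1 x v w h2 h3 h4))

private theorem R08_take_aa (hκ : KOK A κ) (x v w : V) (h : ¬ A.Strong v w) :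
    (s.take P κ x).aa v w ≤ s.aa v w := by
  have hr : (s.take P κ x).rho v w = s.rho v w * κ x v w := rfl
  rcases R08_k hκ x v w with h0 | ⟨hT, -⟩ | h1
  · have h2 : (s.take P κ x).aa v w = 0 := by
      unfold St.aa
      rw [hr, h0, mul_zero, ind_neg (by simp), mul_zero]
    rw [h2]
    exact aa_nonneg v w
  · exact absurd (A.strong_of_TT hT).2.2 h
  · have h2 : (s.take P κ x).aa v w = s.aa v w := by
      unfold St.aa
      rw [hr, h1, mul_one]
    rw [h2]

private theorem R08_rhs (P : Par) (t : ℕ) {l : ℝ} (hl : 0 ≤ l) :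
    P.sS t + P.zeta * t * P.X 10006 * l ≤ P.sS (t + 1) + P.zeta * (t + 1 : ℕ) * P.X 10006 * l := by
  have h1 := P.sS_mono (Nat.le_succ t)
  have h2 : P.zeta * t * P.X 10006 * l ≤ P.zeta * (t + 1 : ℕ) * P.X 10006 * l := by
    have hz := P.zeta_pos.le
    have hX := (P.X_pos 10006).le
    have ht : (t : ℝ) ≤ ((t + 1 : ℕ) : ℝ) := by exact_mod_cast Nat.le_succ t
    gcongr
  linarith

private theorem R08_sq (P : Par) (t : ℕ) :
    (P.zeta * t * P.X (-19886)) ^ 2 ≤ (P.zeta * (t + 1 : ℕ) * P.X (-19886)) ^ 2 := by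
  have hz := P.zeta_pos.le
  have hX := (P.X_pos (-19886)).le
  have ht : (t : ℝ) ≤ ((t + 1 : ℕ) : ℝ) := by exact_mod_cast Nat.le_succ t
  exact pow_le_pow_left₀ (mul_nonneg (mul_nonneg hz (Nat.cast_nonneg t)) hX)
    (mul_le_mul_of_nonneg_right (mul_le_mul_of_nonneg_left ht hz) hX) 2

/-- the size of `2 sS y0 / r` -/
private theorem R08_sSy (P : Par) {t : ℕ} (ht : t ≤ P.T) :
    0 ≤ P.sS t * P.y0 / P.r ∧ P.sS t * P.y0 / P.r ≤ P.X (-19597) := by
  have h0 := P.sS_nonneg t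
  have h1 := P.sS_le ht
  obtain ⟨h2, h3⟩ := R08_y0 P
  have h4 := R08_r P
  refine ⟨by positivity, ?_⟩
  rw [P.r_eq]
  have h5 : P.sS t * P.y0 ≤ P.X (-9598) * P.X 1 := by
    have := (P.X_pos (-9598)).le
    gcongr
  calc P.sS t * P.y0 / P.X 10000 ≤ P.X (-9598) * P.X 1 / P.X 10000 :=
        div_le_div_of_nonneg_right h5 (P.X_pos _).le
    _ = P.X (-19597) := by
        rw [P.X_mul, P.X_div]
        norm_num

/-- the increment `q` of an empty slot for unblocked pairs -/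
private theorem R08_q (hi : s.Inv A t) (hg : s.Good A) (ht : t < P.T) (hκ : KOK A κ) {v w : V}
    (hv : v ∉ s.F) (hw : w ∉ s.F) (hvw : v ≠ w) :
    ∃ q : ℝ, (s.skip P κ).rho v w = s.rho v w * (1 + q) ∧ q ≤ P.zeta / P.r ∧
      |q| ≤ P.zeta * (|s.DD v w| + P.X (-19953) + P.X (-90000)) ∧ |q| ≤ P.zeta * P.X 5 := by
  obtain ⟨q, hq1, hq2, hq3⟩ := (sml hi hg ht.le hκ).skip_rho v w
  have hz := P.zeta_pos
  have hgg := gg_abs hi hg ht.le hκ hvw
  have hDl := DD_low hi hg ht.le hv hw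
  obtain ⟨hy0, hy1⟩ := R08_sSy P ht.le
  refine ⟨q, hq1, ?_, ?_, hq3⟩
  · have h1 : q ≤ P.zeta * (s.gg κ v w - s.DD v w) + P.zeta * P.X (-90000) := by
      have := (abs_le.1 hq2).2
      linarith
    have h2 : s.gg κ v w - s.DD v w + P.X (-90000) ≤ P.X (-10000) := by
      have e1 := le_of_abs_le hgg
      have e2 : P.X (-19953) ≤ P.X (-19597) := P.X_le (by norm_num)
      have e3 : P.X (-19766) ≤ P.X (-19597) := P.X_le (by norm_num)
      have e4 : P.X (-90000) ≤ P.X (-19597) := P.X_le (by norm_num)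
      have e5 : 5 * P.X (-19597) ≤ P.X (-10000) :=
        P.mul_X_le (by linarith [R08_x_ge P]) (by norm_num)
      linarith
    rw [P.r_eq, div_eq_mul_inv, P.X_inv]
    calc q ≤ P.zeta * (s.gg κ v w - s.DD v w) + P.zeta * P.X (-90000) := h1
      _ = P.zeta * (s.gg κ v w - s.DD v w + P.X (-90000)) := by ring
      _ ≤ P.zeta * P.X (-10000) := mul_le_mul_of_nonneg_left h2 hz.le
  · have h1 : |q| ≤ |q - P.zeta * (s.gg κ v w - s.DD v w)| + |P.zeta * (s.gg κ v w - s.DD v w)| := by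
      have := abs_add_le (q - P.zeta * (s.gg κ v w - s.DD v w)) (P.zeta * (s.gg κ v w - s.DD v w))
      rwa [sub_add_cancel] at this
    have h2 : |P.zeta * (s.gg κ v w - s.DD v w)| ≤ P.zeta * (|s.gg κ v w| + |s.DD v w|) := by
      rw [abs_mul, abs_of_pos hz]
      exact mul_le_mul_of_nonneg_left (abs_sub _ _) hz.le
    have h3 : P.zeta * |s.gg κ v w| ≤ P.zeta * P.X (-19953) :=
      mul_le_mul_of_nonneg_left hgg hz.le
    nlinarith

/-- for pairs which are not strong -/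
private theorem R08_skip_aa (hi : s.Inv A t) (hg : s.Good A) (ht : t < P.T) (hκ : KOK A κ) {v w : V}
    (h : ¬ A.Strong v w) : (s.skip P κ).aa v w ≤ s.aa v w + 101 / 100 * (P.zeta *
      (ind (v ∉ s.F ∧ w ∉ s.F ∧ v ≠ w) * (|s.DD v w| + P.X (-19953) + P.X (-90000)))) := by
  have hz := P.zeta_pos
  have hX1 := P.X_pos (-19953)
  have hX2 := P.X_pos (-90000)
  by_cases h0 : s.rho v w = 0
  · have h1 : (s.skip P κ).rho v w = 0 := by
      change s.rho v w * ((1 - P.zeta * s.m2 κ v w) * (1 - P.zeta * s.m0))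
        / ((1 - P.zeta * s.m1 v) * (1 - P.zeta * s.m1 w)) = 0
      rw [h0, zero_mul, zero_div]
    have h2 : (s.skip P κ).aa v w = 0 := by
      unfold St.aa
      rw [h1, ind_neg (by simp), mul_zero]
    rw [h2]
    have h3 : 0 ≤ s.aa v w := aa_nonneg v w
    have h4 := ind_nonneg (v ∉ s.F ∧ w ∉ s.F ∧ v ≠ w)
    exact add_nonneg h3 (mul_nonneg (by norm_num) (mul_nonneg hz.le (mul_nonneg h4
      (add_nonneg (add_nonneg (abs_nonneg _) hX1.le) hX2.le))))
  · have hv : v ∉ s.F := fun hv => h0 (hi.rF v hv w)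
    have hw : w ∉ s.F := fun hw => h0 (by rw [hi.sym]; exact hi.rF w hw v)
    have hvw : v ≠ w := fun e => h0 (by rw [e]; exact hi.rd w)
    obtain ⟨q, hq1, -, hq2, -⟩ := R08_q hi hg ht hκ hv hw hvw
    have h1 : s.aa v w = |1 - s.rho v w| := by
      unfold St.aa
      rw [ind_pos h0, mul_one]
    have h2 : (s.skip P κ).aa v w ≤ |1 - (s.skip P κ).rho v w| := by
      unfold St.aa
      calc _ ≤ |1 - (s.skip P κ).rho v w| * 1 :=
            mul_le_mul_of_nonneg_left (ind_le_one _) (abs_nonneg _)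
        _ = _ := mul_one _
    have h3 : s.rho v w ≤ 101 / 100 := by
      have e1 := aa_ns hi ht.le h
      rw [h1] at e1
      have e2 : 100 * P.X (-33) ≤ P.X 0 := P.mul_X_le (R08_x_ge P) (by norm_num)
      rw [P.X_zero] at e2
      have e3 := (abs_le.1 e1).1
      linarith
    have h4 : |1 - (s.skip P κ).rho v w| ≤ |1 - s.rho v w| + s.rho v w * |q| := by
      rw [hq1]
      have e1 : 1 - s.rho v w * (1 + q) = (1 - s.rho v w) - s.rho v w * q := by ring
      rw [e1]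
      calc _ ≤ |1 - s.rho v w| + |s.rho v w * q| := abs_sub _ _
        _ = _ := by rw [abs_mul, abs_of_nonneg (hi.nn v w)]
    rw [ind_pos ⟨hv, hw, hvw⟩, one_mul, h1]
    have h5 : s.rho v w * |q| ≤ 101 / 100 * (P.zeta * (|s.DD v w| + P.X (-19953) + P.X (-90000))) :=
      mul_le_mul h3 hq2 (abs_nonneg _) (by norm_num)
    linarith

/-! taking `x` -/

theorem take_cR (hi : s.Inv A t) (hg : s.Good A) (ht : t < P.T) (hκ : KOK A κ) {x : V}
    (hx : 0 < s.R x) (v : V) : (s.take P κ x).R v ≤ P.X 3 := by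
  have h1 : s.R v ≤ P.X 1 := by
    rw [P.X_one]
    exact hg.g1 v
  have h2 := rho_le hi hg ht.le x v
  change s.R v * s.rho x v ≤ P.X 3
  calc s.R v * s.rho x v ≤ P.X 1 * P.X 1 := mul_le_mul h1 h2 (hi.nn x v) (P.X_pos 1).le
    _ = P.X 2 := by rw [P.X_mul]; norm_num
    _ ≤ P.X 3 := P.X_le (by norm_num)

theorem take_cr (hi : s.Inv A t) (hg : s.Good A) (ht : t < P.T) (hκ : KOK A κ) {x : V}
    (hx : 0 < s.R x) (v w : V) : (s.take P κ x).rho v w ≤ P.X 3 := by
  have h1 := rho_le hi hg ht.le v w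
  obtain ⟨h2, h3⟩ := A.kok_bounds hκ x v w
  change s.rho v w * κ x v w ≤ P.X 3
  calc s.rho v w * κ x v w ≤ P.X 1 * P.X 1 := mul_le_mul h1 h3 h2 (P.X_pos 1).le
    _ = P.X 2 := by rw [P.X_mul]; norm_num
    _ ≤ P.X 3 := P.X_le (by norm_num)

theorem take_i1 (hi : s.Inv A t) (hg : s.Good A) (ht : t < P.T) (hκ : KOK A κ) {x : V}
    (hx : 0 < s.R x) (v w : V) (h : A.Strong v w) :
    (s.take P κ x).rho v w
      ≤ Real.exp (P.Kp * (s.take P κ x).cnt A v + P.zeta * (t + 1 : ℕ) / P.r) := by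
  have hr : (s.take P κ x).rho v w = s.rho v w * κ x v w := rfl
  have hK := R08_Kp P
  have hz := P.zeta_pos
  have hrr := R08_r P
  have ht' : P.zeta * t / P.r ≤ P.zeta * (t + 1 : ℕ) / P.r := by
    have : (t : ℝ) ≤ ((t + 1 : ℕ) : ℝ) := by exact_mod_cast Nat.le_succ t
    gcongr
  have h1 := hi.i1 v w h
  rw [R08_cnt hi hx v, hr]
  rcases R08_k hκ x v w with h0 | ⟨hT, hk⟩ | h2
  · rw [h0, mul_zero]
    exact (Real.exp_pos _).le
  · have hS := (A.strong_of_TT hT).1
    rw [ind_pos hS]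
    calc s.rho v w * κ x v w
        ≤ Real.exp (P.Kp * s.cnt A v + P.zeta * t / P.r) * Real.exp P.Kp :=
          mul_le_mul h1 hk (A.kok_bounds hκ x v w).1 (Real.exp_pos _).le
      _ = Real.exp (P.Kp * (s.cnt A v + 1) + P.zeta * t / P.r) := by
          rw [← Real.exp_add]
          ring_nf
      _ ≤ _ := Real.exp_le_exp.2 (by linarith)
  · rw [h2, mul_one]
    refine h1.trans (Real.exp_le_exp.2 ?_)
    have := mul_nonneg hK.le (ind_nonneg (A.Strong x v))
    rw [mul_add]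
    linarith

theorem take_i2 (hi : s.Inv A t) (hg : s.Good A) (ht : t < P.T) (hκ : KOK A κ) {x : V}
    (hx : 0 < s.R x) (v w : V) (h : ¬ A.Strong v w) :
    (s.take P κ x).aa v w ≤ P.sS (t + 1) + P.zeta * (t + 1 : ℕ) * P.X 10006 * A.lam v w :=
  ((R08_take_aa hκ x v w h).trans (hi.i2 v w h)).trans (R08_rhs P t (A.lam_nonneg v w))

theorem take_i3 (hi : s.Inv A t) (hg : s.Good A) (ht : t < P.T) (hκ : KOK A κ) {x : V}
    (hx : 0 < s.R x) (v : V) (hv : v ∉ (s.take P κ x).F) :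
    av (fun w => ind (¬ A.Strong v w) * (s.take P κ x).aa v w ^ 2)
      ≤ (P.zeta * (t + 1 : ℕ) * P.X (-19886)) ^ 2 := by
  have hv' : v ∉ s.F := fun h => hv (Finset.mem_insert_of_mem h)
  refine ((av_mono fun w => ?_).trans (hi.i3 v hv')).trans (R08_sq P t)
  by_cases h : A.Strong v w
  · rw [ind_neg (not_not.2 h), zero_mul, zero_mul]
  · rw [ind_pos h, one_mul, one_mul]
    have h1 : 0 ≤ (s.take P κ x).aa v w := aa_nonneg v w
    have h2 := R08_take_aa (s := s) hκ x v w h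
    gcongr

/-! the empty slot -/

theorem skip_cR (hi : s.Inv A t) (hg : s.Good A) (ht : t < P.T) (hκ : KOK A κ) (v : V) :
    (s.skip P κ).R v ≤ P.X 3 := by
  obtain ⟨q, hq1, -, hq3⟩ := (sml hi hg ht.le hκ).skip_R v
  have h1 : s.R v ≤ P.X 1 := by
    rw [P.X_one]
    exact hg.g1 v
  have h2 : q ≤ 1 := by
    refine (le_of_abs_le hq3).trans ?_
    rw [Par.zeta, P.X_mul]
    exact P.X_le_one (by norm_num)
  rw [hq1]
  calc s.R v * (1 + q) ≤ s.R v * 2 := mul_le_mul_of_nonneg_left (by linarith) (hi.Rn v)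
    _ ≤ P.X 1 * 2 := mul_le_mul_of_nonneg_right h1 (by norm_num)
    _ = 2 * P.X 1 := mul_comm _ _
    _ ≤ P.X 3 := P.mul_X_le (by linarith [R08_x_ge P]) (by norm_num)

theorem skip_cr (hi : s.Inv A t) (hg : s.Good A) (ht : t < P.T) (hκ : KOK A κ) (v w : V) :
    (s.skip P κ).rho v w ≤ P.X 3 := by
  obtain ⟨q, hq1, -, hq3⟩ := (sml hi hg ht.le hκ).skip_rho v w
  have h1 := rho_le hi hg ht.le v w
  have h2 : q ≤ 1 := by
    refine (le_of_abs_le hq3).trans ?_
    rw [Par.zeta, P.X_mul]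
    exact P.X_le_one (by norm_num)
  rw [hq1]
  calc s.rho v w * (1 + q) ≤ s.rho v w * 2 := mul_le_mul_of_nonneg_left (by linarith) (hi.nn v w)
    _ ≤ P.X 1 * 2 := mul_le_mul_of_nonneg_right h1 (by norm_num)
    _ = 2 * P.X 1 := mul_comm _ _
    _ ≤ P.X 3 := P.mul_X_le (by linarith [R08_x_ge P]) (by norm_num)

theorem skip_i1 (hi : s.Inv A t) (hg : s.Good A) (ht : t < P.T) (hκ : KOK A κ) (v w : V)
    (h : A.Strong v w) :
    (s.skip P κ).rho v w
      ≤ Real.exp (P.Kp * (s.skip P κ).cnt A v + P.zeta * (t + 1 : ℕ) / P.r) := by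
  have hc : (s.skip P κ).cnt A v = s.cnt A v := rfl
  by_cases h0 : s.rho v w = 0
  · have h1 : (s.skip P κ).rho v w = 0 := by
      change s.rho v w * ((1 - P.zeta * s.m2 κ v w) * (1 - P.zeta * s.m0))
        / ((1 - P.zeta * s.m1 v) * (1 - P.zeta * s.m1 w)) = 0
      rw [h0, zero_mul, zero_div]
    rw [h1]
    exact (Real.exp_pos _).le
  · have hv : v ∉ s.F := fun hv => h0 (hi.rF v hv w)
    have hw : w ∉ s.F := fun hw => h0 (by rw [hi.sym]; exact hi.rF w hw v)
    have hvw : v ≠ w := fun e => h0 (by rw [e]; exact hi.rd w)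
    obtain ⟨q, hq1, hq2, -, -⟩ := R08_q hi hg ht hκ hv hw hvw
    rw [hq1, hc]
    have h1 : 1 + q ≤ Real.exp (P.zeta / P.r) := by
      have := Real.add_one_le_exp (P.zeta / P.r)
      linarith
    calc s.rho v w * (1 + q) ≤ s.rho v w * Real.exp (P.zeta / P.r) :=
          mul_le_mul_of_nonneg_left h1 (hi.nn v w)
      _ ≤ Real.exp (P.Kp * s.cnt A v + P.zeta * t / P.r) * Real.exp (P.zeta / P.r) :=
          mul_le_mul_of_nonneg_right (hi.i1 v w h) (Real.exp_pos _).le
      _ = Real.exp (P.Kp * s.cnt A v + P.zeta * (t + 1 : ℕ) / P.r) := by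
          rw [← Real.exp_add]
          congr 1
          push_cast
          ring

theorem skip_i2 (hi : s.Inv A t) (hg : s.Good A) (ht : t < P.T) (hκ : KOK A κ) (v w : V)
    (h : ¬ A.Strong v w) :
    (s.skip P κ).aa v w ≤ P.sS (t + 1) + P.zeta * (t + 1 : ℕ) * P.X 10006 * A.lam v w := by
  have hz := P.zeta_pos
  have hl := A.lam_nonneg v w
  have h1 := R08_skip_aa hi hg ht hκ h
  have h2 := hi.i2 v w h
  obtain ⟨hy0, hy1⟩ := R08_sSy P ht.le
  by_cases hF : v ∉ s.F ∧ w ∉ s.F ∧ v ≠ w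
  · rw [ind_pos hF, one_mul] at h1
    have h3 := DD_abs hi hg ht.le hF.1 hF.2.1 hF.2.2
    have h4 : 101 / 100 * (|s.DD v w| + P.X (-19953) + P.X (-90000))
        ≤ 22 / 10 * (P.sS t * P.y0 / P.r) + P.X (-19600) + P.X 10006 * A.lam v w := by
      have e2 : P.X (-19953) ≤ P.X (-19766) := P.X_le (by norm_num)
      have e4 : P.X (-90000) ≤ P.X (-19766) := P.X_le (by norm_num)
      have e5 : 5 * P.X (-19766) ≤ P.X (-19600) :=
        P.mul_X_le (by linarith [R08_x_ge P]) (by norm_num)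
      have e6 : 101 / 100 * (P.X 10005 * A.lam v w) ≤ P.X 10006 * A.lam v w := by
        have e7 : 101 / 100 * P.X 10005 ≤ P.X 10006 :=
          P.mul_X_le (by linarith [R08_x_ge P]) (by norm_num)
        calc _ = (101 / 100 * P.X 10005) * A.lam v w := by ring
          _ ≤ _ := mul_le_mul_of_nonneg_right e7 hl
      have e8 := P.X_pos (-19766)
      linarith
    have h5 : 101 / 100 * (P.zeta * (|s.DD v w| + P.X (-19953) + P.X (-90000)))
        ≤ P.zeta * (22 / 10 * (P.sS t * P.y0 / P.r) + P.X (-19600) + P.X 10006 * A.lam v w) := by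
      calc _ = P.zeta * (101 / 100 * (|s.DD v w| + P.X (-19953) + P.X (-90000))) := by ring
        _ ≤ _ := mul_le_mul_of_nonneg_left h4 hz.le
    have h6 : P.sS (t + 1) + P.zeta * (t + 1 : ℕ) * P.X 10006 * A.lam v w
        = P.sS t + P.zeta * t * P.X 10006 * A.lam v w
          + P.zeta * (22 / 10 * (P.sS t * P.y0 / P.r) + P.X (-19600) + P.X 10006 * A.lam v w) := by
      simp only [Par.sS]
      push_cast
      ring
    rw [h6]
    linarith
  · rw [ind_neg hF, zero_mul, mul_zero, mul_zero, add_zero] at h1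
    exact (h1.trans h2).trans (R08_rhs P t hl)

theorem skip_i3 (hi : s.Inv A t) (hg : s.Good A) (ht : t < P.T) (hκ : KOK A κ) (v : V)
    (hv : v ∉ (s.skip P κ).F) :
    av (fun w => ind (¬ A.Strong v w) * (s.skip P κ).aa v w ^ 2)
      ≤ (P.zeta * (t + 1 : ℕ) * P.X (-19886)) ^ 2 := by
  have hv' : v ∉ s.F := hv
  have hz := P.zeta_pos
  have hX := P.X_pos (-19886)
  set c : ℝ := P.X (-19953) + P.X (-90000) with hc
  have hc0 : 0 ≤ c := by
    have := P.X_pos (-19953)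
    have := P.X_pos (-90000)
    linarith
  have hXL := P.X_pos (-19887)
  -- the two functions
  have hf : av (fun w => (ind (¬ A.Strong v w) * s.aa v w) ^ 2) ≤ (P.zeta * t * P.X (-19886)) ^ 2 := by
    refine le_trans (le_of_eq (av_congr fun w => ?_)) (hi.i3 v hv')
    rw [mul_pow, ind_sq]
  have hD : av (fun w => (ind (w ∉ s.F) * |s.DD v w|) ^ 2) ≤ P.X (-19887) ^ 2 := by
    refine le_trans (le_of_eq (av_congr fun w => ?_)) (DD_L2 hi hg ht.le hv')
    rw [mul_pow, ind_sq, sq_abs]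
  have hcc : av (fun _ : V => c ^ 2) ≤ c ^ 2 := av_le_const (sq_nonneg c) fun _ => le_rfl
  have hg' : av (fun w => (ind (w ∉ s.F) * |s.DD v w| + c) ^ 2) ≤ (P.X (-19887) + c) ^ 2 :=
    av_add_sq_le hXL.le hc0 hD hcc
  have hgg : av (fun w => (101 / 100 * P.zeta * (ind (w ∉ s.F) * |s.DD v w| + c)) ^ 2)
      ≤ (P.zeta * P.X (-19886)) ^ 2 := by
    calc av (fun w => (101 / 100 * P.zeta * (ind (w ∉ s.F) * |s.DD v w| + c)) ^ 2)
        = (101 / 100 * P.zeta) ^ 2 * av (fun w => (ind (w ∉ s.F) * |s.DD v w| + c) ^ 2) := by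
          rw [← av_mul_left]
          exact av_congr fun w => by rw [mul_pow]
      _ ≤ (101 / 100 * P.zeta) ^ 2 * (P.X (-19887) + c) ^ 2 :=
          mul_le_mul_of_nonneg_left hg' (by positivity)
      _ = (P.zeta * (101 / 100 * (P.X (-19887) + c))) ^ 2 := by ring
      _ ≤ (P.zeta * P.X (-19886)) ^ 2 := by
          have e1 : 101 / 100 * (P.X (-19887) + c) ≤ P.X (-19886) := by
            have e2 : P.X (-19953) ≤ P.X (-19887) := P.X_le (by norm_num)
            have e4 : P.X (-90000) ≤ P.X (-19887) := P.X_le (by norm_num)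
            have e5 : 5 * P.X (-19887) ≤ P.X (-19886) :=
              P.mul_X_le (by linarith [R08_x_ge P]) (by norm_num)
            rw [hc]
            linarith
          have e3 : 0 ≤ 101 / 100 * (P.X (-19887) + c) :=
            mul_nonneg (by norm_num) (add_nonneg hXL.le hc0)
          exact pow_le_pow_left₀ (mul_nonneg hz.le e3) (mul_le_mul_of_nonneg_left e1 hz.le) 2
  have hsum := av_add_sq_le (mul_nonneg (mul_nonneg hz.le (Nat.cast_nonneg t)) hX.le)
    (mul_nonneg hz.le hX.le) hf hgg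
  have hRHS : (P.zeta * t * P.X (-19886) + P.zeta * P.X (-19886)) ^ 2
      = (P.zeta * (t + 1 : ℕ) * P.X (-19886)) ^ 2 := by
    push_cast
    ring
  rw [← hRHS]
  refine le_trans (av_mono fun w => ?_) hsum
  by_cases h : A.Strong v w
  · rw [ind_neg (not_not.2 h), zero_mul]
    positivity
  · rw [ind_pos h, one_mul, one_mul]
    have h1 := R08_skip_aa hi hg ht hκ h
    have h2 : 0 ≤ (s.skip P κ).aa v w := aa_nonneg v w
    have h3 : ind (v ∉ s.F ∧ w ∉ s.F ∧ v ≠ w) * (|s.DD v w| + P.X (-19953) + P.X (-90000))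
        ≤ ind (w ∉ s.F) * |s.DD v w| + c := by
      have e1 : ind (v ∉ s.F ∧ w ∉ s.F ∧ v ≠ w) ≤ ind (w ∉ s.F) := ind_mono fun h => h.2.1
      have e2 := ind_le_one (v ∉ s.F ∧ w ∉ s.F ∧ v ≠ w)
      have e3 := abs_nonneg (s.DD v w)
      calc _ = ind (v ∉ s.F ∧ w ∉ s.F ∧ v ≠ w) * |s.DD v w|
            + ind (v ∉ s.F ∧ w ∉ s.F ∧ v ≠ w) * c := by rw [hc]; ring
        _ ≤ ind (w ∉ s.F) * |s.DD v w| + 1 * c :=
            add_le_add (mul_le_mul_of_nonneg_right e1 e3) (mul_le_mul_of_nonneg_right e2 hc0)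
        _ = _ := by rw [one_mul]
    have h4 : (s.skip P κ).aa v w
        ≤ s.aa v w + 101 / 100 * P.zeta * (ind (w ∉ s.F) * |s.DD v w| + c) := by
      refine h1.trans ?_
      have := mul_le_mul_of_nonneg_left h3 hz.le
      linarith
    gcongr

end MP5cA
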