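import Pool.Agent.Lib.MP_5c685b_co.A.R07

/-!
# Route A', row R09: the invariant `i4` (text, section 4, (iv))
-/

set_option autoImplicit false
set_option linter.unusedVariables false
set_option linter.unusedSectionVars false

open Finset

namespace MP5cA

variable {V : Type} [Fintype V] [DecidableEq V] {P : Par}

variable {A : Amb P V} {s : St V} {t : ℕ} {κ : V → V → V → ℝ}

theorem r09_n (A : Amb P V) : (Fintype.card V : ℝ) = P.X 200000 := by
  rw [A.hc]
  push_cast
  rw [P.r_eq, P.X_pow]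
  norm_num

theorem r09_ne (A : Amb P V) : Nonempty V := by
  have h := r09_n A
  have h1 := P.X_pos 200000
  rw [← h] at h1
  exact Fintype.card_pos_iff.1 (by exact_mod_cast h1)

theorem r09_c0 (P : Par) (k t : ℕ) :
    0 ≤ 2 / P.X 200000 + (k : ℝ) * P.zeta + P.zeta * t * P.X (-24892) :=
  add_nonneg (add_nonneg (div_nonneg (by norm_num) (P.X_pos _).le)
    (mul_nonneg (Nat.cast_nonneg _) P.zeta_pos.le))
    (mul_nonneg (mul_nonneg P.zeta_pos.le (Nat.cast_nonneg _)) (P.X_pos _).le)

/-- entries of `LL` -/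
theorem LL_abs (hi : s.Inv A t) (hg : s.Good A) (ht : t ≤ P.T) (hκ : KOK A κ) (x v w : V) :
    |s.LL κ x v w| ≤ P.X 2 * A.hh x v w := by
  unfold St.LL
  by_cases hd : Amb.D3 x v w
  · rw [ind_pos hd, mul_one, abs_mul, abs_of_nonneg (hi.nn v w)]
    calc s.rho v w * |1 - κ x v w| ≤ P.X 1 * (P.X 1 * A.hh x v w) :=
          mul_le_mul (rho_le hi hg ht v w) (A.be_le hκ hd) (abs_nonneg _) (P.X_pos 1).le
      _ = P.X 2 * A.hh x v w := by
          rw [← mul_assoc, P.X_mul]
          norm_num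
  · rw [ind_neg hd, mul_zero, abs_zero]
    exact mul_nonneg (P.X_pos 2).le (A.hh_nonneg x v w)

theorem LL_sym (hi : s.Inv A t) (hκ : KOK A κ) (x v w : V) : s.LL κ x v w = s.LL κ x w v := by
  unfold St.LL
  rw [hi.sym v w, hκ.s2 x v w, ind_congr (Amb.D3_swap' (u := x) (v := v) (w := w))]

theorem Lbar_sym (hi : s.Inv A t) (hκ : KOK A κ) (v w : V) :
    s.Lbar P κ v w = s.Lbar P κ w v := by
  unfold St.Lbar
  rw [av_congr fun x => by rw [LL_sym hi hκ x v w]]

theorem LL_op (hi : s.Inv A t) (hg : s.Good A) (ht : t ≤ P.T) (hκ : KOK A κ) (F : Finset V)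
    (x : V) : OpLe F (s.LL κ x) (P.X (-19955)) := by
  refine op_schur_sym (P.X_pos _).le (fun v w => by rw [LL_sym hi hκ x v w]) fun v hv => ?_
  calc av (fun w => ind (w ∉ F) * |s.LL κ x v w|) ≤ av (fun w => P.X 2 * A.hh x v w) := by
        refine av_mono fun w => ?_
        calc ind (w ∉ F) * |s.LL κ x v w| ≤ 1 * |s.LL κ x v w| :=
              mul_le_mul_of_nonneg_right (ind_le_one _) (abs_nonneg _)
          _ ≤ _ := by rw [one_mul]; exact LL_abs hi hg ht hκ x v w
    _ = P.X 2 * av (fun w => A.hh x v w) := av_mul_left _ _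
    _ ≤ P.X 2 * P.X (-19957) := mul_le_mul_of_nonneg_left (A.av_hh x v) (P.X_pos _).le
    _ = P.X (-19955) := by rw [P.X_mul]; norm_num

theorem r09_avR (hg : s.Good A) : av s.R ≤ P.X 1 := by
  refine av_le_const (P.X_pos 1).le fun v => ?_
  rw [P.X_one]
  exact hg.g1 v

theorem Lbar_op (hi : s.Inv A t) (hg : s.Good A) (ht : t ≤ P.T) (hκ : KOK A κ) (F : Finset V) :
    OpLe F (s.Lbar P κ) (P.zeta * P.X (-19954)) := by
  have h1 : OpLe F (fun v w => av fun x => s.R x * s.LL κ x v w) (av s.R * P.X (-19955)) :=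
    op_av (P.X_pos _).le (fun x _ => LL_op hi hg ht hκ F x) hi.Rn
  have h2 : OpLe F (fun v w => av fun x => s.R x * s.LL κ x v w) (P.X (-19954)) := by
    refine op_mono h1 (mul_nonneg (av_nonneg hi.Rn) (P.X_pos _).le) ?_
    calc av s.R * P.X (-19955) ≤ P.X 1 * P.X (-19955) :=
          mul_le_mul_of_nonneg_right (r09_avR hg) (P.X_pos _).le
      _ = P.X (-19954) := by rw [P.X_mul]; norm_num
  have h3 := op_smul h2 P.zeta
  rw [abs_of_pos P.zeta_pos] at h3
  exact h3

theorem r09_al_le (hi : s.Inv A t) (hg : s.Good A) (ht : t ≤ P.T) (v w : V) :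
    |s.al v w| ≤ P.X 1 := by
  unfold St.al
  have h1 := rho_le hi hg ht v w
  have h2 := hi.nn v w
  have h3 : 1 ≤ P.X 1 := P.one_le_X (by norm_num)
  rw [abs_le]
  constructor <;> linarith

/-- `Q1(v,w) = E_x |al_v(x)| hh(x,v,w)` -/
theorem Q1_op (hi : s.Inv A t) (hg : s.Good A) (ht : t ≤ P.T) :
    OpLe s.F (fun v w => av fun x => |s.al v x| * A.hh x v w) (P.X (-24898)) := by
  have hnn : ∀ v w, 0 ≤ av fun x => |s.al v x| * A.hh x v w := fun v w =>
    av_nonneg fun x => mul_nonneg (abs_nonneg _) (A.hh_nonneg _ _ _)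
  refine op_schur (a := P.X (-9883) * P.X (-19957)) (b := P.X 1 * P.X (-19957))
    (mul_nonneg (P.X_pos _).le (P.X_pos _).le) (mul_nonneg (P.X_pos _).le (P.X_pos _).le)
    (fun v hv => ?_) (fun w hw => ?_) (le_of_eq ?_)
  · calc av (fun w => ind (w ∉ s.F) * |av fun x => |s.al v x| * A.hh x v w|)
        ≤ av (fun w => av fun x => |s.al v x| * A.hh x v w) := by
          refine av_mono fun w => ?_
          rw [abs_of_nonneg (hnn v w)]
          calc _ ≤ 1 * av (fun x => |s.al v x| * A.hh x v w) :=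
                mul_le_mul_of_nonneg_right (ind_le_one _) (hnn v w)
            _ = _ := one_mul _
      _ = av (fun x => av fun w => |s.al v x| * A.hh x v w) := av_comm _
      _ = av (fun x => |s.al v x| * av fun w => A.hh x v w) := av_congr fun x => av_mul_left _ _
      _ ≤ av (fun x => |s.al v x| * P.X (-19957)) :=
          av_mono fun x => mul_le_mul_of_nonneg_left (A.av_hh x v) (abs_nonneg _)
      _ = av (fun x => |s.al v x|) * P.X (-19957) := av_mul_right _ _
      _ ≤ P.X (-9883) * P.X (-19957) :=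
          mul_le_mul_of_nonneg_right (av_abs_al hi hg ht hv) (P.X_pos _).le
  · calc av (fun v => ind (v ∉ s.F) * |av fun x => |s.al v x| * A.hh x v w|)
        ≤ av (fun v : V => P.X 1 * P.X (-19957)) := by
          refine av_mono fun v => ?_
          rw [abs_of_nonneg (hnn v w)]
          calc _ ≤ 1 * av (fun x => |s.al v x| * A.hh x v w) :=
                mul_le_mul_of_nonneg_right (ind_le_one _) (hnn v w)
            _ = av (fun x => |s.al v x| * A.hh x v w) := one_mul _
            _ ≤ av (fun x => P.X 1 * A.hh x v w) :=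
                av_mono fun x => mul_le_mul_of_nonneg_right (r09_al_le hi hg ht v x)
                  (A.hh_nonneg _ _ _)
            _ = P.X 1 * av (fun x => A.hh x v w) := av_mul_left _ _
            _ ≤ P.X 1 * P.X (-19957) :=
                mul_le_mul_of_nonneg_left (A.av_hh1 v w) (P.X_pos _).le
      _ ≤ P.X 1 * P.X (-19957) := av_le_const (mul_nonneg (P.X_pos _).le (P.X_pos _).le)
          fun _ => le_rfl
  · rw [P.X_pow, P.X_mul, P.X_mul, P.X_mul]
    norm_num

/-- `‖rho o G2‖`, where `G2(v,w) = E_x R(x) (1 - rho_v(x) rho_w(x)) (1 - κ) 1[distinct]` -/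
theorem G2_op (hi : s.Inv A t) (hg : s.Good A) (ht : t ≤ P.T) (hκ : KOK A κ) :
    OpLe s.F (fun v w => s.rho v w * av fun x => s.R x * ((1 - s.rho v x * s.rho w x) *
      ((1 - κ x v w) * ind (Amb.D3 x v w)))) (P.X (-24893)) := by
  have h1 := Q1_op hi hg ht
  have h2 := op_smul h1 (P.X 3)
  have h3 := op_smul (op_transpose (P.X_pos _).le h1) (P.X 4)
  rw [abs_of_pos (P.X_pos _)] at h2 h3
  have h4 := op_add h2 h3 (mul_nonneg (P.X_pos _).le (P.X_pos _).le)
    (mul_nonneg (P.X_pos _).le (P.X_pos _).le)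
  have h5 : OpLe s.F (fun v w => s.rho v w * av fun x => s.R x * ((1 - s.rho v x * s.rho w x) *
      ((1 - κ x v w) * ind (Amb.D3 x v w)))) (P.X 3 * P.X (-24898) + P.X 4 * P.X (-24898)) := by
    refine op_of_abs_le (fun v hv w hw => ?_) h4
    have hpt : ∀ x, |s.R x * ((1 - s.rho v x * s.rho w x) * ((1 - κ x v w) * ind (Amb.D3 x v w)))|
        ≤ P.X 2 * (|s.al v x| * A.hh x v w) + P.X 3 * (|s.al w x| * A.hh x w v) := by
      intro x
      have hR : |s.R x| ≤ P.X 1 := by
        rw [abs_of_nonneg (hi.Rn x), P.X_one]; exact hg.g1 x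
      have hk : |(1 - κ x v w) * ind (Amb.D3 x v w)| ≤ P.X 1 * A.hh x v w := by
        by_cases hd : Amb.D3 x v w
        · rw [ind_pos hd, mul_one]
          exact A.be_le hκ hd
        · rw [ind_neg hd, mul_zero, abs_zero]
          exact mul_nonneg (P.X_pos _).le (A.hh_nonneg _ _ _)
      have hr : |1 - s.rho v x * s.rho w x| ≤ |s.al v x| + P.X 1 * |s.al w x| := by
        have e : 1 - s.rho v x * s.rho w x = s.al v x + s.rho v x * s.al w x := by
          unfold St.al; ring
        rw [e]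
        refine (abs_add_le _ _).trans (add_le_add_right ?_ _)
        rw [abs_mul, abs_of_nonneg (hi.nn v x)]
        exact mul_le_mul_of_nonneg_right (rho_le hi hg ht v x) (abs_nonneg _)
      have hX2 : P.X 2 = P.X 1 * P.X 1 := by rw [P.X_mul]; norm_num
      have hX3 : P.X 3 = P.X 1 * (P.X 1 * P.X 1) := by rw [P.X_mul, P.X_mul]; norm_num
      rw [abs_mul, abs_mul]
      calc |s.R x| * (|1 - s.rho v x * s.rho w x| * |(1 - κ x v w) * ind (Amb.D3 x v w)|)
          ≤ P.X 1 * ((|s.al v x| + P.X 1 * |s.al w x|) * (P.X 1 * A.hh x v w)) := by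
            apply mul_le_mul hR _ (by positivity) (P.X_pos _).le
            exact mul_le_mul hr hk (abs_nonneg _)
              (add_nonneg (abs_nonneg _) (mul_nonneg (P.X_pos _).le (abs_nonneg _)))
        _ = P.X 2 * (|s.al v x| * A.hh x v w) + P.X 3 * (|s.al w x| * A.hh x w v) := by
            rw [A.hh_s2 x w v, hX2, hX3]; ring
    have hav : |av fun x => s.R x * ((1 - s.rho v x * s.rho w x) *
        ((1 - κ x v w) * ind (Amb.D3 x v w)))| ≤
        P.X 2 * av (fun x => |s.al v x| * A.hh x v w) + P.X 3 * av (fun x => |s.al w x| * A.hh x w v) := by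
      refine (abs_av_le _).trans ((av_mono hpt).trans (le_of_eq ?_))
      rw [av_add, av_mul_left, av_mul_left]
    rw [abs_mul, abs_of_nonneg (hi.nn v w)]
    have hX3 : P.X 3 = P.X 1 * P.X 2 := by rw [P.X_mul]; norm_num
    have hX4 : P.X 4 = P.X 1 * P.X 3 := by rw [P.X_mul]; norm_num
    calc s.rho v w * |av fun x => s.R x * ((1 - s.rho v x * s.rho w x) *
        ((1 - κ x v w) * ind (Amb.D3 x v w)))| ≤ P.X 1 * (P.X 2 * av (fun x => |s.al v x| * A.hh x v w) +
          P.X 3 * av (fun x => |s.al w x| * A.hh x w v)) :=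
          mul_le_mul (rho_le hi hg ht v w) hav (abs_nonneg _) (P.X_pos _).le
      _ = P.X 3 * av (fun x => |s.al v x| * A.hh x v w) +
          P.X 4 * av (fun x => |s.al w x| * A.hh x w v) := by
          rw [hX4, hX3]; ring
  refine op_mono h5 (add_nonneg (mul_nonneg (P.X_pos _).le (P.X_pos _).le)
    (mul_nonneg (P.X_pos _).le (P.X_pos _).le)) ?_
  rw [P.X_mul, P.X_mul]
  have h6 : P.X (3 + -24898) ≤ P.X (4 + -24898) := P.X_le (by norm_num)
  have h7 : 2 * P.X (4 + -24898) ≤ P.X (-24893) := P.mul_X_le (by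
    have := P.two_pow_le (k := 1) (by norm_num)
    linarith) (by norm_num)
  linarith

theorem r09_two : 2 ≤ P.x := by
  have := P.two_pow_le (k := 1) (by norm_num)
  linarith

theorem r09_eps_sq : P.X 10005 * (P.X 1 * P.eps ^ 2) ≤ P.X (-29992) := by
  unfold Par.eps
  have h := P.absorb (c := 1) (k := 0) (j := 2) (by norm_num) (by norm_num) (by norm_num)
  rw [one_mul] at h
  calc P.X 10005 * (P.X 1 * (P.Lam * P.X (-20000)) ^ 2)
      = P.Lam ^ 2 * P.X (-29994) := by
        rw [mul_pow, P.X_pow,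
          show P.X 10005 * (P.X 1 * (P.Lam ^ 2 * P.X (-20000 * (2:ℕ)))) =
            P.Lam ^ 2 * (P.X 10005 * (P.X 1 * P.X (-20000 * (2:ℕ)))) by ring, P.X_mul, P.X_mul]
        norm_num
    _ ≤ P.X (-29992) := P.mul_X_le h (by norm_num)

/-- `‖al o DD‖` -/
theorem alDD_op (hi : s.Inv A t) (hg : s.Good A) (ht : t ≤ P.T) :
    OpLe s.F (fun v w => s.al v w * s.DD v w) (P.X (-29470)) := by
  have hne : Nonempty V := r09_ne A
  have hals : ∀ v w, s.al v w = s.al w v := fun v w => by unfold St.al; rw [hi.sym v w]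
  refine op_schur_sym (P.X_pos _).le (fun v w => by rw [hals v w, DD_sym v w]) fun v hv => ?_
  obtain ⟨B, hB0, hB⟩ : ∃ B : ℝ, 0 ≤ B ∧ B = 2 * (P.sS t * P.y0 / P.r) + P.X (-19766) := by
    refine ⟨_, ?_, rfl⟩
    have h1 : 0 ≤ P.sS t := P.sS_nonneg t
    have h2 : 0 ≤ P.y0 := by unfold Par.y0; linarith [P.hLam]
    have h3 : (0:ℝ) ≤ P.r := Nat.cast_nonneg _
    have h4 := (P.X_pos (-19766)).le
    have h5 : 0 ≤ P.sS t * P.y0 / P.r := div_nonneg (mul_nonneg h1 h2) h3
    linarith
  have hBle : B ≤ P.X (-19595) := by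
    rw [hB]
    have h1 := P.sS_le ht
    have h2 : P.y0 ≤ P.X 1 := by
      unfold Par.y0
      rw [P.X_one]
      have h := P.absorb (c := 11) (k := 4) (j := 1) (by norm_num) (by norm_num) (by norm_num)
      rw [pow_one] at h
      linarith [P.hLam]
    have h3 : P.sS t * P.y0 / P.r ≤ P.X (-19597) := by
      rw [P.r_eq]
      calc P.sS t * P.y0 / P.X 10000 ≤ P.X (-9598) * P.X 1 / P.X 10000 := by
            apply div_le_div_of_nonneg_right _ (P.X_pos _).le
            exact mul_le_mul h1 h2 (by unfold Par.y0; linarith [P.hLam]) (P.X_pos _).le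
        _ = P.X (-19597) := by rw [P.X_mul, P.X_div]; norm_num
    have h4 : 2 * P.X (-19597) ≤ P.X (-19596) := P.mul_X_le r09_two (by norm_num)
    have h5 : P.X (-19766) ≤ P.X (-19596) := P.X_le (by norm_num)
    have h6 : 2 * P.X (-19596) ≤ P.X (-19595) := P.mul_X_le r09_two (by norm_num)
    linarith
  have hpt : ∀ w, ind (w ∉ s.F) * |s.al v w * s.DD v w| ≤
      (|s.al v w| * B + P.X 10005 * (P.X 1 * A.lam v w)) + P.X 1 * P.X (-9995) * ind (w = v) := by
    intro w
    have t1 : 0 ≤ |s.al v w| * B := mul_nonneg (abs_nonneg _) hB0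
    have t2 : 0 ≤ P.X 10005 * (P.X 1 * A.lam v w) :=
      mul_nonneg (P.X_pos _).le (mul_nonneg (P.X_pos _).le (A.lam_nonneg v w))
    have t3 : 0 ≤ P.X 1 * P.X (-9995) * ind (w = v) :=
      mul_nonneg (mul_nonneg (P.X_pos _).le (P.X_pos _).le) (ind_nonneg _)
    by_cases hw : w ∈ s.F
    · rw [ind_neg (not_not.2 hw), zero_mul]
      linarith
    · rw [ind_pos hw, one_mul, abs_mul]
      by_cases hwv : w = v
      · subst hwv
        rw [ind_pos rfl, mul_one]
        have h1 : |s.al w w| * |s.DD w w| ≤ P.X 1 * P.X (-9995) :=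
          mul_le_mul (r09_al_le hi hg ht w w) (DD_diag hi hg ht hv) (abs_nonneg _) (P.X_pos _).le
        linarith
      · have h1 := DD_abs hi hg ht hv hw (Ne.symm hwv)
        rw [← hB] at h1
        have h2 : |s.al v w| * |s.DD v w| ≤ |s.al v w| * (B + P.X 10005 * A.lam v w) :=
          mul_le_mul_of_nonneg_left h1 (abs_nonneg _)
        have h3 : |s.al v w| * (P.X 10005 * A.lam v w) ≤ P.X 1 * (P.X 10005 * A.lam v w) :=
          mul_le_mul_of_nonneg_right (r09_al_le hi hg ht v w)
            (mul_nonneg (P.X_pos _).le (A.lam_nonneg v w))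
        calc |s.al v w| * |s.DD v w| ≤ |s.al v w| * (B + P.X 10005 * A.lam v w) := h2
          _ = |s.al v w| * B + |s.al v w| * (P.X 10005 * A.lam v w) := by ring
          _ ≤ |s.al v w| * B + P.X 1 * (P.X 10005 * A.lam v w) := by linarith
          _ = |s.al v w| * B + P.X 10005 * (P.X 1 * A.lam v w) := by ring
          _ ≤ _ := by linarith
  refine (av_mono hpt).trans ?_
  rw [av_add, av_add, av_mul_right, av_mul_left, av_mul_left, av_mul_left, av_ind_eq, r09_n A]
  have h1 : av (fun w => |s.al v w|) * B ≤ P.X (-29478) := by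
    calc av (fun w => |s.al v w|) * B ≤ P.X (-9883) * P.X (-19595) :=
          mul_le_mul (av_abs_al hi hg ht hv) hBle hB0 (P.X_pos _).le
      _ = P.X (-29478) := by rw [P.X_mul]; norm_num
  have h2 : P.X 10005 * (P.X 1 * av (fun w => A.lam v w)) ≤ P.X (-29478) := by
    calc _ ≤ P.X 10005 * (P.X 1 * P.eps ^ 2) := by
          apply mul_le_mul_of_nonneg_left _ (P.X_pos _).le
          exact mul_le_mul_of_nonneg_left (A.av_lam v) (P.X_pos _).le
      _ ≤ P.X (-29992) := r09_eps_sq
      _ ≤ _ := P.X_le (by norm_num)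
  have h3 : P.X 1 * P.X (-9995) * (1 / P.X 200000) ≤ P.X (-29478) := by
    rw [one_div, P.X_inv, P.X_mul, P.X_mul]
    exact P.X_le (by norm_num)
  have h4 : 2 * P.X (-29478) ≤ P.X (-29477) := P.mul_X_le r09_two (by norm_num)
  have h5 : P.X (-29478) ≤ P.X (-29477) := P.X_le (by norm_num)
  have h6 : 2 * P.X (-29477) ≤ P.X (-29476) := P.mul_X_le r09_two (by norm_num)
  have h7 : P.X (-29476) ≤ P.X (-29470) := P.X_le (by norm_num)
  linarith

theorem i4_init (A : Amb P V) : OpLe (s0 : St V).F (fun v w => (s0 : St V).al v w - s0.M v w)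
    (2 / P.X 200000 + (s0 : St V).F.card * P.zeta + P.zeta * (0 : ℕ) * P.X (-24892)) := by
  have h1 := op_id (∅ : Finset V)
  rw [r09_n A] at h1
  have h2 : OpLe (s0 : St V).F (fun v w => (s0 : St V).al v w - s0.M v w) (1 / P.X 200000) := by
    refine op_congr h1 fun v hv w hw => ?_
    change ind (v = w) = 1 - ind (v ≠ w) - 0
    rw [show ind (v ≠ w) = 1 - ind (v = w) from ind_not _]
    ring
  refine op_mono h2 (div_nonneg zero_le_one (P.X_pos _).le) ?_
  have h3 : (0:ℝ) ≤ (s0 : St V).F.card * P.zeta := mul_nonneg (Nat.cast_nonneg _) P.zeta_pos.le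
  have h4 : (1:ℝ) / P.X 200000 ≤ 2 / P.X 200000 :=
    div_le_div_of_nonneg_right (by norm_num) (P.X_pos _).le
  rw [Nat.cast_zero, mul_zero, zero_mul]
  linarith

theorem take_i4 (hi : s.Inv A t) (hg : s.Good A) (ht : t < P.T) (hκ : KOK A κ) {x : V}
    (hx : 0 < s.R x) :
    OpLe (s.take P κ x).F (fun v w => (s.take P κ x).al v w - (s.take P κ x).M v w)
      (2 / P.X 200000 + (s.take P κ x).F.card * P.zeta + P.zeta * (t + 1 : ℕ) * P.X (-24892)) := by
  have hxF : x ∉ s.F := fun h => hx.ne' (hi.RF x h)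
  have hF : (s.take P κ x).F = insert x s.F := rfl
  have h1 : OpLe (insert x s.F) (fun v w => s.al v w - s.M v w)
      (2 / P.X 200000 + s.F.card * P.zeta + P.zeta * t * P.X (-24892)) :=
    op_anti hi.i4 (Finset.subset_insert _ _)
  have h2 := Lbar_op hi hg ht.le hκ (insert x s.F)
  have hz := P.zeta_pos
  have hX := P.X_pos (-24892)
  have hX' := P.X_pos (-19954)
  have h0 : 0 ≤ 2 / P.X 200000 + s.F.card * P.zeta + P.zeta * t * P.X (-24892) := r09_c0 P _ _
  have h3 := op_add h1 h2 h0 (mul_nonneg hz.le hX'.le)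
  rw [hF]
  have h4 : OpLe (insert x s.F) (fun v w => (s.take P κ x).al v w - (s.take P κ x).M v w)
      (2 / P.X 200000 + s.F.card * P.zeta + P.zeta * t * P.X (-24892) + P.zeta * P.X (-19954)) := by
    refine op_congr h3 fun v hv w hw => ?_
    rw [Finset.mem_insert, not_or] at hv hw
    change (1 - s.rho v w) - s.M v w + s.Lbar P κ v w =
      (1 - s.rho v w * κ x v w) - (s.M v w + s.rho v w * (1 - κ x v w) * ind (Amb.D3 x v w) - s.Lbar P κ v w)
    by_cases hvw : v = w
    · subst hvw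
      rw [hi.rd]; ring
    · rw [ind_pos (show Amb.D3 x v w from ⟨Ne.symm hv.1, Ne.symm hw.1, hvw⟩)]; ring
  refine op_mono h4 (add_nonneg h0 (mul_nonneg hz.le hX'.le)) ?_
  rw [Finset.card_insert_of_notMem hxF]
  have h5 : P.zeta * P.X (-19954) ≤ P.zeta * 1 :=
    mul_le_mul_of_nonneg_left (P.X_le_one (by norm_num)) hz.le
  have h6 : 0 ≤ P.zeta * P.X (-24892) := mul_nonneg hz.le hX.le
  push_cast
  linarith

theorem skip_i4 (hi : s.Inv A t) (hg : s.Good A) (ht : t < P.T) (hκ : KOK A κ) :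
    OpLe (s.skip P κ).F (fun v w => (s.skip P κ).al v w - (s.skip P κ).M v w)
      (2 / P.X 200000 + (s.skip P κ).F.card * P.zeta + P.zeta * (t + 1 : ℕ) * P.X (-24892)) := by
  have hz := P.zeta_pos
  have hs := sml hi hg ht.le hκ
  have hF : (s.skip P κ).F = s.F := rfl
  rw [hF]
  -- the four parts of the change
  have k1 := op_smul (DD_op hi hg ht.le) P.zeta
  have k2 := op_neg (op_smul (alDD_op hi hg ht.le) P.zeta)
  have k3 := op_smul (G2_op hi hg ht.le hκ) P.zeta
  rw [abs_of_pos hz] at k1 k2 k3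
  have k4 : OpLe s.F (fun v w => s.rho v w - (s.skip P κ).rho v w +
      P.zeta * (s.rho v w * (s.gg κ v w - s.DD v w))) (P.zeta * P.X (-89999)) := by
    refine op_sup (mul_nonneg hz.le (P.X_pos _).le) fun v _ w _ => ?_
    obtain ⟨q, hq1, hq2, -⟩ := hs.skip_rho v w
    rw [hq1]
    have e : s.rho v w - s.rho v w * (1 + q) + P.zeta * (s.rho v w * (s.gg κ v w - s.DD v w)) =
        - (s.rho v w * (q - P.zeta * (s.gg κ v w - s.DD v w))) := by ring
    rw [e, abs_neg, abs_mul, abs_of_nonneg (hi.nn v w)]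
    calc s.rho v w * |q - P.zeta * (s.gg κ v w - s.DD v w)| ≤ P.X 1 * (P.zeta * P.X (-90000)) :=
          mul_le_mul (rho_le hi hg ht.le v w) hq2 (abs_nonneg _) (P.X_pos _).le
      _ = P.zeta * (P.X 1 * P.X (-90000)) := by ring
      _ = P.zeta * P.X (-89999) := by rw [P.X_mul]; norm_num
  have p1 : 0 ≤ P.zeta * P.X (-29779) := mul_nonneg hz.le (P.X_pos _).le
  have p2 : 0 ≤ P.zeta * P.X (-29470) := mul_nonneg hz.le (P.X_pos _).le
  have p3 : 0 ≤ P.zeta * P.X (-24893) := mul_nonneg hz.le (P.X_pos _).le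
  have p4 : 0 ≤ P.zeta * P.X (-89999) := mul_nonneg hz.le (P.X_pos _).le
  have h0 : 0 ≤ 2 / P.X 200000 + s.F.card * P.zeta + P.zeta * t * P.X (-24892) := r09_c0 P _ _
  have k5 := op_add (op_add (op_add (op_add hi.i4 k1 h0 p1) k2 (add_nonneg h0 p1) p2) k3
    (add_nonneg (add_nonneg h0 p1) p2) p3) k4 (add_nonneg (add_nonneg (add_nonneg h0 p1) p2) p3) p4
  have k6 := op_congr (K' := fun v w => (s.skip P κ).al v w - (s.skip P κ).M v w) k5
    (fun v _ w _ => by
      have hL : s.Lbar P κ v w = P.zeta * (s.rho v w * s.gg κ v w) +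
          P.zeta * (s.rho v w * av fun x => s.R x * ((1 - s.rho v x * s.rho w x) *
            ((1 - κ x v w) * ind (Amb.D3 x v w)))) := by
        unfold St.Lbar St.gg
        rw [← mul_add, ← mul_add, ← av_add, ← av_mul_left (s.rho v w)]
        congr 1
        refine av_congr fun x => ?_
        unfold St.LL
        have hk : κ v w x = κ x v w := by rw [hκ.s2 v w x, hκ.s1 v x w]
        rw [hk]
        by_cases hd : Amb.D3 x v w
        · rw [ind_pos hd]; ring
        · rw [ind_neg hd]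
          have h7 : s.rho v w * (s.rho v x * s.rho w x) = 0 := by
            unfold Amb.D3 at hd
            rcases not_and_or.1 hd with h | h
            · rw [not_not] at h
              subst h
              rw [hi.rd x]; ring
            · rcases not_and_or.1 h with h | h
              · rw [not_not] at h
                subst h
                rw [hi.rd x]; ring
              · rw [not_not] at h
                subst h
                rw [hi.rd v]; ring
          linear_combination (-(s.R x * (1 - κ x v w))) * h7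
      change (s.al v w - s.M v w + P.zeta * s.DD v w + -(P.zeta * (s.al v w * s.DD v w)) +
        P.zeta * (s.rho v w * av fun x => s.R x * ((1 - s.rho v x * s.rho w x) *
            ((1 - κ x v w) * ind (Amb.D3 x v w)))) +
        (s.rho v w - (s.skip P κ).rho v w + P.zeta * (s.rho v w * (s.gg κ v w - s.DD v w)))) =
        (1 - (s.skip P κ).rho v w) - (s.M v w - s.Lbar P κ v w)
      rw [hL]
      unfold St.al
      ring)
  refine op_mono k6 (add_nonneg (add_nonneg (add_nonneg (add_nonneg h0 p1) p2) p3) p4) ?_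
  have m1 : P.X (-29779) ≤ P.X (-24894) := P.X_le (by norm_num)
  have m2 : P.X (-29470) ≤ P.X (-24894) := P.X_le (by norm_num)
  have m4 : P.X (-89999) ≤ P.X (-24894) := P.X_le (by norm_num)
  have m5 : 3 * P.X (-24894) ≤ P.X (-24893) := P.mul_X_le (by
    have := P.two_pow_le (k := 2) (by norm_num)
    linarith) (by norm_num)
  have m6 : 2 * P.X (-24893) ≤ P.X (-24892) := P.mul_X_le r09_two (by norm_num)
  have m7 : P.X (-29779) + P.X (-29470) + P.X (-24893) + P.X (-89999) ≤ P.X (-24892) := by linarith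
  have m8 := mul_le_mul_of_nonneg_left m7 hz.le
  push_cast
  linarith

end MP5cA
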