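import Pool.Agent.Lib.MP_5c685b_co.A.R02
import Pool.Agent.Lib.MP_5c685b_co.A.R08
import Pool.Agent.Lib.MP_5c685b_co.A.R09

/-!
# Route A', row R10: `Inv` is preserved (assembly of R05, R08, R09)
-/

set_option autoImplicit false
set_option linter.unusedVariables false
set_option linter.unusedSectionVars false

open Finset

namespace MP5cA

variable {V : Type} [Fintype V] [DecidableEq V] {P : Par}

lemma R10_aa0 (v w : V) : (s0 : St V).aa v w = 0 := by
  show |1 - ind (v ≠ w)| * ind (ind (v ≠ w) ≠ 0) = 0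
  by_cases h : v = w
  · have h1 : ind (v ≠ w) = 0 := ind_neg (fun hn => hn h)
    rw [h1, ind_neg (p := (0 : ℝ) ≠ 0) (fun hn => hn rfl), mul_zero]
  · have h1 : ind (v ≠ w) = 1 := ind_pos h
    rw [h1, sub_self, abs_zero, zero_mul]

lemma R10_card (A : Amb P V) : (Fintype.card V : ℝ) = P.X 200000 := by
  rw [A.hc]
  push_cast
  rw [P.r_eq, P.X_pow]
  norm_num

theorem inv_init (A : Amb P V) : (s0 : St V).Inv A 0 := by
  have hX3 : (1 : ℝ) ≤ P.X 3 := P.one_le_X (by norm_num)
  refine ⟨?_, ?_, ?_, ?_, ?_, ?_, ?_, ?_, ?_, ?_, ?_, ?_, ?_, ?_, ?_, ?_⟩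
  · intro v w
    exact ind_congr ⟨fun h => h.symm, fun h => h.symm⟩
  · intro v w
    exact ind_nonneg _
  · intro v
    exact zero_le_one
  · intro v hv
    exact absurd hv (Finset.notMem_empty v)
  · intro v hv
    exact absurd hv (Finset.notMem_empty v)
  · intro v
    exact ind_neg (fun h => h rfl)
  · intro v w _ _ hvw
    have h1 : (s0 : St V).rho v w = 1 := ind_pos hvw
    rw [h1]
    constructor
    · intro h
      exact absurd h one_ne_zero
    · rintro ⟨u, hu, _⟩
      exact absurd hu (Finset.notMem_empty u)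
  · intro u hu
    exact absurd hu (Finset.notMem_empty u)
  · intro v _ u hu
    exact absurd hu (Finset.notMem_empty u)
  · intro v w
    rfl
  · intro v
    exact hX3
  · intro v w
    exact (ind_le_one _).trans hX3
  · intro v w _
    have h1 : (s0 : St V).cnt A v = 0 := by
      show ∑ u ∈ (∅ : Finset V), ind (A.Strong u v) = 0
      exact Finset.sum_empty
    rw [h1]
    have h2 : P.Kp * 0 + P.zeta * ((0 : ℕ) : ℝ) / P.r = 0 := by
      push_cast
      ring
    rw [h2, Real.exp_zero]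
    exact ind_le_one _
  · intro v w _
    rw [R10_aa0]
    have h1 : P.sS 0 = 0 := rfl
    rw [h1]
    push_cast
    simp
  · intro v _
    have h1 : (fun w => ind (¬ A.Strong v w) * (s0 : St V).aa v w ^ 2) = fun _ => (0 : ℝ) := by
      funext w
      rw [R10_aa0]
      ring
    rw [h1, av_zero]
    exact sq_nonneg _
  · intro f _
    have hn := R10_card A
    have hnp : 0 < P.X 200000 := P.X_pos _
    have h1 : ∀ v, (av fun w => ((s0 : St V).al v w - (s0 : St V).M v w) * f w)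
        = f v / P.X 200000 := by
      intro v
      have h2 : ∀ w, ((s0 : St V).al v w - (s0 : St V).M v w) * f w = f w * ind (w = v) := by
        intro w
        show ((1 - ind (v ≠ w)) - 0) * f w = f w * ind (w = v)
        by_cases h : v = w
        · rw [ind_neg (p := v ≠ w) (fun hn => hn h), ind_pos (p := w = v) h.symm]
          ring
        · rw [ind_pos (p := v ≠ w) h, ind_neg (p := w = v) (fun hn => h hn.symm)]
          ring
      rw [av_congr h2, av_mul_ind_eq, hn]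
    have h3 : av (fun v => ind (v ∉ (s0 : St V).F) *
        (av fun w => ((s0 : St V).al v w - (s0 : St V).M v w) * f w) ^ 2)
        ≤ (1 / P.X 200000) ^ 2 * av (fun w => f w ^ 2) := by
      rw [← av_mul_left]
      refine av_mono fun v => ?_
      rw [h1 v]
      have h4 : ind (v ∉ (s0 : St V).F) * (f v / P.X 200000) ^ 2 ≤ 1 * (f v / P.X 200000) ^ 2 :=
        mul_le_mul_of_nonneg_right (ind_le_one _) (sq_nonneg _)
      refine h4.trans (le_of_eq ?_)
      ring
    refine h3.trans ?_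
    refine mul_le_mul_of_nonneg_right ?_ (av_nonneg fun w => sq_nonneg _)
    have h5 : (2 / P.X 200000 + ((s0 : St V).F.card : ℝ) * P.zeta
        + P.zeta * ((0 : ℕ) : ℝ) * P.X (-24892)) = 2 / P.X 200000 := by
      have : (s0 : St V).F.card = 0 := Finset.card_empty
      rw [this]
      push_cast
      ring
    rw [h5]
    have h6 : (0 : ℝ) ≤ 1 / P.X 200000 := by positivity
    have h7 : 1 / P.X 200000 ≤ 2 / P.X 200000 :=
      div_le_div_of_nonneg_right (by norm_num) hnp.le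
    exact pow_le_pow_left₀ h6 h7 2

theorem inv_mono (A : Amb P V) (s : St V) (t : ℕ) (h : s.Inv A t) : s.Inv A (t + 1) := by
  have hz := P.zeta_pos
  have hr0 : (0 : ℝ) ≤ P.r := Nat.cast_nonneg _
  have ht : (t : ℝ) ≤ ((t + 1 : ℕ) : ℝ) := by
    push_cast
    linarith
  have ht0 : (0 : ℝ) ≤ t := Nat.cast_nonneg _
  have hzt : P.zeta * (t : ℝ) ≤ P.zeta * ((t + 1 : ℕ) : ℝ) := mul_le_mul_of_nonneg_left ht hz.le
  have hzt0 : 0 ≤ P.zeta * (t : ℝ) := mul_nonneg hz.le ht0
  refine ⟨h.sym, h.nn, h.Rn, h.RF, h.rF, h.rd, h.bk, h.cl, h.Rc, h.Ms, h.cR, h.cr, ?_, ?_, ?_, ?_⟩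
  · intro v w hs
    refine (h.i1 v w hs).trans (Real.exp_le_exp.2 ?_)
    have := div_le_div_of_nonneg_right hzt hr0
    linarith
  · intro v w hs
    refine (h.i2 v w hs).trans ?_
    have h1 : P.sS t ≤ P.sS (t + 1) := P.sS_mono (Nat.le_succ t)
    have h2 : P.zeta * t * P.X 10006 * A.lam v w
        ≤ P.zeta * ((t + 1 : ℕ) : ℝ) * P.X 10006 * A.lam v w :=
      mul_le_mul_of_nonneg_right (mul_le_mul_of_nonneg_right hzt (P.X_pos _).le)
        (A.lam_nonneg v w)
    linarith
  · intro v hv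
    refine (h.i3 v hv).trans ?_
    exact pow_le_pow_left₀ (mul_nonneg hzt0 (P.X_pos _).le)
      (mul_le_mul_of_nonneg_right hzt (P.X_pos _).le) 2
  · have hX := P.X_pos 200000
    have hc0 : 0 ≤ 2 / P.X 200000 + (s.F.card : ℝ) * P.zeta + P.zeta * t * P.X (-24892) := by
      have h1 : 0 ≤ (s.F.card : ℝ) * P.zeta := mul_nonneg (Nat.cast_nonneg _) hz.le
      have h2 : 0 ≤ P.zeta * t * P.X (-24892) := mul_nonneg hzt0 (P.X_pos _).le
      have h3 : 0 ≤ 2 / P.X 200000 := by positivity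
      linarith
    refine op_mono h.i4 hc0 ?_
    have h2 : P.zeta * t * P.X (-24892) ≤ P.zeta * ((t + 1 : ℕ) : ℝ) * P.X (-24892) :=
      mul_le_mul_of_nonneg_right hzt (P.X_pos _).le
    linarith

theorem inv_take (A : Amb P V) (s : St V) (t : ℕ) (κ : V → V → V → ℝ) (x : V) (ht : t < P.T)
    (hκ : KOK A κ) (hi : s.Inv A t) (hg : s.Good A) (hx : 0 < s.R x) :
    (s.take P κ x).Inv A (t + 1) := by
  have hs := sinv_take A hκ hi.sinv hx
  exact ⟨hs.sym, hs.nn, hs.Rn, hs.RF, hs.rF, hs.rd, hs.bk, hs.cl, hs.Rc, hs.Ms,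
    take_cR hi hg ht hκ hx, take_cr hi hg ht hκ hx, take_i1 hi hg ht hκ hx,
    take_i2 hi hg ht hκ hx, take_i3 hi hg ht hκ hx, take_i4 hi hg ht hκ hx⟩

theorem inv_skip (A : Amb P V) (s : St V) (t : ℕ) (κ : V → V → V → ℝ) (ht : t < P.T)
    (hκ : KOK A κ) (hi : s.Inv A t) (hg : s.Good A) : (s.skip P κ).Inv A (t + 1) := by
  have hs := sinv_skip A hκ hi.sinv (sml hi hg ht.le hκ)
  exact ⟨hs.sym, hs.nn, hs.Rn, hs.RF, hs.rF, hs.rd, hs.bk, hs.cl, hs.Rc, hs.Ms,
    skip_cR hi hg ht hκ, skip_cr hi hg ht hκ, skip_i1 hi hg ht hκ,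
    skip_i2 hi hg ht hκ, skip_i3 hi hg ht hκ, skip_i4 hi hg ht hκ⟩

theorem ipres (A : Amb P V) : IPres A :=
  ⟨inv_init A, fun s t h => inv_mono A s t h,
    fun s t κ x ht hκ hi hg hx => inv_take A s t κ x ht hκ hi hg hx,
    fun s t κ ht hκ hi hg => inv_skip A s t κ ht hκ hi hg⟩

end MP5cA
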