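import Pool.Agent.Lib.MP_5c685b_co.A.R02
import Pool.Agent.Lib.MP_5c685b_co.A.R01b
import Pool.Agent.Lib.MP_5c685b_co.A.Mom
import Pool.Agent.Lib.MP_5c685b_co.A.Win

/-!
# Route A', row R11: moment principle
-/

set_option autoImplicit false
set_option linter.unusedVariables false
set_option linter.unusedSectionVars false

open Finset

namespace MP5cA

variable {V : Type} [Fintype V] [DecidableEq V] {P : Par}

/-- `q = 5 r x / n` -/
noncomputable def Par.q (P : Par) : ℝ := 5 * P.X 10001 / P.X 200000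

theorem posLin_EE (A : Amb P V) (hI : IPres A) {t : ℕ} (ht : t ≤ P.T) :
    PosLin (fun s : St V => s.Inv A t) (EE A t) where
  add := EE_add A t
  smul := EE_mul A t
  mono _ _ h := EE_mono A hI ht h

theorem dom_EE (A : Amb P V) (hI : IPres A) {t : ℕ} (ht : t ≤ P.T) :
    Dom P (EE A t) := fun S => EE_dom A hI S t ht

theorem r11_q (P : Par) : 0 ≤ P.q := by
  unfold Par.q
  have h1 := P.X_pos 10001
  have h2 := P.X_pos 200000
  exact (div_pos (mul_pos (by norm_num) h1) h2).le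

theorem r11_Zs {ι : Type} [Fintype ι] (φ : ι → ℝ) (sp : ι → Finset V) (s : St V) :
    Zs (fun s : St V => s.F) univ sp φ s = ∑ i, φ i * ind (sp i ⊆ s.F) := by
  unfold Zs
  refine sum_congr rfl fun i _ => ?_
  by_cases h : sp i ⊆ s.F
  · rw [if_pos h, ind_pos h, mul_one]
  · rw [if_neg h, ind_neg h, mul_zero]

/-- the moment principle -/
theorem moment_EE (A : Amb P V) (hI : IPres A) {t : ℕ} (ht : t ≤ P.T) {ι : Type} [Fintype ι]
    (φ : ι → ℝ) (hφ : ∀ i, 0 ≤ φ i) (sp : ι → Finset V) (d : ℕ) (hd : ∀ i, (sp i).card ≤ d)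
    {β : ℝ} (hβ0 : 0 ≤ β) (k : ℕ)
    (hβ : ∀ I : Finset V, I.card ≤ d * k → ∑ i, φ i * P.q ^ (sp i \ I).card ≤ β) :
    EE A t (fun s => (∑ i, φ i * ind (sp i ⊆ s.F)) ^ k) ≤ β ^ k := by
  have h := moment (posLin_EE A hI ht) (fun s => s.F) (r11_q P) univ sp φ (fun i _ => hφ i)
    (m := d) (K := k) (fun S _ => EE_dom A hI S t ht) (fun i _ => hd i) hβ0
    (fun I hI' => hβ I (by omega))
  simpa only [r11_Zs] using h

theorem moment_prob (A : Amb P V) (hI : IPres A) {t : ℕ} (ht : t ≤ P.T) {ι : Type} [Fintype ι]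
    (φ : ι → ℝ) (hφ : ∀ i, 0 ≤ φ i) (sp : ι → Finset V) (d : ℕ) (hd : ∀ i, (sp i).card ≤ d)
    {β : ℝ} (hβ0 : 0 ≤ β) (k : ℕ)
    (hβ : ∀ I : Finset V, I.card ≤ d * k → ∑ i, φ i * P.q ^ (sp i \ I).card ≤ β)
    {z : ℝ} (hz : 0 < z) :
    EE A t (fun s => ind (z < ∑ i, φ i * ind (sp i ⊆ s.F))) ≤ (β / z) ^ k :=
  tail (posLin_EE A hI ht) (fun s => s.F) (r11_q P) univ sp φ (fun i _ => hφ i)
    (m := d) (K := k) (fun S _ => EE_dom A hI S t ht) (fun i _ => hd i) hβ0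
    (fun I hI' => hβ I (by omega)) hz (fun s => z < ∑ i, φ i * ind (sp i ⊆ s.F))
    (fun s _ hs => by rw [r11_Zs]; exact hs.le)

/-- pairs (with diagonal) -/
theorem moment_pairs (A : Amb P V) (hI : IPres A) {t : ℕ} (ht : t ≤ P.T)
    (φ : V → V → ℝ) (hφ : ∀ u v, 0 ≤ φ u v) {a0 a1 a1' a2 : ℝ} (h0 : ∀ u v, φ u v ≤ a0)
    (h1 : ∀ u, av (fun v => φ u v) ≤ a1) (h1s : ∀ v, av (fun u => φ u v) ≤ a1)
    (h1' : av (fun u => φ u u) ≤ a1') (h2 : av (fun u => av fun v => φ u v) ≤ a2)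
    (k : ℕ) {z : ℝ} (hz : 0 < z) :
    EE A t (fun s => ind (z < ∑ u ∈ s.F, ∑ v ∈ s.F, φ u v))
      ≤ (((2 * k) ^ 2 * a0 + 2 * (2 * k) * (5 * P.X 10001) * a1 + (5 * P.X 10001) * a1'
        + (5 * P.X 10001) ^ 2 * a2) / z) ^ k := by
  refine (tailF_two A (posLin_EE A hI ht) (dom_EE A hI ht) k φ hφ h0 h1 h1s h2 h1' hz
    (fun s => z < ∑ u ∈ s.F, ∑ v ∈ s.F, φ u v) (fun s _ hs => hs.le)).trans (le_of_eq ?_)
  congr 2
  ring

/-- distinct triples -/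
theorem moment_triples (A : Amb P V) (hI : IPres A) {t : ℕ} (ht : t ≤ P.T)
    (φ : V → V → V → ℝ) (hφ : ∀ u v w, 0 ≤ φ u v w)
    (hs1 : ∀ u v w, φ u v w = φ v u w) (hs2 : ∀ u v w, φ u v w = φ u w v)
    {a0 a1 a2 a3 : ℝ} (h0 : ∀ u v w, φ u v w ≤ a0)
    (h1 : ∀ u v, av (fun w => φ u v w) ≤ a1)
    (h2 : ∀ u, av (fun v => av fun w => φ u v w) ≤ a2)
    (h3 : av (fun u => av fun v => av fun w => φ u v w) ≤ a3)
    (k : ℕ) {z : ℝ} (hz : 0 < z) :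
    EE A t (fun s => ind (z < ∑ u ∈ s.F, ∑ v ∈ s.F, ∑ w ∈ s.F, ind (Amb.D3 u v w) * φ u v w))
      ≤ (((3 * k) ^ 3 * a0 + 3 * (3 * k) ^ 2 * (5 * P.X 10001) * a1
        + 3 * (3 * k) * (5 * P.X 10001) ^ 2 * a2 + (5 * P.X 10001) ^ 3 * a3) / z) ^ k := by
  refine (tailF_three A (posLin_EE A hI ht) (dom_EE A hI ht) k φ hφ h0 h1 (fun a c => ?_)
    (fun b c => ?_) h2 (fun b => ?_) (fun c => ?_) h3 hz
    (fun s => z < ∑ u ∈ s.F, ∑ v ∈ s.F, ∑ w ∈ s.F, ind (Amb.D3 u v w) * φ u v w)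
    (fun s _ hs => hs.le)).trans (le_of_eq ?_)
  · rw [av_congr fun b => hs2 a b c]
    exact h1 a c
  · rw [av_congr fun a => (hs1 a b c).trans (hs2 b a c)]
    exact h1 b c
  · rw [av_congr fun a => av_congr fun c => hs1 a b c]
    exact h2 b
  · rw [av_congr fun a => av_congr fun b => (hs2 a b c).trans (hs1 a c b)]
    exact h2 c
  · congr 2
    ring

end MP5cA
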