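import Pool.Agent.Lib.MP_5c685b_co.A.R11
import Pool.Agent.Lib.MP_5c685b_co.A.R06

/-!
# Route A', row R12: the windows `g2`, `g4`, `g5`, `g9` (domination only; text, section 6)
-/

set_option autoImplicit false
set_option linter.unusedVariables false
set_option linter.unusedSectionVars false

open Finset

namespace MP5cA

variable {V : Type} [Fintype V] [DecidableEq V] {P : Par}

theorem win2 (A : Amb P V) (hI : IPres A) {t : ℕ} (ht : t ≤ P.T) :
    EE A t (fun s => ind (¬ (s.F.card : ℝ) ≤ P.X 10002)) ≤ P.X (-1020000) :=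
  win_g2 A (posLin_EE A hI ht) (dom_EE A hI ht)

theorem win4 (A : Amb P V) (hI : IPres A) {t : ℕ} (ht : t ≤ P.T) :
    EE A t (fun s => ind (¬ ∀ v w, v ≠ w → s.VV A v w ≤ P.X (-19994) + P.X 10004 * A.lam v w))
      ≤ P.X (-1020000) :=
  win_g4 A (posLin_EE A hI ht) (dom_EE A hI ht)

theorem win5 (A : Amb P V) (hI : IPres A) {t : ℕ} (ht : t ≤ P.T) :
    EE A t (fun s => ind (¬ ∀ v, s.cnt A v ≤ 300)) ≤ P.X (-1020000) :=
  win_g5 A (posLin_EE A hI ht) (dom_EE A hI ht)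

theorem win9 (A : Amb P V) (hI : IPres A) {t : ℕ} (ht : t ≤ P.T) :
    EE A t (fun s => ind (¬ s.Z9 A ≤ 1 / 10 ^ 7)) ≤ P.X (-1020000) :=
  win_g9 A (posLin_EE A hI ht) (dom_EE A hI ht)

end MP5cA
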