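import Pool.Agent.Lib.MP_5c685b_co.A.R02

/-!
# Route A', row R13: the window `g1` (`p`-th moment of `R v`, `p = 3000000`; text, section 6)
-/

set_option autoImplicit false
set_option linter.unusedVariables false
set_option linter.unusedSectionVars false

open Finset

namespace MP5cA

/-! ## scalar lemmas -/

private lemma g1_inv_le {u : ℝ} (h0 : 0 ≤ u) (h1 : u ≤ 1 / 4) : 1 / (1 - u) ≤ Real.exp (u + u ^ 2) := by
  have ht : 0 ≤ u + u ^ 2 := by positivity
  have h2 := Real.quadratic_le_exp_of_nonneg ht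
  rw [div_le_iff₀ (by linarith)]
  have h3 : 1 ≤ (1 + (u + u ^ 2) + (u + u ^ 2) ^ 2 / 2) * (1 - u) := by
    have : (1 + (u + u ^ 2) + (u + u ^ 2) ^ 2 / 2) * (1 - u) - 1
        = u ^ 2 * ((1 - u) * (1 + u) ^ 2 / 2 - u) := by ring
    have h4 : 0 ≤ (1 - u) * (1 + u) ^ 2 / 2 - u := by nlinarith [mul_nonneg h0 h0]
    have h5 : 0 ≤ u ^ 2 * ((1 - u) * (1 + u) ^ 2 / 2 - u) := mul_nonneg (sq_nonneg u) h4
    linarith
  exact h3.trans (mul_le_mul_of_nonneg_right h2 (by linarith))

/-- the empty slot -/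
private lemma g1_skip {u w : ℝ} (hu0 : 0 ≤ u) (hu1 : u ≤ 1 / 4) (hw0 : 0 ≤ w) (hw1 : w ≤ 1)
    {p : ℕ} (hp : 1 ≤ p) :
    (1 - u) * ((1 - w) / (1 - u)) ^ p ≤ Real.exp ((p - 1) * u - p * w + p * u ^ 2) := by
  obtain ⟨q, rfl⟩ : ∃ q, p = q + 1 := ⟨p - 1, by omega⟩
  have h1u : 0 < 1 - u := by linarith
  have h1 : (1 - u) * ((1 - w) / (1 - u)) ^ (q + 1) = (1 / (1 - u)) ^ q * (1 - w) ^ (q + 1) := by
    rw [div_pow, div_pow, one_pow, pow_succ (1 - u) q]
    field_simp
  rw [h1]
  have h2 : (1 / (1 - u)) ^ q ≤ Real.exp (u + u ^ 2) ^ q :=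
    pow_le_pow_left₀ (by positivity) (g1_inv_le hu0 hu1) q
  have h3 : (1 - w) ^ (q + 1) ≤ Real.exp (-w) ^ (q + 1) := by
    refine pow_le_pow_left₀ (by linarith) ?_ _
    have := Real.add_one_le_exp (-w)
    linarith
  calc (1 / (1 - u)) ^ q * (1 - w) ^ (q + 1)
      ≤ Real.exp (u + u ^ 2) ^ q * Real.exp (-w) ^ (q + 1) := by
        apply mul_le_mul h2 h3 (pow_nonneg (by linarith) _) (by positivity)
    _ = Real.exp (q * (u + u ^ 2) + (q + 1 : ℕ) * (-w)) := by
        rw [← Real.exp_nat_mul, ← Real.exp_nat_mul, ← Real.exp_add]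
    _ ≤ Real.exp (((q + 1 : ℕ) - 1) * u - (q + 1 : ℕ) * w + (q + 1 : ℕ) * u ^ 2) := by
        apply Real.exp_le_exp.2
        push_cast
        nlinarith [sq_nonneg u]

/-- the function `f p ρ = ρ ^ p - 1 + p (1 - ρ)` -/
private noncomputable def g1f (p : ℕ) (ρ : ℝ) : ℝ := ρ ^ p - 1 + p * (1 - ρ)

private lemma g1f_zero {p : ℕ} (hp : 1 ≤ p) : g1f p 0 = p - 1 := by
  unfold g1f
  rw [zero_pow (by omega)]
  ring

private lemma g1f_le {p : ℕ} {ρ : ℝ} (h0 : 0 ≤ ρ) : g1f p ρ ≤ ρ ^ p + p := by
  unfold g1f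
  have : 0 ≤ (p : ℝ) * ρ := by positivity
  linarith

private lemma g1f_near {p : ℕ} {ρ : ℝ} (h0 : 0 ≤ ρ) (h : p * |1 - ρ| ≤ 1) :
    g1f p ρ ≤ p ^ 2 * |1 - ρ| ^ 2 := by
  unfold g1f
  set u : ℝ := ρ - 1 with hu
  have hρ : ρ = 1 + u := by rw [hu]; ring
  have habs : |1 - ρ| = |u| := by rw [hu, abs_sub_comm]
  have h1 : ρ ^ p ≤ Real.exp (p * u) := by
    rw [Real.exp_nat_mul]
    refine pow_le_pow_left₀ h0 ?_ _
    have := Real.add_one_le_exp u
    linarith
  have h2 : |(p : ℝ) * u| ≤ 1 := by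
    rw [abs_mul, Nat.abs_cast, ← habs]
    exact h
  have h3 := Real.abs_exp_sub_one_sub_id_le h2
  have h4 : Real.exp (p * u) - 1 - p * u ≤ (p * u) ^ 2 := (le_abs_self _).trans h3
  rw [habs, sq_abs]
  nlinarith [h1, h4]

/-! ## static facts -/

variable {V : Type} [Fintype V] [DecidableEq V] {P : Par}

private lemma g1_av_lam (A : Amb P V) (u : V) : av (fun v => A.lam u v) ≤ P.eps ^ 2 := by
  unfold Amb.lam
  rw [av_comm]
  have h1 : ∀ s, av (fun v => av fun y => A.h s u y * A.h s v y) ≤ av (fun y => A.h s u y) * P.eps := by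
    intro s
    rw [av_comm, ← av_mul_right]
    refine av_mono fun y => ?_
    rw [av_mul_left]
    refine mul_le_mul_of_nonneg_left ?_ (ind_nonneg _)
    calc av (fun v => A.h s v y) = av (fun v => ind (A.H s y v)) :=
          av_congr fun v => ind_congr ⟨A.s2 _ _ _, A.s2 _ _ _⟩
      _ ≤ P.eps := A.he s y
  calc av (fun s => av fun v => av fun y => A.h s u y * A.h s v y)
      ≤ av (fun s => av (fun y => A.h s u y) * P.eps) := av_mono h1
    _ = av (fun s => av (fun y => A.h s u y)) * P.eps := av_mul_right _ _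
    _ ≤ P.eps * P.eps := by
        refine mul_le_mul_of_nonneg_right ?_ P.eps_pos.le
        rw [av_comm]
        refine av_le_const P.eps_pos.le fun y => ?_
        calc av (fun s => A.h s u y) = av (fun s => ind (A.H u y s)) :=
              av_congr fun s => ind_congr
                ⟨fun h => A.s2 _ _ _ (A.s1 _ _ _ h), fun h => A.s1 _ _ _ (A.s2 _ _ _ h)⟩
          _ ≤ P.eps := A.he u y
    _ = P.eps ^ 2 := by ring

private lemma g1_av_strong (A : Amb P V) (u : V) :
    av (fun v => ind (A.Strong u v)) ≤ P.X (-19959) := by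
  have h1 : P.theta * av (fun v => ind (A.Strong u v)) ≤ P.eps ^ 2 := by
    rw [← av_mul_left]
    refine le_trans (av_mono fun v => ?_) (g1_av_lam A u)
    by_cases h : A.Strong u v
    · rw [ind_pos h, mul_one]
      exact h
    · rw [ind_neg h, mul_zero]
      exact av_nonneg fun s => av_nonneg fun y => mul_nonneg (ind_nonneg _) (ind_nonneg _)
  have h2 : P.eps ^ 2 ≤ P.theta * P.X (-19959) := by
    unfold Par.eps Par.theta
    rw [mul_pow, P.X_pow, P.X_mul]
    have h3 : P.Lam ^ 2 ≤ P.x := by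
      have := P.absorb (c := 1) (k := 0) (j := 2) (by norm_num) (by norm_num) (by norm_num)
      simpa using this
    exact P.mul_X_le h3 (by norm_num)
  exact le_of_mul_le_mul_left (h1.trans h2) P.theta_pos

/-! ## numerical facts -/

private lemma g1_zt {t : ℕ} (ht : t ≤ P.T) : P.zeta * t ≤ 5 * P.X 10000 := by
  rw [← P.zeta_T]
  have : (t : ℝ) ≤ P.T := by exact_mod_cast ht
  exact mul_le_mul_of_nonneg_left this P.zeta_pos.le

private lemma g1_y0_pos : 0 < P.y0 := by
  unfold Par.y0
  linarith [P.hLam]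

private lemma g1_sS_le (t : ℕ) : 0 ≤ P.sS t ∧
    P.sS t ≤ Real.exp (t * (P.zeta * (22 / 10) * P.y0 / P.r)) * (t * (P.zeta * P.X (-19600))) := by
  have hr : (0 : ℝ) < P.r := by rw [P.r_eq]; exact P.X_pos _
  have ha : 0 ≤ P.zeta * (22 / 10) * P.y0 / P.r := by
    have := P.zeta_pos
    have := g1_y0_pos (P := P)
    positivity
  have hb : 0 ≤ P.zeta * P.X (-19600) := mul_nonneg P.zeta_pos.le (P.X_pos _).le
  induction t with
  | zero =>
    constructor
    · exact le_of_eq rfl
    · simp [Par.sS]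
  | succ t ih =>
    obtain ⟨ih0, ih1⟩ := ih
    set a := P.zeta * (22 / 10) * P.y0 / P.r with hadef
    set b := P.zeta * P.X (-19600) with hbdef
    have hrec : P.sS (t + 1) = P.sS t * (1 + a) + b := rfl
    rw [hrec]
    constructor
    · positivity
    · have h1 : 1 + a ≤ Real.exp a := by linarith [Real.add_one_le_exp a]
      have h2 : P.sS t * (1 + a) ≤ Real.exp (t * a) * (t * b) * Real.exp a := by
        apply mul_le_mul ih1 h1 (by positivity) (by positivity)
      have h3 : Real.exp ((t + 1 : ℕ) * a) = Real.exp (t * a) * Real.exp a := by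
        rw [← Real.exp_add]
        congr 1
        push_cast
        ring
      have h4 : (1 : ℝ) ≤ Real.exp ((t + 1 : ℕ) * a) := Real.one_le_exp (by positivity)
      rw [h3] at h4 ⊢
      calc P.sS t * (1 + a) + b ≤ Real.exp (t * a) * (t * b) * Real.exp a + 1 * b := by linarith
        _ ≤ Real.exp (t * a) * (t * b) * Real.exp a + Real.exp (t * a) * Real.exp a * b := by
            have := mul_le_mul_of_nonneg_right h4 hb
            linarith
        _ = Real.exp (t * a) * Real.exp a * ((t + 1 : ℕ) * b) := by push_cast; ring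

private lemma g1_sS {t : ℕ} (ht : t ≤ P.T) : P.sS t ≤ P.X (-9598) := by
  have h1 := (g1_sS_le (P := P) t).2
  have hzt := g1_zt (P := P) ht
  have hr : (0 : ℝ) < P.r := by rw [P.r_eq]; exact P.X_pos _
  have h2 : (t : ℝ) * (P.zeta * (22 / 10) * P.y0 / P.r) ≤ 121 * P.Lam := by
    have h3 : (t : ℝ) * (P.zeta * (22 / 10) * P.y0 / P.r) = (P.zeta * t) * ((22 / 10) * P.y0 / P.r) := by
      ring
    rw [h3]
    have h4 : (P.zeta * t) * ((22 / 10) * P.y0 / P.r) ≤ (5 * P.X 10000) * ((22 / 10) * P.y0 / P.r) := by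
      refine mul_le_mul_of_nonneg_right hzt ?_
      have := g1_y0_pos (P := P)
      positivity
    refine h4.trans ?_
    rw [← P.r_eq]
    have h5 : 5 * (P.r : ℝ) * ((22 / 10) * P.y0 / P.r) = 11 * P.y0 := by
      field_simp
      ring
    rw [h5]
    unfold Par.y0
    linarith [P.hLam]
  have h6 : Real.exp ((t : ℝ) * (P.zeta * (22 / 10) * P.y0 / P.r)) ≤ P.x :=
    (Real.exp_le_exp.2 h2).trans (P.exp_le (by norm_num))
  have h7 : (t : ℝ) * (P.zeta * P.X (-19600)) ≤ 5 * P.X (-9600) := by
    have : (t : ℝ) * (P.zeta * P.X (-19600)) = (P.zeta * t) * P.X (-19600) := by ring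
    rw [this]
    calc (P.zeta * t) * P.X (-19600) ≤ (5 * P.X 10000) * P.X (-19600) :=
          mul_le_mul_of_nonneg_right hzt (P.X_pos _).le
      _ = 5 * P.X (-9600) := by rw [mul_assoc, P.X_mul]; norm_num
  calc P.sS t ≤ _ := h1
    _ ≤ P.x * (5 * P.X (-9600)) := by
        exact mul_le_mul h6 h7 (mul_nonneg (Nat.cast_nonneg _)
          (mul_nonneg P.zeta_pos.le (P.X_pos _).le)) P.hx0.le
    _ = 5 * P.X (-9599) := by
        have : P.x * (5 * P.X (-9600)) = 5 * (P.X 1 * P.X (-9600)) := by rw [P.X_one]; ring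
        rw [this, P.X_mul]
        norm_num
    _ ≤ P.X (-9598) := P.mul_X_le (by
        have := P.two_pow_le (k := 3) (by norm_num)
        linarith) (by norm_num)

private lemma g1_const_le {c : ℝ} (hc : c ≤ 2 ^ 100) : c ≤ P.x :=
  hc.trans (P.two_pow_le (k := 100) (by norm_num))

private lemma g1_cast_le {p : ℕ} (hp2 : p ≤ 3000000) : (p : ℝ) ≤ 3000000 := by exact_mod_cast hp2

/-- the value on strong pairs -/
private lemma g1_strong_le {p : ℕ} (hp2 : p ≤ 3000000) {ρ c z : ℝ} (hρ0 : 0 ≤ ρ) (hc : c ≤ 300)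
    (hz : z ≤ 5) (hρ : ρ ≤ Real.exp (P.Kp * c + z)) : ρ ^ p ≤ P.X 5000 := by
  have hK : 0 ≤ P.Kp := by
    unfold Par.Kp
    linarith [P.hLam]
  have h1 : ρ ≤ Real.exp (21000 * P.Lam) := by
    refine hρ.trans (Real.exp_le_exp.2 ?_)
    have h2 : P.Kp * c ≤ P.Kp * 300 := mul_le_mul_of_nonneg_left hc hK
    unfold Par.Kp at h2 ⊢
    linarith [P.hLam]
  calc ρ ^ p ≤ Real.exp (21000 * P.Lam) ^ p := pow_le_pow_left₀ hρ0 h1 p
    _ = Real.exp (p * (21000 * P.Lam)) := by rw [← Real.exp_nat_mul]
    _ ≤ Real.exp ((5000 : ℕ) * (1000000000 * P.Lam)) := by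
        apply Real.exp_le_exp.2
        have := g1_cast_le hp2
        have hL := P.hLam
        push_cast
        nlinarith
    _ = Real.exp (1000000000 * P.Lam) ^ 5000 := by rw [Real.exp_nat_mul]
    _ ≤ P.x ^ 5000 := pow_le_pow_left₀ (Real.exp_pos _).le P.hP 5000
    _ = P.X 5000 := by
        unfold Par.X
        exact (zpow_natCast P.x 5000).symm

/-- the bracket `< rho ^ p - 1 + p (1 - rho) >` -/
private lemma g1_bracket (A : Amb P V) {t : ℕ} (ht : t ≤ P.T) {s : St V} (hI : s.Inv A t)
    (hG : s.Good A) {v : V} (hv : v ∉ s.F) {p : ℕ} (hp1 : 1 ≤ p) (hp2 : p ≤ 3000000) :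
    av (fun y => s.R y * g1f p (s.rho v y)) ≤ p * P.y0 * P.X (-10000) := by
  have hr : (0 : ℝ) < P.r := by rw [P.r_eq]; exact P.X_pos _
  have hp1' : (1 : ℝ) ≤ p := by exact_mod_cast hp1
  have hp2' : (p : ℝ) ≤ 3000000 := g1_cast_le hp2
  have hpx : (p : ℝ) ≤ P.x := g1_const_le (by linarith [show (3000000 : ℝ) ≤ 2 ^ 100 by norm_num])
  have hx0 := P.hx0
  have hX : 0 < P.X 5000 := P.X_pos _
  have hzt := g1_zt (P := P) ht
  have hzt0 : 0 ≤ P.zeta * t := mul_nonneg P.zeta_pos.le (Nat.cast_nonneg _)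
  -- pointwise
  have hpt : ∀ y, s.R y * g1f p (s.rho v y) ≤ ((p - 1) * (s.R y * s.bp A v y)
      + (p - 1) * P.x * ind (y = v))
      + (p ^ 2 * P.x * (ind (¬ A.Strong v y) * s.aa v y ^ 2)
      + P.x * (P.X 5000 + p) * ind (A.Strong v y)) := by
    intro y
    have hR0 := hI.Rn y
    have hRx := hG.g1 y
    have t1 : 0 ≤ (p - 1) * (s.R y * s.bp A v y) :=
      mul_nonneg (by linarith) (mul_nonneg hR0 (ind_nonneg _))
    have t2 : 0 ≤ (p - 1) * P.x * ind (y = v) :=
      mul_nonneg (mul_nonneg (by linarith) hx0.le) (ind_nonneg _)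
    have t3 : 0 ≤ p ^ 2 * P.x * (ind (¬ A.Strong v y) * s.aa v y ^ 2) :=
      mul_nonneg (by positivity) (mul_nonneg (ind_nonneg _) (sq_nonneg _))
    have t4 : 0 ≤ P.x * (P.X 5000 + p) * ind (A.Strong v y) :=
      mul_nonneg (by positivity) (ind_nonneg _)
    rcases hR0.eq_or_lt with h0 | hpos
    · rw [← h0, zero_mul]
      rw [← h0] at t1
      linarith
    · have hyF : y ∉ s.F := fun h => hpos.ne' (hI.RF y h)
      by_cases hρ : s.rho v y = 0
      · rw [hρ, g1f_zero hp1]
        by_cases hyv : y = v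
        · have h5 : s.R y * (p - 1) ≤ (p - 1) * P.x * ind (y = v) := by
            rw [ind_pos hyv, mul_one, mul_comm]
            exact mul_le_mul_of_nonneg_left hRx (by linarith)
          linarith
        · have h6 := (hI.bk v y hv hyF (fun h => hyv h.symm)).1 hρ
          have h5 : s.R y * (p - 1) = (p - 1) * (s.R y * s.bp A v y) := by
            unfold St.bp
            rw [ind_pos h6]
            ring
          linarith
      · by_cases hst : A.Strong v y
        · have h7 := hI.i1 v y hst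
          have h8 : P.zeta * t / P.r ≤ 5 := by
            rw [div_le_iff₀ hr, P.r_eq]
            exact hzt
          have h9 := g1_strong_le hp2 (hI.nn v y) (hG.g5 v) h8 h7
          have h10 := g1f_le (p := p) (hI.nn v y)
          have h11 : s.R y * g1f p (s.rho v y) ≤ P.x * (P.X 5000 + p) * ind (A.Strong v y) := by
            rw [ind_pos hst, mul_one]
            calc s.R y * g1f p (s.rho v y) ≤ s.R y * (P.X 5000 + p) :=
                  mul_le_mul_of_nonneg_left (by linarith) hR0
              _ ≤ P.x * (P.X 5000 + p) := mul_le_mul_of_nonneg_right hRx (by positivity)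
          linarith
        · have haa : s.aa v y = |1 - s.rho v y| := by
            unfold St.aa
            rw [ind_pos hρ, mul_one]
          have h12 := hI.i2 v y hst
          have h13 : A.lam v y ≤ P.theta := (not_le.1 hst).le
          have h14 : s.aa v y ≤ P.X (-9598) + 5 * P.X (-34) := by
            refine h12.trans ?_
            have h15 : P.zeta * t * P.X 10006 * A.lam v y ≤ 5 * P.X (-34) := by
              calc P.zeta * t * P.X 10006 * A.lam v y
                  ≤ P.zeta * t * P.X 10006 * P.theta :=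
                    mul_le_mul_of_nonneg_left h13 (mul_nonneg hzt0 (P.X_pos _).le)
                _ ≤ 5 * P.X 10000 * P.X 10006 * P.theta := by
                    refine mul_le_mul_of_nonneg_right ?_ P.theta_pos.le
                    exact mul_le_mul_of_nonneg_right hzt (P.X_pos _).le
                _ = 5 * P.X (-34) := by
                    have e : 5 * P.X 10000 * P.X 10006 * P.theta
                        = 5 * (P.X 10000 * (P.X 10006 * P.X (-20040))) := by
                      unfold Par.theta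
                      ring
                    rw [e, P.X_mul, P.X_mul]
                    norm_num
            have := g1_sS (P := P) ht
            linarith
          have h16 : p * |1 - s.rho v y| ≤ 1 := by
            rw [← haa]
            have h17 : (p : ℝ) * s.aa v y ≤ p * (P.X (-9598) + 5 * P.X (-34)) :=
              mul_le_mul_of_nonneg_left h14 (by linarith)
            have h18 : 2 * p * P.X (-9598) ≤ P.X (-9597) := P.mul_X_le (by
              refine g1_const_le ?_
              linarith [show (6000000 : ℝ) ≤ 2 ^ 100 by norm_num]) (by norm_num)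
            have h19 : 10 * p * P.X (-34) ≤ P.X (-33) := P.mul_X_le (by
              refine g1_const_le ?_
              linarith [show (30000000 : ℝ) ≤ 2 ^ 100 by norm_num]) (by norm_num)
            have h20 : P.X (-9597) ≤ 1 := P.X_le_one (by norm_num)
            have h21 : P.X (-33) ≤ 1 := P.X_le_one (by norm_num)
            nlinarith
          have h22 := g1f_near (hI.nn v y) h16
          have h23 : s.R y * g1f p (s.rho v y)
              ≤ p ^ 2 * P.x * (ind (¬ A.Strong v y) * s.aa v y ^ 2) := by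
            rw [ind_pos hst, one_mul, haa]
            calc s.R y * g1f p (s.rho v y) ≤ s.R y * (p ^ 2 * |1 - s.rho v y| ^ 2) :=
                  mul_le_mul_of_nonneg_left h22 hR0
              _ ≤ P.x * (p ^ 2 * |1 - s.rho v y| ^ 2) :=
                  mul_le_mul_of_nonneg_right hRx (by positivity)
              _ = p ^ 2 * P.x * |1 - s.rho v y| ^ 2 := by ring
          linarith
  -- the average of the bound
  have hcard : ((Fintype.card V : ℕ) : ℝ) = P.X 200000 := by
    rw [A.hc]
    push_cast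
    rw [P.r_eq, P.X_pow]
    norm_num
  have e1 : av (fun y => s.R y * s.bp A v y) ≤ (P.y0 - 1 / 2) * P.X (-10000) := by
    have h := hG.g3 v
    unfold St.Yp at h
    rw [P.r_eq, div_eq_mul_inv, P.X_inv] at h
    exact h
  have e2 : av (fun y => ind (y = v)) = P.X (-200000) := by
    rw [av_ind_eq, hcard, one_div, P.X_inv]
  have e3 : av (fun y => ind (¬ A.Strong v y) * s.aa v y ^ 2) ≤ 25 * P.X (-19772) := by
    refine (hI.i3 v hv).trans ?_
    have h1 : P.zeta * t * P.X (-19886) ≤ 5 * P.X (-9886) := by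
      calc P.zeta * t * P.X (-19886) ≤ 5 * P.X 10000 * P.X (-19886) :=
            mul_le_mul_of_nonneg_right hzt (P.X_pos _).le
        _ = 5 * P.X (-9886) := by rw [mul_assoc, P.X_mul]; norm_num
    calc (P.zeta * t * P.X (-19886)) ^ 2 ≤ (5 * P.X (-9886)) ^ 2 :=
          pow_le_pow_left₀ (mul_nonneg hzt0 (P.X_pos _).le) h1 2
      _ = 25 * P.X (-19772) := by rw [mul_pow, P.X_pow]; norm_num
  have e4 := g1_av_strong A v
  have hav : av (fun y => s.R y * g1f p (s.rho v y)) ≤
      ((p - 1) * ((P.y0 - 1 / 2) * P.X (-10000)) + (p - 1) * P.x * P.X (-200000))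
      + (p ^ 2 * P.x * (25 * P.X (-19772)) + P.x * (P.X 5000 + p) * P.X (-19959)) := by
    refine (av_mono hpt).trans ?_
    rw [av_add, av_add, av_add, av_mul_left, av_mul_left, av_mul_left, av_mul_left, e2]
    have f1 := mul_le_mul_of_nonneg_left e1 (show (0 : ℝ) ≤ p - 1 by linarith)
    have f3 := mul_le_mul_of_nonneg_left e3 (show (0 : ℝ) ≤ p ^ 2 * P.x by positivity)
    have f4 := mul_le_mul_of_nonneg_left e4 (show (0 : ℝ) ≤ P.x * (P.X 5000 + p) by positivity)
    linarith
  refine hav.trans ?_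
  have f2 : (p - 1) * P.x * P.X (-200000) ≤ P.X (-10001) := by
    have : (p - 1) * P.x * P.X (-200000) ≤ P.x * P.X (-199999) := by
      have h1 : P.x * P.X (-200000) = P.X (-199999) := by
        rw [← P.X_one, P.X_mul]; norm_num
      rw [mul_assoc, h1]
      exact mul_le_mul_of_nonneg_right (by linarith) (P.X_pos _).le
    refine this.trans ?_
    have h1 : P.x * P.X (-199999) = P.X (-199998) := by
      rw [← P.X_one, P.X_mul]; norm_num
    rw [h1]
    exact P.X_le (by norm_num)
  have f3 : p ^ 2 * P.x * (25 * P.X (-19772)) ≤ P.X (-10001) := by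
    have h1 : p ^ 2 * P.x * (25 * P.X (-19772)) = (25 * p ^ 2) * P.X (-19771) := by
      have : P.x * P.X (-19772) = P.X (-19771) := by
        rw [← P.X_one, P.X_mul]; norm_num
      rw [← this]
      ring
    rw [h1]
    refine P.mul_X_le (g1_const_le ?_) (by norm_num)
    have : (p : ℝ) ^ 2 ≤ 3000000 ^ 2 := pow_le_pow_left₀ (by linarith) hp2' 2
    linarith [show (25 * 3000000 ^ 2 : ℝ) ≤ 2 ^ 100 by norm_num]
  have f4 : P.x * (P.X 5000 + p) * P.X (-19959) ≤ P.X (-10001) := by
    have h1 : P.X 5000 + p ≤ 2 * P.X 5000 := by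
      have : P.x ≤ P.X 5000 := by rw [← P.X_one]; exact P.X_le (by norm_num)
      linarith
    calc P.x * (P.X 5000 + p) * P.X (-19959) ≤ P.x * (2 * P.X 5000) * P.X (-19959) := by
          refine mul_le_mul_of_nonneg_right ?_ (P.X_pos _).le
          exact mul_le_mul_of_nonneg_left h1 hx0.le
      _ = 2 * (P.X 1 * (P.X 5000 * P.X (-19959))) := by rw [P.X_one]; ring
      _ = 2 * P.X (-14958) := by rw [P.X_mul, P.X_mul]; norm_num
      _ ≤ P.X (-10001) := P.mul_X_le (g1_const_le (by norm_num)) (by norm_num)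
  have f5 : 6 * P.X (-10001) ≤ P.X (-10000) := P.mul_X_le (g1_const_le (by norm_num)) (by norm_num)
  have f6 : 0 < P.X (-10000) := P.X_pos _
  have f7 : (11 : ℝ) ≤ P.y0 := by
    unfold Par.y0
    linarith [P.hLam]
  have f8 : 11 * P.X (-10000) ≤ P.y0 * P.X (-10000) := mul_le_mul_of_nonneg_right f7 f6.le
  have f9 : 0 ≤ (p - 1) * P.X (-10000) := mul_nonneg (by linarith) f6.le
  have f10 : (p - 1) * ((P.y0 - 1 / 2) * P.X (-10000)) = p * P.y0 * P.X (-10000)
      - P.y0 * P.X (-10000) - (p - 1) * P.X (-10000) / 2 := by ring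
  linarith

/-- ONE STEP of the `p`-th moment of `R v` -/
private theorem g1_step (A : Amb P V) (κ : V → V → V → ℝ) {t : ℕ} (ht : t ≤ P.T) {s : St V}
    (hI : s.Inv A t) (hG : s.Good A) (v : V) {p : ℕ} (hp1 : 1 ≤ p) (hp2 : p ≤ 3000000) :
    s.step P κ (fun s' => s'.R v ^ p) ≤
      (1 + P.zeta * (p * P.y0 + 1) * P.X (-10000)) * s.R v ^ p := by
  have hz := P.zeta_pos
  have hx0 := P.hx0
  by_cases hv : v ∈ s.F
  · have h0 : s.R v = 0 := hI.RF v hv
    have hp0 : p ≠ 0 := by omega
    have hstep : s.step P κ (fun s' => s'.R v ^ p) = 0 := by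
      unfold St.step St.take St.skip
      simp only [h0, zero_mul, zero_div, zero_pow hp0, mul_zero, av_zero, add_zero]
    rw [hstep, h0, zero_pow hp0, mul_zero]
  · have hp1' : (1 : ℝ) ≤ p := by exact_mod_cast hp1
    have hp2' : (p : ℝ) ≤ 3000000 := g1_cast_le hp2
    have hB := g1_bracket A ht hI hG hv hp1 hp2
    set B := av (fun y => s.R y * g1f p (s.rho v y)) with hBdef
    set u := P.zeta * s.m0 with hu
    set w := P.zeta * s.m1 v with hw
    have hm0n : 0 ≤ s.m0 := av_nonneg hI.Rn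
    have hm0x : s.m0 ≤ P.x := av_le_const hx0.le hG.g1
    have hm1n : 0 ≤ s.m1 v := av_nonneg fun y => mul_nonneg (hI.Rn y) (hI.nn v y)
    have hm1x : s.m1 v ≤ P.X 4 := by
      refine av_le_const (P.X_pos _).le fun y => ?_
      calc s.R y * s.rho v y ≤ P.x * P.X 3 :=
            mul_le_mul (hG.g1 y) (hI.cr v y) (hI.nn v y) hx0.le
        _ = P.X 4 := by rw [← P.X_one, P.X_mul]; norm_num
    have hu0 : 0 ≤ u := mul_nonneg hz.le hm0n
    have hw0 : 0 ≤ w := mul_nonneg hz.le hm1n
    have hux : u ≤ P.X (-99999) := by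
      calc u ≤ P.zeta * P.x := mul_le_mul_of_nonneg_left hm0x hz.le
        _ = P.X (-99999) := by
          unfold Par.zeta
          rw [← P.X_one, P.X_mul]; norm_num
    have hwx : w ≤ P.X (-99996) := by
      calc w ≤ P.zeta * P.X 4 := mul_le_mul_of_nonneg_left hm1x hz.le
        _ = P.X (-99996) := by
          unfold Par.zeta
          rw [P.X_mul]; norm_num
    have hsmall : 4 * P.X (-99996) ≤ 1 := by
      have := P.mul_X_le (c := 4) (a := -99996) (b := 0) (g1_const_le (by norm_num)) (by norm_num)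
      rwa [P.X_zero] at this
    have huw : P.X (-99999) ≤ P.X (-99996) := P.X_le (by norm_num)
    have hu4 : u ≤ 1 / 4 := by linarith
    have hw1 : w ≤ 1 := by linarith [P.X_pos (-99996)]
    -- the step
    have hstep : s.step P κ (fun s' => s'.R v ^ p) =
        s.R v ^ p * (P.zeta * av (fun y => s.R y * s.rho v y ^ p)
          + (1 - u) * ((1 - w) / (1 - u)) ^ p) := by
      have h1 : av (fun x => s.R x * ((s.take P κ x).R v) ^ p) =
          av (fun y => s.R y * s.rho v y ^ p) * s.R v ^ p := by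
        rw [← av_mul_right]
        refine av_congr fun y => ?_
        change s.R y * (s.R v * s.rho y v) ^ p = _
        rw [hI.sym y v, mul_pow]
        ring
      have h2 : ((s.skip P κ).R v) ^ p = s.R v ^ p * ((1 - w) / (1 - u)) ^ p := by
        change (s.R v * (1 - P.zeta * s.m1 v) / (1 - P.zeta * s.m0)) ^ p = _
        rw [mul_div_assoc, mul_pow]
      change P.zeta * av (fun x => s.R x * ((s.take P κ x).R v) ^ p)
        + (1 - P.zeta * s.m0) * ((s.skip P κ).R v) ^ p = _
      rw [h1, h2]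
      ring
    have hBeq : av (fun y => s.R y * s.rho v y ^ p) = B + s.m0 - p * (s.m0 - s.m1 v) := by
      have : B = av (fun y => s.R y * s.rho v y ^ p) - s.m0 + p * (s.m0 - s.m1 v) := by
        rw [hBdef]
        unfold St.m0 St.m1
        rw [← av_sub, ← av_sub, ← av_mul_left, ← av_add]
        refine av_congr fun y => ?_
        unfold g1f
        ring
      linarith
    set c := (p - 1) * u - p * w with hc
    set d := p * u ^ 2 with hd
    have hskip := g1_skip hu0 hu4 hw0 hw1 hp1
    have hcd : |c + d| ≤ P.X (-99995) := by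
      have h1 : c + d ≤ 3 * p * P.X (-99996) := by
        have h2 : (p - 1) * u ≤ p * P.X (-99996) := by
          calc (p - 1) * u ≤ p * u := by
                refine mul_le_mul_of_nonneg_right (by linarith) hu0
            _ ≤ p * P.X (-99996) := mul_le_mul_of_nonneg_left (by linarith) (by linarith)
        have h3 : 0 ≤ p * w := by positivity
        have h4 : p * u ^ 2 ≤ p * P.X (-99996) := by
          refine mul_le_mul_of_nonneg_left ?_ (by linarith)
          nlinarith
        have h5 : 0 < P.X (-99996) := P.X_pos _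
        have h6 : 0 ≤ p * P.X (-99996) := by
          exact mul_nonneg (by linarith) h5.le
        rw [hc, hd]
        linarith
      have h7 : -(c + d) ≤ 3 * p * P.X (-99996) := by
        have h2 : 0 ≤ (p - 1) * u := mul_nonneg (by linarith) hu0
        have h3 : p * w ≤ p * P.X (-99996) := mul_le_mul_of_nonneg_left hwx (by linarith)
        have h4 : 0 ≤ p * u ^ 2 := by positivity
        have h5 : 0 < P.X (-99996) := P.X_pos _
        have h6 : 0 ≤ p * P.X (-99996) := by
          exact mul_nonneg (by linarith) h5.le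
        rw [hc, hd]
        linarith
      have h8 : 3 * p * P.X (-99996) ≤ P.X (-99995) := P.mul_X_le (by
        refine g1_const_le ?_
        linarith [show (9000000 : ℝ) ≤ 2 ^ 100 by norm_num]) (by norm_num)
      exact abs_le.2 ⟨by linarith, by linarith⟩
    have hcd1 : |c + d| ≤ 1 := hcd.trans (P.X_le_one (by norm_num))
    have hexp : Real.exp (c + d) ≤ 1 + (c + d) + P.X (-199990) := by
      have h1 := (le_abs_self _).trans (Real.abs_exp_sub_one_sub_id_le hcd1)
      have h2 : (c + d) ^ 2 ≤ P.X (-199990) := by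
        rw [← sq_abs]
        calc |c + d| ^ 2 ≤ P.X (-99995) ^ 2 := pow_le_pow_left₀ (abs_nonneg _) hcd 2
          _ = P.X (-199990) := by rw [P.X_pow]; norm_num
      linarith
    have hd2 : d ≤ P.X (-199990) := by
      have h1 : u ^ 2 ≤ P.X (-199998) := by
        calc u ^ 2 ≤ P.X (-99999) ^ 2 := pow_le_pow_left₀ hu0 hux 2
          _ = P.X (-199998) := by rw [P.X_pow]; norm_num
      calc d ≤ p * P.X (-199998) := mul_le_mul_of_nonneg_left h1 (by linarith)
        _ ≤ P.X (-199990) := P.mul_X_le (g1_const_le (by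
            linarith [show (3000000 : ℝ) ≤ 2 ^ 100 by norm_num])) (by norm_num)
    have hsum : 2 * P.X (-199990) ≤ P.zeta * P.X (-10000) := by
      have h1 : P.zeta * P.X (-10000) = P.X (-110000) := by
        unfold Par.zeta
        rw [P.X_mul]; norm_num
      rw [h1]
      exact P.mul_X_le (g1_const_le (by norm_num)) (by norm_num)
    have hbr : P.zeta * av (fun y => s.R y * s.rho v y ^ p) + (1 - u) * ((1 - w) / (1 - u)) ^ p
        ≤ 1 + P.zeta * (p * P.y0 + 1) * P.X (-10000) := by
      have h1 : P.zeta * av (fun y => s.R y * s.rho v y ^ p) = P.zeta * B - c := by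
        rw [hBeq, hc, hu, hw]
        ring
      have h2 : P.zeta * B ≤ P.zeta * (p * P.y0 * P.X (-10000)) :=
        mul_le_mul_of_nonneg_left hB hz.le
      have h4 : P.zeta * (p * P.y0 + 1) * P.X (-10000)
          = P.zeta * (p * P.y0 * P.X (-10000)) + P.zeta * P.X (-10000) := by ring
      rw [h1]
      linarith
    rw [hstep, mul_comm (1 + _)]
    exact mul_le_mul_of_nonneg_left hbr (pow_nonneg (hI.Rn v) p)

/-- one slot: `step R^p ≤ (1 + zeta (p y0 + 1) / r) R^p` -/
theorem step_R_pow (A : Amb P V) {s : St V} {t : ℕ} {κ : V → V → V → ℝ} (hκ : KOK A κ)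
    (ht : t < P.T) (hi : s.Inv A t) (hg : s.Good A) (v : V) {p : ℕ} (hp : p = 3000000) :
    s.step P κ (fun s' => s'.R v ^ p) ≤ (1 + P.zeta * (p * P.y0 + 1) / P.r) * s.R v ^ p := by
  have h := g1_step A κ ht.le hi hg v (p := p) (by omega) (by omega)
  have h1 : P.zeta * (p * P.y0 + 1) / P.r = P.zeta * (p * P.y0 + 1) * P.X (-10000) := by
    rw [P.r_eq, div_eq_mul_inv, P.X_inv]
  rw [h1]
  exact h

private theorem g1_one (A : Amb P V) (hI : IPres A) {t : ℕ} (ht : t ≤ P.T) (v : V) {p : ℕ}
    (hp : p = 3000000) :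
    EE A t (fun s => ind (P.x < s.R v)) ≤ P.X 1 / P.x ^ p := by
  have hz := P.zeta_pos
  have hx0 := P.hx0
  have hy := g1_y0_pos (P := P)
  set a : ℝ := P.zeta * (p * P.y0 + 1) / P.r with ha
  have hr : (0 : ℝ) < P.r := by rw [P.r_eq]; exact P.X_pos _
  have ha0 : 0 ≤ a := by
    rw [ha]
    positivity
  have hgr := EE_growth A hI (Φ := fun s => s.R v ^ p) (a := a) (b := 0) ha0 le_rfl
    (fun t s _ hs => pow_nonneg (hs.Rn v) p)
    (fun t s ht' hs hg => by
      rw [add_zero]
      exact step_R_pow A (kt_ok A t) ht' hs hg v hp) t ht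
  have hgr' : EE A t (fun s => s.R v ^ p) ≤ P.X 1 := by
    refine hgr.trans ?_
    have h0 : (s0 : St V).R v ^ p = 1 := by
      change (1 : ℝ) ^ p = 1
      exact one_pow p
    have h1 : (1 + a) ^ t * ((s0 : St V).R v ^ p + t * 0) = (1 + a) ^ t := by
      rw [h0]
      ring
    rw [h1]
    have h2 : (1 + a) ^ t ≤ Real.exp (t * a) := by
      rw [Real.exp_nat_mul]
      refine pow_le_pow_left₀ (by linarith) ?_ t
      linarith [Real.add_one_le_exp a]
    refine h2.trans ?_
    rw [P.X_one]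
    have hp' : (p : ℝ) = 3000000 := by rw [hp]; norm_num
    have h3 : (t : ℝ) * a ≤ 5 * (p * P.y0 + 1) := by
      have h4 : (t : ℝ) * a = (P.zeta * t) * ((p * P.y0 + 1) / P.r) := by rw [ha]; ring
      rw [h4]
      have h5 : (P.zeta * t) * ((p * P.y0 + 1) / P.r) ≤ (5 * P.X 10000) * ((p * P.y0 + 1) / P.r) :=
        mul_le_mul_of_nonneg_right (g1_zt ht) (by positivity)
      refine h5.trans (le_of_eq ?_)
      rw [← P.r_eq]
      field_simp
    refine le_trans (Real.exp_le_exp.2 ?_) (P.exp_le (c := 1000000000) le_rfl)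
    rw [hp'] at h3
    unfold Par.y0 at h3
    linarith [P.hLam]
  have hm := EE_markov A hI ht (f := fun s => s.R v ^ p) (c := P.x ^ p) (pow_pos hx0 p)
    (Q := fun s => P.x < s.R v) (fun s hs => pow_nonneg (hs.Rn v) p)
    (fun s hs h => pow_le_pow_left₀ hx0.le h.le p)
  exact hm.trans (div_le_div_of_nonneg_right hgr' (pow_pos hx0 p).le)

theorem win1 (A : Amb P V) (hI : IPres A) {t : ℕ} (ht : t ≤ P.T) :
    EE A t (fun s => ind (¬ ∀ v, s.R v ≤ P.x)) ≤ P.X (-1020000) := by
  obtain ⟨p, hp⟩ : ∃ p : ℕ, p = 3000000 := ⟨_, rfl⟩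
  have hxp : P.x ^ p = P.X 3000000 := by
    have : P.X (p : ℤ) = P.x ^ p := zpow_natCast P.x p
    rw [← this, hp]
    norm_num
  have h1 : EE A t (fun s => ind (¬ ∀ v, s.R v ≤ P.x))
      ≤ EE A t (fun s => ∑ v, ind (P.x < s.R v)) := by
    refine EE_mono A hI ht fun s _ => ?_
    by_cases h : ∀ v, s.R v ≤ P.x
    · rw [ind_neg (not_not.2 h)]
      exact Finset.sum_nonneg fun v _ => ind_nonneg _
    · rw [ind_pos h]
      push Not at h
      obtain ⟨v, hv⟩ := h
      calc (1 : ℝ) = ind (P.x < s.R v) := (ind_pos hv).symm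
        _ ≤ ∑ v, ind (P.x < s.R v) :=
            Finset.single_le_sum (f := fun v => ind (P.x < s.R v)) (fun _ _ => ind_nonneg _)
              (Finset.mem_univ v)
  refine h1.trans ?_
  rw [EE_sum]
  have h2 : ∑ v, EE A t (fun s => ind (P.x < s.R v)) ≤ ∑ v : V, P.X 1 / P.x ^ p :=
    Finset.sum_le_sum fun v _ => g1_one A hI ht v hp
  refine h2.trans ?_
  have hcard : ((Fintype.card V : ℕ) : ℝ) = P.X 200000 := by
    rw [A.hc]
    push_cast
    rw [P.r_eq, P.X_pow]
    norm_num
  rw [Finset.sum_const, Finset.card_univ, nsmul_eq_mul, hcard, hxp, P.X_div, P.X_mul]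
  exact P.X_le (by norm_num)

end MP5cA
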