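import Pool.Agent.Lib.MP_5c685b_co.A.R02
import Pool.Agent.Lib.MP_5c685b_co.A.R07

/-!
# Route A', row R14: the window `g7` and the size of `F` (text, section 6)
-/

set_option autoImplicit false
set_option linter.unusedVariables false
set_option linter.unusedSectionVars false

open Finset

namespace MP5cA

variable {V : Type} [Fintype V] [DecidableEq V] {P : Par}

lemma r14_num {c : ℝ} (hc : c ≤ 1000) : c ≤ P.x := by
  have h := P.two_pow_le (k := 10) (by norm_num)
  norm_num at h
  linarith

lemma r14_nonempty (A : Amb P V) : Nonempty V := by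
  rw [← Fintype.card_pos_iff, A.hc]
  have h : (P.r : ℝ) ≠ 0 := by
    rw [P.r_eq]
    exact P.X_ne _
  have h2 : P.r ≠ 0 := by exact_mod_cast h
  positivity

lemma r14_notin {A : Amb P V} {s : St V} {t : ℕ} (hi : s.Inv A t) {x : V} (hx : 0 < s.R x) :
    x ∉ s.F := fun h => absurd (hi.RF x h) hx.ne'

/-- jump of `m0` when a vertex is taken -/
lemma r14_take {A : Amb P V} {s : St V} {t : ℕ} (hi : s.Inv A t) (hg : s.Good A) (ht : t ≤ P.T)
    (κ : V → V → V → ℝ) {x : V} (hx : 0 < s.R x) :
    |(s.take P κ x).m0 - s.m0| ≤ P.X (-9882) := by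
  have h1 : (s.take P κ x).m0 - s.m0 = av fun v => -(s.R v * s.al x v) := by
    unfold St.m0
    rw [← av_sub]
    refine av_congr fun v => ?_
    show s.R v * s.rho x v - s.R v = -(s.R v * s.al x v)
    unfold St.al
    ring
  rw [h1]
  calc |av fun v => -(s.R v * s.al x v)| ≤ av fun v => |-(s.R v * s.al x v)| := abs_av_le _
    _ ≤ av fun v => P.X 1 * |s.al x v| := by
        refine av_mono fun v => ?_
        rw [abs_neg, abs_mul, abs_of_nonneg (hi.Rn v)]
        refine mul_le_mul_of_nonneg_right ?_ (abs_nonneg _)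
        rw [P.X_one]
        exact hg.g1 v
    _ = P.X 1 * av fun v => |s.al x v| := av_mul_left _ _
    _ ≤ P.X 1 * P.X (-9883) := by
        exact mul_le_mul_of_nonneg_left (av_abs_al hi hg ht (r14_notin hi hx)) (P.X_pos _).le
    _ = P.X (-9882) := by rw [P.X_mul]; norm_num

/-- jump of `m0` in an empty slot -/
lemma r14_skip {A : Amb P V} {s : St V} {t : ℕ} (hi : s.Inv A t) (hg : s.Good A) (ht : t ≤ P.T)
    {κ : V → V → V → ℝ} (hκ : KOK A κ) :
    |(s.skip P κ).m0 - s.m0| ≤ P.X (-99996) := by
  have hs := sml hi hg ht hκ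
  have h1 : (s.skip P κ).m0 - s.m0 = av fun v => (s.skip P κ).R v - s.R v := by
    unfold St.m0
    rw [← av_sub]
  rw [h1]
  refine (abs_av_le _).trans (av_le_const (P.X_pos _).le fun v => ?_)
  obtain ⟨q, hq, -, hq2⟩ := hs.skip_R v
  rw [hq, show s.R v * (1 + q) - s.R v = s.R v * q by ring, abs_mul, abs_of_nonneg (hi.Rn v)]
  calc s.R v * |q| ≤ P.X 1 * (P.zeta * P.X 3) :=
        mul_le_mul (hs.R1 v) hq2 (abs_nonneg _) (P.X_pos _).le
    _ = P.X (-99996) := by
        unfold Par.zeta
        rw [P.X_mul, P.X_mul]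
        norm_num

lemma r14_step_neg {s : St V} {κ : V → V → V → ℝ} (f : St V → ℝ) :
    s.step P κ (fun s' => - f s') = - s.step P κ f := by
  unfold St.step
  have h : av (fun x => s.R x * -f (s.take P κ x)) = - av (fun x => s.R x * f (s.take P κ x)) := by
    have h2 := av_mul_left (-1) (fun x => s.R x * f (s.take P κ x))
    rw [neg_one_mul] at h2
    rw [← h2]
    exact av_congr fun x => by ring
  rw [h]
  ring

theorem win7 (A : Amb P V) (hI : IPres A) {t : ℕ} (ht : t ≤ P.T) :
    EE A t (fun s => ind (¬ 9 / 10 ≤ s.m0)) ≤ P.X (-1020000) := by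
  have : Nonempty V := r14_nonempty A
  have hF := EE_freedman A hI (phi := fun s => - s.m0) (θ := P.X 4000) (d := 0)
    (w := P.X (-19760)) (P.X_pos _) le_rfl (P.X_pos _).le
    (by
      intro t s ht hi hg x hx
      have h := r14_take hi hg ht.le (kt A t) hx
      have h2 := (abs_le.1 h).1
      calc P.X 4000 * (-(s.take P (kt A t) x).m0 - -s.m0)
          ≤ P.X 4000 * P.X (-9882) := by
            refine mul_le_mul_of_nonneg_left ?_ (P.X_pos _).le
            linarith
        _ = P.X (-5882) := by rw [P.X_mul]; norm_num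
        _ ≤ 1 := P.X_le_one (by norm_num))
    (by
      intro t s ht hi hg
      have h := r14_skip hi hg ht.le (kt_ok A t)
      have h2 := (abs_le.1 h).1
      calc P.X 4000 * (-(s.skip P (kt A t)).m0 - -s.m0)
          ≤ P.X 4000 * P.X (-99996) := by
            refine mul_le_mul_of_nonneg_left ?_ (P.X_pos _).le
            linarith
        _ = P.X (-95996) := by rw [P.X_mul]; norm_num
        _ ≤ 1 := P.X_le_one (by norm_num))
    (by
      intro t s ht hi hg
      have hs := sml hi hg ht.le (kt_ok A t)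
      have h := hs.step_m0
      rw [r14_step_neg (fun s' => s'.m0), h]
      simp)
    (by
      intro t s ht hi hg
      have hs := sml hi hg ht.le (kt_ok A t)
      have hz := zm0_le A hi hg
      have hzp := P.zeta_pos
      have h1 : av (fun x => s.R x * (-(s.take P (kt A t) x).m0 - -s.m0) ^ 2)
          ≤ P.X 1 * P.X (-19764) := by
        calc av (fun x => s.R x * (-(s.take P (kt A t) x).m0 - -s.m0) ^ 2)
            ≤ av (fun x => s.R x * P.X (-19764)) := by
              refine av_mono fun x => ?_
              rcases (hi.Rn x).eq_or_lt with h0 | h0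
              · rw [← h0, zero_mul, zero_mul]
              · refine mul_le_mul_of_nonneg_left ?_ h0.le
                have h := r14_take hi hg ht.le (kt A t) h0
                have h3 : (-(s.take P (kt A t) x).m0 - -s.m0) ^ 2
                    = |(s.take P (kt A t) x).m0 - s.m0| ^ 2 := by
                  rw [sq_abs]
                  ring
                rw [h3]
                calc |(s.take P (kt A t) x).m0 - s.m0| ^ 2 ≤ P.X (-9882) ^ 2 :=
                      pow_le_pow_left₀ (abs_nonneg _) h 2
                  _ = P.X (-19764) := by rw [P.X_pow]; norm_num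
          _ = av s.R * P.X (-19764) := av_mul_right _ _
          _ ≤ P.X 1 * P.X (-19764) :=
              mul_le_mul_of_nonneg_right hs.m0_le.2 (P.X_pos _).le
      have h2 : (1 - P.zeta * s.m0) * (-(s.skip P (kt A t)).m0 - -s.m0) ^ 2
          ≤ P.X (-199992) := by
        have h := r14_skip hi hg ht.le (kt_ok A t)
        have h3 : (-(s.skip P (kt A t)).m0 - -s.m0) ^ 2
            = |(s.skip P (kt A t)).m0 - s.m0| ^ 2 := by
          rw [sq_abs]
          ring
        have h4 : |(s.skip P (kt A t)).m0 - s.m0| ^ 2 ≤ P.X (-199992) := by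
          calc |(s.skip P (kt A t)).m0 - s.m0| ^ 2 ≤ P.X (-99996) ^ 2 :=
                pow_le_pow_left₀ (abs_nonneg _) h 2
            _ = P.X (-199992) := by rw [P.X_pow]; norm_num
        rw [h3]
        have h5 : 1 - P.zeta * s.m0 ≤ 1 := by
          have := mul_nonneg hzp.le hz.1
          linarith
        calc (1 - P.zeta * s.m0) * |(s.skip P (kt A t)).m0 - s.m0| ^ 2
            ≤ 1 * |(s.skip P (kt A t)).m0 - s.m0| ^ 2 :=
              mul_le_mul_of_nonneg_right h5 (by positivity)
          _ ≤ P.X (-199992) := by rw [one_mul]; exact h4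
      show P.zeta * av (fun x => s.R x * (-(s.take P (kt A t) x).m0 - -s.m0) ^ 2)
        + (1 - P.zeta * s.m0) * (-(s.skip P (kt A t)).m0 - -s.m0) ^ 2 ≤ P.zeta * P.X (-19760)
      have h6 : P.X (-199992) = P.zeta * P.X (-99992) := by
        unfold Par.zeta
        rw [P.X_mul]
        norm_num
      have h7 : P.X 1 * P.X (-19764) + P.X (-99992) ≤ P.X (-19760) := by
        rw [P.X_mul]
        norm_num only
        have h8 : P.X (-99992) ≤ P.X (-19763) := P.X_le (by norm_num)
        have h9 : (2 : ℝ) * P.X (-19763) ≤ P.X (-19760) :=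
          P.mul_X_le (r14_num (by norm_num)) (by norm_num)
        linarith
      calc P.zeta * av (fun x => s.R x * (-(s.take P (kt A t) x).m0 - -s.m0) ^ 2)
            + (1 - P.zeta * s.m0) * (-(s.skip P (kt A t)).m0 - -s.m0) ^ 2
          ≤ P.zeta * (P.X 1 * P.X (-19764)) + P.X (-199992) :=
            add_le_add (mul_le_mul_of_nonneg_left h1 hzp.le) h2
        _ = P.zeta * (P.X 1 * P.X (-19764) + P.X (-99992)) := by rw [h6]; ring
        _ ≤ P.zeta * P.X (-19760) := mul_le_mul_of_nonneg_left h7 hzp.le)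
    (-(9 / 10)) t ht
  have h1 : EE A t (fun s => ind (¬ 9 / 10 ≤ s.m0)) = EE A t (fun s => ind (-(9 / 10) < -s.m0)) := by
    congr 1
    funext s
    refine ind_congr ?_
    rw [not_le, neg_lt_neg_iff]
  rw [h1]
  refine hF.trans ?_
  have hm : (s0 : St V).m0 = 1 := av_const (V := V) 1
  have h2 : P.X 4000 * -(s0 : St V).m0 + 5 * P.X 10000 * (P.X 4000 * 0 + P.X 4000 ^ 2 * P.X (-19760))
      - P.X 4000 * -(9 / 10) = -(P.X 4000 / 10 - 5 * P.X (-1760)) := by
    have h3 : P.X 10000 * (P.X 4000 ^ 2 * P.X (-19760)) = P.X (-1760) := by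
      rw [P.X_pow, P.X_mul, P.X_mul]
      norm_num
    rw [hm]
    calc P.X 4000 * -1 + 5 * P.X 10000 * (P.X 4000 * 0 + P.X 4000 ^ 2 * P.X (-19760))
        - P.X 4000 * -(9 / 10)
        = -(P.X 4000 / 10) + 5 * (P.X 10000 * (P.X 4000 ^ 2 * P.X (-19760))) := by ring
      _ = -(P.X 4000 / 10 - 5 * P.X (-1760)) := by rw [h3]; ring
  show Real.exp (P.X 4000 * -(s0 : St V).m0 + 5 * P.X 10000 *
    (P.X 4000 * 0 + P.X 4000 ^ 2 * P.X (-19760)) - P.X 4000 * -(9 / 10)) ≤ P.X (-1020000)
  rw [h2]
  refine (P.exp_X_le (k := 100) (by norm_num) ?_).trans (P.X_le (by norm_num))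
  have h4 : (20 : ℝ) * P.X 100 ≤ P.X 4000 := P.mul_X_le (r14_num (by norm_num)) (by norm_num)
  have h5 : P.X (-1760) ≤ 1 := P.X_le_one (by norm_num)
  have h6 : (5 : ℝ) * P.X 0 ≤ P.X 100 := P.mul_X_le (r14_num (by norm_num)) (by norm_num)
  rw [P.X_zero] at h6
  linarith

/-- the decay factor -/
lemma r14_exp : (95 : ℝ) / 1000 ≤ 1 - Real.exp (-(1 / 10)) := by
  have h1 := Real.quadratic_le_exp_of_nonneg (x := 1 / 10) (by norm_num)
  norm_num at h1
  have h2 : Real.exp (-(1 / 10)) * Real.exp (1 / 10) = 1 := by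
    rw [← Real.exp_add]
    norm_num
  have h3 : 0 < Real.exp (-(1 / 10)) := Real.exp_pos _
  nlinarith

lemma r14_decay (A : Amb P V) (hI : IPres A) : ∀ t, t ≤ P.T →
    EE A t (fun s => ind (s.Good A) * Real.exp (-(s.F.card : ℝ) / 10))
      ≤ (1 - P.zeta * (855 / 10000)) ^ t := by
  intro t
  induction t with
  | zero =>
    intro _
    rw [EE_zero, pow_zero]
    have h1 : Real.exp (-((s0 : St V).F.card : ℝ) / 10) ≤ 1 := by
      rw [Real.exp_le_one_iff]
      have : (0 : ℝ) ≤ ((s0 : St V).F.card : ℝ) := Nat.cast_nonneg _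
      linarith
    calc ind ((s0 : St V).Good A) * Real.exp (-((s0 : St V).F.card : ℝ) / 10)
        ≤ 1 * 1 := mul_le_mul (ind_le_one _) h1 (Real.exp_pos _).le (by norm_num)
      _ = 1 := by norm_num
  | succ t ih =>
    intro ht
    have ht' : t < P.T := ht
    have hq : 0 ≤ 1 - P.zeta * (855 / 10000) := by
      have : P.zeta ≤ 1 := P.X_le_one (by norm_num)
      linarith
    have h1 : EE A (t + 1) (fun s => ind (s.Good A) * Real.exp (-(s.F.card : ℝ) / 10))
        ≤ EE A t (fun s => (1 - P.zeta * (855 / 10000)) *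
          (ind (s.Good A) * Real.exp (-(s.F.card : ℝ) / 10))) := by
      refine EE_succ_le A hI ht' ?_ ?_
      · intro s hi hg
        have hz := zm0_le A hi hg
        have hzp := P.zeta_pos
        have he : 0 < Real.exp (-(s.F.card : ℝ) / 10) := Real.exp_pos _
        have h2 : av (fun x => s.R x * (ind ((s.take P (kt A t) x).Good A) *
            Real.exp (-((s.take P (kt A t) x).F.card : ℝ) / 10)))
            ≤ s.m0 * (Real.exp (-(s.F.card : ℝ) / 10) * Real.exp (-(1 / 10))) := by
          unfold St.m0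
          rw [← av_mul_right]
          refine av_mono fun x => ?_
          rcases (hi.Rn x).eq_or_lt with h0 | h0
          · rw [← h0, zero_mul, zero_mul]
          · refine mul_le_mul_of_nonneg_left ?_ h0.le
            have hc : (s.take P (kt A t) x).F.card = s.F.card + 1 :=
              Finset.card_insert_of_notMem (r14_notin hi h0)
            rw [hc, ← Real.exp_add]
            have h3 : -((s.F.card + 1 : ℕ) : ℝ) / 10 = -(s.F.card : ℝ) / 10 + -(1 / 10) := by
              push_cast
              ring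
            rw [h3]
            calc ind ((s.take P (kt A t) x).Good A) * Real.exp (-(s.F.card : ℝ) / 10 + -(1 / 10))
                ≤ 1 * Real.exp (-(s.F.card : ℝ) / 10 + -(1 / 10)) :=
                  mul_le_mul_of_nonneg_right (ind_le_one _) (Real.exp_pos _).le
              _ = _ := one_mul _
        have h4 : (1 - P.zeta * s.m0) * (ind ((s.skip P (kt A t)).Good A) *
            Real.exp (-((s.skip P (kt A t)).F.card : ℝ) / 10))
            ≤ (1 - P.zeta * s.m0) * Real.exp (-(s.F.card : ℝ) / 10) := by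
          refine mul_le_mul_of_nonneg_left ?_ (by linarith [hz.2])
          calc ind ((s.skip P (kt A t)).Good A) *
              Real.exp (-((s.skip P (kt A t)).F.card : ℝ) / 10)
              ≤ 1 * Real.exp (-((s.skip P (kt A t)).F.card : ℝ) / 10) :=
                mul_le_mul_of_nonneg_right (ind_le_one _) (Real.exp_pos _).le
            _ = Real.exp (-(s.F.card : ℝ) / 10) := by rw [one_mul]; rfl
        rw [ind_pos hg, one_mul]
        show P.zeta * av (fun x => s.R x * (ind ((s.take P (kt A t) x).Good A) *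
            Real.exp (-((s.take P (kt A t) x).F.card : ℝ) / 10)))
          + (1 - P.zeta * s.m0) * (ind ((s.skip P (kt A t)).Good A) *
            Real.exp (-((s.skip P (kt A t)).F.card : ℝ) / 10)) ≤ _
        have h5 := r14_exp
        have h6 := hg.g7
        have h7 : (855 : ℝ) / 10000 ≤ s.m0 * (1 - Real.exp (-(1 / 10))) := by
          nlinarith
        calc _ ≤ P.zeta * (s.m0 * (Real.exp (-(s.F.card : ℝ) / 10) * Real.exp (-(1 / 10))))
              + (1 - P.zeta * s.m0) * Real.exp (-(s.F.card : ℝ) / 10) :=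
              add_le_add (mul_le_mul_of_nonneg_left h2 hzp.le) h4
          _ = (1 - P.zeta * (s.m0 * (1 - Real.exp (-(1 / 10))))) *
                Real.exp (-(s.F.card : ℝ) / 10) := by ring
          _ ≤ (1 - P.zeta * (855 / 10000)) * Real.exp (-(s.F.card : ℝ) / 10) := by
              refine mul_le_mul_of_nonneg_right ?_ he.le
              have := mul_le_mul_of_nonneg_left h7 hzp.le
              linarith
      · intro s hi hg
        rw [ind_neg hg, zero_mul, mul_zero]
    rw [EE_mul] at h1
    calc _ ≤ (1 - P.zeta * (855 / 10000)) *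
          EE A t (fun s => ind (s.Good A) * Real.exp (-(s.F.card : ℝ) / 10)) := h1
      _ ≤ (1 - P.zeta * (855 / 10000)) * (1 - P.zeta * (855 / 10000)) ^ t :=
          mul_le_mul_of_nonneg_left (ih ht'.le) hq
      _ = (1 - P.zeta * (855 / 10000)) ^ (t + 1) := by rw [pow_succ]; ring

/-- `F` has at least `4 r` vertices at the end -/
theorem size_F (A : Amb P V) (hI : IPres A) :
    EE A P.T (fun s => ind (s.Good A ∧ s.F.card < 4 * P.r)) ≤ P.X (-1020000) := by
  have h1 : EE A P.T (fun s => ind (s.Good A ∧ s.F.card < 4 * P.r))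
      ≤ EE A P.T (fun s => Real.exp (4 / 10 * P.X 10000) *
        (ind (s.Good A) * Real.exp (-(s.F.card : ℝ) / 10))) := by
    refine EE_mono A hI le_rfl fun s _ => ?_
    by_cases h : s.Good A ∧ s.F.card < 4 * P.r
    · rw [ind_pos h, ind_pos h.1, one_mul, ← Real.exp_add]
      rw [← Real.exp_zero]
      apply Real.exp_le_exp.2
      have h2 : (s.F.card : ℝ) < 4 * (P.r : ℝ) := by exact_mod_cast h.2
      rw [P.r_eq] at h2
      linarith
    · rw [ind_neg h]
      exact mul_nonneg (Real.exp_pos _).le (mul_nonneg (ind_nonneg _) (Real.exp_pos _).le)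
  rw [EE_mul] at h1
  have h2 := r14_decay A hI P.T le_rfl
  have h3 : (1 - P.zeta * (855 / 10000)) ^ P.T ≤ Real.exp (-(4275 / 10000 * P.X 10000)) := by
    have hz : P.zeta ≤ 1 := P.X_le_one (by norm_num)
    calc (1 - P.zeta * (855 / 10000)) ^ P.T ≤ Real.exp (-(P.zeta * (855 / 10000))) ^ P.T := by
          refine pow_le_pow_left₀ (by linarith) ?_ _
          exact Real.one_sub_le_exp_neg _
      _ = Real.exp (-(4275 / 10000 * P.X 10000)) := by
          rw [← Real.exp_nat_mul]
          congr 1
          have h4 := P.zeta_T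
          calc (P.T : ℝ) * -(P.zeta * (855 / 10000)) = -(P.zeta * P.T) * (855 / 10000) := by ring
            _ = -(4275 / 10000 * P.X 10000) := by rw [h4]; ring
  calc EE A P.T (fun s => ind (s.Good A ∧ s.F.card < 4 * P.r))
      ≤ Real.exp (4 / 10 * P.X 10000) * Real.exp (-(4275 / 10000 * P.X 10000)) :=
        h1.trans (mul_le_mul_of_nonneg_left (h2.trans h3) (Real.exp_pos _).le)
    _ = Real.exp (-(275 / 10000 * P.X 10000)) := by
        rw [← Real.exp_add]
        congr 1
        ring
    _ ≤ P.X (-2000000) := by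
        refine P.exp_X_le (k := 100) (by norm_num) ?_
        have h4 : (40 : ℝ) * P.X 100 ≤ P.X 10000 :=
          P.mul_X_le (r14_num (by norm_num)) (by norm_num)
        linarith [P.X_pos 100]
    _ ≤ P.X (-1020000) := P.X_le (by norm_num)

end MP5cA
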