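import Pool.Agent.Lib.MP_5c685b_co.A.R02
import Pool.Agent.Lib.MP_5c685b_co.A.R07

/-!
# Route A', row R15: the window `g8` (text, section 6)
-/

set_option autoImplicit false
set_option linter.unusedVariables false
set_option linter.unusedSectionVars false

open Finset

namespace MP5cA

section g8aux

variable {V : Type} [Fintype V] [DecidableEq V] {P : Par} {A : Amb P V}

lemma g8_nonempty (A : Amb P V) : Nonempty V := by
  rw [← Fintype.card_pos_iff, A.hc]
  have h0 : (0 : ℝ) < P.r := by rw [P.r_eq]; exact P.X_pos _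
  have h1 : 0 < P.r := by exact_mod_cast h0
  positivity

lemma g8_card (A : Amb P V) : (Fintype.card V : ℝ) = P.X 200000 := by
  rw [A.hc]
  push_cast
  rw [P.r_eq, P.X_pow]
  norm_num

lemma g8_step_sub_self (κ : V → V → V → ℝ) (f : St V → ℝ) (s : St V) :
    s.step P κ f - f s = P.zeta * av (fun x => s.R x * (f (s.take P κ x) - f s)) +
      (1 - P.zeta * s.m0) * (f (s.skip P κ) - f s) := by
  have h1 : av (fun x => s.R x * (f (s.take P κ x) - f s)) =
      av (fun x => s.R x * f (s.take P κ x)) - s.m0 * f s := by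
    unfold St.m0
    rw [← av_mul_right, ← av_sub]
    exact av_congr fun x => by ring
  rw [h1]
  unfold St.step
  ring

namespace Amb

lemma g8_h_symm (u w v : V) : A.h u w v = A.h u v w := by
  unfold Amb.h
  exact ind_congr ⟨A.s2 u w v, A.s2 u v w⟩

lemma g8_h_nonneg (u v w : V) : 0 ≤ A.h u v w := ind_nonneg _

lemma g8_h_le_one (u v w : V) : A.h u v w ≤ 1 := ind_le_one _

lemma g8_h_deg (u v : V) : av (fun w => A.h u w v) ≤ P.eps := by
  refine le_trans (le_of_eq (av_congr fun w => g8_h_symm u w v)) ?_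
  exact A.he u v

lemma g8_h_deg' (w v : V) : av (fun u => A.h u w v) ≤ P.eps := by
  refine le_trans (le_of_eq (av_congr fun u => ?_)) (A.he w v)
  unfold Amb.h
  exact ind_congr ⟨fun h => A.s2 _ _ _ (A.s1 _ _ _ h), fun h => A.s1 _ _ _ (A.s2 _ _ _ h)⟩

end Amb

namespace St

variable {s : St V} {κ : V → V → V → ℝ}

lemma g8_U_take (x u w : V) :
    (s.take P κ x).U u w = s.U u w * (s.rho x u * s.rho x w * κ x u w) := by
  unfold U take
  ring

lemma g8_U_skip (u w : V) (h0 : 1 - P.zeta * s.m0 ≠ 0) (hu : 1 - P.zeta * s.m1 u ≠ 0)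
    (hw : 1 - P.zeta * s.m1 w ≠ 0) :
    (s.skip P κ).U u w = s.U u w * (1 - P.zeta * s.m2 κ u w) / (1 - P.zeta * s.m0) := by
  unfold U skip
  simp only
  field_simp

lemma g8_QQ_take (v x : V) : (s.take P κ x).QQ A v
    = av fun u => av fun w => A.h u w v * (s.U u w * (s.rho x u * s.rho x w * κ x u w)) := by
  unfold QQ
  refine av_congr fun u => av_congr fun w => ?_
  rw [g8_U_take]

lemma g8_QQ_skip (v : V) (h0 : 1 - P.zeta * s.m0 ≠ 0) (h1 : ∀ u, 1 - P.zeta * s.m1 u ≠ 0) :
    (1 - P.zeta * s.m0) * (s.skip P κ).QQ A v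
    = av fun u => av fun w => A.h u w v * (s.U u w * (1 - P.zeta * s.m2 κ u w)) := by
  unfold QQ
  rw [← av_mul_left]
  refine av_congr fun u => ?_
  rw [← av_mul_left]
  refine av_congr fun w => ?_
  rw [g8_U_skip u w h0 (h1 u) (h1 w)]
  field_simp

/-- `QQ` is a martingale -/
lemma g8_step_QQ (v : V) (hsym : ∀ v w, s.rho v w = s.rho w v)
    (k1 : ∀ u v w, κ u v w = κ v u w) (k2 : ∀ u v w, κ u v w = κ u w v)
    (h0 : 1 - P.zeta * s.m0 ≠ 0) (h1 : ∀ u, 1 - P.zeta * s.m1 u ≠ 0) :
    s.step P κ (fun s' => s'.QQ A v) = s.QQ A v := by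
  unfold step
  rw [g8_QQ_skip v h0 h1]
  have h2 : av (fun x => s.R x * (s.take P κ x).QQ A v)
      = av fun u => av fun w => A.h u w v * (s.U u w * s.m2 κ u w) := by
    have e1 : ∀ x, s.R x * (s.take P κ x).QQ A v = av fun u => av fun w =>
        A.h u w v * s.U u w * (s.R x * s.rho u x * s.rho w x * κ u w x) := by
      intro x
      rw [g8_QQ_take, ← av_mul_left]
      refine av_congr fun u => ?_
      rw [← av_mul_left]
      refine av_congr fun w => ?_
      rw [hsym x u, hsym x w, show κ x u w = κ u w x by rw [k1 x u w, k2 u x w]]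
      ring
    rw [av_congr e1, av_comm]
    refine av_congr fun u => ?_
    rw [av_comm]
    refine av_congr fun w => ?_
    rw [av_mul_left]
    unfold m2
    ring
  rw [h2, ← av_mul_left]
  unfold QQ
  rw [← av_add]
  refine av_congr fun u => ?_
  rw [← av_mul_left, ← av_add]
  refine av_congr fun w => ?_
  ring

/-- increment of `QQ` when `x` is taken -/
lemma g8_delta (v x : V) : (s.take P κ x).QQ A v - s.QQ A v
    = av fun u => av fun w => A.h u w v * s.U u w * (s.rho x u * s.rho x w * κ x u w - 1) := by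
  rw [g8_QQ_take]
  unfold QQ
  rw [← av_sub]
  refine av_congr fun u => ?_
  rw [← av_sub]
  refine av_congr fun w => ?_
  ring

/-! ### bounds of the factor -/

/-- hypotheses used for the window `g8` (all of them hold at good states) -/
structure G8H (A : Amb P V) (s : St V) : Prop where
  R0 : ∀ v, 0 ≤ s.R v
  R1 : ∀ v, s.R v ≤ P.x
  r0 : ∀ v w, 0 ≤ s.rho v w
  r1 : ∀ v w, s.rho v w ≤ P.x
  sy : ∀ v w, s.rho v w = s.rho w v
  dg : ∀ v, s.rho v v = 0
  a1 : ∀ v, v ∉ s.F → av (fun w => s.aa v w) ≤ P.X (-9883)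
  a2 : ∀ v, v ∉ s.F → av (fun w => |s.al v w|) ≤ P.X (-9883)

lemma g8_aa_nonneg (v w : V) : 0 ≤ s.aa v w := mul_nonneg (abs_nonneg _) (ind_nonneg _)

lemma g8_aa_of (v w : V) (h : s.rho v w ≠ 0) : s.aa v w = |1 - s.rho v w| := by
  unfold aa
  rw [ind_pos h, mul_one]

lemma g8_TT_ind_nonneg (x u w : V) : 0 ≤ ind (A.TT x u w) := ind_nonneg _

lemma g8_expKp (P : Par) : Real.exp P.Kp ≤ P.x := by
  refine le_trans (Real.exp_le_exp.2 ?_) (P.exp_le (c := 1000) (by norm_num))
  unfold Par.Kp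
  have := P.hLam
  linarith

lemma g8_kap_nonneg (hκ : KOK A κ) (x u w : V) : 0 ≤ κ x u w := by
  by_cases h1 : A.H x u w ∨ ¬ Amb.D3 x u w
  · rw [hκ.kH x u w h1]
  · push Not at h1
    by_cases h2 : A.TT x u w
    · exact (Real.exp_pos _).le.trans (hκ.kl x u w h2)
    · rw [hκ.k1 x u w h1.2 h1.1 h2]; norm_num

lemma g8_kap_le (hκ : KOK A κ) (x u w : V) : κ x u w ≤ P.x := by
  by_cases h1 : A.H x u w ∨ ¬ Amb.D3 x u w
  · rw [hκ.kH x u w h1]; exact P.hx0.le
  · push Not at h1
    by_cases h2 : A.TT x u w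
    · exact (hκ.ku x u w h2).trans (g8_expKp P)
    · rw [hκ.k1 x u w h1.2 h1.1 h2]; exact P.one_le_x

lemma g8_up (hs : G8H A s) (hκ : KOK A κ) (x u w : V) :
    s.rho x u * s.rho x w * κ x u w - 1
      ≤ P.x * s.aa x u + s.aa x w + P.x ^ 3 * ind (A.TT x u w) := by
  have hx := P.hx0
  have hp0 := hs.r0 x u
  have hq0 := hs.r0 x w
  have hp1 := hs.r1 x u
  have hq1 := hs.r1 x w
  have ha := g8_aa_nonneg (s := s) x u
  have hb := g8_aa_nonneg (s := s) x w
  have hk0 := g8_kap_nonneg hκ x u w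
  have hk1 := g8_kap_le hκ x u w
  by_cases h1 : A.H x u w ∨ ¬ Amb.D3 x u w
  · rw [hκ.kH x u w h1]
    have := ind_nonneg (A.TT x u w)
    have : 0 ≤ P.x * s.aa x u + s.aa x w + P.x ^ 3 * ind (A.TT x u w) := by positivity
    linarith
  · push Not at h1
    by_cases h2 : A.TT x u w
    · rw [ind_pos h2]
      have h3 : s.rho x u * s.rho x w * κ x u w ≤ P.x * P.x * P.x := by gcongr
      have : 0 ≤ P.x * s.aa x u := by positivity
      nlinarith
    · rw [hκ.k1 x u w h1.2 h1.1 h2, ind_neg h2]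
      by_cases hp : s.rho x u = 0
      · rw [hp]
        have : 0 ≤ P.x * s.aa x u := by positivity
        linarith
      · by_cases hq : s.rho x w = 0
        · rw [hq]
          have : 0 ≤ P.x * s.aa x u := by positivity
          linarith
        · rw [g8_aa_of x u hp, g8_aa_of x w hq]
          have e1 := neg_abs_le (1 - s.rho x u)
          have e2 := neg_abs_le (1 - s.rho x w)
          have e3 : (s.rho x u - 1) * s.rho x w ≤ |1 - s.rho x u| * P.x := by
            calc (s.rho x u - 1) * s.rho x w ≤ |1 - s.rho x u| * s.rho x w :=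
                  mul_le_mul_of_nonneg_right (by linarith) hq0
              _ ≤ |1 - s.rho x u| * P.x := mul_le_mul_of_nonneg_left hq1 (abs_nonneg _)
          nlinarith

lemma g8_abs (hs : G8H A s) (hκ : KOK A κ) (x u w : V) (huw : u ≠ w) :
    |s.rho x u * s.rho x w * κ x u w - 1|
      ≤ P.x * |s.al x u| + |s.al x w| + P.x ^ 3 * A.hh x u w := by
  have hx := P.hx0
  have hx1 := P.one_le_x
  have hp0 := hs.r0 x u
  have hq0 := hs.r0 x w
  have hp1 := hs.r1 x u
  have hq1 := hs.r1 x w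
  have hk0 := g8_kap_nonneg hκ x u w
  have hk1 := g8_kap_le hκ x u w
  have hhn : 0 ≤ A.hh x u w := ind_nonneg _
  have e0 : 0 ≤ P.x * |s.al x u| := by positivity
  have e0' := abs_nonneg (s.al x w)
  by_cases h3 : Amb.D3 x u w
  · by_cases h1 : A.H x u w
    · have h4 : A.hh x u w = 1 := ind_pos (Or.inl h1)
      rw [hκ.kH x u w (Or.inl h1), h4]
      have : (1 : ℝ) ≤ P.x ^ 3 := one_le_pow₀ hx1
      rw [mul_zero, zero_sub, abs_neg, abs_one]
      linarith
    · by_cases h2 : A.TT x u w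
      · have h4 : A.hh x u w = 1 := ind_pos (Or.inr h2)
        rw [h4]
        have h5 : s.rho x u * s.rho x w * κ x u w ≤ P.x * P.x * P.x := by gcongr
        have h6 : 0 ≤ s.rho x u * s.rho x w * κ x u w := by positivity
        have : (1 : ℝ) ≤ P.x ^ 3 := one_le_pow₀ hx1
        rw [abs_le]
        constructor
        · nlinarith
        · nlinarith
      · rw [hκ.k1 x u w h3 h1 h2]
        have h5 : s.rho x u * s.rho x w * 1 - 1 = -(s.al x u * s.rho x w) - s.al x w := by
          unfold al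
          ring
        rw [h5]
        have h6 : |-(s.al x u * s.rho x w) - s.al x w| ≤ |s.al x u| * s.rho x w + |s.al x w| := by
          calc _ ≤ |-(s.al x u * s.rho x w)| + |s.al x w| := abs_sub _ _
            _ = |s.al x u| * s.rho x w + |s.al x w| := by
              rw [abs_neg, abs_mul, abs_of_nonneg hq0]
        have h7 : |s.al x u| * s.rho x w ≤ |s.al x u| * P.x :=
          mul_le_mul_of_nonneg_left hq1 (abs_nonneg _)
        have h8 : 0 ≤ P.x ^ 3 * A.hh x u w := by positivity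
        linarith
  · rw [hκ.kH x u w (Or.inr h3), mul_zero, zero_sub, abs_neg, abs_one]
    have h8 : 0 ≤ P.x ^ 3 * A.hh x u w := by positivity
    have h9 : x = u ∨ x = w := by
      by_contra h
      push Not at h
      exact h3 ⟨h.1, h.2, huw⟩
    rcases h9 with h | h
    · have h10 : s.al x u = 1 := by
        unfold al
        rw [← h, hs.dg x]
        ring
      rw [h10, abs_one]
      linarith
    · have h10 : s.al x w = 1 := by
        unfold al
        rw [← h, hs.dg x]
        ring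
      rw [h10, abs_one]
      linarith

lemma g8_U_nonneg (hs : G8H A s) (u w : V) : 0 ≤ s.U u w := by
  unfold U
  exact mul_nonneg (mul_nonneg (hs.R0 u) (hs.R0 w)) (hs.r0 u w)

lemma g8_U_le (hs : G8H A s) (u w : V) : s.U u w ≤ P.x ^ 3 := by
  unfold U
  have h1 := hs.R0 u
  have h2 := hs.R0 w
  have h3 := hs.R1 u
  have h4 := hs.R1 w
  have h5 := hs.r0 u w
  have h6 := hs.r1 u w
  have hx := P.hx0
  have hxx : 0 ≤ P.x * P.x := by positivity
  calc s.R u * s.R w * s.rho u w ≤ P.x * P.x * P.x := by gcongr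
    _ = P.x ^ 3 := by ring

/-! ### averages -/

lemma g8_av_h_mul (v : V) (f : V → ℝ) (hf : ∀ u, 0 ≤ f u) :
    av (fun u => av fun w => A.h u w v * f u) ≤ P.eps * av f := by
  rw [← av_mul_left]
  refine av_mono fun u => ?_
  rw [av_mul_right]
  exact mul_le_mul_of_nonneg_right (Amb.g8_h_deg u v) (hf u)

lemma g8_av_h_mul' (v : V) (f : V → ℝ) (hf : ∀ u, 0 ≤ f u) :
    av (fun u => av fun w => A.h u w v * f w) ≤ P.eps * av f := by
  rw [av_comm, ← av_mul_left]
  refine av_mono fun w => ?_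
  rw [av_mul_right]
  exact mul_le_mul_of_nonneg_right (Amb.g8_h_deg' w v) (hf w)

/-- three-term decomposition used for both bounds -/
lemma g8_three (hs : G8H A s) (v : V) (E f g : V → ℝ) (k : V → V → ℝ) (Ef : V → V → ℝ)
    (hf : ∀ u, 0 ≤ f u) (hg : ∀ u, 0 ≤ g u) (hk : ∀ u w, 0 ≤ k u w)
    (hE : ∀ u w, u ≠ w → Ef u w ≤ P.x * f u + g w + P.x ^ 3 * k u w) :
    av (fun u => av fun w => A.h u w v * s.U u w * Ef u w)
      ≤ P.x ^ 4 * (P.eps * av f) + P.x ^ 3 * (P.eps * av g)
        + P.x ^ 6 * av (fun u => av fun w => A.h u w v * k u w) := by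
  have hx := P.hx0
  calc av (fun u => av fun w => A.h u w v * s.U u w * Ef u w)
      ≤ av (fun u => av fun w => P.x ^ 4 * (A.h u w v * f u) + P.x ^ 3 * (A.h u w v * g w)
          + P.x ^ 6 * (A.h u w v * k u w)) := by
        refine av_mono fun u => av_mono fun w => ?_
        have hh := Amb.g8_h_nonneg (A := A) u w v
        have hU := g8_U_nonneg hs u w
        have hU1 := g8_U_le hs u w
        have h1 := hf u
        have h2 := hg w
        have h3 := hk u w
        by_cases huw : u = w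
        · have : A.h u w v = 0 := ind_neg fun h => (A.hd _ _ _ h).1 huw
          rw [this]
          simp
        · have h4 : A.h u w v * s.U u w * Ef u w
              ≤ A.h u w v * s.U u w * (P.x * f u + g w + P.x ^ 3 * k u w) :=
            mul_le_mul_of_nonneg_left (hE u w huw) (mul_nonneg hh hU)
          have h5 : A.h u w v * s.U u w * (P.x * f u + g w + P.x ^ 3 * k u w)
              ≤ A.h u w v * P.x ^ 3 * (P.x * f u + g w + P.x ^ 3 * k u w) := by
            have : 0 ≤ P.x * f u + g w + P.x ^ 3 * k u w := by positivity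
            gcongr
          refine h4.trans (h5.trans (le_of_eq ?_))
          ring
    _ = P.x ^ 4 * av (fun u => av fun w => A.h u w v * f u)
        + P.x ^ 3 * av (fun u => av fun w => A.h u w v * g w)
        + P.x ^ 6 * av (fun u => av fun w => A.h u w v * k u w) := by
        rw [← av_mul_left, ← av_mul_left, ← av_mul_left, ← av_add, ← av_add]
        refine av_congr fun u => ?_
        rw [← av_mul_left, ← av_mul_left, ← av_mul_left, ← av_add, ← av_add]
    _ ≤ _ := by
        have h1 := g8_av_h_mul (A := A) v f hf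
        have h2 := g8_av_h_mul' (A := A) v g hg
        gcongr

/-! ### numbers -/

lemma g8_eps_le (P : Par) : P.eps ≤ P.X (-19999) := by
  unfold Par.eps
  calc P.Lam * P.X (-20000) ≤ P.X (-20000 + 1) := P.mul_X_le P.Lam_le_x (by norm_num)
    _ = P.X (-19999) := by norm_num

lemma g8_x_pow (P : Par) (k : ℕ) : P.x ^ k = P.X k := by
  unfold Par.X
  exact (zpow_natCast P.x k).symm

lemma g8_const_le (P : Par) {c : ℝ} (hc : c ≤ 1000) : c ≤ P.x := by
  refine hc.trans ?_
  have h := P.two_pow_le (k := 10) (by norm_num)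
  norm_num at h
  linarith

/-- products of powers -/
lemma g8_XX (P : Par) {a b c : ℝ} {i j k l : ℤ} (ha0 : 0 ≤ b) (hb0 : 0 ≤ c)
    (ha : a ≤ P.X i) (hb : b ≤ P.X j) (hc : c ≤ P.X k) (h : i + j + k ≤ l) :
    a * (b * c) ≤ P.X l := by
  calc a * (b * c) ≤ P.X i * (P.X j * P.X k) := by
        have h1 := P.X_pos i
        have h2 := P.X_pos j
        have h3 : b * c ≤ P.X j * P.X k := mul_le_mul hb hc hb0 h2.le
        exact mul_le_mul ha h3 (mul_nonneg ha0 hb0) h1.le
    _ = P.X (i + j + k) := by rw [P.X_mul, P.X_mul]; ring_nf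
    _ ≤ P.X l := P.X_le h

/-- upward jumps -/
lemma g8_delta_up (hs : G8H A s) (hκ : KOK A κ)
    (hst : ∀ v : V, av (fun y => ind (A.Strong v y)) ≤ P.X (-19958))
    (hTT : ∀ u v w, A.TT u v w → A.Strong u v) (v x : V) (hx : x ∉ s.F) :
    (s.take P κ x).QQ A v - s.QQ A v ≤ P.X (-29800) := by
  have h0 := P.hx0
  rw [g8_delta]
  refine (g8_three hs v (fun _ => 0) (s.aa x) (s.aa x) (fun u w => ind (A.TT x u w)) _
    (g8_aa_nonneg x) (g8_aa_nonneg x) (fun _ _ => ind_nonneg _)
    (fun u w _ => g8_up hs hκ x u w)).trans ?_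
  have ha := hs.a1 x hx
  have ha0 : 0 ≤ av (s.aa x) := av_nonneg (g8_aa_nonneg x)
  have he := g8_eps_le P
  have he0 := P.eps_pos.le
  have h1 : P.x ^ 4 * (P.eps * av (s.aa x)) ≤ P.X (-29878) :=
    g8_XX P he0 ha0 (le_of_eq (g8_x_pow P 4)) he ha (by norm_num)
  have h2 : P.x ^ 3 * (P.eps * av (s.aa x)) ≤ P.X (-29878) :=
    g8_XX P he0 ha0 (le_of_eq (g8_x_pow P 3)) he ha (by norm_num)
  have h3 : av (fun u => av fun w => A.h u w v * ind (A.TT x u w)) ≤ P.X (-19999) * P.X (-19958) := by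
    calc av (fun u => av fun w => A.h u w v * ind (A.TT x u w))
        ≤ av (fun u => av fun w => A.h u w v * ind (A.Strong x u)) := by
          refine av_mono fun u => av_mono fun w => ?_
          exact mul_le_mul_of_nonneg_left (ind_mono (hTT x u w)) (Amb.g8_h_nonneg _ _ _)
      _ ≤ P.eps * av (fun u => ind (A.Strong x u)) :=
          g8_av_h_mul v _ fun _ => ind_nonneg _
      _ ≤ P.X (-19999) * P.X (-19958) :=
          mul_le_mul he (hst x) (av_nonneg fun _ => ind_nonneg _) (P.X_pos _).le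
  have h4 : P.x ^ 6 * av (fun u => av fun w => A.h u w v * ind (A.TT x u w)) ≤ P.X (-29878) := by
    calc _ ≤ P.x ^ 6 * (P.X (-19999) * P.X (-19958)) := by gcongr
      _ ≤ P.X (-29878) := g8_XX P (P.X_pos _).le (P.X_pos _).le (le_of_eq (g8_x_pow P 6))
          le_rfl le_rfl (by norm_num)
  have h5 : 3 * P.X (-29878) ≤ P.X (-29800) :=
    P.mul_X_le (g8_const_le P (by norm_num)) (by norm_num)
  linarith

lemma g8_lamh_nonneg (v x : V) : 0 ≤ A.lamh v x :=
  av_nonneg fun u => av_nonneg fun w => mul_nonneg (Amb.g8_h_nonneg _ _ _) (ind_nonneg _)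

/-- absolute bound of the jumps -/
lemma g8_delta_abs (hs : G8H A s) (hκ : KOK A κ) (v x : V) (hx : x ∉ s.F) :
    |(s.take P κ x).QQ A v - s.QQ A v| ≤ P.X (-29877) + P.X 6 * A.lamh v x := by
  have h0 := P.hx0
  rw [g8_delta]
  have key : av (fun u => av fun w => A.h u w v * s.U u w *
      |s.rho x u * s.rho x w * κ x u w - 1|) ≤ P.X (-29877) + P.X 6 * A.lamh v x := by
    refine (g8_three hs v (fun _ => 0) (fun u => |s.al x u|) (fun u => |s.al x u|)
      (fun u w => A.hh x u w) _ (fun _ => abs_nonneg _) (fun _ => abs_nonneg _)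
      (fun _ _ => ind_nonneg _) (fun u w huw => g8_abs hs hκ x u w huw)).trans ?_
    have ha := hs.a2 x hx
    have ha0 : 0 ≤ av (fun u => |s.al x u|) := av_nonneg fun _ => abs_nonneg _
    have he := g8_eps_le P
    have he0 := P.eps_pos.le
    have h1 : P.x ^ 4 * (P.eps * av (fun u => |s.al x u|)) ≤ P.X (-29878) :=
      g8_XX P he0 ha0 (le_of_eq (g8_x_pow P 4)) he ha (by norm_num)
    have h2 : P.x ^ 3 * (P.eps * av (fun u => |s.al x u|)) ≤ P.X (-29878) :=
      g8_XX P he0 ha0 (le_of_eq (g8_x_pow P 3)) he ha (by norm_num)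
    have h5 : 2 * P.X (-29878) ≤ P.X (-29877) :=
      P.mul_X_le (g8_const_le P (by norm_num)) (by norm_num)
    have h6 : P.x ^ 6 = P.X 6 := g8_x_pow P 6
    have h7 : av (fun u => av fun w => A.h u w v * A.hh x u w) = A.lamh v x := rfl
    rw [h7, h6]
    linarith
  refine le_trans (abs_av_le _) (le_trans (av_mono fun u => abs_av_le _) ?_)
  refine le_trans (le_of_eq (av_congr fun u => av_congr fun w => ?_)) key
  rw [abs_mul, abs_of_nonneg (mul_nonneg (Amb.g8_h_nonneg _ _ _) (g8_U_nonneg hs u w))]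

lemma g8_lamh_le (v x : V) : A.lamh v x ≤ P.eps := by
  have := g8_nonempty A
  unfold Amb.lamh
  refine av_le_const P.eps_pos.le fun u => ?_
  refine le_trans (av_mono fun w => ?_) (Amb.g8_h_deg (A := A) u v)
  exact mul_le_of_le_one_right (Amb.g8_h_nonneg _ _ _) (ind_le_one _)

lemma g8_av_lamh (hhh : ∀ u w : V, u ≠ w → av (fun x => A.hh x u w) ≤ P.X (-19957)) (v : V) :
    av (fun x => A.lamh v x) ≤ P.eps * P.X (-19957) := by
  have := g8_nonempty A
  unfold Amb.lamh
  rw [av_comm]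
  refine av_le_const (mul_nonneg P.eps_pos.le (P.X_pos _).le) fun u => ?_
  rw [av_comm]
  calc av (fun w => av fun x => A.h u w v * A.hh x u w)
      ≤ av (fun w => A.h u w v * P.X (-19957)) := by
        refine av_mono fun w => ?_
        rw [av_mul_left]
        by_cases huw : u = w
        · have : A.h u w v = 0 := ind_neg fun h => (A.hd _ _ _ h).1 huw
          rw [this]
          simp
        · exact mul_le_mul_of_nonneg_left (hhh u w huw) (Amb.g8_h_nonneg _ _ _)
    _ = av (fun w => A.h u w v) * P.X (-19957) := av_mul_right _ _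
    _ ≤ P.eps * P.X (-19957) :=
        mul_le_mul_of_nonneg_right (Amb.g8_h_deg u v) (P.X_pos _).le

/-- second moment of the jumps at the takes -/
lemma g8_second (hs : G8H A s) (hκ : KOK A κ)
    (hhh : ∀ u w : V, u ≠ w → av (fun x => A.hh x u w) ≤ P.X (-19957)) (v : V)
    (hRF : ∀ x ∈ s.F, s.R x = 0) :
    av (fun x => s.R x * ((s.take P κ x).QQ A v - s.QQ A v) ^ 2) ≤ P.X (-59730) := by
  have h0 := P.hx0
  have e1 : ∀ x, s.R x * ((s.take P κ x).QQ A v - s.QQ A v) ^ 2
      ≤ P.X 1 * (2 * P.X (-59740)) + P.X 1 * (2 * P.X 12 * P.eps) * A.lamh v x := by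
    intro x
    have hl0 := g8_lamh_nonneg (A := A) v x
    have hl1 := g8_lamh_le (A := A) v x
    have he0 := P.eps_pos.le
    have hX1 := P.X_pos 1
    have hX12 := P.X_pos 12
    have hX59 := P.X_pos (-59740)
    by_cases hx : x ∈ s.F
    · rw [hRF x hx, zero_mul]
      positivity
    · have h1 : |(s.take P κ x).QQ A v - s.QQ A v| ≤ P.X (-29870) + P.X 6 * A.lamh v x := by
        have h1' := g8_delta_abs hs hκ v x hx
        have h1'' : P.X (-29877) ≤ P.X (-29870) := P.X_le (by norm_num)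
        linarith
      have h2 : ((s.take P κ x).QQ A v - s.QQ A v) ^ 2 ≤ (P.X (-29870) + P.X 6 * A.lamh v x) ^ 2 := by
        rw [← sq_abs]
        have := P.X_pos (-29870)
        have := P.X_pos 6
        gcongr
      have h3 : (P.X (-29870) + P.X 6 * A.lamh v x) ^ 2
          ≤ 2 * P.X (-59740) + 2 * P.X 12 * P.eps * A.lamh v x := by
        have e2 : P.X (-29870) ^ 2 = P.X (-59740) := by rw [P.X_pow]; norm_num
        have e3 : P.X 6 ^ 2 = P.X 12 := by rw [P.X_pow]; norm_num
        have e4 : (P.X (-29870) + P.X 6 * A.lamh v x) ^ 2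
            ≤ 2 * P.X (-29870) ^ 2 + 2 * (P.X 6 * A.lamh v x) ^ 2 := by
          nlinarith [sq_nonneg (P.X (-29870) - P.X 6 * A.lamh v x)]
        have e5 : (P.X 6 * A.lamh v x) ^ 2 ≤ P.X 12 * P.eps * A.lamh v x := by
          rw [mul_pow, e3, sq (A.lamh v x), mul_assoc]
          gcongr
        rw [e2] at e4
        linarith
      have h4 : s.R x ≤ P.X 1 := by rw [P.X_one]; exact hs.R1 x
      have h5 := hs.R0 x
      calc s.R x * ((s.take P κ x).QQ A v - s.QQ A v) ^ 2
          ≤ P.X 1 * (2 * P.X (-59740) + 2 * P.X 12 * P.eps * A.lamh v x) :=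
            mul_le_mul h4 (h2.trans h3) (sq_nonneg _) hX1.le
        _ = _ := by ring
  have := g8_nonempty A
  refine (av_mono e1).trans ?_
  rw [av_add, av_const, av_mul_left]
  have h1 : P.X 1 * (2 * P.X (-59740)) ≤ P.X (-59738) := by
    have : 2 * P.X (-59740) ≤ P.X (-59739) :=
      P.mul_X_le (g8_const_le P (by norm_num)) (by norm_num)
    calc P.X 1 * (2 * P.X (-59740)) ≤ P.X 1 * P.X (-59739) :=
          mul_le_mul_of_nonneg_left this (P.X_pos _).le
      _ = P.X (-59738) := by rw [P.X_mul]; norm_num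
  have h2 : P.X 1 * (2 * P.X 12 * P.eps) * av (fun x => A.lamh v x) ≤ P.X (-59738) := by
    have h3 := g8_av_lamh (A := A) hhh v
    have he := g8_eps_le P
    have he0 := P.eps_pos.le
    have h4 : (2 : ℝ) ≤ P.X 1 := by rw [P.X_one]; exact g8_const_le P (by norm_num)
    have h5 : av (fun x => A.lamh v x) ≤ P.X (-19999) * P.X (-19957) :=
      h3.trans (mul_le_mul_of_nonneg_right he (P.X_pos _).le)
    have h50 : 0 ≤ av (fun x => A.lamh v x) := av_nonneg fun x => g8_lamh_nonneg v x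
    have h6 : 2 * P.X 12 * P.eps ≤ P.X 1 * P.X 12 * P.X (-19999) :=
      mul_le_mul (mul_le_mul_of_nonneg_right h4 (P.X_pos _).le) he he0
        (mul_nonneg (P.X_pos _).le (P.X_pos _).le)
    calc P.X 1 * (2 * P.X 12 * P.eps) * av (fun x => A.lamh v x)
        ≤ P.X 1 * (P.X 1 * P.X 12 * P.X (-19999)) * (P.X (-19999) * P.X (-19957)) := by
          refine mul_le_mul (mul_le_mul_of_nonneg_left h6 (P.X_pos _).le) h5 h50 ?_
          exact mul_nonneg (P.X_pos _).le
            (mul_nonneg (mul_nonneg (P.X_pos _).le (P.X_pos _).le) (P.X_pos _).le)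
      _ = P.X (-59941) := by
          simp only [P.X_mul]
          norm_num
      _ ≤ P.X (-59738) := P.X_le (by norm_num)
  have h3 : 2 * P.X (-59738) ≤ P.X (-59730) :=
    P.mul_X_le (g8_const_le P (by norm_num)) (by norm_num)
  linarith

/-! ### the step -/

lemma g8_X_le_exp (P : Par) : P.X 2000000 ≤ Real.exp P.x := by
  have h0 := P.hx0
  set L := Real.log P.x with hL
  have hexp : Real.exp L = P.x := Real.exp_log h0
  have hL9 : (1000000000 : ℝ) ≤ L := by
    rw [hL, Real.le_log_iff_exp_le h0]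
    exact P.exp_const_le le_rfl
  have h1 : P.X 2000000 = Real.exp (2000000 * L) := by
    have h2 : P.X 2000000 = P.x ^ 2000000 := (g8_x_pow P 2000000).symm
    rw [h2, ← hexp, ← Real.exp_nat_mul]
    norm_num
  rw [h1]
  refine Real.exp_le_exp.2 ?_
  rw [← hexp]
  have h3 := Real.quadratic_le_exp_of_nonneg (x := L) (by linarith)
  nlinarith

lemma g8_zm0 (hs : G8H A s) : P.zeta * s.m0 ≤ 1 / 2 := by
  have := g8_nonempty A
  have h1 : s.m0 ≤ P.x := av_le_const P.hx0.le hs.R1
  have h2 : P.zeta * s.m0 ≤ P.X (-100000) * P.X 1 := by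
    rw [P.X_one]
    exact mul_le_mul_of_nonneg_left h1 (P.X_pos _).le
  have h3 : 2 * (P.X (-100000) * P.X 1) ≤ 1 := by
    rw [P.X_mul, ← P.X_zero]
    exact P.mul_X_le (g8_const_le P (by norm_num)) (by norm_num)
  linarith

lemma g8_zm1 (hs : G8H A s) (u : V) : P.zeta * s.m1 u ≤ 1 / 2 := by
  have := g8_nonempty A
  have h0 := P.hx0
  have h1 : s.m1 u ≤ P.x * P.x := av_le_const (by positivity) fun y =>
    mul_le_mul (hs.R1 y) (hs.r1 u y) (hs.r0 u y) h0.le
  have h2 : P.zeta * s.m1 u ≤ P.X (-100000) * (P.X 1 * P.X 1) := by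
    rw [P.X_one]
    exact mul_le_mul_of_nonneg_left h1 (P.X_pos _).le
  have h3 : 2 * (P.X (-100000) * (P.X 1 * P.X 1)) ≤ 1 := by
    rw [P.X_mul, P.X_mul, ← P.X_zero]
    exact P.mul_X_le (g8_const_le P (by norm_num)) (by norm_num)
  linarith

lemma g8_mart (hs : G8H A s) (hκ : KOK A κ) (v : V) :
    s.step P κ (fun s' => s'.QQ A v) = s.QQ A v := by
  refine g8_step_QQ v hs.sy hκ.s1 hκ.s2 ?_ fun u => ?_
  · have := g8_zm0 hs
    intro h
    linarith
  · have := g8_zm1 hs u
    intro h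
    linarith

/-- the increment at an empty slot -/
lemma g8_skip (hs : G8H A s) (hκ : KOK A κ) (hRF : ∀ x ∈ s.F, s.R x = 0) (v : V) :
    |(s.skip P κ).QQ A v - s.QQ A v| ≤ P.X (-100000) := by
  have := g8_nonempty A
  have h0 := P.hx0
  have h1 := g8_step_sub_self (P := P) κ (fun s' => s'.QQ A v) s
  rw [g8_mart hs hκ v, sub_self] at h1
  have hz := g8_zm0 hs
  have h2 : |P.zeta * av (fun x => s.R x * ((s.take P κ x).QQ A v - s.QQ A v))|
      ≤ P.X (-100000) * (P.X 1 * P.X (-19990)) := by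
    rw [abs_mul, abs_of_pos P.zeta_pos]
    refine mul_le_mul_of_nonneg_left ?_ (P.X_pos _).le
    refine (abs_av_le _).trans (av_le_const (mul_nonneg (P.X_pos _).le (P.X_pos _).le) fun x => ?_)
    rw [abs_mul, abs_of_nonneg (hs.R0 x)]
    by_cases hx : x ∈ s.F
    · rw [hRF x hx, zero_mul]
      exact mul_nonneg (P.X_pos _).le (P.X_pos _).le
    · refine mul_le_mul (by rw [P.X_one]; exact hs.R1 x) ?_ (abs_nonneg _) (P.X_pos _).le
      refine (g8_delta_abs hs hκ v x hx).trans ?_
      have h3 : P.X 6 * A.lamh v x ≤ P.X 6 * P.X (-19999) :=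
        mul_le_mul_of_nonneg_left ((g8_lamh_le v x).trans (g8_eps_le P)) (P.X_pos _).le
      rw [P.X_mul] at h3
      have h4 : P.X (-29877) ≤ P.X (6 + -19999) := P.X_le (by norm_num)
      have h5 : 2 * P.X (6 + -19999) ≤ P.X (-19990) :=
        P.mul_X_le (g8_const_le P (by norm_num)) (by norm_num)
      linarith
  have h3 : (1 - P.zeta * s.m0) * |(s.skip P κ).QQ A v - s.QQ A v|
      ≤ P.X (-100000) * (P.X 1 * P.X (-19990)) := by
    have h4 : (1 - P.zeta * s.m0) * ((s.skip P κ).QQ A v - s.QQ A v)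
        = -(P.zeta * av (fun x => s.R x * ((s.take P κ x).QQ A v - s.QQ A v))) := by
      linarith
    calc (1 - P.zeta * s.m0) * |(s.skip P κ).QQ A v - s.QQ A v|
        = |(1 - P.zeta * s.m0) * ((s.skip P κ).QQ A v - s.QQ A v)| := by
          rw [abs_mul, abs_of_nonneg (by linarith : (0 : ℝ) ≤ 1 - P.zeta * s.m0)]
      _ ≤ _ := by rw [h4, abs_neg]; exact h2
  have h5 : |(s.skip P κ).QQ A v - s.QQ A v| ≤ 2 * (P.X (-100000) * (P.X 1 * P.X (-19990))) := by
    have := abs_nonneg ((s.skip P κ).QQ A v - s.QQ A v)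
    nlinarith
  refine h5.trans ?_
  rw [P.X_mul, P.X_mul]
  exact P.mul_X_le (g8_const_le P (by norm_num)) (by norm_num)

end St

end g8aux

variable {V : Type} [Fintype V] [DecidableEq V] {P : Par}

variable {A : Amb P V} {s : St V} {t : ℕ} {κ : V → V → V → ℝ}

attribute [local irreducible] Par.X

lemma g8_hyp (ht : t < P.T) (hi : s.Inv A t) (hg : s.Good A) : St.G8H A s where
  R0 := hi.Rn
  R1 := hg.g1
  r0 := hi.nn
  r1 := fun v w => (rho_le hi hg ht.le v w).trans (le_of_eq P.X_one)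
  sy := hi.sym
  dg := hi.rd
  a1 := fun v hv => (av_aa hi hg ht.le hv).trans (P.X_le (by norm_num))
  a2 := fun v hv => av_abs_al hi hg ht.le hv

lemma g8_notF (hi : s.Inv A t) {x : V} (hx : 0 < s.R x) : x ∉ s.F := fun h => by
  rw [hi.RF x h] at hx
  exact lt_irrefl 0 hx

theorem step_QQ (hκ : KOK A κ) (ht : t < P.T) (hi : s.Inv A t) (hg : s.Good A) (v : V) :
    s.step P κ (fun s' => s'.QQ A v) = s.QQ A v :=
  St.g8_mart (g8_hyp ht hi hg) hκ v

/-- absolute jump -/
theorem QQ_take_abs (hκ : KOK A κ) (ht : t < P.T) (hi : s.Inv A t) (hg : s.Good A) (v : V) {x : V}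
    (hx : 0 < s.R x) :
    |(s.take P κ x).QQ A v - s.QQ A v| ≤ P.X (-29877) + P.X 6 * A.lamh v x :=
  St.g8_delta_abs (g8_hyp ht hi hg) hκ v x (g8_notF hi hx)

/-- upward jump -/
theorem QQ_take_up (hκ : KOK A κ) (ht : t < P.T) (hi : s.Inv A t) (hg : s.Good A) (v : V) {x : V}
    (hx : 0 < s.R x) : (s.take P κ x).QQ A v - s.QQ A v ≤ P.X (-29800) :=
  St.g8_delta_up (g8_hyp ht hi hg) hκ (fun v => A.av_strong v)
    (fun u v w h => (Amb.strong_of_TT A h).1) v x (g8_notF hi hx)

theorem QQ_skip (hκ : KOK A κ) (ht : t < P.T) (hi : s.Inv A t) (hg : s.Good A) (v : V) :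
    |(s.skip P κ).QQ A v - s.QQ A v| ≤ P.zeta * P.X 10 := by
  refine (St.g8_skip (g8_hyp ht hi hg) hκ hi.RF v).trans ?_
  have h1 : P.zeta = P.X (-100000) := rfl
  rw [h1, P.X_mul]
  exact P.X_le (by norm_num)

theorem g8_step_sq (hκ : KOK A κ) (ht : t < P.T) (hi : s.Inv A t) (hg : s.Good A) (v : V) :
    s.step P κ (fun τ => (τ.QQ A v - s.QQ A v) ^ 2) ≤ P.zeta * P.X (-59729) := by
  have hs := g8_hyp ht hi hg
  have hz := St.g8_zm0 hs
  have hsk := St.g8_skip hs hκ hi.RF v
  have h1 := g8_step_sub_self (P := P) κ (fun τ : St V => (τ.QQ A v - s.QQ A v) ^ 2) s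
  simp only [sub_self, ne_eq, OfNat.ofNat_ne_zero, not_false_eq_true, zero_pow, sub_zero] at h1
  rw [h1]
  have hz0 : P.zeta = P.X (-100000) := rfl
  have h2 : P.zeta * av (fun x => s.R x * ((s.take P κ x).QQ A v - s.QQ A v) ^ 2)
      ≤ P.X (-159730) := by
    rw [hz0]
    calc _ ≤ P.X (-100000) * P.X (-59730) :=
          mul_le_mul_of_nonneg_left (St.g8_second hs hκ (fun u w _ => A.av_hh1 u w) v hi.RF)
            (P.X_pos _).le
      _ = P.X (-159730) := by rw [P.X_mul]; norm_num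
  have h3 : (1 - P.zeta * s.m0) * ((s.skip P κ).QQ A v - s.QQ A v) ^ 2 ≤ P.X (-159730) := by
    have hm0 : 0 ≤ P.zeta * s.m0 := mul_nonneg P.zeta_pos.le (av_nonneg hs.R0)
    calc (1 - P.zeta * s.m0) * ((s.skip P κ).QQ A v - s.QQ A v) ^ 2
        ≤ 1 * P.X (-100000) ^ 2 := by
          refine mul_le_mul (by linarith) ?_ (sq_nonneg _) zero_le_one
          rw [← sq_abs]
          exact pow_le_pow_left₀ (abs_nonneg _) hsk 2
      _ = P.X (-200000) := by rw [one_mul, P.X_pow]; norm_num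
      _ ≤ P.X (-159730) := P.X_le (by norm_num)
  have h4 : 2 * P.X (-159730) ≤ P.X (-159729) :=
    P.mul_X_le (St.g8_const_le P (by norm_num)) (by norm_num)
  have h5 : P.zeta * P.X (-59729) = P.X (-159729) := by
    rw [hz0, P.X_mul]; norm_num
  rw [h5]
  linarith

lemma g8_s0 (v : V) : (s0 : St V).QQ A v ≤ P.eps := by
  have := g8_nonempty A
  unfold St.QQ
  refine av_le_const P.eps_pos.le fun u => ?_
  refine le_trans (av_mono fun w => ?_) (Amb.g8_h_deg (A := A) u v)
  refine mul_le_of_le_one_right (Amb.g8_h_nonneg _ _ _) ?_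
  unfold St.U s0
  simp only [one_mul]
  exact ind_le_one _

theorem g8_one (hI : IPres A) {t : ℕ} (ht : t ≤ P.T) (v : V) :
    EE A t (fun s => ind (2 * P.eps < s.QQ A v)) ≤ P.X (-1220000) := by
  have h0 := P.hx0
  have h1 := EE_freedman A hI (phi := fun s : St V => s.QQ A v) (θ := P.X 22500) (d := 0)
    (w := P.X (-59729)) (P.X_pos _) le_rfl (P.X_pos _).le
    (fun j s hj hInv hG x hx => by
      have h2 := QQ_take_up (kt_ok A j) hj hInv hG v hx
      calc P.X 22500 * ((s.take P (kt A j) x).QQ A v - s.QQ A v) ≤ P.X 22500 * P.X (-29800) :=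
            mul_le_mul_of_nonneg_left h2 (P.X_pos _).le
        _ ≤ 1 := by rw [P.X_mul]; exact P.X_le_one (by norm_num))
    (fun j s hj hInv hG => by
      have h2 := (le_abs_self _).trans (St.g8_skip (g8_hyp hj hInv hG) (kt_ok A j) hInv.RF v)
      calc P.X 22500 * ((s.skip P (kt A j)).QQ A v - s.QQ A v) ≤ P.X 22500 * P.X (-100000) :=
            mul_le_mul_of_nonneg_left h2 (P.X_pos _).le
        _ ≤ 1 := by rw [P.X_mul]; exact P.X_le_one (by norm_num))
    (fun j s hj hInv hG => by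
      rw [step_QQ (kt_ok A j) hj hInv hG v]
      simp)
    (fun j s hj hInv hG => g8_step_sq (kt_ok A j) hj hInv hG v)
    (2 * P.eps) t ht
  refine h1.trans ?_
  have h2 := g8_s0 (A := A) v
  have h3 : P.X 22500 * (s0 : St V).QQ A v ≤ P.X 22500 * P.eps :=
    mul_le_mul_of_nonneg_left h2 (P.X_pos _).le
  have h4 : 5 * P.X 10000 * (P.X 22500 * 0 + P.X 22500 ^ 2 * P.X (-59729)) ≤ 1 := by
    have e1 : 5 * P.X 10000 * (P.X 22500 * 0 + P.X 22500 ^ 2 * P.X (-59729))
        = 5 * P.X (-4729) := by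
      rw [mul_zero, zero_add, P.X_pow, P.X_mul, mul_assoc, P.X_mul]
      norm_num
    rw [e1, ← P.X_zero]
    exact P.mul_X_le (St.g8_const_le P (by norm_num)) (by norm_num)
  have h7 : P.X 2500 ≤ P.X 22500 * P.eps := by
    unfold Par.eps
    have h8 : P.X 22500 * (P.Lam * P.X (-20000)) = P.Lam * P.X 2500 := by
      rw [show P.X 22500 * (P.Lam * P.X (-20000)) = P.Lam * (P.X 22500 * P.X (-20000)) by ring,
        P.X_mul]
      norm_num
    rw [h8]
    have h9 := P.X_pos 2500
    nlinarith [P.hLam]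
  have h8 : P.X 22500 * (s0 : St V).QQ A v
      + 5 * P.X 10000 * (P.X 22500 * 0 + P.X 22500 ^ 2 * P.X (-59729))
      - P.X 22500 * (2 * P.eps) ≤ -P.x := by
    have h9 : P.X 2500 = P.X 1 * P.X 2499 := by rw [P.X_mul]; norm_num
    have h10 : (2 : ℝ) ≤ P.X 2499 := by
      have h11 : 2 * P.X 2498 ≤ P.X 2499 :=
        P.mul_X_le (St.g8_const_le P (by norm_num)) (by norm_num)
      have h12 : 1 ≤ P.X 2498 := P.one_le_X (by norm_num)
      linarith
    have h13 : (1 : ℝ) ≤ P.x := P.one_le_x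
    rw [P.X_one] at h9
    nlinarith
  calc _ ≤ Real.exp (-P.x) := Real.exp_le_exp.2 h8
    _ = (Real.exp P.x)⁻¹ := Real.exp_neg _
    _ ≤ (P.X 2000000)⁻¹ := inv_anti₀ (P.X_pos _) (St.g8_X_le_exp P)
    _ = P.X (-2000000) := P.X_inv _
    _ ≤ P.X (-1220000) := P.X_le (by norm_num)

theorem win8 (A : Amb P V) (hI : IPres A) {t : ℕ} (ht : t ≤ P.T) :
    EE A t (fun s => ind (¬ ∀ v, s.QQ A v ≤ 2 * P.eps)) ≤ P.X (-1020000) := by
  have h1 : EE A t (fun s => ind (¬ ∀ v, s.QQ A v ≤ 2 * P.eps))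
      ≤ EE A t (fun s => ∑ v, ind (2 * P.eps < s.QQ A v)) := by
    refine EE_mono A hI ht fun s _ => ?_
    by_cases h : ∀ v, s.QQ A v ≤ 2 * P.eps
    · rw [ind_neg (not_not.2 h)]
      exact sum_nonneg fun _ _ => ind_nonneg _
    · rw [ind_pos h]
      push Not at h
      obtain ⟨v, hv⟩ := h
      have h2 : ind (2 * P.eps < s.QQ A v) = 1 := ind_pos hv
      rw [← h2]
      exact single_le_sum (f := fun v => ind (2 * P.eps < s.QQ A v))
        (fun _ _ => ind_nonneg _) (mem_univ v)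
  rw [EE_sum] at h1
  refine h1.trans ((sum_le_sum fun v _ => g8_one hI ht v).trans ?_)
  rw [sum_const, card_univ, nsmul_eq_mul, g8_card A, P.X_mul]
  norm_num

end MP5cA
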