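import Pool.Agent.Lib.MP_5c685b_co.A.R02
import Pool.Agent.Lib.MP_5c685b_co.A.R07

/-!
Route A', row R16: the window `g3` (text, section 6)
-/

set_option autoImplicit false
set_option linter.unusedVariables false
set_option linter.unusedSectionVars false

open Finset

namespace MP5cA

variable {V : Type} [Fintype V] [DecidableEq V] {P : Par}

variable {A : Amb P V} {s : St V} {t : ℕ} {κ : V → V → V → ℝ}

theorem R16_n_eq (A : Amb P V) : (Fintype.card V : ℝ) = P.X 200000 := by
  rw [A.hc]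
  push_cast
  rw [P.r_eq, P.X_pow]
  norm_num

theorem R16_nonempty (A : Amb P V) : Nonempty V := by
  rw [← Fintype.card_pos_iff]
  have h1 : (0 : ℝ) < (Fintype.card V : ℝ) := by
    rw [R16_n_eq A]
    exact P.X_pos _
  exact_mod_cast h1

theorem R16_bp_take (v w x : V) :
    (s.take P κ x).bp A v w = s.bp A v w + A.h x v w * (1 - s.bp A v w) := by
  unfold St.bp St.take Amb.h
  simp only
  by_cases h1 : ∃ u ∈ s.F, A.H u v w
  · obtain ⟨u, hu, hH⟩ := h1
    rw [ind_pos (p := ∃ u ∈ insert x s.F, A.H u v w) ⟨u, Finset.mem_insert_of_mem hu, hH⟩,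
      ind_pos (p := ∃ u ∈ s.F, A.H u v w) ⟨u, hu, hH⟩]
    ring
  · rw [ind_neg h1]
    by_cases h2 : A.H x v w
    · rw [ind_pos (p := ∃ u ∈ insert x s.F, A.H u v w) ⟨x, Finset.mem_insert_self _ _, h2⟩, ind_pos h2]
      ring
    · rw [ind_neg h2, ind_neg]
      · ring
      · rintro ⟨u, hu, hH⟩
        rcases Finset.mem_insert.1 hu with rfl | hu
        · exact h2 hH
        · exact h1 ⟨u, hu, hH⟩

/-- the new blocked vertices -/
noncomputable def R16_new (A : Amb P V) (s : St V) (v x : V) : ℝ :=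
  av fun w => s.R w * (s.rho x w * (A.h x v w * (1 - s.bp A v w)))

theorem R16_take_eq (v x : V) :
    (s.take P κ x).Yp A v - s.Yp A v =
      av (fun w => s.R w * ((s.rho x w - 1) * s.bp A v w)) + R16_new A s v x := by
  unfold St.Yp R16_new
  rw [← av_sub, ← av_add]
  apply av_congr
  intro w
  rw [R16_bp_take]
  have : (s.take P κ x).R w = s.R w * s.rho x w := rfl
  rw [this]
  ring

theorem R16_new_nonneg (hi : s.Inv A t) (v x : V) : 0 ≤ R16_new A s v x := by
  unfold R16_new
  apply av_nonneg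
  intro w
  have h1 := hi.Rn w
  have h2 := hi.nn x w
  have h3 := A.h_nonneg x v w
  have h4 : 0 ≤ 1 - s.bp A v w := by linarith [bp_le_one (A := A) (s := s) v w]
  positivity

theorem R16_eps_le {c : ℝ} (hc : 0 ≤ c) {a b : ℤ} (h : a + 1 - 20000 ≤ b) : P.X a * P.eps ≤ P.X b := by
  unfold Par.eps
  calc P.X a * (P.Lam * P.X (-20000)) = P.Lam * (P.X a * P.X (-20000)) := by ring
    _ = P.Lam * P.X (a + -20000) := by rw [P.X_mul]
    _ ≤ P.X b := P.mul_X_le P.Lam_le_x (by omega)

theorem R16_new_le (hi : s.Inv A t) (hg : s.Good A) (ht : t ≤ P.T) (v x : V) :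
    R16_new A s v x ≤ P.X (-19997) := by
  unfold R16_new
  have h0 : av (fun w => s.R w * (s.rho x w * (A.h x v w * (1 - s.bp A v w)))) ≤
      av (fun w => P.X 2 * A.h x v w) := by
    apply av_mono
    intro w
    have h1 := hi.Rn w
    have h2 := hi.nn x w
    have h3 := A.h_nonneg x v w
    have h4 : 0 ≤ 1 - s.bp A v w := by linarith [bp_le_one (A := A) (s := s) v w]
    have h5 : 1 - s.bp A v w ≤ 1 := by linarith [bp_nonneg (A := A) (s := s) v w]
    have h6 : s.R w ≤ P.X 1 := by rw [P.X_one]; exact hg.g1 w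
    have h7 := rho_le hi hg ht x w
    have h8 : s.R w * s.rho x w ≤ P.X 2 := by
      calc s.R w * s.rho x w ≤ P.X 1 * P.X 1 := mul_le_mul h6 h7 h2 (P.X_pos 1).le
        _ = P.X 2 := by rw [P.X_mul]; norm_num
    calc s.R w * (s.rho x w * (A.h x v w * (1 - s.bp A v w)))
        = (s.R w * s.rho x w) * (A.h x v w * (1 - s.bp A v w)) := by ring
      _ ≤ P.X 2 * (A.h x v w * 1) := by
          apply mul_le_mul h8 _ (by positivity) (P.X_pos 2).le
          exact mul_le_mul_of_nonneg_left h5 h3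
      _ = P.X 2 * A.h x v w := by ring
  calc _ ≤ _ := h0
    _ = P.X 2 * av (fun w => A.h x v w) := av_mul_left _ _
    _ ≤ P.X 2 * P.eps := mul_le_mul_of_nonneg_left (A.av_h x v) (P.X_pos 2).le
    _ ≤ P.X (-19997) := R16_eps_le (c := 0) le_rfl (by norm_num)

/-- drift of `Y'` -/
theorem step_Yp (hκ : KOK A κ) (ht : t < P.T) (hi : s.Inv A t) (hg : s.Good A) (v : V) :
    s.step P κ (fun s' => s'.Yp A v) - s.Yp A v ≤ P.zeta * (2 * P.eps) := by
  have hz := zm0_le A hi hg
  have hne : 1 - P.zeta * s.m0 ≠ 0 := by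
    have := hz.2
    intro h
    linarith
  have hskip : (1 - P.zeta * s.m0) * (s.skip P κ).Yp A v =
      s.Yp A v - P.zeta * av (fun w => s.R w * (s.m1 w * s.bp A v w)) := by
    unfold St.Yp
    rw [← av_mul_left, ← av_mul_left, ← av_sub]
    apply av_congr
    intro w
    have h1 : (s.skip P κ).R w = s.R w * (1 - P.zeta * s.m1 w) / (1 - P.zeta * s.m0) := rfl
    have h2 : (s.skip P κ).bp A v w = s.bp A v w := rfl
    rw [h1, h2]
    field_simp
  have htake : av (fun x => s.R x * (s.take P κ x).Yp A v) =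
      av (fun w => s.R w * (s.m1 w * s.bp A v w)) + av (fun x => s.R x * R16_new A s v x) := by
    have e1 : ∀ x, s.R x * (s.take P κ x).Yp A v =
        av (fun w => s.R x * (s.R w * (s.rho x w * s.bp A v w))) + s.R x * R16_new A s v x := by
      intro x
      have h := R16_take_eq (A := A) (s := s) (P := P) (κ := κ) v x
      have h2 : (s.take P κ x).Yp A v = av (fun w => s.R w * (s.rho x w * s.bp A v w)) + R16_new A s v x := by
        have h3 : av (fun w => s.R w * ((s.rho x w - 1) * s.bp A v w)) =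
            av (fun w => s.R w * (s.rho x w * s.bp A v w)) - s.Yp A v := by
          unfold St.Yp
          rw [← av_sub]
          apply av_congr
          intro w
          ring
        linarith
      rw [h2, mul_add, ← av_mul_left]
    rw [av_congr e1, av_add, av_comm]
    congr 1
    apply av_congr
    intro w
    unfold St.m1
    rw [show s.R w * (av (fun y => s.R y * s.rho w y) * s.bp A v w) =
      av (fun y => s.R y * s.rho w y) * (s.R w * s.bp A v w) by ring, ← av_mul_right]
    apply av_congr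
    intro y
    rw [hi.sym w y]
    ring
  have hstep : s.step P κ (fun s' => s'.Yp A v) - s.Yp A v = P.zeta * av (fun x => s.R x * R16_new A s v x) := by
    unfold St.step
    rw [hskip, htake]
    ring
  rw [hstep]
  apply mul_le_mul_of_nonneg_left _ P.zeta_pos.le
  refine le_trans ?_ (hg.g8 v)
  unfold St.QQ
  apply av_mono
  intro x
  unfold R16_new
  rw [← av_mul_left]
  apply av_mono
  intro w
  have h1 := hi.Rn w
  have h1' := hi.Rn x
  have h2 := hi.nn x w
  have h3 := A.h_nonneg x v w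
  have h5 : 1 - s.bp A v w ≤ 1 := by linarith [bp_nonneg (A := A) (s := s) v w]
  unfold St.U
  rw [A.h_s2 x w v]
  calc s.R x * (s.R w * (s.rho x w * (A.h x v w * (1 - s.bp A v w))))
      = (s.R x * s.R w * s.rho x w * A.h x v w) * (1 - s.bp A v w) := by ring
    _ ≤ (s.R x * s.R w * s.rho x w * A.h x v w) * 1 :=
        mul_le_mul_of_nonneg_left h5 (by positivity)
    _ = A.h x v w * (s.R x * s.R w * s.rho x w) := by ring

/-- `<bp_v aa_x>` -/
theorem R16_bp_aa (hi : s.Inv A t) (hg : s.Good A) (ht : t ≤ P.T) (v x : V) :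
    av (fun w => s.R w * (s.bp A v w * s.aa x w)) ≤ P.X (-19596) := by
  have h0 : av (fun w => s.R w * (s.bp A v w * s.aa x w)) ≤
      P.sS t * s.Yp A v + P.X 20043 * av (fun w => A.lam x w) := by
    unfold St.Yp
    rw [← av_mul_left, ← av_mul_left, ← av_add]
    apply av_mono
    intro w
    have h1 := hi.Rn w
    have h2 := bp_nonneg (A := A) (s := s) v w
    have h3 := bp_le_one (A := A) (s := s) v w
    have h4 := aa_le hi hg ht x w
    have h5 := A.lam_nonneg x w
    have h6 : s.R w ≤ P.X 1 := by rw [P.X_one]; exact hg.g1 w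
    have h7 : s.R w * s.bp A v w ≤ P.X 1 := by
      calc s.R w * s.bp A v w ≤ P.X 1 * 1 := mul_le_mul h6 h3 h2 (P.X_pos 1).le
        _ = P.X 1 := mul_one _
    have h8 : P.X 1 * P.X 20042 = P.X 20043 := by rw [P.X_mul]; norm_num
    calc s.R w * (s.bp A v w * s.aa x w) = (s.R w * s.bp A v w) * s.aa x w := by ring
      _ ≤ (s.R w * s.bp A v w) * (P.sS t + P.X 20042 * A.lam x w) :=
          mul_le_mul_of_nonneg_left h4 (by positivity)
      _ = P.sS t * (s.R w * s.bp A v w) + (s.R w * s.bp A v w) * (P.X 20042 * A.lam x w) := by ring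
      _ ≤ P.sS t * (s.R w * s.bp A v w) + P.X 1 * (P.X 20042 * A.lam x w) := by
          have h9 : 0 ≤ P.X 20042 * A.lam x w := mul_nonneg (P.X_pos _).le h5
          linarith [mul_le_mul_of_nonneg_right h7 h9]
      _ = P.sS t * (s.R w * s.bp A v w) + P.X 20043 * A.lam x w := by rw [← h8]; ring
  have h1 : P.sS t * s.Yp A v ≤ P.X (-19597) := by
    have a1 := P.sS_le ht
    have a2 := hg.g3 v
    have a3 : (P.y0 - 1 / 2) / P.r ≤ P.X (-9999) := by
      rw [P.r_eq, div_eq_mul_inv, P.X_inv]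
      apply P.mul_X_le _ (by norm_num)
      unfold Par.y0
      have := P.absorb (c := 11) (k := 4) (j := 1) (by norm_num) (by norm_num) (by norm_num)
      have := P.hLam
      linarith
    have a4 : 0 ≤ s.Yp A v := by
      unfold St.Yp
      exact av_nonneg fun w => mul_nonneg (hi.Rn w) (bp_nonneg v w)
    calc P.sS t * s.Yp A v ≤ P.X (-9598) * P.X (-9999) :=
          mul_le_mul a1 (a2.trans a3) a4 (P.X_pos _).le
      _ = P.X (-19597) := by rw [P.X_mul]; norm_num
  have h2 : P.X 20043 * av (fun w => A.lam x w) ≤ P.X (-19956) := by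
    calc P.X 20043 * av (fun w => A.lam x w) ≤ P.X 20043 * P.eps ^ 2 :=
          mul_le_mul_of_nonneg_left (A.av_lam x) (P.X_pos _).le
      _ = P.Lam ^ 2 * (P.X 20043 * (P.X (-20000)) ^ 2) := by unfold Par.eps; ring
      _ = P.Lam ^ 2 * P.X (-19957) := by
          rw [P.X_pow, P.X_mul]; norm_num
      _ ≤ P.X (-19956) := by
          apply P.mul_X_le _ (by norm_num)
          have := P.absorb (c := 1) (k := 0) (j := 2) (by norm_num) (by norm_num) (by norm_num)
          linarith
  have hx2 : (2 : ℝ) ≤ P.x := by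
    have := P.two_pow_le (k := 1) (by norm_num)
    linarith
  have h3 : P.X (-19956) ≤ P.X (-19597) := P.X_le (by norm_num)
  have h4 : 2 * P.X (-19597) ≤ P.X (-19596) := P.mul_X_le hx2 (by norm_num)
  linarith

/-- upward jump -/
theorem Yp_take_up (hκ : KOK A κ) (ht : t < P.T) (hi : s.Inv A t) (hg : s.Good A) (v : V) {x : V}
    (hx : 0 < s.R x) : (s.take P κ x).Yp A v - s.Yp A v ≤ P.X (-19594) := by
  rw [R16_take_eq]
  have h1 : av (fun w => s.R w * ((s.rho x w - 1) * s.bp A v w)) ≤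
      av (fun w => s.R w * (s.bp A v w * s.aa x w)) := by
    apply av_mono
    intro w
    have h1 := hi.Rn w
    have h2 := bp_nonneg (A := A) (s := s) v w
    apply mul_le_mul_of_nonneg_left _ h1
    rw [mul_comm]
    apply mul_le_mul_of_nonneg_left _ h2
    unfold St.aa
    by_cases h0 : s.rho x w = 0
    · rw [h0, ind_neg (by simp)]
      norm_num
    · rw [ind_pos h0, mul_one, abs_sub_comm]
      exact le_abs_self _
  have h2 := R16_bp_aa hi hg ht.le v x
  have h3 := R16_new_le hi hg ht.le v x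
  have h4 : P.X (-19997) ≤ P.X (-19596) := P.X_le (by norm_num)
  have hx2 : (2 : ℝ) ≤ P.x := by
    have := P.two_pow_le (k := 1) (by norm_num)
    linarith
  have h5 : 2 * P.X (-19596) ≤ P.X (-19594) := P.mul_X_le hx2 (by norm_num)
  linarith

/-- absolute jump -/
theorem Yp_take_abs (hκ : KOK A κ) (ht : t < P.T) (hi : s.Inv A t) (hg : s.Good A) {v x : V}
    (hx : 0 < s.R x) (hvx : v ≠ x) :
    |(s.take P κ x).Yp A v - s.Yp A v| ≤ P.X (-19593) + P.X 10006 * A.lam v x := by
  have hxF : x ∉ s.F := by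
    intro hF
    rw [hi.RF x hF] at hx
    exact lt_irrefl _ hx
  have hne : Nonempty V := ⟨v⟩
  rw [R16_take_eq]
  have h1 : |av (fun w => s.R w * ((s.rho x w - 1) * s.bp A v w))| ≤
      av (fun w => s.R w * (s.bp A v w * s.aa x w)) +
        (P.X 1 * s.VV A v x + P.X 1 * (1 / (Fintype.card V : ℝ))) := by
    refine (abs_av_le _).trans ?_
    unfold St.VV
    rw [← av_ind_eq x, ← av_mul_left, ← av_mul_left, ← av_add, ← av_add]
    apply av_mono
    intro w
    have a1 := hi.Rn w
    have a2 := bp_nonneg (A := A) (s := s) v w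
    have a3 := bp_le_one (A := A) (s := s) v w
    have a4 : s.R w ≤ P.X 1 := by rw [P.X_one]; exact hg.g1 w
    have a5 : |s.R w * ((s.rho x w - 1) * s.bp A v w)| = s.R w * (s.bp A v w * |s.al x w|) := by
      rw [abs_mul, abs_mul, abs_of_nonneg a1, abs_of_nonneg a2]
      unfold St.al
      rw [abs_sub_comm (1 : ℝ)]
      ring
    rw [a5, abs_al]
    have a6 := R_bl_le hi.sinv hxF w
    have a7 : s.R w * s.bp A x w ≤ P.X 1 * s.bp A x w :=
      mul_le_mul_of_nonneg_right a4 (bp_nonneg x w)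
    have a8 : s.R w * ind (w = x) ≤ P.X 1 * ind (w = x) :=
      mul_le_mul_of_nonneg_right a4 (ind_nonneg _)
    have a9 : s.bp A v w * (s.R w * s.bl x w) ≤ s.bp A v w * (P.X 1 * s.bp A x w) + P.X 1 * ind (w = x) := by
      calc s.bp A v w * (s.R w * s.bl x w) ≤ s.bp A v w * (P.X 1 * s.bp A x w + P.X 1 * ind (w = x)) :=
            mul_le_mul_of_nonneg_left (by linarith) a2
        _ = s.bp A v w * (P.X 1 * s.bp A x w) + s.bp A v w * (P.X 1 * ind (w = x)) := by ring
        _ ≤ s.bp A v w * (P.X 1 * s.bp A x w) + 1 * (P.X 1 * ind (w = x)) := by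
            have : 0 ≤ P.X 1 * ind (w = x) := mul_nonneg (P.X_pos 1).le (ind_nonneg _)
            linarith [mul_le_mul_of_nonneg_right a3 this]
        _ = _ := by ring
    calc s.R w * (s.bp A v w * (s.bl x w + s.aa x w))
        = s.bp A v w * (s.R w * s.bl x w) + s.R w * (s.bp A v w * s.aa x w) := by ring
      _ ≤ (s.bp A v w * (P.X 1 * s.bp A x w) + P.X 1 * ind (w = x)) + s.R w * (s.bp A v w * s.aa x w) := by
          linarith
      _ = _ := by ring
  have h2 := R16_bp_aa hi hg ht.le v x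
  have h3 := R16_new_le hi hg ht.le v x
  have h3' := R16_new_nonneg hi v x
  have h4 : P.X 1 * s.VV A v x ≤ P.X (-19993) + P.X 10005 * A.lam v x := by
    calc P.X 1 * s.VV A v x ≤ P.X 1 * (P.X (-19994) + P.X 10004 * A.lam v x) :=
          mul_le_mul_of_nonneg_left (hg.g4 v x hvx) (P.X_pos 1).le
      _ = P.X 1 * P.X (-19994) + (P.X 1 * P.X 10004) * A.lam v x := by ring
      _ = _ := by rw [P.X_mul, P.X_mul]; norm_num
  have h5 : P.X 1 * (1 / (Fintype.card V : ℝ)) = P.X (-199999) := by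
    rw [R16_n_eq A, one_div, P.X_inv, P.X_mul]; norm_num
  have h6 : |av (fun w => s.R w * ((s.rho x w - 1) * s.bp A v w)) + R16_new A s v x| ≤
      |av (fun w => s.R w * ((s.rho x w - 1) * s.bp A v w))| + R16_new A s v x := by
    refine (abs_add_le _ _).trans ?_
    rw [abs_of_nonneg h3']
  have e1 : P.X (-19997) ≤ P.X (-19595) := P.X_le (by norm_num)
  have e2 : P.X (-19993) ≤ P.X (-19595) := P.X_le (by norm_num)
  have e3 : P.X (-199999) ≤ P.X (-19595) := P.X_le (by norm_num)
  have e4 : P.X (-19596) ≤ P.X (-19595) := P.X_le (by norm_num)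
  have hx4 : (4 : ℝ) ≤ P.x := by
    have := P.two_pow_le (k := 2) (by norm_num)
    linarith
  have e5 : 4 * P.X (-19595) ≤ P.X (-19593) := P.mul_X_le hx4 (by norm_num)
  have e6 : P.X 10005 * A.lam v x ≤ P.X 10006 * A.lam v x :=
    mul_le_mul_of_nonneg_right (P.X_le (by norm_num)) (A.lam_nonneg v x)
  linarith

theorem R16_Yp_nonneg (hi : s.Inv A t) (v : V) : 0 ≤ s.Yp A v := by
  unfold St.Yp
  exact av_nonneg fun w => mul_nonneg (hi.Rn w) (bp_nonneg v w)

theorem R16_Yp_le (hi : s.Inv A t) (hg : s.Good A) (v : V) : s.Yp A v ≤ P.X 1 := by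
  unfold St.Yp
  apply av_le_const (P.X_pos 1).le
  intro w
  calc s.R w * s.bp A v w ≤ P.X 1 * 1 := by
        apply mul_le_mul _ (bp_le_one v w) (bp_nonneg v w) (P.X_pos 1).le
        rw [P.X_one]; exact hg.g1 w
    _ = P.X 1 := mul_one _

theorem Yp_take_abs' (hκ : KOK A κ) (ht : t < P.T) (hi : s.Inv A t) (hg : s.Good A) (v : V) {x : V}
    (hx : 0 < s.R x) : |(s.take P κ x).Yp A v - s.Yp A v| ≤ P.X 3 := by
  have h1 := R16_Yp_nonneg hi v
  have h2 := R16_Yp_le hi hg v
  have h3 : 0 ≤ (s.take P κ x).Yp A v := by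
    unfold St.Yp
    exact av_nonneg fun w => mul_nonneg (mul_nonneg (hi.Rn w) (hi.nn x w)) (bp_nonneg v w)
  have h4 : (s.take P κ x).Yp A v ≤ P.X 2 := by
    unfold St.Yp
    apply av_le_const (P.X_pos 2).le
    intro w
    have e : (s.take P κ x).R w = s.R w * s.rho x w := rfl
    rw [e]
    have a1 : s.R w ≤ P.X 1 := by rw [P.X_one]; exact hg.g1 w
    have a2 := rho_le hi hg ht.le x w
    calc s.R w * s.rho x w * (s.take P κ x).bp A v w ≤ (P.X 1 * P.X 1) * 1 := by
          apply mul_le_mul _ (bp_le_one v w) (bp_nonneg v w) (mul_pos (P.X_pos 1) (P.X_pos 1)).le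
          exact mul_le_mul a1 a2 (hi.nn x w) (P.X_pos 1).le
      _ = P.X 2 := by rw [P.X_mul]; norm_num
  have h5 : P.X 1 ≤ P.X 3 := P.X_le (by norm_num)
  have h6 : P.X 2 ≤ P.X 3 := P.X_le (by norm_num)
  rw [abs_le]
  constructor <;> linarith

theorem Yp_skip (hκ : KOK A κ) (ht : t < P.T) (hi : s.Inv A t) (hg : s.Good A) (v : V) :
    |(s.skip P κ).Yp A v - s.Yp A v| ≤ P.zeta * P.X 5 := by
  have hsm := sml hi hg ht.le hκ
  unfold St.Yp
  rw [← av_sub]
  refine (abs_av_le _).trans ?_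
  apply av_le_const (mul_pos P.zeta_pos (P.X_pos 5)).le
  intro w
  obtain ⟨q, hq, _, hq2⟩ := hsm.skip_R w
  have h2 : (s.skip P κ).bp A v w = s.bp A v w := rfl
  rw [h2, hq]
  have e : s.R w * (1 + q) * s.bp A v w - s.R w * s.bp A v w = s.R w * q * s.bp A v w := by ring
  rw [e, abs_mul, abs_mul, abs_of_nonneg (hi.Rn w), abs_of_nonneg (bp_nonneg v w)]
  have a1 : s.R w ≤ P.X 1 := by rw [P.X_one]; exact hg.g1 w
  calc s.R w * |q| * s.bp A v w ≤ (P.X 1 * (P.zeta * P.X 3)) * 1 := by
        apply mul_le_mul _ (bp_le_one v w) (bp_nonneg v w)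
          (mul_pos (P.X_pos 1) (mul_pos P.zeta_pos (P.X_pos 3))).le
        exact mul_le_mul a1 hq2 (abs_nonneg _) (P.X_pos 1).le
    _ = P.zeta * (P.X 1 * P.X 3) := by ring
    _ = P.zeta * P.X 4 := by rw [P.X_mul]; norm_num
    _ ≤ P.zeta * P.X 5 := mul_le_mul_of_nonneg_left (P.X_le (by norm_num)) P.zeta_pos.le

/-- conditional second moment -/
theorem R16_second (hκ : KOK A κ) (ht : t < P.T) (hi : s.Inv A t) (hg : s.Good A) (v : V) :
    s.step P κ (fun s' => (s'.Yp A v - s.Yp A v) ^ 2) ≤ P.zeta * P.X (-39180) := by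
  have hne : Nonempty V := ⟨v⟩
  have hz := zm0_le A hi hg
  unfold St.step
  have h1 : av (fun x => s.R x * ((s.take P κ x).Yp A v - s.Yp A v) ^ 2) ≤
      P.X (-39183) + P.X (-39985) + P.X (-199990) := by
    have h0 : ∀ x, s.R x * ((s.take P κ x).Yp A v - s.Yp A v) ^ 2 ≤
        2 * P.X (-39185) + 2 * P.X 20013 * P.eps * A.lam v x + P.X 7 * ind (x = v) := by
      intro x
      have a0 := hi.Rn x
      have a1 : s.R x ≤ P.X 1 := by rw [P.X_one]; exact hg.g1 x
      have b1 : 0 ≤ A.lam v x := A.lam_nonneg v x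
      have b2 : A.lam v x ≤ P.eps := A.lam_le_eps v x
      have b3 := P.eps_pos
      have b4 : 0 ≤ 2 * P.X 20013 * P.eps * A.lam v x := by
        have := P.X_pos 20013
        positivity
      have b5 : 0 ≤ P.X 7 * ind (x = v) := mul_nonneg (P.X_pos 7).le (ind_nonneg _)
      rcases eq_or_lt_of_le a0 with h00 | h00
      · rw [← h00, zero_mul]
        have := P.X_pos (-39185)
        positivity
      · by_cases hxv : x = v
        · have c1 := Yp_take_abs' hκ ht hi hg v h00
          have c2 : ((s.take P κ x).Yp A v - s.Yp A v) ^ 2 ≤ P.X 3 ^ 2 := by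
            rw [← sq_abs]
            exact pow_le_pow_left₀ (abs_nonneg _) c1 2
          rw [ind_pos hxv, mul_one]
          have c3 : s.R x * ((s.take P κ x).Yp A v - s.Yp A v) ^ 2 ≤ P.X 7 := by
            calc s.R x * ((s.take P κ x).Yp A v - s.Yp A v) ^ 2 ≤ P.X 1 * P.X 3 ^ 2 :=
                  mul_le_mul a1 c2 (sq_nonneg _) (P.X_pos 1).le
              _ = P.X 7 := by rw [P.X_pow, P.X_mul]; norm_num
          have := P.X_pos (-39185)
          linarith
        · have c1 := Yp_take_abs hκ ht hi hg h00 (Ne.symm hxv)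
          have c2 : ((s.take P κ x).Yp A v - s.Yp A v) ^ 2 ≤
              2 * P.X (-19593) ^ 2 + 2 * (P.X 10006 * A.lam v x) ^ 2 := by
            calc ((s.take P κ x).Yp A v - s.Yp A v) ^ 2 ≤ (P.X (-19593) + P.X 10006 * A.lam v x) ^ 2 := by
                  rw [← sq_abs]
                  exact pow_le_pow_left₀ (abs_nonneg _) c1 2
              _ ≤ _ := by nlinarith [sq_nonneg (P.X (-19593) - P.X 10006 * A.lam v x)]
          rw [ind_neg hxv, mul_zero, add_zero]
          have c3 : A.lam v x ^ 2 ≤ P.eps * A.lam v x := by nlinarith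
          calc s.R x * ((s.take P κ x).Yp A v - s.Yp A v) ^ 2
              ≤ P.X 1 * (2 * P.X (-19593) ^ 2 + 2 * (P.X 10006 * A.lam v x) ^ 2) :=
                mul_le_mul a1 c2 (sq_nonneg _) (P.X_pos 1).le
            _ = 2 * (P.X 1 * P.X (-19593) ^ 2) + 2 * (P.X 1 * P.X 10006 ^ 2) * A.lam v x ^ 2 := by ring
            _ = 2 * P.X (-39185) + 2 * P.X 20013 * A.lam v x ^ 2 := by
                rw [P.X_pow, P.X_pow, P.X_mul, P.X_mul]; norm_num
            _ ≤ 2 * P.X (-39185) + 2 * P.X 20013 * (P.eps * A.lam v x) := by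
                have := mul_le_mul_of_nonneg_left c3 (mul_nonneg (by norm_num : (0:ℝ) ≤ 2) (P.X_pos 20013).le)
                linarith
            _ = _ := by ring
    have h2 := av_mono h0
    rw [av_add, av_add, av_const, av_mul_left, av_mul_left, av_ind_eq] at h2
    have h3 : 2 * P.X (-39185) ≤ P.X (-39183) := by
      apply P.mul_X_le _ (by norm_num)
      have := P.two_pow_le (k := 1) (by norm_num)
      linarith
    have h4 : 2 * P.X 20013 * P.eps * av (fun x => A.lam v x) ≤ P.X (-39985) := by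
      have d1 : 0 ≤ 2 * P.X 20013 * P.eps := by
        have := P.X_pos 20013
        have := P.eps_pos
        positivity
      calc 2 * P.X 20013 * P.eps * av (fun x => A.lam v x) ≤ 2 * P.X 20013 * P.eps * P.eps ^ 2 :=
            mul_le_mul_of_nonneg_left (A.av_lam v) d1
        _ = (2 * P.Lam ^ 3) * (P.X 20013 * P.X (-20000) ^ 3) := by unfold Par.eps; ring
        _ = (2 * P.Lam ^ 3) * P.X (-39987) := by rw [P.X_pow, P.X_mul]; norm_num
        _ ≤ P.X (-39985) := by
            apply P.mul_X_le _ (by norm_num)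
            exact P.absorb (c := 2) (k := 1) (j := 3) (by norm_num) (by norm_num) (by norm_num)
    have h5 : P.X 7 * (1 / (Fintype.card V : ℝ)) ≤ P.X (-199990) := by
      rw [R16_n_eq A, one_div, P.X_inv, P.X_mul]
      exact P.X_le (by norm_num)
    linarith
  have h2 : (1 - P.zeta * s.m0) * ((s.skip P κ).Yp A v - s.Yp A v) ^ 2 ≤ P.zeta * P.X (-99990) := by
    have c1 := Yp_skip hκ ht hi hg v
    have c2 : ((s.skip P κ).Yp A v - s.Yp A v) ^ 2 ≤ (P.zeta * P.X 5) ^ 2 := by
      rw [← sq_abs]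
      exact pow_le_pow_left₀ (abs_nonneg _) c1 2
    have c3 : 1 - P.zeta * s.m0 ≤ 1 := by
      have := mul_nonneg P.zeta_pos.le hz.1
      linarith
    calc (1 - P.zeta * s.m0) * ((s.skip P κ).Yp A v - s.Yp A v) ^ 2 ≤ 1 * (P.zeta * P.X 5) ^ 2 :=
          mul_le_mul c3 c2 (sq_nonneg _) (by norm_num)
      _ = P.zeta * (P.X (-100000) * P.X 5 ^ 2) := by
          have : P.zeta = P.X (-100000) := rfl
          rw [this]; ring
      _ = P.zeta * P.X (-99990) := by rw [P.X_pow, P.X_mul]; norm_num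
  have h3 : P.zeta * av (fun x => s.R x * ((s.take P κ x).Yp A v - s.Yp A v) ^ 2) ≤
      P.zeta * (P.X (-39183) + P.X (-39985) + P.X (-199990)) :=
    mul_le_mul_of_nonneg_left h1 P.zeta_pos.le
  have e1 : P.X (-39985) ≤ P.X (-39183) := P.X_le (by norm_num)
  have e2 : P.X (-199990) ≤ P.X (-39183) := P.X_le (by norm_num)
  have e3 : P.X (-99990) ≤ P.X (-39183) := P.X_le (by norm_num)
  have e4 : 4 * P.X (-39183) ≤ P.X (-39180) := by
    apply P.mul_X_le _ (by norm_num)
    have := P.two_pow_le (k := 2) (by norm_num)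
    linarith
  calc _ ≤ P.zeta * (P.X (-39183) + P.X (-39985) + P.X (-199990)) + P.zeta * P.X (-99990) := by
        linarith
    _ = P.zeta * (P.X (-39183) + P.X (-39985) + P.X (-199990) + P.X (-99990)) := by ring
    _ ≤ P.zeta * P.X (-39180) := mul_le_mul_of_nonneg_left (by linarith) P.zeta_pos.le

theorem win3 (A : Amb P V) (hI : IPres A) {t : ℕ} (ht : t ≤ P.T) :
    EE A t (fun s => ind (¬ ∀ v, s.Yp A v ≤ (P.y0 - 1 / 2) / P.r)) ≤ P.X (-1020000) := by
  have hone : ∀ v, EE A t (fun s => ind ((P.y0 - 1 / 2) / P.r < s.Yp A v)) ≤ P.X (-2000000) := by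
    intro v
    have hfr := EE_freedman A hI (phi := fun s => s.Yp A v) (θ := P.X 15000) (d := 2 * P.eps)
      (w := P.X (-39180)) (P.X_pos _) (by have := P.eps_pos; positivity) (P.X_pos _).le
      (by
        intro t' s ht' hi hg x hx
        have h := Yp_take_up (kt_ok A t') ht' hi hg v hx
        calc P.X 15000 * ((s.take P (kt A t') x).Yp A v - s.Yp A v) ≤ P.X 15000 * P.X (-19594) :=
              mul_le_mul_of_nonneg_left h (P.X_pos _).le
          _ ≤ 1 := by rw [P.X_mul]; exact P.X_le_one (by norm_num))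
      (by
        intro t' s ht' hi hg
        have h := (le_abs_self _).trans (Yp_skip (kt_ok A t') ht' hi hg v)
        calc P.X 15000 * ((s.skip P (kt A t')).Yp A v - s.Yp A v) ≤ P.X 15000 * (P.zeta * P.X 5) :=
              mul_le_mul_of_nonneg_left h (P.X_pos _).le
          _ = P.X 15000 * (P.X (-100000) * P.X 5) := rfl
          _ ≤ 1 := by rw [P.X_mul, P.X_mul]; exact P.X_le_one (by norm_num))
      (by
        intro t' s ht' hi hg
        exact step_Yp (kt_ok A t') ht' hi hg v)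
      (by
        intro t' s ht' hi hg
        exact R16_second (kt_ok A t') ht' hi hg v)
      ((P.y0 - 1 / 2) / P.r) t ht
    refine hfr.trans ?_
    have h0 : (s0 : St V).Yp A v = 0 := by
      unfold St.Yp
      rw [show (fun w => (s0 : St V).R w * (s0 : St V).bp A v w) = fun _ => (0 : ℝ) from ?_, av_zero]
      funext w
      unfold St.bp s0
      simp only
      rw [ind_neg (by simp), mul_zero]
    beta_reduce
    rw [h0, mul_zero, zero_add]
    have hexp : 5 * P.X 10000 * (P.X 15000 * (2 * P.eps) + P.X 15000 ^ 2 * P.X (-39180)) -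
        P.X 15000 * ((P.y0 - 1 / 2) / P.r) = -(1 / 2 * P.X 5000 - 5 * P.X 820) := by
      have a1 : P.X 10000 * (P.X 15000 * P.eps) = P.Lam * P.X 5000 := by
        unfold Par.eps
        calc P.X 10000 * (P.X 15000 * (P.Lam * P.X (-20000))) =
              P.Lam * (P.X 10000 * (P.X 15000 * P.X (-20000))) := by ring
          _ = P.Lam * P.X 5000 := by rw [P.X_mul, P.X_mul]; norm_num
      have a2 : P.X 10000 * (P.X 15000 ^ 2 * P.X (-39180)) = P.X 820 := by
        rw [P.X_pow, P.X_mul, P.X_mul]; norm_num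
      have a3 : P.X 15000 * ((P.y0 - 1 / 2) / P.r) = (P.y0 - 1 / 2) * P.X 5000 := by
        rw [P.r_eq, div_eq_mul_inv, P.X_inv]
        calc P.X 15000 * ((P.y0 - 1 / 2) * P.X (-10000)) = (P.y0 - 1 / 2) * (P.X 15000 * P.X (-10000)) := by ring
          _ = (P.y0 - 1 / 2) * P.X 5000 := by rw [P.X_mul]; norm_num
      rw [a3]
      have a4 : 5 * P.X 10000 * (P.X 15000 * (2 * P.eps) + P.X 15000 ^ 2 * P.X (-39180)) =
          10 * (P.X 10000 * (P.X 15000 * P.eps)) + 5 * (P.X 10000 * (P.X 15000 ^ 2 * P.X (-39180))) := by ring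
      rw [a4, a1, a2]
      unfold Par.y0
      ring
    rw [hexp]
    apply P.exp_X_le (k := 4998) (by norm_num)
    have hx4 : (4 : ℝ) ≤ P.x := by
      have := P.two_pow_le (k := 2) (by norm_num)
      linarith
    have hx5 : (5 : ℝ) ≤ P.x := by
      have := P.two_pow_le (k := 3) (by norm_num)
      linarith
    have b1 : 4 * P.X 4998 ≤ P.X 5000 := P.mul_X_le hx4 (by norm_num)
    have b2 : 5 * P.X 820 ≤ P.X 4998 := P.mul_X_le hx5 (by norm_num)
    linarith
  have hne := R16_nonempty A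
  have h1 : EE A t (fun s => ind (¬ ∀ v, s.Yp A v ≤ (P.y0 - 1 / 2) / P.r)) ≤
      EE A t (fun s => ∑ v, ind ((P.y0 - 1 / 2) / P.r < s.Yp A v)) := by
    apply EE_mono A hI ht
    intro s _
    by_cases h : ∀ v, s.Yp A v ≤ (P.y0 - 1 / 2) / P.r
    · rw [ind_neg (not_not.2 h)]
      exact Finset.sum_nonneg fun v _ => ind_nonneg _
    · push_neg at h
      obtain ⟨v, hv⟩ := h
      calc ind (¬ ∀ v, s.Yp A v ≤ (P.y0 - 1 / 2) / P.r) ≤ 1 := ind_le_one _
        _ = ind ((P.y0 - 1 / 2) / P.r < s.Yp A v) := (ind_pos hv).symm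
        _ ≤ _ := Finset.single_le_sum (f := fun v => ind ((P.y0 - 1 / 2) / P.r < s.Yp A v))
            (fun w _ => ind_nonneg _) (Finset.mem_univ v)
  refine h1.trans ?_
  rw [EE_sum]
  calc ∑ v, EE A t (fun s => ind ((P.y0 - 1 / 2) / P.r < s.Yp A v)) ≤ ∑ v : V, P.X (-2000000) :=
        Finset.sum_le_sum fun v _ => hone v
    _ = (Fintype.card V : ℝ) * P.X (-2000000) := by
        rw [Finset.sum_const, Finset.card_univ, nsmul_eq_mul]
    _ = P.X 200000 * P.X (-2000000) := by rw [R16_n_eq A]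
    _ ≤ P.X (-1020000) := by rw [P.X_mul]; exact P.X_le (by norm_num)

end MP5cA
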