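import Pool.Agent.Lib.MP_5c685b_co.A.R02
import Pool.Agent.Lib.MP_5c685b_co.A.R09

/-!
# Route A', row R17: the window `g6` (trace potential; text, section 5)
-/

set_option autoImplicit false
set_option linter.unusedVariables false
set_option linter.unusedSectionVars false

open Finset

namespace MP5cA

variable {V : Type} [Fintype V] [DecidableEq V] {P : Par}

attribute [local irreducible] Par.X Par.zeta Par.eps

/-- `Tr M ^ (2 q)` -/
noncomputable def St.Tr (s : St V) (q : ℕ) : ℝ := ((mat s.M) ^ (2 * q)).trace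

variable {A : Amb P V} {s : St V} {t : ℕ} {κ : V → V → V → ℝ}

lemma r17_step_sum (P : Par) (κ : V → V → V → ℝ) (s : St V) (f : St V → ℝ) :
    s.step P κ f = ∑ i : Option V, (match i with
      | none => 1 - P.zeta * s.m0
      | some x => P.zeta / (Fintype.card V : ℝ) * s.R x) * f (match i with
      | none => s.skip P κ
      | some x => s.take P κ x) := by
  rw [Fintype.sum_option]
  unfold St.step av
  rw [add_comm]
  congr 1
  rw [mul_div_assoc', Finset.mul_sum, Finset.sum_div]
  exact Finset.sum_congr rfl fun x _ => by ring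

lemma r17_hh_sq (x v w : V) : A.hh x v w ^ 2 = A.hh x v w := ind_sq _

lemma r17_LL_hs (hi : s.Inv A t) (hg : s.Good A) (ht : t ≤ P.T) (hκ : KOK A κ) (x : V) :
    av (fun v => av fun w => s.LL κ x v w ^ 2) ≤ P.X (-19953) := by
  have h1 : ∀ v w, s.LL κ x v w ^ 2 ≤ P.X 4 * A.hh x v w := by
    intro v w
    have h2 := LL_abs hi hg ht hκ x v w
    rw [← sq_abs]
    calc |s.LL κ x v w| ^ 2 ≤ (P.X 2 * A.hh x v w) ^ 2 :=
          pow_le_pow_left₀ (abs_nonneg _) h2 2
      _ = P.X 4 * A.hh x v w := by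
          rw [mul_pow, P.X_pow, r17_hh_sq]
          norm_num
  refine av_le_const (P.X_pos _).le fun v => ?_
  refine (av_mono fun w => h1 v w).trans ?_
  rw [av_mul_left]
  calc P.X 4 * av (fun w => A.hh x v w) ≤ P.X 4 * P.X (-19957) :=
        mul_le_mul_of_nonneg_left (A.av_hh x v) (P.X_pos _).le
    _ = P.X (-19953) := by rw [P.X_mul]; norm_num

/-- the exact second moment of one slot at a pair -/
lemma r17_pair (v w : V) :
    s.step P κ (fun s' => s'.M v w ^ 2)
      = s.M v w ^ 2 - s.Lbar P κ v w ^ 2 + P.zeta * av fun x => s.R x * s.LL κ x v w ^ 2 := by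
  have e : s.step P κ (fun s' => s'.M v w ^ 2)
      = P.zeta * av (fun x => s.R x * (s.M v w + s.LL κ x v w - s.Lbar P κ v w) ^ 2)
        + (1 - P.zeta * s.m0) * (s.M v w - s.Lbar P κ v w) ^ 2 := rfl
  rw [e]
  have e2 : av (fun x => s.R x * (s.M v w + s.LL κ x v w - s.Lbar P κ v w) ^ 2)
      = (s.M v w - s.Lbar P κ v w) ^ 2 * s.m0
        + 2 * (s.M v w - s.Lbar P κ v w) * av (fun x => s.R x * s.LL κ x v w)
        + av (fun x => s.R x * s.LL κ x v w ^ 2) := by
    unfold St.m0
    rw [← av_mul_left, ← av_mul_left, ← av_add, ← av_add]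
    exact av_congr fun x => by ring
  have e3 : P.zeta * av (fun x => s.R x * s.LL κ x v w) = s.Lbar P κ v w := rfl
  rw [e2]
  have e4 : P.zeta * ((s.M v w - s.Lbar P κ v w) ^ 2 * s.m0
        + 2 * (s.M v w - s.Lbar P κ v w) * av (fun x => s.R x * s.LL κ x v w)
        + av (fun x => s.R x * s.LL κ x v w ^ 2))
      = P.zeta * ((s.M v w - s.Lbar P κ v w) ^ 2 * s.m0)
        + 2 * (s.M v w - s.Lbar P κ v w) * (P.zeta * av (fun x => s.R x * s.LL κ x v w))
        + P.zeta * av (fun x => s.R x * s.LL κ x v w ^ 2) := by ring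
  rw [e4, e3]
  ring

/-- the symmetry of `M` is preserved -/
lemma r17_Ms_take (hi : s.Inv A t) (hκ : KOK A κ) (x v w : V) :
    (s.take P κ x).M v w = (s.take P κ x).M w v := by
  show s.M v w + s.LL κ x v w - s.Lbar P κ v w = s.M w v + s.LL κ x w v - s.Lbar P κ w v
  rw [hi.Ms, LL_sym hi hκ, Lbar_sym hi hκ]

lemma r17_Ms_skip (hi : s.Inv A t) (hκ : KOK A κ) (v w : V) :
    (s.skip P κ).M v w = (s.skip P κ).M w v := by
  show s.M v w - s.Lbar P κ v w = s.M w v - s.Lbar P κ w v
  rw [hi.Ms, Lbar_sym hi hκ]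

/-- one slot, `q = 1` -/
theorem step_Tr_one (hκ : KOK A κ) (ht : t < P.T) (hi : s.Inv A t) (hg : s.Good A) :
    s.step P κ (fun s' => s'.Tr 1) ≤ s.Tr 1 + P.zeta * P.X (-19951) := by
  have hz := P.zeta_pos.le
  have e1 : s.step P κ (fun s' => s'.Tr 1)
      = av fun v => av fun w => s.step P κ (fun s' => s'.M v w ^ 2) := by
    unfold St.step
    have h1 : ∀ x, (s.take P κ x).Tr 1 = av fun v => av fun w => (s.take P κ x).M v w ^ 2 :=
      fun x => trace_sq (r17_Ms_take hi hκ x)
    have h2 : (s.skip P κ).Tr 1 = av fun v => av fun w => (s.skip P κ).M v w ^ 2 :=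
      trace_sq (r17_Ms_skip hi hκ)
    simp only [h1, h2]
    have e3 : ∀ v w, P.zeta * av (fun x => s.R x * (s.take P κ x).M v w ^ 2)
        + (1 - P.zeta * s.m0) * (s.skip P κ).M v w ^ 2
        = P.zeta * av (fun x => s.R x * (s.take P κ x).M v w ^ 2)
        + (1 - P.zeta * s.m0) * (s.skip P κ).M v w ^ 2 := fun _ _ => rfl
    simp only [av_add, av_mul_left]
    congr 2
    have e4 : ∀ x, s.R x * av (fun v => av fun w => (s.take P κ x).M v w ^ 2)
        = av fun v => av fun w => s.R x * (s.take P κ x).M v w ^ 2 := by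
      intro x
      simp only [av_mul_left]
    simp only [e4]
    rw [av_comm]
    refine av_congr fun v => ?_
    rw [av_comm]
  rw [e1]
  have e2 : s.Tr 1 = av fun v => av fun w => s.M v w ^ 2 := trace_sq hi.Ms
  rw [e2]
  have h3 : (av fun v => av fun w => s.step P κ (fun s' => s'.M v w ^ 2))
      ≤ av fun v => av fun w => (s.M v w ^ 2
        + P.zeta * av fun x => s.R x * s.LL κ x v w ^ 2) := by
    refine av_mono fun v => av_mono fun w => ?_
    rw [r17_pair]
    have := sq_nonneg (s.Lbar P κ v w)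
    linarith
  refine h3.trans ?_
  have e5 : (av fun v => av fun w => (s.M v w ^ 2
        + P.zeta * av fun x => s.R x * s.LL κ x v w ^ 2))
      = (av fun v => av fun w => s.M v w ^ 2)
        + P.zeta * av fun x => s.R x * av fun v => av fun w => s.LL κ x v w ^ 2 := by
    simp only [av_add, av_mul_left]
    congr 2
    have e4 : ∀ x, s.R x * av (fun v => av fun w => s.LL κ x v w ^ 2)
        = av fun v => av fun w => s.R x * s.LL κ x v w ^ 2 := by
      intro x
      simp only [av_mul_left]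
    simp only [e4]
    rw [av_comm (fun x v => av fun w => s.R x * s.LL κ x v w ^ 2)]
    refine av_congr fun v => ?_
    rw [av_comm]
  rw [e5]
  have h6 : (av fun x => s.R x * av fun v => av fun w => s.LL κ x v w ^ 2) ≤ P.X (-19951) := by
    refine av_le_const (P.X_pos _).le fun x => ?_
    calc s.R x * av (fun v => av fun w => s.LL κ x v w ^ 2) ≤ P.X 1 * P.X (-19953) := by
          refine mul_le_mul ?_ (r17_LL_hs hi hg ht.le hκ x)
            (av_nonneg fun v => av_nonneg fun w => sq_nonneg _) (P.X_pos _).le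
          rw [P.X_one]
          exact hg.g1 x
      _ = P.X (-19952) := by rw [P.X_mul]; norm_num
      _ ≤ P.X (-19951) := P.X_le (by norm_num)
  have h7 := mul_le_mul_of_nonneg_left h6 hz
  linarith

/-- the constant of the recursion -/
lemma r17_const {q : ℕ} (hq' : q ≤ 70000) :
    ((2 * q + 2 : ℝ)) * (2 * q + 1) * (1 + 2 ^ (2 * q)) * 64 ≤ P.x := by
  have h1 : (2 * q + 2 : ℝ) ≤ 2 ^ 18 := by
    have : (q : ℝ) ≤ 70000 := by exact_mod_cast hq'
    norm_num
    linarith
  have h2 : (2 * q + 1 : ℝ) ≤ 2 ^ 18 := by linarith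
  have h3 : (1 + 2 ^ (2 * q) : ℝ) ≤ 2 ^ 140001 := by
    have h4 : (2 : ℝ) ^ (2 * q) ≤ 2 ^ 140000 :=
      pow_le_pow_right₀ (by norm_num) (by omega)
    have h5 : (1 : ℝ) ≤ 2 ^ 140000 := one_le_pow₀ (by norm_num)
    rw [show (140001 : ℕ) = 140000 + 1 from rfl, pow_succ]
    generalize (2 : ℝ) ^ 140000 = c at h4 h5 ⊢
    linarith
  have h6 := P.two_pow_le (k := 18 + 18 + 140001 + 6) (by norm_num)
  refine le_trans ?_ h6
  rw [pow_add, pow_add, pow_add]
  have h7 : (0 : ℝ) ≤ 1 + 2 ^ (2 * q) := by positivity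
  have h8 : (64 : ℝ) = 2 ^ 6 := by norm_num
  rw [h8]
  gcongr


lemma r17_Lbar_abs (hi : s.Inv A t) (hg : s.Good A) (ht : t ≤ P.T) (hκ : KOK A κ) (v w : V) :
    |s.Lbar P κ v w| ≤ P.zeta * P.X 3 := by
  unfold St.Lbar
  rw [abs_mul, abs_of_pos P.zeta_pos]
  refine mul_le_mul_of_nonneg_left ?_ P.zeta_pos.le
  refine (abs_av_le _).trans (av_le_const (P.X_pos _).le fun x => ?_)
  rw [abs_mul, abs_of_nonneg (hi.Rn x)]
  have h1 := LL_abs hi hg ht hκ x v w
  have h2 : P.X 2 * A.hh x v w ≤ P.X 2 := mul_le_of_le_one_right (P.X_pos _).le (ind_le_one _)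
  calc s.R x * |s.LL κ x v w| ≤ P.X 1 * P.X 2 := by
        refine mul_le_mul ?_ (h1.trans h2) (abs_nonneg _) (P.X_pos _).le
        rw [P.X_one]
        exact hg.g1 x
    _ = P.X 3 := by rw [P.X_mul]; norm_num

lemma r17_Lbar_sq (hi : s.Inv A t) (hg : s.Good A) (ht : t ≤ P.T) (hκ : KOK A κ) (v w : V) :
    s.Lbar P κ v w ^ 2 ≤ P.X (-19953) := by
  have h1 := r17_Lbar_abs hi hg ht hκ v w
  have h2 : P.zeta * P.X 3 = P.X (-99997) := by
    rw [show P.zeta = P.X (-100000) by unfold Par.zeta; rfl, P.X_mul]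
    norm_num
  rw [h2] at h1
  rw [← sq_abs]
  calc |s.Lbar P κ v w| ^ 2 ≤ P.X (-99997) ^ 2 := pow_le_pow_left₀ (abs_nonneg _) h1 2
    _ = P.X (-199994) := by rw [P.X_pow]; norm_num
    _ ≤ _ := P.X_le (by norm_num)

/-- one slot, `q ≥ 2` -/
theorem step_Tr (hκ : KOK A κ) (ht : t < P.T) (hi : s.Inv A t) (hg : s.Good A) {q : ℕ}
    (hq : 1 ≤ q) (hq' : q ≤ 70000) :
    s.step P κ (fun s' => s'.Tr (q + 1)) ≤ s.Tr (q + 1)
      + P.zeta * P.X (-39906) * (s.Tr q + P.X (-19954) ^ (2 * q - 2) * P.X (-19953)) := by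
  have hz := P.zeta_pos.le
  obtain ⟨m, hm⟩ : ∃ m, m = 2 * q - 2 := ⟨_, rfl⟩
  have hm4 : 2 * (q + 1) = m + 4 := by omega
  have hm2 : 2 * q = m + 2 := by omega
  have hme : Even m := ⟨q - 1, by omega⟩
  have hzm := zm0_le A hi hg
  have hm0 : s.m0 ≤ P.X 1 := by
    unfold St.m0
    refine av_le_const (P.X_pos _).le fun x => ?_
    rw [P.X_one]
    exact hg.g1 x
  -- weights and increments
  set p : Option V → ℝ := fun i => match i with
    | none => 1 - P.zeta * s.m0
    | some x => P.zeta / (Fintype.card V : ℝ) * s.R x with hp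
  set Z : Option V → V → V → ℝ := fun i v w => match i with
    | none => -s.Lbar P κ v w
    | some x => s.LL κ x v w - s.Lbar P κ v w with hZ
  set l : Option V → ℝ := fun i => match i with
    | none => P.zeta * P.X (-19954)
    | some _ => 2 * P.X (-19955) with hl
  have hp0 : ∀ i ∈ (univ : Finset (Option V)), 0 ≤ p i := by
    intro i _
    cases i with
    | none =>
      show 0 ≤ 1 - P.zeta * s.m0
      linarith [hzm.2]
    | some x =>
      show 0 ≤ P.zeta / (Fintype.card V : ℝ) * s.R x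
      exact mul_nonneg (div_nonneg hz (Nat.cast_nonneg _)) (hi.Rn x)
  have hsumR : ∑ x, P.zeta / (Fintype.card V : ℝ) * s.R x = P.zeta * s.m0 := by
    unfold St.m0 av
    rw [← Finset.mul_sum]
    ring
  have hp1 : ∑ i, p i = 1 := by
    rw [Fintype.sum_option]
    show 1 - P.zeta * s.m0 + ∑ x, P.zeta / (Fintype.card V : ℝ) * s.R x = 1
    rw [hsumR]
    ring
  have hZs : ∀ i ∈ (univ : Finset (Option V)), ∀ v w, Z i v w = Z i w v := by
    intro i _ v w
    cases i with
    | none =>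
      show -s.Lbar P κ v w = -s.Lbar P κ w v
      rw [Lbar_sym hi hκ]
    | some x =>
      show s.LL κ x v w - s.Lbar P κ v w = s.LL κ x w v - s.Lbar P κ w v
      rw [Lbar_sym hi hκ, LL_sym hi hκ]
  have hZ0 : ∀ v w, ∑ i, p i * Z i v w = 0 := by
    intro v w
    rw [Fintype.sum_option]
    show (1 - P.zeta * s.m0) * (-s.Lbar P κ v w)
      + ∑ x, P.zeta / (Fintype.card V : ℝ) * s.R x * (s.LL κ x v w - s.Lbar P κ v w) = 0
    have e1 : ∑ x, P.zeta / (Fintype.card V : ℝ) * s.R x * (s.LL κ x v w - s.Lbar P κ v w)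
        = ∑ x, P.zeta / (Fintype.card V : ℝ) * (s.R x * s.LL κ x v w)
          - (∑ x, P.zeta / (Fintype.card V : ℝ) * s.R x) * s.Lbar P κ v w := by
      rw [Finset.sum_mul, ← Finset.sum_sub_distrib]
      exact Finset.sum_congr rfl fun x _ => by ring
    have e2 : ∑ x, P.zeta / (Fintype.card V : ℝ) * (s.R x * s.LL κ x v w) = s.Lbar P κ v w := by
      rw [← Finset.mul_sum]
      unfold St.Lbar av
      ring
    rw [e1, e2, hsumR]
    ring
  have hX55 : P.zeta * P.X (-19954) ≤ P.X (-19955) := by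
    have : P.zeta ≤ P.X (-1) := by
      rw [show P.zeta = P.X (-100000) by unfold Par.zeta; rfl]
      exact P.X_le (by norm_num)
    calc P.zeta * P.X (-19954) ≤ P.X (-1) * P.X (-19954) :=
          mul_le_mul_of_nonneg_right this (P.X_pos _).le
      _ = P.X (-19955) := by rw [P.X_mul]; norm_num
  have hlop : ∀ i ∈ (univ : Finset (Option V)), MP5c.Op.KN (Z i) (l i) := by
    intro i _
    have hL := Lbar_op hi hg ht.le hκ ∅
    have hzX : 0 ≤ P.zeta * P.X (-19954) := mul_nonneg hz (P.X_pos _).le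
    cases i with
    | none =>
      show MP5c.Op.KN (fun v w => -s.Lbar P κ v w) (P.zeta * P.X (-19954))
      exact (OpLe.empty_iff hzX).1 hL.neg
    | some x =>
      show MP5c.Op.KN (fun v w => s.LL κ x v w - s.Lbar P κ v w) (2 * P.X (-19955))
      have h1 := OpLe.sub (P.X_pos _).le hzX (LL_op hi hg ht.le hκ ∅ x) hL
      have h2 := h1.mono_c (add_nonneg (P.X_pos _).le hzX)
        (show P.X (-19955) + P.zeta * P.X (-19954) ≤ 2 * P.X (-19955) by linarith)
      exact (OpLe.empty_iff (mul_nonneg (by norm_num) (P.X_pos _).le)).1 h2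
  have hmain := MP5c.Op.trK_mean_step univ p hp0 hp1 hi.Ms hZs hZ0 hlop hme
  -- the left hand side
  have hlhs : ∑ i, p i * MP5c.Op.trK (m + 4) (fun v w => s.M v w + Z i v w)
      = s.step P κ (fun s' => s'.Tr (q + 1)) := by
    rw [r17_step_sum, Fintype.sum_option, Fintype.sum_option]
    have e1 : ∀ x, MP5c.Op.trK (m + 4) (fun v w => s.M v w + Z (some x) v w)
        = (s.take P κ x).Tr (q + 1) := by
      intro x
      unfold St.Tr
      rw [hm4]
      have : (fun v w => s.M v w + Z (some x) v w) = (s.take P κ x).M := by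
        funext v w
        show s.M v w + (s.LL κ x v w - s.Lbar P κ v w) = s.M v w + s.LL κ x v w - s.Lbar P κ v w
        ring
      rw [this]
      rfl
    have e2 : MP5c.Op.trK (m + 4) (fun v w => s.M v w + Z none v w)
        = (s.skip P κ).Tr (q + 1) := by
      unfold St.Tr
      rw [hm4]
      have : (fun v w => s.M v w + Z none v w) = (s.skip P κ).M := by
        funext v w
        show s.M v w + (-s.Lbar P κ v w) = s.M v w - s.Lbar P κ v w
        ring
      rw [this]
      rfl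
    simp only [e1, e2]
    rfl
  rw [hlhs] at hmain
  have hTq4 : MP5c.Op.trK (m + 4) s.M = s.Tr (q + 1) := by
    unfold St.Tr
    rw [hm4]
    rfl
  have hTq2 : MP5c.Op.trK (m + 2) s.M = s.Tr q := by
    unfold St.Tr
    rw [hm2]
    rfl
  rw [hTq4, hTq2] at hmain
  refine hmain.trans ?_
  -- the bound for the sum
  have hTq0 : 0 ≤ s.Tr q := trace_nonneg hi.Ms q
  set B : ℝ := s.Tr q + P.X (-19954) ^ m * P.X (-19953) with hB
  have hX53 := (P.X_pos (-19953)).le
  have hX54 := (P.X_pos (-19954)).le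
  have hX55p := (P.X_pos (-19955)).le
  have hB0 : 0 ≤ B := add_nonneg hTq0 (mul_nonneg (pow_nonneg hX54 _) hX53)
  have hl54 : ∀ i, 0 ≤ l i ∧ l i ≤ P.X (-19954) := by
    intro i
    have h2 : 2 * P.X (-19955) ≤ P.X (-19954) := P.mul_X_le (by
      simpa using P.two_pow_le (k := 1) (by norm_num)) (by norm_num)
    cases i with
    | none =>
      refine ⟨mul_nonneg hz hX54, ?_⟩
      show P.zeta * P.X (-19954) ≤ P.X (-19954)
      linarith
    | some x => exact ⟨mul_nonneg (by norm_num) hX55p, h2⟩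
  have hE : ∀ i, (∑ v, ∑ w, Z i v w ^ 2) / (Fintype.card V : ℝ) ^ 2 ≤ 4 * P.X (-19953) := by
    intro i
    have e : (∑ v, ∑ w, Z i v w ^ 2) / (Fintype.card V : ℝ) ^ 2
        = av fun v => av fun w => Z i v w ^ 2 := by
      unfold av
      rw [sq, ← div_div, ← Finset.sum_div]
    rw [e]
    cases i with
    | none =>
      refine av_le_const (by linarith) fun v => av_le_const (by linarith) fun w => ?_
      show (-s.Lbar P κ v w) ^ 2 ≤ _
      have := r17_Lbar_sq hi hg ht.le hκ v w
      rw [neg_sq]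
      linarith
    | some x =>
      have h1 : ∀ v w, Z (some x) v w ^ 2 ≤ 2 * s.LL κ x v w ^ 2 + 2 * P.X (-19953) := by
        intro v w
        show (s.LL κ x v w - s.Lbar P κ v w) ^ 2 ≤ _
        have := r17_Lbar_sq hi hg ht.le hκ v w
        nlinarith [sq_nonneg (s.LL κ x v w + s.Lbar P κ v w)]
      have hne : Nonempty V := ⟨x⟩
      calc (av fun v => av fun w => Z (some x) v w ^ 2)
          ≤ av fun v => av fun w => (2 * s.LL κ x v w ^ 2 + 2 * P.X (-19953)) :=
            av_mono fun v => av_mono fun w => h1 v w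
        _ = 2 * (av fun v => av fun w => s.LL κ x v w ^ 2) + 2 * P.X (-19953) := by
            simp only [av_add, av_mul_left, av_const]
        _ ≤ 4 * P.X (-19953) := by
            have := r17_LL_hs hi hg ht.le hκ x
            linarith
  have hterm : ∀ i ∈ (univ : Finset (Option V)), p i * l i ^ 2 * (s.Tr q
      + l i ^ m * ((∑ v, ∑ w, Z i v w ^ 2) / (Fintype.card V : ℝ) ^ 2))
      ≤ p i * l i ^ 2 * (4 * B) := by
    intro i hii
    refine mul_le_mul_of_nonneg_left ?_ (mul_nonneg (hp0 i hii) (sq_nonneg _))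
    have h1 : l i ^ m * ((∑ v, ∑ w, Z i v w ^ 2) / (Fintype.card V : ℝ) ^ 2)
        ≤ P.X (-19954) ^ m * (4 * P.X (-19953)) := by
      refine mul_le_mul (pow_le_pow_left₀ (hl54 i).1 (hl54 i).2 m) (hE i) ?_
        (pow_nonneg hX54 _)
      exact div_nonneg (Finset.sum_nonneg fun v _ => Finset.sum_nonneg fun w _ => sq_nonneg _)
        (sq_nonneg _)
    have h2 : 0 ≤ P.X (-19954) ^ m * P.X (-19953) := mul_nonneg (pow_nonneg hX54 _) hX53
    rw [hB]
    nlinarith
  have hsum1 : ∑ i, p i * l i ^ 2 ≤ P.zeta * (8 * P.X (-39909)) := by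
    rw [Fintype.sum_option]
    show (1 - P.zeta * s.m0) * (P.zeta * P.X (-19954)) ^ 2
      + ∑ x, P.zeta / (Fintype.card V : ℝ) * s.R x * (2 * P.X (-19955)) ^ 2 ≤ _
    rw [← Finset.sum_mul, hsumR]
    have e1 : (2 * P.X (-19955)) ^ 2 = 4 * P.X (-39910) := by
      rw [mul_pow, P.X_pow]
      norm_num
    have e2 : P.X 1 * P.X (-39910) = P.X (-39909) := by rw [P.X_mul]; norm_num
    have e3 : (P.zeta * P.X (-19954)) ^ 2 ≤ P.zeta * P.X (-39909) := by
      calc (P.zeta * P.X (-19954)) ^ 2 = P.zeta * P.X (-19954) * (P.zeta * P.X (-19954)) := by ring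
        _ ≤ P.zeta * P.X (-19954) * P.X (-19955) :=
            mul_le_mul_of_nonneg_left hX55 (mul_nonneg hz hX54)
        _ = P.zeta * P.X (-39909) := by
            rw [mul_assoc, P.X_mul]
            norm_num
    have h4 : (1 - P.zeta * s.m0) * (P.zeta * P.X (-19954)) ^ 2 ≤ P.zeta * P.X (-39909) := by
      refine le_trans ?_ e3
      refine mul_le_of_le_one_left (sq_nonneg _) ?_
      have := mul_nonneg hz hzm.1
      linarith
    have h5 : P.zeta * s.m0 * (4 * P.X (-39910)) ≤ P.zeta * (4 * P.X (-39909)) := by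
      have h6 := mul_le_mul_of_nonneg_right hm0 (P.X_pos (-39910)).le
      rw [e2] at h6
      calc P.zeta * s.m0 * (4 * P.X (-39910)) = P.zeta * (4 * (s.m0 * P.X (-39910))) := by ring
        _ ≤ _ := by
            refine mul_le_mul_of_nonneg_left ?_ hz
            linarith
    rw [e1]
    have h7 := mul_nonneg hz (P.X_pos (-39909)).le
    nlinarith
  have hC := r17_const (P := P) hq'
  have hCc : ((m : ℝ) + 4) * (m + 3) * (1 + 2 ^ (m + 2)) * 64 ≤ P.x := by
    have e1 : (m : ℝ) + 4 = 2 * q + 2 := by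
      have : (m : ℝ) = 2 * q - 2 := by
        have h : m + 2 = 2 * q := by omega
        have h' : (m : ℝ) + 2 = 2 * q := by exact_mod_cast h
        linarith
      rw [this]
      ring
    have e2 : (m : ℝ) + 3 = 2 * q + 1 := by linarith
    rw [e1, e2, ← hm2]
    exact hC
  have hC0 : (0 : ℝ) ≤ ((m : ℝ) + 4) * (m + 3) * (1 + 2 ^ (m + 2)) := by positivity
  have hsum2 : ∑ i, p i * l i ^ 2 * (s.Tr q
      + l i ^ m * ((∑ v, ∑ w, Z i v w ^ 2) / (Fintype.card V : ℝ) ^ 2))
      ≤ P.zeta * (32 * P.X (-39909)) * B := by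
    calc _ ≤ ∑ i, p i * l i ^ 2 * (4 * B) := Finset.sum_le_sum hterm
      _ = (∑ i, p i * l i ^ 2) * (4 * B) := by rw [Finset.sum_mul]
      _ ≤ (P.zeta * (8 * P.X (-39909))) * (4 * B) :=
          mul_le_mul_of_nonneg_right hsum1 (by linarith)
      _ = _ := by ring
  rw [← hm]
  have hfin : ((m : ℝ) + 4) * (m + 3) * (1 + 2 ^ (m + 2)) * (P.zeta * (32 * P.X (-39909)) * B)
      ≤ P.zeta * P.X (-39906) * B := by
    have h1 : ((m : ℝ) + 4) * (m + 3) * (1 + 2 ^ (m + 2)) * 32 ≤ P.x := by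
      nlinarith
    have h2 : ((m : ℝ) + 4) * (m + 3) * (1 + 2 ^ (m + 2)) * 32 * P.X (-39909) ≤ P.X (-39906) :=
      P.mul_X_le h1 (by norm_num)
    have h3 := mul_le_mul_of_nonneg_right h2 (mul_nonneg hz hB0)
    calc _ = ((m : ℝ) + 4) * (m + 3) * (1 + 2 ^ (m + 2)) * 32 * P.X (-39909) * (P.zeta * B) := by
          ring
      _ ≤ _ := h3
      _ = _ := by ring
  have h8 := mul_le_mul_of_nonneg_left hsum2 hC0
  linarith

/-- the recursion in `q` -/
theorem EE_Tr (A : Amb P V) (hI : IPres A) {t : ℕ} (ht : t ≤ P.T) {q : ℕ} (hq : q ≤ 70000) :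
    EE A t (fun s => s.Tr (q + 1)) ≤ P.X (-9950 - 29900 * q) := by
  -- a generic recursion in time
  have hgen : ∀ (q : ℕ) (b : ℝ), 0 ≤ b →
      (∀ (t : ℕ), t < P.T → EE A (t + 1) (fun s => s.Tr (q + 1))
        ≤ EE A t (fun s => s.Tr (q + 1)) + P.zeta * b) →
      ∀ t, t ≤ P.T → EE A t (fun s => s.Tr (q + 1)) ≤ 5 * P.X 10000 * b := by
    intro q b hb hstep t ht
    have h1 : ∀ t, t ≤ P.T → EE A t (fun s => s.Tr (q + 1)) ≤ t * (P.zeta * b) := by
      intro t
      induction t with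
      | zero =>
        intro _
        rw [EE_zero]
        have : (s0 : St V).Tr (q + 1) = 0 := by
          unfold St.Tr
          exact MP5c.Op.trK_zero_kernel (by omega)
        rw [this]
        simp
      | succ t ih =>
        intro h
        have h2 := ih (by omega)
        have h3 := hstep t (by omega)
        push_cast
        linarith
    have h4 := h1 t ht
    have h5 : (t : ℝ) * (P.zeta * b) ≤ P.T * (P.zeta * b) := by
      have : (t : ℝ) ≤ P.T := by exact_mod_cast ht
      exact mul_le_mul_of_nonneg_right this (mul_nonneg P.zeta_pos.le hb)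
    calc _ ≤ _ := h4.trans h5
      _ = P.zeta * P.T * b := by ring
      _ = 5 * P.X 10000 * b := by rw [P.zeta_T]
  revert t
  induction q with
  | zero =>
    intro t ht
    have h1 := hgen 0 (P.X (-19951)) (P.X_pos _).le (fun t ht => ?_) t ht
    · refine h1.trans ?_
      rw [mul_assoc, P.X_mul]
      push_cast
      exact P.mul_X_le (by
        have := P.two_pow_le (k := 3) (by norm_num)
        linarith) (by norm_num)
    · have h2 : EE A (t + 1) (fun s => s.Tr (0 + 1))
          ≤ EE A t (fun s => s.Tr (0 + 1) + P.zeta * P.X (-19951)) := by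
        refine EE_succ_le A hI ht (fun s hi hg => ?_) fun s hi hg => ?_
        · exact step_Tr_one (kt_ok A t) ht hi hg
        · have := mul_nonneg P.zeta_pos.le (P.X_pos (-19951)).le
          linarith
      rw [EE_add, EE_const] at h2
      exact h2
  | succ q ih =>
    intro t ht
    have ih' : ∀ t : ℕ, t ≤ P.T → EE A t (fun s => s.Tr (q + 1)) ≤ P.X (-9950 - 29900 * q) :=
      fun t ht => ih (by omega) ht
    have h1 := hgen (q + 1) (P.X (-39906) * (2 * P.X (-9950 - 29900 * q)))
      (mul_nonneg (P.X_pos _).le (mul_nonneg (by norm_num) (P.X_pos _).le)) (fun t ht => ?_) t ht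
    · refine h1.trans ?_
      calc 5 * P.X 10000 * (P.X (-39906) * (2 * P.X (-9950 - 29900 * q)))
          = 10 * (P.X 10000 * P.X (-39906) * P.X (-9950 - 29900 * q)) := by ring
        _ = 10 * P.X (10000 + -39906 + (-9950 - 29900 * q)) := by rw [P.X_mul, P.X_mul]
        _ ≤ P.X (-9950 - 29900 * (q + 1 : ℕ)) := P.mul_X_le (by
            have := P.two_pow_le (k := 4) (by norm_num)
            linarith) (by push_cast; omega)
    · have h2 : EE A (t + 1) (fun s => s.Tr (q + 1 + 1))
          ≤ EE A t (fun s => s.Tr (q + 1 + 1) + P.zeta * P.X (-39906) *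
            (s.Tr (q + 1) + P.X (-19954) ^ (2 * (q + 1) - 2) * P.X (-19953))) := by
        refine EE_succ_le A hI ht (fun s hi hg => ?_) fun s hi hg => ?_
        · exact step_Tr (kt_ok A t) ht hi hg (by omega) hq
        · have h3 : 0 ≤ s.Tr (q + 1) := trace_nonneg hi.Ms (q + 1)
          have h4 : 0 ≤ P.X (-19954) ^ (2 * (q + 1) - 2) * P.X (-19953) :=
            mul_nonneg (pow_nonneg (P.X_pos _).le _) (P.X_pos _).le
          have h5 : 0 ≤ P.zeta * P.X (-39906) := mul_nonneg P.zeta_pos.le (P.X_pos _).le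
          have := mul_nonneg h5 (add_nonneg h3 h4)
          linarith
      rw [EE_add, EE_mul, EE_add, EE_const] at h2
      refine h2.trans ?_
      have h6 := ih' t ht.le
      have h7 : P.X (-19954) ^ (2 * (q + 1) - 2) * P.X (-19953) ≤ P.X (-9950 - 29900 * q) := by
        rw [P.X_pow, P.X_mul]
        refine P.X_le ?_
        have : ((2 * (q + 1) - 2 : ℕ) : ℤ) = 2 * q := by omega
        rw [this]
        omega
      have h8 : 0 ≤ P.zeta * P.X (-39906) := mul_nonneg P.zeta_pos.le (P.X_pos _).le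
      have h9 := mul_le_mul_of_nonneg_left (add_le_add h6 h7) h8
      have e : P.zeta * P.X (-39906) * (P.X (-9950 - 29900 * q) + P.X (-9950 - 29900 * q))
          = P.zeta * (P.X (-39906) * (2 * P.X (-9950 - 29900 * q))) := by ring
      linarith

theorem win6 (A : Amb P V) (hI : IPres A) {t : ℕ} (ht : t ≤ P.T) :
    EE A t (fun s => ind (¬ OpLe ∅ s.M (P.X (-14940)))) ≤ P.X (-1020000) := by
  obtain ⟨q, hq⟩ : ∃ q : ℕ, q = 60000 := ⟨_, rfl⟩
  have h1 := EE_Tr A hI ht (q := q) (by omega)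
  have h2 := EE_markov A hI ht (f := fun s => s.Tr (q + 1)) (c := P.X (-14940) ^ (2 * (q + 1)))
    (Q := fun s => ¬ OpLe ∅ s.M (P.X (-14940))) (pow_pos (P.X_pos _) _)
    (fun s hi => trace_nonneg hi.Ms (q + 1)) (fun s hi hQ => ?_)
  · refine h2.trans ?_
    rw [P.X_pow, div_eq_mul_inv, P.X_inv]
    calc _ ≤ P.X (-9950 - 29900 * q) * P.X (-(-14940 * ((2 * (q + 1) : ℕ) : ℤ))) :=
          mul_le_mul_of_nonneg_right h1 (P.X_pos _).le
      _ = P.X (-9950 - 29900 * q + -(-14940 * ((2 * (q + 1) : ℕ) : ℤ))) := P.X_mul _ _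
      _ ≤ P.X (-1020000) := P.X_le (by
          subst hq
          norm_num)
  · by_contra h3
    exact hQ (op_trace (P.X_pos _) hi.Ms (by omega) (not_le.1 h3).le)

end MP5cA
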