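import Pool.Agent.Lib.MP_5c685b_co.A.R12
import Pool.Agent.Lib.MP_5c685b_co.A.R13
import Pool.Agent.Lib.MP_5c685b_co.A.R14
import Pool.Agent.Lib.MP_5c685b_co.A.R15
import Pool.Agent.Lib.MP_5c685b_co.A.R16
import Pool.Agent.Lib.MP_5c685b_co.A.R17

/-!
# Route A', row R18: bad states are improbable
-/

set_option autoImplicit false
set_option linter.unusedVariables false
set_option linter.unusedSectionVars false

open Finset

namespace MP5cA

variable {V : Type} [Fintype V] [DecidableEq V] {P : Par}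

attribute [local irreducible] Par.X

theorem Pb_le (A : Amb P V) (hI : IPres A) {t : ℕ} (ht : t ≤ P.T) : Pb A t ≤ P.X (-1010000) := by
  have h : Pb A t ≤ EE A t (fun s =>
      ind (¬ ∀ v, s.R v ≤ P.x) + (ind (¬ (s.F.card : ℝ) ≤ P.X 10002)
      + (ind (¬ ∀ v, s.Yp A v ≤ (P.y0 - 1 / 2) / P.r)
      + (ind (¬ ∀ v w, v ≠ w → s.VV A v w ≤ P.X (-19994) + P.X 10004 * A.lam v w)
      + (ind (¬ ∀ v, s.cnt A v ≤ 300)
      + (ind (¬ OpLe ∅ s.M (P.X (-14940)))
      + (ind (¬ 9 / 10 ≤ s.m0)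
      + (ind (¬ ∀ v, s.QQ A v ≤ 2 * P.eps)
      + ind (¬ s.Z9 A ≤ 1 / 10 ^ 7))))))))) := by
    unfold Pb
    refine EE_mono A hI ht fun s _ => ?_
    by_cases h1 : ∀ v, s.R v ≤ P.x
    swap
    · rw [ind_pos h1]
      have h0 := ind_le_one (¬ s.Good A)
      have := ind_nonneg (¬ (s.F.card : ℝ) ≤ P.X 10002)
      have := ind_nonneg (¬ ∀ v, s.Yp A v ≤ (P.y0 - 1 / 2) / P.r)
      have := ind_nonneg (¬ ∀ v w, v ≠ w → s.VV A v w ≤ P.X (-19994) + P.X 10004 * A.lam v w)
      have := ind_nonneg (¬ ∀ v, s.cnt A v ≤ 300)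
      have := ind_nonneg (¬ OpLe ∅ s.M (P.X (-14940)))
      have := ind_nonneg (¬ 9 / 10 ≤ s.m0)
      have := ind_nonneg (¬ ∀ v, s.QQ A v ≤ 2 * P.eps)
      have := ind_nonneg (¬ s.Z9 A ≤ 1 / 10 ^ 7)
      linarith
    have e : ∀ {p q : Prop}, (p → ind (¬ s.Good A) ≤ ind (¬ q)) → ind (¬ s.Good A)
        ≤ ind (¬ p) + ind (¬ q) := by
      intro p q hpq
      by_cases hp : p
      · rw [ind_neg (not_not.2 hp), zero_add]
        exact hpq hp
      · rw [ind_pos hp]
        linarith [ind_le_one (¬ s.Good A), ind_nonneg (¬ q)]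
    have e' : ∀ {p : Prop} {b : ℝ}, 0 ≤ b → (p → ind (¬ s.Good A) ≤ b) → ind (¬ s.Good A)
        ≤ ind (¬ p) + b := by
      intro p b hb hpb
      by_cases hp : p
      · rw [ind_neg (not_not.2 hp), zero_add]
        exact hpb hp
      · rw [ind_pos hp]
        linarith [ind_le_one (¬ s.Good A)]
    have n : ∀ {p : Prop} {b : ℝ}, 0 ≤ b → 0 ≤ ind (¬ p) + b := fun hb =>
      add_nonneg (ind_nonneg _) hb
    refine e' (n (n (n (n (n (n (n (ind_nonneg _)))))))) fun h1 => ?_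
    refine e' (n (n (n (n (n (n (ind_nonneg _))))))) fun h2 => ?_
    refine e' (n (n (n (n (n (ind_nonneg _)))))) fun h3 => ?_
    refine e' (n (n (n (n (ind_nonneg _))))) fun h4 => ?_
    refine e' (n (n (n (ind_nonneg _)))) fun h5 => ?_
    refine e' (n (n (ind_nonneg _))) fun h6 => ?_
    refine e' (n (ind_nonneg _)) fun h7 => ?_
    refine e' (ind_nonneg _) fun h8 => ?_
    exact ind_mono fun hng h9 => hng ⟨h1, h2, h3, h4, h5, h6, h7, h8, h9⟩
  refine h.trans ?_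
  rw [EE_add, EE_add, EE_add, EE_add, EE_add, EE_add, EE_add, EE_add]
  have w1 := win1 A hI ht
  have w2 := win2 A hI ht
  have w3 := win3 A hI ht
  have w4 := win4 A hI ht
  have w5 := win5 A hI ht
  have w6 := win6 A hI ht
  have w7 := win7 A hI ht
  have w8 := win8 A hI ht
  have w9 := win9 A hI ht
  have hc : 9 * P.X (-1020000) ≤ P.X (-1010000) := P.mul_X_le (by
    refine le_trans ?_ (P.two_pow_le (k := 4) (by norm_num))
    norm_num) (by norm_num)
  linarith

end MP5cA
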