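import Pool.Agent.Lib.MP_5c685b_co.A.R18

/-!
# Route A', row R19: the weight of a triple, `Th` at good states, the clamp is inactive
-/

set_option autoImplicit false
set_option linter.unusedVariables false
set_option linter.unusedSectionVars false

open Finset

namespace MP5cA

variable {V : Type} [Fintype V] [DecidableEq V] {P : Par}

variable {A : Amb P V} {s : St V} {t : ℕ} {κ : V → V → V → ℝ}

theorem W_nonneg (hi : s.Inv A t) (u v w : V) : 0 ≤ s.W u v w := by
  unfold St.W
  exact mul_nonneg (mul_nonneg (mul_nonneg (mul_nonneg (mul_nonneg (hi.Rn u) (hi.Rn v)) (hi.Rn w))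
    (hi.nn u v)) (hi.nn u w)) (hi.nn v w)

theorem r19_W_le (hi : s.Inv A t) {a b : ℝ} (ha : 0 ≤ a) (hb : 0 ≤ b) (hR : ∀ v, s.R v ≤ a)
    (hr : ∀ v w, s.rho v w ≤ b) (u v w : V) : s.W u v w ≤ a * a * a * b * b * b := by
  unfold St.W
  have h1 := hi.Rn u
  have h2 := hi.Rn v
  have h3 := hi.Rn w
  have h4 := hi.nn u v
  have h5 := hi.nn u w
  have h6 := hi.nn v w
  have k1 := hR u
  have k2 := hR v
  have k3 := hR w
  have k4 := hr u v
  have k5 := hr u w
  have k6 := hr v w
  gcongr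

theorem W_le (hi : s.Inv A t) (u v w : V) : s.W u v w ≤ P.X 18 := by
  refine (r19_W_le hi (P.X_pos 3).le (P.X_pos 3).le hi.cR hi.cr u v w).trans (le_of_eq ?_)
  simp only [P.X_mul]
  norm_num

theorem W_le' (hi : s.Inv A t) (hg : s.Good A) (ht : t ≤ P.T) (u v w : V) :
    s.W u v w ≤ P.X 6 := by
  refine (r19_W_le hi (P.X_pos 1).le (P.X_pos 1).le (fun v => by rw [P.X_one]; exact hg.g1 v)
    (fun v w => rho_le hi hg ht v w) u v w).trans (le_of_eq ?_)
  simp only [P.X_mul]
  norm_num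

theorem W_F (hi : s.Inv A t) {u v w : V} (h : s.W u v w ≠ 0) : u ∉ s.F ∧ v ∉ s.F ∧ w ∉ s.F := by
  refine ⟨fun hu => h ?_, fun hu => h ?_, fun hu => h ?_⟩ <;>
  · unfold St.W
    rw [hi.RF _ hu]
    ring

/-! auxiliary facts -/

theorem r19_be (hκ : KOK A κ) (hS : Sml P κ s) {u v : V} (huv : u ≠ v) (y : V) :
    s.rho u y * s.rho v y * |1 - κ u v y| ≤ P.X 3 * A.hh u v y := by
  have hh := A.hh_nonneg u v y
  have hX := P.X_pos 3
  by_cases h1 : y = u
  · subst h1
    rw [hS.rd, zero_mul, zero_mul]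
    positivity
  by_cases h2 : y = v
  · subst h2
    rw [hS.rd, mul_zero, zero_mul]
    positivity
  have hd : Amb.D3 u v y := ⟨huv, fun h => h1 h.symm, fun h => h2 h.symm⟩
  have h3 := A.be_le hκ hd
  have h4 := hS.nn u y
  have h5 := hS.nn v y
  have h6 := hS.r1 u y
  have h7 := hS.r1 v y
  have e : P.X 3 * A.hh u v y = P.X 1 * P.X 1 * (P.X 1 * A.hh u v y) := by
    rw [show (3 : ℤ) = 1 + 1 + 1 by norm_num, P.X_add, P.X_add]
    ring
  rw [e]
  have hX1 := P.X_pos 1
  gcongr

theorem r19_f2 (hκ : KOK A κ) (hS : Sml P κ s) {u v : V} (huv : u ≠ v) (w y : V) :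
    |s.R y * (s.rho u y * s.rho v y * s.al w y * (1 - κ u v y))| ≤
      P.X 4 * (|s.al w y| * A.hh u v y) := by
  have h1 := r19_be hκ hS huv y
  have h2 := hS.nn u y
  have h3 := hS.nn v y
  have h4 := hS.Rn y
  have h5 := hS.R1 y
  have e1 : |s.R y * (s.rho u y * s.rho v y * s.al w y * (1 - κ u v y))| =
      s.R y * (|s.al w y| * (s.rho u y * s.rho v y * |1 - κ u v y|)) := by
    rw [abs_mul, abs_mul, abs_mul, abs_mul, abs_of_nonneg h4, abs_of_nonneg h2, abs_of_nonneg h3]
    ring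
  have e2 : P.X 4 * (|s.al w y| * A.hh u v y) =
      P.X 1 * (|s.al w y| * (P.X 3 * A.hh u v y)) := by
    rw [show (4 : ℤ) = 1 + 3 by norm_num, P.X_add]
    ring
  rw [e1, e2]
  have hX1 := P.X_pos 1
  have ha := abs_nonneg (s.al w y)
  have hb := abs_nonneg (1 - κ u v y)
  gcongr

theorem r19_f3 (hκ : KOK A κ) (hS : Sml P κ s) {u v w : V} (hd : Amb.D3 u v w) (y : V) :
    |s.R y * (s.rho u y * s.rho v y * s.rho w y *
        ((1 - κ u v y) * (1 - κ u w y) + (1 - κ u v y) * (1 - κ v w y)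
          + (1 - κ u w y) * (1 - κ v w y)
          - (1 - κ u v y) * (1 - κ u w y) * (1 - κ v w y)))| ≤
      P.X 8 * (A.hh u v y * A.hh u w y + A.hh v u y * A.hh v w y + A.hh w u y * A.hh w v y) := by
  rw [A.hh_s1 v u y, A.hh_s1 w u y, A.hh_s1 w v y]
  set a := A.hh u v y with ha
  set b := A.hh u w y with hb
  set c := A.hh v w y with hc
  have ha0 : 0 ≤ a := A.hh_nonneg u v y
  have hb0 : 0 ≤ b := A.hh_nonneg u w y
  have hc0 : 0 ≤ c := A.hh_nonneg v w y
  have hc1 : c ≤ 1 := A.hh_le_one v w y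
  have hX8 := P.X_pos 8
  by_cases h1 : y = u
  · rw [h1, hS.rd, zero_mul, zero_mul, zero_mul, mul_zero, abs_zero]
    positivity
  by_cases h2 : y = v
  · rw [h2, hS.rd, mul_zero, zero_mul, zero_mul, mul_zero, abs_zero]
    positivity
  by_cases h3 : y = w
  · rw [h3, hS.rd, mul_zero, zero_mul, mul_zero, abs_zero]
    positivity
  obtain ⟨d1, d2, d3⟩ := hd
  have k1 : |1 - κ u v y| ≤ P.X 1 * a := A.be_le hκ ⟨d1, fun h => h1 h.symm, fun h => h2 h.symm⟩
  have k2 : |1 - κ u w y| ≤ P.X 1 * b := A.be_le hκ ⟨d2, fun h => h1 h.symm, fun h => h3 h.symm⟩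
  have k3 : |1 - κ v w y| ≤ P.X 1 * c := A.be_le hκ ⟨d3, fun h => h2 h.symm, fun h => h3 h.symm⟩
  set α := 1 - κ u v y with hα
  set β := 1 - κ u w y with hβ
  set γ := 1 - κ v w y with hγ
  have hX1 := P.X_pos 1
  have n1 := abs_nonneg α
  have n2 := abs_nonneg β
  have n3 := abs_nonneg γ
  have hR0 := hS.Rn y
  have hR1 := hS.R1 y
  have r0 := hS.nn u y
  have r1 := hS.nn v y
  have r2 := hS.nn w y
  have q0 := hS.r1 u y
  have q1 := hS.r1 v y
  have q2 := hS.r1 w y
  have hsum : |α * β + α * γ + β * γ - α * β * γ| ≤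
      (P.X 1 * a) * (P.X 1 * b) + (P.X 1 * a) * (P.X 1 * c) + (P.X 1 * b) * (P.X 1 * c)
        + (P.X 1 * a) * (P.X 1 * b) * (P.X 1 * c) := by
    calc |α * β + α * γ + β * γ - α * β * γ| ≤ |α * β + α * γ + β * γ| + |α * β * γ| := abs_sub _ _
      _ ≤ (|α * β| + |α * γ| + |β * γ|) + |α * β * γ| := by
          gcongr
          exact (abs_add_le _ _).trans (by gcongr; exact abs_add_le _ _)
      _ = |α| * |β| + |α| * |γ| + |β| * |γ| + |α| * |β| * |γ| := by
          simp only [abs_mul]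
      _ ≤ _ := by gcongr
  have hX1' : 1 ≤ P.X 1 := P.one_le_X (by norm_num)
  have hsum2 : (P.X 1 * a) * (P.X 1 * b) + (P.X 1 * a) * (P.X 1 * c) + (P.X 1 * b) * (P.X 1 * c)
        + (P.X 1 * a) * (P.X 1 * b) * (P.X 1 * c) ≤ P.X 4 * (a * b + a * c + b * c) := by
    have hab : 0 ≤ a * b := mul_nonneg ha0 hb0
    have hac : 0 ≤ a * c := mul_nonneg ha0 hc0
    have hbc : 0 ≤ b * c := mul_nonneg hb0 hc0
    have e1 : P.X 2 = P.X 1 * P.X 1 := by rw [P.X_mul]; norm_num
    have e2 : P.X 3 = P.X 1 * P.X 1 * P.X 1 := by rw [P.X_mul, P.X_mul]; norm_num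
    have e3 : P.X 2 ≤ P.X 3 := P.X_le (by norm_num)
    have e4 : 2 * P.X 3 ≤ P.X 4 := P.mul_X_le (by
      have := P.two_pow_le (k := 1) (by norm_num)
      linarith) (by norm_num)
    have e5 : a * b * c ≤ a * b := by nlinarith
    calc (P.X 1 * a) * (P.X 1 * b) + (P.X 1 * a) * (P.X 1 * c) + (P.X 1 * b) * (P.X 1 * c)
        + (P.X 1 * a) * (P.X 1 * b) * (P.X 1 * c)
        = P.X 2 * (a * b + a * c + b * c) + P.X 3 * (a * b * c) := by rw [e1, e2]; ring
      _ ≤ P.X 3 * (a * b + a * c + b * c) + P.X 3 * (a * b + a * c + b * c) := by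
          refine add_le_add (mul_le_mul_of_nonneg_right e3 (by positivity))
            (mul_le_mul_of_nonneg_left (by linarith) (P.X_pos 3).le)
      _ = 2 * P.X 3 * (a * b + a * c + b * c) := by ring
      _ ≤ _ := mul_le_mul_of_nonneg_right e4 (by positivity)
  rw [abs_mul, abs_mul, abs_mul, abs_mul, abs_of_nonneg hR0, abs_of_nonneg r0, abs_of_nonneg r1,
    abs_of_nonneg r2]
  have e8 : P.X 8 = P.X 1 * (P.X 1 * P.X 1 * P.X 1) * P.X 4 := by
    simp only [P.X_mul]
    norm_num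
  have hs0 := abs_nonneg (α * β + α * γ + β * γ - α * β * γ)
  calc s.R y * (s.rho u y * s.rho v y * s.rho w y * |α * β + α * γ + β * γ - α * β * γ|)
      ≤ P.X 1 * (P.X 1 * P.X 1 * P.X 1 * (P.X 4 * (a * b + a * c + b * c))) := by
        have := hsum.trans hsum2
        gcongr
    _ = P.X 8 * (a * b + a * c + b * c) := by
        rw [e8]
        ring

/-- bound for `Th` by absolute values -/
theorem Th_le (hκ : KOK A κ) (hi : s.Inv A t) (hg : s.Good A) (ht : t ≤ P.T) {u v w : V}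
    (hd : Amb.D3 u v w) : |s.Th κ u v w| ≤
      av (fun y => s.R y * (|s.al u y| * |s.al v y| * |s.al w y|))
      + P.X 4 * (av (fun y => |s.al w y| * A.hh u v y) + av (fun y => |s.al v y| * A.hh u w y)
        + av (fun y => |s.al u y| * A.hh v w y))
      + P.X 8 * (A.mu u v w + A.mu v u w + A.mu w u v) := by
  have hS := sml hi hg ht hκ
  obtain ⟨d1, d2, d3⟩ := hd
  rw [hS.Th_eq]
  have b1 : |av (fun y => s.R y * (s.al u y * s.al v y * s.al w y))| ≤
      av (fun y => s.R y * (|s.al u y| * |s.al v y| * |s.al w y|)) := by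
    refine (abs_av_le _).trans (av_mono fun y => ?_)
    rw [abs_mul, abs_mul, abs_mul, abs_of_nonneg (hS.Rn y)]
  have b2 : |av (fun y => s.R y * (s.rho u y * s.rho v y * s.al w y * (1 - κ u v y)
        + s.rho u y * s.rho w y * s.al v y * (1 - κ u w y)
        + s.rho v y * s.rho w y * s.al u y * (1 - κ v w y)))| ≤
      P.X 4 * (av (fun y => |s.al w y| * A.hh u v y) + av (fun y => |s.al v y| * A.hh u w y)
        + av (fun y => |s.al u y| * A.hh v w y)) := by
    rw [← av_add, ← av_add, ← av_mul_left]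
    refine (abs_av_le _).trans (av_mono fun y => ?_)
    rw [mul_add, mul_add]
    refine (abs_add_le _ _).trans ((add_le_add_left (abs_add_le _ _) _).trans ?_)
    rw [mul_add, mul_add]
    exact add_le_add (add_le_add (r19_f2 hκ hS d1 w y) (r19_f2 hκ hS d2 v y))
      (r19_f2 hκ hS d3 u y)
  have b3 : |av (fun y => s.R y * (s.rho u y * s.rho v y * s.rho w y *
        ((1 - κ u v y) * (1 - κ u w y) + (1 - κ u v y) * (1 - κ v w y)
          + (1 - κ u w y) * (1 - κ v w y)
          - (1 - κ u v y) * (1 - κ u w y) * (1 - κ v w y))))| ≤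
      P.X 8 * (A.mu u v w + A.mu v u w + A.mu w u v) := by
    unfold Amb.mu
    rw [← av_add, ← av_add, ← av_mul_left]
    refine (abs_av_le _).trans (av_mono fun y => ?_)
    exact r19_f3 hκ hS ⟨d1, d2, d3⟩ y
  refine (abs_sub _ _).trans (add_le_add ((abs_sub _ _).trans (add_le_add b1 b2)) b3)

theorem r19_al_x (hi : s.Inv A t) (hg : s.Good A) (ht : t ≤ P.T) (v w : V) :
    |s.al v w| ≤ P.X 1 := by
  rw [abs_al]
  by_cases h : s.rho v w = 0
  · have h1 : s.bl v w = 1 := ind_pos h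
    have h2 : s.aa v w = 0 := by
      unfold St.aa
      rw [ind_neg (not_not.2 h), mul_zero]
    rw [h1, h2, add_zero]
    exact P.one_le_X (by norm_num)
  · have h1 : s.bl v w = 0 := ind_neg h
    rw [h1, zero_add]
    exact aa_le_x hi hg ht v w

theorem r19_al_strong (hi : s.Inv A t) (hg : s.Good A) (ht : t ≤ P.T) (v w : V) :
    |s.al v w| ≤ 1 + P.X 1 * ind (A.Strong v w) := by
  by_cases hs : A.Strong v w
  · rw [ind_pos hs, mul_one]
    linarith [r19_al_x hi hg ht v w]
  · rw [ind_neg hs, mul_zero, add_zero, abs_al]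
    by_cases h : s.rho v w = 0
    · have h1 : s.bl v w = 1 := ind_pos h
      have h2 : s.aa v w = 0 := by
        unfold St.aa
        rw [ind_neg (not_not.2 h), mul_zero]
      rw [h1, h2, add_zero]
    · have h1 : s.bl v w = 0 := ind_neg h
      rw [h1, zero_add]
      exact (aa_ns hi ht hs).trans (P.X_le_one (by norm_num))

theorem r19_av_R_al_sq (hi : s.Inv A t) (hg : s.Good A) (ht : t ≤ P.T) {v : V} (hv : v ∉ s.F) :
    av (fun y => s.R y * s.al v y ^ 2) ≤ (P.y0 - 1 / 4) / P.r + P.X (-19767) := by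
  have h1 : av (fun y => s.R y * s.al v y ^ 2) ≤
      av (fun y => s.R y * s.bl v y) + P.X 1 * av (fun y => s.aa v y ^ 2) := by
    rw [← av_mul_left, ← av_add]
    refine av_mono fun y => ?_
    rw [al_sq, mul_add]
    have h2 := hg.g1 y
    rw [← P.X_one] at h2
    have h3 : 0 ≤ s.aa v y ^ 2 := by positivity
    gcongr
  have h2 := av_R_bl' hi hg hv
  have h3 := av_aa_sq hi hg ht hv
  have h4 : P.X 1 * av (fun y => s.aa v y ^ 2) ≤ P.X (-19767) := by
    calc P.X 1 * av (fun y => s.aa v y ^ 2) ≤ P.X 1 * P.X (-19768) :=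
          mul_le_mul_of_nonneg_left h3 (P.X_pos 1).le
      _ = P.X (-19767) := by rw [P.X_mul]; norm_num
  linarith

theorem r19_q_nonneg (P : Par) : 0 ≤ (P.y0 - 1 / 4) / P.r + P.X (-19767) := by
  have h1 : 0 < (P.r : ℝ) := by rw [P.r_eq]; exact P.X_pos _
  have h2 : 0 ≤ P.y0 - 1 / 4 := by
    unfold Par.y0
    linarith [P.hLam]
  have h3 := P.X_pos (-19767)
  positivity

theorem r19_R_al_al (hi : s.Inv A t) (hg : s.Good A) (ht : t ≤ P.T) {u v : V} (hu : u ∉ s.F)
    (hv : v ∉ s.F) :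
    av (fun y => s.R y * (|s.al u y| * |s.al v y|)) ≤ (P.y0 - 1 / 4) / P.r + P.X (-19767) := by
  set q := (P.y0 - 1 / 4) / P.r + P.X (-19767) with hq
  have hq0 : 0 ≤ q := r19_q_nonneg P
  have hf : ∀ v, v ∉ s.F → av (fun y => (Real.sqrt (s.R y) * |s.al v y|) ^ 2) ≤ Real.sqrt q ^ 2 := by
    intro v hv
    rw [Real.sq_sqrt hq0]
    refine le_trans (le_of_eq (av_congr fun y => ?_)) (r19_av_R_al_sq hi hg ht hv)
    rw [mul_pow, Real.sq_sqrt (hi.Rn y), sq_abs]
  have h1 := av_mul_le (Real.sqrt_nonneg q) (Real.sqrt_nonneg q) (hf u hu) (hf v hv)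
  rw [Real.mul_self_sqrt hq0] at h1
  refine le_trans (le_of_eq (av_congr fun y => ?_)) h1
  have h2 := Real.mul_self_sqrt (hi.Rn y)
  calc s.R y * (|s.al u y| * |s.al v y|) = (Real.sqrt (s.R y) * Real.sqrt (s.R y)) * (|s.al u y| * |s.al v y|) := by
        rw [h2]
    _ = _ := by ring

theorem r19_term1 (hi : s.Inv A t) (hg : s.Good A) (ht : t ≤ P.T) {u v : V} (hu : u ∉ s.F)
    (hv : v ∉ s.F) (w : V) :
    av (fun y => s.R y * (|s.al u y| * |s.al v y| * |s.al w y|)) ≤
      (P.y0 - 1 / 4) / P.r + P.X (-19767) + P.X (-19954) := by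
  have h1 : av (fun y => s.R y * (|s.al u y| * |s.al v y| * |s.al w y|)) ≤
      av (fun y => s.R y * (|s.al u y| * |s.al v y|)) + P.X 4 * av (fun y => ind (A.Strong w y)) := by
    rw [← av_mul_left, ← av_add]
    refine av_mono fun y => ?_
    have k1 := r19_al_strong hi hg ht w y
    have k2 := r19_al_x hi hg ht u y
    have k3 := r19_al_x hi hg ht v y
    have k4 := hi.Rn y
    have k5 := hg.g1 y
    rw [← P.X_one] at k5
    have n1 := abs_nonneg (s.al u y)
    have n2 := abs_nonneg (s.al v y)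
    have n3 := ind_nonneg (A.Strong w y)
    have hX1 := P.X_pos 1
    calc s.R y * (|s.al u y| * |s.al v y| * |s.al w y|)
        ≤ s.R y * (|s.al u y| * |s.al v y| * (1 + P.X 1 * ind (A.Strong w y))) := by gcongr
      _ = s.R y * (|s.al u y| * |s.al v y|) +
          s.R y * (|s.al u y| * |s.al v y|) * (P.X 1 * ind (A.Strong w y)) := by ring
      _ ≤ s.R y * (|s.al u y| * |s.al v y|) +
          P.X 1 * (P.X 1 * P.X 1) * (P.X 1 * ind (A.Strong w y)) := by gcongr
      _ = s.R y * (|s.al u y| * |s.al v y|) + P.X 4 * ind (A.Strong w y) := by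
          have e : P.X 4 = P.X 1 * (P.X 1 * P.X 1) * P.X 1 := by
            simp only [P.X_mul]
            norm_num
          rw [e]
          ring
  have h2 := r19_R_al_al hi hg ht hu hv
  have h3 : P.X 4 * av (fun y => ind (A.Strong w y)) ≤ P.X (-19954) := by
    calc P.X 4 * av (fun y => ind (A.Strong w y)) ≤ P.X 4 * P.X (-19958) :=
          mul_le_mul_of_nonneg_left (A.av_strong w) (P.X_pos 4).le
      _ = P.X (-19954) := by rw [P.X_mul]; norm_num
  linarith

theorem r19_alhh (hi : s.Inv A t) (hg : s.Good A) (ht : t ≤ P.T) (u v w : V) :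
    av (fun y => |s.al w y| * A.hh u v y) ≤ P.X (-19956) := by
  calc av (fun y => |s.al w y| * A.hh u v y) ≤ av (fun y => P.X 1 * A.hh u v y) :=
        av_mono fun y => mul_le_mul_of_nonneg_right (r19_al_x hi hg ht w y) (A.hh_nonneg u v y)
    _ = P.X 1 * av (fun y => A.hh u v y) := av_mul_left _ _
    _ ≤ P.X 1 * P.X (-19957) := mul_le_mul_of_nonneg_left (A.av_hh u v) (P.X_pos 1).le
    _ = P.X (-19956) := by rw [P.X_mul]; norm_num

theorem r19_mu (A : Amb P V) (u v w : V) : A.mu u v w ≤ P.X (-19957) := by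
  unfold Amb.mu
  refine le_trans (av_mono fun y => ?_) (A.av_hh u v)
  have := A.hh_le_one u w y
  have := A.hh_nonneg u v y
  nlinarith

/-- `Th` is at most `y0 / r` at good states -/
theorem Th_abs (hκ : KOK A κ) (hi : s.Inv A t) (hg : s.Good A) (ht : t ≤ P.T) {u v w : V}
    (hd : Amb.D3 u v w) (hu : u ∉ s.F) (hv : v ∉ s.F) (hw : w ∉ s.F) :
    |s.Th κ u v w| ≤ P.y0 / P.r := by
  have h1 := Th_le hκ hi hg ht hd
  have h2 := r19_term1 hi hg ht hu hv w
  have h3 := r19_alhh hi hg ht u v w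
  have h4 := r19_alhh hi hg ht u w v
  have h5 := r19_alhh hi hg ht v w u
  have h6 := r19_mu A u v w
  have h7 := r19_mu A v u w
  have h8 := r19_mu A w u v
  have e4 : P.X 4 * P.X (-19956) = P.X (-19952) := by rw [P.X_mul]; norm_num
  have e8 : P.X 8 * P.X (-19957) = P.X (-19949) := by rw [P.X_mul]; norm_num
  have h9 : P.X 4 * (av (fun y => |s.al w y| * A.hh u v y) + av (fun y => |s.al v y| * A.hh u w y)
        + av (fun y => |s.al u y| * A.hh v w y)) ≤ 3 * P.X (-19952) := by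
    rw [← e4]
    have := P.X_pos 4
    nlinarith
  have h10 : P.X 8 * (A.mu u v w + A.mu v u w + A.mu w u v) ≤ 3 * P.X (-19949) := by
    rw [← e8]
    have := P.X_pos 8
    nlinarith
  have l1 : P.X (-19767) ≤ P.X (-10001) := P.X_le (by norm_num)
  have l2 : P.X (-19954) ≤ P.X (-10001) := P.X_le (by norm_num)
  have l3 : P.X (-19952) ≤ P.X (-10001) := P.X_le (by norm_num)
  have l4 : P.X (-19949) ≤ P.X (-10001) := P.X_le (by norm_num)
  have l5 : 32 * P.X (-10001) ≤ P.X (-10000) := P.mul_X_le (by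
      have := P.two_pow_le (k := 5) (by norm_num)
      norm_num at this
      linarith) (by norm_num)
  have er : ∀ c : ℝ, c / P.r = c * P.X (-10000) := by
    intro c
    rw [P.r_eq, div_eq_mul_inv, P.X_inv]
  rw [er] at h2 ⊢
  linarith

/-- one slot changes `W` by a factor in `1 ± r19_d` -/
noncomputable def r19_d (P : Par) : ℝ := P.zeta * (P.y0 / P.r + P.X (-99980))

theorem r19_y0_pos (P : Par) : 0 < P.y0 := by
  unfold Par.y0
  linarith [P.hLam]

theorem r19_r_pos (P : Par) : 0 < (P.r : ℝ) := by rw [P.r_eq]; exact P.X_pos _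

theorem r19_d_pos (P : Par) : 0 < r19_d P := by
  unfold r19_d
  have h1 := r19_y0_pos P
  have h2 := r19_r_pos P
  have h3 := P.X_pos (-99980)
  have h4 := P.zeta_pos
  exact mul_pos h4 (add_pos (div_pos h1 h2) h3)

theorem r19_step (hκ : KOK A κ) (hi : s.Inv A t) (hg : s.Good A) (ht : t ≤ P.T) {u v w : V}
    (hd : Amb.D3 u v w) :
    |s.step P κ (fun s' => s'.W u v w) - s.W u v w| ≤ r19_d P * s.W u v w := by
  have h1 := (sml hi hg ht hκ).step_W_le u v w
  have hW := W_nonneg hi u v w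
  have hz := P.zeta_pos
  have h2 : |s.W u v w * (P.zeta * s.Th κ u v w)| ≤ s.W u v w * (P.zeta * (P.y0 / P.r)) := by
    by_cases h0 : s.W u v w = 0
    · rw [h0, zero_mul, zero_mul, abs_zero]
    · obtain ⟨k1, k2, k3⟩ := W_F hi h0
      have h3 := Th_abs hκ hi hg ht hd k1 k2 k3
      rw [abs_mul, abs_mul, abs_of_nonneg hW, abs_of_pos hz]
      gcongr
  have e : s.step P κ (fun s' => s'.W u v w) - s.W u v w =
      (s.step P κ (fun s' => s'.W u v w) - s.W u v w * (1 - P.zeta * s.Th κ u v w)) -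
        s.W u v w * (P.zeta * s.Th κ u v w) := by ring
  rw [e]
  refine (abs_sub _ _).trans ((add_le_add h1 h2).trans (le_of_eq ?_))
  have e2 : P.zeta ^ 2 * P.X 20 = P.zeta * P.X (-99980) := by
    unfold Par.zeta
    rw [sq, mul_assoc, P.X_mul (-100000) 20]
    norm_num
  rw [e2]
  unfold r19_d
  ring

theorem r19_W_s0 {u v w : V} (hd : Amb.D3 u v w) : (s0 : St V).W u v w = 1 := by
  obtain ⟨d1, d2, d3⟩ := hd
  unfold St.W s0
  simp only [ind_pos d1, ind_pos d2, ind_pos d3]
  norm_num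

theorem r19_small (P : Par) : r19_d P * (5 * P.y0 + 6) ≤ 1 := by
  have hL := P.hLam
  have h1 : P.y0 / P.r + P.X (-99980) ≤ 12 * P.Lam := by
    have h2 : P.y0 / P.r ≤ P.y0 := by
      rw [div_le_iff₀ (r19_r_pos P), P.r_eq]
      have := P.one_le_X (a := 10000) (by norm_num)
      nlinarith [r19_y0_pos P]
    have h3 : P.X (-99980) ≤ 1 := P.X_le_one (by norm_num)
    have h4 : P.y0 = 10 * P.Lam + 1 := rfl
    linarith
  have h5 : 5 * P.y0 + 6 ≤ 61 * P.Lam := by
    have h4 : P.y0 = 10 * P.Lam + 1 := rfl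
    linarith
  have hz := P.zeta_pos
  have h6 := r19_y0_pos P
  have h7 : 732 * P.Lam ^ 2 ≤ P.x := P.absorb (c := 732) (k := 10) (j := 2) (by norm_num) (by norm_num) (by norm_num)
  calc r19_d P * (5 * P.y0 + 6) ≤ (P.zeta * (12 * P.Lam)) * (61 * P.Lam) := by
        unfold r19_d
        gcongr
    _ = (732 * P.Lam ^ 2) * P.X (-100000) := by unfold Par.zeta; ring
    _ ≤ P.X (-99999) := P.mul_X_le h7 (by norm_num)
    _ ≤ 1 := P.X_le_one (by norm_num)

theorem r19_dt (P : Par) {t : ℕ} (ht : t ≤ P.T) : t * r19_d P ≤ 5 * P.y0 + 1 := by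
  have h1 := P.zeta_t_le ht
  have hz := P.zeta_pos
  have hy := r19_y0_pos P
  have h2 : 0 < P.y0 / P.r + P.X (-99980) :=
    add_pos (div_pos hy (r19_r_pos P)) (P.X_pos (-99980))
  calc t * r19_d P = (P.zeta * t) * (P.y0 / P.r + P.X (-99980)) := by unfold r19_d; ring
    _ ≤ (5 * P.X 10000) * (P.y0 / P.r + P.X (-99980)) := mul_le_mul_of_nonneg_right h1 h2.le
    _ = 5 * P.y0 + 5 * P.X (-89980) := by
        have h3 := r19_r_pos P
        have e1 : P.X 10000 * (P.y0 / P.r) = P.y0 := by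
          rw [← P.r_eq]
          field_simp
        have e2 : P.X 10000 * P.X (-99980) = P.X (-89980) := by rw [P.X_mul]; norm_num
        calc 5 * P.X 10000 * (P.y0 / P.r + P.X (-99980)) = 5 * (P.X 10000 * (P.y0 / P.r)) + 5 * (P.X 10000 * P.X (-99980)) := by ring
          _ = _ := by rw [e1, e2]
    _ ≤ 5 * P.y0 + 1 := by
        have h4 : 5 * P.X (-89980) ≤ P.X 0 := P.mul_X_le (by
          have := P.two_pow_le (k := 3) (by norm_num)
          norm_num at this
          linarith) (by norm_num)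
        rw [P.X_zero] at h4
        linarith

/-- `E_t W` for distinct triples stays in `exp (± (5 y0 + 6))` -/
theorem EE_W_bounds (A : Amb P V) (hI : IPres A) {t : ℕ} (ht : t ≤ P.T) {u v w : V}
    (hd : Amb.D3 u v w) :
    Real.exp (-(5 * P.y0 + 6)) ≤ EE A t (fun s => s.W u v w) ∧
      EE A t (fun s => s.W u v w) ≤ Real.exp (5 * P.y0 + 6) := by
  have hd0 := r19_d_pos P
  have hsm := r19_small P
  have hy := r19_y0_pos P
  have hd1 : r19_d P ≤ 1 / 6 := by nlinarith
  have hrec : ∀ t, t ≤ P.T → (1 - r19_d P) ^ t ≤ EE A t (fun s => s.W u v w) ∧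
      EE A t (fun s => s.W u v w) ≤ (1 + r19_d P) ^ t := by
    intro t
    induction t with
    | zero =>
      intro _
      rw [EE_zero, r19_W_s0 hd, pow_zero, pow_zero]
      exact ⟨le_refl _, le_refl _⟩
    | succ t ih =>
      intro ht
      obtain ⟨i1, i2⟩ := ih (by omega)
      have hsub := EE_succ_sub A t (fun s => s.W u v w)
      have hup : EE A t (fun s => ind (s.Good A) * (s.step P (kt A t) (fun s => s.W u v w) - s.W u v w))
          ≤ EE A t (fun s => r19_d P * s.W u v w) := by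
        refine EE_mono A hI (by omega) fun s hs => ?_
        have hW := W_nonneg hs u v w
        by_cases hg : s.Good A
        · rw [ind_pos hg, one_mul]
          exact (abs_le.1 (r19_step (kt_ok A t) hs hg (by omega) hd)).2
        · rw [ind_neg hg, zero_mul]
          positivity
      have hlo : EE A t (fun s => -r19_d P * s.W u v w) ≤
          EE A t (fun s => ind (s.Good A) * (s.step P (kt A t) (fun s => s.W u v w) - s.W u v w)) := by
        refine EE_mono A hI (by omega) fun s hs => ?_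
        have hW := W_nonneg hs u v w
        by_cases hg : s.Good A
        · rw [ind_pos hg, one_mul]
          have := (abs_le.1 (r19_step (kt_ok A t) hs hg (by omega) hd)).1
          linarith
        · rw [ind_neg hg, zero_mul]
          nlinarith
      rw [EE_mul] at hup hlo
      rw [pow_succ, pow_succ]
      have hp1 : 0 ≤ (1 - r19_d P) := by linarith
      constructor
      · nlinarith [mul_le_mul_of_nonneg_right i1 hp1]
      · nlinarith [mul_le_mul_of_nonneg_right i2 (by linarith : (0:ℝ) ≤ 1 + r19_d P)]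
  obtain ⟨i1, i2⟩ := hrec t ht
  have hdt := r19_dt P ht
  constructor
  · refine le_trans ?_ i1
    have hp1 : 0 < 1 - r19_d P := by linarith
    have h1 : Real.exp (-(r19_d P / (1 - r19_d P))) ≤ 1 - r19_d P := by
      have h2 := Real.one_sub_inv_le_log_of_pos hp1
      have h3 : 1 - (1 - r19_d P)⁻¹ = -(r19_d P / (1 - r19_d P)) := by
        field_simp
        ring
      rw [h3] at h2
      calc Real.exp (-(r19_d P / (1 - r19_d P))) ≤ Real.exp (Real.log (1 - r19_d P)) :=
            Real.exp_le_exp.2 h2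
        _ = _ := Real.exp_log hp1
    calc Real.exp (-(5 * P.y0 + 6)) ≤ Real.exp (t * (-(r19_d P / (1 - r19_d P)))) := by
          apply Real.exp_le_exp.2
          have h4 : (t : ℝ) * (r19_d P / (1 - r19_d P)) ≤ 5 * P.y0 + 6 := by
            rw [← mul_div_assoc, div_le_iff₀ hp1]
            nlinarith
          linarith
      _ = Real.exp (-(r19_d P / (1 - r19_d P))) ^ t := Real.exp_nat_mul _ _
      _ ≤ _ := pow_le_pow_left₀ (Real.exp_pos _).le h1 t
  · refine i2.trans ?_
    have h1 : 1 + r19_d P ≤ Real.exp (r19_d P) := by linarith [Real.add_one_le_exp (r19_d P)]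
    calc (1 + r19_d P) ^ t ≤ Real.exp (r19_d P) ^ t := pow_le_pow_left₀ (by linarith) h1 t
      _ = Real.exp (t * r19_d P) := (Real.exp_nat_mul _ _).symm
      _ ≤ _ := Real.exp_le_exp.2 (by linarith)

/-- restricting to good states changes little -/
theorem EE_W_good (A : Amb P V) (hI : IPres A) {t : ℕ} (ht : t ≤ P.T) (u v w : V) :
    |EE A t (fun s => ind (s.Good A) * s.W u v w) - EE A t (fun s => s.W u v w)|
      ≤ P.X (-1009900) := by
  rw [← EE_sub]
  have h1 : EE A t (fun s => ind (s.Good A) * s.W u v w - s.W u v w) ≤ EE A t (fun _ => 0) := by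
    refine EE_mono A hI ht fun s hs => ?_
    have hW := W_nonneg hs u v w
    have := ind_le_one (s.Good A)
    nlinarith
  have h2 : EE A t (fun s => -P.X 18 * ind (¬ s.Good A)) ≤
      EE A t (fun s => ind (s.Good A) * s.W u v w - s.W u v w) := by
    refine EE_mono A hI ht fun s hs => ?_
    have hW := W_le hs u v w
    have h3 := ind_nonneg (¬ s.Good A)
    rw [show ind (s.Good A) = 1 - ind (¬ s.Good A) by rw [ind_not]; ring]
    nlinarith
  rw [EE_const] at h1
  rw [EE_mul] at h2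
  have h3 : EE A t (fun s => ind (¬ s.Good A)) ≤ P.X (-1010000) := Pb_le A hI ht
  have h4 : P.X 18 * EE A t (fun s => ind (¬ s.Good A)) ≤ P.X (-1009900) := by
    calc P.X 18 * EE A t (fun s => ind (¬ s.Good A)) ≤ P.X 18 * P.X (-1010000) :=
          mul_le_mul_of_nonneg_left h3 (P.X_pos 18).le
      _ = P.X (18 + -1010000) := P.X_mul _ _
      _ ≤ _ := P.X_le (by norm_num)
  have h5 := P.X_pos (-1009900)
  rw [abs_le]
  constructor <;> linarith

/-- the clamp is inactive: exactness on `TT` -/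
theorem kt_mul_TT (A : Amb P V) (hI : IPres A) {t : ℕ} (ht : t ≤ P.T) {u v w : V}
    (h : A.TT u v w) : kt A t u v w * EE A t (fun s => ind (s.Good A) * s.W u v w) = 1 := by
  have hd : Amb.D3 u v w := h.1
  obtain ⟨b1, b2⟩ := EE_W_bounds A hI ht hd
  have b3 := abs_le.1 (EE_W_good A hI ht u v w)
  set g := EE A t (fun s => ind (s.Good A) * s.W u v w) with hg
  set E0 := EE A t (fun s => s.W u v w) with hE0
  have hK : P.Kp = 5 * P.y0 + 12 := by
    unfold Par.Kp Par.y0
    ring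
  have hy : P.y0 = 10 * P.Lam + 1 := rfl
  have hL := P.hLam
  have hxi : P.X (-1) ≤ Real.exp (-(5 * P.y0 + 6)) := by
    have h1 : Real.exp (5 * P.y0 + 6) ≤ P.x := by
      refine le_trans (Real.exp_le_exp.2 ?_) (P.exp_le (c := 61) (by norm_num))
      linarith
    rw [Real.exp_neg, ← P.X_one] at *
    rw [show (-1 : ℤ) = -1 by rfl, ← P.X_inv 1]
    exact inv_anti₀ (Real.exp_pos _) h1
  have hsmall : 4 * P.X (-1009900) ≤ P.X (-1) := P.mul_X_le (by
      have := P.two_pow_le (k := 2) (by norm_num)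
      norm_num at this
      linarith) (by norm_num)
  have e6 : Real.exp (-6 : ℝ) ≤ 1 / 4 := by
    have h1 : (4 : ℝ) ≤ Real.exp 6 := by linarith [Real.add_one_le_exp (6 : ℝ)]
    rw [Real.exp_neg, one_div]
    exact inv_anti₀ (by norm_num) h1
  have e6' : (2 : ℝ) ≤ Real.exp 6 := by linarith [Real.add_one_le_exp (6 : ℝ)]
  have hlow : Real.exp (-P.Kp) ≤ g := by
    have h1 : Real.exp (-P.Kp) = Real.exp (-(5 * P.y0 + 6)) * Real.exp (-6 : ℝ) := by
      rw [← Real.exp_add, hK]
      congr 1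
      ring
    have h2 := Real.exp_pos (-(5 * P.y0 + 6))
    rw [h1]
    nlinarith [b3.1]
  have hupp : g ≤ Real.exp P.Kp := by
    have h1 : Real.exp P.Kp = Real.exp (5 * P.y0 + 6) * Real.exp (6 : ℝ) := by
      rw [← Real.exp_add, hK]
      congr 1
      ring
    have h2 : 1 ≤ Real.exp (5 * P.y0 + 6) := Real.one_le_exp (by linarith)
    have h3 : P.X (-1009900) ≤ 1 := P.X_le_one (by norm_num)
    rw [h1]
    nlinarith [b3.2]
  have hg0 : 0 < g := lt_of_lt_of_le (Real.exp_pos _) hlow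
  have hinv1 : Real.exp (-P.Kp) ≤ g⁻¹ := by
    rw [Real.exp_neg]
    exact inv_anti₀ hg0 hupp
  have hinv2 : g⁻¹ ≤ Real.exp P.Kp := by
    have : Real.exp P.Kp = (Real.exp (-P.Kp))⁻¹ := by rw [Real.exp_neg, inv_inv]
    rw [this]
    exact inv_anti₀ (Real.exp_pos _) hlow
  have hk : kt A t u v w = g⁻¹ := by
    unfold kt kap
    rw [ind_pos ⟨hd, h.2.1⟩, one_mul, if_pos h, min_eq_right hinv2, max_eq_right hinv1]
  rw [hk, inv_mul_cancel₀ hg0.ne']

end MP5cA
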