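import Pool.Agent.Lib.MP_5c685b_co.A.R20a

/-!
# Route A', row R20: level three outside `TT` (text, section 7)

In all expectations below `out u s = ind (u ∉ s.F)`.
-/

set_option autoImplicit false
set_option linter.unusedVariables false
set_option linter.unusedSectionVars false

open Finset

namespace MP5cA

variable {V : Type} [Fintype V] [DecidableEq V] {P : Par}

/-! auxiliary lemmas of row R20b -/

private theorem R20b_big (P : Par) : (1000 : ℝ) ≤ P.x := by
  have := P.two_pow_le (k := 10) (by norm_num)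
  norm_num at this
  linarith

private theorem R20b_n (A : Amb P V) : (Fintype.card V : ℝ) = P.X 200000 := by
  rw [A.hc]
  push_cast
  rw [P.r_eq, P.X_pow]
  norm_num

private theorem R20b_ne (A : Amb P V) : Nonempty V := by
  have h := R20b_n A
  have h2 := P.X_pos 200000
  rw [← h] at h2
  exact Fintype.card_pos_iff.1 (by exact_mod_cast h2)

private theorem R20b_prod {a b d c B l m n : ℝ} (ha : 0 ≤ a) (hb : 0 ≤ b) (hd : 0 ≤ d)
    (hc : 0 ≤ c) (hl : 0 ≤ l) (hm : 0 ≤ m) (hn : 0 ≤ n) (haB : a ≤ B) (hbB : b ≤ B) (hdB : d ≤ B)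
    (h1 : a ≤ c + l) (h2 : b ≤ c + m) (h3 : d ≤ c + n) :
    a * b * d ≤ c ^ 3 + c ^ 2 * (l + m + n) + (c + B) * (l * m + l * n + m * n) := by
  have hB : 0 ≤ B := ha.trans haB
  have k : ∀ x y : ℝ, x ≤ B → x ≤ c + y → x ≤ c + min B y := by
    intro x y hx hy
    rcases le_total B y with h | h
    · rw [min_eq_left h]; linarith
    · rw [min_eq_right h]; exact hy
  have k1 := k a l haB h1
  have k2 := k b m hbB h2
  have k3 := k d n hdB h3
  have l0 : 0 ≤ min B l := le_min hB hl
  have m0 : 0 ≤ min B m := le_min hB hm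
  have n0 : 0 ≤ min B n := le_min hB hn
  have l1 : min B l ≤ l := min_le_right _ _
  have m1 : min B m ≤ m := min_le_right _ _
  have n1 : min B n ≤ n := min_le_right _ _
  have l2 : min B l ≤ B := min_le_left _ _
  generalize min B l = l' at *
  generalize min B m = m' at *
  generalize min B n = n' at *
  have e1 : a * b * d ≤ (c + l') * (c + m') * (c + n') := by
    apply mul_le_mul (mul_le_mul k1 k2 hb (by linarith)) k3 hd (by positivity)
  have e2 : l' * m' ≤ l * m := mul_le_mul l1 m1 m0 hl
  have e3 : l' * n' ≤ l * n := mul_le_mul l1 n1 n0 hl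
  have e4 : m' * n' ≤ m * n := mul_le_mul m1 n1 n0 hm
  have e5 : l' * (m' * n') ≤ B * (m * n) := mul_le_mul l2 e4 (by positivity) hB
  have e6 : 0 ≤ B * (l * m + l * n) := by positivity
  have e7 : c ^ 2 * (l' + m' + n') ≤ c ^ 2 * (l + m + n) := by gcongr
  have e8 : c * (l' * m' + l' * n' + m' * n') ≤ c * (l * m + l * n + m * n) := by gcongr
  nlinarith

private theorem R20b_av [Nonempty V] (a b c : ℝ) (f1 f2 f3 g1 g2 g3 : V → ℝ) :
    av (fun y => a + b * (f1 y + f2 y + f3 y) + c * (g1 y + g2 y + g3 y))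
      = a + b * (av f1 + av f2 + av f3) + c * (av g1 + av g2 + av g3) := by
  simp only [av_add, av_mul_left, av_const]

private theorem R20b_sumF (A : Amb P V) (hI : IPres A) {t : ℕ} (ht : t ≤ P.T) (f : V → ℝ)
    (hf : ∀ z, 0 ≤ f z) : EE A t (fun s => ∑ z ∈ s.F, f z) ≤ 5 * P.X 10001 * av f := by
  have := R20b_ne A
  have h1 : EE A t (fun s => ∑ z ∈ s.F, f z)
      = ∑ z : V, EE A t (fun s => f z * ind (({z} : Finset V) ⊆ s.F)) := by
    rw [← EE_sum]
    congr 1
    funext s
    have : ∀ z, f z * ind (({z} : Finset V) ⊆ s.F) = if z ∈ s.F then f z else 0 := by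
      intro z
      by_cases hz : z ∈ s.F
      · rw [if_pos hz, ind_pos (Finset.singleton_subset_iff.2 hz), mul_one]
      · rw [if_neg hz, ind_neg (fun h => hz (Finset.singleton_subset_iff.1 h)), mul_zero]
    rw [Finset.sum_congr rfl fun z _ => this z, Finset.sum_ite_mem, Finset.univ_inter]
  rw [h1]
  have h2 : ∀ z : V, EE A t (fun s => f z * ind (({z} : Finset V) ⊆ s.F))
      ≤ f z * (5 * P.X 10001 / P.X 200000) := by
    intro z
    rw [EE_mul]
    have := EE_dom A hI {z} t ht
    rw [Finset.card_singleton, pow_one] at this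
    exact mul_le_mul_of_nonneg_left this (hf z)
  refine (Finset.sum_le_sum fun z _ => h2 z).trans ?_
  rw [← Finset.sum_mul, sum_eq_card_mul_av, R20b_n A]
  have := P.X_ne 200000
  refine le_of_eq ?_
  field_simp

private theorem R20b_mem (A : Amb P V) (hI : IPres A) {t : ℕ} (ht : t ≤ P.T) (y : V) :
    EE A t (fun s => ind (y ∈ s.F)) ≤ 5 * P.X 10001 / P.X 200000 := by
  have := EE_dom A hI {y} t ht
  rw [Finset.card_singleton, pow_one] at this
  refine le_trans (le_of_eq ?_) this
  congr 1
  funext s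
  exact ind_congr Finset.singleton_subset_iff.symm

private theorem R20b_abs (A : Amb P V) (hI : IPres A) {t : ℕ} (ht : t ≤ P.T) (f : St V → ℝ) :
    |EE A t f| ≤ EE A t (fun s => |f s|) := by
  rw [abs_le]
  constructor
  · have h1 : EE A t (fun s => (-1) * |f s|) ≤ EE A t f :=
      EE_mono A hI ht fun s _ => by linarith [neg_abs_le (f s)]
    rw [EE_mul] at h1
    linarith
  · exact EE_mono A hI ht fun s _ => le_abs_self _

private theorem R20b_out_nonneg (A : Amb P V) (u v w : V) (s : St V) : 0 ≤ out3 A u v w s :=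
  ind_nonneg _

private theorem R20b_out_le (A : Amb P V) (u v w : V) (s : St V) : out3 A u v w s ≤ 1 :=
  ind_le_one _

private theorem R20b_out_s (A : Amb P V) (u v w : V) (s : St V) :
    out3 A u w v s = out3 A u v w s ∧ out3 A v w u s = out3 A u v w s ∧
    out3 A v u w s = out3 A u v w s ∧ out3 A w u v s = out3 A u v w s := by
  refine ⟨?_, ?_, ?_, ?_⟩ <;> exact ind_congr (by tauto)

/-- `E <a_u a_v a_w>` -/
theorem lvl_aaa (A : Amb P V) (hI : IPres A) {t : ℕ} (ht : t ≤ P.T) {u v w : V}
    (hd : Amb.D3 u v w) :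
    EE A t (fun s => out3 A u v w s * av fun y => s.R y * (s.aa u y * s.aa v y * s.aa w y))
      ≤ P.X (-28780) + P.X 40090 * (A.chi u v + A.chi u w + A.chi v w) := by
  have := R20b_ne A
  have hchi : 0 ≤ A.chi u v + A.chi u w + A.chi v w := by
    have := A.chi_nonneg u v
    have := A.chi_nonneg u w
    have := A.chi_nonneg v w
    linarith
  have hB : 0 ≤ P.X (-28780) + P.X 40090 * (A.chi u v + A.chi u w + A.chi v w) :=
    add_nonneg (P.X_pos _).le (mul_nonneg (P.X_pos _).le hchi)
  have key : ∀ s : St V, s.Inv A t →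
      out3 A u v w s * (av fun y => s.R y * (s.aa u y * s.aa v y * s.aa w y))
        ≤ P.X (-28780) + P.X 40090 * (A.chi u v + A.chi u w + A.chi v w) := by
    intro s hi
    unfold out3
    by_cases h : s.Good A ∧ u ∉ s.F ∧ v ∉ s.F ∧ w ∉ s.F
    · rw [ind_pos h, one_mul]
      obtain ⟨hg, hu, hv, hw⟩ := h
      have hX1 := P.X_pos 1
      have hc := P.X_pos (-9598)
      have hK := P.X_pos 20042
      have hR : ∀ y, s.R y ≤ P.X 1 := fun y => by rw [P.X_one]; exact hg.g1 y
      have haa : ∀ z y, s.aa z y ≤ P.X (-9598) + P.X 20042 * A.lam z y := fun z y =>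
        (aa_le hi hg ht z y).trans (by linarith [P.sS_le ht])
      have hl : ∀ z y, 0 ≤ P.X 20042 * A.lam z y := fun z y =>
        mul_nonneg hK.le (A.lam_nonneg z y)
      have hpt : ∀ y, s.R y * (s.aa u y * s.aa v y * s.aa w y) ≤ P.X 1 *
          (P.X (-9598) ^ 3 + P.X (-9598) ^ 2 * (P.X 20042 * A.lam u y + P.X 20042 * A.lam v y
            + P.X 20042 * A.lam w y) + (P.X (-9598) + P.X 1) *
            (P.X 20042 * A.lam u y * (P.X 20042 * A.lam v y) +
              P.X 20042 * A.lam u y * (P.X 20042 * A.lam w y) +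
              P.X 20042 * A.lam v y * (P.X 20042 * A.lam w y))) := by
        intro y
        have h1 := R20b_prod (aa_nonneg u y) (aa_nonneg v y) (aa_nonneg w y) hc.le (hl u y)
          (hl v y) (hl w y) (aa_le_x hi hg ht u y) (aa_le_x hi hg ht v y) (aa_le_x hi hg ht w y)
          (haa u y) (haa v y) (haa w y)
        refine mul_le_mul (hR y) h1 ?_ hX1.le
        exact mul_nonneg (mul_nonneg (aa_nonneg u y) (aa_nonneg v y)) (aa_nonneg w y)
      refine (av_mono hpt).trans ?_
      rw [av_mul_left, R20b_av]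
      have hlam : ∀ z, av (fun y => P.X 20042 * A.lam z y) ≤ P.X 20042 * P.eps ^ 2 := by
        intro z
        rw [av_mul_left]
        exact mul_le_mul_of_nonneg_left (A.av_lam z) hK.le
      have hll : ∀ z z', av (fun y => P.X 20042 * A.lam z y * (P.X 20042 * A.lam z' y))
          = P.X 40084 * A.chi z z' := by
        intro z z'
        have h1 : ∀ y, P.X 20042 * A.lam z y * (P.X 20042 * A.lam z' y)
            = P.X 40084 * (A.lam z y * A.lam z' y) := by
          intro y
          have : P.X 40084 = P.X 20042 * P.X 20042 := by rw [P.X_mul]; norm_num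
          rw [this]
          ring
        rw [av_congr h1, av_mul_left]
        rfl
      rw [hll, hll, hll]
      have hL := P.absorb (c := 3) (k := 2) (j := 2) (by norm_num) (by norm_num) (by norm_num)
      have heps : P.eps ^ 2 = P.Lam ^ 2 * P.X (-40000) := by
        unfold Par.eps
        rw [mul_pow, P.X_pow]
        norm_num
      have e1 : P.X 1 * P.X (-9598) ^ 3 = P.X (-28793) := by
        rw [P.X_pow, P.X_mul]
        norm_num
      have e2 : P.X 1 * (P.X (-9598) ^ 2 * (P.X 20042 * P.eps ^ 2 + P.X 20042 * P.eps ^ 2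
          + P.X 20042 * P.eps ^ 2)) ≤ P.X (-39151) := by
        have : P.X 1 * (P.X (-9598) ^ 2 * (P.X 20042 * P.eps ^ 2 + P.X 20042 * P.eps ^ 2
          + P.X 20042 * P.eps ^ 2)) = (3 * P.Lam ^ 2) * P.X (-39153) := by
          have h1 : P.X (-39153) = P.X 1 * P.X (-9598) ^ 2 * P.X 20042 * P.X (-40000) := by
            rw [P.X_pow, P.X_mul, P.X_mul, P.X_mul]
            norm_num
          rw [heps, h1]
          ring
        rw [this]
        exact P.mul_X_le hL (by norm_num)
      have e3 : P.X 1 * ((P.X (-9598) + P.X 1) * P.X 40084) ≤ P.X 40090 := by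
        have h1 : P.X (-9598) ≤ P.X 1 := P.X_le (by norm_num)
        have h2 := P.X_pos 40084
        calc P.X 1 * ((P.X (-9598) + P.X 1) * P.X 40084)
            ≤ P.X 1 * ((P.X 1 + P.X 1) * P.X 40084) :=
              mul_le_mul_of_nonneg_left (mul_le_mul_of_nonneg_right (by linarith) h2.le) hX1.le
          _ = 2 * (P.X 1 * P.X 1 * P.X 40084) := by ring
          _ = 2 * P.X 40086 := by rw [P.X_mul, P.X_mul]; norm_num
          _ ≤ P.X 40090 := P.mul_X_le (by linarith [R20b_big P]) (by norm_num)
      have e4 : P.X (-28793) + P.X (-39151) ≤ P.X (-28780) := by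
        have h1 : P.X (-39151) ≤ P.X (-28793) := P.X_le (by norm_num)
        have h2 : 2 * P.X (-28793) ≤ P.X (-28780) :=
          P.mul_X_le (by linarith [R20b_big P]) (by norm_num)
        linarith
      have e5 : P.X 1 * (P.X (-9598) ^ 2 * (av (fun y => P.X 20042 * A.lam u y)
          + av (fun y => P.X 20042 * A.lam v y) + av (fun y => P.X 20042 * A.lam w y)))
          ≤ P.X 1 * (P.X (-9598) ^ 2 * (P.X 20042 * P.eps ^ 2 + P.X 20042 * P.eps ^ 2
          + P.X 20042 * P.eps ^ 2)) := by
        have := hlam u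
        have := hlam v
        have := hlam w
        gcongr
      have e6 := mul_le_mul_of_nonneg_right e3 hchi
      nlinarith
    · rw [ind_neg h, zero_mul]
      exact hB
  refine (EE_mono A hI ht key).trans (le_of_eq ?_)
  rw [EE_const]

/-- `E <|al_w| hh_uv>` -/
theorem lvl_alhh (A : Amb P V) (hI : IPres A) {t : ℕ} (ht : t ≤ P.T) {u v w : V}
    (hd : Amb.D3 u v w) :
    EE A t (fun s => out3 A u v w s * av fun y => |s.al w y| * A.hh u v y)
      ≤ P.X (-29550) + P.X 20042 * A.nu w u v := by
  have := R20b_ne A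
  have hhn : ∀ y, 0 ≤ A.hh u v y := fun y => A.hh_nonneg u v y
  have hnu : A.nu w u v = av (fun y => A.hh u v y * A.lam w y) := rfl
  have hnu0 := A.nu_nonneg w u v
  have hK := P.X_pos 20042
  have hn : (Fintype.card V : ℝ) = P.X 200000 := R20b_n A
  have hav0 : 0 ≤ av (fun y => A.hh u v y) := av_nonneg hhn
  have key : ∀ s : St V, s.Inv A t →
      out3 A u v w s * (av fun y => |s.al w y| * A.hh u v y)
        ≤ (P.X (-9598) * av (fun y => A.hh u v y) + P.X 20042 * A.nu w u v + P.X (-200000))
          + av (fun y => A.hh u v y * (∑ z ∈ s.F, A.h z w y + ind (y ∈ s.F))) := by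
    intro s hi
    have hr : 0 ≤ av (fun y => A.hh u v y * (∑ z ∈ s.F, A.h z w y + ind (y ∈ s.F))) := by
      apply av_nonneg
      intro y
      have h1 : 0 ≤ ∑ z ∈ s.F, A.h z w y := Finset.sum_nonneg fun z _ => A.h_nonneg z w y
      have h2 := ind_nonneg (y ∈ s.F)
      have h3 := hhn y
      positivity
    unfold out3
    by_cases h : s.Good A ∧ u ∉ s.F ∧ v ∉ s.F ∧ w ∉ s.F
    · rw [ind_pos h, one_mul]
      obtain ⟨hg, hu, hv, hw⟩ := h
      have hpt : ∀ y, |s.al w y| * A.hh u v y ≤ P.X (-9598) * A.hh u v y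
          + P.X 20042 * (A.hh u v y * A.lam w y) + A.hh u v y * ind (y = w)
          + A.hh u v y * (∑ z ∈ s.F, A.h z w y + ind (y ∈ s.F)) := by
        intro y
        have h1 : s.bl w y ≤ s.bp A w y + ind (y ∈ s.F) + ind (y = w) := bl_le hi.sinv hw y
        have h2 : s.bp A w y ≤ ∑ z ∈ s.F, A.h z w y := bp_le_sum w y
        have h3 : s.aa w y ≤ P.X (-9598) + P.X 20042 * A.lam w y :=
          (aa_le hi hg ht w y).trans (by linarith [P.sS_le ht])
        have h4 : |s.al w y| ≤ P.X (-9598) + P.X 20042 * A.lam w y + ind (y = w)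
            + (∑ z ∈ s.F, A.h z w y + ind (y ∈ s.F)) := by
          rw [abs_al]
          linarith
        have h5 := mul_le_mul_of_nonneg_right h4 (hhn y)
        linarith
      refine (av_mono hpt).trans ?_
      rw [av_add, av_add, av_add, av_mul_left, av_mul_left, av_mul_ind_eq, ← hnu, hn]
      have h6 : A.hh u v w / P.X 200000 ≤ P.X (-200000) := by
        rw [div_eq_mul_inv, P.X_inv]
        have := A.hh_le_one u v w
        have := P.X_pos (-200000)
        nlinarith
      linarith
    · rw [ind_neg h, zero_mul]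
      exact add_nonneg (add_nonneg (add_nonneg (mul_nonneg (P.X_pos _).le hav0)
        (mul_nonneg hK.le hnu0)) (P.X_pos _).le) hr
  refine (EE_mono A hI ht key).trans ?_
  rw [EE_add, EE_const, EE_av]
  have h1 : ∀ y, EE A t (fun s => A.hh u v y * (∑ z ∈ s.F, A.h z w y + ind (y ∈ s.F)))
      ≤ A.hh u v y * (5 * P.X 10001 * P.eps + 5 * P.X 10001 / P.X 200000) := by
    intro y
    rw [EE_mul, EE_add]
    have h2 : EE A t (fun s => ∑ z ∈ s.F, A.h z w y) ≤ 5 * P.X 10001 * P.eps := by
      refine (R20b_sumF A hI ht _ fun z => A.h_nonneg z w y).trans ?_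
      have h3 := A.av_h1 w y
      have h4 := P.X_pos 10001
      exact mul_le_mul_of_nonneg_left h3 (by linarith)
    have h5 := R20b_mem A hI ht y
    have h6 := hhn y
    exact mul_le_mul_of_nonneg_left (add_le_add h2 h5) h6
  have h2 := av_mono h1
  rw [av_mul_right] at h2
  have h3 := A.av_hh u v
  have e1 : 5 * P.X 10001 * P.eps ≤ P.X (-9998) := by
    have hL := P.absorb (c := 5) (k := 3) (j := 1) (by norm_num) (by norm_num) (by norm_num)
    rw [pow_one] at hL
    have : 5 * P.X 10001 * P.eps = (5 * P.Lam) * P.X (-9999) := by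
      have h4 : P.X (-9999) = P.X 10001 * P.X (-20000) := by rw [P.X_mul]; norm_num
      unfold Par.eps
      rw [h4]
      ring
    rw [this]
    exact P.mul_X_le hL (by norm_num)
  have e2 : 5 * P.X 10001 / P.X 200000 ≤ P.X (-9998) := by
    rw [mul_div_assoc, P.X_div]
    exact P.mul_X_le (by linarith [R20b_big P]) (by norm_num)
  have hp1 := P.X_pos (-9998)
  have hp2 := P.X_pos (-9598)
  have hp3 := P.X_pos (-19957)
  have e3 : av (fun y => A.hh u v y) * (5 * P.X 10001 * P.eps + 5 * P.X 10001 / P.X 200000)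
      ≤ P.X (-19957) * (2 * P.X (-9998)) := by
    have hq : 0 ≤ 5 * P.X 10001 * P.eps + 5 * P.X 10001 / P.X 200000 := by
      have h7 := P.X_pos 10001
      exact add_nonneg (mul_nonneg (by linarith) P.eps_pos.le)
        (div_nonneg (by linarith) (P.X_pos _).le)
    apply mul_le_mul h3 (by linarith) hq hp3.le
  have e4 : P.X (-9598) * av (fun y => A.hh u v y) ≤ P.X (-29555) := by
    calc P.X (-9598) * av (fun y => A.hh u v y) ≤ P.X (-9598) * P.X (-19957) :=
          mul_le_mul_of_nonneg_left h3 hp2.le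
      _ = P.X (-29555) := by rw [P.X_mul]; norm_num
  have e5 : P.X (-19957) * (2 * P.X (-9998)) ≤ P.X (-29555) := by
    have : P.X (-19957) * (2 * P.X (-9998)) = 2 * P.X (-29955) := by
      have h4 : P.X (-29955) = P.X (-19957) * P.X (-9998) := by rw [P.X_mul]; norm_num
      rw [h4]
      ring
    rw [this]
    exact P.mul_X_le (by linarith [R20b_big P]) (by norm_num)
  have e6 : P.X (-200000) ≤ P.X (-29555) := P.X_le (by norm_num)
  have e7 : 3 * P.X (-29555) ≤ P.X (-29550) :=
    P.mul_X_le (by linarith [R20b_big P]) (by norm_num)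
  linarith

/-- the drift of `W` outside `TT` -/
theorem lvl_drift (A : Amb P V) (hI : IPres A) {t : ℕ} (ht : t < P.T) {u v w : V}
    (hd : Amb.D3 u v w) :
    EE A t (fun s => ind (s.Good A) * |s.step P (kt A t) (fun s' => s'.W u v w) - s.W u v w|)
      ≤ P.zeta * (P.X (-28760) + P.X 480 * (A.lam u v + A.lam u w + A.lam v w)
        + P.X 10010 * A.lam3 u v w
        + P.X 20060 * (A.nu w u v + A.nu v u w + A.nu u v w)
        + P.X 15 * (A.mu u v w + A.mu v u w + A.mu w u v)
        + P.X 40200 * (A.chi u v + A.chi u w + A.chi v w)) := by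
  have := R20b_ne A
  have hκ := kt_ok A t
  have hd2 : Amb.D3 u w v := Amb.D3_swap'.1 hd
  have hd3 : Amb.D3 v w u := ⟨hd.2.2, hd.1.symm, hd.2.1.symm⟩
  have hd4 : Amb.D3 v u w := ⟨hd.1.symm, hd.2.2, hd.2.1⟩
  have hd5 : Amb.D3 w u v := ⟨hd.2.1.symm, hd.2.2.symm, hd.1⟩
  set mus : ℝ := A.mu u v w + A.mu v u w + A.mu w u v with hmus
  have hmus0 : 0 ≤ mus := by
    have := A.mu_nonneg u v w
    have := A.mu_nonneg v u w
    have := A.mu_nonneg w u v
    linarith
  have key : ∀ s : St V, s.Inv A t →
      ind (s.Good A) * |s.step P (kt A t) (fun s' => s'.W u v w) - s.W u v w|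
        ≤ P.zeta * (P.X 6 * ((out3 A u v w s * (av fun y => s.R y * (s.bl u y * s.bl v y * s.bl w y)))
          + (out3 A u v w s * (av fun y => s.R y * (s.bl u y * s.bl v y * s.aa w y)))
          + (out3 A u w v s * (av fun y => s.R y * (s.bl u y * s.bl w y * s.aa v y)))
          + (out3 A v w u s * (av fun y => s.R y * (s.bl v y * s.bl w y * s.aa u y)))
          + (out3 A u v w s * (av fun y => s.R y * (s.bl u y * s.aa v y * s.aa w y)))
          + (out3 A v u w s * (av fun y => s.R y * (s.bl v y * s.aa u y * s.aa w y)))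
          + (out3 A w u v s * (av fun y => s.R y * (s.bl w y * s.aa u y * s.aa v y)))
          + (out3 A u v w s * (av fun y => s.R y * (s.aa u y * s.aa v y * s.aa w y)))
          + P.X 4 * ((out3 A u v w s * (av fun y => |s.al w y| * A.hh u v y))
            + (out3 A u w v s * (av fun y => |s.al v y| * A.hh u w y))
            + (out3 A v w u s * (av fun y => |s.al u y| * A.hh v w y)))
          + P.X 8 * mus)) + P.zeta * P.X (-99970) := by
    intro s hi
    have hR := hi.Rn
    have hnn : ∀ (f g h : V → ℝ), (∀ y, 0 ≤ f y) → (∀ y, 0 ≤ g y) → (∀ y, 0 ≤ h y) →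
        0 ≤ av fun y => s.R y * (f y * g y * h y) := fun f g h hf hg hh =>
      av_nonneg fun y => mul_nonneg (hR y) (mul_nonneg (mul_nonneg (hf y) (hg y)) (hh y))
    have hb : ∀ z y, 0 ≤ s.bl z y := fun z y => bl_nonneg z y
    have ha : ∀ z y, 0 ≤ s.aa z y := fun z y => aa_nonneg z y
    have hal : ∀ a b c : V, 0 ≤ av fun y => |s.al a y| * A.hh b c y := fun a b c =>
      av_nonneg fun y => mul_nonneg (abs_nonneg _) (A.hh_nonneg _ _ _)
    obtain ⟨o1, o2, o3, o4⟩ := R20b_out_s A u v w s
    rw [o1, o2, o3, o4]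
    have ho := R20b_out_nonneg A u v w s
    have hz := P.zeta_pos
    have hX6 := P.X_pos 6
    have hX4 := P.X_pos 4
    have hX8 := P.X_pos 8
    have hXm := P.X_pos (-99970)
    have hb1 := hnn _ _ _ (hb u) (hb v) (hb w)
    have hb2 := hnn _ _ _ (hb u) (hb v) (ha w)
    have hb3 := hnn _ _ _ (hb u) (hb w) (ha v)
    have hb4 := hnn _ _ _ (hb v) (hb w) (ha u)
    have hb5 := hnn _ _ _ (hb u) (ha v) (ha w)
    have hb6 := hnn _ _ _ (hb v) (ha u) (ha w)
    have hb7 := hnn _ _ _ (hb w) (ha u) (ha v)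
    have hb8 := hnn _ _ _ (ha u) (ha v) (ha w)
    have hc1 := hal w u v
    have hc2 := hal v u w
    have hc3 := hal u v w
    have q1 := mul_nonneg ho hb1
    have q2 := mul_nonneg ho hb2
    have q3 := mul_nonneg ho hb3
    have q4 := mul_nonneg ho hb4
    have q5 := mul_nonneg ho hb5
    have q6 := mul_nonneg ho hb6
    have q7 := mul_nonneg ho hb7
    have q8 := mul_nonneg ho hb8
    have q9 := mul_nonneg hX4.le (add_nonneg (add_nonneg (mul_nonneg ho hc1)
      (mul_nonneg ho hc2)) (mul_nonneg ho hc3))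
    have q10 := mul_nonneg hX8.le hmus0
    by_cases hg : s.Good A
    · rw [ind_pos hg, one_mul]
      have hsm := sml hi hg ht.le hκ
      have hW := hsm.step_W_le u v w
      have hW0 := W_nonneg hi u v w
      have hW6 := W_le' hi hg ht.le u v w
      have hTh := Th_le hκ hi hg ht.le hd
      have h1 : |s.step P (kt A t) (fun s' => s'.W u v w) - s.W u v w|
          ≤ P.zeta * (s.W u v w * |s.Th (kt A t) u v w|) + s.W u v w * (P.zeta ^ 2 * P.X 20) := by
        have e1 : s.step P (kt A t) (fun s' => s'.W u v w) - s.W u v w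
            = (s.step P (kt A t) (fun s' => s'.W u v w)
              - s.W u v w * (1 - P.zeta * s.Th (kt A t) u v w))
              - P.zeta * (s.W u v w * s.Th (kt A t) u v w) := by ring
        rw [e1]
        refine (abs_sub _ _).trans ?_
        have e2 : |P.zeta * (s.W u v w * s.Th (kt A t) u v w)|
            = P.zeta * (s.W u v w * |s.Th (kt A t) u v w|) := by
          rw [abs_mul, abs_mul, abs_of_pos hz, abs_of_nonneg hW0]
        rw [e2]
        linarith
      have h2 : s.W u v w * (P.zeta ^ 2 * P.X 20) ≤ P.zeta * P.X (-99970) := by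
        have e1 : P.X 6 * (P.zeta ^ 2 * P.X 20) = P.zeta * P.X (-99974) := by
          have : P.X (-99974) = P.X 6 * P.zeta * P.X 20 := by
            unfold Par.zeta
            rw [P.X_mul, P.X_mul]
            norm_num
          rw [this]
          ring
        have e2 : s.W u v w * (P.zeta ^ 2 * P.X 20) ≤ P.X 6 * (P.zeta ^ 2 * P.X 20) := by
          have := P.X_pos 20
          gcongr
        have e3 : P.X (-99974) ≤ P.X (-99970) := P.X_le (by norm_num)
        have e4 := mul_le_mul_of_nonneg_left e3 hz.le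
        linarith
      refine h1.trans (add_le_add ?_ h2)
      refine mul_le_mul_of_nonneg_left ?_ hz.le
      by_cases hWz : s.W u v w = 0
      · rw [hWz, zero_mul]
        refine mul_nonneg hX6.le ?_
        linarith
      · have hF := W_F hi hWz
        have hout : out3 A u v w s = 1 := ind_pos ⟨hg, hF.1, hF.2.1, hF.2.2⟩
        rw [hout]
        simp only [one_mul]
        refine mul_le_mul hW6 ?_ (abs_nonneg _) hX6.le
        have e1 : av (fun y => s.R y * (|s.al u y| * |s.al v y| * |s.al w y|))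
            = (av fun y => s.R y * (s.bl u y * s.bl v y * s.bl w y))
            + (av fun y => s.R y * (s.bl u y * s.bl v y * s.aa w y))
            + (av fun y => s.R y * (s.bl u y * s.bl w y * s.aa v y))
            + (av fun y => s.R y * (s.bl v y * s.bl w y * s.aa u y))
            + (av fun y => s.R y * (s.bl u y * s.aa v y * s.aa w y))
            + (av fun y => s.R y * (s.bl v y * s.aa u y * s.aa w y))
            + (av fun y => s.R y * (s.bl w y * s.aa u y * s.aa v y))
            + (av fun y => s.R y * (s.aa u y * s.aa v y * s.aa w y)) := by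
          simp only [← av_add]
          refine av_congr fun y => ?_
          rw [abs_al, abs_al, abs_al]
          ring
        rw [e1] at hTh
        exact hTh
    · rw [ind_neg hg, zero_mul]
      refine add_nonneg (mul_nonneg hz.le (mul_nonneg hX6.le ?_)) (mul_nonneg hz.le hXm.le)
      linarith
  refine (EE_mono A hI ht.le key).trans ?_
  simp only [EE_add, EE_mul, EE_const]
  have k1 := lvl_bbb A hI ht.le hd
  have k2 := lvl_bba A hI ht.le hd
  have k3 := lvl_bba A hI ht.le hd2
  have k4 := lvl_bba A hI ht.le hd3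
  have k5 := lvl_baa A hI ht.le hd
  have k6 := lvl_baa A hI ht.le hd4
  have k7 := lvl_baa A hI ht.le hd5
  have k8 := lvl_aaa A hI ht.le hd
  have k9 := lvl_alhh A hI ht.le hd
  have k10 := lvl_alhh A hI ht.le hd2
  have k11 := lvl_alhh A hI ht.le hd3
  rw [← mul_add]
  refine mul_le_mul_of_nonneg_left ?_ P.zeta_pos.le
  generalize EE A t (fun s => out3 A u v w s * (av fun y => s.R y * (s.bl u y * s.bl v y * s.bl w y))) = E1 at *
  generalize EE A t (fun s => out3 A u v w s * (av fun y => s.R y * (s.bl u y * s.bl v y * s.aa w y))) = E2 at *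
  generalize EE A t (fun s => out3 A u w v s * (av fun y => s.R y * (s.bl u y * s.bl w y * s.aa v y))) = E3 at *
  generalize EE A t (fun s => out3 A v w u s * (av fun y => s.R y * (s.bl v y * s.bl w y * s.aa u y))) = E4 at *
  generalize EE A t (fun s => out3 A u v w s * (av fun y => s.R y * (s.bl u y * s.aa v y * s.aa w y))) = E5 at *
  generalize EE A t (fun s => out3 A v u w s * (av fun y => s.R y * (s.bl v y * s.aa u y * s.aa w y))) = E6 at *
  generalize EE A t (fun s => out3 A w u v s * (av fun y => s.R y * (s.bl w y * s.aa u y * s.aa v y))) = E7 at *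
  generalize EE A t (fun s => out3 A u v w s * (av fun y => s.R y * (s.aa u y * s.aa v y * s.aa w y))) = E8 at *
  generalize EE A t (fun s => out3 A u v w s * (av fun y => |s.al w y| * A.hh u v y)) = E9 at *
  generalize EE A t (fun s => out3 A u w v s * (av fun y => |s.al v y| * A.hh u w y)) = E10 at *
  generalize EE A t (fun s => out3 A v w u s * (av fun y => |s.al u y| * A.hh v w y)) = E11 at *
  have hL0 : 0 ≤ A.lam u v + A.lam u w + A.lam v w := by
    have := A.lam_nonneg u v
    have := A.lam_nonneg u w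
    have := A.lam_nonneg v w
    linarith
  have hN0 : 0 ≤ A.nu w u v + A.nu v u w + A.nu u v w := by
    have := A.nu_nonneg w u v
    have := A.nu_nonneg v u w
    have := A.nu_nonneg u v w
    linarith
  have hC0 : 0 ≤ A.chi u v + A.chi u w + A.chi v w := by
    have := A.chi_nonneg u v
    have := A.chi_nonneg u w
    have := A.chi_nonneg v w
    linarith
  have hT0 := A.lam3_nonneg u v w
  set LL : ℝ := A.lam u v + A.lam u w + A.lam v w with hLL
  set NN : ℝ := A.nu w u v + A.nu v u w + A.nu u v w with hNN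
  set CC : ℝ := A.chi u v + A.chi u w + A.chi v w with hCC
  have hX6 := P.X_pos 6
  have hX4 := P.X_pos 4
  have s1 : P.X 4 * (E9 + E10 + E11) ≤ 3 * P.X (-29546) + P.X 20046 * NN := by
    have h1 : E9 + E10 + E11 ≤ 3 * P.X (-29550) + P.X 20042 * NN := by
      rw [hNN]
      linarith
    have h2 := mul_le_mul_of_nonneg_left h1 hX4.le
    have h3 : P.X 4 * (3 * P.X (-29550) + P.X 20042 * NN)
        = 3 * (P.X 4 * P.X (-29550)) + (P.X 4 * P.X 20042) * NN := by ring
    have h4 : P.X 4 * P.X (-29550) = P.X (-29546) := by rw [P.X_mul]; norm_num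
    have h5 : P.X 4 * P.X 20042 = P.X 20046 := by rw [P.X_mul]; norm_num
    rw [h3, h4, h5] at h2
    exact h2
  have s2 : E1 + E2 + E3 + E4 + E5 + E6 + E7 + E8 + P.X 4 * (E9 + E10 + E11) + P.X 8 * mus
      ≤ (P.X (-29990) + 3 * P.X (-29590) + 3 * P.X (-29180) + P.X (-28780) + 3 * P.X (-29546))
        + (P.X 5 + P.X 410) * LL + P.X 10003 * A.lam3 u v w + P.X 20046 * NN + P.X 8 * mus
        + (P.X 30090 + P.X 40090) * CC := by
    have h1 : P.X 410 * A.lam u v + P.X 410 * A.lam u w + P.X 410 * A.lam v w = P.X 410 * LL := by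
      rw [hLL]
      ring
    have h2 : P.X 30090 * A.chi v w + P.X 30090 * A.chi u w + P.X 30090 * A.chi u v
        = P.X 30090 * CC := by
      rw [hCC]
      ring
    linarith
  have s3 := mul_le_mul_of_nonneg_left s2 hX6.le
  have s4 : P.X 6 * ((P.X (-29990) + 3 * P.X (-29590) + 3 * P.X (-29180) + P.X (-28780)
        + 3 * P.X (-29546))
        + (P.X 5 + P.X 410) * LL + P.X 10003 * A.lam3 u v w + P.X 20046 * NN + P.X 8 * mus
        + (P.X 30090 + P.X 40090) * CC)
      = (P.X 6 * P.X (-29990) + 3 * (P.X 6 * P.X (-29590)) + 3 * (P.X 6 * P.X (-29180))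
          + P.X 6 * P.X (-28780) + 3 * (P.X 6 * P.X (-29546)))
        + (P.X 6 * P.X 5 + P.X 6 * P.X 410) * LL + (P.X 6 * P.X 10003) * A.lam3 u v w
        + (P.X 6 * P.X 20046) * NN + (P.X 6 * P.X 8) * mus
        + (P.X 6 * P.X 30090 + P.X 6 * P.X 40090) * CC := by ring
  rw [s4] at s3
  have p1 : P.X 6 * P.X (-29990) ≤ P.X (-28774) := by
    rw [P.X_mul]
    exact P.X_le (by norm_num)
  have p2 : P.X 6 * P.X (-29590) ≤ P.X (-28774) := by
    rw [P.X_mul]
    exact P.X_le (by norm_num)
  have p3 : P.X 6 * P.X (-29180) ≤ P.X (-28774) := by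
    rw [P.X_mul]
    exact P.X_le (by norm_num)
  have p4 : P.X 6 * P.X (-28780) ≤ P.X (-28774) := by
    rw [P.X_mul]
    exact P.X_le (by norm_num)
  have p5 : P.X 6 * P.X (-29546) ≤ P.X (-28774) := by
    rw [P.X_mul]
    exact P.X_le (by norm_num)
  have p6 : P.X (-99970) ≤ P.X (-28774) := P.X_le (by norm_num)
  have p7 : 12 * P.X (-28774) ≤ P.X (-28760) :=
    P.mul_X_le (by linarith [R20b_big P]) (by norm_num)
  have p8 : P.X 6 * P.X 5 + P.X 6 * P.X 410 ≤ P.X 480 := by
    have h1 : P.X 6 * P.X 5 ≤ P.X 416 := by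
      rw [P.X_mul]
      exact P.X_le (by norm_num)
    have h2 : P.X 6 * P.X 410 ≤ P.X 416 := by
      rw [P.X_mul]
      exact P.X_le (by norm_num)
    have h3 : 2 * P.X 416 ≤ P.X 480 := P.mul_X_le (by linarith [R20b_big P]) (by norm_num)
    linarith
  have p9 : P.X 6 * P.X 10003 ≤ P.X 10010 := by
    rw [P.X_mul]
    exact P.X_le (by norm_num)
  have p10 : P.X 6 * P.X 20046 ≤ P.X 20060 := by
    rw [P.X_mul]
    exact P.X_le (by norm_num)
  have p11 : P.X 6 * P.X 8 ≤ P.X 15 := by
    rw [P.X_mul]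
    exact P.X_le (by norm_num)
  have p12 : P.X 6 * P.X 30090 + P.X 6 * P.X 40090 ≤ P.X 40200 := by
    have h1 : P.X 6 * P.X 30090 ≤ P.X 40096 := by
      rw [P.X_mul]
      exact P.X_le (by norm_num)
    have h2 : P.X 6 * P.X 40090 ≤ P.X 40096 := by
      rw [P.X_mul]
      exact P.X_le (by norm_num)
    have h3 : 2 * P.X 40096 ≤ P.X 40200 := P.mul_X_le (by linarith [R20b_big P]) (by norm_num)
    linarith
  have t1 := mul_le_mul_of_nonneg_right p8 hL0
  have t2 := mul_le_mul_of_nonneg_right p9 hT0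
  have t3 := mul_le_mul_of_nonneg_right p10 hN0
  have t4 := mul_le_mul_of_nonneg_right p11 hmus0
  have t5 := mul_le_mul_of_nonneg_right p12 hC0
  linarith

/-- level three outside `TT` -/
theorem lvl3 (A : Amb P V) (hI : IPres A) {t : ℕ} (ht : t ≤ P.T) {u v w : V}
    (hd : Amb.D3 u v w) (hH : ¬ A.H u v w) (hT : ¬ A.TT u v w) :
    |EE A t (fun s => ind (s.Good A) * s.W u v w) - 1| ≤ A.Psi u v w + P.X (-50000) := by
  have hL0 : 0 ≤ A.lam u v + A.lam u w + A.lam v w := by
    have := A.lam_nonneg u v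
    have := A.lam_nonneg u w
    have := A.lam_nonneg v w
    linarith
  have hN0 : 0 ≤ A.nu w u v + A.nu v u w + A.nu u v w := by
    have := A.nu_nonneg w u v
    have := A.nu_nonneg v u w
    have := A.nu_nonneg u v w
    linarith
  have hM0 : 0 ≤ A.mu u v w + A.mu v u w + A.mu w u v := by
    have := A.mu_nonneg u v w
    have := A.mu_nonneg v u w
    have := A.mu_nonneg w u v
    linarith
  have hC0 : 0 ≤ A.chi u v + A.chi u w + A.chi v w := by
    have := A.chi_nonneg u v
    have := A.chi_nonneg u w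
    have := A.chi_nonneg v w
    linarith
  have hT0 := A.lam3_nonneg u v w
  have hlt : A.lam3 u v w < P.theta := by
    by_contra h
    exact hT ⟨hd, hH, not_lt.1 h⟩
  set D : ℝ := P.X (-28760) + P.X 480 * (A.lam u v + A.lam u w + A.lam v w)
        + P.X 10010 * A.lam3 u v w
        + P.X 20060 * (A.nu w u v + A.nu v u w + A.nu u v w)
        + P.X 15 * (A.mu u v w + A.mu v u w + A.mu w u v)
        + P.X 40200 * (A.chi u v + A.chi u w + A.chi v w) with hD
  have hD0 : 0 ≤ D := by
    have h1 := P.X_pos (-28760)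
    have h2 := mul_nonneg (P.X_pos 480).le hL0
    have h3 := mul_nonneg (P.X_pos 10010).le hT0
    have h4 := mul_nonneg (P.X_pos 20060).le hN0
    have h5 := mul_nonneg (P.X_pos 15).le hM0
    have h6 := mul_nonneg (P.X_pos 40200).le hC0
    linarith
  have h0 : (s0 : St V).W u v w = 1 := by
    unfold St.W s0
    simp only
    rw [ind_pos hd.1, ind_pos hd.2.1, ind_pos hd.2.2]
    norm_num
  have hind : ∀ i : ℕ, i ≤ P.T → |EE A i (fun s => s.W u v w) - 1| ≤ i * (P.zeta * D) := by
    intro i
    induction i with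
    | zero =>
      intro _
      rw [EE_zero, h0, sub_self, abs_zero, Nat.cast_zero, zero_mul]
    | succ i ih =>
      intro hi
      have h1 := ih (by omega)
      have h2 := EE_succ_sub A i (fun s => s.W u v w)
      have h3 := R20b_abs A hI (show i ≤ P.T by omega)
        (fun s => ind (s.Good A) * (s.step P (kt A i) (fun s' => s'.W u v w) - s.W u v w))
      rw [← h2] at h3
      have h4 : EE A i (fun s => |ind (s.Good A) *
          (s.step P (kt A i) (fun s' => s'.W u v w) - s.W u v w)|) ≤ P.zeta * D := by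
        refine le_trans (le_of_eq ?_) (lvl_drift A hI (show i < P.T by omega) hd)
        congr 1
        funext s
        rw [abs_mul, abs_of_nonneg (ind_nonneg _)]
      have h5 := abs_add_le (EE A (i + 1) (fun s => s.W u v w) - EE A i (fun s => s.W u v w))
        (EE A i (fun s => s.W u v w) - 1)
      rw [sub_add_sub_cancel] at h5
      push_cast
      linarith
  have h1 := hind t ht
  have h2 : (t : ℝ) * (P.zeta * D) ≤ 5 * P.X 10000 * D := by
    have h3 : P.zeta * (t : ℝ) ≤ 5 * P.X 10000 := P.zeta_t_le ht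
    calc (t : ℝ) * (P.zeta * D) = P.zeta * t * D := by ring
      _ ≤ 5 * P.X 10000 * D := mul_le_mul_of_nonneg_right h3 hD0
  have h3 := EE_W_good A hI ht u v w
  have h4 := abs_add_le (EE A t (fun s => ind (s.Good A) * s.W u v w)
    - EE A t (fun s => s.W u v w)) (EE A t (fun s => s.W u v w) - 1)
  rw [sub_add_sub_cancel] at h4
  have h5 : P.X (-1009900) ≤ P.X (-50000) := P.X_le (by norm_num)
  have h6 : 5 * P.X 10000 * D ≤ A.Psi u v w := by
    have e1 : 5 * P.X 10000 * D = 5 * (P.X 10000 * P.X (-28760))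
        + 5 * (P.X 10000 * P.X 480) * (A.lam u v + A.lam u w + A.lam v w)
        + 5 * (P.X 10000 * P.X 10010) * A.lam3 u v w
        + 5 * (P.X 10000 * P.X 20060) * (A.nu w u v + A.nu v u w + A.nu u v w)
        + 5 * (P.X 10000 * P.X 15) * (A.mu u v w + A.mu v u w + A.mu w u v)
        + 5 * (P.X 10000 * P.X 40200) * (A.chi u v + A.chi u w + A.chi v w) := by
      rw [hD]
      ring
    have h5x : (5 : ℝ) ≤ P.x := by linarith [R20b_big P]
    have q : ∀ a b c : ℤ, a + b + 1 ≤ c → 5 * (P.X a * P.X b) ≤ P.X c := by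
      intro a b c h
      rw [P.X_mul]
      exact P.mul_X_le h5x h
    have q1 := q 10000 (-28760) (-18600) (by norm_num)
    have q2 := mul_le_mul_of_nonneg_right (q 10000 480 10500 (by norm_num)) hL0
    have q3 := mul_le_mul_of_nonneg_right (q 10000 10010 20020 (by norm_num)) hT0
    have q4 := mul_le_mul_of_nonneg_right (q 10000 20060 30080 (by norm_num)) hN0
    have q5 := mul_le_mul_of_nonneg_right (q 10000 15 10020 (by norm_num)) hM0
    have q6 := mul_le_mul_of_nonneg_right (q 10000 40200 50220 (by norm_num)) hC0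
    rw [e1]
    unfold Amb.Psi
    rw [ind_pos hlt, mul_one]
    linarith
  linarith

/-- combined with R19 -/
theorem lvl3_all (A : Amb P V) (hI : IPres A) {t : ℕ} (ht : t ≤ P.T) {u v w : V}
    (hd : Amb.D3 u v w) (hH : ¬ A.H u v w) :
    |kt A t u v w * EE A t (fun s => ind (s.Good A) * s.W u v w) - 1|
      ≤ A.Psi u v w + P.X (-50000) := by
  by_cases hT : A.TT u v w
  · rw [kt_mul_TT A hI ht hT, sub_self, abs_zero]
    have := A.Psi_nonneg u v w
    have := P.X_pos (-50000)
    positivity
  · rw [(kt_ok A t).k1 u v w hd hH hT, one_mul]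
    exact lvl3 A hI ht hd hH hT

end MP5cA
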