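import Pool.Agent.Lib.MP_5c685b_co.A.R19

/-!
# Route A', row R20a: level three outside `TT` (text, section 7): `bbb`, `bba`, `baa`

In all expectations below `out u s = ind (u ∉ s.F)`.
-/

set_option autoImplicit false
set_option linter.unusedVariables false
set_option linter.unusedSectionVars false

open Finset

namespace MP5cA

variable {V : Type} [Fintype V] [DecidableEq V] {P : Par}

/-- indicator that the state is good and `u, v, w` are outside `F` -/
noncomputable def out3 (A : Amb P V) (u v w : V) (s : St V) : ℝ :=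
  ind (s.Good A ∧ u ∉ s.F ∧ v ∉ s.F ∧ w ∉ s.F)

/-! ### auxiliary lemmas (row R20a) -/

attribute [local irreducible] Par.X

/-- sums over `F` as sums over `V` -/
theorem R20a_sumF (F : Finset V) (f : V → ℝ) : ∑ a ∈ F, f a = ∑ a, f a * ind (a ∈ F) := by
  have h : ∀ a, f a * ind (a ∈ F) = if a ∈ F then f a else 0 := by
    intro a
    by_cases ha : a ∈ F
    · rw [ind_pos ha, if_pos ha, mul_one]
    · rw [ind_neg ha, if_neg ha, mul_zero]
  rw [Finset.sum_congr rfl fun a _ => h a, Finset.sum_ite_mem, Finset.univ_inter]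

theorem R20a_q_nonneg : (0 : ℝ) ≤ 5 * P.X 10001 / P.X 200000 :=
  (div_pos (mul_pos (by norm_num) (P.X_pos 10001)) (P.X_pos 200000)).le

theorem R20a_n (A : Amb P V) : (Fintype.card V : ℝ) = P.X 200000 := by
  rw [A.hc]
  push_cast
  rw [P.r_eq, P.X_pow]
  norm_num

theorem R20a_ne (A : Amb P V) : Nonempty V := by
  refine Fintype.card_pos_iff.1 ?_
  have h1 : (0 : ℝ) < (Fintype.card V : ℝ) := by
    rw [R20a_n A]
    exact P.X_pos _
  exact_mod_cast h1

theorem R20a_P1 (A : Amb P V) (hI : IPres A) {t : ℕ} (ht : t ≤ P.T) (a : V) :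
    EE A t (fun s => ind (a ∈ s.F)) ≤ 5 * P.X 10001 / P.X 200000 := by
  have h := EE_dom A hI {a} t ht
  rw [Finset.card_singleton, pow_one] at h
  refine le_trans (le_of_eq ?_) h
  congr 1
  funext s
  exact ind_congr (by simp)

theorem R20a_P2 (A : Amb P V) (hI : IPres A) {t : ℕ} (ht : t ≤ P.T) (a b : V) :
    EE A t (fun s => ind (a ∈ s.F) * ind (b ∈ s.F)) ≤
      (5 * P.X 10001 / P.X 200000) ^ 2
        + (5 * P.X 10001 / P.X 200000) * (if a = b then 1 else 0) := by
  have hq := R20a_q_nonneg (P := P)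
  by_cases hab : a = b
  · subst hab
    rw [if_pos rfl, mul_one]
    have h1 : EE A t (fun s => ind (a ∈ s.F) * ind (a ∈ s.F)) = EE A t (fun s => ind (a ∈ s.F)) := by
      congr 1
      funext s
      exact ind_mul_self _
    rw [h1]
    have h2 := R20a_P1 A hI ht a
    have h3 := sq_nonneg (5 * P.X 10001 / P.X 200000)
    linarith
  · rw [if_neg hab, mul_zero, add_zero]
    have h := EE_dom A hI {a, b} t ht
    rw [Finset.card_pair hab] at h
    refine le_trans (le_of_eq ?_) h
    congr 1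
    funext s
    rw [← ind_and]
    exact ind_congr (by simp [Finset.insert_subset_iff])

theorem R20a_P3 (A : Amb P V) (hI : IPres A) {t : ℕ} (ht : t ≤ P.T) (a b c : V) :
    EE A t (fun s => ind (a ∈ s.F) * ind (b ∈ s.F) * ind (c ∈ s.F)) ≤
      (5 * P.X 10001 / P.X 200000) ^ 3
        + (5 * P.X 10001 / P.X 200000) ^ 2 * ((if a = b then 1 else 0) + (if a = c then 1 else 0)
          + (if b = c then 1 else 0))
        + (5 * P.X 10001 / P.X 200000) * ((if a = b then 1 else 0) * (if a = c then 1 else 0)) := by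
  have hq := R20a_q_nonneg (P := P)
  generalize hqq : 5 * P.X 10001 / P.X 200000 = q at hq
  have hq2 : 0 ≤ q ^ 2 := by positivity
  have hq3 : 0 ≤ q ^ 3 := by positivity
  have P2 := fun a b => R20a_P2 A hI ht a b
  rw [hqq] at P2
  by_cases hab : a = b
  · subst hab
    have h1 : EE A t (fun s => ind (a ∈ s.F) * ind (a ∈ s.F) * ind (c ∈ s.F))
        = EE A t (fun s => ind (a ∈ s.F) * ind (c ∈ s.F)) := by
      congr 1
      funext s
      rw [ind_mul_self]
    rw [h1, if_pos rfl, one_mul]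
    refine (P2 a c).trans ?_
    by_cases hac : a = c
    · rw [if_pos hac]
      nlinarith
    · rw [if_neg hac]
      nlinarith
  · by_cases hac : a = c
    · subst hac
      have h1 : EE A t (fun s => ind (a ∈ s.F) * ind (b ∈ s.F) * ind (a ∈ s.F))
          = EE A t (fun s => ind (a ∈ s.F) * ind (b ∈ s.F)) := by
        congr 1
        funext s
        rw [mul_right_comm, ind_mul_self]
      rw [h1, if_neg hab, if_pos rfl, if_neg (Ne.symm hab)]
      have h2 := P2 a b
      rw [if_neg hab] at h2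
      nlinarith
    · by_cases hbc : b = c
      · subst hbc
        have h1 : EE A t (fun s => ind (a ∈ s.F) * ind (b ∈ s.F) * ind (b ∈ s.F))
            = EE A t (fun s => ind (a ∈ s.F) * ind (b ∈ s.F)) := by
          congr 1
          funext s
          rw [mul_assoc, ind_mul_self]
        rw [h1, if_neg hab, if_pos rfl]
        have h2 := P2 a b
        rw [if_neg hab] at h2
        nlinarith
      · rw [if_neg hab, if_neg hac, if_neg hbc]
        have h := EE_dom A hI {a, b, c} t ht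
        rw [hqq, Finset.card_eq_three.2 ⟨a, b, c, hab, hac, hbc, rfl⟩] at h
        have h1 : EE A t (fun s => ind (a ∈ s.F) * ind (b ∈ s.F) * ind (c ∈ s.F))
            = EE A t (fun s => ind ({a, b, c} ⊆ s.F)) := by
          congr 1
          funext s
          rw [← ind_and, ← ind_and]
          exact ind_congr (by simp [Finset.insert_subset_iff, and_assoc])
        rw [h1]
        linarith

theorem R20a_sum_av (A : Amb P V) (f : V → ℝ) : ∑ a, f a = P.X 200000 * av f := by
  have := R20a_ne A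
  rw [sum_eq_card_mul_av, R20a_n A]

/-- one sum over `F` -/
theorem R20a_E1 (A : Amb P V) (hI : IPres A) {t : ℕ} (ht : t ≤ P.T) {f : V → ℝ}
    (hf : ∀ a, 0 ≤ f a) :
    EE A t (fun s => ∑ a ∈ s.F, f a) ≤ 5 * P.X 10001 * av f := by
  have h1 : EE A t (fun s => ∑ a ∈ s.F, f a)
      = ∑ a, f a * EE A t (fun s => ind (a ∈ s.F)) := by
    rw [← Finset.sum_congr rfl fun a _ => EE_mul A t (f a) _, ← EE_sum]
    congr 1
    funext s
    exact R20a_sumF s.F f
  rw [h1]
  have h2 := P.X_ne 200000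
  calc ∑ a, f a * EE A t (fun s => ind (a ∈ s.F))
      ≤ ∑ a, f a * (5 * P.X 10001 / P.X 200000) :=
        Finset.sum_le_sum fun a _ => mul_le_mul_of_nonneg_left (R20a_P1 A hI ht a) (hf a)
    _ = 5 * P.X 10001 * av f := by
        rw [← Finset.sum_mul, R20a_sum_av A]
        field_simp

/-- two sums over `F` -/
theorem R20a_E2 (A : Amb P V) (hI : IPres A) {t : ℕ} (ht : t ≤ P.T) {f g : V → ℝ}
    (hf : ∀ a, 0 ≤ f a) (hg : ∀ a, 0 ≤ g a) :
    EE A t (fun s => (∑ a ∈ s.F, f a) * ∑ b ∈ s.F, g b) ≤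
      (5 * P.X 10001) ^ 2 * (av f * av g) + 5 * P.X 10001 * av (fun a => f a * g a) := by
  have h1 : EE A t (fun s => (∑ a ∈ s.F, f a) * ∑ b ∈ s.F, g b)
      = ∑ a, ∑ b, f a * g b * EE A t (fun s => ind (a ∈ s.F) * ind (b ∈ s.F)) := by
    have h0 : ∀ a, ∑ b, f a * g b * EE A t (fun s => ind (a ∈ s.F) * ind (b ∈ s.F))
        = EE A t (fun s => ∑ b, f a * g b * (ind (a ∈ s.F) * ind (b ∈ s.F))) := by
      intro a
      rw [EE_sum]
      exact Finset.sum_congr rfl fun b _ => (EE_mul A t (f a * g b) _).symm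
    rw [Finset.sum_congr rfl fun a _ => h0 a, ← EE_sum]
    congr 1
    funext s
    rw [R20a_sumF s.F f, R20a_sumF s.F g, Finset.sum_mul_sum]
    exact Finset.sum_congr rfl fun a _ => Finset.sum_congr rfl fun b _ => by ring
  rw [h1]
  have hX := P.X_ne 200000
  generalize hqq : 5 * P.X 10001 / P.X 200000 = q
  have hq : 5 * P.X 10001 = q * P.X 200000 := by
    rw [← hqq]
    field_simp
  have h2 : ∀ a b, f a * g b * EE A t (fun s => ind (a ∈ s.F) * ind (b ∈ s.F)) ≤
      f a * g b * (q ^ 2 + q * (if a = b then 1 else 0)) := by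
    intro a b
    refine mul_le_mul_of_nonneg_left ?_ (mul_nonneg (hf a) (hg b))
    have h3 := R20a_P2 A hI ht a b
    rwa [hqq] at h3
  have h3 : ∀ a, ∑ b, f a * g b * (q ^ 2 + q * (if a = b then 1 else 0))
      = q ^ 2 * (∑ b, g b) * f a + q * (f a * g a) := by
    intro a
    have e1 : ∑ b, g b * (if a = b then (1 : ℝ) else 0) = g a := by simp
    calc ∑ b, f a * g b * (q ^ 2 + q * (if a = b then 1 else 0))
        = (q ^ 2 * f a) * (∑ b, g b) + q * f a * ∑ b, g b * (if a = b then (1 : ℝ) else 0) := by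
          rw [Finset.mul_sum, Finset.mul_sum, ← Finset.sum_add_distrib]
          exact Finset.sum_congr rfl fun b _ => by ring
      _ = _ := by rw [e1]; ring
  calc ∑ a, ∑ b, f a * g b * EE A t (fun s => ind (a ∈ s.F) * ind (b ∈ s.F))
      ≤ ∑ a, ∑ b, f a * g b * (q ^ 2 + q * (if a = b then 1 else 0)) :=
        Finset.sum_le_sum fun a _ => Finset.sum_le_sum fun b _ => h2 a b
    _ = q ^ 2 * (∑ b, g b) * (∑ a, f a) + q * ∑ a, f a * g a := by
        rw [Finset.sum_congr rfl fun a _ => h3 a, Finset.sum_add_distrib, ← Finset.mul_sum,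
          ← Finset.mul_sum]
    _ = (5 * P.X 10001) ^ 2 * (av f * av g) + 5 * P.X 10001 * av (fun a => f a * g a) := by
        rw [R20a_sum_av A, R20a_sum_av A, R20a_sum_av A, hq]
        ring

/-- three sums over `F` -/
theorem R20a_E3 (A : Amb P V) (hI : IPres A) {t : ℕ} (ht : t ≤ P.T) {f g k : V → ℝ}
    (hf : ∀ a, 0 ≤ f a) (hg : ∀ a, 0 ≤ g a) (hk : ∀ a, 0 ≤ k a) :
    EE A t (fun s => (∑ a ∈ s.F, f a) * (∑ b ∈ s.F, g b) * ∑ c ∈ s.F, k c) ≤
      (5 * P.X 10001) ^ 3 * (av f * av g * av k)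
        + (5 * P.X 10001) ^ 2 * (av (fun a => f a * g a) * av k + av (fun a => f a * k a) * av g
          + av f * av (fun a => g a * k a))
        + 5 * P.X 10001 * av (fun a => f a * g a * k a) := by
  have h1 : EE A t (fun s => (∑ a ∈ s.F, f a) * (∑ b ∈ s.F, g b) * ∑ c ∈ s.F, k c)
      = ∑ a, ∑ b, ∑ c, f a * g b * k c *
        EE A t (fun s => ind (a ∈ s.F) * ind (b ∈ s.F) * ind (c ∈ s.F)) := by
    have h0 : ∀ a b, ∑ c, f a * g b * k c *
        EE A t (fun s => ind (a ∈ s.F) * ind (b ∈ s.F) * ind (c ∈ s.F))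
        = EE A t (fun s => ∑ c, f a * g b * k c *
          (ind (a ∈ s.F) * ind (b ∈ s.F) * ind (c ∈ s.F))) := by
      intro a b
      rw [EE_sum]
      exact Finset.sum_congr rfl fun c _ => (EE_mul A t (f a * g b * k c) _).symm
    have h0' : ∀ a, ∑ b, ∑ c, f a * g b * k c *
        EE A t (fun s => ind (a ∈ s.F) * ind (b ∈ s.F) * ind (c ∈ s.F))
        = EE A t (fun s => ∑ b, ∑ c, f a * g b * k c *
          (ind (a ∈ s.F) * ind (b ∈ s.F) * ind (c ∈ s.F))) := by
      intro a
      rw [EE_sum]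
      exact Finset.sum_congr rfl fun b _ => h0 a b
    rw [Finset.sum_congr rfl fun a _ => h0' a, ← EE_sum]
    congr 1
    funext s
    rw [R20a_sumF s.F f, R20a_sumF s.F g, R20a_sumF s.F k, Finset.sum_mul_sum, Finset.sum_mul]
    refine Finset.sum_congr rfl fun a _ => ?_
    rw [Finset.sum_mul_sum]
    exact Finset.sum_congr rfl fun b _ => Finset.sum_congr rfl fun c _ => by ring
  rw [h1]
  have hX := P.X_ne 200000
  generalize hqq : 5 * P.X 10001 / P.X 200000 = q
  have hq : 5 * P.X 10001 = q * P.X 200000 := by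
    rw [← hqq]
    field_simp
  have h2 : ∀ a b c, f a * g b * k c *
      EE A t (fun s => ind (a ∈ s.F) * ind (b ∈ s.F) * ind (c ∈ s.F)) ≤
      f a * g b * k c * (q ^ 3 + q ^ 2 * ((if a = b then 1 else 0) + (if a = c then 1 else 0)
          + (if b = c then 1 else 0))
        + q * ((if a = b then 1 else 0) * (if a = c then 1 else 0))) := by
    intro a b c
    refine mul_le_mul_of_nonneg_left ?_ (mul_nonneg (mul_nonneg (hf a) (hg b)) (hk c))
    have h3 := R20a_P3 A hI ht a b c
    rwa [hqq] at h3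
  have h3 : ∀ a b, ∑ c, f a * g b * k c * (q ^ 3 + q ^ 2 * ((if a = b then 1 else 0)
      + (if a = c then 1 else 0) + (if b = c then 1 else 0))
        + q * ((if a = b then 1 else 0) * (if a = c then 1 else 0)))
      = f a * g b * (q ^ 3 * (∑ c, k c) + q ^ 2 * (k a + k b))
        + (f a * (q ^ 2 * (∑ c, k c) + q * k a)) * (g b * (if a = b then 1 else 0)) := by
    intro a b
    have e1 : ∑ c, k c * (if a = c then (1 : ℝ) else 0) = k a := by simp
    have e2 : ∑ c, k c * (if b = c then (1 : ℝ) else 0) = k b := by simp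
    generalize (if a = b then (1 : ℝ) else 0) = d
    calc ∑ c, f a * g b * k c * (q ^ 3 + q ^ 2 * (d
          + (if a = c then 1 else 0) + (if b = c then 1 else 0))
          + q * (d * (if a = c then 1 else 0)))
        = (f a * g b * (q ^ 3 + q ^ 2 * d)) * (∑ c, k c)
          + f a * g b * (q ^ 2 + q * d) * (∑ c, k c * (if a = c then (1 : ℝ) else 0))
          + f a * g b * q ^ 2 * (∑ c, k c * (if b = c then (1 : ℝ) else 0)) := by
          rw [Finset.mul_sum, Finset.mul_sum, Finset.mul_sum, ← Finset.sum_add_distrib,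
            ← Finset.sum_add_distrib]
          exact Finset.sum_congr rfl fun c _ => by ring
      _ = _ := by rw [e1, e2]; ring
  have h4 : ∀ K a, ∑ b, (f a * g b * (q ^ 3 * K + q ^ 2 * (k a + k b))
        + (f a * (q ^ 2 * K + q * k a)) * (g b * (if a = b then 1 else 0)))
      = (q ^ 3 * K * (∑ b, g b) + q ^ 2 * (∑ b, g b * k b)) * f a
        + (q ^ 2 * ∑ b, g b) * (f a * k a)
        + (q ^ 2 * K) * (f a * g a) + q * (f a * g a * k a) := by
    intro K a
    have e1 : ∑ b, g b * (if a = b then (1 : ℝ) else 0) = g a := by simp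
    calc ∑ b, (f a * g b * (q ^ 3 * K + q ^ 2 * (k a + k b))
          + (f a * (q ^ 2 * K + q * k a)) * (g b * (if a = b then 1 else 0)))
        = (f a * (q ^ 3 * K + q ^ 2 * k a)) * (∑ b, g b)
          + (f a * q ^ 2) * (∑ b, g b * k b)
          + (f a * (q ^ 2 * K + q * k a))
            * (∑ b, g b * (if a = b then (1 : ℝ) else 0)) := by
          rw [Finset.mul_sum, Finset.mul_sum, Finset.mul_sum, ← Finset.sum_add_distrib,
            ← Finset.sum_add_distrib]
          exact Finset.sum_congr rfl fun b _ => by ring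
      _ = _ := by rw [e1]; ring
  calc ∑ a, ∑ b, ∑ c, f a * g b * k c *
        EE A t (fun s => ind (a ∈ s.F) * ind (b ∈ s.F) * ind (c ∈ s.F))
      ≤ ∑ a, ∑ b, ∑ c, f a * g b * k c * (q ^ 3 + q ^ 2 * ((if a = b then 1 else 0)
          + (if a = c then 1 else 0) + (if b = c then 1 else 0))
          + q * ((if a = b then 1 else 0) * (if a = c then 1 else 0))) :=
        Finset.sum_le_sum fun a _ => Finset.sum_le_sum fun b _ =>
          Finset.sum_le_sum fun c _ => h2 a b c
    _ = ∑ a, ((q ^ 3 * (∑ c, k c) * (∑ b, g b) + q ^ 2 * (∑ b, g b * k b)) * f a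
        + (q ^ 2 * ∑ b, g b) * (f a * k a)
        + (q ^ 2 * ∑ c, k c) * (f a * g a) + q * (f a * g a * k a)) := by
        refine Finset.sum_congr rfl fun a _ => ?_
        rw [← h4 (∑ c, k c) a]
        exact Finset.sum_congr rfl fun b _ => h3 a b
    _ = (q ^ 3 * (∑ c, k c) * (∑ b, g b) + q ^ 2 * (∑ b, g b * k b)) * (∑ a, f a)
        + (q ^ 2 * ∑ b, g b) * (∑ a, f a * k a)
        + (q ^ 2 * ∑ c, k c) * (∑ a, f a * g a) + q * (∑ a, f a * g a * k a) := by
        rw [Finset.sum_add_distrib, Finset.sum_add_distrib, Finset.sum_add_distrib,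
          ← Finset.mul_sum, ← Finset.mul_sum, ← Finset.mul_sum, ← Finset.mul_sum]
    _ = _ := by
        rw [R20a_sum_av A k, R20a_sum_av A g, R20a_sum_av A f,
          R20a_sum_av A (fun b => g b * k b), R20a_sum_av A (fun b => f b * k b),
          R20a_sum_av A (fun b => f b * g b), R20a_sum_av A (fun b => f b * g b * k b), hq]
        ring

section

variable {A : Amb P V} {s : St V} {t : ℕ}

theorem R20a_bl (hi : s.Inv A t) {u : V} (hu : u ∉ s.F) {y : V} (hy : y ∉ s.F) (hyu : y ≠ u) :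
    s.bl u y ≤ ∑ a ∈ s.F, A.h a u y := by
  have h1 := bl_le hi.sinv hu y
  rw [ind_neg hy, ind_neg hyu, add_zero, add_zero] at h1
  exact h1.trans (bp_le_sum u y)

theorem R20a_S_nonneg (u y : V) : 0 ≤ ∑ a ∈ s.F, A.h a u y :=
  Finset.sum_nonneg fun a _ => A.h_nonneg a u y

theorem R20a_bbb_pt (hi : s.Inv A t) (hg : s.Good A) {u v w : V} (hu : u ∉ s.F) (hv : v ∉ s.F)
    (hw : w ∉ s.F) (y : V) :
    s.R y * (s.bl u y * s.bl v y * s.bl w y) ≤
      P.X 1 * ((∑ a ∈ s.F, A.h a u y) * (∑ b ∈ s.F, A.h b v y) * ∑ c ∈ s.F, A.h c w y)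
        + P.X 1 * (ind (y = u) + ind (y = v) + ind (y = w)) := by
  have hR : s.R y ≤ P.X 1 := by
    rw [P.X_one]
    exact hg.g1 y
  have hX := P.X_pos 1
  have hSu := R20a_S_nonneg (A := A) (s := s) u y
  have hSv := R20a_S_nonneg (A := A) (s := s) v y
  have hSw := R20a_S_nonneg (A := A) (s := s) w y
  have hbu := bl_nonneg (s := s) u y
  have hbv := bl_nonneg (s := s) v y
  have hbw := bl_nonneg (s := s) w y
  have hbu1 := bl_le_one (s := s) u y
  have hbv1 := bl_le_one (s := s) v y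
  have hbw1 := bl_le_one (s := s) w y
  have hiu := ind_nonneg (y = u)
  have hiv := ind_nonneg (y = v)
  have hiw := ind_nonneg (y = w)
  have hprod : 0 ≤ P.X 1 *
      ((∑ a ∈ s.F, A.h a u y) * (∑ b ∈ s.F, A.h b v y) * ∑ c ∈ s.F, A.h c w y) :=
    mul_nonneg hX.le (mul_nonneg (mul_nonneg hSu hSv) hSw)
  have hb : s.bl u y * s.bl v y * s.bl w y ≤ 1 :=
    mul_le_one₀ (mul_le_one₀ hbu1 hbv hbv1) hbw hbw1
  have hbig : s.R y * (s.bl u y * s.bl v y * s.bl w y) ≤ P.X 1 := by
    calc _ ≤ P.X 1 * 1 := mul_le_mul hR hb (mul_nonneg (mul_nonneg hbu hbv) hbw) hX.le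
      _ = P.X 1 := mul_one _
  by_cases hy : y ∈ s.F
  · rw [hi.RF y hy, zero_mul]
    have h1 : 0 ≤ P.X 1 * (ind (y = u) + ind (y = v) + ind (y = w)) := by positivity
    linarith
  · by_cases hyu : y = u
    · have h1 : P.X 1 * 1 ≤ P.X 1 * (ind (y = u) + ind (y = v) + ind (y = w)) := by
        refine mul_le_mul_of_nonneg_left ?_ hX.le
        rw [ind_pos hyu]
        linarith
      linarith
    · by_cases hyv : y = v
      · have h1 : P.X 1 * 1 ≤ P.X 1 * (ind (y = u) + ind (y = v) + ind (y = w)) := by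
          refine mul_le_mul_of_nonneg_left ?_ hX.le
          rw [ind_pos hyv]
          linarith
        linarith
      · by_cases hyw : y = w
        · have h1 : P.X 1 * 1 ≤ P.X 1 * (ind (y = u) + ind (y = v) + ind (y = w)) := by
            refine mul_le_mul_of_nonneg_left ?_ hX.le
            rw [ind_pos hyw]
            linarith
          linarith
        · have h1 : s.bl u y * s.bl v y * s.bl w y ≤
              (∑ a ∈ s.F, A.h a u y) * (∑ b ∈ s.F, A.h b v y) * ∑ c ∈ s.F, A.h c w y :=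
            mul_le_mul (mul_le_mul (R20a_bl hi hu hy hyu) (R20a_bl hi hv hy hyv) hbv hSu)
              (R20a_bl hi hw hy hyw) hbw (mul_nonneg hSu hSv)
          have h2 : s.R y * (s.bl u y * s.bl v y * s.bl w y) ≤ P.X 1 *
              ((∑ a ∈ s.F, A.h a u y) * (∑ b ∈ s.F, A.h b v y) * ∑ c ∈ s.F, A.h c w y) :=
            mul_le_mul hR h1 (mul_nonneg (mul_nonneg hbu hbv) hbw) hX.le
          have h3 : 0 ≤ P.X 1 * (ind (y = u) + ind (y = v) + ind (y = w)) := by positivity
          linarith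

theorem R20a_bba_pt (hi : s.Inv A t) (hg : s.Good A) (ht : t ≤ P.T) {u v w : V} (hu : u ∉ s.F)
    (hv : v ∉ s.F) (y : V) :
    s.R y * (s.bl u y * s.bl v y * s.aa w y) ≤
      P.X 1 * ((∑ a ∈ s.F, A.h a u y) * (∑ b ∈ s.F, A.h b v y)
        * (P.X (-9598) + P.X 20042 * A.lam w y))
        + P.X 2 * (ind (y = u) + ind (y = v)) := by
  have hR : s.R y ≤ P.X 1 := by
    rw [P.X_one]
    exact hg.g1 y
  have hX := P.X_pos 1
  have hX2 : P.X 2 = P.X 1 * P.X 1 := by
    rw [P.X_mul]
    norm_num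
  have hSu := R20a_S_nonneg (A := A) (s := s) u y
  have hSv := R20a_S_nonneg (A := A) (s := s) v y
  have hbu := bl_nonneg (s := s) u y
  have hbv := bl_nonneg (s := s) v y
  have hbu1 := bl_le_one (s := s) u y
  have hbv1 := bl_le_one (s := s) v y
  have haw := aa_nonneg (s := s) w y
  have haw1 := aa_le_x hi hg ht w y
  have haw2 : s.aa w y ≤ P.X (-9598) + P.X 20042 * A.lam w y :=
    (aa_le hi hg ht w y).trans (by linarith [P.sS_le ht])
  have hiu := ind_nonneg (y = u)
  have hiv := ind_nonneg (y = v)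
  have hprod : 0 ≤ P.X 1 * ((∑ a ∈ s.F, A.h a u y) * (∑ b ∈ s.F, A.h b v y)
      * (P.X (-9598) + P.X 20042 * A.lam w y)) :=
    mul_nonneg hX.le (mul_nonneg (mul_nonneg hSu hSv) (haw.trans haw2))
  have hb : s.bl u y * s.bl v y ≤ 1 := mul_le_one₀ hbu1 hbv hbv1
  have hbig : s.R y * (s.bl u y * s.bl v y * s.aa w y) ≤ P.X 2 := by
    rw [hX2]
    refine mul_le_mul hR ?_ (mul_nonneg (mul_nonneg hbu hbv) haw) hX.le
    calc s.bl u y * s.bl v y * s.aa w y ≤ 1 * P.X 1 :=
          mul_le_mul hb haw1 haw zero_le_one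
      _ = P.X 1 := one_mul _
  have hX2' := P.X_pos 2
  by_cases hy : y ∈ s.F
  · rw [hi.RF y hy, zero_mul]
    have h1 : 0 ≤ P.X 2 * (ind (y = u) + ind (y = v)) := by positivity
    linarith
  · by_cases hyu : y = u
    · have h1 : P.X 2 * 1 ≤ P.X 2 * (ind (y = u) + ind (y = v)) := by
        refine mul_le_mul_of_nonneg_left ?_ hX2'.le
        rw [ind_pos hyu]
        linarith
      linarith
    · by_cases hyv : y = v
      · have h1 : P.X 2 * 1 ≤ P.X 2 * (ind (y = u) + ind (y = v)) := by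
          refine mul_le_mul_of_nonneg_left ?_ hX2'.le
          rw [ind_pos hyv]
          linarith
        linarith
      · have h1 : s.bl u y * s.bl v y * s.aa w y ≤
            (∑ a ∈ s.F, A.h a u y) * (∑ b ∈ s.F, A.h b v y)
              * (P.X (-9598) + P.X 20042 * A.lam w y) :=
          mul_le_mul (mul_le_mul (R20a_bl hi hu hy hyu) (R20a_bl hi hv hy hyv) hbv hSu)
            haw2 haw (mul_nonneg hSu hSv)
        have h2 : s.R y * (s.bl u y * s.bl v y * s.aa w y) ≤ P.X 1 *
            ((∑ a ∈ s.F, A.h a u y) * (∑ b ∈ s.F, A.h b v y)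
              * (P.X (-9598) + P.X 20042 * A.lam w y)) :=
          mul_le_mul hR h1 (mul_nonneg (mul_nonneg hbu hbv) haw) hX.le
        have h3 : 0 ≤ P.X 2 * (ind (y = u) + ind (y = v)) := by positivity
        linarith

theorem R20a_baa_pt (hi : s.Inv A t) (hg : s.Good A) (ht : t ≤ P.T) {u v w : V} (hu : u ∉ s.F)
    (y : V) :
    s.R y * (s.bl u y * s.aa v y * s.aa w y) ≤
      P.X 1 * ((∑ a ∈ s.F, A.h a u y) * ((P.X (-9598) + P.X 20042 * A.lam v y)
        * (P.X (-9598) + P.X 20042 * A.lam w y)))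
        + P.X 3 * ind (y = u) := by
  have hR : s.R y ≤ P.X 1 := by
    rw [P.X_one]
    exact hg.g1 y
  have hX := P.X_pos 1
  have hX3 : P.X 3 = P.X 1 * (P.X 1 * P.X 1) := by
    rw [P.X_mul, P.X_mul]
    norm_num
  have hSu := R20a_S_nonneg (A := A) (s := s) u y
  have hbu := bl_nonneg (s := s) u y
  have hbu1 := bl_le_one (s := s) u y
  have hav := aa_nonneg (s := s) v y
  have haw := aa_nonneg (s := s) w y
  have hav1 := aa_le_x hi hg ht v y
  have haw1 := aa_le_x hi hg ht w y
  have hav2 : s.aa v y ≤ P.X (-9598) + P.X 20042 * A.lam v y :=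
    (aa_le hi hg ht v y).trans (by linarith [P.sS_le ht])
  have haw2 : s.aa w y ≤ P.X (-9598) + P.X 20042 * A.lam w y :=
    (aa_le hi hg ht w y).trans (by linarith [P.sS_le ht])
  have hiu := ind_nonneg (y = u)
  have hX3' := P.X_pos 3
  have hpr : s.aa v y * s.aa w y ≤ (P.X (-9598) + P.X 20042 * A.lam v y)
      * (P.X (-9598) + P.X 20042 * A.lam w y) := mul_le_mul hav2 haw2 haw (hav.trans hav2)
  have hpr0 := mul_nonneg hav haw
  have hprod : 0 ≤ P.X 1 * ((∑ a ∈ s.F, A.h a u y) * ((P.X (-9598) + P.X 20042 * A.lam v y)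
        * (P.X (-9598) + P.X 20042 * A.lam w y))) :=
    mul_nonneg hX.le (mul_nonneg hSu (hpr0.trans hpr))
  have hbig : s.R y * (s.bl u y * s.aa v y * s.aa w y) ≤ P.X 3 := by
    rw [hX3, mul_assoc (s.bl u y)]
    refine mul_le_mul hR ?_ (mul_nonneg hbu hpr0) hX.le
    calc s.bl u y * (s.aa v y * s.aa w y) ≤ 1 * (P.X 1 * P.X 1) :=
          mul_le_mul hbu1 (mul_le_mul hav1 haw1 haw hX.le) hpr0 zero_le_one
      _ = P.X 1 * P.X 1 := one_mul _
  by_cases hy : y ∈ s.F
  · rw [hi.RF y hy, zero_mul]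
    have h1 : 0 ≤ P.X 3 * ind (y = u) := by positivity
    linarith
  · by_cases hyu : y = u
    · rw [ind_pos hyu, mul_one]
      linarith
    · have h1 : s.bl u y * (s.aa v y * s.aa w y) ≤
          (∑ a ∈ s.F, A.h a u y) * ((P.X (-9598) + P.X 20042 * A.lam v y)
            * (P.X (-9598) + P.X 20042 * A.lam w y)) :=
        mul_le_mul (R20a_bl hi hu hy hyu) hpr hpr0 hSu
      have h2 : s.R y * (s.bl u y * (s.aa v y * s.aa w y)) ≤ P.X 1 *
          ((∑ a ∈ s.F, A.h a u y) * ((P.X (-9598) + P.X 20042 * A.lam v y)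
            * (P.X (-9598) + P.X 20042 * A.lam w y))) :=
        mul_le_mul hR h1 (mul_nonneg hbu hpr0) hX.le
      have h3 : 0 ≤ P.X 3 * ind (y = u) := by positivity
      rw [mul_assoc (s.bl u y)]
      linarith

end

/-- `E <b_u b_v b_w>` -/
theorem lvl_bbb (A : Amb P V) (hI : IPres A) {t : ℕ} (ht : t ≤ P.T) {u v w : V}
    (hd : Amb.D3 u v w) :
    EE A t (fun s => out3 A u v w s * av fun y => s.R y * (s.bl u y * s.bl v y * s.bl w y))
      ≤ P.X (-29990) + P.X 5 * (A.lam u v + A.lam u w + A.lam v w)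
        + P.X 10003 * A.lam3 u v w := by
  have := R20a_ne A
  have hX := P.X_pos 1
  have h200 := P.X_pos 200000
  have hN : 0 < 5 * P.X 10001 := by
    have := P.X_pos 10001
    positivity
  have he := P.eps_pos
  have h1 : EE A t (fun s => out3 A u v w s * av fun y => s.R y *
      (s.bl u y * s.bl v y * s.bl w y)) ≤ EE A t (fun s => P.X 1 * (av fun y =>
        (∑ a ∈ s.F, A.h a u y) * (∑ b ∈ s.F, A.h b v y) * ∑ c ∈ s.F, A.h c w y)
          + P.X 1 * (3 / P.X 200000)) := by
    refine EE_mono A hI ht fun s hi => ?_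
    by_cases hp : s.Good A ∧ u ∉ s.F ∧ v ∉ s.F ∧ w ∉ s.F
    · unfold out3
      rw [ind_pos hp, one_mul]
      refine (av_mono fun y => R20a_bbb_pt hi hp.1 hp.2.1 hp.2.2.1 hp.2.2.2 y).trans (le_of_eq ?_)
      rw [av_add, av_mul_left, av_mul_left, av_add, av_add, av_ind_eq, av_ind_eq, av_ind_eq, R20a_n A]
      ring
    · unfold out3
      rw [ind_neg hp, zero_mul]
      have h2 : 0 ≤ av fun y => (∑ a ∈ s.F, A.h a u y) * (∑ b ∈ s.F, A.h b v y)
          * ∑ c ∈ s.F, A.h c w y := av_nonneg fun y =>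
        mul_nonneg (mul_nonneg (R20a_S_nonneg u y) (R20a_S_nonneg v y)) (R20a_S_nonneg w y)
      have h3 : 0 ≤ P.X 1 * (3 / P.X 200000) := by positivity
      have h4 := mul_nonneg hX.le h2
      linarith
  rw [EE_add, EE_mul, EE_av, EE_const] at h1
  have h2 : (av fun y => EE A t fun s => (∑ a ∈ s.F, A.h a u y) * (∑ b ∈ s.F, A.h b v y)
      * ∑ c ∈ s.F, A.h c w y) ≤ (5 * P.X 10001) ^ 3 * P.eps ^ 3
        + (5 * P.X 10001) ^ 2 * P.eps * (A.lam u v + A.lam u w + A.lam v w)
        + 5 * P.X 10001 * A.lam3 u v w := by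
    calc (av fun y => EE A t fun s => (∑ a ∈ s.F, A.h a u y) * (∑ b ∈ s.F, A.h b v y)
          * ∑ c ∈ s.F, A.h c w y)
        ≤ av fun y => ((5 * P.X 10001) ^ 3 * P.eps ^ 3
          + (5 * P.X 10001) ^ 2 * P.eps * ((av fun a => A.h a u y * A.h a v y)
            + (av fun a => A.h a u y * A.h a w y) + (av fun a => A.h a v y * A.h a w y))
          + 5 * P.X 10001 * (av fun a => A.h a u y * A.h a v y * A.h a w y)) := by
          refine av_mono fun y => ?_
          refine (R20a_E3 A hI ht (f := fun a => A.h a u y) (g := fun a => A.h a v y)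
            (k := fun a => A.h a w y) (fun a => A.h_nonneg _ _ _) (fun a => A.h_nonneg _ _ _)
            (fun a => A.h_nonneg _ _ _)).trans ?_
          have eu := A.av_h1 u y
          have ev := A.av_h1 v y
          have ew := A.av_h1 w y
          have eu0 : 0 ≤ av fun a => A.h a u y := av_nonneg fun a => A.h_nonneg _ _ _
          have ev0 : 0 ≤ av fun a => A.h a v y := av_nonneg fun a => A.h_nonneg _ _ _
          have ew0 : 0 ≤ av fun a => A.h a w y := av_nonneg fun a => A.h_nonneg _ _ _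
          have fg0 : 0 ≤ av fun a => A.h a u y * A.h a v y :=
            av_nonneg fun a => mul_nonneg (A.h_nonneg _ _ _) (A.h_nonneg _ _ _)
          have fk0 : 0 ≤ av fun a => A.h a u y * A.h a w y :=
            av_nonneg fun a => mul_nonneg (A.h_nonneg _ _ _) (A.h_nonneg _ _ _)
          have gk0 : 0 ≤ av fun a => A.h a v y * A.h a w y :=
            av_nonneg fun a => mul_nonneg (A.h_nonneg _ _ _) (A.h_nonneg _ _ _)
          have p1 : (av fun a => A.h a u y) * (av fun a => A.h a v y) * (av fun a => A.h a w y)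
              ≤ P.eps ^ 3 := by
            calc _ ≤ P.eps * P.eps * P.eps :=
                  mul_le_mul (mul_le_mul eu ev ev0 he.le) ew ew0 (by positivity)
              _ = P.eps ^ 3 := by ring
          have p2 : (av fun a => A.h a u y * A.h a v y) * (av fun a => A.h a w y)
              + (av fun a => A.h a u y * A.h a w y) * (av fun a => A.h a v y)
              + (av fun a => A.h a u y) * (av fun a => A.h a v y * A.h a w y)
              ≤ P.eps * ((av fun a => A.h a u y * A.h a v y)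
            + (av fun a => A.h a u y * A.h a w y) + (av fun a => A.h a v y * A.h a w y)) := by
            have q1 := mul_le_mul_of_nonneg_left ew fg0
            have q2 := mul_le_mul_of_nonneg_left ev fk0
            have q3 := mul_le_mul_of_nonneg_right eu gk0
            linarith
          have r1 := mul_le_mul_of_nonneg_left p1 (pow_pos hN 3).le
          have r2 := mul_le_mul_of_nonneg_left p2 (pow_pos hN 2).le
          linarith
      _ = _ := by
          rw [av_add, av_add, av_const, av_mul_left, av_mul_left, av_add, av_add,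
            av_comm (fun y a => A.h a u y * A.h a v y), av_comm (fun y a => A.h a u y * A.h a w y),
            av_comm (fun y a => A.h a v y * A.h a w y),
            av_comm (fun y a => A.h a u y * A.h a v y * A.h a w y)]
          rfl
  refine h1.trans ?_
  have h3 := mul_le_mul_of_nonneg_left h2 hX.le
  have l0 : 0 ≤ A.lam u v + A.lam u w + A.lam v w :=
    add_nonneg (add_nonneg (A.lam_nonneg _ _) (A.lam_nonneg _ _)) (A.lam_nonneg _ _)
  have l30 := A.lam3_nonneg u v w
  have n1 : P.X 1 * ((5 * P.X 10001) ^ 3 * P.eps ^ 3) ≤ P.X (-29995) := by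
    have e1 : P.X 1 * (P.X 10001 ^ 3 * P.X (-20000) ^ 3) = P.X (-29996) := by
      rw [P.X_pow, P.X_pow, P.X_mul, P.X_mul]
      norm_num
    calc P.X 1 * ((5 * P.X 10001) ^ 3 * P.eps ^ 3)
        = 125 * P.Lam ^ 3 * (P.X 1 * (P.X 10001 ^ 3 * P.X (-20000) ^ 3)) := by
          unfold Par.eps
          ring
      _ = 125 * P.Lam ^ 3 * P.X (-29996) := by rw [e1]
      _ ≤ P.X (-29995) := P.mul_X_le
          (P.absorb (k := 7) (by norm_num) (by norm_num) (by norm_num)) (by norm_num)
  have n2 : P.X 1 * ((5 * P.X 10001) ^ 2 * P.eps) ≤ P.X 5 := by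
    have e1 : P.X 1 * (P.X 10001 ^ 2 * P.X (-20000)) = P.X 3 := by
      rw [P.X_pow, P.X_mul, P.X_mul]
      norm_num
    calc P.X 1 * ((5 * P.X 10001) ^ 2 * P.eps)
        = 25 * P.Lam ^ 1 * (P.X 1 * (P.X 10001 ^ 2 * P.X (-20000))) := by
          unfold Par.eps
          ring
      _ = 25 * P.Lam ^ 1 * P.X 3 := by rw [e1]
      _ ≤ P.X 5 := P.mul_X_le
          (P.absorb (k := 5) (by norm_num) (by norm_num) (by norm_num)) (by norm_num)
  have n3 : P.X 1 * (5 * P.X 10001) ≤ P.X 10003 := by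
    have e1 : P.X 1 * P.X 10001 = P.X 10002 := by
      rw [P.X_mul]
      norm_num
    calc P.X 1 * (5 * P.X 10001) = 5 * P.Lam ^ 0 * (P.X 1 * P.X 10001) := by ring
      _ = 5 * P.Lam ^ 0 * P.X 10002 := by rw [e1]
      _ ≤ P.X 10003 := P.mul_X_le
          (P.absorb (k := 3) (by norm_num) (by norm_num) (by norm_num)) (by norm_num)
  have n4 : P.X 1 * (3 / P.X 200000) ≤ P.X (-29995) := by
    have e1 : P.X 1 / P.X 200000 = P.X (-199999) := by
      rw [P.X_div]
      norm_num
    calc P.X 1 * (3 / P.X 200000) = 3 * P.Lam ^ 0 * (P.X 1 / P.X 200000) := by ring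
      _ = 3 * P.Lam ^ 0 * P.X (-199999) := by rw [e1]
      _ ≤ P.X (-29995) := P.mul_X_le
          (P.absorb (k := 2) (by norm_num) (by norm_num) (by norm_num)) (by norm_num)
  have n5 : P.X (-29995) + P.X (-29995) ≤ P.X (-29990) := by
    calc P.X (-29995) + P.X (-29995) = 2 * P.Lam ^ 0 * P.X (-29995) := by ring
      _ ≤ P.X (-29990) := P.mul_X_le
          (P.absorb (k := 1) (by norm_num) (by norm_num) (by norm_num)) (by norm_num)
  have m2 := mul_le_mul_of_nonneg_right n2 l0
  have m3 := mul_le_mul_of_nonneg_right n3 l30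
  calc _ ≤ P.X 1 * ((5 * P.X 10001) ^ 3 * P.eps ^ 3
        + (5 * P.X 10001) ^ 2 * P.eps * (A.lam u v + A.lam u w + A.lam v w)
        + 5 * P.X 10001 * A.lam3 u v w) + P.X 1 * (3 / P.X 200000) := by linarith
    _ = P.X 1 * ((5 * P.X 10001) ^ 3 * P.eps ^ 3)
        + P.X 1 * ((5 * P.X 10001) ^ 2 * P.eps) * (A.lam u v + A.lam u w + A.lam v w)
        + P.X 1 * (5 * P.X 10001) * A.lam3 u v w + P.X 1 * (3 / P.X 200000) := by ring
    _ ≤ _ := by linarith

/-- `E <b_u b_v a_w>` -/
theorem lvl_bba (A : Amb P V) (hI : IPres A) {t : ℕ} (ht : t ≤ P.T) {u v w : V}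
    (hd : Amb.D3 u v w) :
    EE A t (fun s => out3 A u v w s * av fun y => s.R y * (s.bl u y * s.bl v y * s.aa w y))
      ≤ P.X (-29590) + P.X 410 * A.lam u v := by
  have := R20a_ne A
  have hX := P.X_pos 1
  have hX2 := P.X_pos 2
  have hc0 := P.X_pos (-9598)
  have hc1 := P.X_pos 20042
  have hN : 0 < 5 * P.X 10001 := mul_pos (by norm_num) (P.X_pos _)
  have h200 : 0 ≤ 2 / P.X 200000 := div_nonneg (by norm_num) (P.X_pos _).le
  have he := P.eps_pos
  have hc : ∀ y, 0 ≤ P.X (-9598) + P.X 20042 * A.lam w y := fun y =>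
    add_nonneg hc0.le (mul_nonneg hc1.le (A.lam_nonneg _ _))
  have h1 : EE A t (fun s => out3 A u v w s * av fun y => s.R y *
      (s.bl u y * s.bl v y * s.aa w y)) ≤ EE A t (fun s => P.X 1 * (av fun y =>
        (P.X (-9598) + P.X 20042 * A.lam w y)
          * ((∑ a ∈ s.F, A.h a u y) * ∑ b ∈ s.F, A.h b v y))
          + P.X 2 * (2 / P.X 200000)) := by
    refine EE_mono A hI ht fun s hi => ?_
    by_cases hp : s.Good A ∧ u ∉ s.F ∧ v ∉ s.F ∧ w ∉ s.F
    · unfold out3
      rw [ind_pos hp, one_mul]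
      refine (av_mono fun y => (R20a_bba_pt (w := w) hi hp.1 ht hp.2.1 hp.2.2.1 y).trans
        (le_of_eq (show _ = P.X 1 * ((P.X (-9598) + P.X 20042 * A.lam w y)
          * ((∑ a ∈ s.F, A.h a u y) * ∑ b ∈ s.F, A.h b v y))
          + P.X 2 * (ind (y = u) + ind (y = v)) by ring))).trans (le_of_eq ?_)
      rw [av_add, av_mul_left, av_mul_left, av_add, av_ind_eq, av_ind_eq, R20a_n A]
      ring
    · unfold out3
      rw [ind_neg hp, zero_mul]
      have h2 : 0 ≤ av fun y => (P.X (-9598) + P.X 20042 * A.lam w y)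
          * ((∑ a ∈ s.F, A.h a u y) * ∑ b ∈ s.F, A.h b v y) := av_nonneg fun y =>
        mul_nonneg (hc y) (mul_nonneg (R20a_S_nonneg u y) (R20a_S_nonneg v y))
      exact add_nonneg (mul_nonneg hX.le h2) (mul_nonneg hX2.le h200)
  rw [EE_add, EE_mul, EE_av, EE_const] at h1
  have h2 : (av fun y => EE A t fun s => (P.X (-9598) + P.X 20042 * A.lam w y)
        * ((∑ a ∈ s.F, A.h a u y) * ∑ b ∈ s.F, A.h b v y))
      ≤ P.X (-9598) * ((5 * P.X 10001) ^ 2 * P.eps ^ 2) + P.X (-9598) * (5 * P.X 10001)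
          * A.lam u v
        + P.X 20042 * ((5 * P.X 10001) ^ 2 * P.eps ^ 2 + 5 * P.X 10001 * P.eps) * P.eps ^ 2 := by
    have hK : 0 ≤ P.X 20042 * ((5 * P.X 10001) ^ 2 * P.eps ^ 2 + 5 * P.X 10001 * P.eps) :=
      mul_nonneg hc1.le (add_nonneg (mul_nonneg (pow_pos hN 2).le (pow_pos he 2).le)
        (mul_nonneg hN.le he.le))
    calc (av fun y => EE A t fun s => (P.X (-9598) + P.X 20042 * A.lam w y)
          * ((∑ a ∈ s.F, A.h a u y) * ∑ b ∈ s.F, A.h b v y))
        ≤ av fun y => (P.X (-9598) * ((5 * P.X 10001) ^ 2 * P.eps ^ 2)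
          + P.X (-9598) * (5 * P.X 10001) * (av fun a => A.h a u y * A.h a v y)
          + P.X 20042 * ((5 * P.X 10001) ^ 2 * P.eps ^ 2 + 5 * P.X 10001 * P.eps)
            * A.lam w y) := by
          refine av_mono fun y => ?_
          rw [EE_mul]
          have h3 := R20a_E2 A hI ht (f := fun a => A.h a u y) (g := fun a => A.h a v y)
            (fun a => A.h_nonneg _ _ _) (fun a => A.h_nonneg _ _ _)
          have eu := A.av_h1 u y
          have ev := A.av_h1 v y
          have ev0 : 0 ≤ av fun a => A.h a v y := av_nonneg fun a => A.h_nonneg _ _ _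
          have p1 : (av fun a => A.h a u y) * (av fun a => A.h a v y) ≤ P.eps ^ 2 := by
            calc _ ≤ P.eps * P.eps := mul_le_mul eu ev ev0 he.le
              _ = P.eps ^ 2 := by ring
          have p2 : (av fun a => A.h a u y * A.h a v y) ≤ P.eps := by
            refine (av_mono fun a => ?_).trans eu
            exact mul_le_of_le_one_right (A.h_nonneg _ _ _) (A.h_le_one _ _ _)
          have r1 := mul_le_mul_of_nonneg_left p1 (pow_pos hN 2).le
          have r2 := mul_le_mul_of_nonneg_left p2 hN.le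
          have s1 : EE A t (fun s => (∑ a ∈ s.F, A.h a u y) * ∑ b ∈ s.F, A.h b v y)
              ≤ (5 * P.X 10001) ^ 2 * P.eps ^ 2
                + 5 * P.X 10001 * (av fun a => A.h a u y * A.h a v y) := by linarith
          have s2 : EE A t (fun s => (∑ a ∈ s.F, A.h a u y) * ∑ b ∈ s.F, A.h b v y)
              ≤ (5 * P.X 10001) ^ 2 * P.eps ^ 2 + 5 * P.X 10001 * P.eps := by linarith
          have t1 := mul_le_mul_of_nonneg_left s1 hc0.le
          have t2 := mul_le_mul_of_nonneg_left s2 (mul_nonneg hc1.le (A.lam_nonneg w y))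
          rw [add_mul]
          linarith
      _ = P.X (-9598) * ((5 * P.X 10001) ^ 2 * P.eps ^ 2)
          + P.X (-9598) * (5 * P.X 10001) * A.lam u v
          + P.X 20042 * ((5 * P.X 10001) ^ 2 * P.eps ^ 2 + 5 * P.X 10001 * P.eps)
            * (av fun y => A.lam w y) := by
          rw [av_add, av_add, av_const, av_mul_left, av_mul_left,
            av_comm (fun y a => A.h a u y * A.h a v y)]
          rfl
      _ ≤ _ := by
          have h3 := mul_le_mul_of_nonneg_left (A.av_lam w) hK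
          linarith
  refine h1.trans ?_
  have h3 := mul_le_mul_of_nonneg_left h2 hX.le
  have l0 := A.lam_nonneg u v
  have n1 : P.X 1 * (P.X (-9598) * ((5 * P.X 10001) ^ 2 * P.eps ^ 2)) ≤ P.X (-29594) := by
    have e1 : P.X 1 * (P.X (-9598) * (P.X 10001 ^ 2 * P.X (-20000) ^ 2)) = P.X (-29595) := by
      rw [P.X_pow, P.X_pow, P.X_mul, P.X_mul, P.X_mul]
      norm_num
    calc P.X 1 * (P.X (-9598) * ((5 * P.X 10001) ^ 2 * P.eps ^ 2))
        = 25 * P.Lam ^ 2 * (P.X 1 * (P.X (-9598) * (P.X 10001 ^ 2 * P.X (-20000) ^ 2))) := by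
          unfold Par.eps
          ring
      _ = 25 * P.Lam ^ 2 * P.X (-29595) := by rw [e1]
      _ ≤ P.X (-29594) := P.mul_X_le
          (P.absorb (k := 5) (by norm_num) (by norm_num) (by norm_num)) (by norm_num)
  have n2 : P.X 1 * (P.X (-9598) * (5 * P.X 10001)) ≤ P.X 410 := by
    have e1 : P.X 1 * (P.X (-9598) * P.X 10001) = P.X 404 := by
      rw [P.X_mul, P.X_mul]
      norm_num
    calc P.X 1 * (P.X (-9598) * (5 * P.X 10001))
        = 5 * P.Lam ^ 0 * (P.X 1 * (P.X (-9598) * P.X 10001)) := by ring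
      _ = 5 * P.Lam ^ 0 * P.X 404 := by rw [e1]
      _ ≤ P.X 410 := P.mul_X_le
          (P.absorb (k := 3) (by norm_num) (by norm_num) (by norm_num)) (by norm_num)
  have n3 : P.X 1 * (P.X 20042 * ((5 * P.X 10001) ^ 2 * P.eps ^ 2) * P.eps ^ 2)
      ≤ P.X (-29594) := by
    have e1 : P.X 1 * (P.X 20042 * (P.X 10001 ^ 2 * P.X (-20000) ^ 4)) = P.X (-39955) := by
      rw [P.X_pow, P.X_pow, P.X_mul, P.X_mul, P.X_mul]
      norm_num
    calc P.X 1 * (P.X 20042 * ((5 * P.X 10001) ^ 2 * P.eps ^ 2) * P.eps ^ 2)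
        = 25 * P.Lam ^ 4 * (P.X 1 * (P.X 20042 * (P.X 10001 ^ 2 * P.X (-20000) ^ 4))) := by
          unfold Par.eps
          ring
      _ = 25 * P.Lam ^ 4 * P.X (-39955) := by rw [e1]
      _ ≤ P.X (-29594) := P.mul_X_le
          (P.absorb (k := 5) (by norm_num) (by norm_num) (by norm_num)) (by norm_num)
  have n4 : P.X 1 * (P.X 20042 * (5 * P.X 10001 * P.eps) * P.eps ^ 2) ≤ P.X (-29594) := by
    have e1 : P.X 1 * (P.X 20042 * (P.X 10001 * P.X (-20000) ^ 3)) = P.X (-29956) := by
      rw [P.X_pow, P.X_mul, P.X_mul, P.X_mul]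
      norm_num
    calc P.X 1 * (P.X 20042 * (5 * P.X 10001 * P.eps) * P.eps ^ 2)
        = 5 * P.Lam ^ 3 * (P.X 1 * (P.X 20042 * (P.X 10001 * P.X (-20000) ^ 3))) := by
          unfold Par.eps
          ring
      _ = 5 * P.Lam ^ 3 * P.X (-29956) := by rw [e1]
      _ ≤ P.X (-29594) := P.mul_X_le
          (P.absorb (k := 3) (by norm_num) (by norm_num) (by norm_num)) (by norm_num)
  have n5 : P.X 2 * (2 / P.X 200000) ≤ P.X (-29594) := by
    have e1 : P.X 2 / P.X 200000 = P.X (-199998) := by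
      rw [P.X_div]
      norm_num
    calc P.X 2 * (2 / P.X 200000) = 2 * P.Lam ^ 0 * (P.X 2 / P.X 200000) := by ring
      _ = 2 * P.Lam ^ 0 * P.X (-199998) := by rw [e1]
      _ ≤ P.X (-29594) := P.mul_X_le
          (P.absorb (k := 1) (by norm_num) (by norm_num) (by norm_num)) (by norm_num)
  have n6 : 4 * P.X (-29594) ≤ P.X (-29590) := by
    calc 4 * P.X (-29594) = 4 * P.Lam ^ 0 * P.X (-29594) := by ring
      _ ≤ P.X (-29590) := P.mul_X_le
          (P.absorb (k := 2) (by norm_num) (by norm_num) (by norm_num)) (by norm_num)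
  have m2 := mul_le_mul_of_nonneg_right n2 l0
  calc _ ≤ P.X 1 * (P.X (-9598) * ((5 * P.X 10001) ^ 2 * P.eps ^ 2)
          + P.X (-9598) * (5 * P.X 10001) * A.lam u v
        + P.X 20042 * ((5 * P.X 10001) ^ 2 * P.eps ^ 2 + 5 * P.X 10001 * P.eps) * P.eps ^ 2)
        + P.X 2 * (2 / P.X 200000) := by linarith
    _ = P.X 1 * (P.X (-9598) * ((5 * P.X 10001) ^ 2 * P.eps ^ 2))
        + P.X 1 * (P.X (-9598) * (5 * P.X 10001)) * A.lam u v
        + P.X 1 * (P.X 20042 * ((5 * P.X 10001) ^ 2 * P.eps ^ 2) * P.eps ^ 2)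
        + P.X 1 * (P.X 20042 * (5 * P.X 10001 * P.eps) * P.eps ^ 2)
        + P.X 2 * (2 / P.X 200000) := by ring
    _ ≤ _ := by linarith

/-- `E <b_u a_v a_w>` -/
theorem lvl_baa (A : Amb P V) (hI : IPres A) {t : ℕ} (ht : t ≤ P.T) {u v w : V}
    (hd : Amb.D3 u v w) :
    EE A t (fun s => out3 A u v w s * av fun y => s.R y * (s.bl u y * s.aa v y * s.aa w y))
      ≤ P.X (-29180) + P.X 30090 * A.chi v w := by
  have := R20a_ne A
  have hX := P.X_pos 1
  have hX3 := P.X_pos 3
  have hc0 := P.X_pos (-9598)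
  have hc1 := P.X_pos 20042
  have hN : 0 < 5 * P.X 10001 := mul_pos (by norm_num) (P.X_pos _)
  have h200 : 0 ≤ 1 / P.X 200000 := div_nonneg (by norm_num) (P.X_pos _).le
  have he := P.eps_pos
  have hl : ∀ z y, 0 ≤ P.X (-9598) + P.X 20042 * A.lam z y := fun z y =>
    add_nonneg hc0.le (mul_nonneg hc1.le (A.lam_nonneg _ _))
  have hc : ∀ y, 0 ≤ (P.X (-9598) + P.X 20042 * A.lam v y)
      * (P.X (-9598) + P.X 20042 * A.lam w y) := fun y => mul_nonneg (hl v y) (hl w y)
  have h1 : EE A t (fun s => out3 A u v w s * av fun y => s.R y *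
      (s.bl u y * s.aa v y * s.aa w y)) ≤ EE A t (fun s => P.X 1 * (av fun y =>
        ((P.X (-9598) + P.X 20042 * A.lam v y) * (P.X (-9598) + P.X 20042 * A.lam w y))
          * (∑ a ∈ s.F, A.h a u y))
          + P.X 3 * (1 / P.X 200000)) := by
    refine EE_mono A hI ht fun s hi => ?_
    by_cases hp : s.Good A ∧ u ∉ s.F ∧ v ∉ s.F ∧ w ∉ s.F
    · unfold out3
      rw [ind_pos hp, one_mul]
      refine (av_mono fun y => (R20a_baa_pt (v := v) (w := w) hi hp.1 ht hp.2.1 y).trans
        (le_of_eq (show _ = P.X 1 * (((P.X (-9598) + P.X 20042 * A.lam v y)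
          * (P.X (-9598) + P.X 20042 * A.lam w y)) * (∑ a ∈ s.F, A.h a u y))
          + P.X 3 * ind (y = u) by ring))).trans (le_of_eq ?_)
      rw [av_add, av_mul_left, av_mul_left, av_ind_eq, R20a_n A]
    · unfold out3
      rw [ind_neg hp, zero_mul]
      have h2 : 0 ≤ av fun y => ((P.X (-9598) + P.X 20042 * A.lam v y)
          * (P.X (-9598) + P.X 20042 * A.lam w y)) * (∑ a ∈ s.F, A.h a u y) :=
        av_nonneg fun y => mul_nonneg (hc y) (R20a_S_nonneg u y)
      exact add_nonneg (mul_nonneg hX.le h2) (mul_nonneg hX3.le h200)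
  rw [EE_add, EE_mul, EE_av, EE_const] at h1
  have h2 : (av fun y => EE A t fun s => ((P.X (-9598) + P.X 20042 * A.lam v y)
        * (P.X (-9598) + P.X 20042 * A.lam w y)) * (∑ a ∈ s.F, A.h a u y))
      ≤ 5 * P.X 10001 * P.eps * (P.X (-9598) ^ 2
        + P.X (-9598) * P.X 20042 * (P.eps ^ 2 + P.eps ^ 2) + P.X 20042 ^ 2 * A.chi v w) := by
    have hNe := mul_pos hN he
    calc (av fun y => EE A t fun s => ((P.X (-9598) + P.X 20042 * A.lam v y)
          * (P.X (-9598) + P.X 20042 * A.lam w y)) * (∑ a ∈ s.F, A.h a u y))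
        ≤ av fun y => 5 * P.X 10001 * P.eps * (P.X (-9598) ^ 2
          + P.X (-9598) * P.X 20042 * (A.lam v y + A.lam w y)
          + P.X 20042 ^ 2 * (A.lam v y * A.lam w y)) := by
          refine av_mono fun y => ?_
          rw [EE_mul]
          have h3 := R20a_E1 A hI ht (f := fun a => A.h a u y) (fun a => A.h_nonneg _ _ _)
          have r1 := mul_le_mul_of_nonneg_left (A.av_h1 u y) hN.le
          have t1 := mul_le_mul_of_nonneg_left (h3.trans r1) (hc y)
          refine t1.trans (le_of_eq ?_)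
          ring
      _ = 5 * P.X 10001 * P.eps * (P.X (-9598) ^ 2
          + P.X (-9598) * P.X 20042 * ((av fun y => A.lam v y) + av fun y => A.lam w y)
          + P.X 20042 ^ 2 * A.chi v w) := by
          rw [av_mul_left, av_add, av_add, av_const, av_mul_left, av_mul_left, av_add]
          rfl
      _ ≤ _ := by
          refine mul_le_mul_of_nonneg_left ?_ hNe.le
          have h3 := mul_le_mul_of_nonneg_left (add_le_add (A.av_lam v) (A.av_lam w))
            (mul_pos hc0 hc1).le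
          linarith
  refine h1.trans ?_
  have h3 := mul_le_mul_of_nonneg_left h2 hX.le
  have l0 : 0 ≤ A.chi v w := av_nonneg fun y => mul_nonneg (A.lam_nonneg _ _) (A.lam_nonneg _ _)
  have n1 : P.X 1 * (5 * P.X 10001 * P.eps * P.X (-9598) ^ 2) ≤ P.X (-29193) := by
    have e1 : P.X 1 * (P.X 10001 * (P.X (-20000) * P.X (-9598) ^ 2)) = P.X (-29194) := by
      rw [P.X_pow, P.X_mul, P.X_mul, P.X_mul]
      norm_num
    calc P.X 1 * (5 * P.X 10001 * P.eps * P.X (-9598) ^ 2)
        = 5 * P.Lam ^ 1 * (P.X 1 * (P.X 10001 * (P.X (-20000) * P.X (-9598) ^ 2))) := by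
          unfold Par.eps
          ring
      _ = 5 * P.Lam ^ 1 * P.X (-29194) := by rw [e1]
      _ ≤ P.X (-29193) := P.mul_X_le
          (P.absorb (k := 3) (by norm_num) (by norm_num) (by norm_num)) (by norm_num)
  have n2 : P.X 1 * (5 * P.X 10001 * P.eps * (P.X (-9598) * P.X 20042 * (P.eps ^ 2 + P.eps ^ 2)))
      ≤ P.X (-29193) := by
    have e1 : P.X 1 * (P.X 10001 * (P.X (-20000) ^ 3 * (P.X (-9598) * P.X 20042)))
        = P.X (-39554) := by
      rw [P.X_pow, P.X_mul, P.X_mul, P.X_mul, P.X_mul]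
      norm_num
    calc P.X 1 * (5 * P.X 10001 * P.eps * (P.X (-9598) * P.X 20042 * (P.eps ^ 2 + P.eps ^ 2)))
        = 10 * P.Lam ^ 3 * (P.X 1 * (P.X 10001 * (P.X (-20000) ^ 3
          * (P.X (-9598) * P.X 20042)))) := by
          unfold Par.eps
          ring
      _ = 10 * P.Lam ^ 3 * P.X (-39554) := by rw [e1]
      _ ≤ P.X (-29193) := P.mul_X_le
          (P.absorb (k := 4) (by norm_num) (by norm_num) (by norm_num)) (by norm_num)
  have n3 : P.X 1 * (5 * P.X 10001 * P.eps * P.X 20042 ^ 2) ≤ P.X 30090 := by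
    have e1 : P.X 1 * (P.X 10001 * (P.X (-20000) * P.X 20042 ^ 2)) = P.X 30086 := by
      rw [P.X_pow, P.X_mul, P.X_mul, P.X_mul]
      norm_num
    calc P.X 1 * (5 * P.X 10001 * P.eps * P.X 20042 ^ 2)
        = 5 * P.Lam ^ 1 * (P.X 1 * (P.X 10001 * (P.X (-20000) * P.X 20042 ^ 2))) := by
          unfold Par.eps
          ring
      _ = 5 * P.Lam ^ 1 * P.X 30086 := by rw [e1]
      _ ≤ P.X 30090 := P.mul_X_le
          (P.absorb (k := 3) (by norm_num) (by norm_num) (by norm_num)) (by norm_num)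
  have n5 : P.X 3 * (1 / P.X 200000) ≤ P.X (-29193) := by
    have e1 : P.X 3 / P.X 200000 = P.X (-199997) := by
      rw [P.X_div]
      norm_num
    calc P.X 3 * (1 / P.X 200000) = P.X 3 / P.X 200000 := by ring
      _ = P.X (-199997) := e1
      _ ≤ P.X (-29193) := P.X_le (by norm_num)
  have n6 : 3 * P.X (-29193) ≤ P.X (-29180) := by
    calc 3 * P.X (-29193) = 3 * P.Lam ^ 0 * P.X (-29193) := by ring
      _ ≤ P.X (-29180) := P.mul_X_le
          (P.absorb (k := 2) (by norm_num) (by norm_num) (by norm_num)) (by norm_num)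
  have m3 := mul_le_mul_of_nonneg_right n3 l0
  calc _ ≤ P.X 1 * (5 * P.X 10001 * P.eps * (P.X (-9598) ^ 2
        + P.X (-9598) * P.X 20042 * (P.eps ^ 2 + P.eps ^ 2) + P.X 20042 ^ 2 * A.chi v w))
        + P.X 3 * (1 / P.X 200000) := by linarith
    _ = P.X 1 * (5 * P.X 10001 * P.eps * P.X (-9598) ^ 2)
        + P.X 1 * (5 * P.X 10001 * P.eps * (P.X (-9598) * P.X 20042 * (P.eps ^ 2 + P.eps ^ 2)))
        + P.X 1 * (5 * P.X 10001 * P.eps * P.X 20042 ^ 2) * A.chi v w
        + P.X 3 * (1 / P.X 200000) := by ring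
    _ ≤ _ := by linarith

end MP5cA
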