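import Pool.Agent.Lib.MP_5c685b_co.A.R18
import Pool.Agent.Lib.MP_5c685b_co.A.Marg
import Pool.Agent.Lib.MP_5c685b_co.A.Bridge

/-!
# Route A', row R21: the marginals of the final set (text, section 2)
-/

set_option autoImplicit false
set_option linter.unusedVariables false
set_option linter.unusedSectionVars false

open Finset MP5c.A

namespace MP5cA

namespace M2

variable {V : Type} [Fintype V] [DecidableEq V] {P : Par} {A : Amb P V}

/-! ## symmetries -/

lemma D3_s1 {u v w : V} (h : Amb.D3 u v w) : Amb.D3 v u w := ⟨h.1.symm, h.2.2, h.2.1⟩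

lemma D3_s2 {u v w : V} (h : Amb.D3 u v w) : Amb.D3 u w v := ⟨h.2.1, h.1, h.2.2.symm⟩

lemma Amb.H_s1 (A : Amb P V) (u v w : V) : A.H u v w ↔ A.H v u w := ⟨A.s1 u v w, A.s1 v u w⟩

lemma Amb.H_s2 (A : Amb P V) (u v w : V) : A.H u v w ↔ A.H u w v := ⟨A.s2 u v w, A.s2 u w v⟩

lemma Amb.lam3_s1 (A : Amb P V) (u v w : V) : A.lam3 u v w = A.lam3 v u w := by
  unfold Amb.lam3
  exact av_congr fun s => av_congr fun y => by ring

lemma Amb.lam3_s2 (A : Amb P V) (u v w : V) : A.lam3 u v w = A.lam3 u w v := by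
  unfold Amb.lam3
  exact av_congr fun s => av_congr fun y => by ring

lemma Amb.TT_s1 (A : Amb P V) {u v w : V} (h : A.TT u v w) : A.TT v u w :=
  ⟨D3_s1 h.1, fun h1 => h.2.1 (A.s1 _ _ _ h1), by rw [← A.lam3_s1]; exact h.2.2⟩

lemma Amb.TT_s2 (A : Amb P V) {u v w : V} (h : A.TT u v w) : A.TT u w v :=
  ⟨D3_s2 h.1, fun h1 => h.2.1 (A.s2 _ _ _ h1), by rw [← A.lam3_s2]; exact h.2.2⟩

lemma W_s1 {s : St V} (hs : ∀ v w, s.rho v w = s.rho w v) (u v w : V) :
    s.W u v w = s.W v u w := by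
  unfold St.W
  rw [hs v u]
  ring

lemma W_s2 {s : St V} (hs : ∀ v w, s.rho v w = s.rho w v) (u v w : V) :
    s.W u v w = s.W u w v := by
  unfold St.W
  rw [hs w v]
  ring

lemma EE_W_s1 (hI : Br.InvOK A) {t : ℕ} (ht : t ≤ P.T) (u v w : V) :
    EE A t (fun s => ind (s.Good A) * s.W u v w) =
      EE A t (fun s => ind (s.Good A) * s.W v u w) :=
  Br.EE_congr hI ht fun s hs => by rw [W_s1 hs.sym]

lemma EE_W_s2 (hI : Br.InvOK A) {t : ℕ} (ht : t ≤ P.T) (u v w : V) :
    EE A t (fun s => ind (s.Good A) * s.W u v w) =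
      EE A t (fun s => ind (s.Good A) * s.W u w v) :=
  Br.EE_congr hI ht fun s hs => by rw [W_s2 hs.sym]

lemma marg_Kp_pos (P : Par) : 0 < P.Kp := by
  unfold Par.Kp
  linarith [P.Lam_pos]

/-! ## bounds for `m0`, `m1` -/

lemma marg_X33 (P : Par) : P.X 3 * P.X 3 = P.X 6 := by rw [P.X_mul]; norm_num

lemma marg_m1_nonneg {t : ℕ} {s : St V} (hs : s.Inv A t) (v : V) : 0 ≤ s.m1 v :=
  av_nonneg fun y => mul_nonneg (hs.Rn y) (hs.nn v y)

lemma marg_m1_le {t : ℕ} {s : St V} (hs : s.Inv A t) (v : V) : s.m1 v ≤ P.X 6 := by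
  refine av_le_const (P.X_pos _).le fun y => ?_
  rw [← marg_X33]
  exact mul_le_mul (hs.cR y) (hs.cr v y) (hs.nn v y) (P.X_pos _).le

lemma marg_m0_nonneg {t : ℕ} {s : St V} (hs : s.Inv A t) : 0 ≤ s.m0 := av_nonneg hs.Rn

lemma marg_m0_le {t : ℕ} {s : St V} (hs : s.Inv A t) : s.m0 ≤ P.X 3 :=
  av_le_const (P.X_pos _).le hs.cR

lemma marg_zeta_lt (P : Par) {a : ℝ} {k : ℤ} (hk : k ≤ 1000) (ha : a ≤ P.X k) :
    P.zeta * a < 1 := by
  have h1 : P.zeta * a ≤ P.zeta * P.X k := mul_le_mul_of_nonneg_left ha P.zeta_pos.le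
  have h2 : P.zeta * P.X k = P.X (-100000 + k) := by unfold Par.zeta; rw [P.X_mul]
  have h3 : P.X (-100000 + k) ≤ P.X (-1) := P.X_le (by omega)
  have h4 : P.X (-1) < 1 := by
    have h5 := P.X_mul (-1) 1
    rw [P.X_one] at h5
    have h6 : P.X (-1 + 1) = 1 := by rw [show (-1 : ℤ) + 1 = 0 by norm_num]; exact P.X_zero
    rw [h6] at h5
    have h7 := P.X_pos (-1)
    have h8 := P.one_lt_x
    nlinarith
  linarith

lemma marg_zm0 {t : ℕ} {s : St V} (hs : s.Inv A t) : P.zeta * s.m0 < 1 :=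
  marg_zeta_lt P (by norm_num) (marg_m0_le hs)

lemma marg_zm1 {t : ℕ} {s : St V} (hs : s.Inv A t) (v : V) : P.zeta * s.m1 v < 1 :=
  marg_zeta_lt P (by norm_num) (marg_m1_le hs v)

/-! ## the martingales -/

theorem marg_step_R (κ : V → V → V → ℝ) {t : ℕ} {s : St V} (hs : s.Inv A t) (v : V) :
    s.step P κ (fun τ => τ.R v) = s.R v := by
  unfold St.step St.take St.skip
  simp only
  have h1 : av (fun x => s.R x * (s.R v * s.rho x v)) = s.R v * s.m1 v := by
    unfold St.m1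
    rw [← av_mul_left]
    exact av_congr fun x => by rw [hs.sym x v]; ring
  have h2 : 1 - P.zeta * s.m0 ≠ 0 := by linarith [marg_zm0 hs]
  rw [h1]
  field_simp
  ring

theorem marg_step_U {κ : V → V → V → ℝ} (hκ : KOK A κ) {t : ℕ} {s : St V} (hs : s.Inv A t)
    (v w : V) : s.step P κ (fun τ => τ.U v w) = s.U v w := by
  unfold St.step St.U St.take St.skip
  simp only
  have h1 : av (fun x => s.R x * (s.R v * s.rho x v * (s.R w * s.rho x w) *
      (s.rho v w * κ x v w))) = s.R v * s.R w * s.rho v w * s.m2 κ v w := by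
    unfold St.m2
    rw [← av_mul_left]
    exact av_congr fun x => by
      rw [hs.sym x v, hs.sym x w, show κ x v w = κ v w x by rw [hκ.s1 x v w, hκ.s2 v x w]]
      ring
  have h2 : 1 - P.zeta * s.m0 ≠ 0 := by linarith [marg_zm0 hs]
  have h3 : 1 - P.zeta * s.m1 v ≠ 0 := by linarith [marg_zm1 hs v]
  have h4 : 1 - P.zeta * s.m1 w ≠ 0 := by linarith [marg_zm1 hs w]
  rw [h1]
  field_simp
  ring

/-! ## the instance of `Marg` -/

theorem marg_inst (hI : Br.InvOK A) : Marg (Br.SSt A) (fun t s => s.Inv A (min t P.T)) (fun s => s.F)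
    (fun s => s.Good A) (fun s v => s.R v) (fun s v w => s.U v w) (fun s u v w => s.W u v w)
    (kt A) (P.zeta / P.X 200000) (P.X 3) (P.X 9) P.T where
  inv := Br.isInv hI
  Fe i s _ := by
    by_cases hi : i < P.T
    · have h3 : Br.SSt A i = Br.SS A i := if_pos hi
      rw [h3]
      simp only [Br.SS, Br.slotG]
      split_ifs <;> rfl
    · have h3 : Br.SSt A i = Br.idle := if_neg hi
      rw [h3]
      rfl
  Ft i s x _ hw := by
    by_cases hi : i < P.T
    · have h3 : Br.SSt A i = Br.SS A i := if_pos hi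
      rw [h3]
      rfl
    · have h3 : Br.SSt A i = Br.idle := if_neg hi
      rw [h3] at hw
      exact absurd hw (lt_irrefl 0)
  Fw i s x hs hx := by
    by_cases hi : i < P.T
    · have h3 : Br.SSt A i = Br.SS A i := if_pos hi
      rw [h3]
      simp only [Br.SS, Br.slotG]
      rw [hs.RF x hx]
      ring
    · have h3 : Br.SSt A i = Br.idle := if_neg hi
      rw [h3]
      rfl
  w i s x hi hs := by
    have h3 : Br.SSt A i = Br.SS A i := if_pos hi
    rw [h3]
    simp only [Br.SS, Br.slotG]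
    rw [Br.card_eq A]
  emp i s hs hg := by
    by_cases hi : i < P.T
    · have h3 : Br.SSt A i = Br.SS A i := if_pos hi
      rw [h3]
      simp only [Br.SS, Br.slotG]
      rw [if_neg hg]
    · have h3 : Br.SSt A i = Br.idle := if_neg hi
      rw [h3]
      rfl
  stR i s v hs := by
    by_cases hi : i < P.T
    · have h3 : Br.SSt A i = Br.SS A i := if_pos hi
      rw [h3]
      unfold Br.SS
      rw [← Br.stepG_eq]
      by_cases hg : s.Good A
      · rw [Br.stepG_good (kt A i) _ hg]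
        exact marg_step_R _ hs v
      · rw [Br.stepG_bad (kt A i) _ hg]
    · have h3 : Br.SSt A i = Br.idle := if_neg hi
      rw [h3, Slot.step_frozen _ (fun _ => rfl) rfl]
  stU i s v w hvw hs := by
    by_cases hi : i < P.T
    · have h3 : Br.SSt A i = Br.SS A i := if_pos hi
      rw [h3]
      unfold Br.SS
      rw [← Br.stepG_eq]
      by_cases hg : s.Good A
      · rw [Br.stepG_good (kt A i) _ hg]
        exact marg_step_U (kt_ok A i) hs v w
      · rw [Br.stepG_bad (kt A i) _ hg]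
    · have h3 : Br.SSt A i = Br.idle := if_neg hi
      rw [h3, Slot.step_frozen _ (fun _ => rfl) rfl]
  tkR i s v w hi hvw hs hg := by
    have h3 : Br.SSt A i = Br.SS A i := if_pos hi
    rw [h3]
    change s.R v * (s.R w * s.rho v w) = s.R v * s.R w * s.rho v w
    ring
  tkU i s u v w hi huv huw hvw hs hg := by
    have h3 : Br.SSt A i = Br.SS A i := if_pos hi
    rw [h3]
    change s.R u * ((s.R v * s.rho u v) * (s.R w * s.rho u w) * (s.rho v w * kt A i u v w)) =
      kt A i u v w * (s.R u * s.R v * s.R w * s.rho u v * s.rho u w * s.rho v w)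
    ring
  R0 i s v hs := hs.Rn v
  Rc i s v hs := hs.cR v
  U0 i s v w hs := mul_nonneg (mul_nonneg (hs.Rn v) (hs.Rn w)) (hs.nn v w)
  Uc i s v w hs := by
    have h1 : s.U v w = s.R v * s.R w * s.rho v w := rfl
    have h2 : P.X 9 = P.X 3 * P.X 3 * P.X 3 := by rw [P.X_mul, P.X_mul]; norm_num
    rw [h1, h2]
    exact mul_le_mul (mul_le_mul (hs.cR v) (hs.cR w) (hs.Rn w) (P.X_pos _).le) (hs.cr v w)
      (hs.nn v w) (mul_nonneg (P.X_pos _).le (P.X_pos _).le)
  z0 := div_nonneg P.zeta_pos.le (P.X_pos _).le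
  cR0 := (P.X_pos _).le
  cU0 := (P.X_pos _).le

/-- the numbers -/
lemma marg_num (P : Par) {q q' δ : ℝ} (hq0 : 0 ≤ q) (hq : q ≤ P.X (-1000000))
    (hq' : q' ≤ P.X (-1000000)) :
    (P.T : ℝ) * (P.T - 1) * (P.T - 2) * ((P.zeta / P.X 200000) ^ 3 * δ +
      ((P.zeta / P.X 200000) ^ 2 * P.X 9 + P.zeta / P.X 200000 * P.X 3) * q) + q' ≤
    P.p0 * (δ + P.X (-50000)) := by
  have hz : P.zeta / P.X 200000 = P.X (-300000) := by
    unfold Par.zeta
    rw [P.X_div]
    norm_num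
  have hT : (5 : ℝ) ≤ P.T := by
    rw [P.T_eq]
    have := P.one_le_X (a := 110000) (by norm_num)
    linarith
  have hT3 : (1 : ℝ) ≤ (P.T : ℝ) * (P.T - 1) * (P.T - 2) := by
    have h1 : (1 : ℝ) ≤ (P.T : ℝ) * (P.T - 1) := by nlinarith
    nlinarith
  unfold Par.p0
  rw [hz]
  set K := (P.T : ℝ) * (P.T - 1) * (P.T - 2) with hK
  have h3 : P.X (-300000) ^ 3 = P.X (-900000) := by rw [P.X_pow]; norm_num
  have h2 : P.X (-300000) ^ 2 * P.X 9 = P.X (-599991) := by rw [P.X_pow, P.X_mul]; norm_num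
  have h1 : P.X (-300000) * P.X 3 = P.X (-299997) := by rw [P.X_mul]; norm_num
  rw [h3, h2, h1]
  have h4 : P.X (-599991) ≤ 1 := P.X_le_one (by norm_num)
  have h5 : P.X (-299997) ≤ 1 := P.X_le_one (by norm_num)
  have h6 : P.X (-900000) * P.X (-50000) = P.X (-950000) := by rw [P.X_mul]; norm_num
  have h7 : 3 * P.X (-1000000) ≤ P.X (-950000) := by
    refine P.mul_X_le ?_ (by norm_num)
    have := P.two_pow_le (k := 2) (by norm_num)
    linarith
  have h8 : (P.X (-599991) + P.X (-299997)) * q ≤ 2 * P.X (-1000000) :=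
    mul_le_mul (by linarith) hq hq0 (by norm_num)
  have h9 : K * ((P.X (-599991) + P.X (-299997)) * q) + q' ≤ K * P.X (-950000) := by
    have e1 : q' ≤ K * P.X (-1000000) := by
      have : P.X (-1000000) ≤ K * P.X (-1000000) :=
        le_mul_of_one_le_left (P.X_pos _).le hT3
      linarith
    have e2 := mul_le_mul_of_nonneg_left h8 (by linarith : (0 : ℝ) ≤ K)
    have e3 := mul_le_mul_of_nonneg_left h7 (by linarith : (0 : ℝ) ≤ K)
    linarith
  calc K * (P.X (-900000) * δ + (P.X (-599991) + P.X (-299997)) * q) + q'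
      = K * P.X (-900000) * δ + (K * ((P.X (-599991) + P.X (-299997)) * q) + q') := by ring
    _ ≤ K * P.X (-900000) * δ + K * P.X (-950000) := by linarith
    _ = K * P.X (-900000) * (δ + P.X (-50000)) := by rw [← h6]; ring

/-- permutations of a triple -/
lemma perm_triple {a b c a' b' c' : V} (h : ({a', b', c'} : Finset V) = {a, b, c})
    (h1 : a' ≠ b') (h2 : a' ≠ c') (h3 : b' ≠ c') :
    (a' = a ∧ b' = b ∧ c' = c) ∨ (a' = a ∧ b' = c ∧ c' = b) ∨ (a' = b ∧ b' = a ∧ c' = c) ∨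
    (a' = b ∧ b' = c ∧ c' = a) ∨ (a' = c ∧ b' = a ∧ c' = b) ∨ (a' = c ∧ b' = b ∧ c' = a) := by
  have ha : a' ∈ ({a, b, c} : Finset V) := by rw [← h]; simp
  have hb : b' ∈ ({a, b, c} : Finset V) := by rw [← h]; simp
  have hc : c' ∈ ({a, b, c} : Finset V) := by rw [← h]; simp
  simp only [mem_insert, mem_singleton] at ha hb hc
  rcases ha with ha | ha | ha <;> rcases hb with hb | hb | hb <;> rcases hc with hc | hc | hc <;>
    subst ha <;> subst hb <;> subst hc <;> simp_all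

/-- **the marginals**, with a condition at the end -/
theorem marg_gen (hI : Br.InvOK A) {u v w : V} (hD : Amb.D3 u v w) {δ : ℝ} (fin : St V → Prop)
    (hδ : ∀ t < P.T, |kt A t u v w * EE A t (fun s => ind (s.Good A) * s.W u v w) - 1| ≤ δ)
    (hPb : Pb A P.T ≤ P.X (-1000000))
    (hend : EE A P.T (fun s => ind (¬ fin s)) ≤ P.X (-1000000)) :
    |EE A P.T (fun s => ind (fin s) * ind (u ∈ s.F ∧ v ∈ s.F ∧ w ∈ s.F)) - P.p0| ≤
      P.p0 * (δ + P.X (-50000)) := by
  have hM := marg_inst hI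
  have h1 := hM.three_fin hD.1 hD.2.1 hD.2.2 Br.inv_s0' rfl
    fin (δ := δ) (q := Pb A P.T) (q' := EE A P.T (fun s => ind (¬ fin s)))
    (fun i hi a' b' c' he n1 n2 n3 => by
      have hK := kt_ok A i
      have e0 : Ex (Br.SSt A) 0 i (fun τ => ind (τ.Good A) * τ.W a' b' c') s0 =
          EE A i (fun s => ind (s.Good A) * s.W a' b' c') := (Br.EE_eq_trunc A hi.le _).symm
      rw [e0]
      have h := hδ i hi
      rcases perm_triple he n1 n2 n3 with ⟨rfl, rfl, rfl⟩ | ⟨rfl, rfl, rfl⟩ | ⟨rfl, rfl, rfl⟩ |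
        ⟨rfl, rfl, rfl⟩ | ⟨rfl, rfl, rfl⟩ | ⟨rfl, rfl, rfl⟩
      · exact h
      · rw [hK.s2, EE_W_s2 hI hi.le]; exact h
      · rw [hK.s1, EE_W_s1 hI hi.le]; exact h
      · rw [hK.s2, EE_W_s2 hI hi.le, hK.s1, EE_W_s1 hI hi.le]; exact h
      · rw [hK.s1, EE_W_s1 hI hi.le, hK.s2, EE_W_s2 hI hi.le]; exact h
      · rw [hK.s1, EE_W_s1 hI hi.le, hK.s2, EE_W_s2 hI hi.le, hK.s1, EE_W_s1 hI hi.le]; exact h)
    (by unfold Pb; rw [Br.EE_eq_trunc A le_rfl])
    (by rw [Br.EE_eq_trunc A le_rfl])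
  have e1 : Ex (Br.SSt A) 0 P.T (fun τ : St V => ind (fin τ) *
      ind (u ∈ τ.F ∧ v ∈ τ.F ∧ w ∈ τ.F)) s0 = EE A P.T (fun s =>
      ind (fin s) * ind (u ∈ s.F ∧ v ∈ s.F ∧ w ∈ s.F)) :=
    (Br.EE_eq_trunc A le_rfl _).symm
  rw [e1] at h1
  have hq0 : 0 ≤ Pb A P.T := by
    unfold Pb
    exact Br.EE_nonneg hI le_rfl fun s _ => ind_nonneg _
  have h2 := marg_num P (δ := δ) hq0 hPb hend
  unfold Par.p0 at h2 ⊢
  exact h1.trans h2

end M2

variable {V : Type} [Fintype V] [DecidableEq V] {P : Par}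

lemma r21_T (P : Par) : (5 : ℝ) ≤ P.T := by
  rw [P.T_eq]
  have := P.one_le_X (a := 110000) (by norm_num)
  linarith

/-- `p0 > 0`, and it is about `125 r ^ -57` -/
theorem Par.p0_pos (P : Par) : 0 < P.p0 := by
  have hT := r21_T P
  unfold Par.p0
  have h1 : (0 : ℝ) < (P.T : ℝ) * (P.T - 1) * (P.T - 2) :=
    mul_pos (mul_pos (by linarith) (by linarith)) (by linarith)
  exact mul_pos h1 (pow_pos (div_pos P.zeta_pos (P.X_pos _)) 3)

theorem Par.p0_ge (P : Par) : P.X (-570001) ≤ P.p0 := by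
  have hT := P.T_eq
  have h5 := r21_T P
  have h1 : P.X 110000 ≤ P.T - 2 := by
    have := P.one_le_X (a := 110000) (by norm_num)
    linarith
  have h0 := P.X_pos 110000
  have h3 : P.X 110000 ^ 3 ≤ (P.T : ℝ) * (P.T - 1) * (P.T - 2) := by
    calc P.X 110000 ^ 3 = P.X 110000 * P.X 110000 * P.X 110000 := by ring
      _ ≤ (P.T : ℝ) * (P.T - 1) * (P.T - 2) := by
        apply mul_le_mul _ h1 h0.le (mul_nonneg (by linarith) (by linarith))
        exact mul_le_mul (by linarith) (by linarith) h0.le (by linarith)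
  have hz : P.zeta / P.X 200000 = P.X (-300000) := by
    unfold Par.zeta
    rw [P.X_div]
    norm_num
  unfold Par.p0
  rw [hz, P.X_pow]
  calc P.X (-570001) ≤ P.X 110000 ^ 3 * P.X (-300000 * (3 : ℕ)) := by
        rw [P.X_pow, P.X_mul]
        exact P.X_le (by norm_num)
    _ ≤ _ := mul_le_mul_of_nonneg_right h3 (P.X_pos _).le

/-- the chain `a1, a2, a3` -/
theorem marg (A : Amb P V) (hI : IPres A) {u v w : V} (hd : Amb.D3 u v w) {δ : ℝ} (hδ : 0 ≤ δ)
    (h : ∀ t, t < P.T →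
      |kt A t u v w * EE A t (fun s => ind (s.Good A) * s.W u v w) - 1| ≤ δ) :
    |EE A P.T (fun s => ind ({u, v, w} ⊆ s.F)) - P.p0| ≤ P.p0 * (δ + P.X (-50000)) := by
  have h1 := M2.marg_gen (r02_inv A hI) hd (fun _ => True) h
    ((Pb_le A hI le_rfl).trans (P.X_le (by norm_num)))
    (by
      have h2 : (fun _ : St V => ind (¬ True)) = fun _ => 0 := by
        funext s
        exact ind_neg (not_not.2 trivial)
      rw [h2, EE_const]
      exact (P.X_pos _).le)
  have h3 : (fun s : St V => ind True * ind (u ∈ s.F ∧ v ∈ s.F ∧ w ∈ s.F)) =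
      fun s => ind ({u, v, w} ⊆ s.F) := by
    funext s
    rw [ind_pos trivial, one_mul]
    refine ind_congr ?_
    simp only [insert_subset_iff, singleton_subset_iff]
  rw [h3] at h1
  exact h1

end MP5cA
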