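import Pool.Agent.Lib.MP_5c685b_co.A.R10
import Pool.Agent.Lib.MP_5c685b_co.A.R20
import Pool.Agent.Lib.MP_5c685b_co.A.R21
import Pool.Agent.Lib.MP_5c685b_co.Sec9

/-!
# Route A', row R22: assembly, the finite theorem (text, section 8)
-/

set_option autoImplicit false
set_option linter.unusedVariables false
set_option linter.unusedSectionVars false

open Finset MP5c.A

namespace MP5cA

variable {V : Type} [Fintype V] [DecidableEq V] {P : Par}

attribute [local irreducible] Par.X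

/-- a sum over the triples of `J` is at most the sum over ordered triples -/
lemma f8_sum_le (J : Finset V) (ψ : Finset V → ℝ) (g : V → V → V → ℝ)
    (hg : ∀ u ∈ J, ∀ v ∈ J, ∀ w ∈ J, Amb.D3 u v w → 0 ≤ g u v w ∧ ψ {u, v, w} ≤ g u v w) :
    ∑ e ∈ J.powersetCard 3, ψ e ≤ ∑ u ∈ J, ∑ v ∈ J, ∑ w ∈ J, ind (Amb.D3 u v w) * g u v w := by
  classical
  have h0 : ∀ e ∈ J.powersetCard 3, ∃ t : V × V × V, t.1 ∈ J ∧ t.2.1 ∈ J ∧ t.2.2 ∈ J ∧
      Amb.D3 t.1 t.2.1 t.2.2 ∧ e = {t.1, t.2.1, t.2.2} := by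
    intro e he
    rw [mem_powersetCard] at he
    obtain ⟨u, v, w, h1, h2, h3, rfl⟩ := card_eq_three.1 he.2
    exact ⟨(u, v, w), he.1 (by simp), he.1 (by simp), he.1 (by simp), ⟨h1, h2, h3⟩, rfl⟩
  rcases (J.powersetCard 3).eq_empty_or_nonempty with hemp | ⟨e0, he0⟩
  · rw [hemp, sum_empty]
    refine sum_nonneg fun u hu => sum_nonneg fun v hv => sum_nonneg fun w hw => ?_
    by_cases h : Amb.D3 u v w
    · rw [ind_pos h, one_mul]
      exact (hg u hu v hv w hw h).1
    · rw [ind_neg h, zero_mul]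
  have hne : Nonempty V := by
    obtain ⟨t, _⟩ := h0 e0 he0
    exact ⟨t.1⟩
  choose! t ht using h0
  have h1 : ∑ e ∈ J.powersetCard 3, ψ e ≤
      ∑ e ∈ J.powersetCard 3, ind (Amb.D3 (t e).1 (t e).2.1 (t e).2.2) *
        g (t e).1 (t e).2.1 (t e).2.2 := by
    refine sum_le_sum fun e he => ?_
    obtain ⟨a1, a2, a3, a4, a5⟩ := ht e he
    rw [ind_pos a4, one_mul]
    have := (hg _ a1 _ a2 _ a3 a4).2
    rw [← a5] at this
    exact this
  have h2 : ∑ u ∈ J, ∑ v ∈ J, ∑ w ∈ J, ind (Amb.D3 u v w) * g u v w =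
      ∑ q ∈ J ×ˢ (J ×ˢ J), ind (Amb.D3 q.1 q.2.1 q.2.2) * g q.1 q.2.1 q.2.2 := by
    rw [sum_product]
    refine sum_congr rfl fun u _ => ?_
    rw [sum_product]
  rw [h2]
  refine h1.trans ?_
  have hinj : Set.InjOn t (J.powersetCard 3 : Finset (Finset V)) := by
    intro e he e' he' hee
    have a := (ht e he).2.2.2.2
    have b := (ht e' he').2.2.2.2
    rw [a, b, hee]
  rw [← sum_image (f := fun q : V × V × V => ind (Amb.D3 q.1 q.2.1 q.2.2) * g q.1 q.2.1 q.2.2)
    hinj]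
  refine sum_le_sum_of_subset_of_nonneg ?_ ?_
  · intro q hq
    rw [mem_image] at hq
    obtain ⟨e, he, rfl⟩ := hq
    obtain ⟨a1, a2, a3, _, _⟩ := ht e he
    exact mem_product.2 ⟨a1, mem_product.2 ⟨a2, a3⟩⟩
  · intro q hq _
    rw [mem_product, mem_product] at hq
    by_cases h : Amb.D3 q.1 q.2.1 q.2.2
    · rw [ind_pos h, one_mul]
      exact (hg _ hq.1 _ hq.2.1 _ hq.2.2 h).1
    · rw [ind_neg h, zero_mul]

/-- the error, one triple -/
lemma f8_eta {p a g : ℝ} (hp : 0 < p) (hg : g ≤ 1 / 50) (h : |a - p| ≤ p * g) :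
    0 < a ∧ (1 - p / a) ^ 2 ≤ 2 * g ^ 2 := by
  have h1 := abs_le.1 h
  have hg0 : 0 ≤ g := by
    by_contra hc
    push Not at hc
    have := (abs_nonneg _).trans h
    nlinarith
  have h2 : p * (1 - 1 / 50) ≤ a := by nlinarith [h1.1]
  have ha : 0 < a := by nlinarith
  refine ⟨ha, ?_⟩
  have h3 : 1 - p / a = (a - p) / a := by field_simp
  rw [h3, div_pow, div_le_iff₀ (pow_pos ha 2)]
  have h4 : (a - p) ^ 2 ≤ (p * g) ^ 2 := by
    rw [← sq_abs]
    exact pow_le_pow_left₀ (abs_nonneg _) h 2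
  have h5 : p ^ 2 ≤ 2 * a ^ 2 := by nlinarith
  nlinarith [sq_nonneg g]

/-- final good states of size at least `4 r` -/
def Fin' (A : Amb P V) (s : St V) : Prop := s.Good A ∧ 4 * P.r ≤ s.F.card

/-- the probability of a bad end -/
lemma r22_end (A : Amb P V) (hI : IPres A) :
    EE A P.T (fun s => ind (¬ Fin' A s)) ≤ P.X (-1000000) := by
  have h1 := Pb_le A hI (le_refl P.T)
  have h2 := size_F A hI
  have h3 : EE A P.T (fun s => ind (¬ Fin' A s)) ≤
      Pb A P.T + EE A P.T (fun s => ind (s.Good A ∧ s.F.card < 4 * P.r)) := by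
    unfold Pb
    rw [← EE_add]
    refine EE_mono A hI le_rfl fun s _ => ?_
    refine le_trans (ind_mono (q := ¬ s.Good A ∨ (s.Good A ∧ s.F.card < 4 * P.r)) ?_)
      (ind_or_le _ _)
    intro h
    by_cases hg : s.Good A
    · exact Or.inr ⟨hg, by
        by_contra hc
        exact h ⟨hg, by omega⟩⟩
    · exact Or.inl hg
  have h4 : P.X (-1010000) + P.X (-1020000) ≤ P.X (-1000000) := by
    have h5 : P.X (-1020000) ≤ P.X (-1010000) := P.X_le (by norm_num)
    have h6 : 2 * P.X (-1010000) ≤ P.X (-1000000) :=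
      P.mul_X_le (by have := P.two_pow_le (k := 1) (by norm_num); linarith) (by norm_num)
    linarith
  linarith

/-- the probability that a triple is in a final good set -/
theorem marg_fin (A : Amb P V) (hI : IPres A) {u v w : V} (hd : Amb.D3 u v w)
    (hH : ¬ A.H u v w) :
    |EE A P.T (fun s => ind (Fin' A s) * ind (u ∈ s.F ∧ v ∈ s.F ∧ w ∈ s.F)) - P.p0| ≤
      P.p0 * (A.Psi u v w + 2 * P.X (-50000)) := by
  have h1 := M2.marg_gen (r02_inv A hI) hd (Fin' A)
    (δ := A.Psi u v w + P.X (-50000))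
    (fun t ht => lvl3_all A hI ht.le hd hH)
    ((Pb_le A hI le_rfl).trans (P.X_le (by norm_num))) (r22_end A hI)
  refine h1.trans (le_of_eq ?_)
  ring

/-- `Psi` is small -/
lemma r22_Psi (A : Amb P V) {u v w : V} (hd : Amb.D3 u v w) : A.Psi u v w ≤ 1 / 100 := by
  have h1 := A.Psi_sup u v w
  have h2 := P.two_pow_le (k := 7) (by norm_num)
  have h3 : P.x * P.X (-1) = 1 := by
    rw [← P.X_one, P.X_mul]
    norm_num
    exact P.X_zero
  have h4 := P.X_pos (-1)
  have h5 : P.X (-15) ≤ P.X (-1) := P.X_le (by norm_num)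
  norm_num at h2
  nlinarith

open Pool.Agent.Lib.MP_5c685b_co in
/-- the finite theorem in terms of `Amb` -/
theorem critData_of_amb (A : Amb P V) (G : Finset (Finset V)) (hG3 : ∀ e ∈ G, e.card = 3)
    (hH : ∀ u v w, Amb.D3 u v w → (A.H u v w ↔ ({u, v, w} : Finset V) ∉ G)) :
    CritData P.r P.p0 (1 / 100) G := by
  have hI := ipres A
  have hAG : ∀ u v w, Amb.D3 u v w → (({u, v, w} : Finset V) ∈ G ↔ ¬ A.H u v w) := by
    intro u v w hd
    rw [hH u v w hd, not_not]
  have hPsi0 : ∀ u v w, 0 ≤ A.Psi u v w := A.Psi_nonneg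
  have hM : ∀ u v w, Amb.D3 u v w → ¬ A.H u v w →
      |EE A P.T (fun s => ind (s.Good A ∧ 4 * P.r ≤ s.F.card) *
        ind (u ∈ s.F ∧ v ∈ s.F ∧ w ∈ s.F)) - P.p0| ≤
        P.p0 * (A.Psi u v w + 2 * P.X (-50000)) := fun u v w hd h => marg_fin A hI hd h
  classical
  set PP : Finset V → ℝ := fun J =>
    EE A P.T (fun s => ind ((s.Good A ∧ 4 * P.r ≤ s.F.card) ∧ s.F = J)) with hPP
  set AA : Finset V → ℝ := fun e => ∑ J ∈ univ.filter (fun J => e ⊆ J), PP J with hAA
  have hp := P.p0_pos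
  have hx : P.X (-50000) ≤ 1 / 1000 ∧ 0 < P.X (-50000) := by
    refine ⟨?_, P.X_pos _⟩
    have h1 := P.two_pow_le (k := 10) (by norm_num)
    have h2 : P.x * P.X (-50000) ≤ 1 := by
      rw [← P.X_one, P.X_mul]
      exact P.X_le_one (by norm_num)
    have h3 := P.X_pos (-50000)
    rw [le_div_iff₀ (by norm_num)]
    norm_num at h1
    nlinarith
  -- the marginal of a set
  have hA : ∀ u v w, AA {u, v, w} = EE A P.T (fun s => ind (s.Good A ∧ 4 * P.r ≤ s.F.card) *
      ind (u ∈ s.F ∧ v ∈ s.F ∧ w ∈ s.F)) := by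
    intro u v w
    rw [hAA]
    simp only [hPP]
    rw [← EE_sum]
    congr 1
    funext s
    have e1 : ∀ J : Finset V, ind ((s.Good A ∧ 4 * P.r ≤ s.F.card) ∧ s.F = J) =
        if s.F = J then ind (s.Good A ∧ 4 * P.r ≤ s.F.card) else 0 := by
      intro J
      by_cases h : s.F = J
      · rw [if_pos h]
        exact ind_congr ⟨fun h' => h'.1, fun h' => ⟨h', h⟩⟩
      · rw [if_neg h]
        exact ind_neg fun h' => h h'.2
    rw [sum_congr rfl fun J _ => e1 J, sum_ite_eq]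
    by_cases h : ({u, v, w} : Finset V) ⊆ s.F
    · rw [if_pos (mem_filter.2 ⟨mem_univ _, h⟩), ind_pos (p := u ∈ s.F ∧ v ∈ s.F ∧ w ∈ s.F)
        ⟨h (by simp), h (by simp), h (by simp)⟩, mul_one]
    · rw [if_neg (fun h' => h (mem_filter.1 h').2), ind_neg (p := u ∈ s.F ∧ v ∈ s.F ∧ w ∈ s.F)
        (fun h' => h ?_), mul_zero]
      intro a ha
      simp only [mem_insert, mem_singleton] at ha
      rcases ha with rfl | rfl | rfl
      · exact h'.1
      · exact h'.2.1
      · exact h'.2.2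
  -- one triple
  have hT : ∀ u v w, Amb.D3 u v w → ¬ A.H u v w → 0 < AA {u, v, w} ∧
      (1 - P.p0 / AA {u, v, w}) ^ 2 ≤ 2 * (A.Psi u v w + 2 * P.X (-50000)) ^ 2 := by
    intro u v w h1 h2
    refine f8_eta hp ?_ (by rw [hA]; exact hM u v w h1 h2)
    linarith [r22_Psi A h1, hx.1]
  refine ⟨PP, fun e => 1 - P.p0 / AA e, fun J => EE_nonneg A hI le_rfl fun s _ => ind_nonneg _,
    fun J hJ => ?_, fun e he => ?_⟩
  · -- a state
    obtain ⟨s, hs, ⟨hgood, hcard⟩, hF⟩ : ∃ s : St V, s.Inv A P.T ∧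
        (s.Good A ∧ 4 * P.r ≤ s.F.card) ∧ s.F = J := by
      by_contra hc
      push Not at hc
      refine hJ ?_
      have h1 : PP J = EE A P.T (fun _ => 0) :=
        EE_congr A hI le_rfl fun s hs => ind_neg fun h => hc s hs h.1 h.2
      rw [h1, EE_const]
    subst hF
    have hH : ∀ u ∈ s.F, ∀ v ∈ s.F, ∀ w ∈ s.F, ¬ A.H u v w := hs.cl
    refine ⟨?_, hcard, ?_⟩
    · intro e he he3
      obtain ⟨u, v, w, h1, h2, h3, rfl⟩ := card_eq_three.1 he3
      exact (hAG u v w ⟨h1, h2, h3⟩).2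
        (hH u (he (by simp)) v (he (by simp)) w (he (by simp)))
    · have h1 := f8_sum_le s.F (fun e => (1 - P.p0 / AA e) ^ 2)
        (fun u v w => 4 * A.Psi u v w ^ 2 + 16 * P.X (-100000))
        (fun u hu v hv w hw hd => ⟨by
            have := P.X_pos (-100000)
            have h2 := sq_nonneg (A.Psi u v w)
            linarith, by
            refine (hT u v w hd (hH u hu v hv w hw)).2.trans ?_
            have h3 : P.X (-50000) ^ 2 = P.X (-100000) := by rw [P.X_pow]; norm_num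
            rw [← h3]
            nlinarith [sq_nonneg (A.Psi u v w - 2 * P.X (-50000))]⟩)
      refine h1.trans ?_
      have h2 : ∑ u ∈ s.F, ∑ v ∈ s.F, ∑ w ∈ s.F, ind (Amb.D3 u v w) *
          (4 * A.Psi u v w ^ 2 + 16 * P.X (-100000)) ≤
          4 * s.Z9 A + ∑ u ∈ s.F, ∑ v ∈ s.F, ∑ w ∈ s.F, (16 * P.X (-100000)) := by
        unfold St.Z9
        rw [mul_sum, ← sum_add_distrib]
        refine sum_le_sum fun u _ => ?_
        rw [mul_sum, ← sum_add_distrib]
        refine sum_le_sum fun v _ => ?_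
        rw [mul_sum, ← sum_add_distrib]
        refine sum_le_sum fun w _ => ?_
        have h3 := ind_le_one (Amb.D3 u v w)
        have h4 := P.X_pos (-100000)
        nlinarith
      refine h2.trans ?_
      have h3 := hgood.g9
      have h4 : ∑ u ∈ s.F, ∑ v ∈ s.F, ∑ w ∈ s.F, (16 * P.X (-100000)) ≤ 1 / 10 ^ 5 := by
        simp only [sum_const, nsmul_eq_mul]
        have h5 := hgood.g2
        have h6 : (0 : ℝ) ≤ s.F.card := Nat.cast_nonneg _
        have h7 : (s.F.card : ℝ) * ((s.F.card : ℝ) * ((s.F.card : ℝ) * (16 * P.X (-100000)))) ≤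
            P.X 10002 * (P.X 10002 * (P.X 10002 * (16 * P.X (-100000)))) := by
          have hX := (P.X_pos (-100000)).le
          have hX' := (P.X_pos 10002).le
          gcongr
        refine h7.trans ?_
        have h8 : P.X 10002 * (P.X 10002 * (P.X 10002 * (16 * P.X (-100000)))) =
            16 * P.X (-69994) := by
          rw [show P.X 10002 * (P.X 10002 * (P.X 10002 * (16 * P.X (-100000)))) =
            16 * (P.X 10002 * (P.X 10002 * (P.X 10002 * P.X (-100000)))) by ring,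
            P.X_mul, P.X_mul, P.X_mul]
          norm_num
        rw [h8]
        have h9 := P.two_pow_le (k := 30) (by norm_num)
        have h10 : P.x * P.X (-69994) ≤ 1 := by
          rw [← P.X_one, P.X_mul]
          exact P.X_le_one (by norm_num)
        have h11 := P.X_pos (-69994)
        rw [le_div_iff₀ (by norm_num)]
        norm_num at h9 ⊢
        nlinarith
      norm_num at h3 h4 ⊢
      linarith
  · obtain ⟨u, v, w, h1, h2, h3, rfl⟩ := card_eq_three.1 (hG3 e he)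
    have h4 := (hT u v w ⟨h1, h2, h3⟩ ((hAG u v w ⟨h1, h2, h3⟩).1 he)).1
    change AA {u, v, w} * (1 - (1 - P.p0 / AA {u, v, w})) = P.p0
    field_simp
    ring

/-- the parameters for `r` -/
noncomputable def mkPar (r : ℕ) (hr : (10 : ℝ) ^ 13 ≤ Real.log r) : Par where
  r := r
  x := (r : ℝ) ^ ((1 : ℝ) / 10000)
  Lam := 1 / 10 ^ 13 * Real.log r
  hx0 := by
    have h0 : 0 < (r : ℝ) := by
      by_contra hc
      have : (r : ℝ) = 0 := le_antisymm (not_lt.1 hc) (Nat.cast_nonneg _)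
      rw [this, Real.log_zero] at hr
      norm_num at hr
    exact Real.rpow_pos_of_pos h0 _
  hr := by
    rw [← Real.rpow_natCast, ← Real.rpow_mul (Nat.cast_nonneg _)]
    norm_num
  hLam := by
    rw [div_mul_eq_mul_div, one_mul, le_div_iff₀ (by norm_num)]
    linarith
  hP := by
    have h0 : 0 < (r : ℝ) := by
      by_contra hc
      have : (r : ℝ) = 0 := le_antisymm (not_lt.1 hc) (Nat.cast_nonneg _)
      rw [this, Real.log_zero] at hr
      norm_num at hr
    rw [Real.rpow_def_of_pos h0]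
    refine Real.exp_le_exp.2 ?_
    have h1 : 0 ≤ Real.log r := le_trans (by norm_num) hr
    nlinarith

/-- the ambient structure of `G` -/
noncomputable def mkAmb {P : Par} {G : Finset (Finset V)} (hc : Fintype.card V = P.r ^ 20)
    (hcod : ∀ a b : V, a ≠ b →
      ((univ.filter (fun v => v ≠ a ∧ v ≠ b ∧ ({a, b, v} : Finset V) ∉ G)).card : ℝ)
        ≤ P.eps * (P.r : ℝ) ^ 20) : Amb P V where
  H u v w := Amb.D3 u v w ∧ ({u, v, w} : Finset V) ∉ G
  hc := hc
  hd u v w h := h.1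
  s1 u v w h := ⟨M2.D3_s1 h.1, by
    rw [show ({v, u, w} : Finset V) = {u, v, w} by ext a; simp only [mem_insert, mem_singleton]; tauto]
    exact h.2⟩
  s2 u v w h := ⟨M2.D3_s2 h.1, by
    rw [show ({u, w, v} : Finset V) = {u, v, w} by ext a; simp only [mem_insert, mem_singleton]; tauto]
    exact h.2⟩
  he u v := by
    by_cases huv : u = v
    · subst huv
      refine le_trans (le_of_eq ?_) P.eps_pos.le
      rw [← av_zero (V := V)]
      exact av_congr fun w => ind_neg fun h => h.1.1 rfl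
    · have h1 : ∀ w, ind (Amb.D3 u v w ∧ ({u, v, w} : Finset V) ∉ G) =
          ind (w ∈ univ.filter (fun v' => v' ≠ u ∧ v' ≠ v ∧ ({u, v, v'} : Finset V) ∉ G)) := by
        intro w
        refine ind_congr ?_
        rw [mem_filter]
        constructor
        · intro h
          exact ⟨mem_univ _, h.1.2.1.symm, h.1.2.2.symm, h.2⟩
        · intro h
          exact ⟨⟨huv, h.2.1.symm, h.2.2.1.symm⟩, h.2.2.2⟩
      rw [av_congr h1, av_ind_mem]
      have h2 : (Fintype.card V : ℝ) = (P.r : ℝ) ^ 20 := by rw [hc]; push_cast; rfl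
      have h3 : (0 : ℝ) < (P.r : ℝ) ^ 20 := pow_pos (by exact_mod_cast (Br.r_pos P)) 20
      rw [h2, div_le_iff₀ h3]
      exact hcod u v huv

open Pool.Agent.Lib.MP_5c685b_co in
/-- **the finite theorem** -/
theorem finThm : FinThm := by
  refine ⟨1 / 10 ^ 13, by norm_num, ⌈Real.exp (10 ^ 13)⌉₊, fun r hr => ?_⟩
  have hr1 : Real.exp (10 ^ 13) ≤ r := (Nat.le_ceil _).trans (by exact_mod_cast hr)
  have hlog : (10 : ℝ) ^ 13 ≤ Real.log r := by
    rw [Real.le_log_iff_exp_le (lt_of_lt_of_le (Real.exp_pos _) hr1)]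
    exact hr1
  refine ⟨(mkPar r hlog).p0, Par.p0_pos _, fun V _ _ hV G hG3 hcod => ?_⟩
  have heps : (mkPar r hlog).eps * (r : ℝ) ^ 20 =
      1 / 10 ^ 13 * Real.log r / (r : ℝ) ^ 2 * (r : ℝ) ^ 20 := by
    have h1 : (mkPar r hlog).X (-20000) = ((r : ℝ) ^ 2)⁻¹ := by
      have h2 := (mkPar r hlog).r_eq
      have h3 : ((mkPar r hlog).r : ℝ) = r := rfl
      rw [h3] at h2
      rw [h2, (mkPar r hlog).X_pow, (mkPar r hlog).X_inv]
      norm_num
    unfold Par.eps
    rw [h1]
    have h4 : (mkPar r hlog).Lam = 1 / 10 ^ 13 * Real.log r := rfl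
    rw [h4]
    ring
  refine critData_of_amb (mkAmb (P := mkPar r hlog) (G := G) hV (fun a b hab => by
    refine (hcod a b hab).trans (le_of_eq ?_)
    exact heps.symm)) G hG3 (fun u v w hd => ?_)
  change (Amb.D3 u v w ∧ ({u, v, w} : Finset V) ∉ G) ↔ _
  tauto

end MP5cA
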