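import Pool.Agent.Lib.MP_5c685b_co.A.Defs

/-!
# Route A', R01: the static quantities
-/

set_option autoImplicit false
set_option linter.unusedVariables false
set_option linter.unusedSectionVars false

open Finset

namespace MP5cA

variable {V : Type} [Fintype V]

/-! ## Classes of functions of three variables -/

/-- bounds of a function of three variables: pointwise, and averages over one, two, three variables -/
structure Cls (f : V → V → V → ℝ) (a a1 a2 a3 : ℝ) : Prop where
  s : ∀ u v w, f u v w ≤ a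
  u1 : ∀ v w, av (fun u => f u v w) ≤ a1
  v1 : ∀ u w, av (fun v => f u v w) ≤ a1
  w1 : ∀ u v, av (fun w => f u v w) ≤ a1
  uv : ∀ w, av (fun u => av fun v => f u v w) ≤ a2
  uw : ∀ v, av (fun u => av fun w => f u v w) ≤ a2
  vw : ∀ u, av (fun v => av fun w => f u v w) ≤ a2
  t : av (fun u => av fun v => av fun w => f u v w) ≤ a3

namespace Cls

variable {f g : V → V → V → ℝ} {a a1 a2 a3 b b1 b2 b3 : ℝ}

theorem mono (F : Cls f a a1 a2 a3) (h : a ≤ b) (h1 : a1 ≤ b1) (h2 : a2 ≤ b2) (h3 : a3 ≤ b3) :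
    Cls f b b1 b2 b3 where
  s u v w := (F.s u v w).trans h
  u1 v w := (F.u1 v w).trans h1
  v1 u w := (F.v1 u w).trans h1
  w1 u v := (F.w1 u v).trans h1
  uv w := (F.uv w).trans h2
  uw v := (F.uw v).trans h2
  vw u := (F.vw u).trans h2
  t := F.t.trans h3

theorem le (F : Cls f a a1 a2 a3) (h : ∀ u v w, g u v w ≤ f u v w) : Cls g a a1 a2 a3 where
  s u v w := (h u v w).trans (F.s u v w)
  u1 v w := (av_mono fun u => h u v w).trans (F.u1 v w)
  v1 u w := (av_mono fun v => h u v w).trans (F.v1 u w)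
  w1 u v := (av_mono fun w => h u v w).trans (F.w1 u v)
  uv w := (av_mono fun u => av_mono fun v => h u v w).trans (F.uv w)
  uw v := (av_mono fun u => av_mono fun w => h u v w).trans (F.uw v)
  vw u := (av_mono fun v => av_mono fun w => h u v w).trans (F.vw u)
  t := (av_mono fun u => av_mono fun v => av_mono fun w => h u v w).trans F.t

theorem add (F : Cls f a a1 a2 a3) (G : Cls g b b1 b2 b3) :
    Cls (fun u v w => f u v w + g u v w) (a + b) (a1 + b1) (a2 + b2) (a3 + b3) where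
  s u v w := add_le_add (F.s u v w) (G.s u v w)
  u1 v w := by rw [av_add]; exact add_le_add (F.u1 v w) (G.u1 v w)
  v1 u w := by rw [av_add]; exact add_le_add (F.v1 u w) (G.v1 u w)
  w1 u v := by rw [av_add]; exact add_le_add (F.w1 u v) (G.w1 u v)
  uv w := by simp_rw [av_add]; exact add_le_add (F.uv w) (G.uv w)
  uw v := by simp_rw [av_add]; exact add_le_add (F.uw v) (G.uw v)
  vw u := by simp_rw [av_add]; exact add_le_add (F.vw u) (G.vw u)
  t := by simp_rw [av_add]; exact add_le_add F.t G.t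

theorem smul (F : Cls f a a1 a2 a3) {c : ℝ} (hc : 0 ≤ c) :
    Cls (fun u v w => c * f u v w) (c * a) (c * a1) (c * a2) (c * a3) where
  s u v w := mul_le_mul_of_nonneg_left (F.s u v w) hc
  u1 v w := by rw [av_mul_left]; exact mul_le_mul_of_nonneg_left (F.u1 v w) hc
  v1 u w := by rw [av_mul_left]; exact mul_le_mul_of_nonneg_left (F.v1 u w) hc
  w1 u v := by rw [av_mul_left]; exact mul_le_mul_of_nonneg_left (F.w1 u v) hc
  uv w := by simp_rw [av_mul_left]; exact mul_le_mul_of_nonneg_left (F.uv w) hc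
  uw v := by simp_rw [av_mul_left]; exact mul_le_mul_of_nonneg_left (F.uw v) hc
  vw u := by simp_rw [av_mul_left]; exact mul_le_mul_of_nonneg_left (F.vw u) hc
  t := by simp_rw [av_mul_left]; exact mul_le_mul_of_nonneg_left F.t hc

/-- exchange of the first two variables -/
theorem swap12 (F : Cls f a a1 a2 a3) : Cls (fun u v w => f v u w) a a1 a2 a3 where
  s u v w := F.s v u w
  u1 v w := F.v1 v w
  v1 u w := F.u1 u w
  w1 u v := F.w1 v u
  uv w := by rw [av_comm]; exact F.uv w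
  uw v := F.vw v
  vw u := F.uw u
  t := by rw [av_comm]; exact F.t

/-- exchange of the last two variables -/
theorem swap23 (F : Cls f a a1 a2 a3) : Cls (fun u v w => f u w v) a a1 a2 a3 where
  s u v w := F.s u w v
  u1 v w := F.u1 w v
  v1 u w := F.w1 u w
  w1 u v := F.v1 u v
  uv w := F.uw w
  uw v := F.uv v
  vw u := by rw [av_comm]; exact F.vw u
  t := by
    refine (le_of_eq ?_).trans F.t
    congr 1
    ext u
    rw [av_comm]

/-- the square of a nonnegative function -/
theorem sq (F : Cls f a a1 a2 a3) (h0 : ∀ u v w, 0 ≤ f u v w) (ha : 0 ≤ a) :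
    Cls (fun u v w => f u v w ^ 2) (a ^ 2) (a * a1) (a * a2) (a * a3) := by
  have h1 : Cls (fun u v w => f u v w ^ 2) (a * a) (a * a1) (a * a2) (a * a3) := by
    refine (F.smul ha).le fun u v w => ?_
    rw [pow_two]
    exact mul_le_mul_of_nonneg_right (F.s u v w) (h0 u v w)
  rwa [← pow_two] at h1

/-- a constant -/
theorem const {c : ℝ} (hc : 0 ≤ c) : Cls (fun _ _ _ : V => c) c c c c := by
  have h1 : av (fun _ : V => c) ≤ c := av_le_const hc fun _ => le_rfl
  refine ⟨fun _ _ _ => le_rfl, fun _ _ => h1, fun _ _ => h1, fun _ _ => h1, fun _ => ?_, fun _ => ?_, fun _ => ?_, ?_⟩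
  · exact av_le_const hc fun _ => h1
  · exact av_le_const hc fun _ => h1
  · exact av_le_const hc fun _ => h1
  · exact av_le_const hc fun _ => av_le_const hc fun _ => h1

end Cls

theorem sum_le_of_av [Nonempty V] {f : V → ℝ} {c : ℝ} (h : av f ≤ c) : ∑ x, f x ≤ Fintype.card V * c := by
  rw [sum_eq_card_mul_av]
  exact mul_le_mul_of_nonneg_left h (Nat.cast_nonneg _)

/-- Markov -/
theorem av_ind_le {f : V → ℝ} (hf : ∀ x, 0 ≤ f x) {p : V → Prop} {th c : ℝ} (hth : 0 < th)
    (hp : ∀ x, p x → th ≤ f x) (hc : av f ≤ c) : av (fun x => ind (p x)) ≤ c / th := by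
  rw [le_div_iff₀ hth, ← av_mul_right]
  refine le_trans (av_mono fun x => ?_) hc
  by_cases h : p x
  · rw [ind_pos h, one_mul]
    exact hp x h
  · rw [ind_neg h, zero_mul]
    exact hf x

/-! ## parameters -/

namespace Par

variable (P : Par)

theorem Lam_le : P.Lam ≤ P.X 1 := by
  rw [P.X_one]
  exact P.Lam_le_x

theorem eps_le : P.eps ≤ P.X (-19999) := by
  unfold eps
  calc P.Lam * P.X (-20000) ≤ P.X 1 * P.X (-20000) := mul_le_mul_of_nonneg_right P.Lam_le (P.X_pos _).le
    _ = P.X (-19999) := by rw [P.X_mul]; norm_num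

theorem eps_pow_le (k : ℕ) : P.eps ^ k ≤ P.X (-19999 * k) := by
  rw [← P.X_pow]
  exact pow_le_pow_left₀ P.eps_pos.le P.eps_le k

theorem eps2_le : P.eps ^ 2 ≤ P.X (-39998) := by
  have := P.eps_pow_le 2
  norm_num at this
  exact this

theorem eps3_le : P.eps ^ 3 ≤ P.X (-59997) := by
  have := P.eps_pow_le 3
  norm_num at this
  exact this

theorem eps4_le : P.eps ^ 4 ≤ P.X (-79996) := by
  have := P.eps_pow_le 4
  norm_num at this
  exact this

theorem two_le : 2 ≤ P.X 1 := by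
  rw [P.X_one]
  have := P.two_pow_le (k := 1) (by norm_num)
  linarith

end Par

variable [DecidableEq V] {P : Par}

namespace Amb

variable (A : Amb P V)

include A in
theorem card_eq : (Fintype.card V : ℝ) = P.X 200000 := by
  rw [A.hc]
  push_cast
  rw [P.r_eq, P.X_pow]
  norm_num

include A in
theorem nonempty : Nonempty V := by
  have h : (Fintype.card V : ℝ) ≠ 0 := by
    rw [A.card_eq]
    exact P.X_ne _
  exact Fintype.card_pos_iff.1 (Nat.pos_of_ne_zero (by exact_mod_cast h))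

theorem h_nonneg (u v w : V) : 0 ≤ A.h u v w := ind_nonneg _

theorem h_le_one (u v w : V) : A.h u v w ≤ 1 := ind_le_one _

theorem h_symm12 (u v w : V) : A.h u v w = A.h v u w := ind_congr ⟨A.s1 u v w, A.s1 v u w⟩

theorem h_symm23 (u v w : V) : A.h u v w = A.h u w v := ind_congr ⟨A.s2 u v w, A.s2 u w v⟩

theorem h_rot (u v w : V) : A.h u v w = A.h v w u := by rw [A.h_symm12, A.h_symm23]

theorem h_symm13 (u v w : V) : A.h u v w = A.h w v u := by rw [A.h_rot, A.h_symm12]

theorem h_sq (u v w : V) : A.h u v w ^ 2 = A.h u v w := ind_sq _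

theorem h_diag (u w : V) : A.h u u w = 0 := ind_neg fun h => (A.hd _ _ _ h).1 rfl

theorem h_diag23 (u w : V) : A.h w u u = 0 := ind_neg fun h => (A.hd _ _ _ h).2.2 rfl

theorem h_diag13 (u w : V) : A.h u w u = 0 := ind_neg fun h => (A.hd _ _ _ h).2.1 rfl

theorem deg (u v : V) : av (fun x => A.h u v x) ≤ P.eps := A.he u v

theorem deg2 (u v : V) : av (fun x => A.h u x v) ≤ P.eps := by
  simp_rw [A.h_symm23 u _ v]
  exact A.deg u v

theorem deg3 (u v : V) : av (fun x => A.h x u v) ≤ P.eps := by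
  simp_rw [A.h_rot _ u v]
  exact A.deg u v

theorem lam_symm (u v : V) : A.lam u v = A.lam v u := by
  unfold lam
  simp_rw [mul_comm]

theorem lam_nonneg (u v : V) : 0 ≤ A.lam u v :=
  av_nonneg fun _ => av_nonneg fun _ => mul_nonneg (A.h_nonneg _ _ _) (A.h_nonneg _ _ _)

theorem lam_le (u v : V) : A.lam u v ≤ P.eps :=
  av_le_const P.eps_pos.le fun s =>
    (av_mono fun _ => mul_le_of_le_one_right (A.h_nonneg _ _ _) (A.h_le_one _ _ _)).trans (A.deg s u)

/-- `E_v lam(u,v) ≤ eps^2` -/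
theorem av_lam (u : V) : av (fun v => A.lam u v) ≤ P.eps ^ 2 := by
  unfold lam
  rw [av_comm]
  refine av_le_const (sq_nonneg _) fun s => ?_
  rw [av_comm]
  calc av (fun y => av fun v => A.h s u y * A.h s v y)
      = av (fun y => A.h s u y * av fun v => A.h s v y) := by simp_rw [av_mul_left]
    _ ≤ av (fun y => A.h s u y * P.eps) := av_mono fun y => mul_le_mul_of_nonneg_left (A.deg2 s y) (A.h_nonneg _ _ _)
    _ = av (fun y => A.h s u y) * P.eps := av_mul_right _ _
    _ ≤ P.eps * P.eps := mul_le_mul_of_nonneg_right (A.deg s u) P.eps_pos.le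
    _ = P.eps ^ 2 := by ring

theorem av_lam' (u : V) : av (fun v => A.lam v u) ≤ P.eps ^ 2 := by
  simp_rw [A.lam_symm _ u]
  exact A.av_lam u

/-- `E_v lam(u,v)^2 ≤ eps^3` -/
theorem av_lam_sq (u : V) : av (fun v => A.lam u v ^ 2) ≤ P.eps ^ 3 := by
  calc av (fun v => A.lam u v ^ 2) ≤ av (fun v => P.eps * A.lam u v) := av_mono fun v => by
        rw [pow_two]
        exact mul_le_mul_of_nonneg_right (A.lam_le u v) (A.lam_nonneg u v)
    _ = P.eps * av (fun v => A.lam u v) := av_mul_left _ _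
    _ ≤ P.eps * P.eps ^ 2 := mul_le_mul_of_nonneg_left (A.av_lam u) P.eps_pos.le
    _ = P.eps ^ 3 := by ring

theorem lam3_nonneg (u v w : V) : 0 ≤ A.lam3 u v w :=
  av_nonneg fun _ => av_nonneg fun _ => mul_nonneg (mul_nonneg (A.h_nonneg _ _ _) (A.h_nonneg _ _ _)) (A.h_nonneg _ _ _)

theorem lam3_le (u v w : V) : A.lam3 u v w ≤ A.lam u v :=
  av_mono fun _ => av_mono fun _ =>
    mul_le_of_le_one_right (mul_nonneg (A.h_nonneg _ _ _) (A.h_nonneg _ _ _)) (A.h_le_one _ _ _)

theorem lam3_symm12 (u v w : V) : A.lam3 u v w = A.lam3 v u w := by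
  unfold lam3
  congr 1
  ext s
  congr 1
  ext y
  ring

theorem lam3_symm23 (u v w : V) : A.lam3 u v w = A.lam3 u w v := by
  unfold lam3
  congr 1
  ext s
  congr 1
  ext y
  ring

theorem lam3_le13 (u v w : V) : A.lam3 u v w ≤ A.lam u w := by
  rw [A.lam3_symm23]
  exact A.lam3_le u w v

theorem lam3_le23 (u v w : V) : A.lam3 u v w ≤ A.lam v w := by
  rw [A.lam3_symm12]
  exact A.lam3_le13 v u w

/-- `E_w lam3(u,v,w) ≤ eps lam(u,v)` -/
theorem av_lam3 (u v : V) : av (fun w => A.lam3 u v w) ≤ P.eps * A.lam u v := by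
  unfold lam3 lam
  rw [av_comm, ← av_mul_left]
  refine av_mono fun s => ?_
  rw [av_comm, ← av_mul_left]
  refine av_mono fun y => ?_
  rw [av_mul_left, mul_comm P.eps]
  exact mul_le_mul_of_nonneg_left (A.deg2 s y) (mul_nonneg (A.h_nonneg _ _ _) (A.h_nonneg _ _ _))

theorem av_lam3_13 (u w : V) : av (fun v => A.lam3 u v w) ≤ P.eps * A.lam u w := by
  simp_rw [A.lam3_symm23 u _ w]
  exact A.av_lam3 u w

theorem av_lam3_23 (v w : V) : av (fun u => A.lam3 u v w) ≤ P.eps * A.lam v w := by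
  simp_rw [A.lam3_symm12 _ v w]
  exact A.av_lam3_13 v w

theorem eps_sq_div_theta : P.eps ^ 2 / P.theta ≤ P.X (-19958) := by
  unfold Par.theta
  rw [div_le_iff₀ (P.X_pos _), P.X_mul]
  exact P.eps2_le.trans (P.X_le (by norm_num))

theorem Strong_symm (u v : V) : A.Strong u v ↔ A.Strong v u := by
  unfold Strong
  rw [A.lam_symm]

/-- strong pairs have measure at most `r^-2 x^42` -/
theorem av_strong (u : V) : av (fun v => ind (A.Strong u v)) ≤ P.X (-19958) :=
  (av_ind_le (fun v => A.lam_nonneg u v) P.theta_pos (fun _ hx => hx) (A.av_lam u)).trans eps_sq_div_theta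

theorem av_strong' (u : V) : av (fun v => ind (A.Strong v u)) ≤ P.X (-19958) := by
  refine (le_of_eq (av_congr fun v => ind_congr (A.Strong_symm v u))).trans (A.av_strong u)

theorem D3_symm12 {u v w : V} (h : D3 u v w) : D3 v u w := ⟨h.1.symm, h.2.2, h.2.1⟩

theorem D3_symm23 {u v w : V} (h : D3 u v w) : D3 u w v := ⟨h.2.1, h.1, h.2.2.symm⟩

theorem TT_symm12 {u v w : V} : A.TT u v w ↔ A.TT v u w := by
  unfold TT
  rw [A.lam3_symm12 u v w]
  exact ⟨fun h => ⟨D3_symm12 h.1, fun h' => h.2.1 (A.s1 _ _ _ h'), h.2.2⟩,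
    fun h => ⟨D3_symm12 h.1, fun h' => h.2.1 (A.s1 _ _ _ h'), h.2.2⟩⟩

theorem TT_symm23 {u v w : V} : A.TT u v w ↔ A.TT u w v := by
  unfold TT
  rw [A.lam3_symm23 u v w]
  exact ⟨fun h => ⟨D3_symm23 h.1, fun h' => h.2.1 (A.s2 _ _ _ h'), h.2.2⟩,
    fun h => ⟨D3_symm23 h.1, fun h' => h.2.1 (A.s2 _ _ _ h'), h.2.2⟩⟩

/-- all three pairs of a triple of `TT` are strong -/
theorem TT_strong {u v w : V} (hT : A.TT u v w) : A.Strong u v ∧ A.Strong u w ∧ A.Strong v w :=
  ⟨hT.2.2.trans (A.lam3_le u v w), hT.2.2.trans (A.lam3_le13 u v w), hT.2.2.trans (A.lam3_le23 u v w)⟩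

theorem av_TT (u v : V) : av (fun w => ind (A.TT u v w)) ≤ P.X (-19958) := by
  refine (av_ind_le (fun w => A.lam3_nonneg u v w) P.theta_pos (fun _ hx => hx.2.2)
    ((A.av_lam3 u v).trans ?_)).trans eps_sq_div_theta
  rw [pow_two]
  exact mul_le_mul_of_nonneg_left (A.lam_le u v) P.eps_pos.le

theorem hh_nonneg (u v w : V) : 0 ≤ A.hh u v w := ind_nonneg _

theorem hh_le_one (u v w : V) : A.hh u v w ≤ 1 := ind_le_one _

theorem h_le_hh (u v w : V) : A.h u v w ≤ A.hh u v w := ind_mono Or.inl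

theorem hh_symm12 (u v w : V) : A.hh u v w = A.hh v u w :=
  ind_congr ⟨fun h => h.imp (A.s1 _ _ _) A.TT_symm12.mp, fun h => h.imp (A.s1 _ _ _) A.TT_symm12.mp⟩

theorem hh_symm23 (u v w : V) : A.hh u v w = A.hh u w v :=
  ind_congr ⟨fun h => h.imp (A.s2 _ _ _) A.TT_symm23.mp, fun h => h.imp (A.s2 _ _ _) A.TT_symm23.mp⟩

theorem hh_rot (u v w : V) : A.hh u v w = A.hh v w u := by rw [A.hh_symm12, A.hh_symm23]

/-- codegree of `hh`: at most `r^-2 x^43` -/
theorem av_hh (u v : V) : av (fun w => A.hh u v w) ≤ P.X (-19957) := by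
  calc av (fun w => A.hh u v w) ≤ av (fun w => A.h u v w + ind (A.TT u v w)) := av_mono fun w => ind_or_le _ _
    _ = av (fun w => A.h u v w) + av (fun w => ind (A.TT u v w)) := av_add _ _
    _ ≤ P.X (-19958) + P.X (-19958) :=
        add_le_add (((A.deg u v).trans P.eps_le).trans (P.X_le (by norm_num))) (A.av_TT u v)
    _ = 2 * P.X (-19958) := by ring
    _ ≤ P.X (-19957) := P.mul_X_le (by have := P.two_le; rwa [P.X_one] at this) (by norm_num)

theorem av_hh2 (u v : V) : av (fun w => A.hh u w v) ≤ P.X (-19957) := by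
  simp_rw [A.hh_symm23 u _ v]
  exact A.av_hh u v

theorem av_hh3 (u v : V) : av (fun w => A.hh w u v) ≤ P.X (-19957) := by
  simp_rw [A.hh_symm12 _ u v]
  exact A.av_hh2 u v

/-! ### `lamh` -/

theorem lamh_nonneg (v x : V) : 0 ≤ A.lamh v x :=
  av_nonneg fun _ => av_nonneg fun _ => mul_nonneg (A.h_nonneg _ _ _) (A.hh_nonneg _ _ _)

theorem lamh_le (v x : V) : A.lamh v x ≤ P.eps :=
  av_le_const P.eps_pos.le fun u =>
    (av_mono fun _ => mul_le_of_le_one_right (A.h_nonneg _ _ _) (A.hh_le_one _ _ _)).trans (A.deg2 u v)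

theorem av_lamh (v : V) : av (fun x => A.lamh v x) ≤ P.eps * P.X (-19957) := by
  unfold lamh
  rw [av_comm]
  refine av_le_const (mul_nonneg P.eps_pos.le (P.X_pos _).le) fun u => ?_
  rw [av_comm]
  calc av (fun w => av fun x => A.h u w v * A.hh x u w)
      = av (fun w => A.h u w v * av fun x => A.hh x u w) := by simp_rw [av_mul_left]
    _ ≤ av (fun w => A.h u w v * P.X (-19957)) :=
        av_mono fun w => mul_le_mul_of_nonneg_left (A.av_hh3 u w) (A.h_nonneg _ _ _)
    _ = av (fun w => A.h u w v) * P.X (-19957) := av_mul_right _ _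
    _ ≤ P.eps * P.X (-19957) := mul_le_mul_of_nonneg_right (A.deg2 u v) (P.X_pos _).le

theorem av_lamh_le (v : V) : av (fun x => A.lamh v x) ≤ P.X (-39956) := by
  refine (A.av_lamh v).trans ?_
  calc P.eps * P.X (-19957) ≤ P.X (-19999) * P.X (-19957) := mul_le_mul_of_nonneg_right P.eps_le (P.X_pos _).le
    _ = P.X (-39956) := by rw [P.X_mul]; norm_num

theorem av_lamh_sq (v : V) : av (fun x => A.lamh v x ^ 2) ≤ P.eps ^ 2 * P.X (-19957) := by
  calc av (fun x => A.lamh v x ^ 2) ≤ av (fun x => P.eps * A.lamh v x) := av_mono fun x => by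
        rw [pow_two]
        exact mul_le_mul_of_nonneg_right (A.lamh_le v x) (A.lamh_nonneg v x)
    _ = P.eps * av (fun x => A.lamh v x) := av_mul_left _ _
    _ ≤ P.eps * (P.eps * P.X (-19957)) := mul_le_mul_of_nonneg_left (A.av_lamh v) P.eps_pos.le
    _ = P.eps ^ 2 * P.X (-19957) := by ring

/-! ### classes of the terms of `Psi` -/

/-- `lam(u,v)` as a function of three variables -/
theorem cls_lam : Cls (fun u v _ => A.lam u v) P.eps P.eps (P.eps ^ 2) (P.eps ^ 2) := by
  have h1 := P.eps_pos.le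
  have h2 : 0 ≤ P.eps ^ 2 := sq_nonneg _
  refine ⟨fun u v _ => A.lam_le u v, fun v _ => ?_, fun u _ => ?_, fun u v => ?_, fun _ => ?_, fun v => ?_,
    fun u => ?_, ?_⟩
  · exact av_le_const h1 fun u => A.lam_le u v
  · exact av_le_const h1 fun v => A.lam_le u v
  · exact av_le_const h1 fun _ => A.lam_le u v
  · exact av_le_const h2 fun u => A.av_lam u
  · calc av (fun u => av fun _ => A.lam u v) ≤ av (fun u => A.lam u v) :=
          av_mono fun u => av_le_const (A.lam_nonneg u v) fun _ => le_rfl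
      _ ≤ P.eps ^ 2 := A.av_lam' v
  · calc av (fun v => av fun _ => A.lam u v) ≤ av (fun v => A.lam u v) :=
          av_mono fun v => av_le_const (A.lam_nonneg u v) fun _ => le_rfl
      _ ≤ P.eps ^ 2 := A.av_lam u
  · calc av (fun u => av fun v => av fun _ => A.lam u v) ≤ av (fun u => av fun v => A.lam u v) :=
          av_mono fun u => av_mono fun v => av_le_const (A.lam_nonneg u v) fun _ => le_rfl
      _ ≤ P.eps ^ 2 := av_le_const h2 fun u => A.av_lam u

/-- `lam3` below the threshold -/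
theorem cls_lam3 : Cls (fun u v w => A.lam3 u v w * ind (A.lam3 u v w < P.theta)) P.theta (P.eps ^ 2) (P.eps ^ 3)
    (P.eps ^ 3) := by
  have h0 := P.eps_pos.le
  have h2 : 0 ≤ P.eps ^ 2 := sq_nonneg _
  have h3 : 0 ≤ P.eps ^ 3 := pow_nonneg h0 3
  have hle : ∀ u v w, A.lam3 u v w * ind (A.lam3 u v w < P.theta) ≤ A.lam3 u v w := fun u v w =>
    mul_le_of_le_one_right (A.lam3_nonneg u v w) (ind_le_one _)
  have e1 : ∀ u v, P.eps * A.lam u v ≤ P.eps ^ 2 := fun u v => by
    rw [pow_two]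
    exact mul_le_mul_of_nonneg_left (A.lam_le u v) h0
  have e3 : P.eps * P.eps ^ 2 = P.eps ^ 3 := by ring
  have huv : ∀ w, av (fun u => av fun v => A.lam3 u v w) ≤ P.eps ^ 3 := fun w => by
    calc av (fun u => av fun v => A.lam3 u v w) ≤ av (fun u => P.eps * A.lam u w) :=
          av_mono fun u => A.av_lam3_13 u w
      _ = P.eps * av (fun u => A.lam u w) := av_mul_left _ _
      _ ≤ P.eps * P.eps ^ 2 := mul_le_mul_of_nonneg_left (A.av_lam' w) h0
      _ = P.eps ^ 3 := e3
  have huw : ∀ v, av (fun u => av fun w => A.lam3 u v w) ≤ P.eps ^ 3 := fun v => by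
    calc av (fun u => av fun w => A.lam3 u v w) ≤ av (fun u => P.eps * A.lam u v) :=
          av_mono fun u => A.av_lam3 u v
      _ = P.eps * av (fun u => A.lam u v) := av_mul_left _ _
      _ ≤ P.eps * P.eps ^ 2 := mul_le_mul_of_nonneg_left (A.av_lam' v) h0
      _ = P.eps ^ 3 := e3
  have hvw : ∀ u, av (fun v => av fun w => A.lam3 u v w) ≤ P.eps ^ 3 := fun u => by
    calc av (fun v => av fun w => A.lam3 u v w) ≤ av (fun v => P.eps * A.lam u v) :=
          av_mono fun v => A.av_lam3 u v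
      _ = P.eps * av (fun v => A.lam u v) := av_mul_left _ _
      _ ≤ P.eps * P.eps ^ 2 := mul_le_mul_of_nonneg_left (A.av_lam u) h0
      _ = P.eps ^ 3 := e3
  refine ⟨fun u v w => ?_, fun v w => ?_, fun u w => ?_, fun u v => ?_, fun w => ?_, fun v => ?_, fun u => ?_, ?_⟩
  · by_cases h1 : A.lam3 u v w < P.theta
    · rw [ind_pos h1, mul_one]
      exact h1.le
    · rw [ind_neg h1, mul_zero]
      exact P.theta_pos.le
  · exact ((av_mono fun u => hle u v w).trans (A.av_lam3_23 v w)).trans (e1 v w)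
  · exact ((av_mono fun v => hle u v w).trans (A.av_lam3_13 u w)).trans (e1 u w)
  · exact ((av_mono fun w => hle u v w).trans (A.av_lam3 u v)).trans (e1 u v)
  · exact (av_mono fun u => av_mono fun v => hle u v w).trans (huv w)
  · exact (av_mono fun u => av_mono fun w => hle u v w).trans (huw v)
  · exact (av_mono fun v => av_mono fun w => hle u v w).trans (hvw u)
  · exact (av_mono fun u => av_mono fun v => av_mono fun w => hle u v w).trans (av_le_const h3 hvw)

theorem nu_nonneg (w u v : V) : 0 ≤ A.nu w u v :=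
  av_nonneg fun _ => mul_nonneg (A.hh_nonneg _ _ _) (A.lam_nonneg _ _)

theorem mu_nonneg (u v w : V) : 0 ≤ A.mu u v w :=
  av_nonneg fun _ => mul_nonneg (A.hh_nonneg _ _ _) (A.hh_nonneg _ _ _)

theorem chi_nonneg (u v : V) : 0 ≤ A.chi u v :=
  av_nonneg fun _ => mul_nonneg (A.lam_nonneg _ _) (A.lam_nonneg _ _)

theorem nu_symm (w u v : V) : A.nu w u v = A.nu w v u := by
  unfold nu
  simp_rw [A.hh_symm12 u v]

theorem mu_symm (u v w : V) : A.mu u v w = A.mu u w v := by
  unfold mu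
  simp_rw [mul_comm]

theorem chi_symm (u v : V) : A.chi u v = A.chi v u := by
  unfold chi
  simp_rw [mul_comm]

/-- `nu(w;u,v)` -/
theorem cls_nu : Cls (fun u v w => A.nu w u v) (P.X (-19957) * P.eps) (P.X (-19957) * P.eps ^ 2)
    (P.X (-19957) * P.eps ^ 2) (P.X (-19957) * P.eps ^ 2) := by
  have h0 := P.eps_pos.le
  have h2 : 0 ≤ P.eps ^ 2 := sq_nonneg _
  have hq0 := (P.X_pos (-19957)).le
  have hb : 0 ≤ P.X (-19957) * P.eps ^ 2 := mul_nonneg hq0 h2
  have hw : ∀ u v, av (fun w => A.nu w u v) ≤ P.X (-19957) * P.eps ^ 2 := fun u v => by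
    unfold nu
    rw [av_comm]
    calc av (fun y => av fun w => A.hh u v y * A.lam w y)
        = av (fun y => A.hh u v y * av fun w => A.lam w y) := by simp_rw [av_mul_left]
      _ ≤ av (fun y => A.hh u v y * P.eps ^ 2) :=
          av_mono fun y => mul_le_mul_of_nonneg_left (A.av_lam' y) (A.hh_nonneg u v y)
      _ = av (fun y => A.hh u v y) * P.eps ^ 2 := av_mul_right _ _
      _ ≤ P.X (-19957) * P.eps ^ 2 := mul_le_mul_of_nonneg_right (A.av_hh u v) h2
  have hv : ∀ u w, av (fun v => A.nu w u v) ≤ P.X (-19957) * P.eps ^ 2 := fun u w => by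
    unfold nu
    rw [av_comm]
    calc av (fun y => av fun v => A.hh u v y * A.lam w y)
        = av (fun y => (av fun v => A.hh u v y) * A.lam w y) := by simp_rw [av_mul_right]
      _ ≤ av (fun y => P.X (-19957) * A.lam w y) :=
          av_mono fun y => mul_le_mul_of_nonneg_right (A.av_hh2 u y) (A.lam_nonneg w y)
      _ = P.X (-19957) * av (fun y => A.lam w y) := av_mul_left _ _
      _ ≤ P.X (-19957) * P.eps ^ 2 := mul_le_mul_of_nonneg_left (A.av_lam w) hq0
  have hu : ∀ v w, av (fun u => A.nu w u v) ≤ P.X (-19957) * P.eps ^ 2 := fun v w => by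
    simp_rw [A.nu_symm w _ v]
    exact hv v w
  refine ⟨fun u v w => ?_, hu, hv, hw, fun w => ?_, fun v => ?_, fun u => ?_, ?_⟩
  · unfold nu
    calc av (fun y => A.hh u v y * A.lam w y) ≤ av (fun y => A.hh u v y * P.eps) :=
          av_mono fun y => mul_le_mul_of_nonneg_left (A.lam_le w y) (A.hh_nonneg u v y)
      _ = av (fun y => A.hh u v y) * P.eps := av_mul_right _ _
      _ ≤ P.X (-19957) * P.eps := mul_le_mul_of_nonneg_right (A.av_hh u v) h0
  · exact av_le_const hb fun u => hv u w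
  · exact av_le_const hb fun u => hw u v
  · exact av_le_const hb fun v => hw u v
  · exact av_le_const hb fun u => av_le_const hb fun v => hw u v

/-- `mu(u;v,w)` -/
theorem cls_mu : Cls (fun u v w => A.mu u v w) (P.X (-19957)) (P.X (-19957)) (P.X (-19957) ^ 2)
    (P.X (-19957) ^ 2) := by
  have hq0 := (P.X_pos (-19957)).le
  have h2 : 0 ≤ P.X (-19957) ^ 2 := sq_nonneg _
  have hs : ∀ u v w, A.mu u v w ≤ P.X (-19957) := fun u v w =>
    (av_mono fun y => mul_le_of_le_one_right (A.hh_nonneg u v y) (A.hh_le_one u w y)).trans (A.av_hh u v)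
  have hw : ∀ u v, av (fun w => A.mu u v w) ≤ P.X (-19957) ^ 2 := fun u v => by
    unfold mu
    rw [av_comm]
    calc av (fun y => av fun w => A.hh u v y * A.hh u w y)
        = av (fun y => A.hh u v y * av fun w => A.hh u w y) := by simp_rw [av_mul_left]
      _ ≤ av (fun y => A.hh u v y * P.X (-19957)) :=
          av_mono fun y => mul_le_mul_of_nonneg_left (A.av_hh2 u y) (A.hh_nonneg u v y)
      _ = av (fun y => A.hh u v y) * P.X (-19957) := av_mul_right _ _
      _ ≤ P.X (-19957) * P.X (-19957) := mul_le_mul_of_nonneg_right (A.av_hh u v) hq0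
      _ = P.X (-19957) ^ 2 := by ring
  have hv : ∀ u w, av (fun v => A.mu u v w) ≤ P.X (-19957) ^ 2 := fun u w => by
    simp_rw [A.mu_symm u _ w]
    exact hw u w
  exact ⟨hs, fun v w => av_le_const hq0 fun u => hs u v w, fun u w => av_le_const hq0 fun v => hs u v w,
    fun u v => av_le_const hq0 fun w => hs u v w, fun w => av_le_const h2 fun u => hv u w,
    fun v => av_le_const h2 fun u => hw u v, fun u => av_le_const h2 fun v => hw u v,
    av_le_const h2 fun u => av_le_const h2 fun v => hw u v⟩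

/-- `chi(u,v)` as a function of three variables -/
theorem cls_chi : Cls (fun u v _ => A.chi u v) (P.eps ^ 3) (P.eps ^ 3) (P.eps ^ 4) (P.eps ^ 4) := by
  have h0 := P.eps_pos.le
  have h3 : 0 ≤ P.eps ^ 3 := pow_nonneg h0 3
  have h4 : 0 ≤ P.eps ^ 4 := pow_nonneg h0 4
  have hs : ∀ u v, A.chi u v ≤ P.eps ^ 3 := fun u v => by
    unfold chi
    calc av (fun y => A.lam u y * A.lam v y) ≤ av (fun y => A.lam u y * P.eps) :=
          av_mono fun y => mul_le_mul_of_nonneg_left (A.lam_le v y) (A.lam_nonneg u y)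
      _ = av (fun y => A.lam u y) * P.eps := av_mul_right _ _
      _ ≤ P.eps ^ 2 * P.eps := mul_le_mul_of_nonneg_right (A.av_lam u) h0
      _ = P.eps ^ 3 := by ring
  have hv : ∀ u, av (fun v => A.chi u v) ≤ P.eps ^ 4 := fun u => by
    unfold chi
    rw [av_comm]
    calc av (fun y => av fun v => A.lam u y * A.lam v y)
        = av (fun y => A.lam u y * av fun v => A.lam v y) := by simp_rw [av_mul_left]
      _ ≤ av (fun y => A.lam u y * P.eps ^ 2) :=
          av_mono fun y => mul_le_mul_of_nonneg_left (A.av_lam' y) (A.lam_nonneg u y)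
      _ = av (fun y => A.lam u y) * P.eps ^ 2 := av_mul_right _ _
      _ ≤ P.eps ^ 2 * P.eps ^ 2 := mul_le_mul_of_nonneg_right (A.av_lam u) (sq_nonneg _)
      _ = P.eps ^ 4 := by ring
  have hu : ∀ v, av (fun u => A.chi u v) ≤ P.eps ^ 4 := fun v => by
    simp_rw [A.chi_symm _ v]
    exact hv v
  refine ⟨fun u v _ => hs u v, fun v _ => av_le_const h3 fun u => hs u v, fun u _ => av_le_const h3 fun v => hs u v,
    fun u v => av_le_const h3 fun _ => hs u v, fun _ => av_le_const h4 hv, fun v => ?_, fun u => ?_, ?_⟩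
  · exact (av_mono fun u => av_le_const (A.chi_nonneg u v) fun _ => le_rfl).trans (hu v)
  · exact (av_mono fun v => av_le_const (A.chi_nonneg u v) fun _ => le_rfl).trans (hv u)
  · exact (av_mono fun u => av_mono fun v => av_le_const (A.chi_nonneg u v) fun _ => le_rfl).trans
      (av_le_const h4 hv)

/-! ### `Psi` -/

theorem Psi_nonneg (u v w : V) : 0 ≤ A.Psi u v w := by
  unfold Psi
  have h1 := A.lam_nonneg
  have h3 := A.lam3_nonneg u v w
  have hn := A.nu_nonneg
  have hm := A.mu_nonneg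
  have hc := A.chi_nonneg
  have hi := ind_nonneg (A.lam3 u v w < P.theta)
  have a1 := mul_nonneg (P.X_pos 10500).le (add_nonneg (add_nonneg (h1 u v) (h1 u w)) (h1 v w))
  have a2 := mul_nonneg (P.X_pos 20020).le (mul_nonneg h3 hi)
  have a3 := mul_nonneg (P.X_pos 30080).le (add_nonneg (add_nonneg (hn w u v) (hn v u w)) (hn u v w))
  have a4 := mul_nonneg (P.X_pos 10020).le (add_nonneg (add_nonneg (hm u v w) (hm v u w)) (hm w u v))
  have a5 := mul_nonneg (P.X_pos 50220).le (add_nonneg (add_nonneg (hc u v) (hc u w)) (hc v w))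
  have a0 := (P.X_pos (-18600)).le
  linarith

theorem Psi_symm12 (u v w : V) : A.Psi u v w = A.Psi v u w := by
  unfold Psi
  rw [A.lam_symm v u, A.lam3_symm12 v u w, A.nu_symm w v u, A.mu_symm w v u, A.chi_symm v u]
  ring

theorem Psi_symm23 (u v w : V) : A.Psi u v w = A.Psi u w v := by
  unfold Psi
  rw [A.lam_symm w v, A.lam3_symm23 u w v, A.nu_symm u w v, A.mu_symm u w v, A.chi_symm w v]
  ring

/-- class with bounds which are powers of `x`: the square is in the class `X -40, X -10040, ..` -/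
theorem sq_X {f : V → V → V → ℝ} {a a1 a2 a3 : ℤ} (F : Cls f (P.X a) (P.X a1) (P.X a2) (P.X a3))
    (h0 : ∀ u v w, 0 ≤ f u v w) (h : a + a ≤ -40) (h1 : a + a1 ≤ -10040) (h2 : a + a2 ≤ -20040)
    (h3 : a + a3 ≤ -30040) :
    Cls (fun u v w => f u v w ^ 2) (P.X (-40)) (P.X (-10040)) (P.X (-20040)) (P.X (-30040)) := by
  refine (F.sq h0 (P.X_pos _).le).mono ?_ ?_ ?_ ?_
  · rw [pow_two, P.X_mul]
    exact P.X_le h
  · rw [P.X_mul]
    exact P.X_le h1
  · rw [P.X_mul]
    exact P.X_le h2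
  · rw [P.X_mul]
    exact P.X_le h3

private theorem eX {k : ℤ} {c : ℝ} {a b : ℤ} (hc : c ≤ P.X a) (h : k + a ≤ b) : P.X k * c ≤ P.X b := by
  calc P.X k * c ≤ P.X k * P.X a := mul_le_mul_of_nonneg_left hc (P.X_pos k).le
    _ = P.X (k + a) := P.X_mul _ _
    _ ≤ P.X b := P.X_le h

theorem sq_lam : Cls (fun u v _ => (P.X 10500 * A.lam u v) ^ 2) (P.X (-40)) (P.X (-10040)) (P.X (-20040))
    (P.X (-30040)) := by
  refine sq_X (a := -9499) (a1 := -9499) (a2 := -29498) (a3 := -29498)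
    ((A.cls_lam.smul (P.X_pos 10500).le).mono (eX P.eps_le (by norm_num)) (eX P.eps_le (by norm_num))
      (eX P.eps2_le (by norm_num)) (eX P.eps2_le (by norm_num)))
    (fun u v w => mul_nonneg (P.X_pos _).le (A.lam_nonneg _ _)) (by norm_num) (by norm_num) (by norm_num) (by norm_num)

theorem sq_lam3 : Cls (fun u v w => (P.X 20020 * (A.lam3 u v w * ind (A.lam3 u v w < P.theta))) ^ 2) (P.X (-40))
    (P.X (-10040)) (P.X (-20040)) (P.X (-30040)) := by
  refine sq_X (a := -20) (a1 := -19978) (a2 := -39977) (a3 := -39977)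
    ((A.cls_lam3.smul (P.X_pos 20020).le).mono (eX (le_refl (P.X (-20040))) (by norm_num))
      (eX P.eps2_le (by norm_num)) (eX P.eps3_le (by norm_num)) (eX P.eps3_le (by norm_num)))
    (fun u v w => mul_nonneg (P.X_pos _).le (mul_nonneg (A.lam3_nonneg _ _ _) (ind_nonneg _)))
    (by norm_num) (by norm_num) (by norm_num) (by norm_num)

theorem sq_nu : Cls (fun u v w => (P.X 30080 * A.nu w u v) ^ 2) (P.X (-40)) (P.X (-10040)) (P.X (-20040))
    (P.X (-30040)) := by
  have e1 : P.X (-19957) * P.eps ≤ P.X (-39956) := eX P.eps_le (by norm_num)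
  have e2 : P.X (-19957) * P.eps ^ 2 ≤ P.X (-59955) := eX P.eps2_le (by norm_num)
  refine sq_X (a := -9876) (a1 := -29875) (a2 := -29875) (a3 := -29875)
    ((A.cls_nu.smul (P.X_pos 30080).le).mono (eX e1 (by norm_num)) (eX e2 (by norm_num)) (eX e2 (by norm_num))
      (eX e2 (by norm_num)))
    (fun u v w => mul_nonneg (P.X_pos _).le (A.nu_nonneg _ _ _)) (by norm_num) (by norm_num) (by norm_num)
    (by norm_num)

theorem sq_mu : Cls (fun u v w => (P.X 10020 * A.mu u v w) ^ 2) (P.X (-40)) (P.X (-10040)) (P.X (-20040))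
    (P.X (-30040)) := by
  have e2 : P.X (-19957) ^ 2 ≤ P.X (-39914) := by rw [P.X_pow]; exact P.X_le (by norm_num)
  refine sq_X (a := -9937) (a1 := -9937) (a2 := -29894) (a3 := -29894)
    ((A.cls_mu.smul (P.X_pos 10020).le).mono (eX (le_refl (P.X (-19957))) (by norm_num))
      (eX (le_refl (P.X (-19957))) (by norm_num)) (eX e2 (by norm_num)) (eX e2 (by norm_num)))
    (fun u v w => mul_nonneg (P.X_pos _).le (A.mu_nonneg _ _ _)) (by norm_num) (by norm_num) (by norm_num)
    (by norm_num)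

theorem sq_chi : Cls (fun u v _ => (P.X 50220 * A.chi u v) ^ 2) (P.X (-40)) (P.X (-10040)) (P.X (-20040))
    (P.X (-30040)) := by
  refine sq_X (a := -9777) (a1 := -9777) (a2 := -29776) (a3 := -29776)
    ((A.cls_chi.smul (P.X_pos 50220).le).mono (eX P.eps3_le (by norm_num)) (eX P.eps3_le (by norm_num))
      (eX P.eps4_le (by norm_num)) (eX P.eps4_le (by norm_num)))
    (fun u v w => mul_nonneg (P.X_pos _).le (A.chi_nonneg _ _)) (by norm_num) (by norm_num) (by norm_num)
    (by norm_num)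

theorem sq_cst : Cls (fun _ _ _ : V => P.X (-18600) ^ 2) (P.X (-40)) (P.X (-10040)) (P.X (-20040))
    (P.X (-30040)) :=
  sq_X (a := -18600) (a1 := -18600) (a2 := -18600) (a3 := -18600) (Cls.const (P.X_pos _).le)
    (fun _ _ _ => (P.X_pos _).le) (by norm_num) (by norm_num) (by norm_num) (by norm_num)

/-- **the class of `Psi ^ 2`** -/
theorem Psi_sq : Cls (fun u v w => A.Psi u v w ^ 2) (P.X (-39)) (P.X (-10039)) (P.X (-20039)) (P.X (-30039)) := by
  have l1 := A.sq_lam
  have l2 : Cls (fun u v w => (P.X 10500 * A.lam u w) ^ 2) _ _ _ _ := l1.swap23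
  have l3 : Cls (fun u v w => (P.X 10500 * A.lam v w) ^ 2) _ _ _ _ := l2.swap12
  have n1 := A.sq_nu
  have n2 : Cls (fun u v w => (P.X 30080 * A.nu v u w) ^ 2) _ _ _ _ := n1.swap23
  have n3 : Cls (fun u v w => (P.X 30080 * A.nu u v w) ^ 2) _ _ _ _ := n2.swap12
  have m1 := A.sq_mu
  have m2 : Cls (fun u v w => (P.X 10020 * A.mu v u w) ^ 2) _ _ _ _ := m1.swap12
  have m3 : Cls (fun u v w => (P.X 10020 * A.mu w u v) ^ 2) _ _ _ _ := m2.swap23
  have c1 := A.sq_chi
  have c2 : Cls (fun u v w => (P.X 50220 * A.chi u w) ^ 2) _ _ _ _ := c1.swap23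
  have c3 : Cls (fun u v w => (P.X 50220 * A.chi v w) ^ 2) _ _ _ _ := c2.swap12
  have hS := ((((((((((((((sq_cst (P := P) (V := V)).add l1).add l2).add l3).add A.sq_lam3).add n1).add n2).add n3).add
    m1).add m2).add m3).add c1).add c2).add c3).smul (c := 14) (by norm_num)
  have h196 : (196 : ℝ) ≤ P.x := by
    have := P.two_pow_le (k := 8) (by norm_num)
    norm_num at this
    linarith
  refine (hS.le fun u v w => ?_).mono ?_ ?_ ?_ ?_
  · unfold Psi
    have hc := sq_sum_le_card_mul_sum_sq (s := (univ : Finset (Fin 14)))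
      (f := ![P.X (-18600), P.X 10500 * A.lam u v, P.X 10500 * A.lam u w, P.X 10500 * A.lam v w,
        P.X 20020 * (A.lam3 u v w * ind (A.lam3 u v w < P.theta)), P.X 30080 * A.nu w u v, P.X 30080 * A.nu v u w,
        P.X 30080 * A.nu u v w, P.X 10020 * A.mu u v w, P.X 10020 * A.mu v u w, P.X 10020 * A.mu w u v,
        P.X 50220 * A.chi u v, P.X 50220 * A.chi u w, P.X 50220 * A.chi v w])
    simp only [Fin.sum_univ_succ, card_univ, Fintype.card_fin, Finset.univ_eq_empty, Finset.sum_empty,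
      Matrix.cons_val_zero, Matrix.cons_val_succ] at hc
    refine le_trans (le_of_eq ?_) (hc.trans (le_of_eq ?_))
    · ring
    · push_cast
      ring
  · calc _ = 196 * P.X (-40) := by ring
      _ ≤ _ := P.mul_X_le h196 (by norm_num)
  · calc _ = 196 * P.X (-10040) := by ring
      _ ≤ _ := P.mul_X_le h196 (by norm_num)
  · calc _ = 196 * P.X (-20040) := by ring
      _ ≤ _ := P.mul_X_le h196 (by norm_num)
  · calc _ = 196 * P.X (-30040) := by ring
      _ ≤ _ := P.mul_X_le h196 (by norm_num)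

/-- the sums of `Psi ^ 2`, in the form of the moment principle -/
theorem Psi_sq_sums :
    (∀ a b c, A.Psi a b c ^ 2 ≤ P.X (-39)) ∧
    (∀ a b, ∑ c, A.Psi a b c ^ 2 ≤ Fintype.card V * P.X (-10039)) ∧
    (∀ a c, ∑ b, A.Psi a b c ^ 2 ≤ Fintype.card V * P.X (-10039)) ∧
    (∀ b c, ∑ a, A.Psi a b c ^ 2 ≤ Fintype.card V * P.X (-10039)) ∧
    (∀ a, ∑ b, ∑ c, A.Psi a b c ^ 2 ≤ (Fintype.card V : ℝ) ^ 2 * P.X (-20039)) ∧
    (∀ b, ∑ a, ∑ c, A.Psi a b c ^ 2 ≤ (Fintype.card V : ℝ) ^ 2 * P.X (-20039)) ∧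
    (∀ c, ∑ a, ∑ b, A.Psi a b c ^ 2 ≤ (Fintype.card V : ℝ) ^ 2 * P.X (-20039)) ∧
    (∑ a, ∑ b, ∑ c, A.Psi a b c ^ 2 ≤ (Fintype.card V : ℝ) ^ 3 * P.X (-30039)) := by
  have := A.nonempty
  have Q := A.Psi_sq
  have e2 : ∀ f : V → V → ℝ, ∀ c : ℝ, av (fun x => av fun y => f x y) ≤ c →
      ∑ x, ∑ y, f x y ≤ (Fintype.card V : ℝ) ^ 2 * c := by
    intro f c hf
    have h1 : ∑ x, ∑ y, f x y = Fintype.card V * (Fintype.card V * av (fun x => av fun y => f x y)) := by
      simp_rw [sum_eq_card_mul_av]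
      rw [av_mul_left]
    rw [h1, pow_two, mul_assoc]
    exact mul_le_mul_of_nonneg_left (mul_le_mul_of_nonneg_left hf (Nat.cast_nonneg _)) (Nat.cast_nonneg _)
  refine ⟨Q.s, fun a b => sum_le_of_av (Q.w1 a b), fun a c => sum_le_of_av (Q.v1 a c),
    fun b c => sum_le_of_av (Q.u1 b c), fun a => e2 _ _ (Q.vw a), fun b => e2 _ _ (Q.uw b),
    fun c => e2 _ _ (Q.uv c), ?_⟩
  have h1 : ∑ a, ∑ b, ∑ c, A.Psi a b c ^ 2 =
      (Fintype.card V : ℝ) ^ 3 * av (fun a => av fun b => av fun c => A.Psi a b c ^ 2) := by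
    simp_rw [sum_eq_card_mul_av, av_mul_left]
    ring
  rw [h1]
  exact mul_le_mul_of_nonneg_left Q.t (by positivity)

end Amb

end MP5cA
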