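import Mathlib

/-!
# MP_5c685b_co, route A': traces of even powers of real symmetric matrices

* `tr_step` : the one-step inequality for `tr M ^ q`, `q` even.
* `form_le_of_tr` : the bilinear form of `A` is bounded by the `q`-th root of `tr A ^ q`.
-/

open Finset Matrix

set_option linter.unusedSectionVars false

namespace MP5c.Tr

variable {V : Type*} [Fintype V] [DecidableEq V]

/-- Euclidean norm of a function on a finite set. -/
noncomputable def nrm (x : V → ℝ) : ℝ := Real.sqrt (∑ v, x v ^ 2)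

/-- The bilinear form of the matrix `A` is bounded by `l`. -/
def Form (A : Matrix V V ℝ) (l : ℝ) : Prop := ∀ x y : V → ℝ, |x ⬝ᵥ A *ᵥ y| ≤ l * nrm x * nrm y

lemma nrm_nonneg (x : V → ℝ) : 0 ≤ nrm x := Real.sqrt_nonneg _

lemma nrm_sq (x : V → ℝ) : nrm x ^ 2 = ∑ v, x v ^ 2 :=
  Real.sq_sqrt (Finset.sum_nonneg fun _ _ => sq_nonneg _)

/-- Orthogonal diagonalisation. -/
lemma exists_diag {A : Matrix V V ℝ} (hA : Aᵀ = A) :
    ∃ (U : Matrix V V ℝ) (a : V → ℝ), Uᵀ * U = 1 ∧ U * Uᵀ = 1 ∧ A = U * diagonal a * Uᵀ := by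
  have hH : A.IsHermitian := by
    rw [Matrix.IsHermitian, conjTranspose_eq_transpose_of_trivial]
    exact hA
  have h1 : (hH.eigenvectorUnitary : Matrix V V ℝ)ᵀ * (hH.eigenvectorUnitary : Matrix V V ℝ)
      = 1 := by
    have := Unitary.coe_star_mul_self hH.eigenvectorUnitary
    rwa [star_eq_conjTranspose, conjTranspose_eq_transpose_of_trivial] at this
  refine ⟨(hH.eigenvectorUnitary : Matrix V V ℝ), hH.eigenvalues, h1, mul_eq_one_comm.1 h1, ?_⟩
  · have := hH.spectral_theorem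
    rw [Unitary.conjStarAlgAut_apply, star_eq_conjTranspose,
      conjTranspose_eq_transpose_of_trivial] at this
    exact this

lemma pow_diag {U : Matrix V V ℝ} {a : V → ℝ} (h1 : Uᵀ * U = 1) (h2 : U * Uᵀ = 1) (k : ℕ) :
    (U * diagonal a * Uᵀ) ^ k = U * diagonal (fun v => a v ^ k) * Uᵀ := by
  induction k with
  | zero => simp [h2]
  | succ k ih =>
    rw [pow_succ, ih]
    calc U * diagonal (fun v => a v ^ k) * Uᵀ * (U * diagonal a * Uᵀ)
        = U * diagonal (fun v => a v ^ k) * (Uᵀ * U) * diagonal a * Uᵀ := by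
          simp only [Matrix.mul_assoc]
      _ = U * (diagonal (fun v => a v ^ k) * diagonal a) * Uᵀ := by
          rw [h1, Matrix.mul_one, Matrix.mul_assoc U]
      _ = _ := by
          rw [diagonal_mul_diagonal]
          simp only [pow_succ]

lemma tr_pow_diag {U : Matrix V V ℝ} {a : V → ℝ} (h1 : Uᵀ * U = 1) (h2 : U * Uᵀ = 1) (k : ℕ) :
    ((U * diagonal a * Uᵀ) ^ k).trace = ∑ v, a v ^ k := by
  rw [pow_diag h1 h2, Matrix.trace_mul_comm, ← Matrix.mul_assoc, h1, Matrix.one_mul,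
    Matrix.trace_diagonal]

/-- The overlaps of two orthonormal bases. -/
lemma orth_row {O : Matrix V V ℝ} (h : O * Oᵀ = 1) (b : V) : ∑ a, O b a ^ 2 = 1 := by
  have := congrFun (congrFun h b) b
  rw [Matrix.mul_apply, Matrix.one_apply_eq] at this
  rw [← this]
  refine Finset.sum_congr rfl fun a _ => ?_
  rw [Matrix.transpose_apply, sq]

lemma orth_col {O : Matrix V V ℝ} (h : Oᵀ * O = 1) (a : V) : ∑ b, O b a ^ 2 = 1 := by
  have := congrFun (congrFun h a) a
  rw [Matrix.mul_apply, Matrix.one_apply_eq] at this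
  rw [← this]
  refine Finset.sum_congr rfl fun b _ => ?_
  rw [Matrix.transpose_apply, sq]

/-- trace of `diag μ · ℓ · diag λ · ℓᵀ`. -/
lemma tr_four (μ lam : V → ℝ) (l : Matrix V V ℝ) :
    (diagonal μ * l * diagonal lam * lᵀ).trace = ∑ b, ∑ a, μ b * lam a * l b a ^ 2 := by
  unfold Matrix.trace
  refine Finset.sum_congr rfl fun b _ => ?_
  rw [Matrix.diag_apply, Matrix.mul_apply]
  refine Finset.sum_congr rfl fun a _ => ?_
  rw [Matrix.mul_diagonal, Matrix.diagonal_mul, Matrix.transpose_apply]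
  ring

/-- Bernoulli's inequality for even powers, homogeneous form. -/
lemma bern {q : ℕ} (hq : Even q) (x y : ℝ) : y ^ q + q * y ^ (q - 1) * (x - y) ≤ x ^ q := by
  rcases Nat.eq_zero_or_pos q with h0 | h0
  · subst h0
    simp
  rcases eq_or_ne y 0 with hy | hy
  · subst hy
    rcases Nat.eq_or_lt_of_le (Nat.one_le_iff_ne_zero.2 h0.ne') with h1 | h1
    · exact absurd (h1 ▸ hq) (by decide)
    · rw [zero_pow (by omega), zero_pow (by omega)]
      simpa using hq.pow_nonneg x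
  · have hy' : 0 < y ^ q := hq.pow_pos hy
    set t := x / y with ht
    have hx : x = t * y := by rw [ht]; field_simp
    have key : 1 + q * (t - 1) ≤ t ^ q := by
      rcases le_or_gt (-2) (t - 1) with h | h
      · have := one_add_mul_le_pow h q
        simpa using this
      · have h1 : (1 : ℝ) ≤ t ^ q := by
          rw [← hq.pow_abs]
          refine one_le_pow₀ ?_
          rw [abs_of_neg (by linarith)]
          linarith
        have h2 : (q : ℝ) * (t - 1) ≤ 0 := by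
          refine mul_nonpos_of_nonneg_of_nonpos (Nat.cast_nonneg _) (by linarith)
        linarith
    have e1 : y ^ q = y ^ (q - 1) * y := by
      rw [← pow_succ]
      congr 1
      omega
    calc y ^ q + q * y ^ (q - 1) * (x - y)
        = y ^ q * (1 + q * (t - 1)) := by
          rw [hx, e1]
          ring
      _ ≤ y ^ q * t ^ q := by gcongr
      _ = x ^ q := by rw [hx, mul_pow]; ring

/-- **Klein's inequality** for even powers. -/
theorem klein {A B : Matrix V V ℝ} (hA : Aᵀ = A) (hB : Bᵀ = B) {q : ℕ} (hq : Even q) (hq0 : q ≠ 0) :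
    (B ^ q).trace ≤ (A ^ q).trace + q * (B ^ (q - 1) * (B - A)).trace := by
  obtain ⟨U, a, hU1, hU2, rfl⟩ := exists_diag hA
  obtain ⟨W, b, hW1, hW2, rfl⟩ := exists_diag hB
  set O : Matrix V V ℝ := Wᵀ * U with hO
  have hO1 : O * Oᵀ = 1 := by
    rw [hO, Matrix.transpose_mul, Matrix.transpose_transpose]
    calc Wᵀ * U * (Uᵀ * W) = Wᵀ * (U * Uᵀ) * W := by simp only [Matrix.mul_assoc]
      _ = 1 := by rw [hU2, Matrix.mul_one, hW1]
  have hO2 : Oᵀ * O = 1 := by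
    rw [hO, Matrix.transpose_mul, Matrix.transpose_transpose]
    calc Uᵀ * W * (Wᵀ * U) = Uᵀ * (W * Wᵀ) * U := by simp only [Matrix.mul_assoc]
      _ = 1 := by rw [hW2, Matrix.mul_one, hU1]
  have e1 : ((U * diagonal a * Uᵀ) ^ q).trace = ∑ i, ∑ j, a j ^ q * O i j ^ 2 := by
    rw [tr_pow_diag hU1 hU2, Finset.sum_comm]
    refine Finset.sum_congr rfl fun j _ => ?_
    rw [← Finset.mul_sum, orth_col hO2, mul_one]
  have e2 : ((W * diagonal b * Wᵀ) ^ q).trace = ∑ i, ∑ j, b i ^ q * O i j ^ 2 := by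
    rw [tr_pow_diag hW1 hW2]
    refine Finset.sum_congr rfl fun j _ => ?_
    rw [← Finset.mul_sum, orth_row hO1, mul_one]
  have e3 : ((W * diagonal b * Wᵀ) ^ (q - 1) * (U * diagonal a * Uᵀ)).trace
      = ∑ i, ∑ j, b i ^ (q - 1) * a j * O i j ^ 2 := by
    rw [← tr_four, pow_diag hW1 hW2, hO, Matrix.transpose_mul, Matrix.transpose_transpose]
    rw [show W * diagonal (fun v => b v ^ (q - 1)) * Wᵀ * (U * diagonal a * Uᵀ)
      = W * (diagonal (fun v => b v ^ (q - 1)) * Wᵀ * (U * diagonal a * Uᵀ)) by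
        simp only [Matrix.mul_assoc]]
    rw [Matrix.trace_mul_comm]
    congr 1
    simp only [Matrix.mul_assoc]
  have e4 : ((W * diagonal b * Wᵀ) ^ (q - 1) * (W * diagonal b * Wᵀ)).trace
      = ∑ i, ∑ j, b i ^ q * O i j ^ 2 := by
    rw [← pow_succ, Nat.sub_add_cancel (Nat.one_le_iff_ne_zero.2 hq0), e2]
  rw [Matrix.mul_sub, Matrix.trace_sub, e4, e3, e1, e2]
  rw [← sub_nonneg]
  have : (∑ i, ∑ j, a j ^ q * O i j ^ 2 + q * (∑ i, ∑ j, b i ^ q * O i j ^ 2
      - ∑ i, ∑ j, b i ^ (q - 1) * a j * O i j ^ 2)) - ∑ i, ∑ j, b i ^ q * O i j ^ 2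
      = ∑ i, ∑ j, (a j ^ q - (b i ^ q + q * b i ^ (q - 1) * (a j - b i))) * O i j ^ 2 := by
    simp only [Finset.mul_sum, ← Finset.sum_sub_distrib, ← Finset.sum_add_distrib]
    refine Finset.sum_congr rfl fun i _ => Finset.sum_congr rfl fun j _ => ?_
    have e1 : b i ^ q = b i ^ (q - 1) * b i := by
      rw [← pow_succ, Nat.sub_add_cancel (Nat.one_le_iff_ne_zero.2 hq0)]
    rw [e1]
    ring
  rw [this]
  refine Finset.sum_nonneg fun i _ => Finset.sum_nonneg fun j _ => mul_nonneg ?_ (sq_nonneg _)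
  rw [sub_nonneg]
  exact bern hq _ _

lemma abs_pow_le {m j k : ℕ} (hm : j + k = m) (x y : ℝ) :
    |x| ^ j * |y| ^ k ≤ |x| ^ m + |y| ^ m := by
  have hx := abs_nonneg x
  have hy := abs_nonneg y
  rcases le_total |x| |y| with h | h
  · calc |x| ^ j * |y| ^ k ≤ |y| ^ j * |y| ^ k := by gcongr
      _ = |y| ^ m := by rw [← pow_add, hm]
      _ ≤ _ := le_add_of_nonneg_left (by positivity)
  · calc |x| ^ j * |y| ^ k ≤ |x| ^ j * |x| ^ k := by gcongr
      _ = |x| ^ m := by rw [← pow_add, hm]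
      _ ≤ _ := le_add_of_nonneg_right (by positivity)

/-- `|tr (B^j L A^k L)| ≤ tr (B^m L²) + tr (A^m L²)`, `m = j + k` even. -/
theorem tr_two {A B L : Matrix V V ℝ} (hA : Aᵀ = A) (hB : Bᵀ = B) (hL : Lᵀ = L) {m j k : ℕ}
    (hm : j + k = m) (he : Even m) :
    |(B ^ j * L * A ^ k * L).trace| ≤ (B ^ m * (L * L)).trace + (A ^ m * (L * L)).trace := by
  obtain ⟨U, a, hU1, hU2, rfl⟩ := exists_diag hA
  obtain ⟨W, b, hW1, hW2, rfl⟩ := exists_diag hB
  set l : Matrix V V ℝ := Wᵀ * L * U with hl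
  have hlT : lᵀ = Uᵀ * L * W := by
    rw [hl, Matrix.transpose_mul, Matrix.transpose_mul, Matrix.transpose_transpose, hL,
      Matrix.mul_assoc]
  have e1 : ((W * diagonal b * Wᵀ) ^ j * L * (U * diagonal a * Uᵀ) ^ k * L).trace
      = ∑ i, ∑ v, b i ^ j * a v ^ k * l i v ^ 2 := by
    rw [← tr_four, pow_diag hW1 hW2, pow_diag hU1 hU2, hlT, hl]
    rw [show W * diagonal (fun v => b v ^ j) * Wᵀ * L * (U * diagonal (fun v => a v ^ k) * Uᵀ) * L
      = W * (diagonal (fun v => b v ^ j) * Wᵀ * L * (U * diagonal (fun v => a v ^ k) * Uᵀ) * L) by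
        simp only [Matrix.mul_assoc]]
    rw [Matrix.trace_mul_comm]
    congr 1
    simp only [Matrix.mul_assoc]
  have e2 : ((W * diagonal b * Wᵀ) ^ m * (L * L)).trace
      = ∑ i, ∑ v, b i ^ m * l i v ^ 2 := by
    have : ∑ i, ∑ v, b i ^ m * l i v ^ 2 = ∑ i, ∑ v, b i ^ m * (1 : ℝ) * l i v ^ 2 := by simp
    rw [this, ← tr_four (fun i => b i ^ m) (fun _ => 1), pow_diag hW1 hW2, hlT, hl]
    have hd : (diagonal fun _ : V => (1 : ℝ)) = 1 := diagonal_one
    rw [hd, Matrix.mul_one]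
    rw [show diagonal (fun i => b i ^ m) * (Wᵀ * L * U) * (Uᵀ * L * W)
      = diagonal (fun i => b i ^ m) * Wᵀ * L * (U * Uᵀ) * L * W by simp only [Matrix.mul_assoc],
      hU2, Matrix.mul_one,
      Matrix.trace_mul_comm (diagonal (fun i => b i ^ m) * Wᵀ * L * L) W]
    congr 1
    simp only [Matrix.mul_assoc]
  have e3 : ((U * diagonal a * Uᵀ) ^ m * (L * L)).trace
      = ∑ i, ∑ v, a v ^ m * l i v ^ 2 := by
    have : ∑ i, ∑ v, a v ^ m * l i v ^ 2 = ∑ i, ∑ v, (1 : ℝ) * a v ^ m * l i v ^ 2 := by simp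
    rw [this, ← tr_four (fun _ => 1) (fun v => a v ^ m), pow_diag hU1 hU2, hlT, hl]
    have hd : (diagonal fun _ : V => (1 : ℝ)) = 1 := diagonal_one
    rw [hd, Matrix.one_mul]
    rw [show Wᵀ * L * U * diagonal (fun v => a v ^ m) * (Uᵀ * L * W)
      = Wᵀ * (L * U * diagonal (fun v => a v ^ m) * Uᵀ * L * W) by simp only [Matrix.mul_assoc],
      Matrix.trace_mul_comm Wᵀ]
    rw [show L * U * diagonal (fun v => a v ^ m) * Uᵀ * L * W * Wᵀ
      = L * (U * diagonal (fun v => a v ^ m) * Uᵀ * L * (W * Wᵀ)) by simp only [Matrix.mul_assoc],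
      hW2, Matrix.mul_one, Matrix.trace_mul_comm L]
    congr 1
    simp only [Matrix.mul_assoc]
  rw [e1, e2, e3, ← Finset.sum_add_distrib]
  refine (Finset.abs_sum_le_sum_abs _ _).trans (Finset.sum_le_sum fun i _ => ?_)
  rw [← Finset.sum_add_distrib]
  refine (Finset.abs_sum_le_sum_abs _ _).trans (Finset.sum_le_sum fun v _ => ?_)
  rw [abs_mul, abs_mul, abs_pow, abs_pow, abs_of_nonneg (sq_nonneg (l i v)), ← add_mul]
  refine mul_le_mul_of_nonneg_right ?_ (sq_nonneg _)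
  have := abs_pow_le hm (b i) (a v)
  rwa [he.pow_abs, he.pow_abs] at this

/-- the noncommutative telescope -/
lemma pow_sub_pow (A B : Matrix V V ℝ) (m : ℕ) :
    B ^ (m + 1) - A ^ (m + 1) = ∑ j ∈ Finset.range (m + 1), B ^ j * (B - A) * A ^ (m - j) := by
  induction m with
  | zero => simp
  | succ m ih =>
    rw [Finset.sum_range_succ]
    have e : ∑ j ∈ Finset.range (m + 1), B ^ j * (B - A) * A ^ (m + 1 - j)
        = (∑ j ∈ Finset.range (m + 1), B ^ j * (B - A) * A ^ (m - j)) * A := by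
      rw [Finset.sum_mul]
      refine Finset.sum_congr rfl fun j hj => ?_
      rw [Finset.mem_range] at hj
      rw [Nat.sub_add_comm (by omega : j ≤ m), pow_succ]
      simp only [Matrix.mul_assoc]
    rw [e, ← ih, Nat.sub_self, pow_zero, Matrix.mul_one, pow_succ B (m + 1), pow_succ A (m + 1)]
    noncomm_ring

lemma form_mulVec {A : Matrix V V ℝ} {l : ℝ} (hl : 0 ≤ l) (h : Form A l) (x : V → ℝ) :
    nrm (A *ᵥ x) ≤ l * nrm x := by
  have h1 := h (A *ᵥ x) x
  have h2 : (A *ᵥ x) ⬝ᵥ A *ᵥ x = nrm (A *ᵥ x) ^ 2 := by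
    rw [nrm_sq, dotProduct]
    exact Finset.sum_congr rfl fun v _ => (sq _).symm
  rw [h2, abs_of_nonneg (sq_nonneg _)] at h1
  rcases (nrm_nonneg (A *ᵥ x)).eq_or_lt with h0 | h0
  · rw [← h0]
    exact mul_nonneg hl (nrm_nonneg x)
  · have : nrm (A *ᵥ x) * nrm (A *ᵥ x) ≤ nrm (A *ᵥ x) * (l * nrm x) := by
      calc _ = nrm (A *ᵥ x) ^ 2 := by ring
        _ ≤ l * nrm (A *ᵥ x) * nrm x := h1
        _ = _ := by ring
    exact le_of_mul_le_mul_left this h0

lemma form_of_mulVec {A : Matrix V V ℝ} {l : ℝ} (h : ∀ x, nrm (A *ᵥ x) ≤ l * nrm x) :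
    Form A l := by
  intro x y
  have h1 : |x ⬝ᵥ A *ᵥ y| ≤ nrm x * nrm (A *ᵥ y) := by
    have h2 := Finset.sum_mul_sq_le_sq_mul_sq Finset.univ x (A *ᵥ y)
    rw [nrm, nrm, ← Real.sqrt_mul (Finset.sum_nonneg fun _ _ => sq_nonneg _)]
    exact Real.abs_le_sqrt h2
  calc |x ⬝ᵥ A *ᵥ y| ≤ nrm x * nrm (A *ᵥ y) := h1
    _ ≤ nrm x * (l * nrm y) := by gcongr; exact nrm_nonneg x; exact h y
    _ = _ := by ring

/-- `tr (B^m L²) ≤ l² tr B^m`. -/
theorem tr_sq_le {B L : Matrix V V ℝ} (hB : Bᵀ = B) (hL : Lᵀ = L) {l : ℝ} (hl : 0 ≤ l)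
    (h : Form L l) {m : ℕ} (he : Even m) :
    (B ^ m * (L * L)).trace ≤ l ^ 2 * (B ^ m).trace := by
  obtain ⟨W, b, hW1, hW2, rfl⟩ := exists_diag hB
  have e1 : ((W * diagonal b * Wᵀ) ^ m * (L * L)).trace
      = ∑ i, b i ^ m * (∑ v, (L * W) v i ^ 2) := by
    rw [pow_diag hW1 hW2]
    rw [show W * diagonal (fun v => b v ^ m) * Wᵀ * (L * L)
      = W * (diagonal (fun v => b v ^ m) * Wᵀ * (L * L)) by simp only [Matrix.mul_assoc],
      Matrix.trace_mul_comm]
    rw [show diagonal (fun v => b v ^ m) * Wᵀ * (L * L) * W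
      = diagonal (fun v => b v ^ m) * ((L * W)ᵀ * (L * W)) by
        rw [Matrix.transpose_mul, hL]
        simp only [Matrix.mul_assoc]]
    unfold Matrix.trace
    refine Finset.sum_congr rfl fun i _ => ?_
    rw [Matrix.diag_apply, Matrix.diagonal_mul, Matrix.mul_apply]
    congr 1
    refine Finset.sum_congr rfl fun v _ => ?_
    rw [Matrix.transpose_apply, sq]
  rw [e1, tr_pow_diag hW1 hW2, Finset.mul_sum]
  refine Finset.sum_le_sum fun i _ => ?_
  have h1 : ∑ v, (L * W) v i ^ 2 = nrm (L *ᵥ fun v => W v i) ^ 2 := by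
    rw [nrm_sq]
    refine Finset.sum_congr rfl fun v _ => ?_
    rw [Matrix.mul_apply]
    rfl
  have h2 : nrm (fun v => W v i) ^ 2 = 1 := by
    rw [nrm_sq]
    exact orth_col hW1 i
  have h3 := form_mulVec hl h (fun v => W v i)
  have h4 : nrm (L *ᵥ fun v => W v i) ^ 2 ≤ l ^ 2 := by
    calc _ ≤ (l * nrm (fun v => W v i)) ^ 2 := by gcongr; exact nrm_nonneg _
      _ = l ^ 2 := by rw [mul_pow, h2, mul_one]
  rw [h1, mul_comm]
  exact mul_le_mul_of_nonneg_right h4 (he.pow_nonneg _)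

/-- **One-step inequality.** -/
theorem tr_step {A B : Matrix V V ℝ} (hA : Aᵀ = A) (hB : Bᵀ = B) {l : ℝ} (hl : 0 ≤ l)
    (h : Form (B - A) l) {m : ℕ} (he : Even m) :
    (B ^ (m + 2)).trace ≤ (A ^ (m + 2)).trace + (m + 2) * (A ^ (m + 1) * (B - A)).trace
      + (m + 2) * (m + 1) * l ^ 2 * ((A ^ m).trace + (B ^ m).trace) := by
  have hL : (B - A)ᵀ = B - A := by rw [Matrix.transpose_sub, hA, hB]
  have hk := klein hA hB (q := m + 2) (by simpa [parity_simps] using he) (by omega)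
  have e0 : m + 2 - 1 = m + 1 := by omega
  rw [e0] at hk
  have e1 : (B ^ (m + 1) * (B - A)).trace = (A ^ (m + 1) * (B - A)).trace
      + ∑ j ∈ Finset.range (m + 1), (B ^ j * (B - A) * A ^ (m - j) * (B - A)).trace := by
    rw [← Matrix.trace_sum, ← Finset.sum_mul, ← pow_sub_pow, Matrix.sub_mul, Matrix.trace_sub]
    ring
  have e2 : ∑ j ∈ Finset.range (m + 1), (B ^ j * (B - A) * A ^ (m - j) * (B - A)).trace
      ≤ ∑ j ∈ Finset.range (m + 1), l ^ 2 * ((A ^ m).trace + (B ^ m).trace) := by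
    refine Finset.sum_le_sum fun j hj => ?_
    rw [Finset.mem_range] at hj
    have h1 := tr_two hA hB hL (m := m) (j := j) (k := m - j) (by omega) he
    have h2 := tr_sq_le hB hL hl h he
    have h3 := tr_sq_le hA hL hl h he
    calc _ ≤ _ := le_abs_self _
      _ ≤ _ := h1
      _ ≤ l ^ 2 * (B ^ m).trace + l ^ 2 * (A ^ m).trace := by gcongr
      _ = _ := by ring
  rw [Finset.sum_const, Finset.card_range, nsmul_eq_mul] at e2
  push_cast at e2 hk
  have hm2 : (0 : ℝ) ≤ (m : ℝ) + 2 := by positivity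
  have h5 := mul_le_mul_of_nonneg_left e2 hm2
  rw [e1] at hk
  nlinarith [hk, h5]

/-- The form of `A` is bounded by the root of the trace. -/
theorem form_le_of_tr {A : Matrix V V ℝ} (hA : Aᵀ = A) {q : ℕ} (hq : Even q) (hq0 : q ≠ 0) {π : ℝ}
    (hπ : 0 ≤ π) (h : (A ^ q).trace ≤ π ^ q) : Form A π := by
  obtain ⟨U, a, hU1, hU2, rfl⟩ := exists_diag hA
  rw [tr_pow_diag hU1 hU2] at h
  have ha : ∀ v, |a v| ≤ π := by
    intro v
    have h1 : a v ^ q ≤ π ^ q :=
      (Finset.single_le_sum (fun i _ => hq.pow_nonneg (a i)) (Finset.mem_univ v)).trans h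
    rw [← hq.pow_abs] at h1
    exact le_of_pow_le_pow_left₀ hq0 hπ h1
  have hiso : ∀ x : V → ℝ, nrm (Uᵀ *ᵥ x) = nrm x := by
    intro x
    have h2 : (Uᵀ *ᵥ x) ⬝ᵥ (Uᵀ *ᵥ x) = x ⬝ᵥ x := by
      rw [Matrix.dotProduct_mulVec, Matrix.vecMul_mulVec, Matrix.transpose_transpose, hU2,
        Matrix.vecMul_one]
    have h3 : ∀ y : V → ℝ, y ⬝ᵥ y = ∑ v, y v ^ 2 := fun y => by
      rw [dotProduct]
      exact Finset.sum_congr rfl fun v _ => (sq _).symm
    rw [h3, h3] at h2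
    rw [nrm, nrm, h2]
  intro x y
  have e1 : x ⬝ᵥ (U * diagonal a * Uᵀ) *ᵥ y = ∑ v, (Uᵀ *ᵥ x) v * (a v * (Uᵀ *ᵥ y) v) := by
    rw [← Matrix.mulVec_mulVec, ← Matrix.mulVec_mulVec, Matrix.dotProduct_mulVec,
      ← Matrix.mulVec_transpose, dotProduct]
    refine Finset.sum_congr rfl fun v _ => ?_
    rw [Matrix.mulVec_diagonal]
  rw [e1]
  calc |∑ v, (Uᵀ *ᵥ x) v * (a v * (Uᵀ *ᵥ y) v)|
      ≤ ∑ v, |(Uᵀ *ᵥ x) v * (a v * (Uᵀ *ᵥ y) v)| := Finset.abs_sum_le_sum_abs _ _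
    _ ≤ ∑ v, π * (|(Uᵀ *ᵥ x) v| * |(Uᵀ *ᵥ y) v|) := by
        refine Finset.sum_le_sum fun v _ => ?_
        rw [abs_mul, abs_mul]
        have := ha v
        calc _ = |a v| * (|(Uᵀ *ᵥ x) v| * |(Uᵀ *ᵥ y) v|) := by ring
          _ ≤ _ := by gcongr
    _ = π * ∑ v, |(Uᵀ *ᵥ x) v| * |(Uᵀ *ᵥ y) v| := by rw [Finset.mul_sum]
    _ ≤ π * (nrm (Uᵀ *ᵥ x) * nrm (Uᵀ *ᵥ y)) := by
        gcongr
        have h2 := Finset.sum_mul_sq_le_sq_mul_sq Finset.univ (fun v => |(Uᵀ *ᵥ x) v|)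
          (fun v => |(Uᵀ *ᵥ y) v|)
        simp only [sq_abs] at h2
        rw [nrm, nrm, ← Real.sqrt_mul (Finset.sum_nonneg fun _ _ => sq_nonneg _)]
        exact Real.le_sqrt_of_sq_le h2
    _ = π * nrm x * nrm y := by rw [hiso, hiso]; ring

end MP5c.Tr
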